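import Mathlib
import Pool.Agent.P.MP_e59a69_co.Defs

-- part Pool.Agent.P.MP_e59a69_co.Hoffman
section

/-! Hoffman's circulation theorem for finite multigraphs with integer bounds. -/

open Finset

namespace Pool.Agent.P.MP_e59a69_co

variable {V E : Type} [Fintype V] [Fintype E] [DecidableEq V]

/-- net outflow at a vertex -/
def bdry (src tgt : E → V) (φ : E → ℤ) (v : V) : ℤ :=
  ∑ e, ((if src e = v then φ e else 0) - (if tgt e = v then φ e else 0))

/-- largest possible net outflow of a vertex set -/
def capOut (src tgt : E → V) (l u : E → ℤ) (X : Finset V) : ℤ :=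
  ∑ e, (if src e ∈ X ∧ tgt e ∉ X then u e else if tgt e ∈ X ∧ src e ∉ X then - l e else 0)

omit [Fintype V] in
lemma sum_bdry (src tgt : E → V) (φ : E → ℤ) (X : Finset V) :
    ∑ v ∈ X, bdry src tgt φ v =
      ∑ e, ((if src e ∈ X then φ e else 0) - (if tgt e ∈ X then φ e else 0)) := by
  unfold bdry
  rw [Finset.sum_comm]
  refine Finset.sum_congr rfl fun e _ => ?_
  rw [Finset.sum_sub_distrib, Finset.sum_ite_eq, Finset.sum_ite_eq]

lemma sum_bdry_univ (src tgt : E → V) (φ : E → ℤ) :
    ∑ v, bdry src tgt φ v = 0 := by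
  rw [sum_bdry]; simp

omit [Fintype V] in
lemma capOut_submod (src tgt : E → V) (l u : E → ℤ) (hlu : ∀ e, l e ≤ u e) (X Y : Finset V)
    (e0 : E) (h1 : tgt e0 ∈ X) (h2 : src e0 ∉ X) (h3 : src e0 ∈ Y) (h4 : tgt e0 ∉ Y) :
    capOut src tgt l u (X ∩ Y) + capOut src tgt l u (X ∪ Y) + (u e0 - l e0) ≤
      capOut src tgt l u X + capOut src tgt l u Y := by
  classical
  unfold capOut
  have key : (u e0 - l e0) = ∑ e, (if e = e0 then u e - l e else 0) := by simp
  rw [key, ← Finset.sum_add_distrib, ← Finset.sum_add_distrib, ← Finset.sum_add_distrib]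
  refine Finset.sum_le_sum fun e _ => ?_
  have := hlu e
  by_cases he : e = e0
  · subst he
    simp [h1, h2, h3, h4]
  · by_cases a1 : src e ∈ X <;> by_cases a2 : tgt e ∈ X <;> by_cases a3 : src e ∈ Y <;>
      by_cases a4 : tgt e ∈ Y <;> simp [a1, a2, a3, a4, he] <;> omega

theorem hoffman (src tgt : E → V) (b : V → ℤ) (hb : ∑ v, b v = 0) :
    ∀ (n : ℕ) (l u : E → ℤ), (∀ e, l e ≤ u e) → ∑ e, (u e - l e) = n →
      (∀ X : Finset V, ∑ v ∈ X, b v ≤ capOut src tgt l u X) →
      ∃ φ : E → ℤ, (∀ e, l e ≤ φ e ∧ φ e ≤ u e) ∧ ∀ v, bdry src tgt φ v = b v := by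
  classical
  intro n
  induction n with
  | zero =>
    intro l u hlu hs h
    have heq : ∀ e, u e = l e := by
      intro e
      have := (Finset.sum_eq_zero_iff_of_nonneg (s := univ) (f := fun e => u e - l e)
        (fun e _ => by have := hlu e; omega)).1 (by simpa using hs) e (mem_univ e)
      omega
    refine ⟨l, fun e => ⟨le_rfl, hlu e⟩, ?_⟩
    have hle : ∀ v, b v ≤ bdry src tgt l v := by
      intro v
      have := h {v}
      rw [Finset.sum_singleton] at this
      refine this.trans (le_of_eq ?_)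
      unfold capOut bdry
      refine Finset.sum_congr rfl fun e _ => ?_
      by_cases a1 : src e = v <;> by_cases a2 : tgt e = v <;> simp [a1, a2, heq e]
    have hsum : ∑ v, (bdry src tgt l v - b v) = 0 := by
      rw [Finset.sum_sub_distrib, sum_bdry_univ, hb]; simp
    intro v
    have := (Finset.sum_eq_zero_iff_of_nonneg (s := univ) (f := fun v => bdry src tgt l v - b v)
        (fun v _ => by have := hle v; omega)).1 hsum v (mem_univ v)
    omega
  | succ n ih =>
    intro l u hlu hs h
    obtain ⟨e0, he0⟩ : ∃ e0, l e0 < u e0 := by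
      by_contra hc
      push Not at hc
      have : ∑ e, (u e - l e) ≤ 0 := Finset.sum_nonpos fun e _ => by have := hc e; omega
      push_cast at hs
      omega
    by_cases hA : ∀ X : Finset V, ∑ v ∈ X, b v ≤
        capOut src tgt (Function.update l e0 (l e0 + 1)) u X
    · obtain ⟨φ, h1, h2⟩ := ih (Function.update l e0 (l e0 + 1)) u
        (fun e => by
          by_cases he : e = e0
          · subst he; simp; omega
          · simp [he, hlu e])
        (by
          have : ∑ e, (u e - Function.update l e0 (l e0 + 1) e) =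
              ∑ e, ((u e - l e) - if e = e0 then 1 else 0) := by
            refine Finset.sum_congr rfl fun e _ => ?_
            by_cases he : e = e0
            · subst he; simp; ring
            · simp [he]
          rw [this, Finset.sum_sub_distrib, hs]; simp) hA
      refine ⟨φ, fun e => ⟨?_, (h1 e).2⟩, h2⟩
      have := (h1 e).1
      by_cases he : e = e0
      · subst he; simp at this; omega
      · simpa [he] using this
    by_cases hB : ∀ X : Finset V, ∑ v ∈ X, b v ≤
        capOut src tgt l (Function.update u e0 (u e0 - 1)) X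
    · obtain ⟨φ, h1, h2⟩ := ih l (Function.update u e0 (u e0 - 1))
        (fun e => by
          by_cases he : e = e0
          · subst he; simp; omega
          · simp [he, hlu e])
        (by
          have : ∑ e, (Function.update u e0 (u e0 - 1) e - l e) =
              ∑ e, ((u e - l e) - if e = e0 then 1 else 0) := by
            refine Finset.sum_congr rfl fun e _ => ?_
            by_cases he : e = e0
            · subst he; simp; ring
            · simp [he]
          rw [this, Finset.sum_sub_distrib, hs]; simp) hB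
      refine ⟨φ, fun e => ⟨(h1 e).1, ?_⟩, h2⟩
      have := (h1 e).2
      by_cases he : e = e0
      · subst he; simp at this; omega
      · simpa [he] using this
    exfalso
    push Not at hA hB
    obtain ⟨X, hX⟩ := hA
    obtain ⟨Y, hY⟩ := hB
    have eX : capOut src tgt (Function.update l e0 (l e0 + 1)) u X =
        capOut src tgt l u X - if tgt e0 ∈ X ∧ src e0 ∉ X then 1 else 0 := by
      unfold capOut
      have : (if tgt e0 ∈ X ∧ src e0 ∉ X then (1 : ℤ) else 0) =
          ∑ e, if e = e0 then (if tgt e0 ∈ X ∧ src e0 ∉ X then (1 : ℤ) else 0) else 0 := by simp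
      rw [this, ← Finset.sum_sub_distrib]
      refine Finset.sum_congr rfl fun e _ => ?_
      by_cases he : e = e0
      · subst he
        by_cases a1 : src e ∈ X <;> by_cases a2 : tgt e ∈ X <;> simp [a1, a2]
        ring
      · simp [he]
    have eY : capOut src tgt l (Function.update u e0 (u e0 - 1)) Y =
        capOut src tgt l u Y - if src e0 ∈ Y ∧ tgt e0 ∉ Y then 1 else 0 := by
      unfold capOut
      have : (if src e0 ∈ Y ∧ tgt e0 ∉ Y then (1 : ℤ) else 0) =
          ∑ e, if e = e0 then (if src e0 ∈ Y ∧ tgt e0 ∉ Y then (1 : ℤ) else 0) else 0 := by simp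
      rw [this, ← Finset.sum_sub_distrib]
      refine Finset.sum_congr rfl fun e _ => ?_
      by_cases he : e = e0
      · subst he
        by_cases a1 : src e ∈ Y <;> by_cases a2 : tgt e ∈ Y <;> simp [a1, a2]
      · simp [he]
    have hX0 := h X
    have hY0 := h Y
    have cX : tgt e0 ∈ X ∧ src e0 ∉ X := by
      by_contra hc; rw [eX, if_neg hc] at hX; omega
    have cY : src e0 ∈ Y ∧ tgt e0 ∉ Y := by
      by_contra hc; rw [eY, if_neg hc] at hY; omega
    rw [eX, if_pos cX] at hX
    rw [eY, if_pos cY] at hY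
    have hsub := capOut_submod src tgt l u hlu X Y e0 cX.1 cX.2 cY.1 cY.2
    have h1 := h (X ∩ Y)
    have h2 := h (X ∪ Y)
    have h3 := Finset.sum_union_inter (s₁ := X) (s₂ := Y) (f := b)
    omega

theorem hoffman' (src tgt : E → V) (b : V → ℤ) (hb : ∑ v, b v = 0) (l u : E → ℤ)
    (hlu : ∀ e, l e ≤ u e) (h : ∀ X : Finset V, ∑ v ∈ X, b v ≤ capOut src tgt l u X) :
    ∃ φ : E → ℤ, (∀ e, l e ≤ φ e ∧ φ e ≤ u e) ∧ ∀ v, bdry src tgt φ v = b v := by
  have hn : 0 ≤ ∑ e, (u e - l e) := Finset.sum_nonneg fun e _ => by have := hlu e; omega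
  exact hoffman src tgt b hb (∑ e, (u e - l e)).toNat l u hlu (Int.toNat_of_nonneg hn).symm h

/-- version with bounds on the net outflow -/
theorem hoffman_bounds (src tgt : E → V) (lo hi : V → ℤ) (hlh : ∀ v, lo v ≤ hi v) (l u : E → ℤ)
    (hlu : ∀ e, l e ≤ u e) (h1 : ∀ X : Finset V, ∑ v ∈ X, lo v ≤ capOut src tgt l u X)
    (h2 : ∀ X : Finset V, - ∑ v ∈ X, hi v ≤ capOut src tgt l u Xᶜ) :
    ∃ φ : E → ℤ, (∀ e, l e ≤ φ e ∧ φ e ≤ u e) ∧
      ∀ v, lo v ≤ bdry src tgt φ v ∧ bdry src tgt φ v ≤ hi v := by
  classical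
  let s' : E ⊕ V → Option V := Sum.elim (fun e => some (src e)) (fun _ => none)
  let t' : E ⊕ V → Option V := Sum.elim (fun e => some (tgt e)) (fun v => some v)
  obtain ⟨φ, hφ, hb⟩ := hoffman' s' t' (fun _ => 0) (by simp) (Sum.elim l lo) (Sum.elim u hi)
    (by rintro (e | v) <;> simp [hlu, hlh]) (by
      intro X
      let Y : Finset V := univ.filter fun v => some v ∈ X
      have hY : ∀ v, some v ∈ X ↔ v ∈ Y := by intro v; simp [Y]
      simp only [Finset.sum_const_zero]
      unfold capOut
      rw [Fintype.sum_sum_type]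
      simp only [s', t', Sum.elim_inl, Sum.elim_inr, hY]
      by_cases hn : none ∈ X
      · have := h2 Yᶜ
        rw [compl_compl] at this
        unfold capOut at this
        have e2 : ∑ v, (if none ∈ X ∧ v ∉ Y then hi v else if v ∈ Y ∧ none ∉ X then - lo v else 0)
            = ∑ v ∈ Yᶜ, hi v := by
          rw [← Finset.sum_ite_mem_eq Yᶜ hi]
          refine Finset.sum_congr rfl fun v _ => ?_
          by_cases hv : v ∈ Y <;> simp [hn, hv]
        rw [e2]; omega
      · have := h1 Y
        unfold capOut at this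
        have e2 : ∑ v, (if none ∈ X ∧ v ∉ Y then hi v else if v ∈ Y ∧ none ∉ X then - lo v else 0)
            = - ∑ v ∈ Y, lo v := by
          simp [hn]
        rw [e2]; omega)
  refine ⟨fun e => φ (Sum.inl e), fun e => hφ (Sum.inl e), fun v => ?_⟩
  have := hb (some v)
  unfold bdry at this ⊢
  rw [Fintype.sum_sum_type] at this
  simp only [s', t', Sum.elim_inl, Sum.elim_inr, Option.some.injEq] at this
  have h3 := hφ (Sum.inr v)
  simp at this h3 ⊢
  omega

end Pool.Agent.P.MP_e59a69_co
end

-- part Pool.Agent.P.MP_e59a69_co.Core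
section

/-! Flow pairs supported on a given even subgraph. -/

open Finset

namespace Pool.Agent.P.MP_e59a69_co

variable {V E : Type} [Fintype V] [Fintype E] [DecidableEq V] [DecidableEq E]

/-- degree in an edge set, loops counted twice -/
def dg (src tgt : E → V) (H : Finset E) (v : V) : ℕ :=
  #{e ∈ H | src e = v} + #{e ∈ H | tgt e = v}

omit [Fintype V] in
lemma dg_eq (src tgt : E → V) (H : Finset E) (v : V) :
    (dg src tgt H v : ℤ) = ∑ e, ((if src e = v then (if e ∈ H then 1 else 0) else 0) +
      (if tgt e = v then (if e ∈ H then 1 else 0) else 0)) := by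
  unfold dg
  rw [Finset.sum_add_distrib]
  push_cast
  rw [Finset.card_filter, Finset.card_filter]
  push_cast
  rw [← Finset.sum_ite_mem_eq H, ← Finset.sum_ite_mem_eq H]
  congr 1 <;> refine Finset.sum_congr rfl fun e _ => ?_ <;> split_ifs <;> rfl

omit [Fintype V] in
/-- parity of the boundary of an integer edge function -/
lemma bdry_parity (src tgt : E → V) (H : Finset E) (J : E → ℤ) (hJ : ∀ e, Odd (J e) ↔ e ∈ H)
    (v : V) : Even (bdry src tgt J v - dg src tgt H v) := by
  rw [dg_eq]
  unfold bdry
  rw [← Finset.sum_sub_distrib]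
  refine Finset.even_sum _ fun e _ => ?_
  have := hJ e
  by_cases h1 : e ∈ H
  · obtain ⟨k, hk⟩ := this.2 h1
    rw [Int.even_iff]
    by_cases a1 : src e = v <;> by_cases a2 : tgt e = v <;>
      simp only [a1, a2, h1, hk, if_true, if_false] <;> omega
  · have h2 : Even (J e) := by
      rw [← Int.not_odd_iff_even]; exact fun h => h1 (this.1 h)
    by_cases a1 : src e = v <;> by_cases a2 : tgt e = v <;> simp [a1, a2, h1, h2]

omit [Fintype V] [DecidableEq E] in
lemma bdry_add (src tgt : E → V) (φ ψ : E → ℤ) (v : V) :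
    bdry src tgt (fun e => φ e + ψ e) v = bdry src tgt φ v + bdry src tgt ψ v := by
  unfold bdry
  rw [← Finset.sum_add_distrib]
  refine Finset.sum_congr rfl fun e _ => ?_
  split_ifs <;> ring

omit [Fintype V] [DecidableEq E] in
lemma bdry_mul (src tgt : E → V) (c : ℤ) (φ : E → ℤ) (v : V) :
    bdry src tgt (fun e => c * φ e) v = c * bdry src tgt φ v := by
  unfold bdry
  rw [Finset.mul_sum]
  refine Finset.sum_congr rfl fun e _ => ?_
  split_ifs <;> ring

omit [Fintype V] [DecidableEq E] in
lemma bdry_sum {ι : Type} (src tgt : E → V) (s : Finset ι) (φ : ι → E → ℤ) (v : V) :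
    bdry src tgt (fun e => ∑ i ∈ s, φ i e) v = ∑ i ∈ s, bdry src tgt (φ i) v := by
  unfold bdry
  rw [Finset.sum_comm]
  refine Finset.sum_congr rfl fun e _ => ?_
  split_ifs <;> simp

/-- balanced orientation of an edge set -/
lemma exists_orientation (src tgt : E → V) (H : Finset E) :
    ∃ ψ : E → ℤ, (∀ e ∈ H, ψ e = 1 ∨ ψ e = -1) ∧ (∀ e, e ∉ H → ψ e = 0) ∧
      ∀ v, |bdry src tgt ψ v| ≤ 1 ∧ (Even (dg src tgt H v) → bdry src tgt ψ v = 0) := by
  let one : E → ℤ := fun e => if e ∈ H then 1 else 0
  obtain ⟨y, hy, hb⟩ := hoffman_bounds src tgt (fun v => bdry src tgt one v / 2)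
    (fun v => (bdry src tgt one v + 1) / 2) (fun v => by omega) (fun _ => 0) one
    (fun e => by simp only [one]; split_ifs <;> omega)
    (fun X => by
      have h1 : 2 * ∑ v ∈ X, bdry src tgt one v / 2 ≤ ∑ v ∈ X, bdry src tgt one v := by
        rw [Finset.mul_sum]; exact Finset.sum_le_sum fun v _ => by omega
      have h2 : ∑ v ∈ X, bdry src tgt one v ≤ 2 * capOut src tgt (fun _ => 0) one X := by
        rw [sum_bdry]; unfold capOut; rw [Finset.mul_sum]
        refine Finset.sum_le_sum fun e _ => ?_
        by_cases a1 : src e ∈ X <;> by_cases a2 : tgt e ∈ X <;> by_cases a3 : e ∈ H <;>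
          simp [a1, a2, a3, one]
      omega)
    (fun X => by
      have h1 : ∑ v ∈ X, bdry src tgt one v ≤ 2 * ∑ v ∈ X, (bdry src tgt one v + 1) / 2 := by
        rw [Finset.mul_sum]; exact Finset.sum_le_sum fun v _ => by omega
      have h2 : - ∑ v ∈ X, bdry src tgt one v ≤ 2 * capOut src tgt (fun _ => 0) one Xᶜ := by
        rw [sum_bdry]; unfold capOut; rw [Finset.mul_sum, ← Finset.sum_neg_distrib]
        refine Finset.sum_le_sum fun e _ => ?_
        by_cases a1 : src e ∈ X <;> by_cases a2 : tgt e ∈ X <;> by_cases a3 : e ∈ H <;>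
          simp [a1, a2, a3, one]
      omega)
  have hψ : ∀ v, bdry src tgt (fun e => 2 * y e + (-1) * one e) v =
      2 * bdry src tgt y v - bdry src tgt one v := by
    intro v
    rw [bdry_add src tgt (fun e => 2 * y e) (fun e => (-1) * one e), bdry_mul, bdry_mul]; ring
  refine ⟨fun e => 2 * y e + (-1) * one e, fun e he => ?_, fun e he => ?_, fun v => ?_⟩
  · have := hy e
    simp only [one, he, if_true] at this ⊢
    omega
  · have := hy e
    simp only [one, he, if_false] at this ⊢
    omega
  · rw [hψ]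
    have h1 := hb v
    refine ⟨abs_le.2 ⟨by omega, by omega⟩, fun hev => ?_⟩
    have h2 := bdry_parity src tgt H one (fun e => by
      simp only [one]; split_ifs with h <;> simp [h]) v
    obtain ⟨a, ha⟩ := hev
    obtain ⟨b, hb⟩ := h2
    have : (dg src tgt H v : ℤ) = a + a := by exact_mod_cast ha
    omega

/-- the simple graph of adjacency along edges of `F` -/
def spanGr (src tgt : E → V) (F : Finset E) : SimpleGraph V :=
  SimpleGraph.fromRel fun u v => ∃ e ∈ F, src e = u ∧ tgt e = v

omit [Fintype V] [Fintype E] [DecidableEq E] in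
lemma comp_eq_of_mem (src tgt : E → V) (F : Finset E) {e : E} (he : e ∈ F) :
    (spanGr src tgt F).connectedComponentMk (src e) =
      (spanGr src tgt F).connectedComponentMk (tgt e) := by
  by_cases h : src e = tgt e
  · rw [h]
  · refine SimpleGraph.ConnectedComponent.connectedComponentMk_eq_of_adj ?_
    simp only [spanGr, SimpleGraph.fromRel_adj]
    exact ⟨h, Or.inl ⟨e, he, rfl, rfl⟩⟩

omit [Fintype V] in
lemma exists_join (src tgt : E → V) (F : Finset E) {u v : V}
    (h : (spanGr src tgt F).Reachable u v) :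
    ∃ J : E → ℤ, (∀ e, e ∉ F → J e = 0) ∧
      ∀ w, bdry src tgt J w = (if u = w then 1 else 0) - (if v = w then 1 else 0) := by
  obtain ⟨p⟩ := h
  induction p with
  | nil => exact ⟨fun _ => 0, fun _ _ => rfl, fun w => by simp [bdry]⟩
  | @cons a b c hab p ih =>
    obtain ⟨J, hJ, hb⟩ := ih
    simp only [spanGr, SimpleGraph.fromRel_adj] at hab
    obtain ⟨-, ⟨e0, he0, h1, h2⟩ | ⟨e0, he0, h1, h2⟩⟩ := hab
    · refine ⟨fun e => J e + (if e = e0 then 1 else 0), fun e he => ?_, fun w => ?_⟩
      · have : e ≠ e0 := fun h => he (h ▸ he0)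
        simp [hJ e he, this]
      · rw [bdry_add, hb]
        have : bdry src tgt (fun e => if e = e0 then 1 else 0) w =
            (if a = w then 1 else 0) - (if b = w then 1 else 0) := by
          unfold bdry
          rw [Finset.sum_eq_single e0]
          · simp [h1, h2]
          · intro e _ he; simp [he]
          · simp
        rw [this]; ring
    · refine ⟨fun e => J e + (if e = e0 then -1 else 0), fun e he => ?_, fun w => ?_⟩
      · have : e ≠ e0 := fun h => he (h ▸ he0)
        simp [hJ e he, this]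
      · rw [bdry_add, hb]
        have : bdry src tgt (fun e => if e = e0 then -1 else 0) w =
            (if a = w then 1 else 0) - (if b = w then 1 else 0) := by
          unfold bdry
          rw [Finset.sum_eq_single e0]
          · simp only [h1, h2, if_true]; split_ifs <;> ring
          · intro e _ he; simp [he]
          · simp
        rw [this]; ring

omit [Fintype V] [Fintype E] [DecidableEq E] in
lemma exists_cross (src tgt : E → V) (F : Finset E) (X : Finset V) {u v : V}
    (h : (spanGr src tgt F).Reachable u v) (hu : u ∈ X) (hv : v ∉ X) :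
    ∃ e ∈ F, ¬ (src e ∈ X ↔ tgt e ∈ X) ∧
      (spanGr src tgt F).connectedComponentMk (src e) =
        (spanGr src tgt F).connectedComponentMk u := by
  obtain ⟨p⟩ := h
  induction p with
  | nil => exact absurd hu hv
  | @cons a b c hab p ih =>
    have hcomp := SimpleGraph.ConnectedComponent.connectedComponentMk_eq_of_adj hab
    by_cases hb : b ∈ X
    · obtain ⟨e, he, h1, h2⟩ := ih hb hv
      exact ⟨e, he, h1, h2.trans hcomp.symm⟩
    · simp only [spanGr, SimpleGraph.fromRel_adj] at hab
      obtain ⟨-, ⟨e0, he0, h1, h2⟩ | ⟨e0, he0, h1, h2⟩⟩ := hab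
      · exact ⟨e0, he0, by simp [h1, h2, hu, hb], by rw [h1]⟩
      · exact ⟨e0, he0, by simp [h1, h2, hu, hb], by rw [h1]; exact hcomp.symm⟩

open Classical in
/-- a component of an even edge set crossing a cut does so at least twice -/
lemma two_le_cross (src tgt : E → V) (F : Finset E) (hF : ∀ v, Even (dg src tgt F v))
    (X : Finset V) {u v : V}
    (h : (spanGr src tgt F).Reachable u v) (hu : u ∈ X) (hv : v ∉ X) :
    2 ≤ #{e ∈ F | ¬ (src e ∈ X ↔ tgt e ∈ X) ∧
      (spanGr src tgt F).connectedComponentMk (src e) =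
        (spanGr src tgt F).connectedComponentMk u} := by
  obtain ⟨φ, h1, h0, hb⟩ := exists_orientation src tgt F
  set S := {e ∈ F | ¬ (src e ∈ X ↔ tgt e ∈ X) ∧
      (spanGr src tgt F).connectedComponentMk (src e) =
        (spanGr src tgt F).connectedComponentMk u} with hS
  obtain ⟨e0, he0, h2, h3⟩ := exists_cross src tgt F X h hu hv
  have hm : e0 ∈ S := by simp only [hS, mem_filter]; exact ⟨he0, h2, h3⟩
  by_contra hc
  have hsing : ∀ e ∈ S, e = e0 := fun e he =>
    Finset.card_le_one.1 (by omega) e he e0 hm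
  let Y : Finset V := X.filter fun w => (spanGr src tgt F).connectedComponentMk w =
        (spanGr src tgt F).connectedComponentMk u
  have hz : ∑ w ∈ Y, bdry src tgt φ w = 0 :=
    Finset.sum_eq_zero fun w _ => (hb w).2 (hF w)
  have hY : ∀ w, w ∈ Y ↔ w ∈ X ∧ (spanGr src tgt F).connectedComponentMk w =
        (spanGr src tgt F).connectedComponentMk u := fun w => by simp only [Y, mem_filter]
  rw [sum_bdry, Finset.sum_eq_single e0] at hz
  · have h4 := comp_eq_of_mem src tgt F he0
    have h5 := h1 e0 he0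
    simp only [hY, ← h4, h3, and_true] at hz
    by_cases a1 : src e0 ∈ X <;> by_cases a2 : tgt e0 ∈ X <;>
      simp only [a1, a2, if_true, if_false] at hz h2
    · simp at h2
    · omega
    · omega
    · simp at h2
  · intro e _ hne
    by_cases he : e ∈ F
    · have h4 := comp_eq_of_mem src tgt F he
      have h5 : e ∉ S := fun h => hne (hsing e h)
      simp only [hS, mem_filter, he, true_and, not_and] at h5
      simp only [hY, ← h4]
      by_cases a0 : (spanGr src tgt F).connectedComponentMk (src e) =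
        (spanGr src tgt F).connectedComponentMk u
      · have h6 : src e ∈ X ↔ tgt e ∈ X := by
          by_contra h7; exact h5 h7 a0
        simp only [h6, sub_self]
      · simp only [a0, and_false, if_false, sub_self]
    · simp [h0 e he]
  · simp

end Pool.Agent.P.MP_e59a69_co
end

-- part Pool.Agent.P.MP_e59a69_co.Main
section

/-! The main existence theorem for flow pairs. -/

open Finset

namespace Pool.Agent.P.MP_e59a69_co

variable {V E : Type} [Fintype V] [Fintype E] [DecidableEq V] [DecidableEq E]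

open Classical in
/-- a unit flow through all edges outside `F`, balanced except at one vertex of each odd component -/
lemma exists_psi (src tgt : E → V) (F : Finset E)
    (O : Set (spanGr src tgt F).ConnectedComponent)
    (hO : ∀ c, Odd (∑ v with (spanGr src tgt F).connectedComponentMk v = c, dg src tgt Fᶜ v) →
      c ∈ O) :
    ∃ (ψ : E → ℤ) (Z : Finset V), (∀ e, e ∉ F → ψ e = 1 ∨ ψ e = -1) ∧ (∀ e, |ψ e| ≤ 1) ∧
      (∀ v, |bdry src tgt ψ v| ≤ 1) ∧ (∀ v, v ∉ Z → bdry src tgt ψ v = 0) ∧
      (∀ v ∈ Z, (spanGr src tgt F).connectedComponentMk v ∈ O) ∧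
      (∀ v ∈ Z, ∀ w ∈ Z, (spanGr src tgt F).connectedComponentMk v =
        (spanGr src tgt F).connectedComponentMk w → v = w) := by
  let G := spanGr src tgt F
  let r : V → V := fun v => (G.connectedComponentMk v).out
  have hr : ∀ v, G.connectedComponentMk (r v) = G.connectedComponentMk v :=
    fun v => Quot.out_eq _
  have hreach : ∀ v, G.Reachable v (r v) := fun v =>
    SimpleGraph.ConnectedComponent.exact (hr v).symm
  choose J hJ0 hJ using fun v => exists_join src tgt F (hreach v)
  let K : E → ℤ := fun e => ∑ v, (dg src tgt Fᶜ v : ℤ) * J v e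
  have hK0 : ∀ e, e ∉ F → K e = 0 := fun e he =>
    Finset.sum_eq_zero fun v _ => by rw [hJ0 v e he, mul_zero]
  have hKb : ∀ w, bdry src tgt K w = dg src tgt Fᶜ w -
      ∑ v, (if r v = w then (dg src tgt Fᶜ v : ℤ) else 0) := by
    intro w
    rw [bdry_sum src tgt univ (fun v e => (dg src tgt Fᶜ v : ℤ) * J v e)]
    simp only [bdry_mul, hJ, mul_sub, Finset.sum_sub_distrib, mul_ite, mul_one, mul_zero]
    simp
  let one : E → ℤ := fun e => if e ∈ Fᶜ then 1 else 0
  let H : Finset E := univ.filter fun e => Odd (K e + one e)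
  have hp1 := bdry_parity src tgt H (fun e => K e + one e) (fun e => by simp [H])
  have hp2 := bdry_parity src tgt Fᶜ one (fun e => by
    simp only [one]; split_ifs with h <;> simp [h])
  obtain ⟨ψ, h1, h0, hb⟩ := exists_orientation src tgt H
  let Z : Finset V := univ.filter fun w => r w = w ∧ G.connectedComponentMk w ∈ O
  refine ⟨ψ, Z, fun e he => h1 e ?_, fun e => ?_, fun v => (hb v).1, fun w hw => (hb w).2 ?_,
    fun v hv => ?_, fun v hv w hw h => ?_⟩
  · simp [H, hK0 e he, one, he]
  · by_cases he : e ∈ H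
    · rcases h1 e he with h | h <;> simp [h]
    · simp [h0 e he]
  · have hev : Even (∑ v, (if r v = w then (dg src tgt Fᶜ v : ℤ) else 0)) := by
      by_cases hrw : r w = w
      · have hnO : G.connectedComponentMk w ∉ O := fun h => hw (by simp [Z, hrw, h])
        have h2 : ¬ Odd (∑ v with G.connectedComponentMk v = G.connectedComponentMk w,
            dg src tgt Fᶜ v) := fun h => hnO (hO _ h)
        rw [Nat.not_odd_iff_even] at h2
        have h3 : (∑ v, (if r v = w then (dg src tgt Fᶜ v : ℤ) else 0)) =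
            ((∑ v with G.connectedComponentMk v = G.connectedComponentMk w,
              dg src tgt Fᶜ v : ℕ) : ℤ) := by
          rw [Finset.sum_filter]
          push_cast
          refine Finset.sum_congr rfl fun v _ => ?_
          have : r v = w ↔ G.connectedComponentMk v = G.connectedComponentMk w := by
            constructor
            · intro h; rw [← h, hr]
            · intro h; rw [← hrw]; simp only [r, h]
          simp only [this]
        rw [h3]
        exact_mod_cast h2
      · have : ∀ v, r v ≠ w := by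
          intro v h
          apply hrw
          have h2 : G.connectedComponentMk w = G.connectedComponentMk v := by rw [← h, hr]
          rw [← h]; simp only [r, hr v]
        simp [this]
    have a1 := hp1 w
    have a2 := hp2 w
    rw [bdry_add, hKb] at a1
    rw [← Int.even_coe_nat]
    rw [Int.even_iff] at *
    omega
  · simp only [Z, mem_filter] at hv; exact hv.2.2
  · simp only [Z, mem_filter] at hv hw
    rw [← hv.2.1, ← hw.2.1]
    simp only [r]
    exact congrArg _ h

open Classical in
lemma cross_bound (src tgt : E → V) (F : Finset E) (hF : ∀ v, Even (dg src tgt F v))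
    (O : Set (spanGr src tgt F).ConnectedComponent) (Z X : Finset V)
    (hZ : ∀ v ∈ Z, (spanGr src tgt F).connectedComponentMk v ∈ O)
    (hinj : ∀ v ∈ Z, ∀ w ∈ Z, (spanGr src tgt F).connectedComponentMk v =
        (spanGr src tgt F).connectedComponentMk w → v = w)
    (hX : ¬ ∃ c ∈ O, ∀ v, (spanGr src tgt F).connectedComponentMk v = c → v ∈ X) :
    2 * #(Z ∩ X) ≤ #{e ∈ F | ¬ (src e ∈ X ↔ tgt e ∈ X)} := by
  let S : V → Finset E := fun u => {e ∈ F | ¬ (src e ∈ X ↔ tgt e ∈ X) ∧
      (spanGr src tgt F).connectedComponentMk (src e) =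
        (spanGr src tgt F).connectedComponentMk u}
  have h1 : ∀ u ∈ Z ∩ X, 2 ≤ #(S u) := by
    intro u hu
    rw [mem_inter] at hu
    have : ∃ v, (spanGr src tgt F).connectedComponentMk v =
        (spanGr src tgt F).connectedComponentMk u ∧ v ∉ X := by
      by_contra hc
      push Not at hc
      exact hX ⟨_, hZ u hu.1, hc⟩
    obtain ⟨v, hv, hvX⟩ := this
    exact two_le_cross src tgt F hF X (SimpleGraph.ConnectedComponent.exact hv.symm) hu.2 hvX
  have h2 : #((Z ∩ X).biUnion S) = ∑ u ∈ Z ∩ X, #(S u) := by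
    refine Finset.card_biUnion ?_
    intro u hu w hw hne
    rw [Function.onFun, Finset.disjoint_left]
    intro e he1 he2
    simp only [S, mem_filter] at he1 he2
    exact hne (hinj u (mem_inter.1 hu).1 w (mem_inter.1 hw).1 (he1.2.2.symm.trans he2.2.2))
  have h3 : (Z ∩ X).biUnion S ⊆ {e ∈ F | ¬ (src e ∈ X ↔ tgt e ∈ X)} := by
    intro e he
    simp only [mem_biUnion, S, mem_filter] at he ⊢
    obtain ⟨u, -, h4, h5, -⟩ := he
    exact ⟨h4, h5⟩
  have h4 := Finset.card_le_card h3
  have h5 : ∑ u ∈ Z ∩ X, 2 ≤ ∑ u ∈ Z ∩ X, #(S u) := Finset.sum_le_sum h1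
  rw [Finset.sum_const, smul_eq_mul] at h5
  omega

open Classical in
theorem core (src tgt : E → V) (F : Finset E) (hF : ∀ v, Even (dg src tgt F v))
    (O : Set (spanGr src tgt F).ConnectedComponent)
    (hO : ∀ c, Odd (∑ v with (spanGr src tgt F).connectedComponentMk v = c, dg src tgt Fᶜ v) →
      c ∈ O)
    (hcut : ∀ X : Finset V,
      (∃ c ∈ O, ∀ v, (spanGr src tgt F).connectedComponentMk v = c → v ∈ X) →
      (∃ c ∈ O, ∀ v, (spanGr src tgt F).connectedComponentMk v = c → v ∈ Xᶜ) →
      #{e ∈ F | ¬ (src e ∈ X ↔ tgt e ∈ X)} < O.ncard →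
      5 * O.ncard ≤ 2 * #{e | ¬ (src e ∈ X ↔ tgt e ∈ X)} + 2) :
    ∃ φ₂ φ₄ : E → ℤ, (∀ e ∈ F, φ₂ e = 1 ∨ φ₂ e = -1) ∧ (∀ e, e ∉ F → φ₂ e = 0) ∧
      (∀ v, bdry src tgt φ₂ v = 0) ∧ (∀ e, |φ₄ e| ≤ 3) ∧ (∀ e, e ∉ F → 2 ≤ |φ₄ e|) ∧
      ∀ v, bdry src tgt φ₄ v = 0 := by
  obtain ⟨φ₂, a1, a0, ab⟩ := exists_orientation src tgt F
  obtain ⟨ψ, Z, p1, p2, p3, p4, p5, p6⟩ := exists_psi src tgt F O hO
  let l : E → ℤ := fun e => if e ∈ F then -3 else if ψ e = 1 then 2 else -3
  let u : E → ℤ := fun e => if e ∈ F then 3 else if ψ e = 1 then 3 else -2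
  have hZw : #Z ≤ O.ncard := by
    rw [← Set.ncard_coe_finset]
    exact Set.ncard_le_ncard_of_injOn (fun v => (spanGr src tgt F).connectedComponentMk v)
      (fun v hv => p5 v hv) (fun v hv w hw h => p6 v hv w hw h) (Set.toFinite _)
  have hle : ∀ X : Finset V, |∑ v ∈ X, bdry src tgt ψ v| ≤ #(Z ∩ X) := by
    intro X
    refine (Finset.abs_sum_le_sum_abs _ _).trans ?_
    have : (#(Z ∩ X) : ℤ) = ∑ v ∈ X, if v ∈ Z then 1 else 0 := by
      rw [Finset.sum_ite_mem, inter_comm]; simp
    rw [this]
    refine Finset.sum_le_sum fun v _ => ?_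
    split_ifs with h
    · exact p3 v
    · simp [p4 v h]
  obtain ⟨φ₄, b1, b2⟩ := hoffman' src tgt (fun _ => 0) (by simp) l u
    (fun e => by simp only [l, u]; split_ifs <;> omega) (fun X => by
      simp only [Finset.sum_const_zero]
      by_contra hneg
      have hk1 := hle X
      have hk2 := hle Xᶜ
      have hk3 : ∑ v ∈ X, bdry src tgt ψ v + ∑ v ∈ Xᶜ, bdry src tgt ψ v = 0 := by
        rw [Finset.sum_add_sum_compl, sum_bdry_univ]
      have hk4 : #(Z ∩ X) + #(Z ∩ Xᶜ) = #Z := by
        rw [← Finset.card_union_of_disjoint, ← inter_union_distrib_left, union_compl, inter_univ]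
        exact Finset.disjoint_left.2 fun v h1 h2 =>
          (mem_compl.1 (mem_inter.1 h2).2) (mem_inter.1 h1).2
      have hf : (#{e ∈ F | ¬ (src e ∈ X ↔ tgt e ∈ X)} : ℤ) ≤
          capOut src tgt l u X - 2 * ∑ v ∈ X, bdry src tgt ψ v := by
        rw [sum_bdry, Finset.card_filter]
        push_cast
        rw [← Finset.sum_ite_mem_eq F]
        unfold capOut
        rw [Finset.mul_sum, ← Finset.sum_sub_distrib]
        refine Finset.sum_le_sum fun e _ => ?_
        have q1 := p1 e
        have q2 := abs_le.1 (p2 e)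
        by_cases c1 : src e ∈ X <;> by_cases c2 : tgt e ∈ X <;> by_cases c3 : e ∈ F <;>
          by_cases c4 : ψ e = 1 <;> simp [l, u, c1, c2, c3, c4] at q1 ⊢ <;> omega
      have hd : (#{e | ¬ (src e ∈ X ↔ tgt e ∈ X)} : ℤ) ≤
          2 * capOut src tgt l u X - 5 * ∑ v ∈ X, bdry src tgt ψ v := by
        rw [sum_bdry, Finset.card_filter]
        push_cast
        unfold capOut
        rw [Finset.mul_sum, Finset.mul_sum, ← Finset.sum_sub_distrib]
        refine Finset.sum_le_sum fun e _ => ?_
        have q1 := p1 e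
        have q2 := abs_le.1 (p2 e)
        by_cases c1 : src e ∈ X <;> by_cases c2 : tgt e ∈ X <;> by_cases c3 : e ∈ F <;>
          by_cases c4 : ψ e = 1 <;> simp [l, u, c1, c2, c3, c4] at q1 ⊢ <;> omega
      have hk1' := abs_le.1 hk1
      have hk2' := abs_le.1 hk2
      by_cases hA : ∃ c ∈ O, ∀ v, (spanGr src tgt F).connectedComponentMk v = c → v ∈ X
      · by_cases hB : ∃ c ∈ O, ∀ v, (spanGr src tgt F).connectedComponentMk v = c → v ∈ Xᶜ
        · have := hcut X hA hB (by omega)
          omega
        · have := cross_bound src tgt F hF O Z Xᶜ p5 p6 hB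
          have e1 : #{e ∈ F | ¬ (src e ∈ Xᶜ ↔ tgt e ∈ Xᶜ)} =
              #{e ∈ F | ¬ (src e ∈ X ↔ tgt e ∈ X)} := by
            congr 1
            refine Finset.filter_congr fun e _ => ?_
            simp only [mem_compl]; tauto
          omega
      · have := cross_bound src tgt F hF O Z X p5 p6 hA
        omega)
  refine ⟨φ₂, φ₄, a1, a0, fun v => (ab v).2 (hF v), fun e => ?_, fun e he => ?_, b2⟩
  · have := b1 e
    simp only [l, u] at this
    rw [abs_le]
    split_ifs at this <;> omega
  · have := b1 e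
    simp only [l, u, he, if_false] at this
    rw [le_abs]
    split_ifs at this <;> omega

end Pool.Agent.P.MP_e59a69_co
end

-- part Pool.Agent.P.MP_e59a69_co.Cubic
section

open Finset

namespace Pool.Agent.P.MP_e59a69_co

variable {V E : Type} [Fintype V] [Fintype E] [DecidableEq V] [DecidableEq E]

omit [Fintype V] [DecidableEq E] in
lemma kflow_of_bdry (src tgt : E → V) (k : ℤ) (φ : E → ℤ) (h1 : ∀ e, |φ e| ≤ k - 1)
    (h2 : ∀ v, bdry src tgt φ v = 0) : IsKFlow src tgt k φ := by
  refine ⟨h1, fun v => ?_⟩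
  have := h2 v
  unfold bdry at this
  rw [Finset.sum_sub_distrib, ← Finset.sum_filter, ← Finset.sum_filter] at this
  omega

omit [Fintype V] in
lemma dg_compl (src tgt : E → V) (F : Finset E) (v : V) :
    dg src tgt F v + dg src tgt Fᶜ v = dg src tgt univ v := by
  have : (dg src tgt F v : ℤ) + dg src tgt Fᶜ v = dg src tgt univ v := by
    simp only [dg_eq]
    rw [← Finset.sum_add_distrib]
    refine Finset.sum_congr rfl fun e _ => ?_
    by_cases a1 : src e = v <;> by_cases a2 : tgt e = v <;> by_cases a3 : e ∈ F <;>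
      simp [a1, a2, a3]
  exact_mod_cast this

omit [Fintype V] [DecidableEq E] in
open Classical in
lemma hasCycle_of_comp (src tgt : E → V) (F : Finset E) (hF : ∀ v, dg src tgt F v = 2)
    (X : Finset V) (c : (spanGr src tgt F).ConnectedComponent)
    (hc : ∀ v, (spanGr src tgt F).connectedComponentMk v = c → v ∈ X) : HasCycleIn src tgt X := by
  let C : Finset E := F.filter fun e => (spanGr src tgt F).connectedComponentMk (src e) = c
  have hdeg : ∀ v, degIn src tgt C v =
      if (spanGr src tgt F).connectedComponentMk v = c then 2 else 0 := by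
    intro v
    unfold degIn
    split_ifs with h
    · rw [← hF v]
      unfold dg
      congr 2
      · ext e
        simp only [C, mem_filter]
        constructor
        · rintro ⟨⟨h1, -⟩, h2⟩; exact ⟨h1, h2⟩
        · rintro ⟨h1, h2⟩; exact ⟨⟨h1, by rw [h2, h]⟩, h2⟩
      · ext e
        simp only [C, mem_filter]
        constructor
        · rintro ⟨⟨h1, -⟩, h2⟩; exact ⟨h1, h2⟩
        · rintro ⟨h1, h2⟩; exact ⟨⟨h1, by rw [comp_eq_of_mem src tgt F h1, h2, h]⟩, h2⟩
    · have e1 : ({e ∈ C | src e = v} : Finset E) = ∅ := by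
        refine Finset.filter_eq_empty_iff.2 fun e he h2 => h ?_
        rw [← h2]; exact (mem_filter.1 he).2
      have e2 : ({e ∈ C | tgt e = v} : Finset E) = ∅ := by
        refine Finset.filter_eq_empty_iff.2 fun e he h2 => h ?_
        rw [← h2, ← comp_eq_of_mem src tgt F (mem_filter.1 he).1]; exact (mem_filter.1 he).2
      rw [e1, e2]; rfl
  refine ⟨C, ?_, fun e he => ?_, fun v => ?_⟩
  · obtain ⟨v, hv⟩ := c.exists_rep
    have h1 := hdeg v
    have hv' : (spanGr src tgt F).connectedComponentMk v = c := hv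
    rw [if_pos hv'] at h1
    rw [Finset.nonempty_iff_ne_empty]
    intro h
    rw [h] at h1
    simp [degIn] at h1
  · have h1 := mem_filter.1 he
    exact ⟨hc _ h1.2, hc _ (by rw [← comp_eq_of_mem src tgt F h1.1]; exact h1.2)⟩
  · rw [hdeg]; split_ifs <;> simp

theorem cubic_main (src tgt : E → V) (hcubic : ∀ v, degIn src tgt univ v = 3)
    (F : Finset E) (hF : ∀ v, degIn src tgt F v = 2)
    (hcut : ∀ X : Finset V, HasCycleIn src tgt X → HasCycleIn src tgt Xᶜ →
      5 * numOddComps src tgt F ≤ 2 * #{e | ¬ (src e ∈ X ↔ tgt e ∈ X)} + 2) :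
    ∃ φ₂ φ₄ : E → ℤ, IsKFlow src tgt 2 φ₂ ∧ IsKFlow src tgt 4 φ₄ ∧
      (∀ e, φ₂ e = 0 → 2 ≤ |φ₄ e|) ∧ ∀ e, φ₂ e ≠ 0 ↔ e ∈ F := by
  classical
  have hF' : ∀ v, dg src tgt F v = 2 := hF
  have hM : ∀ v, dg src tgt Fᶜ v = 1 := fun v => by
    have h1 := dg_compl src tgt F v
    have h2 : dg src tgt univ v = 3 := hcubic v
    have h3 := hF' v
    omega
  obtain ⟨φ₂, φ₄, a1, a0, ab, b1, b2, b3⟩ := core src tgt F (fun v => by rw [hF' v]; decide)
    (spanGr src tgt F).oddComponents
    (fun c hc => by
      simp only [hM, Finset.sum_const, smul_eq_mul, mul_one] at hc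
      show Odd c.supp.ncard
      have : c.supp = ↑(univ.filter fun v => (spanGr src tgt F).connectedComponentMk v = c) := by
        ext v; simp
      rw [this, Set.ncard_coe_finset]
      exact hc)
    (fun X ⟨c, _, hc⟩ ⟨c', _, hc'⟩ _ =>
      hcut X (hasCycle_of_comp src tgt F hF' X c hc) (hasCycle_of_comp src tgt F hF' Xᶜ c' hc'))
  have hs : ∀ e, φ₂ e ≠ 0 ↔ e ∈ F := fun e => by
    by_cases he : e ∈ F
    · have := a1 e he
      simp only [he, iff_true]; omega
    · simp [he, a0 e he]
  refine ⟨φ₂, φ₄, kflow_of_bdry _ _ _ _ (fun e => ?_) ab, kflow_of_bdry _ _ _ _ (fun e => ?_) b3,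
    fun e he => b2 e fun h => (hs e).2 h he, hs⟩
  · by_cases he : e ∈ F
    · rcases a1 e he with h | h <;> simp [h]
    · simp [a0 e he]
  · have := b1 e; omega

end Pool.Agent.P.MP_e59a69_co
end
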