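import Mathlib
import Pool.Agent.K.MP_e59a69_co.C0
import Pool.Agent.Lib.Selector.Det

-- part Pool.Agent.P.MP_e59a69_co.SRHaxell
section

/-! Independent sets of vectors without conflicts (Haxell's argument for a linear matroid). -/

open Finset

namespace Pool.Agent.P.MP_e59a69_co

lemma span_exchange {ι W : Type} [DecidableEq ι] [AddCommGroup W] [Module ℝ W] (a : ι → W)
    {I S S' : Finset ι} (hI : LinearIndepOn ℝ a (I : Set ι)) (h1 : S ⊆ S') (h2 : S' ⊆ I) {z : W}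
    (h3 : z ∈ Submodule.span ℝ (a '' (S' : Set ι))) (h4 : z ∉ Submodule.span ℝ (a '' (S : Set ι))) :
    ∃ y ∈ S', y ∉ S ∧ z ∉ Submodule.span ℝ (a '' (I.erase y : Set ι)) := by
  obtain ⟨c, hc⟩ := (Submodule.mem_span_image_finset_iff_exists_fun' ℝ).1 h3
  by_contra hn
  push Not at hn
  refine h4 ?_
  have h0 : ∀ y ∈ S', y ∉ S → c y = 0 := by
    intro y hy hyS
    by_contra hcy
    have hz := hn y hy hyS
    rw [coe_erase] at hz
    refine hI.notMem_span (mem_coe.2 (h2 hy)) ?_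
    have e : c y • a y = z - ∑ i ∈ S'.erase y, c i • a i := by
      rw [← hc, ← add_sum_erase _ _ hy, add_sub_cancel_right]
    have hm : c y • a y ∈ Submodule.span ℝ (a '' ((I : Set ι) \ {y})) := by
      rw [e]
      refine sub_mem hz (sum_mem fun i hi => Submodule.smul_mem _ _ (Submodule.subset_span ?_))
      exact ⟨i, ⟨mem_coe.2 (h2 (mem_of_mem_erase hi)), ne_of_mem_erase hi⟩, rfl⟩
    exact (Submodule.smul_mem_iff _ hcy).1 hm
  rw [← hc, ← sum_subset h1 fun y hy hyS => by rw [h0 y hy hyS, zero_smul]]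
  exact sum_mem fun i hi => Submodule.smul_mem _ _ (Submodule.subset_span ⟨i, hi, rfl⟩)

section
variable {ι W : Type} [DecidableEq ι] [AddCommGroup W] [Module ℝ W]

/-- the span of a finite subfamily -/
def srxSp (a : ι → W) (S : Finset ι) : Submodule ℝ W := Submodule.span ℝ (a '' (S : Set ι))

/-- independent and free of conflicts -/
def srxGood (a : ι → W) (R : ι → ι → Prop) (I : Finset ι) : Prop :=
  LinearIndepOn ℝ a (I : Set ι) ∧ ∀ x ∈ I, ∀ y ∈ I, x ≠ y → ¬ R x y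

/-- a modification outside `B` -/
def srxMod (a : ι → W) (R : ι → ι → Prop) (I B Xs I' : Finset ι) : Prop :=
  srxGood a R I' ∧ #I' = #I ∧ B ⊆ I' ∧ srxSp a (I' \ B) = srxSp a (I \ B) ∧
    ∀ y ∈ I', y ∉ I → ∀ x ∈ Xs, ¬ R x y

omit [DecidableEq ι] in
lemma srxhax_mem (a : ι → W) {S : Finset ι} {x : ι} (h : x ∈ S) : a x ∈ srxSp a S :=
  Submodule.subset_span ⟨x, h, rfl⟩

omit [DecidableEq ι] in
lemma srxhax_mono (a : ι → W) {S T : Finset ι} (h : S ⊆ T) : srxSp a S ≤ srxSp a T :=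
  Submodule.span_mono (Set.image_mono (coe_subset.2 h))

omit [DecidableEq ι] in
lemma srxhax_le (a : ι → W) {S : Finset ι} {U : Submodule ℝ W} (h : ∀ x ∈ S, a x ∈ U) :
    srxSp a S ≤ U :=
  Submodule.span_le.2 (by rintro _ ⟨x, hx, rfl⟩; exact h x hx)

lemma srxhax_union (a : ι → W) (S T : Finset ι) : srxSp a (S ∪ T) = srxSp a S ⊔ srxSp a T := by
  unfold srxSp
  rw [coe_union, Set.image_union, Submodule.span_union]

lemma srxhax_insert {a : ι → W} {R : ι → ι → Prop} (hR : ∀ x y, R x y → R y x) {I : Finset ι}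
    (h : srxGood a R I) {z : ι} (hz : a z ∉ srxSp a I) (hr : ∀ y ∈ I, ¬ R z y) :
    srxGood a R (insert z I) ∧ #(insert z I) = #I + 1 := by
  refine ⟨⟨?_, fun x hx y hy hne => ?_⟩, card_insert_of_notMem fun hm => hz (srxhax_mem a hm)⟩
  · rw [coe_insert]
    exact h.1.insert hz
  · rcases mem_insert.1 hx with rfl | hx'
    · rcases mem_insert.1 hy with rfl | hy'
      · exact absurd rfl hne
      · exact hr y hy'
    · rcases mem_insert.1 hy with rfl | hy'
      · exact fun e => hr x hx' (hR _ _ e)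
      · exact h.2 x hx' y hy' hne

lemma srxhax_claim (a : ι → W) (R : ι → ι → Prop) [DecidableRel R] (hR : ∀ x y, R x y → R y x)
    (n : ℕ) (hex : ∀ I B Xs : Finset ι, #I < n → B ⊆ I → #Xs ≤ #B →
      ∃ x, a x ∉ srxSp a (I \ B) ∧ x ∉ B ∧ (∀ w ∈ Xs, ¬ R w x) ∧ ∀ w ∈ B, ¬ R w x) (k : ℕ) :
    ∀ I B Xs : Finset ι, #I - #B = k → #I < n → srxGood a R I → B ⊆ I → #Xs ≤ #B →
      ∃ I' x, srxMod a R I B Xs I' ∧ a x ∉ srxSp a (I \ B) ∧ x ∉ B ∧ (∀ w ∈ Xs, ¬ R w x) ∧
        ∀ y ∈ I', ¬ R x y := by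
  induction k using Nat.strong_induction_on with
  | _ k ih =>
  intro I B Xs hk hn hI hB hX
  obtain ⟨x, x1, x2, x3, x4⟩ := hex I B Xs hn hB hX
  suffices H : ∀ t I', srxMod a R I B Xs I' → #{y ∈ I' | R x y} ≤ t →
      ∃ I' x, srxMod a R I B Xs I' ∧ a x ∉ srxSp a (I \ B) ∧ x ∉ B ∧ (∀ w ∈ Xs, ¬ R w x) ∧
        ∀ y ∈ I', ¬ R x y from
    H _ I ⟨hI, rfl, hB, rfl, fun y h h' => absurd h h'⟩ le_rfl
  intro t
  induction t with
  | zero =>
    intro I' hM ht
    refine ⟨I', x, hM, x1, x2, x3, fun y hy hr => ?_⟩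
    exact absurd (card_pos.2 ⟨y, mem_filter.2 ⟨hy, hr⟩⟩) (not_lt.2 ht)
  | succ t iht =>
    intro I' hM ht
    set N := {y ∈ I' | R x y} with hN
    rcases N.eq_empty_or_nonempty with h0 | h0
    · exact iht I' hM (by rw [← hN, h0]; simp)
    obtain ⟨m1, m2, m3, m4, m5⟩ := hM
    have hd : Disjoint B N := disjoint_left.2 fun w hw hw' => x4 w hw (hR _ _ (mem_filter.1 hw').2)
    have hc : #(B ∪ N) = #B + #N := card_union_of_disjoint hd
    have hpos := card_pos.2 h0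
    have hsub : B ∪ N ⊆ I' := union_subset m3 (filter_subset _ _)
    have hle := card_le_card hsub
    obtain ⟨J, z, ⟨j1, j2, j3, j4, j5⟩, z1, z2, z3, z4⟩ := ih (#I' - #(B ∪ N)) (by omega) I' (B ∪ N)
      (insert x Xs) rfl (by omega) m1 hsub ((card_insert_le _ _).trans (by omega))
    have split : ∀ T : Finset ι, B ∪ N ⊆ T → T \ B = T \ (B ∪ N) ∪ N := by
      intro T hT
      ext w
      simp only [mem_sdiff, mem_union]
      constructor
      · tauto
      · rintro (h | h)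
        · tauto
        · exact ⟨hT (mem_union_right _ h), fun hb => disjoint_left.1 hd hb h⟩
    have hsp : srxSp a (J \ B) = srxSp a (I \ B) := by
      rw [← m4, split J j3, split I' hsub, srxhax_union, srxhax_union, j4]
    have hnew : ∀ y ∈ J, y ∉ I → ∀ w ∈ Xs, ¬ R w y := fun y hy hyI w hw => by
      by_cases h : y ∈ I'
      · exact m5 y h hyI w hw
      · exact j5 y hy h w (mem_insert_of_mem hw)
    have hBJ : B ⊆ J := subset_union_left.trans j3
    have zB : z ∉ B := fun h => z2 (mem_union_left _ h)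
    by_cases hz : a z ∈ srxSp a (I \ B)
    swap
    · exact ⟨J, z, ⟨j1, j2.trans m2, hBJ, hsp, hnew⟩, hz, zB,
        fun w hw => z3 w (mem_insert_of_mem hw), z4⟩
    rw [← hsp] at hz
    rw [← j4] at z1
    obtain ⟨y, y1, y2, y3⟩ := span_exchange a j1.1
      (sdiff_subset_sdiff Subset.rfl subset_union_left) sdiff_subset hz z1
    have yJ := (mem_sdiff.1 y1).1
    have yB := (mem_sdiff.1 y1).2
    have yN : y ∈ N := by
      by_contra h
      exact y2 (mem_sdiff.2 ⟨yJ, fun h' => (mem_union.1 h').elim yB h⟩)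
    have g0 : srxGood a R (J.erase y) :=
      ⟨j1.1.mono (coe_subset.2 (erase_subset _ _)), fun u hu v hv =>
        j1.2 u (mem_of_mem_erase hu) v (mem_of_mem_erase hv)⟩
    obtain ⟨g1, g2⟩ := srxhax_insert hR g0 y3 fun w hw => z4 w (mem_of_mem_erase hw)
    have hJpos := card_pos.2 ⟨y, yJ⟩
    rw [card_erase_of_mem yJ] at g2
    refine iht (insert z (J.erase y)) ⟨g1, by omega,
      fun b hb => mem_insert_of_mem (mem_erase.2 ⟨fun e => yB (e ▸ hb), hBJ hb⟩), ?_,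
      fun w hw hwI u hu => ?_⟩ ?_
    · rw [← hsp]
      refine le_antisymm (srxhax_le a fun w hw => ?_) (srxhax_le a fun w hw => ?_)
      · obtain ⟨w1, w2⟩ := mem_sdiff.1 hw
        rcases mem_insert.1 w1 with rfl | w3
        · exact hz
        · exact srxhax_mem a (mem_sdiff.2 ⟨mem_of_mem_erase w3, w2⟩)
      · by_cases e : w = y
        · subst e
          have e1 : a z ∈ Submodule.span ℝ (insert (a w) (a '' ((J \ B).erase w : Set ι))) := by
            rw [← Set.image_insert_eq, ← coe_insert, insert_erase hw]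
            exact hz
          have e2 := mem_span_insert_exchange e1 fun h =>
            y3 (srxhax_mono a (erase_subset_erase _ sdiff_subset) h)
          rw [← Set.image_insert_eq, ← coe_insert] at e2
          refine srxhax_mono a (fun u hu => ?_) e2
          rcases mem_insert.1 hu with rfl | hu'
          · exact mem_sdiff.2 ⟨mem_insert_self _ _, zB⟩
          · obtain ⟨u1, u2⟩ := mem_erase.1 hu'
            exact mem_sdiff.2 ⟨mem_insert_of_mem (mem_erase.2 ⟨u1, (mem_sdiff.1 u2).1⟩),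
              (mem_sdiff.1 u2).2⟩
        · exact srxhax_mem a (mem_sdiff.2 ⟨mem_insert_of_mem (mem_erase.2 ⟨e, (mem_sdiff.1 hw).1⟩),
            (mem_sdiff.1 hw).2⟩)
    · rcases mem_insert.1 hw with rfl | hw'
      · exact z3 u (mem_insert_of_mem hu)
      · exact hnew w (mem_of_mem_erase hw') hwI u hu
    · have : {w ∈ insert z (J.erase y) | R x w} ⊆ N.erase y := by
        intro w hw
        obtain ⟨w1, w2⟩ := mem_filter.1 hw
        rcases mem_insert.1 w1 with rfl | w3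
        · exact absurd w2 (z3 x (mem_insert_self _ _))
        · refine mem_erase.2 ⟨ne_of_mem_erase w3, mem_filter.2 ⟨?_, w2⟩⟩
          by_contra h
          exact j5 w (mem_of_mem_erase w3) h x (mem_insert_self _ _) w2
      have h1 := card_le_card this
      rw [card_erase_of_mem yN] at h1
      omega

end

theorem haxell_span {ι W : Type} [Fintype ι] [DecidableEq ι] [AddCommGroup W] [Module ℝ W]
    (a : ι → W) (R : ι → ι → Prop) [DecidableRel R] (hR : ∀ x y, R x y → R y x) (Δ n : ℕ)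
    (hΔ : ∀ x, #{y | R x y} ≤ Δ)
    [∀ S : Finset ι, DecidablePred fun x => a x ∉ Submodule.span ℝ (a '' (S : Set ι))]
    (hflat : ∀ S : Finset ι,
      (2 * Δ + 2) * (n - #S) ≤ #{x | a x ∉ Submodule.span ℝ (a '' (S : Set ι))}) :
    ∃ I : Finset ι, #I = n ∧ LinearIndepOn ℝ a (I : Set ι) ∧
      ∀ x ∈ I, ∀ y ∈ I, x ≠ y → ¬ R x y := by
  have hex : ∀ I B Xs : Finset ι, #I < n → B ⊆ I → #Xs ≤ #B →
      ∃ x, a x ∉ srxSp a (I \ B) ∧ x ∉ B ∧ (∀ w ∈ Xs, ¬ R w x) ∧ ∀ w ∈ B, ¬ R w x := by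
    intro I B Xs hn hB hX
    have h1 := hflat (I \ B)
    have h2 : #(B ∪ (Xs ∪ B).biUnion fun w => {y | R w y}) ≤ #B + (#B + #B) * Δ := by
      refine (card_union_le _ _).trans (Nat.add_le_add_left ?_ _)
      refine (card_biUnion_le_card_mul _ _ Δ fun w _ => hΔ w).trans (Nat.mul_le_mul_right _ ?_)
      exact (card_union_le _ _).trans (by omega)
    have h3 : #B + 1 ≤ n - #(I \ B) := by
      rw [card_sdiff_of_subset hB]
      have := card_le_card hB
      omega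
    have h4 := (Nat.mul_le_mul_left (2 * Δ + 2) h3).trans h1
    obtain ⟨x, x1, x2⟩ := exists_mem_notMem_of_card_lt_card (h2.trans_lt (lt_of_lt_of_le
      (by nlinarith) h4))
    refine ⟨x, (mem_filter.1 x1).2, fun h => x2 (mem_union_left _ h), fun w hw hr => ?_,
      fun w hw hr => ?_⟩
    · exact x2 (mem_union_right _ (mem_biUnion.2 ⟨w, mem_union_left _ hw, by simpa using hr⟩))
    · exact x2 (mem_union_right _ (mem_biUnion.2 ⟨w, mem_union_right _ hw, by simpa using hr⟩))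
  have key : ∀ m, m ≤ n → ∃ I : Finset ι, #I = m ∧ srxGood a R I := by
    intro m
    induction m with
    | zero => exact fun _ => ⟨∅, rfl, by simp, by simp⟩
    | succ m ih =>
      intro hm
      obtain ⟨I, h1, h2⟩ := ih (by omega)
      obtain ⟨I', x, ⟨m1, m2, -, m4, -⟩, x1, -, -, x4⟩ :=
        srxhax_claim a R hR n hex _ I ∅ ∅ rfl (by omega) h2 (empty_subset _) le_rfl
      rw [← m4, sdiff_empty] at x1
      obtain ⟨g1, g2⟩ := srxhax_insert hR m1 x1 x4
      exact ⟨_, by omega, g1⟩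
  exact key n le_rfl

end Pool.Agent.P.MP_e59a69_co
end

-- part Pool.Agent.P.MP_e59a69_co.SRBases
section

/-! Many disjoint bases without conflicts. -/

open Finset Module

namespace Pool.Agent.P.MP_e59a69_co

lemma srxbases_card {ι : Type} [Fintype ι] [DecidableEq ι] {K : ℕ} (T : Finset (ι × Fin K)) :
    #T = ∑ k : Fin K, #{x : ι | (x, k) ∈ T} := by
  have h : #T = ∑ p : ι × Fin K, if p ∈ T then 1 else 0 := by
    rw [← Finset.card_filter]
    congr 1
    ext p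
    simp
  rw [h, Fintype.sum_prod_type_right]
  refine Finset.sum_congr rfl fun k _ => ?_
  rw [Finset.card_filter]

lemma srxbases_proj {ι W : Type} [Fintype ι] [DecidableEq ι] [AddCommGroup W] [Module ℝ W]
    (a : ι → W) {K : ℕ} (S : Finset (ι × Fin K)) (x : ι) (k : Fin K)
    (h : (Pi.single k (a x) : Fin K → W) ∈ Submodule.span ℝ
      ((fun p : ι × Fin K => (Pi.single p.2 (a p.1) : Fin K → W)) '' (S : Set (ι × Fin K)))) :
    a x ∈ Submodule.span ℝ (a '' (({y : ι | (y, k) ∈ S} : Finset ι) : Set ι)) := by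
  have hle : Submodule.span ℝ
      ((fun p : ι × Fin K => (Pi.single p.2 (a p.1) : Fin K → W)) '' (S : Set (ι × Fin K))) ≤
      (Submodule.span ℝ (a '' (({y : ι | (y, k) ∈ S} : Finset ι) : Set ι))).comap
        (LinearMap.proj (R := ℝ) (φ := fun _ : Fin K => W) k) := by
    rw [Submodule.span_le]
    rintro _ ⟨⟨y, j⟩, hy, rfl⟩
    simp only [SetLike.mem_coe, Submodule.mem_comap, LinearMap.proj_apply]
    by_cases hjk : j = k
    · subst hjk
      rw [Pi.single_eq_same]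
      exact Submodule.subset_span ⟨y, by simpa using hy, rfl⟩
    · rw [Pi.single_eq_of_ne (Ne.symm hjk)]
      exact Submodule.zero_mem _
  have := hle h
  simpa only [Submodule.mem_comap, LinearMap.proj_apply, Pi.single_eq_same] using this

lemma srxbases_rank {ι W : Type} [AddCommGroup W] [Module ℝ W]
    (a : ι → W) {T F : Finset ι} (hT : LinearIndepOn ℝ a (T : Set ι)) (hTF : T ⊆ F) :
    #T ≤ finrank ℝ (Submodule.span ℝ (a '' (F : Set ι))) := by
  have : Module.Finite ℝ (Submodule.span ℝ (a '' (F : Set ι))) :=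
    Module.Finite.span_of_finite ℝ ((F.finite_toSet).image a)
  have h1 : finrank ℝ (Submodule.span ℝ (Set.range fun x : (T : Set ι) => a x)) =
      Fintype.card (T : Set ι) := finrank_span_eq_card hT
  have h2 : Submodule.span ℝ (Set.range fun x : (T : Set ι) => a x) ≤
      Submodule.span ℝ (a '' (F : Set ι)) := by
    apply Submodule.span_mono
    rintro _ ⟨x, rfl⟩
    exact ⟨x, hTF x.2, rfl⟩
  have h3 := Submodule.finrank_mono h2
  rw [h1] at h3
  simpa using h3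

lemma srxbases_class {ι W : Type} [AddCommGroup W] [Module ℝ W]
    (a : ι → W) {K : ℕ} {I : Finset (ι × Fin K)}
    (hI : LinearIndepOn ℝ (fun p : ι × Fin K => (Pi.single p.2 (a p.1) : Fin K → W))
      (I : Set (ι × Fin K))) (k : Fin K) {T : Finset ι} (hT : ∀ x ∈ T, (x, k) ∈ I) :
    LinearIndepOn ℝ a (T : Set ι) := by
  have h1 : LinearIndependent ℝ
      ((fun p : (I : Set (ι × Fin K)) => (Pi.single p.1.2 (a p.1.1) : Fin K → W)) ∘
        fun x : (T : Set ι) => (⟨(x.1, k), hT x.1 x.2⟩ : (I : Set (ι × Fin K)))) := by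
    refine LinearIndependent.comp hI _ ?_
    intro x y hxy
    have : (x.1, k) = (y.1, k) := congrArg Subtype.val hxy
    exact Subtype.ext (congrArg Prod.fst this)
  exact LinearIndependent.of_comp (LinearMap.single ℝ (fun _ : Fin K => W) k) h1

theorem exists_bases {ι W : Type} [Fintype ι] [DecidableEq ι] [AddCommGroup W] [Module ℝ W]
    (a : ι → W) (R : ι → ι → Prop) [DecidableRel R] (hR : ∀ x y, R x y → R y x) (Δ K : ℕ)
    (hK : 0 < K) (hΔ : ∀ x, #{y | R x y} ≤ Δ)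
    [∀ S : Finset ι, DecidablePred fun x => a x ∉ Submodule.span ℝ (a '' (S : Set ι))]
    (hflat : ∀ S : Finset ι, (2 * (K * (Δ + 1)) + 2) *
      (finrank ℝ (Submodule.span ℝ (Set.range a)) - #S) ≤
        #{x | a x ∉ Submodule.span ℝ (a '' (S : Set ι))}) :
    ∃ U : Finset ι, (∀ x ∈ U, ∀ y ∈ U, x ≠ y → ¬ R x y) ∧
      Submodule.span ℝ (a '' (U : Set ι)) = Submodule.span ℝ (Set.range a) ∧
      #U = K * finrank ℝ (Submodule.span ℝ (a '' (U : Set ι))) ∧
      ∀ F ⊆ U, #F ≤ K * finrank ℝ (Submodule.span ℝ (a '' (F : Set ι))) := by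
  classical
  set d := finrank ℝ (Submodule.span ℝ (Set.range a)) with hd
  obtain ⟨I, hcard, hind, hcf⟩ := haxell_span
    (fun p : ι × Fin K => (Pi.single p.2 (a p.1) : Fin K → W))
    (fun p q => p.1 = q.1 ∨ R p.1 q.1)
    (fun p q h => h.elim (fun e => Or.inl e.symm) (fun r => Or.inr (hR _ _ r)))
    (K * (Δ + 1)) (K * d)
    (by
      intro p
      calc #{q : ι × Fin K | p.1 = q.1 ∨ R p.1 q.1}
          ≤ #((insert p.1 ({y | R p.1 y} : Finset ι)) ×ˢ (univ : Finset (Fin K))) := by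
            apply Finset.card_le_card
            intro q hq
            simp only [Finset.mem_filter, Finset.mem_univ, true_and] at hq
            simp only [Finset.mem_product, Finset.mem_insert, Finset.mem_filter, Finset.mem_univ,
              true_and, and_true]
            exact hq.elim (fun e => Or.inl e.symm) Or.inr
        _ ≤ (Δ + 1) * K := by
            rw [Finset.card_product, Finset.card_univ, Fintype.card_fin]
            exact Nat.mul_le_mul_right _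
              ((Finset.card_insert_le _ _).trans (Nat.add_le_add_right (hΔ p.1) 1))
        _ = K * (Δ + 1) := Nat.mul_comm _ _)
    (by
      intro S
      rw [srxbases_card (K := K) (Finset.filter _ _)]
      have h1 : K * d - #S ≤ ∑ k : Fin K, (d - #{x : ι | (x, k) ∈ S}) := by
        have h2 : ∑ k : Fin K, d ≤ ∑ k : Fin K,
            ((d - #{x : ι | (x, k) ∈ S}) + #{x : ι | (x, k) ∈ S}) :=
          Finset.sum_le_sum fun k _ => by omega
        rw [Finset.sum_add_distrib, ← srxbases_card S] at h2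
        simp only [Finset.sum_const, Finset.card_univ, Fintype.card_fin, smul_eq_mul] at h2
        omega
      refine (Nat.mul_le_mul_left _ h1).trans ?_
      rw [Finset.mul_sum]
      refine Finset.sum_le_sum fun k _ => (hflat _).trans (Finset.card_le_card ?_)
      intro x hx
      simp only [Finset.mem_filter, Finset.mem_univ, true_and] at hx ⊢
      exact fun h => hx (srxbases_proj a S x k h))
  have hinj : Set.InjOn Prod.fst (I : Set (ι × Fin K)) := by
    intro p hp q hq hpq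
    by_contra hne
    exact hcf p hp q hq hne (Or.inl hpq)
  have hU : #(I.image Prod.fst) = K * d := by
    rw [Finset.card_image_of_injOn hinj, hcard]
  have hF : ∀ F ⊆ I.image Prod.fst,
      #F ≤ K * finrank ℝ (Submodule.span ℝ (a '' (F : Set ι))) := by
    intro F hFU
    calc #F ≤ #((univ : Finset (Fin K)).biUnion fun k => F.filter fun x => (x, k) ∈ I) := by
          apply Finset.card_le_card
          intro x hx
          obtain ⟨p, hp, rfl⟩ := Finset.mem_image.1 (hFU hx)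
          exact Finset.mem_biUnion.2 ⟨p.2, Finset.mem_univ _, Finset.mem_filter.2 ⟨hx, hp⟩⟩
      _ ≤ ∑ k : Fin K, #(F.filter fun x => (x, k) ∈ I) := Finset.card_biUnion_le
      _ ≤ ∑ _k : Fin K, finrank ℝ (Submodule.span ℝ (a '' (F : Set ι))) :=
          Finset.sum_le_sum fun k _ => srxbases_rank a
            (srxbases_class a hind k fun x hx => (Finset.mem_filter.1 hx).2)
            (Finset.filter_subset _ _)
      _ = K * finrank ℝ (Submodule.span ℝ (a '' (F : Set ι))) := by simp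
  have hspan : Submodule.span ℝ (a '' ((I.image Prod.fst : Finset ι) : Set ι)) =
      Submodule.span ℝ (Set.range a) := by
    have : Module.Finite ℝ (Submodule.span ℝ (Set.range a)) :=
      Module.Finite.span_of_finite ℝ (Set.finite_range a)
    apply Submodule.eq_of_le_of_finrank_le (Submodule.span_mono (Set.image_subset_range _ _))
    have := hF _ (Finset.Subset.refl _)
    rw [hU] at this
    exact Nat.le_of_mul_le_mul_left this hK
  refine ⟨I.image Prod.fst, ?_, hspan, by rw [hspan, hU], hF⟩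
  intro x hx y hy hxy hr
  obtain ⟨p, hp, rfl⟩ := Finset.mem_image.1 hx
  obtain ⟨q, hq, rfl⟩ := Finset.mem_image.1 hy
  exact hcf p hp q hq (fun e => hxy (congrArg Prod.fst e)) (Or.inr hr)

end Pool.Agent.P.MP_e59a69_co
end

-- part Pool.Agent.P.MP_e59a69_co.Approx
section

/-! A laminar family approximating all cuts of a multigraph (hierarchical decomposition). -/

open Finset

namespace Pool.Agent.P.MP_e59a69_co

variable {V : Type} [Fintype V] [DecidableEq V]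

/-- number of edges from `A` to `B` -/
def EB (a : V → V → ℕ) (A B : Finset V) : ℕ := ∑ u ∈ A, ∑ v ∈ B, a u v

omit [Fintype V] [DecidableEq V] in
lemma EB_comm {a : V → V → ℕ} (ha : ∀ u v, a u v = a v u) (A B : Finset V) :
    EB a A B = EB a B A := by
  unfold EB
  rw [Finset.sum_comm]
  exact Finset.sum_congr rfl fun u _ => Finset.sum_congr rfl fun v _ => ha v u

lemma EB_split (a : V → V → ℕ) {Z S : Finset V} (h : Z ⊆ S) :
    EB a Z Zᶜ = EB a Z (S \ Z) + EB a Z Sᶜ := by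
  unfold EB
  rw [← Finset.sum_add_distrib]
  refine Finset.sum_congr rfl fun u _ => ?_
  rw [← Finset.sum_union]
  · refine Finset.sum_congr ?_ fun _ _ => rfl
    ext v
    simp only [mem_compl, mem_union, mem_sdiff]
    have := @h v
    tauto
  · exact Finset.disjoint_left.2 fun v h1 h2 => (mem_compl.1 h2) (mem_sdiff.1 h1).1

/-- small subsets of `S` are well attached to `S` -/
def Pre (a : V → V → ℕ) (R : Finset V) (h : ℕ) (S : Finset V) : Prop :=
  ∀ Z ⊆ S, 2 * #(Z ∩ R) ≤ #(S ∩ R) → EB a Z Sᶜ ≤ 4 * h * EB a Z (S \ Z)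

/-- `cl` describes a partition of `S` -/
def IsPart (S : Finset V) (cl : V → Finset V) : Prop :=
  ∀ u ∈ S, u ∈ cl u ∧ cl u ⊆ S ∧ ∀ v ∈ cl u, cl v = cl u

lemma size_half {z x : ℕ} (h1 : 2 * z ≤ x) (h2 : 1 ≤ x) : z.size + 1 ≤ x.size := by
  have h3 : x < 2 ^ x.size := Nat.lt_size_self x
  have h4 : 0 < x.size := Nat.size_pos.2 h2
  obtain ⟨k, hk⟩ : ∃ k, x.size = k + 1 := ⟨x.size - 1, by omega⟩
  rw [hk] at h3 ⊢
  have : z.size ≤ k := Nat.size_le.2 (by rw [pow_succ] at h3; omega)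
  omega

lemma exists_part (a : V → V → ℕ) (ha : ∀ u v, a u v = a v u) (R : Finset V) (h : ℕ)
    (hR : #R < 2 ^ h) (S : Finset V) (hS : Pre a R h S) (h2 : 2 ≤ #(S ∩ R)) :
    ∃ cl : V → Finset V, IsPart S cl ∧ (∀ u ∈ S, 2 * #(cl u ∩ R) ≤ #(S ∩ R)) ∧
      (∀ u ∈ S, 1 ≤ #(cl u ∩ R) → Pre a R h (cl u)) ∧
      ∀ Z ⊆ S, 2 * #(Z ∩ R) ≤ #(S ∩ R) →
        ∑ u ∈ Z, ∑ v ∈ (cl u)ᶜ, a u v ≤ (8 * h + 4) * EB a Z (S \ Z) := by
  classical
  let ρ : Finset V → ℕ := fun K => h + (#(K ∩ R)).size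
  have hρ : ∀ K, ρ K ≤ 2 * h := fun K => by
    have : (#(K ∩ R)).size ≤ h :=
      Nat.size_le.2 (lt_of_le_of_lt (card_le_card inter_subset_right) hR)
    simp only [ρ]; omega
  have hρmono : ∀ K K', K ⊆ K' → ρ K ≤ ρ K' := fun K K' hK => by
    have : (#(K ∩ R)).size ≤ (#(K' ∩ R)).size :=
      Nat.size_le_size (card_le_card (inter_subset_inter hK subset_rfl))
    simp only [ρ]; omega
  have hh : 1 ≤ h := by
    rcases h with _ | h
    · have := card_le_card (inter_subset_right : S ∩ R ⊆ R)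
      simp at hR; rw [hR] at h2; simp at h2
    · omega
  let Ψ : (V → Finset V) → ℕ := fun cl => ∑ u ∈ S, (∑ v ∈ (cl u)ᶜ, a u v) * ρ (cl u)
  let good : (V → Finset V) → Prop := fun cl =>
    IsPart S cl ∧ ∀ u ∈ S, 2 * #(cl u ∩ R) ≤ #(S ∩ R)
  have hex : ∃ n, ∃ cl, good cl ∧ Ψ cl = n := by
    refine ⟨_, fun u => {u}, ⟨fun u hu => ⟨mem_singleton_self u, singleton_subset_iff.2 hu,
      fun v hv => by rw [mem_singleton.1 hv]⟩, fun u _ => ?_⟩, rfl⟩
    have : #({u} ∩ R) ≤ 1 := (card_le_card inter_subset_left).trans (by simp)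
    show 2 * #({u} ∩ R) ≤ _
    omega
  obtain ⟨cl, ⟨hp, hsz⟩, hcl⟩ := Nat.find_spec hex
  have hmin : ∀ cl', good cl' → Ψ cl ≤ Ψ cl' := fun cl' h' => by
    rw [hcl]; exact Nat.find_min' hex ⟨cl', h', rfl⟩
  have star : ∀ Z ⊆ S, 2 * #(Z ∩ R) ≤ #(S ∩ R) →
      ∑ u ∈ Z, (∑ v ∈ (cl u)ᶜ, a u v) * ρ (cl u) ≤
        EB a Z Zᶜ * ρ Z + 2 * h * ∑ u ∈ S \ Z, ∑ v ∈ Z ∩ cl u, a u v := by
    intro Z hZ hZ2
    let cl' : V → Finset V := fun u => if u ∈ Z then Z else cl u \ Z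
    have hg : good cl' := by
      refine ⟨fun u hu => ?_, fun u hu => ?_⟩
      · by_cases huZ : u ∈ Z
        · simp only [cl', huZ, if_true]
          exact ⟨trivial, hZ, fun v hv => by simp only [hv, if_true]⟩
        · simp only [cl', huZ, if_false]
          obtain ⟨p1, p2, p3⟩ := hp u hu
          refine ⟨mem_sdiff.2 ⟨p1, huZ⟩, sdiff_subset.trans p2, fun v hv => ?_⟩
          rw [mem_sdiff] at hv
          simp only [hv.2, if_false, p3 v hv.1]
      · by_cases huZ : u ∈ Z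
        · simp only [cl', huZ, if_true]; exact hZ2
        · simp only [cl', huZ, if_false]
          have := hsz u hu
          have h3 : #((cl u \ Z) ∩ R) ≤ #(cl u ∩ R) :=
            card_le_card (inter_subset_inter sdiff_subset subset_rfl)
          omega
    have h1 := hmin cl' hg
    simp only [Ψ] at h1
    rw [← Finset.sum_sdiff hZ, ← Finset.sum_sdiff hZ] at h1
    have e1 : ∑ u ∈ Z, (∑ v ∈ (cl' u)ᶜ, a u v) * ρ (cl' u) = EB a Z Zᶜ * ρ Z := by
      unfold EB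
      rw [Finset.sum_mul]
      refine Finset.sum_congr rfl fun u hu => ?_
      simp only [cl', hu, if_true]
    have e2 : ∑ u ∈ S \ Z, (∑ v ∈ (cl' u)ᶜ, a u v) * ρ (cl' u) ≤
        ∑ u ∈ S \ Z, (∑ v ∈ (cl u)ᶜ, a u v) * ρ (cl u) +
          2 * h * ∑ u ∈ S \ Z, ∑ v ∈ Z ∩ cl u, a u v := by
      rw [Finset.mul_sum, ← Finset.sum_add_distrib]
      refine Finset.sum_le_sum fun u hu => ?_
      have huZ := (mem_sdiff.1 hu).2
      simp only [cl', huZ, if_false]
      have e3 : ∑ v ∈ (cl u \ Z)ᶜ, a u v = ∑ v ∈ (cl u)ᶜ, a u v + ∑ v ∈ Z ∩ cl u, a u v := by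
        rw [← Finset.sum_union]
        · refine Finset.sum_congr ?_ fun _ _ => rfl
          ext v
          simp only [mem_compl, mem_union, mem_sdiff, mem_inter]
          tauto
        · exact Finset.disjoint_left.2 fun v h1 h2 => (mem_compl.1 h1) (mem_inter.1 h2).2
      rw [e3, add_mul]
      have m1 := hρmono (cl u \ Z) (cl u) sdiff_subset
      have m2 := hρ (cl u \ Z)
      have m3 := Nat.mul_le_mul_left (∑ v ∈ (cl u)ᶜ, a u v) m1
      have m4 := Nat.mul_le_mul_left (∑ v ∈ Z ∩ cl u, a u v) m2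
      nlinarith
    omega
  refine ⟨cl, hp, hsz, fun u hu h1 Z hZ hZ2 => ?_, fun Z hZ hZ2 => ?_⟩
  · obtain ⟨p1, p2, p3⟩ := hp u hu
    have hs := star Z (hZ.trans p2) (by have := hsz u hu; omega)
    have e1 : ∑ x ∈ Z, (∑ v ∈ (cl x)ᶜ, a x v) * ρ (cl x) = EB a Z (cl u)ᶜ * ρ (cl u) := by
      unfold EB
      rw [Finset.sum_mul]
      refine Finset.sum_congr rfl fun x hx => ?_
      rw [p3 x (hZ hx)]
    have e2 : ∑ x ∈ S \ Z, ∑ v ∈ Z ∩ cl x, a x v ≤ EB a Z (cl u \ Z) := by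
      rw [EB_comm ha]
      unfold EB
      rw [← Finset.sum_sdiff (sdiff_subset_sdiff p2 subset_rfl : cl u \ Z ⊆ S \ Z)]
      have z : ∑ x ∈ (S \ Z) \ (cl u \ Z), ∑ v ∈ Z ∩ cl x, a x v = 0 := by
        refine Finset.sum_eq_zero fun x hx => Finset.sum_eq_zero fun v hv => ?_
        exfalso
        simp only [mem_sdiff, mem_inter] at hx hv
        obtain ⟨q1, -, q3⟩ := hp x hx.1.1
        apply hx.2
        refine ⟨?_, hx.1.2⟩
        rw [← p3 v (hZ hv.1), q3 v hv.2]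
        exact q1
      rw [z, zero_add]
      exact Finset.sum_le_sum fun x _ =>
        Finset.sum_le_sum_of_subset inter_subset_left
    have e3 := EB_split a hZ
    have e4 : ρ Z + 1 ≤ ρ (cl u) := by
      have := size_half hZ2 h1
      simp only [ρ]; omega
    have e5 := hρ Z
    rw [e1, e3] at hs
    have e6 := Nat.mul_le_mul_left (EB a Z (cl u)ᶜ) e4
    have e7 := Nat.mul_le_mul_left (EB a Z (cl u \ Z)) e5
    have e8 := Nat.mul_le_mul_left (2 * h) e2
    nlinarith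
  · have hs := star Z hZ hZ2
    have e1 : (∑ u ∈ Z, ∑ v ∈ (cl u)ᶜ, a u v) * h ≤
        ∑ u ∈ Z, (∑ v ∈ (cl u)ᶜ, a u v) * ρ (cl u) := by
      rw [Finset.sum_mul]
      exact Finset.sum_le_sum fun u _ => Nat.mul_le_mul_left _ (by simp only [ρ]; omega)
    have e2 : ∑ x ∈ S \ Z, ∑ v ∈ Z ∩ cl x, a x v ≤ EB a Z (S \ Z) := by
      rw [EB_comm ha]
      unfold EB
      exact Finset.sum_le_sum fun x _ =>
        Finset.sum_le_sum_of_subset inter_subset_left
    have e3 := EB_split a hZ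
    have e4 := hS Z hZ hZ2
    have e5 := hρ Z
    have e6 : EB a Z Zᶜ ≤ (4 * h + 1) * EB a Z (S \ Z) := by rw [e3]; nlinarith
    have e7 := Nat.mul_le_mul e6 e5
    have e8 := Nat.mul_le_mul_left (2 * h) e2
    have e9 : (∑ u ∈ Z, ∑ v ∈ (cl u)ᶜ, a u v) * h ≤ ((8 * h + 4) * EB a Z (S \ Z)) * h := by
      nlinarith
    exact Nat.le_of_mul_le_mul_right e9 (by omega)

omit [Fintype V] in
lemma sum_part {M : Type} [AddCommMonoid M] {S : Finset V} {cl : V → Finset V} (hp : IsPart S cl)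
    {Z : Finset V} (hZ : Z ⊆ S) (g : V → M) :
    ∑ u ∈ Z, g u = ∑ K ∈ S.image cl, ∑ u ∈ Z ∩ K, g u := by
  rw [← Finset.sum_fiberwise_of_maps_to (s := Z) (t := S.image cl) (g := cl)
    (fun u hu => mem_image_of_mem cl (hZ hu))]
  refine Finset.sum_congr rfl fun K hK => Finset.sum_congr ?_ fun _ _ => rfl
  obtain ⟨x, hx, rfl⟩ := mem_image.1 hK
  ext u
  simp only [mem_filter, mem_inter]
  constructor
  · rintro ⟨h1, h2⟩
    exact ⟨h1, h2 ▸ (hp u (hZ h1)).1⟩
  · rintro ⟨h1, h2⟩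
    exact ⟨h1, (hp x hx).2.2 u h2⟩

/-- any two members are nested or disjoint -/
def Laminar (L : Finset (Finset V)) : Prop :=
  ∀ K ∈ L, ∀ K' ∈ L, K ⊆ K' ∨ K' ⊆ K ∨ Disjoint K K'

theorem approx (a : V → V → ℕ) (ha : ∀ u v, a u v = a v u) (R : Finset V) (h : ℕ)
    (hR : #R < 2 ^ h) (hconn : ∀ Z, #(Z ∩ R) = 1 → 1 ≤ EB a Z Zᶜ) :
    ∀ k : ℕ, ∀ S : Finset V, #(S ∩ R) < 2 ^ k → (1 ≤ #(S ∩ R) → Pre a R h S) →
      ∃ L : Finset (Finset V), (∀ K ∈ L, K ⊆ S) ∧ Laminar L ∧ #L ≤ k * #(S ∩ R) ∧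
        ∀ b : V → ℤ, (∀ v, v ∉ R → b v = 0) → (∀ v, |b v| ≤ 1) →
          (∀ K ∈ L, |∑ v ∈ K, b v| ≤ EB a K Kᶜ) → ∀ Z ⊆ S,
            ∑ v ∈ Z, b v ≤ (1 + k * (16 * h + 8) : ℕ) * (EB a Z (S \ Z) : ℤ) + EB a Z Sᶜ := by
  classical
  have base : ∀ k : ℕ, ∀ S : Finset V, #(S ∩ R) ≤ 1 →
      ∃ L : Finset (Finset V), (∀ K ∈ L, K ⊆ S) ∧ Laminar L ∧ #L ≤ k * #(S ∩ R) ∧
        ∀ b : V → ℤ, (∀ v, v ∉ R → b v = 0) → (∀ v, |b v| ≤ 1) →
          (∀ K ∈ L, |∑ v ∈ K, b v| ≤ EB a K Kᶜ) → ∀ Z ⊆ S,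
            ∑ v ∈ Z, b v ≤ (1 + k * (16 * h + 8) : ℕ) * (EB a Z (S \ Z) : ℤ) + EB a Z Sᶜ := by
    intro k S hS
    refine ⟨∅, by simp, by simp [Laminar], by simp, fun b hb0 hb1 _ Z hZ => ?_⟩
    have e1 : ∑ v ∈ Z, b v ≤ #(Z ∩ R) := by
      have : (#(Z ∩ R) : ℤ) = ∑ v ∈ Z, if v ∈ R then 1 else 0 := by
        rw [Finset.sum_ite_mem]; simp
      rw [this]
      refine Finset.sum_le_sum fun v _ => ?_
      split_ifs with hv
      · exact (abs_le.1 (hb1 v)).2
      · rw [hb0 v hv]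
    have e2 : #(Z ∩ R) ≤ #(S ∩ R) := card_le_card (inter_subset_inter hZ subset_rfl)
    have e3 := EB_split a hZ
    have e4 : #(Z ∩ R) ≤ EB a Z Zᶜ := by
      by_cases h1 : #(Z ∩ R) = 1
      · rw [h1]; exact hconn Z h1
      · omega
    have e5 : EB a Z (S \ Z) ≤ (1 + k * (16 * h + 8)) * EB a Z (S \ Z) :=
      Nat.le_mul_of_pos_left _ (by omega)
    have e6 : #(Z ∩ R) ≤ (1 + k * (16 * h + 8)) * EB a Z (S \ Z) + EB a Z Sᶜ := by omega
    exact e1.trans (by exact_mod_cast e6)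
  intro k
  induction k with
  | zero => intro S hS _; exact base 0 S (by simp at hS; simp [hS])
  | succ k ih =>
    intro S hS hpre
    by_cases h2 : #(S ∩ R) ≤ 1
    · exact base _ S h2
    obtain ⟨cl, hp, hsz, hcp, hexp⟩ := exists_part a ha R h hR S (hpre (by omega)) (by omega)
    have ih' : ∀ K : Finset V, ∃ L : Finset (Finset V), K ∈ S.image cl →
        (∀ K' ∈ L, K' ⊆ K) ∧ Laminar L ∧ #L ≤ k * #(K ∩ R) ∧
        ∀ b : V → ℤ, (∀ v, v ∉ R → b v = 0) → (∀ v, |b v| ≤ 1) →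
          (∀ K ∈ L, |∑ v ∈ K, b v| ≤ EB a K Kᶜ) → ∀ Z ⊆ K,
            ∑ v ∈ Z, b v ≤ (1 + k * (16 * h + 8) : ℕ) * (EB a Z (K \ Z) : ℤ) + EB a Z Kᶜ := by
      intro K
      by_cases hK : K ∈ S.image cl
      · obtain ⟨u, hu, rfl⟩ := mem_image.1 hK
        obtain ⟨L, hL⟩ := ih (cl u) (by have := hsz u hu; rw [pow_succ] at hS; omega) (hcp u hu)
        exact ⟨L, fun _ => hL⟩
      · exact ⟨∅, fun h => absurd h hK⟩
    choose Lf hLf using ih'
    have hKS : ∀ K ∈ S.image cl, K ⊆ S := fun K hK => by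
      obtain ⟨u, hu, rfl⟩ := mem_image.1 hK
      exact (hp u hu).2.1
    have hdisj : ∀ K ∈ S.image cl, ∀ K' ∈ S.image cl, K ≠ K' → Disjoint K K' := by
      intro K hK K' hK' hne
      obtain ⟨u, hu, rfl⟩ := mem_image.1 hK
      obtain ⟨u', hu', rfl⟩ := mem_image.1 hK'
      exact Finset.disjoint_left.2 fun v h1 h2 =>
        hne (((hp u hu).2.2 v h1).symm.trans ((hp u' hu').2.2 v h2))
    have hmem : ∀ K' ∈ insert S ((S.image cl).biUnion Lf),
        K' = S ∨ ∃ K ∈ S.image cl, K' ∈ Lf K := fun K' hK' => by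
      simpa only [mem_insert, mem_biUnion] using hK'
    have hsub : ∀ K' ∈ insert S ((S.image cl).biUnion Lf), K' ⊆ S := fun K' hK' => by
      rcases hmem K' hK' with rfl | ⟨K, hK, h1⟩
      · exact subset_rfl
      · exact ((hLf K hK).1 K' h1).trans (hKS K hK)
    refine ⟨insert S ((S.image cl).biUnion Lf), hsub, fun K1 h1 K2 h2 => ?_, ?_,
      fun b hb0 hb1 hbL => ?_⟩
    · rcases hmem K1 h1 with rfl | ⟨K, hK, h3⟩
      · exact Or.inr (Or.inl (hsub K2 h2))
      rcases hmem K2 h2 with rfl | ⟨K', hK', h4⟩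
      · exact Or.inl (hsub K1 h1)
      by_cases hKK : K = K'
      · subst hKK; exact (hLf K hK).2.1 K1 h3 K2 h4
      · exact Or.inr (Or.inr (Finset.disjoint_of_subset_left ((hLf K hK).1 K1 h3)
          (Finset.disjoint_of_subset_right ((hLf K' hK').1 K2 h4) (hdisj K hK K' hK' hKK))))
    · have e1 := card_insert_le S ((S.image cl).biUnion Lf)
      have e2 : #((S.image cl).biUnion Lf) ≤ ∑ K ∈ S.image cl, #(Lf K) := card_biUnion_le
      have e3 : ∑ K ∈ S.image cl, #(Lf K) ≤ ∑ K ∈ S.image cl, k * #(K ∩ R) :=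
        Finset.sum_le_sum fun K hK => (hLf K hK).2.2.1
      have e4 : #(S ∩ R) = ∑ K ∈ S.image cl, #(K ∩ R) := by
        rw [card_eq_sum_ones, sum_part hp (inter_subset_left : S ∩ R ⊆ S)]
        refine Finset.sum_congr rfl fun K hK => ?_
        rw [← card_eq_sum_ones]
        congr 1
        ext v
        have := @hKS K hK v
        simp only [mem_inter]; tauto
      rw [← Finset.mul_sum, ← e4] at e3
      nlinarith
    · have key : ∀ b : V → ℤ, (∀ v, v ∉ R → b v = 0) → (∀ v, |b v| ≤ 1) →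
          (∀ K ∈ insert S ((S.image cl).biUnion Lf), |∑ v ∈ K, b v| ≤ EB a K Kᶜ) → ∀ Z ⊆ S,
          ∑ v ∈ Z, b v ≤ (1 + k * (16 * h + 8) : ℕ) * (EB a Z (S \ Z) : ℤ) +
            (∑ u ∈ Z, ∑ v ∈ (cl u)ᶜ, a u v : ℕ) := by
        intro b hb0 hb1 hbL Z hZ
        have e1 : ∑ K ∈ S.image cl, EB a (Z ∩ K) (K \ (Z ∩ K)) ≤ EB a Z (S \ Z) := by
          unfold EB
          rw [sum_part hp hZ]
          refine Finset.sum_le_sum fun K hK => Finset.sum_le_sum fun u _ =>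
            Finset.sum_le_sum_of_subset fun v hv => ?_
          have := @hKS K hK v
          simp only [mem_sdiff, mem_inter] at hv ⊢
          tauto
        have e2 : ∑ K ∈ S.image cl, EB a (Z ∩ K) Kᶜ = ∑ u ∈ Z, ∑ v ∈ (cl u)ᶜ, a u v := by
          unfold EB
          rw [sum_part hp hZ]
          refine Finset.sum_congr rfl fun K hK => Finset.sum_congr rfl fun u hu => ?_
          obtain ⟨x, hx, rfl⟩ := mem_image.1 hK
          rw [(hp x hx).2.2 u (mem_inter.1 hu).2]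
        have e3 : ∑ v ∈ Z, b v ≤ ∑ K ∈ S.image cl,
            ((1 + k * (16 * h + 8) : ℕ) * (EB a (Z ∩ K) (K \ (Z ∩ K)) : ℤ) + EB a (Z ∩ K) Kᶜ) := by
          rw [sum_part hp hZ]
          refine Finset.sum_le_sum fun K hK => (hLf K hK).2.2.2 b hb0 hb1 (fun K' hK' => ?_)
            (Z ∩ K) inter_subset_right
          exact hbL K' (mem_insert_of_mem (mem_biUnion.2 ⟨K, hK, hK'⟩))
        rw [Finset.sum_add_distrib, ← Finset.mul_sum, ← Nat.cast_sum, ← Nat.cast_sum, e2] at e3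
        have e4 : ((1 + k * (16 * h + 8) : ℕ) : ℤ) *
            (∑ K ∈ S.image cl, EB a (Z ∩ K) (K \ (Z ∩ K)) : ℕ) ≤
            (1 + k * (16 * h + 8) : ℕ) * (EB a Z (S \ Z) : ℤ) :=
          mul_le_mul_of_nonneg_left (by exact_mod_cast e1) (by positivity)
        linarith
      intro Z hZ
      have ecast : ((1 + (k + 1) * (16 * h + 8) : ℕ) : ℤ) =
          (1 + k * (16 * h + 8) : ℕ) + 2 * ((8 * h + 4 : ℕ) : ℤ) := by push_cast; ring
      rw [ecast]
      have hnn : (0 : ℤ) ≤ ((8 * h + 4 : ℕ) : ℤ) * (EB a Z (S \ Z) : ℤ) := by positivity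
      by_cases hz : 2 * #(Z ∩ R) ≤ #(S ∩ R)
      · have e1 := key b hb0 hb1 hbL Z hZ
        have e2 : ((∑ u ∈ Z, ∑ v ∈ (cl u)ᶜ, a u v : ℕ) : ℤ) ≤
            ((8 * h + 4 : ℕ) : ℤ) * (EB a Z (S \ Z) : ℤ) := by exact_mod_cast hexp Z hZ hz
        have e3 : (0 : ℤ) ≤ EB a Z Sᶜ := by positivity
        linarith
      · have c1 : #((S \ Z) ∩ R) + #(Z ∩ R) = #(S ∩ R) := by
          rw [← card_union_of_disjoint, ← union_inter_distrib_right, sdiff_union_of_subset hZ]
          exact Finset.disjoint_left.2 fun v h1 h2 =>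
            (mem_sdiff.1 (mem_inter.1 h1).1).2 (mem_inter.1 h2).1
        have e0 : EB a (S \ Z) (S \ (S \ Z)) = EB a Z (S \ Z) := by
          rw [Finset.sdiff_sdiff_eq_self hZ, EB_comm ha]
        have e1 := key (fun v => - b v) (fun v hv => by simp [hb0 v hv])
          (fun v => by simpa using hb1 v)
          (fun K hK => by simpa [Finset.sum_neg_distrib] using hbL K hK) (S \ Z) sdiff_subset
        have e2 : ((∑ u ∈ S \ Z, ∑ v ∈ (cl u)ᶜ, a u v : ℕ) : ℤ) ≤
            ((8 * h + 4 : ℕ) : ℤ) * (EB a Z (S \ Z) : ℤ) := by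
          have := hexp (S \ Z) sdiff_subset (by omega)
          rw [e0] at this
          exact_mod_cast this
        rw [e0, Finset.sum_neg_distrib] at e1
        have e3 := (abs_le.1 (hbL S (mem_insert_self _ _))).2
        have e4 : ∑ v ∈ S \ Z, b v + ∑ v ∈ Z, b v = ∑ v ∈ S, b v := Finset.sum_sdiff hZ
        have e5 : EB a S Sᶜ ≤ (∑ u ∈ S \ Z, ∑ v ∈ (cl u)ᶜ, a u v) + EB a Z Sᶜ := by
          unfold EB
          rw [← Finset.sum_sdiff hZ]
          refine Nat.add_le_add_right (Finset.sum_le_sum fun u hu =>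
            Finset.sum_le_sum_of_subset ?_) _
          exact compl_subset_compl.2 (hp u (mem_sdiff.1 hu).1).2.1
        have e6 : (EB a S Sᶜ : ℤ) ≤ (∑ u ∈ S \ Z, ∑ v ∈ (cl u)ᶜ, a u v : ℕ) + (EB a Z Sᶜ : ℤ) := by
          exact_mod_cast e5
        linarith

/-- the tree-like cut approximator -/
theorem approx_univ (a : V → V → ℕ) (ha : ∀ u v, a u v = a v u) (R : Finset V) (h : ℕ)
    (hR : #R < 2 ^ h) (hconn : ∀ Z, #(Z ∩ R) = 1 → 1 ≤ EB a Z Zᶜ) :
    ∃ L : Finset (Finset V), Laminar L ∧ #L ≤ h * 2 ^ h ∧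
      ∀ b : V → ℤ, (∀ v, v ∉ R → b v = 0) → (∀ v, |b v| ≤ 1) →
        (∀ K ∈ L, |∑ v ∈ K, b v| ≤ EB a K Kᶜ) → ∀ Z,
          ∑ v ∈ Z, b v ≤ (1 + h * (16 * h + 8) : ℕ) * (EB a Z Zᶜ : ℤ) := by
  obtain ⟨L, -, h2, h3, h4⟩ := approx a ha R h hR hconn h univ (by simpa using hR)
    (fun _ Z _ _ => by simp [EB])
  refine ⟨L, h2, h3.trans (Nat.mul_le_mul_left _ (by simpa using hR.le)), fun b h5 h6 h7 Z => ?_⟩
  have := h4 b h5 h6 h7 Z (subset_univ Z)
  simpa [EB, ← compl_eq_univ_sdiff] using this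

end Pool.Agent.P.MP_e59a69_co
end

-- part Pool.Agent.P.MP_e59a69_co.Select
section

/-! Sequential selection with multiplicative weights, laminar pairings and two-colourings. -/

open Finset

namespace Pool.Agent.P.MP_e59a69_co

theorem select {V ι κ : Type} [Fintype V] [DecidableEq V] [DecidableEq ι] [Inhabited V]
    (I : Finset ι) (A : ι → Finset V) (q : ℕ) (hq : 0 < q) (hA : ∀ i ∈ I, #(A i) = q)
    (Nb : V → Finset V) (hsym : ∀ u v, u ∈ Nb v → v ∈ Nb u)
    (C : Finset κ) (w : κ → V → ℝ) (hw0 : ∀ k v, 0 ≤ w k v) (hw1 : ∀ k v, w k v ≤ 1)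
    (B : κ → ℝ) (Δ : ℝ) (hΔ : 0 < Δ)
    (hblock : ∀ i ∈ I, ∃ k ∈ C, (∀ v, (#(Nb v ∩ A i) : ℝ) ≤ Δ * w k v) ∧ Δ * B k ≤ q / 2)
    (h0 : ∑ k ∈ C, Real.exp (4 / q * ∑ i ∈ I, ∑ v ∈ A i, w k v - B k) < 1) :
    ∃ s : ι → V, (∀ i ∈ I, s i ∈ A i) ∧ (∀ i ∈ I, ∀ j ∈ I, i ≠ j → s j ∉ Nb (s i)) ∧
      ∀ k ∈ C, ∑ i ∈ I, w k (s i) ≤ B k := by
  classical
  have hqR : (0 : ℝ) < q := by exact_mod_cast hq
  have hneg : ∀ (x : κ → ℝ), ∑ k ∈ C, Real.exp (x k) < 1 → ∀ k ∈ C, x k < 0 := by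
    intro x hx k hk
    have := Finset.single_le_sum (f := fun k => Real.exp (x k))
      (fun k _ => (Real.exp_pos _).le) hk
    exact Real.exp_lt_one_iff.1 (lt_of_le_of_lt this hx)
  have key : ∀ J : Finset ι, J ⊆ I → ∃ s : ι → V, (∀ i ∈ J, s i ∈ A i) ∧
      (∀ i ∈ J, ∀ j ∈ J, i ≠ j → s j ∉ Nb (s i)) ∧
      ∑ k ∈ C, Real.exp (∑ i ∈ J, w k (s i) + 4 / q * ∑ i ∈ I \ J, ∑ v ∈ A i, w k v - B k) < 1 := by
    intro J
    induction J using Finset.induction_on with
    | empty => intro _; exact ⟨fun _ => default, by simp, by simp, by simpa using h0⟩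
    | insert i J hi ih =>
      intro hsub
      have hiI : i ∈ I := hsub (mem_insert_self _ _)
      obtain ⟨s, h1, h2, h3⟩ := ih ((subset_insert _ _).trans hsub)
      obtain ⟨k0, hk0, hb1, hb2⟩ := hblock i hiI
      have h4 := hneg _ h3 k0 hk0
      have h5 : 0 ≤ 4 / (q : ℝ) * ∑ i ∈ I \ J, ∑ v ∈ A i, w k0 v :=
        mul_nonneg (by positivity) (Finset.sum_nonneg fun i _ =>
          Finset.sum_nonneg fun v _ => hw0 _ _)
      let U : Finset V := A i \ J.biUnion fun j => Nb (s j) ∩ A i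
      have hU : (q : ℝ) / 2 < #U := by
        have e1 : #(A i) ≤ #U + #(J.biUnion fun j => Nb (s j) ∩ A i) := by
          simp only [U]; exact card_le_card_sdiff_add_card
        have e2 : #(J.biUnion fun j => Nb (s j) ∩ A i) ≤ ∑ j ∈ J, #(Nb (s j) ∩ A i) :=
          card_biUnion_le
        have e3 : ∑ j ∈ J, (#(Nb (s j) ∩ A i) : ℝ) ≤ Δ * ∑ j ∈ J, w k0 (s j) := by
          rw [Finset.mul_sum]; exact Finset.sum_le_sum fun j _ => hb1 _
        have e4 : Δ * ∑ j ∈ J, w k0 (s j) < Δ * B k0 :=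
          mul_lt_mul_of_pos_left (by linarith) hΔ
        have e5 : (q : ℝ) ≤ #U + ∑ j ∈ J, (#(Nb (s j) ∩ A i) : ℝ) := by
          rw [← hA i hiI]
          exact_mod_cast e1.trans (Nat.add_le_add_left e2 _)
        linarith
      have hUpos : (0 : ℝ) < #U := by linarith
      have hUne : U.Nonempty := by
        rw [← card_pos]; exact_mod_cast hUpos
      let y : κ → ℝ := fun k =>
        ∑ j ∈ J, w k (s j) + 4 / q * ∑ j ∈ I \ insert i J, ∑ v ∈ A j, w k v - B k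
      have hy : ∀ k, ∑ j ∈ J, w k (s j) + 4 / q * ∑ j ∈ I \ J, ∑ v ∈ A j, w k v - B k =
          y k + 4 / q * ∑ v ∈ A i, w k v := by
        intro k
        have : I \ J = insert i (I \ insert i J) := by
          ext x
          simp only [mem_sdiff, mem_insert]
          constructor
          · rintro ⟨p1, p2⟩
            by_cases hx : x = i
            · exact Or.inl hx
            · exact Or.inr ⟨p1, by tauto⟩
          · rintro (rfl | ⟨p1, p2⟩)
            · exact ⟨hiI, hi⟩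
            · exact ⟨p1, fun h => p2 (Or.inr h)⟩
        rw [this, Finset.sum_insert (by simp)]
        simp only [y]; ring
      have havg : ∑ v ∈ U, ∑ k ∈ C, Real.exp (y k + w k v) ≤
          ∑ _v ∈ U, ∑ k ∈ C, Real.exp (y k + 4 / q * ∑ v ∈ A i, w k v) := by
        rw [Finset.sum_comm, Finset.sum_comm (s := U)]
        refine Finset.sum_le_sum fun k _ => ?_
        simp only [Real.exp_add]
        rw [← Finset.mul_sum, ← Finset.mul_sum]
        refine mul_le_mul_of_nonneg_left ?_ (Real.exp_pos _).le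
        have m0 : 0 ≤ ∑ v ∈ A i, w k v := Finset.sum_nonneg fun v _ => hw0 _ _
        have e1 : ∑ v ∈ U, Real.exp (w k v) ≤ ∑ v ∈ U, (1 + 2 * w k v) := by
          refine Finset.sum_le_sum fun v _ => ?_
          have := Real.abs_exp_sub_one_le (x := w k v)
            (by rw [abs_of_nonneg (hw0 k v)]; exact hw1 k v)
          rw [abs_of_nonneg (hw0 k v)] at this
          linarith [(abs_le.1 this).2]
        have e2 : ∑ v ∈ U, w k v ≤ ∑ v ∈ A i, w k v :=
          Finset.sum_le_sum_of_subset_of_nonneg sdiff_subset fun v _ _ => hw0 _ _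
        rw [Finset.sum_add_distrib, ← Finset.mul_sum] at e1
        simp only [Finset.sum_const, nsmul_eq_mul, mul_one] at e1 ⊢
        have e3 := Real.add_one_le_exp (4 / q * ∑ v ∈ A i, w k v)
        have e4 : 2 * ∑ v ∈ A i, w k v ≤ #U * (4 / q * ∑ v ∈ A i, w k v) := by
          rw [← mul_assoc]
          refine mul_le_mul_of_nonneg_right ?_ m0
          rw [← mul_div_assoc, le_div_iff₀ hqR]
          linarith
        have e5 := mul_le_mul_of_nonneg_left e3 hUpos.le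
        linarith
      obtain ⟨v, hvU, hv⟩ := Finset.exists_le_of_sum_le hUne havg
      have hvA : v ∈ A i := (mem_sdiff.1 hvU).1
      have hvN : ∀ j ∈ J, v ∉ Nb (s j) := fun j hj h =>
        (mem_sdiff.1 hvU).2 (mem_biUnion.2 ⟨j, hj, mem_inter.2 ⟨h, hvA⟩⟩)
      have hup : ∀ j ∈ J, Function.update s i v j = s j := fun j hj =>
        Function.update_of_ne (fun h : j = i => hi (h ▸ hj)) _ _
      refine ⟨Function.update s i v, fun j hj => ?_, fun j hj j' hj' hne => ?_, ?_⟩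
      · rcases mem_insert.1 hj with rfl | hj
        · simpa using hvA
        · rw [hup j hj]; exact h1 j hj
      · rcases mem_insert.1 hj with e1 | hj1 <;> rcases mem_insert.1 hj' with e2 | hj2
        · exact absurd (e1.trans e2.symm) hne
        · rw [hup j' hj2, e1, Function.update_self]
          exact fun h => hvN j' hj2 (hsym _ _ h)
        · rw [hup j hj1, e2, Function.update_self]
          exact hvN j hj1
        · rw [hup j hj1, hup j' hj2]; exact h2 j hj1 j' hj2 hne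
      · simp only [hy] at h3
        refine lt_of_le_of_lt (le_of_eq ?_) (lt_of_le_of_lt hv h3)
        refine Finset.sum_congr rfl fun k _ => ?_
        rw [Finset.sum_insert hi, Function.update_self,
          Finset.sum_congr rfl fun j hj => by rw [hup j hj]]
        simp only [y]
        congr 1; ring
  obtain ⟨s, h1, h2, h3⟩ := key I subset_rfl
  refine ⟨s, h1, h2, fun k hk => ?_⟩
  have := hneg _ h3 k hk
  simp only [sdiff_self, bot_eq_empty, sum_empty, mul_zero, add_zero] at this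
  linarith

theorem exists_pairing {V : Type} [Fintype V] [DecidableEq V] (L : Finset (Finset V))
    (hL : Laminar L) : ∀ n : ℕ, ∀ T : Finset V, #T = 2 * n →
      ∃ Q : V → V, (∀ t ∈ T, Q t ∈ T ∧ Q t ≠ t ∧ Q (Q t) = t) ∧
        ∀ K ∈ L, #{t ∈ T | t ∈ K ∧ Q t ∉ K} ≤ 1 := by
  classical
  intro n
  induction n with
  | zero =>
    intro T hT
    have : T = ∅ := by simpa using hT
    subst this
    exact ⟨id, by simp, by simp⟩
  | succ n ih =>
    intro T hT
    obtain ⟨K0, hK0, hmin⟩ := Finset.exists_min_image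
      ((insert univ L).filter fun K => 2 ≤ #(T ∩ K)) card
      ⟨univ, by simp only [mem_filter, mem_insert, true_or, inter_univ, true_and]; omega⟩
    rw [mem_filter] at hK0
    obtain ⟨x, hx, y, hy, hxy⟩ := Finset.one_lt_card.1 (by omega : 1 < #(T ∩ K0))
    rw [mem_inter] at hx hy
    obtain ⟨Q, hQ, hQL⟩ := ih ((T.erase x).erase y) (by
      rw [card_erase_of_mem (mem_erase.2 ⟨hxy.symm, hy.1⟩), card_erase_of_mem hx.1]; omega)
    let Q' : V → V := fun t => if t = x then y else if t = y then x else Q t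
    have hQx : Q' x = y := by simp [Q']
    have hQy : Q' y = x := by simp [Q', hxy.symm]
    have hQt : ∀ t, t ≠ x → t ≠ y → Q' t = Q t := fun t h1 h2 => by simp [Q', h1, h2]
    refine ⟨Q', fun t ht => ?_, fun K hK => ?_⟩
    · by_cases h1 : t = x
      · subst h1; rw [hQx, hQy]; exact ⟨hy.1, hxy.symm, rfl⟩
      by_cases h2 : t = y
      · subst h2; rw [hQy, hQx]; exact ⟨hx.1, hxy, rfl⟩
      obtain ⟨p1, p2, p3⟩ := hQ t (by simp [h1, h2, ht])
      simp only [mem_erase] at p1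
      rw [hQt t h1 h2, hQt _ p1.2.1 p1.1]
      exact ⟨p1.2.2, p2, p3⟩
    · have hsame : (x ∈ K ↔ y ∈ K) → #{t ∈ T | t ∈ K ∧ Q' t ∉ K} ≤ 1 := by
        intro hs
        refine le_trans (card_le_card fun t ht => ?_) (hQL K hK)
        simp only [mem_filter, mem_erase] at ht ⊢
        have h1 : t ≠ x := by rintro rfl; rw [hQx] at ht; tauto
        have h2 : t ≠ y := by rintro rfl; rw [hQy] at ht; tauto
        rw [hQt t h1 h2] at ht
        tauto
      have hcase : K ⊆ K0 ∨ K0 ⊆ K ∨ Disjoint K K0 := by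
        rcases mem_insert.1 hK0.1 with rfl | h
        · exact Or.inl (subset_univ _)
        · exact hL K hK K0 h
      rcases hcase with h | h | h
      · by_cases h2 : 2 ≤ #(T ∩ K)
        · have h3 := hmin K (mem_filter.2 ⟨mem_insert_of_mem hK, h2⟩)
          have h4 := Finset.eq_of_subset_of_card_le h h3
          exact hsame (by rw [h4]; exact iff_of_true hx.2 hy.2)
        · refine le_trans (card_le_card fun t ht => ?_) (by omega : #(T ∩ K) ≤ 1)
          simp only [mem_filter, mem_inter] at ht ⊢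
          tauto
      · exact hsame (iff_of_true (h hx.2) (h hy.2))
      · exact hsame (iff_of_false (fun h1 => Finset.disjoint_left.1 h h1 hx.2)
          (fun h1 => Finset.disjoint_left.1 h h1 hy.2))

theorem two_colouring {V : Type} [Fintype V] [DecidableEq V] (μ ν : V → V)
    (hμ : ∀ v, μ (μ v) = v) (hν : ∀ v, ν (ν v) = v) (hμ' : ∀ v, μ v ≠ v) (hν' : ∀ v, ν v ≠ v) :
    ∃ σ : V → ℤ, (∀ v, σ v = 1 ∨ σ v = -1) ∧ (∀ v, σ (μ v) = - σ v) ∧ ∀ v, σ (ν v) = - σ v := by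
  classical
  let m : Equiv.Perm V := Function.Involutive.toPerm μ hμ
  let n : Equiv.Perm V := Function.Involutive.toPerm ν hν
  have hmm : m * m = 1 := Equiv.ext fun v => hμ v
  have hnn : n * n = 1 := Equiv.ext fun v => hν v
  let ρ : Equiv.Perm V := m * n
  have hconj : ∀ k : ℤ, m * ρ ^ k = ρ ^ (-k) * m := by
    intro k
    have h1 : m * ρ * m⁻¹ = ρ⁻¹ := by
      have a1 : m⁻¹ = m := inv_eq_of_mul_eq_one_right hmm
      have a2 : n⁻¹ = n := inv_eq_of_mul_eq_one_right hnn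
      simp only [ρ, mul_inv_rev, a1, a2, ← mul_assoc, hmm, one_mul]
    have h2 : m * ρ ^ k * m⁻¹ = ρ ^ (-k) := by
      rw [← conj_zpow, h1, inv_zpow']
    rw [← h2]; group
  have hn : n = m * ρ := by simp only [ρ, ← mul_assoc, hmm, one_mul]
  have hns : ∀ v, ¬ ρ.SameCycle v (μ v) := by
    rintro v ⟨k, hk⟩
    rcases Int.even_or_odd' k with ⟨j, rfl | rfl⟩
    · apply hμ' ((ρ ^ j) v)
      have e1 : μ ((ρ ^ j) v) = (m * ρ ^ j) v := rfl
      rw [e1, hconj, Equiv.Perm.mul_apply]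
      have e2 : m v = μ v := rfl
      rw [e2, ← hk, ← Equiv.Perm.mul_apply, ← zpow_add]
      congr 2; ring
    · apply hν' ((ρ ^ j) v)
      have e1 : ν ((ρ ^ j) v) = (n * ρ ^ j) v := rfl
      rw [e1, hn, mul_assoc, ← zpow_one_add, hconj, Equiv.Perm.mul_apply]
      have e2 : m v = μ v := rfl
      rw [e2, ← hk, ← Equiv.Perm.mul_apply, ← zpow_add]
      congr 2; ring
  let idx : V → ℕ := fun v =>
    (Fintype.equivFin V (Quotient.out (Quotient.mk (Equiv.Perm.SameCycle.setoid ρ) v)) : ℕ)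
  have hidx : ∀ u v, idx u = idx v ↔ ρ.SameCycle u v := by
    intro u v
    constructor
    · intro h
      have h1 := (Fintype.equivFin V).injective (Fin.ext h)
      have h2 := Quotient.out_injective h1
      exact Quotient.exact h2
    · intro h
      simp only [idx]
      rw [Quotient.sound (s := Equiv.Perm.SameCycle.setoid ρ) h]
  have h1 : ∀ v, idx (μ (ν v)) = idx v := fun v =>
    (hidx _ _).2 (Equiv.Perm.SameCycle.symm ⟨1, by rw [zpow_one]; rfl⟩)
  have h2 : ∀ v, idx (ν v) = idx (μ v) := fun v => by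
    have := h1 (ν v); rw [hν] at this; exact this.symm
  have h3 : ∀ v, idx v ≠ idx (μ v) := fun v h => hns v ((hidx _ _).1 h)
  refine ⟨fun v => if idx v < idx (μ v) then 1 else -1, fun v => ?_, fun v => ?_, fun v => ?_⟩
  · dsimp only; split_ifs <;> simp
  · have := h3 v
    simp only [hμ]
    split_ifs <;> omega
  · have := h3 v
    simp only [h1, h2]
    split_ifs <;> omega

end Pool.Agent.P.MP_e59a69_co
end

-- part Pool.Agent.P.MP_e59a69_co.Local
section

/-! A cubic graph with a directed 2-factor as a pair of permutations: local structure. -/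

open Finset

namespace Pool.Agent.P.MP_e59a69_co

variable {V : Type} [Fintype V] [DecidableEq V]

/-- edges of the 2-factor in the cut -/
def fc (π : Equiv.Perm V) (X : Finset V) : ℕ := #{v | ¬ (v ∈ X ↔ π v ∈ X)}

/-- matching edges in the cut -/
def mc (μ : Equiv.Perm V) (X : Finset V) : ℕ := #{v ∈ X | μ v ∉ X}

/-- a segment of a circuit -/
noncomputable def Iv (π : Equiv.Perm V) (x : V) (a b : ℤ) : Finset V :=
  (Icc a b).image fun t => (π ^ t) x

structure Hyp (π μ : Equiv.Perm V) (c : ℕ) : Prop where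
  inv : ∀ v, μ (μ v) = v
  ne : ∀ v, μ v ≠ v
  len : ∀ v (t : ℤ), t ≠ 0 → |t| < c → (π ^ t) v ≠ v
  card : 2 * c ≤ Fintype.card V
  cut : ∀ X : Finset V, X.Nonempty → Xᶜ.Nonempty →
    c ≤ fc π X + mc μ X ∨ #X + 2 ≤ fc π X + mc μ X ∨ #Xᶜ + 2 ≤ fc π X + mc μ X

omit [Fintype V] [DecidableEq V] in
lemma zp_add (π : Equiv.Perm V) (s t : ℤ) (x : V) : (π ^ s) ((π ^ t) x) = (π ^ (s + t)) x := by
  rw [zpow_add]; rfl

omit [Fintype V] [DecidableEq V] in
lemma zp_succ (π : Equiv.Perm V) (t : ℤ) (x : V) : π ((π ^ t) x) = (π ^ (t + 1)) x := by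
  rw [add_comm, ← zp_add, zpow_one]

omit [Fintype V] in
lemma mem_Iv {π : Equiv.Perm V} {x y : V} {a b : ℤ} :
    y ∈ Iv π x a b ↔ ∃ t, a ≤ t ∧ t ≤ b ∧ (π ^ t) x = y := by
  simp only [Iv, mem_image, mem_Icc, and_assoc]

variable {π μ : Equiv.Perm V} {c : ℕ}

lemma Hyp.inj (H : Hyp π μ c) (x : V) {s t : ℤ} (h : |s - t| < c) (e : (π ^ s) x = (π ^ t) x) :
    s = t := by
  by_contra hne
  apply H.len ((π ^ t) x) (s - t) (sub_ne_zero.2 hne) h
  rw [zp_add, sub_add_cancel, e]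

lemma Hyp.small (H : Hyp π μ c) {X : Finset V} (h1 : X.Nonempty) (h2 : #X + 2 ≤ c) :
    #X + 2 ≤ fc π X + mc μ X := by
  have h3 := H.card
  have h4 : #Xᶜ = Fintype.card V - #X := card_compl X
  rcases H.cut X h1 (card_pos.1 (by omega)) with h | h | h <;> omega

lemma fc_Iv (π : Equiv.Perm V) (x : V) (a b : ℤ) : fc π (Iv π x a b) ≤ 2 := by
  refine le_trans (card_le_card (t := {(π ^ b) x, (π ^ (a - 1)) x}) fun v hv => ?_) card_le_two
  simp only [mem_filter, mem_univ, true_and, mem_insert, mem_singleton] at hv ⊢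
  by_contra hc
  push Not at hc
  apply hv
  simp only [mem_Iv]
  constructor
  · rintro ⟨t, h1, h2, rfl⟩
    have : t ≠ b := fun h => hc.1 (by rw [h])
    exact ⟨t + 1, by omega, by omega, (zp_succ _ _ _).symm⟩
  · rintro ⟨t, h1, h2, h3⟩
    have h4 : (π ^ (t - 1)) x = v := by
      apply π.injective
      rw [zp_succ, sub_add_cancel, h3]
    have : t ≠ a := fun h => hc.2 (by rw [← h, h4])
    exact ⟨t - 1, by omega, by omega, h4⟩

lemma fc_union (π : Equiv.Perm V) (A B : Finset V) : fc π (A ∪ B) ≤ fc π A + fc π B := by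
  refine le_trans (card_le_card fun v hv => ?_) (card_union_le _ _)
  simp only [mem_filter, mem_univ, true_and, mem_union] at hv ⊢
  tauto

omit [Fintype V] in
lemma card_Iv_le (π : Equiv.Perm V) (x : V) (a b : ℤ) : #(Iv π x a b) ≤ (b + 1 - a).toNat :=
  card_image_le.trans (by simp)

lemma Hyp.card_Iv (H : Hyp π μ c) (x : V) {a b : ℤ} (h : b - a < c) :
    #(Iv π x a b) = (b + 1 - a).toNat := by
  unfold Iv
  rw [card_image_of_injOn]
  · simp
  · intro s hs t ht e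
    simp only [coe_Icc, Set.mem_Icc] at hs ht
    exact H.inj x (abs_lt.2 ⟨by omega, by omega⟩) e

omit [Fintype V] in
lemma mc_le (μ : Equiv.Perm V) {Z T : Finset V} (h1 : T ⊆ Z) (h2 : ∀ v ∈ T, μ v ∈ Z) :
    mc μ Z + #T ≤ #Z := by
  unfold mc
  rw [← card_union_of_disjoint]
  · exact card_le_card (union_subset (filter_subset _ _) h1)
  · exact Finset.disjoint_left.2 fun v h3 h4 => (mem_filter.1 h3).2 (h2 v h4)

lemma Hyp.g1 (H : Hyp π μ c) (v : V) {t : ℤ} (h : |t| + 3 ≤ c) : μ v ≠ (π ^ t) v := by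
  intro e
  have h0 := abs_nonneg t
  have h1 := le_abs_self t
  have h2 := neg_abs_le t
  let Z := Iv π v (min 0 t) (max 0 t)
  have hv : v ∈ Z := mem_Iv.2 ⟨0, by omega, by omega, by simp⟩
  have hm : μ v ∈ Z := mem_Iv.2 ⟨t, by omega, by omega, e.symm⟩
  have c1 : #Z ≤ _ := card_Iv_le π v (min 0 t) (max 0 t)
  have c2 := H.small ⟨v, hv⟩ (by omega)
  have c3 : fc π Z ≤ 2 := fc_Iv _ _ _ _
  have c4 := mc_le μ (Z := Z) (T := {v, μ v}) (by simp [insert_subset_iff, hv, hm])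
    (by simp [hv, hm, H.inv])
  rw [card_pair (H.ne v).symm] at c4
  omega

lemma Hyp.g2 (H : Hyp π μ c) (v : V) {k t : ℤ} (hk : k ≠ 0) (h : |k| + |t| + 4 ≤ c) :
    μ ((π ^ k) v) ≠ (π ^ t) (μ v) := by
  intro e
  have h0 := abs_nonneg t
  have h1 := le_abs_self t
  have h2 := neg_abs_le t
  have k0 := abs_nonneg k
  have k1 := le_abs_self k
  have k2 := neg_abs_le k
  let Z := Iv π v (min 0 k) (max 0 k) ∪ Iv π (μ v) (min 0 t) (max 0 t)
  have m1 : v ∈ Z := mem_union_left _ (mem_Iv.2 ⟨0, by omega, by omega, by simp⟩)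
  have m2 : (π ^ k) v ∈ Z := mem_union_left _ (mem_Iv.2 ⟨k, by omega, by omega, rfl⟩)
  have m3 : μ v ∈ Z := mem_union_right _ (mem_Iv.2 ⟨0, by omega, by omega, by simp⟩)
  have m4 : μ ((π ^ k) v) ∈ Z := mem_union_right _ (mem_Iv.2 ⟨t, by omega, by omega, e.symm⟩)
  have c0 : #Z ≤ _ := card_union_le _ _
  have c1 := card_Iv_le π v (min 0 k) (max 0 k)
  have c1' := card_Iv_le π (μ v) (min 0 t) (max 0 t)
  have c2 := H.small ⟨v, m1⟩ (by omega)
  have c3 : fc π Z ≤ _ := fc_union _ _ _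
  have c5 := fc_Iv π v (min 0 k) (max 0 k)
  have c6 := fc_Iv π (μ v) (min 0 t) (max 0 t)
  have c4 := mc_le μ (Z := Z) (T := {v, (π ^ k) v, μ v, μ ((π ^ k) v)})
    (by simp [insert_subset_iff, m1, m2, m3, m4]) (by simp [m1, m2, m3, m4, H.inv])
  have d1 : v ≠ (π ^ k) v := (H.len v k hk (by omega)).symm
  have d2 : v ≠ μ v := (H.ne v).symm
  have d3 : v ≠ μ ((π ^ k) v) := by
    intro e2
    apply H.g1 ((π ^ k) v) (t := -k) (by rw [abs_neg]; omega)
    rw [← e2, zp_add]; simp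
  have d4 : (π ^ k) v ≠ μ v := (H.g1 v (by omega)).symm
  have d5 : (π ^ k) v ≠ μ ((π ^ k) v) := (H.ne _).symm
  have d6 : μ v ≠ μ ((π ^ k) v) := fun e2 => d1 (μ.injective e2)
  rw [card_insert_of_notMem (by simp [d1, d2, d3]), card_insert_of_notMem (by simp [d4, d5]),
    card_pair d6] at c4
  omega

omit [Fintype V] [DecidableEq V] in
lemma ivt (π : Equiv.Perm V) (X : Finset V) (x : V) (a : ℤ) (n : ℕ)
    (h : ¬ ((π ^ a) x ∈ X ↔ (π ^ (a + n)) x ∈ X)) :
    ∃ t, a ≤ t ∧ t < a + n ∧ ¬ ((π ^ t) x ∈ X ↔ π ((π ^ t) x) ∈ X) := by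
  induction n with
  | zero => simp at h
  | succ n ih =>
    by_cases h1 : ((π ^ a) x ∈ X ↔ (π ^ (a + n)) x ∈ X)
    · refine ⟨a + n, by omega, by push_cast; omega, ?_⟩
      rw [zp_succ, ← h1]
      push_cast at h
      rwa [← add_assoc] at h
    · obtain ⟨t, h2, h3, h4⟩ := ih h1
      exact ⟨t, h2, by push_cast; omega, h4⟩

omit [Fintype V] [DecidableEq V] in
lemma ivt' (π : Equiv.Perm V) (X : Finset V) (x : V) {a b : ℤ} (hab : a ≤ b)
    (h : ¬ ((π ^ a) x ∈ X ↔ (π ^ b) x ∈ X)) :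
    ∃ t, a ≤ t ∧ t < b ∧ ¬ ((π ^ t) x ∈ X ↔ π ((π ^ t) x) ∈ X) := by
  obtain ⟨n, rfl⟩ := Int.le.dest hab
  exact ivt π X x a n h

/-- centres of the six segments around a special vertex -/
def Cen (π μ : Equiv.Perm V) (j : ℤ) : Equiv.Perm V := if j = 3 then 1 else μ * π ^ j

/-- the six segments around a special vertex -/
noncomputable def Sys (π μ : Equiv.Perm V) (L : ℕ) (s : V) : Finset V :=
  (Icc (-2 : ℤ) 3).biUnion fun j => Iv π (Cen π μ j s) (-L) L

omit [Fintype V] [DecidableEq V] in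
lemma Cen_three (π μ : Equiv.Perm V) (s : V) : Cen π μ 3 s = s := by simp [Cen]

omit [Fintype V] [DecidableEq V] in
lemma Cen_ne (π μ : Equiv.Perm V) {j : ℤ} (hj : j ≠ 3) (s : V) :
    Cen π μ j s = μ ((π ^ j) s) := by simp [Cen, hj]

lemma Hyp.disj (H : Hyp π μ c) {L : ℕ} (hL : 2 * L + 10 ≤ c) (s : V) :
    ((Icc (-2 : ℤ) 3 : Finset ℤ) : Set ℤ).PairwiseDisjoint
      fun j => Iv π (Cen π μ j s) (-L) L := by
  have key : ∀ j k : ℤ, -2 ≤ j → j ≤ 3 → -2 ≤ k → k < 3 → j ≠ k → ∀ t t' : ℤ, -L ≤ t → t ≤ L →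
      -L ≤ t' → t' ≤ L → (π ^ t) (Cen π μ j s) ≠ (π ^ t') (Cen π μ k s) := by
    intro j k j1 j2 k1 k2 hjk t t' t1 t2 t3 t4 e
    rw [Cen_ne _ _ k2.ne] at e
    have e2 : μ ((π ^ k) s) = (π ^ (t - t')) (Cen π μ j s) := by
      apply (π ^ t').injective
      rw [← e, zp_add]; congr 2; ring
    by_cases h3 : j = 3
    · subst h3
      rw [Cen_three] at e2
      apply H.g1 ((π ^ k) s) (t := t - t' - k) (by
        have : |t - t' - k| ≤ 2 * L + 2 := abs_le.2 ⟨by omega, by omega⟩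
        omega)
      rw [e2, zp_add]; congr 2; ring
    · rw [Cen_ne _ _ h3] at e2
      apply H.g2 ((π ^ j) s) (k := k - j) (t := t - t') (by omega) (by
        have : |t - t'| ≤ 2 * L := abs_le.2 ⟨by omega, by omega⟩
        have : |k - j| ≤ 4 := abs_le.2 ⟨by omega, by omega⟩
        omega)
      rw [← e2, zp_add]; congr 3; ring
  intro j hj k hk hjk
  simp only [coe_Icc, Set.mem_Icc] at hj hk
  rw [Function.onFun, Finset.disjoint_left]
  intro v h1 h2
  obtain ⟨t, t1, t2, e1⟩ := mem_Iv.1 h1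
  obtain ⟨t', t3, t4, e2⟩ := mem_Iv.1 h2
  by_cases h3 : k = 3
  · exact key k j hk.1 hk.2 hj.1 (by omega) hjk.symm t' t t3 t4 t1 t2 (e2.trans e1.symm)
  · exact key j k hj.1 hj.2 hk.1 (by omega) hjk t t' t1 t2 t3 t4 (e1.trans e2.symm)

/-- weight of the cut edges at a vertex -/
def om (π μ : Equiv.Perm V) (X : Finset V) (v : V) : ℕ :=
  2 * (if ¬ (v ∈ X ↔ π v ∈ X) then 1 else 0) + (if ¬ (v ∈ X ↔ μ v ∈ X) then 1 else 0)

omit [Fintype V] in
lemma sum_om (π μ : Equiv.Perm V) (X A : Finset V) :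
    ∑ v ∈ A, om π μ X v =
      2 * #{v ∈ A | ¬ (v ∈ X ↔ π v ∈ X)} + #{v ∈ A | ¬ (v ∈ X ↔ μ v ∈ X)} := by
  unfold om
  rw [Finset.sum_add_distrib, ← Finset.mul_sum, card_filter, card_filter]

omit [Fintype V] in
lemma Iv_sub_Sys {L : ℕ} {s : V} {j : ℤ} (h1 : -2 ≤ j) (h2 : j ≤ 3) {a b : ℤ} (ha : -L ≤ a)
    (hb : b ≤ L) : Iv π (Cen π μ j s) a b ⊆ Sys π μ L s := by
  intro v hv
  obtain ⟨t, t1, t2, e⟩ := mem_Iv.1 hv
  exact mem_biUnion.2 ⟨j, mem_Icc.2 ⟨h1, h2⟩, mem_Iv.2 ⟨t, by omega, by omega, e⟩⟩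

theorem Hyp.loc (H : Hyp π μ c) {L : ℕ} (hL2 : 2 ≤ L) (hL : 2 * L + 10 ≤ c) (X : Finset V) (s : V)
    (h0 : s ∈ X) (h1 : (π ^ (1 : ℤ)) s ∈ X) (h1' : (π ^ (-1 : ℤ)) s ∈ X)
    (hiso : (π ^ (2 : ℤ)) s ∈ X ∨ (π ^ (-2 : ℤ)) s ∈ X ∨ μ ((π ^ (-1 : ℤ)) s) ∈ X ∨
      μ ((π ^ (0 : ℤ)) s) ∈ X ∨ μ ((π ^ (1 : ℤ)) s) ∈ X)
    (hom : ∑ v ∈ Sys π μ L s, om π μ X v < 12) :
    ∃ A ⊆ Sys π μ L s, #A = L ∧ A ⊆ X := by
  by_contra hc
  push Not at hc
  have hpi : ∀ j : ℤ, -2 ≤ j → j ≤ 3 → Cen π μ j s ∈ X →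
      2 ≤ #{v ∈ Iv π (Cen π μ j s) (-L) L | ¬ (v ∈ X ↔ π v ∈ X)} := by
    intro j j1 j2 hx
    have a1 := hc _ (Iv_sub_Sys (π := π) (μ := μ) (s := s) j1 j2 (a := 1) (b := L)
      (by omega) le_rfl) (by rw [H.card_Iv _ (by omega)]; omega)
    have a2 := hc _ (Iv_sub_Sys (π := π) (μ := μ) (s := s) j1 j2 (a := -L) (b := -1)
      le_rfl (by omega)) (by rw [H.card_Iv _ (by omega)]; omega)
    obtain ⟨y, y1, y2⟩ := Finset.not_subset.1 a1
    obtain ⟨z, z1, z2⟩ := Finset.not_subset.1 a2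
    obtain ⟨t, t1, t2, rfl⟩ := mem_Iv.1 y1
    obtain ⟨t', t3, t4, rfl⟩ := mem_Iv.1 z1
    obtain ⟨p, p1, p2, p3⟩ := ivt' π X (Cen π μ j s) (a := 0) (b := t) (by omega)
      (by simp [hx, y2])
    obtain ⟨r, r1, r2, r3⟩ := ivt' π X (Cen π μ j s) (a := t') (b := 0) (by omega)
      (by simp [hx, z2])
    refine Finset.one_lt_card.2 ⟨(π ^ p) (Cen π μ j s), ?_, (π ^ r) (Cen π μ j s), ?_, ?_⟩
    · exact mem_filter.2 ⟨mem_Iv.2 ⟨p, by omega, by omega, rfl⟩, p3⟩
    · exact mem_filter.2 ⟨mem_Iv.2 ⟨r, by omega, by omega, rfl⟩, r3⟩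
    · intro e
      have := H.inj _ (abs_lt.2 ⟨by omega, by omega⟩) e
      omega
  let tt : ℤ → ℕ := fun j => if (π ^ j) s ∈ X ∧ μ ((π ^ j) s) ∉ X then 1 else 0
  let rr : ℤ → ℕ := fun j => if μ ((π ^ j) s) ∈ X then 4 else 0
  have hP : ∀ j : ℤ, -2 ≤ j → j < 3 →
      rr j + tt j ≤ ∑ v ∈ Iv π (Cen π μ j s) (-L) L, om π μ X v := by
    intro j j1 j2
    rw [sum_om]
    simp only [rr, tt]
    by_cases a : μ ((π ^ j) s) ∈ X
    · have := hpi j j1 j2.le (by rwa [Cen_ne _ _ j2.ne])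
      simp only [a, if_true, not_true, and_false, if_false]
      omega
    · simp only [a, if_false, not_false_eq_true, and_true]
      split_ifs with b
      · have : 1 ≤ #{v ∈ Iv π (Cen π μ j s) (-L) L | ¬ (v ∈ X ↔ μ v ∈ X)} := by
          refine card_pos.2 ⟨μ ((π ^ j) s), mem_filter.2 ⟨mem_Iv.2 ⟨0, by omega, by omega, ?_⟩, ?_⟩⟩
          · rw [Cen_ne _ _ j2.ne]; simp
          · rw [H.inv]; simp [a, b]
        omega
      · omega
  have hP3 : 4 + ∑ j ∈ Icc (-2 : ℤ) 2, tt j ≤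
      ∑ v ∈ Iv π (Cen π μ 3 s) (-L) L, om π μ X v := by
    rw [sum_om]
    have a1 := hpi 3 (by omega) le_rfl (by rwa [Cen_three])
    have a2 : ∑ j ∈ Icc (-2 : ℤ) 2, tt j ≤
        #{v ∈ Iv π (Cen π μ 3 s) (-L) L | ¬ (v ∈ X ↔ μ v ∈ X)} := by
      simp only [tt]
      rw [← card_filter]
      refine card_le_card_of_injOn (fun j => (π ^ j) s) (fun j hj => ?_) (fun j hj k hk e => ?_)
      · simp only [coe_filter, mem_Icc, Set.mem_ofPred_eq] at hj ⊢
        refine ⟨mem_Iv.2 ⟨j, by omega, by omega, by rw [Cen_three]⟩, ?_⟩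
        simp [hj.2.1, hj.2.2]
      · simp only [coe_filter, mem_Icc, Set.mem_ofPred_eq] at hj hk
        exact H.inj s (abs_lt.2 ⟨by omega, by omega⟩) e
    omega
  unfold Sys at hom
  rw [Finset.sum_biUnion (H.disj hL s)] at hom
  have i1 : Icc (-2 : ℤ) 3 = {-2, -1, 0, 1, 2, 3} := by decide
  have i2 : Icc (-2 : ℤ) 2 = {-2, -1, 0, 1, 2} := by decide
  rw [i1] at hom
  rw [i2] at hP3
  rw [sum_insert (by decide), sum_insert (by decide), sum_insert (by decide),
    sum_insert (by decide), sum_insert (by decide), sum_singleton] at hom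
  rw [sum_insert (by decide), sum_insert (by decide), sum_insert (by decide),
    sum_insert (by decide), sum_singleton] at hP3
  have b1 := hP (-2) (by omega) (by omega)
  have b2 := hP (-1) (by omega) (by omega)
  have b3 := hP 0 (by omega) (by omega)
  have b4 := hP 1 (by omega) (by omega)
  have b5 := hP 2 (by omega) (by omega)
  have q1 : ∀ j : ℤ, (π ^ j) s ∈ X → 2 ≤ rr j + 2 * tt j := by
    intro j hj
    simp only [rr, tt, hj, true_and]
    split_ifs <;> simp_all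
  have q2 : ∀ j : ℤ, μ ((π ^ j) s) ∈ X → 4 ≤ rr j := by
    intro j hj
    simp only [rr, hj, if_true, le_refl]
  have c1 := q1 _ h1
  have c2 := q1 _ h1'
  have c3 := q1 0 (by simpa using h0)
  rcases hiso with h | h | h | h | h
  · have := q1 _ h; omega
  · have := q1 _ h; omega
  · have := q2 _ h; omega
  · have := q2 _ h; omega
  · have := q2 _ h; omega

end Pool.Agent.P.MP_e59a69_co
end

-- part Pool.Agent.P.MP_e59a69_co.Thin
section

/-! From few bad pairs to a thin pairing of the special vertices. -/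

open Finset

namespace Pool.Agent.P.MP_e59a69_co

variable {V : Type} [Fintype V] [DecidableEq V]

omit [Fintype V] in
lemma invol_card (g : V → V) (T X : Finset V) (hg : ∀ t ∈ T, g t ∈ T ∧ g (g t) = t) :
    #{t ∈ T | t ∉ X ∧ g t ∈ X} = #{t ∈ T | t ∈ X ∧ g t ∉ X} := by
  refine card_bij' (fun t _ => g t) (fun t _ => g t) (fun t ht => ?_) (fun t ht => ?_)
    (fun t ht => (hg t (mem_filter.1 ht).1).2) (fun t ht => (hg t (mem_filter.1 ht).1).2)
  · simp only [mem_filter] at ht ⊢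
    rw [(hg t ht.1).2]
    exact ⟨(hg t ht.1).1, ht.2.2, ht.2.1⟩
  · simp only [mem_filter] at ht ⊢
    rw [(hg t ht.1).2]
    exact ⟨(hg t ht.1).1, ht.2.2, ht.2.1⟩

lemma fc_compl (π : Equiv.Perm V) (X : Finset V) : fc π Xᶜ = fc π X := by
  unfold fc
  congr 1
  refine filter_congr fun v _ => ?_
  simp only [mem_compl]; tauto

lemma mc_eq (μ : Equiv.Perm V) (X : Finset V) : mc μ X = #{v | v ∈ X ∧ μ v ∉ X} := by
  unfold mc
  congr 1
  ext v; simp

lemma mc_compl {μ : Equiv.Perm V} (hμ : ∀ v, μ (μ v) = v) (X : Finset V) : mc μ Xᶜ = mc μ X := by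
  rw [mc_eq, mc_eq, ← invol_card μ univ X fun t _ => ⟨mem_univ _, hμ t⟩]
  congr 1
  refine filter_congr fun v _ => ?_
  simp only [mem_compl, not_not]

lemma om_compl (π μ : Equiv.Perm V) (X : Finset V) (v : V) : om π μ Xᶜ v = om π μ X v := by
  unfold om
  simp only [mem_compl, not_iff_not]

lemma card_mucut {μ : Equiv.Perm V} (hμ : ∀ v, μ (μ v) = v) (X : Finset V) :
    #{v | ¬ (v ∈ X ↔ μ v ∈ X)} = 2 * mc μ X := by
  have h := invol_card μ univ X fun t _ => ⟨mem_univ _, hμ t⟩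
  rw [mc_eq, two_mul]
  nth_rewrite 1 [← h]
  rw [← card_union_of_disjoint]
  · congr 1
    ext v
    simp only [mem_filter, mem_univ, true_and, mem_union]; tauto
  · exact Finset.disjoint_left.2 fun v h1 h2 => (mem_filter.1 h1).2.1 (mem_filter.1 h2).2.1

lemma sum_om_univ (π : Equiv.Perm V) {μ : Equiv.Perm V} (hμ : ∀ v, μ (μ v) = v) (X : Finset V) :
    ∑ v, om π μ X v = 2 * (fc π X + mc μ X) := by
  rw [sum_om, card_mucut hμ, fc]; ring

/-- pairs split by a cut -/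
def dQ (S : Finset V) (Q : V → V) (X : Finset V) : ℕ := #{s ∈ S | s ∈ X ∧ Q s ∉ X}

/-- special vertices with a light edge in the cut -/
def lam (π : Equiv.Perm V) (S X : Finset V) : ℕ :=
  #{s ∈ S | ¬ (s ∈ X ↔ (π ^ (1 : ℤ)) s ∈ X) ∨ ¬ (s ∈ X ↔ (π ^ (-1 : ℤ)) s ∈ X)}

variable {π μ : Equiv.Perm V} {c : ℕ}

omit [Fintype V] in
lemma pow_mem_Sys {L : ℕ} (s : V) {t : ℤ} (h1 : -L ≤ t) (h2 : t ≤ L) :
    (π ^ t) s ∈ Sys π μ L s :=
  Iv_sub_Sys (j := 3) (by omega) le_rfl le_rfl le_rfl (mem_Iv.2 ⟨t, h1, h2, by rw [Cen_three]⟩)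

lemma toggle (H : Hyp π μ c) {L : ℕ} (hL2 : 2 ≤ L) (hL : 2 * L + 10 ≤ c) (S : Finset V) (Q : V → V)
    (hdis : ∀ s ∈ S, ∀ s' ∈ S, s ≠ s' → Disjoint (Sys π μ L s) (Sys π μ L s'))
    (X : Finset V) (s : V) (hs : s ∈ S)
    (h0 : s ∈ X) (h1 : (π ^ (1 : ℤ)) s ∈ X) (h1' : (π ^ (-1 : ℤ)) s ∈ X)
    (hiso : ¬ ((π ^ (2 : ℤ)) s ∈ X ∨ (π ^ (-2 : ℤ)) s ∈ X ∨ μ ((π ^ (-1 : ℤ)) s) ∈ X ∨
      μ ((π ^ (0 : ℤ)) s) ∈ X ∨ μ ((π ^ (1 : ℤ)) s) ∈ X)) :
    ∃ Y : Finset V, fc π Y + mc μ Y + 5 ≤ fc π X + mc μ X ∧ lam π S Y ≤ lam π S X ∧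
      dQ S Q X ≤ dQ S Q Y + 1 := by
  push Not at hiso
  obtain ⟨i1, i2, i3, i4, i5⟩ := hiso
  let T := Iv π s (-1) 1
  have hT : ∀ v, v ∈ T ↔ v = (π ^ (-1 : ℤ)) s ∨ v = (π ^ (0 : ℤ)) s ∨ v = (π ^ (1 : ℤ)) s := by
    intro v
    rw [mem_Iv]
    constructor
    · rintro ⟨t, t1, t2, rfl⟩
      have : t = -1 ∨ t = 0 ∨ t = 1 := by omega
      rcases this with rfl | rfl | rfl <;> simp
    · rintro (rfl | rfl | rfl)
      · exact ⟨-1, by omega, by omega, rfl⟩
      · exact ⟨0, by omega, by omega, rfl⟩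
      · exact ⟨1, by omega, by omega, rfl⟩
  have hTc : #T = 3 := by rw [H.card_Iv _ (by omega)]; rfl
  have hTX : ∀ v ∈ T, v ∈ X ∧ μ v ∉ X := by
    intro v hv
    rcases (hT v).1 hv with rfl | rfl | rfl
    · exact ⟨h1', i3⟩
    · exact ⟨by simpa using h0, i4⟩
    · exact ⟨h1, i5⟩
  have hTS : T ⊆ Sys π μ L s := fun v hv => by
    obtain ⟨t, t1, t2, rfl⟩ := mem_Iv.1 hv
    exact pow_mem_Sys s (by omega) (by omega)
  have hoth : ∀ s' ∈ S, s' ≠ s → ∀ t : ℤ, -1 ≤ t → t ≤ 1 → (π ^ t) s' ∉ T :=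
    fun s' hs' hne t t1 t2 h => Finset.disjoint_left.1 (hdis s' hs' s hs hne)
      (pow_mem_Sys s' (by omega) (by omega)) (hTS h)
  refine ⟨X \ T, ?_, ?_, ?_⟩
  · have a1 : fc π (X \ T) + 2 ≤ fc π X := by
      have hne : (π ^ (1 : ℤ)) s ≠ (π ^ (-2 : ℤ)) s := fun e => i2 (e ▸ h1)
      have e1 : π ((π ^ (1 : ℤ)) s) = (π ^ (2 : ℤ)) s := zp_succ _ _ _
      have e2 : π ((π ^ (-2 : ℤ)) s) = (π ^ (-1 : ℤ)) s := zp_succ _ _ _
      have hin : ∀ v, v ∈ T → π v ∉ X \ T := by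
        intro v hv h
        rw [mem_sdiff] at h
        obtain ⟨t, t1, t2, rfl⟩ := mem_Iv.1 hv
        rw [zp_succ] at h
        by_cases ht : t = 1
        · subst ht; exact i1 h.1
        · exact h.2 (mem_Iv.2 ⟨t + 1, by omega, by omega, rfl⟩)
      have hin' : ∀ v, π v ∈ T → v ∉ X \ T := by
        intro v hv h
        rw [mem_sdiff] at h
        obtain ⟨t, t1, t2, e⟩ := mem_Iv.1 hv
        have e3 : (π ^ (t - 1)) s = v := by
          apply π.injective
          rw [zp_succ, sub_add_cancel, e]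
        by_cases ht : t = -1
        · subst ht; exact i2 (by rw [← e3] at h; exact h.1)
        · exact h.2 (mem_Iv.2 ⟨t - 1, by omega, by omega, e3⟩)
      rw [← card_pair hne]
      unfold fc
      rw [← card_union_of_disjoint]
      · refine card_le_card fun v hv => ?_
        simp only [mem_union, mem_filter, mem_univ, true_and, mem_insert, mem_singleton] at hv ⊢
        rcases hv with hv | rfl | rfl
        · have p1 : v ∉ T := fun h => hv (iff_of_false (fun h2 => (mem_sdiff.1 h2).2 h) (hin v h))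
          have p2 : π v ∉ T := fun h =>
            hv (iff_of_false (hin' v h) (fun h2 => (mem_sdiff.1 h2).2 h))
          simpa only [mem_sdiff, p1, p2, not_false_eq_true, and_true] using hv
        · rw [e1]; exact fun h => i1 (h.1 h1)
        · rw [e2]; exact fun h => i2 (h.2 h1')
      · refine Finset.disjoint_left.2 fun v p1 p2 => ?_
        simp only [mem_filter, mem_univ, true_and, mem_insert, mem_singleton] at p1 p2
        apply p1
        rcases p2 with rfl | rfl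
        · have := (hT _).2 (Or.inr (Or.inr rfl))
          exact iff_of_false (fun h2 => (mem_sdiff.1 h2).2 this) (hin _ this)
        · have := (hT _).2 (Or.inl rfl)
          rw [← e2] at this
          exact iff_of_false (hin' _ this) (fun h2 => (mem_sdiff.1 h2).2 this)
    have a2 : mc μ (X \ T) + 3 ≤ mc μ X := by
      rw [← hTc]
      unfold mc
      rw [← card_union_of_disjoint]
      · refine card_le_card fun v hv => ?_
        simp only [mem_union, mem_filter, mem_sdiff] at hv ⊢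
        rcases hv with hv | hv
        · refine ⟨hv.1.1, fun h => hv.2 ⟨h, fun h2 => ?_⟩⟩
          have := (hTX _ h2).2
          rw [H.inv] at this
          exact this hv.1.1
        · exact hTX v hv
      · exact Finset.disjoint_left.2 fun v p1 p2 => (mem_sdiff.1 (mem_filter.1 p1).1).2 p2
    omega
  · refine card_le_card fun s' hs' => ?_
    simp only [mem_filter, mem_sdiff] at hs' ⊢
    refine ⟨hs'.1, ?_⟩
    by_cases hne : s' = s
    · exfalso
      subst hne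
      have p1 := (hT _).2 (Or.inl rfl)
      have p2 := (hT _).2 (Or.inr (Or.inl rfl))
      have p3 := (hT _).2 (Or.inr (Or.inr rfl))
      rw [zpow_zero, Equiv.Perm.one_apply] at p2
      have := hs'.2
      simp only [p1, p2, p3, not_true, and_false, or_self] at this
    · have p1 := hoth s' hs'.1 hne (-1) (by omega) (by omega)
      have p2 := hoth s' hs'.1 hne 0 (by omega) (by omega)
      have p3 := hoth s' hs'.1 hne 1 (by omega) (by omega)
      rw [zpow_zero, Equiv.Perm.one_apply] at p2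
      have := hs'.2
      simpa only [p1, p2, p3, not_false_eq_true, and_true] using this
  · refine le_trans (card_le_card (t := insert s _) fun s' hs' => ?_) (card_insert_le _ _)
    simp only [mem_filter, mem_sdiff, mem_insert] at hs' ⊢
    by_cases hne : s' = s
    · exact Or.inl hne
    · have p2 := hoth s' hs'.1 hne 0 (by omega) (by omega)
      rw [zpow_zero, Equiv.Perm.one_apply] at p2
      exact Or.inr ⟨hs'.1, ⟨hs'.2.1, p2⟩, fun h => hs'.2.2 h.1⟩

theorem thin (H : Hyp π μ c) {L : ℕ} (hL2 : 2 ≤ L) (hL : 2 * L + 10 ≤ c) (S : Finset V)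
    (Q : V → V) (hQ : ∀ t ∈ S, Q t ∈ S ∧ Q (Q t) = t)
    (hdis : ∀ s ∈ S, ∀ s' ∈ S, s ≠ s' → Disjoint (Sys π μ L s) (Sys π μ L s'))
    (hbad : ∀ (X B : Finset V) (A A' : V → Finset V), B ⊆ S →
      (∀ s ∈ B, s ∈ X ∧ Q s ∉ X ∧ (A s ⊆ Sys π μ L s ∧ #(A s) = L ∧ A s ⊆ X) ∧
        (A' s ⊆ Sys π μ L (Q s) ∧ #(A' s) = L ∧ A' s ⊆ Xᶜ)) → 30 * #B ≤ fc π X + mc μ X)
    (X : Finset V) : 5 * dQ S Q X ≤ fc π X + mc μ X + 5 * lam π S X := by
  classical
  have hlamc : ∀ X, lam π S Xᶜ = lam π S X := fun X => by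
    unfold lam
    simp only [mem_compl, not_iff_not]
  have hdQc : ∀ X, dQ S Q Xᶜ = dQ S Q X := fun X => by
    unfold dQ
    rw [← invol_card Q S X hQ]
    simp only [mem_compl, not_not]
  induction h : fc π X + mc μ X using Nat.strong_induction_on generalizing X with
  | _ n ih =>
  let iso : Finset V → V → Prop := fun X s => s ∈ X ∧ (π ^ (1 : ℤ)) s ∈ X ∧ (π ^ (-1 : ℤ)) s ∈ X ∧
    ¬ ((π ^ (2 : ℤ)) s ∈ X ∨ (π ^ (-2 : ℤ)) s ∈ X ∨ μ ((π ^ (-1 : ℤ)) s) ∈ X ∨
      μ ((π ^ (0 : ℤ)) s) ∈ X ∨ μ ((π ^ (1 : ℤ)) s) ∈ X)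
  by_cases c1 : ∃ s ∈ S, iso X s
  · obtain ⟨s, hs, p1, p2, p3, p4⟩ := c1
    obtain ⟨Y, y1, y2, y3⟩ := toggle H hL2 hL S Q hdis X s hs p1 p2 p3 p4
    have := ih _ (by omega) Y rfl
    omega
  by_cases c2 : ∃ s ∈ S, iso Xᶜ s
  · obtain ⟨s, hs, p1, p2, p3, p4⟩ := c2
    obtain ⟨Y, y1, y2, y3⟩ := toggle H hL2 hL S Q hdis Xᶜ s hs p1 p2 p3 p4
    rw [fc_compl, mc_compl H.inv] at y1
    rw [hlamc] at y2
    rw [hdQc] at y3
    have := ih _ (by omega) Y rfl
    omega
  let lt : V → Prop := fun s =>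
    ¬ (s ∈ X ↔ (π ^ (1 : ℤ)) s ∈ X) ∨ ¬ (s ∈ X ↔ (π ^ (-1 : ℤ)) s ∈ X)
  let big : V → Prop := fun s => 12 ≤ ∑ v ∈ Sys π μ L s, om π μ X v
  let B : Finset V := {s ∈ S | s ∈ X ∧ Q s ∉ X ∧ ¬ (lt s ∨ big s) ∧ ¬ (lt (Q s) ∨ big (Q s))}
  have hA : ∀ s, ∃ A, s ∈ B → A ⊆ Sys π μ L s ∧ #A = L ∧ A ⊆ X := by
    intro s
    by_cases hs : s ∈ B
    · simp only [B, mem_filter, lt, big] at hs
      obtain ⟨p0, p1, -, p2, -⟩ := hs
      push Not at p2
      obtain ⟨A, hA⟩ := H.loc hL2 hL X s p1 (p2.1.1.1 p1) (p2.1.2.1 p1)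
        (by
          by_contra hc
          exact c1 ⟨s, p0, p1, p2.1.1.1 p1, p2.1.2.1 p1, hc⟩) p2.2
      exact ⟨A, fun _ => hA⟩
    · exact ⟨∅, fun h => absurd h hs⟩
  have hA' : ∀ s, ∃ A, s ∈ B → A ⊆ Sys π μ L (Q s) ∧ #A = L ∧ A ⊆ Xᶜ := by
    intro s
    by_cases hs : s ∈ B
    · simp only [B, mem_filter, lt, big] at hs
      obtain ⟨p0, -, p1, -, p2⟩ := hs
      push Not at p2
      have q1 : Q s ∈ Xᶜ := mem_compl.2 p1
      have q2 : (π ^ (1 : ℤ)) (Q s) ∈ Xᶜ := mem_compl.2 fun h => p1 (p2.1.1.2 h)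
      have q3 : (π ^ (-1 : ℤ)) (Q s) ∈ Xᶜ := mem_compl.2 fun h => p1 (p2.1.2.2 h)
      obtain ⟨A, hA⟩ := H.loc hL2 hL Xᶜ (Q s) q1 q2 q3
        (by
          by_contra hc
          exact c2 ⟨Q s, (hQ s p0).1, q1, q2, q3, hc⟩) (by simp only [om_compl]; exact p2.2)
      exact ⟨A, fun _ => hA⟩
    · exact ⟨∅, fun h => absurd h hs⟩
  choose A hA using hA
  choose A' hA' using hA'
  have e1 := hbad X B A A' (filter_subset _ _) fun s hs =>
    ⟨(mem_filter.1 hs).2.1, (mem_filter.1 hs).2.2.1, hA s hs, hA' s hs⟩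
  have e2 : 12 * #{s ∈ S | big s} ≤ 2 * (fc π X + mc μ X) := by
    rw [← sum_om_univ π H.inv]
    have f1 : ∑ s ∈ S with big s, 12 ≤ ∑ s ∈ S with big s, ∑ v ∈ Sys π μ L s, om π μ X v :=
      Finset.sum_le_sum fun s hs => (mem_filter.1 hs).2
    rw [← Finset.sum_biUnion] at f1
    · rw [Finset.sum_const, smul_eq_mul, mul_comm] at f1
      exact f1.trans (Finset.sum_le_sum_of_subset (subset_univ _))
    · intro s hs s' hs' hne
      exact hdis s (mem_filter.1 hs).1 s' (mem_filter.1 hs').1 hne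
  have e3 : dQ S Q X ≤ #B + #{s ∈ S | lt s ∨ big s} := by
    let P : V → Prop := fun s => lt s ∨ big s
    have f1 : dQ S Q X ≤ #B + #{s ∈ S | s ∈ X ∧ Q s ∉ X ∧ (P s ∨ P (Q s))} := by
      refine le_trans (card_le_card fun s hs => ?_) (card_union_le _ _)
      rw [mem_filter] at hs
      by_cases hp : P s ∨ P (Q s)
      · exact mem_union_right _ (mem_filter.2 ⟨hs.1, hs.2.1, hs.2.2, hp⟩)
      · exact mem_union_left _ (mem_filter.2 ⟨hs.1, hs.2.1, hs.2.2, fun h => hp (Or.inl h),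
          fun h => hp (Or.inr h)⟩)
    have f2 : #{s ∈ S | s ∈ X ∧ Q s ∉ X ∧ (P s ∨ P (Q s))} ≤ #{s ∈ S | P s} := by
      refine card_le_card_of_injOn (fun s => if P s then s else Q s) (fun s hs => ?_)
        (fun s hs s' hs' e => ?_)
      · simp only [coe_filter, Set.mem_ofPred_eq] at hs ⊢
        split_ifs with hp
        · exact ⟨hs.1, hp⟩
        · exact ⟨(hQ s hs.1).1, hs.2.2.2.resolve_left hp⟩
      · simp only [coe_filter, Set.mem_ofPred_eq] at hs hs' e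
        split_ifs at e
        · exact e
        · exact absurd (e ▸ hs.2.1) hs'.2.2.1
        · exact absurd (e ▸ hs'.2.1) hs.2.2.1
        · rw [← (hQ s hs.1).2, e, (hQ s' hs'.1).2]
    exact f1.trans (Nat.add_le_add_left f2 _)
  have e4 : #{s ∈ S | lt s ∨ big s} ≤ lam π S X + #{s ∈ S | big s} := by
    rw [filter_or]; exact card_union_le _ _
  omega

end Pool.Agent.P.MP_e59a69_co
end

-- part Pool.Agent.P.MP_e59a69_co.Bad
section

/-! Counting lemmas for the systems of segments, and the bound on bad pairs. -/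

open Finset

namespace Pool.Agent.P.MP_e59a69_co

variable {V : Type} [Fintype V] [DecidableEq V]

/-- adjacency multiplicities of the cubic graph -/
def adj (π μ : Equiv.Perm V) (u v : V) : ℕ :=
  (if π u = v then 1 else 0) + (if π v = u then 1 else 0) + (if μ u = v then 1 else 0)

variable {π μ : Equiv.Perm V} {c : ℕ}

omit [Fintype V] in
lemma adj_comm (hμ : ∀ v, μ (μ v) = v) (u v : V) : adj π μ u v = adj π μ v u := by
  have : μ u = v ↔ μ v = u := ⟨fun h => by rw [← h, hμ], fun h => by rw [← h, hμ]⟩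
  unfold adj
  simp only [this]; ring

lemma EB_adj (π μ : Equiv.Perm V) (X : Finset V) :
    EB (adj π μ) X Xᶜ = fc π X + mc μ X := by
  unfold EB adj
  simp only [Finset.sum_add_distrib]
  rw [Finset.sum_comm (s := X) (t := Xᶜ) (f := fun u v => if π v = u then 1 else 0)]
  simp only [Finset.sum_ite_eq, ← card_filter, mem_compl]
  congr 1
  unfold fc
  rw [← card_union_of_disjoint]
  · congr 1
    ext v
    simp only [mem_filter, mem_univ, true_and, mem_union, mem_compl]; tauto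
  · exact Finset.disjoint_left.2 fun v h1 h2 => (mem_compl.1 (mem_filter.1 h2).1) (mem_filter.1 h1).1

omit [Fintype V] in
lemma mem_Sys {L : ℕ} {s x : V} : x ∈ Sys π μ L s ↔
    ∃ j t : ℤ, -2 ≤ j ∧ j ≤ 3 ∧ -L ≤ t ∧ t ≤ L ∧ (π ^ t) (Cen π μ j s) = x := by
  simp only [Sys, mem_biUnion, mem_Icc, mem_Iv]
  constructor
  · rintro ⟨j, ⟨h1, h2⟩, t, h3, h4, h5⟩; exact ⟨j, t, h1, h2, h3, h4, h5⟩
  · rintro ⟨j, t, h1, h2, h3, h4, h5⟩; exact ⟨j, ⟨h1, h2⟩, t, h3, h4, h5⟩

lemma card_J : #(Icc (-2 : ℤ) 3) = 6 := by simp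

omit [Fintype V] in
lemma card_Sys {L : ℕ} (hL : 6 ≤ L) (s : V) : #(Sys π μ L s) ≤ 13 * L := by
  refine (card_biUnion_le_card_mul _ _ (2 * L + 1) fun j _ =>
    (card_Iv_le _ _ _ _).trans (by omega)).trans ?_
  rw [card_J]; omega

lemma card_Sys_inv {L : ℕ} (hL : 6 ≤ L) (x : V) : #{s | x ∈ Sys π μ L s} ≤ 13 * L := by
  refine le_trans (card_le_card (t := (Icc (-2 : ℤ) 3 ×ˢ Icc (-L : ℤ) L).image
    fun p => (Cen π μ p.1).symm ((π ^ p.2) x)) fun s hs => ?_) (card_image_le.trans ?_)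
  · obtain ⟨j, t, h1, h2, h3, h4, h5⟩ := mem_Sys.1 (mem_filter.1 hs).2
    refine mem_image.2 ⟨(j, -t), by simp only [mem_product, mem_Icc]; omega, ?_⟩
    rw [← h5, zp_add]; simp
  · simp only [card_product, card_J]
    simp only [Int.card_Icc]; omega

lemma card_Nb {L : ℕ} (hL : 36 ≤ L) (s : V) :
    #{s' | ¬ Disjoint (Sys π μ L s) (Sys π μ L s')} ≤ 145 * L := by
  refine le_trans (card_le_card (t := ((Icc (-2 : ℤ) 3 ×ˢ Icc (-2 : ℤ) 3) ×ˢ
      Icc (-(2 * L) : ℤ) (2 * L)).image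
    fun p => (Cen π μ p.1.2).symm ((π ^ p.2) (Cen π μ p.1.1 s))) fun s' hs => ?_)
    (card_image_le.trans ?_)
  · obtain ⟨x, x1, x2⟩ := Finset.not_disjoint_iff.1 (mem_filter.1 hs).2
    obtain ⟨j, t, h1, h2, h3, h4, h5⟩ := mem_Sys.1 x1
    obtain ⟨k, t', k1, k2, k3, k4, k5⟩ := mem_Sys.1 x2
    refine mem_image.2 ⟨((j, k), t - t'), by simp only [mem_product, mem_Icc]; omega, ?_⟩
    rw [Equiv.symm_apply_eq]
    apply (π ^ t').injective
    rw [k5, ← h5, zp_add]; congr 2; ring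
  · simp only [card_product, card_J]
    simp only [Int.card_Icc]; omega

omit [Fintype V] in
lemma Sys_conn {L : ℕ} (hL : 2 ≤ L) (s : V) (K : Finset V)
    (h : ∀ x ∈ Sys π μ L s, (x ∈ K ↔ π x ∈ K) ∧ (x ∈ K ↔ μ x ∈ K)) :
    ∀ y ∈ Sys π μ L s, (y ∈ K ↔ s ∈ K) := by
  have key : ∀ j t : ℤ, -2 ≤ j → j ≤ 3 → -L ≤ t → t ≤ L →
      ((π ^ t) (Cen π μ j s) ∈ K ↔ Cen π μ j s ∈ K) := by
    intro j t h1 h2 h3 h4
    by_contra hc
    rcases le_total 0 t with ht | ht
    · obtain ⟨p, p1, p2, p3⟩ := ivt' π K (Cen π μ j s) ht (fun e => hc (by simpa using e.symm))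
      exact p3 (h _ (mem_Sys.2 ⟨j, p, h1, h2, by omega, by omega, rfl⟩)).1
    · obtain ⟨p, p1, p2, p3⟩ := ivt' π K (Cen π μ j s) ht (fun e => hc (by simpa using e))
      exact p3 (h _ (mem_Sys.2 ⟨j, p, h1, h2, by omega, by omega, rfl⟩)).1
  intro y hy
  obtain ⟨j, t, h1, h2, h3, h4, rfl⟩ := mem_Sys.1 hy
  rw [key j t h1 h2 h3 h4]
  by_cases h5 : j = 3
  · rw [h5, Cen_three]
  · have := key 3 j (by omega) le_rfl (by omega) (by omega)
    rw [Cen_three] at this
    rw [Cen_ne _ _ h5, ← this, ← (h _ (pow_mem_Sys s (by omega) (by omega))).2]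

/-- special vertices whose system is split by `K` -/
noncomputable def Bad (π μ : Equiv.Perm V) (L : ℕ) (K : Finset V) : Finset V :=
  {s | ¬ ∀ y ∈ Sys π μ L s, (y ∈ K ↔ s ∈ K)}

lemma card_Bad (hμ : ∀ v, μ (μ v) = v) {L : ℕ} (hL : 6 ≤ L) (K : Finset V) :
    #(Bad π μ L K) ≤ 26 * L * (fc π K + mc μ K) := by
  let D : Finset V := (univ.filter fun v => ¬ (v ∈ K ↔ π v ∈ K)) ∪
    univ.filter fun v => ¬ (v ∈ K ↔ μ v ∈ K)
  have h1 : #D ≤ fc π K + 2 * mc μ K := by
    rw [← card_mucut hμ]; exact card_union_le _ _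
  have h2 : Bad π μ L K ⊆ D.biUnion fun x => {s | x ∈ Sys π μ L s} := by
    intro s hs
    by_contra hc
    refine (mem_filter.1 hs).2 (Sys_conn (by omega) s K fun x hx => ?_)
    have : x ∉ D := fun h => hc (mem_biUnion.2 ⟨x, h, mem_filter.2 ⟨mem_univ _, hx⟩⟩)
    simpa only [D, mem_union, mem_filter, mem_univ, true_and, not_or, not_not] using this
  have h3 := (card_le_card h2).trans
    (card_biUnion_le_card_mul _ _ (13 * L) fun x _ => card_Sys_inv hL x)
  nlinarith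

theorem bad_bound (H : Hyp π μ c) {L : ℕ} (hL : 4 * L ≤ c) (S : Finset V)
    (Q : V → V) (hQ : ∀ t ∈ S, Q t ∈ S ∧ Q (Q t) = t)
    (hdis : ∀ s ∈ S, ∀ s' ∈ S, s ≠ s' → Disjoint (Sys π μ L s) (Sys π μ L s'))
    (R : Finset V) (hR : ∀ s ∈ S, Sys π μ L s ⊆ R) (Lm : Finset (Finset V)) (α : ℕ)
    (hα : 30 * α ≤ L) (hα0 : 0 < α)
    (happ : ∀ b : V → ℤ, (∀ v, v ∉ R → b v = 0) → (∀ v, |b v| ≤ 1) →
        (∀ K ∈ Lm, |∑ v ∈ K, b v| ≤ (fc π K + mc μ K : ℕ)) → ∀ Z,
          ∑ v ∈ Z, b v ≤ α * (fc π Z + mc μ Z : ℕ))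
    (hpair : ∀ K ∈ Lm, #{t ∈ S | t ∈ K ∧ Q t ∉ K} ≤ 1)
    (hsel : ∀ K ∈ Lm, c ≤ fc π K + mc μ K →
      4 * L * #{s ∈ S | s ∈ Bad π μ L K} ≤ fc π K + mc μ K)
    (X B : Finset V) (A A' : V → Finset V) (hB : B ⊆ S)
    (hA : ∀ s ∈ B, s ∈ X ∧ Q s ∉ X ∧ (A s ⊆ Sys π μ L s ∧ #(A s) = L ∧ A s ⊆ X) ∧
        (A' s ⊆ Sys π μ L (Q s) ∧ #(A' s) = L ∧ A' s ⊆ Xᶜ)) : 30 * #B ≤ fc π X + mc μ X := by
  classical
  let b : V → ℤ := fun v => ∑ s ∈ B, ((if v ∈ A s then 1 else 0) - (if v ∈ A' s then 1 else 0))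
  have hsum : ∀ K : Finset V, ∑ v ∈ K, b v = ∑ s ∈ B, ((#(K ∩ A s) : ℤ) - #(K ∩ A' s)) := by
    intro K
    simp only [b]
    rw [Finset.sum_comm]
    refine Finset.sum_congr rfl fun s _ => ?_
    rw [Finset.sum_sub_distrib, Finset.sum_ite_mem, Finset.sum_ite_mem]
    simp
  have hb1 : ∀ v, |b v| ≤ 1 := by
    intro v
    have e1 : #{s ∈ B | v ∈ A s} ≤ 1 := card_le_one.2 fun s hs s' hs' => by
      by_contra hne
      rw [mem_filter] at hs hs'
      exact Finset.disjoint_left.1 (hdis s (hB hs.1) s' (hB hs'.1) hne)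
        ((hA s hs.1).2.2.1.1 hs.2) ((hA s' hs'.1).2.2.1.1 hs'.2)
    have e2 : #{s ∈ B | v ∈ A' s} ≤ 1 := card_le_one.2 fun s hs s' hs' => by
      by_contra hne
      rw [mem_filter] at hs hs'
      have hne' : Q s ≠ Q s' := fun e => hne (by
        rw [← (hQ s (hB hs.1)).2, e, (hQ s' (hB hs'.1)).2])
      exact Finset.disjoint_left.1 (hdis _ (hQ s (hB hs.1)).1 _ (hQ s' (hB hs'.1)).1 hne')
        ((hA s hs.1).2.2.2.1 hs.2) ((hA s' hs'.1).2.2.2.1 hs'.2)
    have e3 : b v = (#{s ∈ B | v ∈ A s} : ℤ) - #{s ∈ B | v ∈ A' s} := by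
      simp only [b, Finset.sum_sub_distrib, card_filter]
      push_cast; rfl
    rw [e3, abs_le]; omega
  have htot : ∑ v, b v = 0 := by
    rw [hsum]
    refine Finset.sum_eq_zero fun s hs => ?_
    rw [univ_inter, univ_inter, (hA s hs).2.2.1.2.1, (hA s hs).2.2.2.2.1, sub_self]
  have habs : ∀ K : Finset V, |∑ v ∈ K, b v| ≤ #K := fun K =>
    (Finset.abs_sum_le_sum_abs _ _).trans
      ((Finset.sum_le_sum fun v _ => hb1 v).trans (by simp))
  have hX := happ b (fun v hv => Finset.sum_eq_zero fun s hs => by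
      have e1 : v ∉ A s := fun h => hv (hR s (hB hs) ((hA s hs).2.2.1.1 h))
      have e2 : v ∉ A' s := fun h => hv (hR _ (hQ s (hB hs)).1 ((hA s hs).2.2.2.1 h))
      simp [e1, e2]) hb1 (fun K hK => ?_) X
  · rw [hsum, Finset.sum_congr rfl (g := fun _ => (L : ℤ)) fun s hs => by
      rw [inter_eq_right.2 (hA s hs).2.2.1.2.2, (hA s hs).2.2.1.2.1,
        disjoint_iff_inter_eq_empty.1 (Finset.disjoint_left.2 fun v h1 h2 =>
          mem_compl.1 ((hA s hs).2.2.2.2.2 h2) h1)]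
      simp] at hX
    rw [Finset.sum_const, nsmul_eq_mul] at hX
    have e1 : #B * L ≤ α * (fc π X + mc μ X) := by exact_mod_cast hX
    have e2 : α * (30 * #B) ≤ α * (fc π X + mc μ X) := by nlinarith
    exact Nat.le_of_mul_le_mul_left e2 hα0
  · by_cases hbig : c ≤ fc π K + mc μ K
    · let P : V → Prop := fun s => s ∈ Bad π μ L K ∨ Q s ∈ Bad π μ L K ∨
        (s ∈ K ∧ Q s ∉ K) ∨ (s ∉ K ∧ Q s ∈ K)
      have e1 : |∑ v ∈ K, b v| ≤ ∑ s ∈ B, if P s then (L : ℤ) else 0 := by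
        rw [hsum]
        refine (Finset.abs_sum_le_sum_abs _ _).trans (Finset.sum_le_sum fun s hs => ?_)
        obtain ⟨-, -, ⟨a1, a2, -⟩, a3, a4, -⟩ := hA s hs
        split_ifs with hp
        · have f1 : #(K ∩ A s) ≤ #(A s) := card_le_card inter_subset_right
          have f2 : #(K ∩ A' s) ≤ #(A' s) := card_le_card inter_subset_right
          rw [abs_le]; omega
        · simp only [P, Bad, mem_filter, mem_univ, true_and, not_or, not_not] at hp
          obtain ⟨p1, p2, p3, p4⟩ := hp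
          by_cases hsK : s ∈ K
          · have hqK : Q s ∈ K := by by_contra h; exact p3 ⟨hsK, h⟩
            rw [inter_eq_right.2 fun v hv => (p1 v (a1 hv)).2 hsK,
              inter_eq_right.2 fun v hv => (p2 v (a3 hv)).2 hqK, a2, a4]
            simp
          · have hqK : Q s ∉ K := fun h => p4 ⟨hsK, h⟩
            rw [disjoint_iff_inter_eq_empty.1 (Finset.disjoint_left.2 fun v h1 h2 =>
                hsK ((p1 v (a1 h2)).1 h1)),
              disjoint_iff_inter_eq_empty.1 (Finset.disjoint_left.2 fun v h1 h2 =>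
                hqK ((p2 v (a3 h2)).1 h1))]
            simp
      rw [← Finset.sum_filter, Finset.sum_const, nsmul_eq_mul] at e1
      have e2 : #{s ∈ B | P s} ≤ #{s ∈ S | s ∈ Bad π μ L K} + (#{s ∈ S | Q s ∈ Bad π μ L K} +
          (#{s ∈ S | s ∈ K ∧ Q s ∉ K} + #{s ∈ S | s ∉ K ∧ Q s ∈ K})) := by
        refine (card_le_card (filter_subset_filter _ hB)).trans ?_
        simp only [P, filter_or]
        exact (card_union_le _ _).trans (Nat.add_le_add_left ((card_union_le _ _).trans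
          (Nat.add_le_add_left (card_union_le _ _) _)) _)
      have e3 : #{s ∈ S | Q s ∈ Bad π μ L K} ≤ #{s ∈ S | s ∈ Bad π μ L K} :=
        card_le_card_of_injOn Q (fun s hs => by
          simp only [coe_filter, Set.mem_ofPred_eq] at hs ⊢
          exact ⟨(hQ s hs.1).1, hs.2⟩) (fun s hs s' hs' e => by
          simp only [coe_filter, Set.mem_ofPred_eq] at hs hs'
          rw [← (hQ s hs.1).2, e, (hQ s' hs'.1).2])
      have e4 := invol_card Q S K hQ
      have e5 := hpair K hK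
      have e6 := hsel K hK hbig
      have e7 : #{s ∈ B | P s} * L ≤ fc π K + mc μ K := by
        have : #{s ∈ B | P s} ≤ 2 * #{s ∈ S | s ∈ Bad π μ L K} + 2 := by omega
        nlinarith
      exact e1.trans (by exact_mod_cast e7)
    · have e1 := habs K
      have e2 := habs Kᶜ
      have e3 : ∑ v ∈ Kᶜ, b v = - ∑ v ∈ K, b v := by
        rw [← Finset.sum_add_sum_compl K] at htot; linarith
      rw [e3, abs_neg] at e2
      rcases K.eq_empty_or_nonempty with h1 | h1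
      · rw [h1] at e1 ⊢; exact e1.trans (by rw [card_empty]; exact_mod_cast Nat.zero_le _)
      rcases Kᶜ.eq_empty_or_nonempty with h2 | h2
      · rw [h2] at e2; exact e2.trans (by rw [card_empty]; exact_mod_cast Nat.zero_le _)
      rcases H.cut K h1 h2 with h | h | h
      · exact absurd h hbig
      · exact e1.trans (by exact_mod_cast (by omega))
      · exact e2.trans (by exact_mod_cast (by omega))

end Pool.Agent.P.MP_e59a69_co
end

-- part Pool.Agent.P.MP_e59a69_co.Special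
section

/-! Choice of the special vertices and of a thin pairing. -/

open Finset

namespace Pool.Agent.P.MP_e59a69_co

variable {V : Type} [Fintype V] [DecidableEq V] {π μ : Equiv.Perm V} {c : ℕ}

omit [Fintype V] in
lemma sameCycle_of_mem_Iv {r x : V} {a b : ℤ} (h : x ∈ Iv π r a b) : π.SameCycle r x := by
  obtain ⟨t, -, -, e⟩ := mem_Iv.1 h
  exact ⟨t, e⟩

lemma two_pow_le_exp (h : ℕ) : ((2 ^ h : ℕ) : ℝ) ≤ Real.exp h := by
  have h1 : (2 : ℝ) ≤ Real.exp 1 := by have := Real.add_one_le_exp 1; linarith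
  rw [← Real.exp_one_pow]
  push_cast
  exact pow_le_pow_left₀ (by norm_num) h1 h

theorem exists_special (H : Hyp π μ c) (Rp : Finset V)
    (hRp : ∀ r ∈ Rp, ∀ r' ∈ Rp, π.SameCycle r r' → r = r') (heven : Even #Rp)
    (h : ℕ) (hh : 1 ≤ h) (L : ℕ) (hL : L = 750 * h ^ 2) (hc : 832 * L ^ 2 ≤ c)
    (hw : #Rp * (832 * L ^ 2 * (13 * L)) < 2 ^ h) :
    ∃ (s : V → V) (Q : V → V), (∀ r ∈ Rp, π.SameCycle r (s r)) ∧
      (∀ t ∈ Rp.image s, Q t ∈ Rp.image s ∧ Q t ≠ t ∧ Q (Q t) = t) ∧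
      ∀ X, 5 * dQ (Rp.image s) Q X ≤ fc π X + mc μ X + 5 * lam π (Rp.image s) X := by
  classical
  have hLh : 750 * h ≤ L := by rw [hL]; nlinarith
  have hL1 : 750 ≤ L := by omega
  obtain ⟨q, hq⟩ : ∃ q, q = 832 * L ^ 2 := ⟨_, rfl⟩
  rw [← hq] at hc hw
  have hqL : 832 * L ≤ q := by rw [hq]; nlinarith
  have : Inhabited V := by
    have := H.card
    exact Classical.inhabited_of_nonempty (Fintype.card_pos_iff.1 (by omega))
  let A : V → Finset V := fun r => Iv π r 0 (q - 1)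
  have hA : ∀ r, #(A r) = q := fun r => by rw [H.card_Iv _ (by omega)]; omega
  have hAd : (Rp : Set V).PairwiseDisjoint A := fun r hr r' hr' hne =>
    Finset.disjoint_left.2 fun v h1 h2 => hne (hRp r hr r' hr'
      ((sameCycle_of_mem_Iv h1).trans (sameCycle_of_mem_Iv h2).symm))
  have hAs : ∀ g : V → ℝ, (∀ v, 0 ≤ g v) → ∑ r ∈ Rp, ∑ v ∈ A r, g v ≤ ∑ v, g v := fun g hg => by
    rw [← Finset.sum_biUnion hAd]
    exact Finset.sum_le_sum_of_subset_of_nonneg (subset_univ _) fun v _ _ => hg v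
  let R : Finset V := Rp.biUnion fun r => (A r).biUnion (Sys π μ L)
  have hR : #R < 2 ^ h := lt_of_le_of_lt (card_biUnion_le_card_mul _ _ (q * (13 * L)) fun r _ =>
    (card_biUnion_le_card_mul _ _ (13 * L) fun x _ => card_Sys (by omega) x).trans
      (by rw [hA])) hw
  have hw' : #Rp ≤ 2 ^ h := by
    have : #Rp ≤ #Rp * (q * (13 * L)) := Nat.le_mul_of_pos_right _ (Nat.mul_pos (by omega) (by omega))
    omega
  obtain ⟨Lm, hlam, hcard, happ⟩ := approx_univ (adj π μ) (adj_comm H.inv) R h hR (fun Z hZ => by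
    rw [EB_adj]
    obtain ⟨x, hx⟩ := card_eq_one.1 hZ
    have hx1 : x ∈ Z ∩ R := by rw [hx]; exact mem_singleton_self x
    rcases Zᶜ.eq_empty_or_nonempty with h2 | h2
    · exfalso
      have hZu : ∀ v, v ∈ Z := fun v => by
        by_contra hv
        exact Finset.notMem_empty v (h2 ▸ mem_compl.2 hv)
      obtain ⟨r, hr, h3⟩ := mem_biUnion.1 (mem_inter.1 hx1).2
      obtain ⟨y, hy, -⟩ := mem_biUnion.1 h3
      have m : ∀ t : ℤ, 0 ≤ t → t ≤ 1 → (π ^ t) y = x := fun t t1 t2 => by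
        rw [← mem_singleton, ← hx]
        exact mem_inter.2 ⟨hZu _, mem_biUnion.2 ⟨r, hr, mem_biUnion.2 ⟨y, hy,
          pow_mem_Sys y (by omega) (by omega)⟩⟩⟩
      have := H.inj y (s := 0) (t := 1) (by simp; omega)
        ((m 0 le_rfl (by omega)).trans (m 1 (by omega) le_rfl).symm)
      omega
    · rcases H.cut Z ⟨x, (mem_inter.1 hx1).1⟩ h2 with h | h | h <;> omega)
  simp only [EB_adj] at happ
  let Nb : V → Finset V := fun s => {s' | ¬ Disjoint (Sys π μ L s) (Sys π μ L s')}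
  have hsym : ∀ u v, u ∈ Nb v → v ∈ Nb u := fun u v huv =>
    mem_filter.2 ⟨mem_univ _, fun h => (mem_filter.1 huv).2 h.symm⟩
  have hNb : ∀ v, #(Nb v) ≤ 145 * L := fun v => card_Nb (by omega) v
  let Lb : Finset (Finset V) := Lm.filter fun K => c ≤ fc π K + mc μ K
  let w : V ⊕ Finset V → V → ℝ := fun k v =>
    Sum.elim (fun r => (#(Nb v ∩ A r) : ℝ) / (145 * L))
      (fun K => if v ∈ Bad π μ L K then 1 else 0) k
  let B : V ⊕ Finset V → ℝ :=
    Sum.elim (fun _ => (q : ℝ) / (2 * (145 * L))) fun K => (fc π K + mc μ K : ℕ) / (4 * L)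
  have hLR : (750 : ℝ) ≤ L := by exact_mod_cast hL1
  have hLhR : 750 * (h : ℝ) ≤ L := by exact_mod_cast hLh
  have hhR : (1 : ℝ) ≤ h := by exact_mod_cast hh
  have hqR : (q : ℝ) = 832 * L ^ 2 := by exact_mod_cast hq
  have hcR : (q : ℝ) ≤ c := by exact_mod_cast hc
  have hw0 : ∀ k v, 0 ≤ w k v := by
    rintro (r | K) v
    · simp only [w, Sum.elim_inl]; positivity
    · simp only [w, Sum.elim_inr]; split_ifs <;> norm_num
  obtain ⟨s, hs1, hs2, hs3⟩ := select Rp A q (by omega) (fun r _ => hA r) Nb hsym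
    (Rp.disjSum Lb) w hw0
    (by
      rintro (r | K) v
      · simp only [w, Sum.elim_inl]
        rw [div_le_one (by positivity)]
        exact_mod_cast (card_le_card inter_subset_left).trans (hNb v)
      · simp only [w, Sum.elim_inr]; split_ifs <;> norm_num)
    B (145 * L) (by positivity)
    (fun r hr => ⟨Sum.inl r, by simpa using hr, fun v => by
      simp only [w, Sum.elim_inl]; exact le_of_eq (by field_simp), by
      simp only [B, Sum.elim_inl]; exact le_of_eq (by field_simp)⟩)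
    (by
      rw [Finset.sum_disjSum]
      have t1 : ∀ r ∈ Rp, Real.exp (4 / q * ∑ i ∈ Rp, ∑ v ∈ A i, w (Sum.inl r) v - B (Sum.inl r)) ≤
          Real.exp (-1 - h) := by
        intro r _
        rw [Real.exp_le_exp]
        have e1 := hAs _ (hw0 (Sum.inl r))
        have e2 : ∑ v, #(Nb v ∩ A r) ≤ q * (145 * L) := by
          have : ∀ v, #(Nb v ∩ A r) = ∑ u ∈ A r, if v ∈ Nb u then 1 else 0 := fun v => by
            rw [← card_filter]
            congr 1
            ext u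
            simp only [mem_inter, mem_filter (s := A r)]
            exact ⟨fun h => ⟨h.2, hsym _ _ h.1⟩, fun h => ⟨hsym _ _ h.2, h.1⟩⟩
          simp only [this]
          rw [Finset.sum_comm, ← hA r, ← smul_eq_mul]
          refine Finset.sum_le_card_nsmul _ _ _ fun u _ => ?_
          rw [Finset.sum_ite_mem, univ_inter, ← card_eq_sum_ones]
          exact hNb u
        have e3 : ∑ v, w (Sum.inl r) v ≤ q := by
          simp only [w, Sum.elim_inl]
          rw [← Finset.sum_div, div_le_iff₀ (by positivity)]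
          exact_mod_cast e2
        have e4 : 4 / (q : ℝ) * ∑ i ∈ Rp, ∑ v ∈ A i, w (Sum.inl r) v ≤ 4 := by
          rw [div_mul_eq_mul_div, div_le_iff₀ (by rw [hqR]; positivity)]
          linarith
        have e5 : 2 * (L : ℝ) ≤ B (Sum.inl r) := by
          simp only [B, Sum.elim_inl]
          rw [le_div_iff₀ (by positivity), hqR]
          nlinarith
        linarith
      have t2 : ∀ K ∈ Lb, Real.exp (4 / q * ∑ i ∈ Rp, ∑ v ∈ A i, w (Sum.inr K) v - B (Sum.inr K)) ≤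
          Real.exp (-1 - h - h) := by
        intro K hK
        rw [Real.exp_le_exp]
        have e1 := hAs _ (hw0 (Sum.inr K))
        obtain ⟨d, hd⟩ : ∃ d, d = fc π K + mc μ K := ⟨_, rfl⟩
        have e0 : (c : ℝ) ≤ d := by rw [hd]; exact_mod_cast (mem_filter.1 hK).2
        have e3 : ∑ v, w (Sum.inr K) v ≤ 26 * L * d := by
          simp only [w, Sum.elim_inr]
          rw [Finset.sum_ite_mem, univ_inter, Finset.sum_const, nsmul_eq_mul, mul_one, hd]
          exact_mod_cast card_Bad H.inv (by omega) K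
        have e4 : 4 / (q : ℝ) * ∑ i ∈ Rp, ∑ v ∈ A i, w (Sum.inr K) v ≤ d / (8 * L) := by
          rw [div_mul_eq_mul_div, div_le_iff₀ (by rw [hqR]; positivity), hqR]
          have : (d : ℝ) / (8 * L) * (832 * L ^ 2) = 4 * (26 * L * d) := by field_simp; ring
          linarith
        have e5 : B (Sum.inr K) = 2 * (d / (8 * L)) := by
          simp only [B, Sum.elim_inr]
          rw [← hd]; field_simp; ring
        have e6 : 104 * (L : ℝ) ≤ d / (8 * L) := by
          rw [le_div_iff₀ (by positivity)]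
          nlinarith
        linarith
      have u1 := Finset.sum_le_card_nsmul _ _ _ t1
      have u2 := Finset.sum_le_card_nsmul _ _ _ t2
      rw [nsmul_eq_mul] at u1 u2
      have v0 := two_pow_le_exp h
      have v1 : (#Rp : ℝ) ≤ Real.exp h := le_trans (by exact_mod_cast hw') v0
      have v2 : (#Lb : ℝ) ≤ Real.exp h * Real.exp h := by
        have a1 : #Lb ≤ 2 ^ h * 2 ^ h := (card_filter_le _ _).trans
          (hcard.trans (Nat.mul_le_mul_right _ Nat.lt_two_pow_self.le))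
        have a2 : (#Lb : ℝ) ≤ ((2 ^ h : ℕ) : ℝ) * ((2 ^ h : ℕ) : ℝ) := by exact_mod_cast a1
        exact a2.trans (mul_le_mul v0 v0 (by positivity) (by positivity))
      have x1 : (#Rp : ℝ) * Real.exp (-1 - h) ≤ Real.exp (-1) := by
        refine (mul_le_mul_of_nonneg_right v1 (Real.exp_pos _).le).trans (le_of_eq ?_)
        rw [← Real.exp_add]; congr 1; ring
      have x2 : (#Lb : ℝ) * Real.exp (-1 - h - h) ≤ Real.exp (-1) := by
        refine (mul_le_mul_of_nonneg_right v2 (Real.exp_pos _).le).trans (le_of_eq ?_)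
        rw [← Real.exp_add, ← Real.exp_add]; congr 1; ring
      have := Real.exp_neg_one_lt_d9
      linarith)
  have hinj : Set.InjOn s Rp := fun r hr r' hr' e => by
    by_contra hne
    exact Finset.disjoint_left.1 (hAd hr hr' hne) (hs1 r hr) (e ▸ hs1 r' hr')
  obtain ⟨n, hn⟩ := heven
  obtain ⟨Q, hQ, hpair⟩ := exists_pairing Lm hlam n (Rp.image s)
    (by rw [card_image_of_injOn hinj]; omega)
  have hQ' : ∀ t ∈ Rp.image s, Q t ∈ Rp.image s ∧ Q (Q t) = t := fun t ht =>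
    ⟨(hQ t ht).1, (hQ t ht).2.2⟩
  have hdis : ∀ x ∈ Rp.image s, ∀ y ∈ Rp.image s, x ≠ y →
      Disjoint (Sys π μ L x) (Sys π μ L y) := by
    intro x hx y hy hne
    obtain ⟨r, hr, rfl⟩ := mem_image.1 hx
    obtain ⟨r', hr', rfl⟩ := mem_image.1 hy
    by_contra hc
    exact hs2 r hr r' hr' (fun e => hne (by rw [e])) (mem_filter.2 ⟨mem_univ _, hc⟩)
  refine ⟨s, Q, fun r hr => sameCycle_of_mem_Iv (hs1 r hr), hQ,
    thin H (by omega) (by omega) _ Q hQ' hdis ?_⟩
  refine bad_bound H (by omega) _ Q hQ' hdis R (fun x hx => ?_) Lm (1 + h * (16 * h + 8))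
    (by rw [hL]; nlinarith) (by omega) happ hpair (fun K hK hbig => ?_)
  · obtain ⟨r, hr, rfl⟩ := mem_image.1 hx
    exact fun v hv => mem_biUnion.2 ⟨r, hr, mem_biUnion.2 ⟨s r, hs1 r hr, hv⟩⟩
  · have e0 : K ∈ Lb := mem_filter.2 ⟨hK, hbig⟩
    have e1 := hs3 (Sum.inr K) (by simpa using e0)
    simp only [w, B, Sum.elim_inr] at e1
    rw [← Finset.sum_filter, Finset.sum_const, nsmul_eq_mul, mul_one,
      le_div_iff₀ (by positivity)] at e1
    have e2 : #{r ∈ Rp | s r ∈ Bad π μ L K} * (4 * L) ≤ fc π K + mc μ K := by exact_mod_cast e1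
    have e3 : #{x ∈ Rp.image s | x ∈ Bad π μ L K} ≤ #{r ∈ Rp | s r ∈ Bad π μ L K} := by
      rw [filter_image]; exact card_image_le
    nlinarith

end Pool.Agent.P.MP_e59a69_co
end

-- part Pool.Agent.P.MP_e59a69_co.Sigma
section

/-! The orientation of the perfect matching. -/

open Finset Function

namespace Pool.Agent.P.MP_e59a69_co

variable {V : Type} [Fintype V] [DecidableEq V] {π μ : Equiv.Perm V} {c : ℕ}

omit [Fintype V] [DecidableEq V] in
lemma even_card_of_invol (T : Finset V) (g : V → V)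
    (hg : ∀ t ∈ T, g t ∈ T ∧ g t ≠ t ∧ g (g t) = t) : Even #T := by
  have h : ∑ _t ∈ T, (1 : ZMod 2) = 0 :=
    Finset.sum_involution (fun t _ => g t) (fun _ _ => by decide)
      (fun t ht _ => (hg t ht).2.1) (fun t ht => (hg t ht).1) (fun t ht => (hg t ht).2.2)
  rw [Finset.sum_const, nsmul_eq_mul, mul_one] at h
  exact (ZMod.natCast_eq_zero_iff_even).1 h

omit [DecidableEq V] in
lemma exists_iter {b v : V} (h : π.SameCycle b v) :
    ∃ t < minimalPeriod π b, π^[t] b = v := by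
  obtain ⟨i, hi⟩ := h.exists_nat_pow_eq
  refine ⟨i % minimalPeriod π b, Nat.mod_lt _ (minimalPeriod_pos_of_mem_periodicPts
    (π.injective.mem_periodicPts b)), ?_⟩
  rw [iterate_mod_minimalPeriod_eq, ← hi, Equiv.Perm.coe_pow]

omit [DecidableEq V] in
lemma period_eq {b v : V} (h : π.SameCycle b v) : minimalPeriod π v = minimalPeriod π b := by
  obtain ⟨t, -, rfl⟩ := exists_iter h
  exact minimalPeriod_apply_iterate (π.injective.mem_periodicPts b) t

omit [DecidableEq V] in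
lemma exists_heavy (S : Finset V) (h1 : ∀ s ∈ S, Odd (minimalPeriod π s))
    (h2 : ∀ s ∈ S, ∀ s' ∈ S, π.SameCycle s s' → s = s')
    (h3 : ∀ v, Odd (minimalPeriod π v) → ∃ s ∈ S, π.SameCycle s v) :
    ∃ hv : V → Prop, (∀ v, v ∉ S → (hv v ↔ ¬ hv (π.symm v))) ∧
      ∀ s ∈ S, ¬ hv s ∧ ¬ hv (π.symm s) := by
  classical
  have hb : ∀ cl : Quotient (Equiv.Perm.SameCycle.setoid π), ∃ b, Quotient.mk _ b = cl ∧
      ∀ s ∈ S, Quotient.mk _ s = cl → b = s := by
    intro cl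
    by_cases h : ∃ s ∈ S, Quotient.mk _ s = cl
    · obtain ⟨s, hs, e⟩ := h
      exact ⟨s, e, fun s' hs' e' => h2 s hs s' hs' (Quotient.exact (e.trans e'.symm))⟩
    · exact ⟨cl.out, Quotient.out_eq _, fun s hs e => absurd ⟨s, hs, e⟩ h⟩
  choose bq hq1 hq2 using hb
  let β : V → V := fun v => bq (Quotient.mk _ v)
  have hβ : ∀ v, π.SameCycle (β v) v := fun v => Quotient.exact (hq1 (Quotient.mk _ v))
  have hβS : ∀ v, ∀ s ∈ S, π.SameCycle s v → β v = s := fun v s hs h =>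
    hq2 _ s hs (Quotient.sound h)
  have hβp : ∀ v, β (π.symm v) = β v := fun v => by
    have : π.SameCycle (π.symm v) v := ⟨1, by simp⟩
    simp only [β]
    rw [Quotient.sound (s := Equiv.Perm.SameCycle.setoid π) this]
  let hv : V → Prop := fun v => ∃ t, Odd t ∧ t < minimalPeriod π (β v) ∧ π^[t] (β v) = v
  have hvt : ∀ v t, t < minimalPeriod π (β v) → π^[t] (β v) = v → (hv v ↔ Odd t) := by
    intro v t ht e
    constructor
    · rintro ⟨t', o, ht', e'⟩
      rwa [(iterate_eq_iterate_iff_of_lt_minimalPeriod ht ht').1 (e.trans e'.symm)]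
    · exact fun o => ⟨t, o, ht, e⟩
  have hzero : ∀ v, β v = v → ¬ hv v ∧ (hv (π.symm v) ↔ Even (minimalPeriod π v)) := by
    intro v e
    have hp : 0 < minimalPeriod π v :=
      minimalPeriod_pos_of_mem_periodicPts (π.injective.mem_periodicPts v)
    constructor
    · rw [hvt v 0 (by rwa [e]) e]; decide
    · obtain ⟨k, hk⟩ : ∃ k, minimalPeriod π v = k + 1 := ⟨_, (Nat.succ_pred_eq_of_pos hp).symm⟩
      rw [hvt _ k (by rw [hβp, e]; omega) (by
        rw [hβp, e, Equiv.eq_symm_apply, ← iterate_succ_apply' π k v]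
        have := iterate_minimalPeriod (f := π) (x := v)
        rwa [hk] at this), hk, Nat.even_add_one, Nat.not_even_iff_odd]
  refine ⟨hv, fun v hS => ?_, fun s hs => ?_⟩
  · obtain ⟨t, ht, e⟩ := exists_iter (hβ v)
    rcases t with _ | t
    · obtain ⟨a1, a2⟩ := hzero v e
      refine iff_of_false a1 (not_not.2 (a2.2 ?_))
      rw [← Nat.not_odd_iff_even]
      intro o
      obtain ⟨s, hs, h⟩ := h3 v o
      have e1 : β v = v := e
      exact hS (by rw [← e1, hβS v s hs h]; exact hs)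
    · rw [hvt v _ ht e, hvt _ t (by rw [hβp]; omega) (by
        rw [hβp, Equiv.eq_symm_apply, ← iterate_succ_apply' π t]; exact e), Nat.odd_add_one]
  · obtain ⟨a1, a2⟩ := hzero s (hβS s s hs (Equiv.Perm.SameCycle.refl _ _))
    exact ⟨a1, fun h => (Nat.not_even_iff_odd.2 (h1 s hs)) (a2.1 h)⟩

omit [Fintype V] [DecidableEq V] in
lemma heavy_invol (S : Finset V) (hne : ∀ v, π v ≠ v) (hv : V → Prop) [DecidablePred hv]
    (h1 : ∀ v, v ∉ S → (hv v ↔ ¬ hv (π.symm v))) (h2 : ∀ s ∈ S, ¬ hv s ∧ ¬ hv (π.symm s))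
    (n : V → V) (hn : ∀ v, n v = if hv v then π v else π.symm v) :
    ∀ v, v ∉ S → n v ∉ S ∧ n v ≠ v ∧ n (n v) = v := by
  intro v hS
  by_cases h : hv v
  · have e : n v = π v := by rw [hn, if_pos h]
    have a : π v ∉ S := fun h3 => (h2 _ h3).2 (by simpa using h)
    have b : ¬ hv (π v) := fun h3 => (h1 _ a).1 h3 (by simpa using h)
    rw [e, hn, if_neg b]
    exact ⟨a, hne v, by simp⟩
  · have e : n v = π.symm v := by rw [hn, if_neg h]
    have b : hv (π.symm v) := by_contra fun h3 => h ((h1 v hS).2 h3)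
    rw [e, hn, if_pos b]
    exact ⟨fun h3 => (h2 _ h3).1 b, fun h3 => hne v (by rw [Equiv.symm_apply_eq] at h3; exact h3.symm),
      by simp⟩

theorem exists_sigma (H : Hyp π μ c) (Rp : Finset V)
    (hRp : ∀ r ∈ Rp, ∀ r' ∈ Rp, π.SameCycle r r' → r = r')
    (hodd : ∀ r ∈ Rp, Odd (minimalPeriod π r))
    (hall : ∀ v, Odd (minimalPeriod π v) → ∃ r ∈ Rp, π.SameCycle r v)
    (h : ℕ) (hh : 1 ≤ h) (L : ℕ) (hL : L = 750 * h ^ 2) (hc : 832 * L ^ 2 ≤ c)
    (hw : #Rp * (832 * L ^ 2 * (13 * L)) < 2 ^ h) :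
    ∃ σ : V → ℤ, (∀ v, σ v = 1 ∨ σ v = -1) ∧ (∀ v, σ (μ v) = - σ v) ∧
      ∀ X : Finset V, 5 * ∑ v ∈ X, σ v ≤ (mc μ X + 6 * fc π X : ℕ) := by
  classical
  have hc3 : 3 ≤ c := by
    have : 1 ≤ L := by rw [hL]; nlinarith
    nlinarith
  have hne : ∀ v, π v ≠ v := fun v => by
    simpa using H.len v 1 one_ne_zero (by simp; omega)
  have heven : Even #Rp := by
    obtain ⟨hv, h1, h2⟩ := exists_heavy Rp hodd hRp hall
    have e1 := even_card_of_invol Rpᶜ (fun v => if hv v then π v else π.symm v) fun t ht => by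
      have := heavy_invol Rp hne hv h1 h2 _ (fun _ => rfl) t (mem_compl.1 ht)
      rwa [mem_compl]
    have e2 := even_card_of_invol univ μ fun t _ => ⟨mem_univ _, H.ne t, H.inv t⟩
    have e3 := card_add_card_compl Rp
    rw [card_univ, ← e3, Nat.even_add] at e2
    exact e2.2 e1
  obtain ⟨s, Q, hs, hQ, hthin⟩ := exists_special H Rp hRp heven h hh L hL hc hw
  set S := Rp.image s with hS
  have hSd : ∀ x ∈ S, ∀ y ∈ S, π.SameCycle x y → x = y := by
    intro x hx y hy e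
    obtain ⟨r, hr, rfl⟩ := mem_image.1 hx
    obtain ⟨r', hr', rfl⟩ := mem_image.1 hy
    rw [hRp r hr r' hr' (((hs r hr).trans e).trans (hs r' hr').symm)]
  obtain ⟨hv, h1, h2⟩ := exists_heavy (π := π) S
    (fun x hx => by
      obtain ⟨r, hr, rfl⟩ := mem_image.1 hx
      rw [period_eq (hs r hr)]; exact hodd r hr) hSd
    (fun v o => by
      obtain ⟨r, hr, e⟩ := hall v o
      exact ⟨s r, mem_image_of_mem s hr, (hs r hr).symm.trans e⟩)
  let n : V → V := fun v => if hv v then π v else π.symm v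
  have hn := heavy_invol S hne hv h1 h2 n (fun v => rfl)
  let ν : V → V := fun v => if v ∈ S then Q v else n v
  obtain ⟨σ, s1, s2, s3⟩ := two_colouring μ ν H.inv
    (fun v => by
      by_cases h : v ∈ S
      · simp only [ν, h, if_true, (hQ v h).1, (hQ v h).2.2]
      · simp only [ν, h, if_false, (hn v h).1, (hn v h).2.2]) H.ne
    (fun v => by
      by_cases h : v ∈ S
      · simp only [ν, h, if_true]; exact (hQ v h).2.1
      · simp only [ν, h, if_false]; exact (hn v h).2.1)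
  have hνν : ∀ v, ν (ν v) = v := fun v => by
    by_cases h : v ∈ S
    · simp only [ν, h, if_true, (hQ v h).1, (hQ v h).2.2]
    · simp only [ν, h, if_false, (hn v h).1, (hn v h).2.2]
  refine ⟨σ, s1, s2, fun X => ?_⟩
  have e1 : ∑ v ∈ X, σ v ≤ #{v ∈ X | ν v ∉ X} := by
    rw [← Finset.sum_filter_add_sum_filter_not X (fun v => ν v ∈ X)]
    have z : ∑ v ∈ X with ν v ∈ X, σ v = 0 :=
      Finset.sum_involution (fun v _ => ν v) (fun v _ => by rw [s3]; ring)
        (fun v _ _ e => by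
          have := s3 v
          rw [e] at this
          rcases s1 v with h | h <;> omega)
        (fun v hv => mem_filter.2 ⟨(mem_filter.1 hv).2, by rw [hνν]; exact (mem_filter.1 hv).1⟩)
        (fun v _ => hνν v)
    rw [z, zero_add, card_eq_sum_ones]
    push_cast
    exact Finset.sum_le_sum fun v _ => by rcases s1 v with h | h <;> omega
  let cut : V → Prop := fun v => ¬ (v ∈ X ↔ π v ∈ X)
  have e2 : #{v ∈ X | ν v ∉ X} ≤ dQ S Q X + #{v ∈ X | v ∉ S ∧ n v ∉ X} := by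
    refine le_trans (card_le_card fun v hv => ?_) (card_union_le _ _)
    rw [mem_filter] at hv
    by_cases h : v ∈ S
    · exact mem_union_left _ (mem_filter.2 ⟨h, hv.1, by simpa only [ν, h, if_true] using hv.2⟩)
    · exact mem_union_right _ (mem_filter.2 ⟨hv.1, h, by simpa only [ν, h, if_false] using hv.2⟩)
  have e3 : #{v ∈ X | v ∉ S ∧ n v ∉ X} ≤ #{v | cut v ∧ hv v} := by
    refine card_le_card_of_injOn (fun v => if hv v then v else π.symm v) (fun v h => ?_)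
      (fun v h v' h' e => ?_)
    · simp only [coe_filter, Set.mem_ofPred_eq, mem_univ, true_and, n, cut] at h ⊢
      split_ifs at h ⊢ with a
      · exact ⟨fun e => h.2.2 (e.1 h.1), a⟩
      · rw [Equiv.apply_symm_apply]
        exact ⟨fun e => h.2.2 (e.2 h.1), by_contra fun b => a ((h1 v h.2.1).2 b)⟩
    · simp only [coe_filter, Set.mem_ofPred_eq, n] at h h' e
      split_ifs at e h h'
      · exact e
      · exact absurd (e ▸ h.1) h'.2.2
      · exact absurd (e ▸ h'.1) h.2.2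
      · exact π.symm.injective e
  have e4 : lam π S X ≤ #{v | cut v ∧ ¬ hv v} := by
    refine card_le_card_of_injOn (fun v => if cut v then v else π.symm v) (fun v h => ?_)
      (fun v h v' h' e => ?_)
    · simp only [coe_filter, Set.mem_ofPred_eq, mem_univ, true_and, zpow_one, zpow_neg] at h ⊢
      split_ifs with a
      · exact ⟨a, (h2 v h.1).1⟩
      · refine ⟨?_, (h2 v h.1).2⟩
        simp only [cut, Equiv.apply_symm_apply]
        exact fun e => (h.2.resolve_left a) e.symm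
    · simp only [coe_filter, Set.mem_ofPred_eq] at h h' e
      have q1 : ∀ x, π.SameCycle (π.symm x) x := fun x => ⟨1, by simp⟩
      split_ifs at e
      · exact e
      · exact hSd v h.1 v' h'.1 (e ▸ q1 v')
      · exact hSd v h.1 v' h'.1 (e ▸ (q1 v).symm)
      · exact π.symm.injective e
  have e5 : #{v | cut v ∧ hv v} + #{v | cut v ∧ ¬ hv v} = fc π X := by
    unfold fc
    rw [← card_filter_add_card_filter_not (s := univ.filter fun v => ¬ (v ∈ X ↔ π v ∈ X)) hv,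
      filter_filter, filter_filter]
  have e6 := hthin X
  have e7 : 5 * #{v ∈ X | ν v ∉ X} ≤ mc μ X + 6 * fc π X := by omega
  have e8 : (5 : ℤ) * #{v ∈ X | ν v ∉ X} ≤ (mc μ X + 6 * fc π X : ℕ) := by exact_mod_cast e7
  linarith

end Pool.Agent.P.MP_e59a69_co
end

-- part Pool.Agent.P.MP_e59a69_co.Perms
section

/-! From a cubic multigraph with a 2-factor to a pair of permutations. -/

open Finset Function

namespace Pool.Agent.P.MP_e59a69_co

variable {V E : Type} [Fintype V] [Fintype E] [DecidableEq V] [DecidableEq E]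

lemma exists_succ (src tgt : E → V) (F : Finset E) (hF : ∀ v, dg src tgt F v = 2) :
    ∃ (π : Equiv.Perm V) (out : V → E), (∀ v, out v ∈ F) ∧ Injective out ∧
      (∀ e ∈ F, ∃ v, out v = e) ∧
      ∀ v, (src (out v) = v ∧ tgt (out v) = π v) ∨ (tgt (out v) = v ∧ src (out v) = π v) := by
  obtain ⟨φ, a1, a0, ab⟩ := exists_orientation src tgt F
  let tl : E → V := fun e => if φ e = 1 then src e else tgt e
  let hd : E → V := fun e => if φ e = 1 then tgt e else src e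
  have hcount : ∀ v, #{e ∈ F | tl e = v} = 1 ∧ #{e ∈ F | hd e = v} = 1 := by
    intro v
    have c0 : ∀ g : E → V, (#{e ∈ F | g e = v} : ℤ) =
        ∑ e, if e ∈ F ∧ g e = v then 1 else 0 := fun g => by
      rw [Finset.sum_boole]
      congr 2
      ext e; simp
    have c1 : (#{e ∈ F | tl e = v} : ℤ) + #{e ∈ F | hd e = v} = dg src tgt F v := by
      rw [c0, c0, dg_eq, ← Finset.sum_add_distrib]
      refine Finset.sum_congr rfl fun e _ => ?_
      by_cases b1 : e ∈ F <;> by_cases b2 : φ e = 1 <;> by_cases b3 : src e = v <;>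
        by_cases b4 : tgt e = v <;> simp [tl, hd, b1, b2, b3, b4]
    have c2 : (#{e ∈ F | tl e = v} : ℤ) - #{e ∈ F | hd e = v} = bdry src tgt φ v := by
      rw [c0, c0, bdry, ← Finset.sum_sub_distrib]
      refine Finset.sum_congr rfl fun e _ => ?_
      by_cases b1 : e ∈ F
      · rcases a1 e b1 with b2 | b2 <;> by_cases b3 : src e = v <;>
          by_cases b4 : tgt e = v <;> simp [tl, hd, b1, b2, b3, b4]
      · simp [b1, a0 e b1]
    rw [(ab v).2 (by rw [hF v]; decide)] at c2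
    rw [hF v] at c1
    omega
  have hu : ∀ g : E → V, (∀ v, #{e ∈ F | g e = v} = 1) →
      ∃ o : V → E, (∀ v, o v ∈ F ∧ g (o v) = v) ∧ ∀ e ∈ F, o (g e) = e := by
    intro g hg
    choose o ho using fun v => card_eq_one.1 (hg v)
    refine ⟨o, fun v => (mem_filter (p := fun e => g e = v)).1
      (by rw [ho]; exact mem_singleton_self _), fun e he => ?_⟩
    symm
    rw [← mem_singleton, ← ho]
    exact mem_filter.2 ⟨he, rfl⟩
  obtain ⟨out, o1, o2⟩ := hu tl fun v => (hcount v).1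
  obtain ⟨inn, i1, i2⟩ := hu hd fun v => (hcount v).2
  refine ⟨⟨fun v => hd (out v), fun v => tl (inn v), fun v => ?_, fun v => ?_⟩, out,
    fun v => (o1 v).1, fun u v h => ?_, fun e he => ⟨_, o2 e he⟩, fun v => ?_⟩
  · simp only [i2 _ (o1 v).1, (o1 v).2]
  · simp only [o2 _ (i1 v).1, (i1 v).2]
  · rw [← (o1 u).2, h, (o1 v).2]
  · have := (o1 v).2
    simp only [tl, hd, Equiv.coe_fn_mk] at this ⊢
    split_ifs at this ⊢
    · exact Or.inl ⟨this, rfl⟩
    · exact Or.inr ⟨this, rfl⟩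

omit [Fintype V] [Fintype E] [DecidableEq E] in
lemma exists_mate (src tgt : E → V) (M : Finset E) (hM : ∀ v, dg src tgt M v = 1) :
    ∃ (μ : Equiv.Perm V) (mt : V → E), (∀ v, μ (μ v) = v) ∧ (∀ v, μ v ≠ v) ∧ (∀ v, mt v ∈ M) ∧
      (∀ e ∈ M, mt (src e) = e ∧ mt (tgt e) = e ∧ μ (src e) = tgt e) ∧
      ∀ v, (src (mt v) = v ∧ tgt (mt v) = μ v) ∨ (tgt (mt v) = v ∧ src (mt v) = μ v) := by
  have hex : ∀ v, ∃ e ∈ M, src e = v ∨ tgt e = v := fun v => by
    have := hM v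
    unfold dg at this
    by_cases h : #{e ∈ M | src e = v} = 0
    · obtain ⟨e, he⟩ := card_pos.1 (by omega : 0 < #{e ∈ M | tgt e = v})
      exact ⟨e, (mem_filter.1 he).1, Or.inr (mem_filter.1 he).2⟩
    · obtain ⟨e, he⟩ := card_pos.1 (by omega : 0 < #{e ∈ M | src e = v})
      exact ⟨e, (mem_filter.1 he).1, Or.inl (mem_filter.1 he).2⟩
  have hboth : ∀ v, ∀ e ∈ M, ∀ e' ∈ M, src e = v → tgt e' = v → False := fun v e he e' he' h h' => by
    have := hM v
    unfold dg at this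
    have a : 0 < #{e ∈ M | src e = v} := card_pos.2 ⟨e, mem_filter.2 ⟨he, h⟩⟩
    have b : 0 < #{e ∈ M | tgt e = v} := card_pos.2 ⟨e', mem_filter.2 ⟨he', h'⟩⟩
    omega
  have huniq : ∀ v, ∀ e ∈ M, ∀ e' ∈ M, (src e = v ∨ tgt e = v) → (src e' = v ∨ tgt e' = v) →
      e = e' := by
    intro v e he e' he' h h'
    have := hM v
    unfold dg at this
    rcases h with h | h <;> rcases h' with h' | h'
    · exact card_le_one.1 (by omega : #{e ∈ M | src e = v} ≤ 1) e (mem_filter.2 ⟨he, h⟩) e'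
        (mem_filter.2 ⟨he', h'⟩)
    · exact (hboth v e he e' he' h h').elim
    · exact (hboth v e' he' e he h' h).elim
    · exact card_le_one.1 (by omega : #{e ∈ M | tgt e = v} ≤ 1) e (mem_filter.2 ⟨he, h⟩) e'
        (mem_filter.2 ⟨he', h'⟩)
  choose mt hm1 hm2 using hex
  let m : V → V := fun v => if src (mt v) = v then tgt (mt v) else src (mt v)
  have h1 : ∀ e ∈ M, mt (src e) = e := fun e he => huniq _ _ (hm1 _) e he (hm2 _) (Or.inl rfl)
  have h2 : ∀ e ∈ M, mt (tgt e) = e := fun e he => huniq _ _ (hm1 _) e he (hm2 _) (Or.inr rfl)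
  have h3 : ∀ e ∈ M, m (src e) = tgt e := fun e he => by simp only [m, h1 e he, if_true]
  have h4 : ∀ e ∈ M, m (tgt e) = src e := fun e he => by
    have : src e ≠ tgt e := fun h => hboth _ e he e he h rfl
    simp only [m, h2 e he, this, if_false]
  have h5 : ∀ v, (src (mt v) = v ∧ tgt (mt v) = m v) ∨ (tgt (mt v) = v ∧ src (mt v) = m v) := by
    intro v
    rcases hm2 v with h | h
    · exact Or.inl ⟨h, by rw [← h3 _ (hm1 v), h]⟩
    · exact Or.inr ⟨h, by rw [← h4 _ (hm1 v), h]⟩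
  have h6 : Involutive m := fun v => by
    rcases h5 v with ⟨a, b⟩ | ⟨a, b⟩
    · rw [← b, h4 _ (hm1 v), a]
    · rw [← b, h3 _ (hm1 v), a]
  refine ⟨h6.toPerm, mt, h6, fun v e => ?_, hm1, fun e he => ⟨h1 e he, h2 e he, h3 e he⟩, h5⟩
  have e' : m v = v := e
  rcases h5 v with ⟨a, b⟩ | ⟨a, b⟩
  · exact hboth v _ (hm1 v) _ (hm1 v) a (b.trans e')
  · exact hboth v _ (hm1 v) _ (hm1 v) (b.trans e') a

omit [Fintype V] in
lemma sparse (src tgt : E → V) (hcubic : ∀ v, degIn src tgt univ v = 3) (X : Finset V)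
    (hX : X.Nonempty) (hc : ¬ HasCycleIn src tgt X) :
    #X + 2 ≤ #{e | ¬ (src e ∈ X ↔ tgt e ∈ X)} := by
  obtain ⟨x0, hx0⟩ := hX
  let I : Finset E := {e | src e ∈ X ∧ tgt e ∈ X}
  have hsum : ∀ C : Finset E, ∑ v ∈ X, dg src tgt C v =
      #{e ∈ C | src e ∈ X} + #{e ∈ C | tgt e ∈ X} := by
    intro C
    unfold dg
    rw [Finset.sum_add_distrib, card_eq_sum_card_fiberwise (f := src) (s := {e ∈ C | src e ∈ X})
      (t := X) (fun e he => (mem_filter.1 he).2), card_eq_sum_card_fiberwise (f := tgt)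
      (s := {e ∈ C | tgt e ∈ X}) (t := X) (fun e he => (mem_filter.1 he).2)]
    congr 1 <;> refine Finset.sum_congr rfl fun v hv => ?_ <;> congr 1 <;> ext e <;>
      simp only [mem_filter, and_assoc] <;>
      exact ⟨fun h => ⟨h.1, h.2 ▸ hv, h.2⟩, fun h => ⟨h.1, h.2.2⟩⟩
  have e1 : 3 * #X = 2 * #I + #{e | ¬ (src e ∈ X ↔ tgt e ∈ X)} := by
    have a := hsum univ
    have hc' : ∀ v, dg src tgt univ v = 3 := hcubic
    simp only [hc', Finset.sum_const, smul_eq_mul] at a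
    rw [mul_comm, a]
    simp only [I, card_filter]
    rw [Finset.mul_sum, ← Finset.sum_add_distrib, ← Finset.sum_add_distrib]
    refine Finset.sum_congr rfl fun e _ => ?_
    by_cases a1 : src e ∈ X <;> by_cases a2 : tgt e ∈ X <;> simp [a1, a2]
  by_contra hlt
  have hpos : 0 < #X := card_pos.2 ⟨x0, hx0⟩
  obtain ⟨C1, h1, C2, h2, hne, heq⟩ := exists_ne_map_eq_of_card_lt_of_maps_to
    (s := I.powerset) (t := (X.erase x0).powerset)
    (f := fun C => {v ∈ X.erase x0 | Odd (dg src tgt C v)})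
    (by
      rw [card_powerset, card_powerset, card_erase_of_mem hx0]
      exact Nat.pow_lt_pow_right (by norm_num) (by omega))
    (fun C _ => mem_powerset.2 (filter_subset _ _))
  rw [mem_powerset] at h1 h2
  let C := symmDiff C1 C2
  have hCI : C ⊆ I := fun e he => by
    rcases mem_symmDiff.1 he with h | h
    · exact h1 h.1
    · exact h2 h.1
  have hCX : ∀ e ∈ C, src e ∈ X ∧ tgt e ∈ X := fun e he => (mem_filter.1 (hCI he)).2
  have hpar : ∀ v, dg src tgt C v + 2 * dg src tgt (C1 ∩ C2) v =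
      dg src tgt C1 v + dg src tgt C2 v := fun v => by
    have : (dg src tgt C v : ℤ) + 2 * dg src tgt (C1 ∩ C2) v =
        dg src tgt C1 v + dg src tgt C2 v := by
      simp only [dg_eq]
      rw [Finset.mul_sum, ← Finset.sum_add_distrib, ← Finset.sum_add_distrib]
      refine Finset.sum_congr rfl fun e _ => ?_
      by_cases a1 : src e = v <;> by_cases a2 : tgt e = v <;> by_cases a3 : e ∈ C1 <;>
        by_cases a4 : e ∈ C2 <;> simp [C, mem_symmDiff, a1, a2, a3, a4]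
    exact_mod_cast this
  have hev : ∀ v ∈ X.erase x0, Even (dg src tgt C v) := fun v hv => by
    have a : v ∈ ({v ∈ X.erase x0 | Odd (dg src tgt C1 v)} : Finset V) ↔
        v ∈ ({v ∈ X.erase x0 | Odd (dg src tgt C2 v)} : Finset V) := by rw [heq]
    simp only [mem_filter, hv, true_and, Nat.odd_iff] at a
    have := hpar v
    rw [Nat.even_iff]; omega
  have hev0 : Even (dg src tgt C x0) := by
    have a := hsum C
    rw [filter_true_of_mem fun e he => (hCX e he).1, filter_true_of_mem fun e he => (hCX e he).2,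
      ← Finset.add_sum_erase X _ hx0] at a
    have b := Finset.even_sum _ hev
    rw [Nat.even_iff] at b ⊢
    omega
  refine hc ⟨C, ?_, hCX, fun v => ?_⟩
  · rw [Finset.nonempty_iff_ne_empty]
    exact fun h => hne (symmDiff_eq_bot.1 h)
  · have a : Even (dg src tgt C v) := by
      by_cases hv : v ∈ X
      · by_cases h0 : v = x0
        · rwa [h0]
        · exact hev v (mem_erase.2 ⟨h0, hv⟩)
      · unfold dg
        rw [filter_eq_empty_iff.2 fun e he (h : src e = v) => hv (h ▸ (hCX e he).1),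
          filter_eq_empty_iff.2 fun e he (h : tgt e = v) => hv (h ▸ (hCX e he).2)]
        simp
    have b := dg_compl src tgt C v
    have c : dg src tgt univ v = 3 := hcubic v
    have d : degIn src tgt C v = dg src tgt C v := rfl
    rw [Nat.even_iff] at a
    omega

end Pool.Agent.P.MP_e59a69_co
end

-- part Pool.Agent.P.MP_e59a69_co.SRHy
section

/-! Local analysis under a girth hypothesis only. -/

open Finset

namespace Pool.Agent.P.MP_e59a69_co

variable {V : Type} [Fintype V] [DecidableEq V]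

/-- girth hypothesis for the pair (successor on the 2-factor, mate) -/
structure Hy (π μ : Equiv.Perm V) (c : ℕ) : Prop where
  inv : ∀ v, μ (μ v) = v
  ne : ∀ v, μ v ≠ v
  len : ∀ v (t : ℤ), t ≠ 0 → |t| < c → (π ^ t) v ≠ v
  small : ∀ {X : Finset V}, X.Nonempty → #X + 2 ≤ c → #X + 2 ≤ fc π X + mc μ X

/-- base point of one of the twelve half segments -/
def hbase (π μ : Equiv.Perm V) (L : ℕ) (i : Fin 6 × Bool) : Equiv.Perm V :=
  π ^ (if i.2 then (0 : ℤ) else -(L + 1)) * Cen π μ ((i.1 : ℕ) - 2)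

/-- one of the twelve half segments at `s` lies in `X` -/
def Half (π μ : Equiv.Perm V) (L : ℕ) (X : Finset V) (s : V) : Prop :=
  ∃ i : Fin 6 × Bool, ∀ t : ℕ, t < L → (π ^ (t + 1)) (hbase π μ L i s) ∈ X

variable {π μ : Equiv.Perm V} {c : ℕ}

lemma Hy.mono (H : Hy π μ c) {c' : ℕ} (h : c' ≤ c) : Hy π μ c' :=
  ⟨H.inv, H.ne, fun v t h1 h2 => H.len v t h1 (by omega), fun h1 h2 => H.small h1 (by omega)⟩

lemma Hy.inj (H : Hy π μ c) (x : V) {s t : ℤ} (h : |s - t| < c) (e : (π ^ s) x = (π ^ t) x) :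
    s = t := by
  by_contra hne
  apply H.len ((π ^ t) x) (s - t) (sub_ne_zero.2 hne) h
  rw [zp_add, sub_add_cancel, e]

lemma Hy.card_Iv (H : Hy π μ c) (x : V) {a b : ℤ} (h : b - a < c) :
    #(Iv π x a b) = (b + 1 - a).toNat := by
  unfold Iv
  rw [card_image_of_injOn]
  · simp
  · intro s hs t ht e
    simp only [coe_Icc, Set.mem_Icc] at hs ht
    exact H.inj x (abs_lt.2 ⟨by omega, by omega⟩) e

lemma Hy.g1 (H : Hy π μ c) (v : V) {t : ℤ} (h : |t| + 3 ≤ c) : μ v ≠ (π ^ t) v := by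
  intro e
  have h0 := abs_nonneg t
  have h1 := le_abs_self t
  have h2 := neg_abs_le t
  let Z := Iv π v (min 0 t) (max 0 t)
  have hv : v ∈ Z := mem_Iv.2 ⟨0, by omega, by omega, by simp⟩
  have hm : μ v ∈ Z := mem_Iv.2 ⟨t, by omega, by omega, e.symm⟩
  have c1 : #Z ≤ _ := card_Iv_le π v (min 0 t) (max 0 t)
  have c2 := H.small ⟨v, hv⟩ (by omega)
  have c3 : fc π Z ≤ 2 := fc_Iv _ _ _ _
  have c4 := mc_le μ (Z := Z) (T := {v, μ v}) (by simp [insert_subset_iff, hv, hm])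
    (by simp [hv, hm, H.inv])
  rw [card_pair (H.ne v).symm] at c4
  omega

lemma Hy.g2 (H : Hy π μ c) (v : V) {k t : ℤ} (hk : k ≠ 0) (h : |k| + |t| + 4 ≤ c) :
    μ ((π ^ k) v) ≠ (π ^ t) (μ v) := by
  intro e
  have h0 := abs_nonneg t
  have h1 := le_abs_self t
  have h2 := neg_abs_le t
  have k0 := abs_nonneg k
  have k1 := le_abs_self k
  have k2 := neg_abs_le k
  let Z := Iv π v (min 0 k) (max 0 k) ∪ Iv π (μ v) (min 0 t) (max 0 t)
  have m1 : v ∈ Z := mem_union_left _ (mem_Iv.2 ⟨0, by omega, by omega, by simp⟩)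
  have m2 : (π ^ k) v ∈ Z := mem_union_left _ (mem_Iv.2 ⟨k, by omega, by omega, rfl⟩)
  have m3 : μ v ∈ Z := mem_union_right _ (mem_Iv.2 ⟨0, by omega, by omega, by simp⟩)
  have m4 : μ ((π ^ k) v) ∈ Z := mem_union_right _ (mem_Iv.2 ⟨t, by omega, by omega, e.symm⟩)
  have c0 : #Z ≤ _ := card_union_le _ _
  have c1 := card_Iv_le π v (min 0 k) (max 0 k)
  have c1' := card_Iv_le π (μ v) (min 0 t) (max 0 t)
  have c2 := H.small ⟨v, m1⟩ (by omega)
  have c3 : fc π Z ≤ _ := fc_union _ _ _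
  have c5 := fc_Iv π v (min 0 k) (max 0 k)
  have c6 := fc_Iv π (μ v) (min 0 t) (max 0 t)
  have c4 := mc_le μ (Z := Z) (T := {v, (π ^ k) v, μ v, μ ((π ^ k) v)})
    (by simp [insert_subset_iff, m1, m2, m3, m4]) (by simp [m1, m2, m3, m4, H.inv])
  have d1 : v ≠ (π ^ k) v := (H.len v k hk (by omega)).symm
  have d2 : v ≠ μ v := (H.ne v).symm
  have d3 : v ≠ μ ((π ^ k) v) := by
    intro e2
    apply H.g1 ((π ^ k) v) (t := -k) (by rw [abs_neg]; omega)
    rw [← e2, zp_add]; simp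
  have d4 : (π ^ k) v ≠ μ v := (H.g1 v (by omega)).symm
  have d5 : (π ^ k) v ≠ μ ((π ^ k) v) := (H.ne _).symm
  have d6 : μ v ≠ μ ((π ^ k) v) := fun e2 => d1 (μ.injective e2)
  rw [card_insert_of_notMem (by simp [d1, d2, d3]), card_insert_of_notMem (by simp [d4, d5]),
    card_pair d6] at c4
  omega

lemma Hy.disj (H : Hy π μ c) {L : ℕ} (hL : 2 * L + 10 ≤ c) (s : V) :
    ((Icc (-2 : ℤ) 3 : Finset ℤ) : Set ℤ).PairwiseDisjoint
      fun j => Iv π (Cen π μ j s) (-L) L := by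
  have key : ∀ j k : ℤ, -2 ≤ j → j ≤ 3 → -2 ≤ k → k < 3 → j ≠ k → ∀ t t' : ℤ, -L ≤ t → t ≤ L →
      -L ≤ t' → t' ≤ L → (π ^ t) (Cen π μ j s) ≠ (π ^ t') (Cen π μ k s) := by
    intro j k j1 j2 k1 k2 hjk t t' t1 t2 t3 t4 e
    rw [Cen_ne _ _ k2.ne] at e
    have e2 : μ ((π ^ k) s) = (π ^ (t - t')) (Cen π μ j s) := by
      apply (π ^ t').injective
      rw [← e, zp_add]; congr 2; ring
    by_cases h3 : j = 3
    · subst h3
      rw [Cen_three] at e2
      apply H.g1 ((π ^ k) s) (t := t - t' - k) (by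
        have : |t - t' - k| ≤ 2 * L + 2 := abs_le.2 ⟨by omega, by omega⟩
        omega)
      rw [e2, zp_add]; congr 2; ring
    · rw [Cen_ne _ _ h3] at e2
      apply H.g2 ((π ^ j) s) (k := k - j) (t := t - t') (by omega) (by
        have : |t - t'| ≤ 2 * L := abs_le.2 ⟨by omega, by omega⟩
        have : |k - j| ≤ 4 := abs_le.2 ⟨by omega, by omega⟩
        omega)
      rw [← e2, zp_add]; congr 3; ring
  intro j hj k hk hjk
  simp only [coe_Icc, Set.mem_Icc] at hj hk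
  rw [Function.onFun, Finset.disjoint_left]
  intro v h1 h2
  obtain ⟨t, t1, t2, e1⟩ := mem_Iv.1 h1
  obtain ⟨t', t3, t4, e2⟩ := mem_Iv.1 h2
  by_cases h3 : k = 3
  · exact key k j hk.1 hk.2 hj.1 (by omega) hjk.symm t' t t3 t4 t1 t2 (e2.trans e1.symm)
  · exact key j k hj.1 hj.2 hk.1 (by omega) hjk t t' t1 t2 t3 t4 (e1.trans e2.symm)

theorem Hy.loc (H : Hy π μ c) {L : ℕ} (hL2 : 2 ≤ L) (hL : 2 * L + 10 ≤ c) (X : Finset V) (s : V)
    (h0 : s ∈ X) (h1 : (π ^ (1 : ℤ)) s ∈ X) (h1' : (π ^ (-1 : ℤ)) s ∈ X)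
    (hiso : (π ^ (2 : ℤ)) s ∈ X ∨ (π ^ (-2 : ℤ)) s ∈ X ∨ μ ((π ^ (-1 : ℤ)) s) ∈ X ∨
      μ ((π ^ (0 : ℤ)) s) ∈ X ∨ μ ((π ^ (1 : ℤ)) s) ∈ X)
    (hom : ∑ v ∈ Sys π μ L s, om π μ X v < 12) :
    Half π μ L X s := by
  by_contra hc
  unfold Half at hc
  push Not at hc
  have hpi : ∀ j : ℤ, -2 ≤ j → j ≤ 3 → Cen π μ j s ∈ X →
      2 ≤ #{v ∈ Iv π (Cen π μ j s) (-L) L | ¬ (v ∈ X ↔ π v ∈ X)} := by
    intro j j1 j2 hx
    have hj : (((j + 2).toNat : ℕ) : ℤ) - 2 = j := by omega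
    obtain ⟨t, t1, t2, y2⟩ : ∃ t : ℤ, 1 ≤ t ∧ t ≤ L ∧ (π ^ t) (Cen π μ j s) ∉ X := by
      obtain ⟨t, t1, t2⟩ := hc (⟨(j + 2).toNat, by omega⟩, true)
      refine ⟨t + 1, by omega, by omega, ?_⟩
      simp only [hbase, hj, if_true, zpow_zero, one_mul] at t2
      rwa [← zpow_natCast] at t2
    obtain ⟨t', t3, t4, z2⟩ : ∃ t : ℤ, -L ≤ t ∧ t ≤ -1 ∧ (π ^ t) (Cen π μ j s) ∉ X := by
      obtain ⟨t, t1, t2⟩ := hc (⟨(j + 2).toNat, by omega⟩, false)
      refine ⟨t + 1 + -(L + 1), by omega, by omega, ?_⟩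
      simp only [hbase, hj, Bool.false_eq_true, if_false, Equiv.Perm.mul_apply] at t2
      rwa [← zpow_natCast, zp_add] at t2
    obtain ⟨p, p1, p2, p3⟩ := ivt' π X (Cen π μ j s) (a := 0) (b := t) (by omega)
      (by simp [hx, y2])
    obtain ⟨r, r1, r2, r3⟩ := ivt' π X (Cen π μ j s) (a := t') (b := 0) (by omega)
      (by simp [hx, z2])
    refine Finset.one_lt_card.2 ⟨(π ^ p) (Cen π μ j s), ?_, (π ^ r) (Cen π μ j s), ?_, ?_⟩
    · exact mem_filter.2 ⟨mem_Iv.2 ⟨p, by omega, by omega, rfl⟩, p3⟩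
    · exact mem_filter.2 ⟨mem_Iv.2 ⟨r, by omega, by omega, rfl⟩, r3⟩
    · intro e
      have := H.inj _ (abs_lt.2 ⟨by omega, by omega⟩) e
      omega
  let tt : ℤ → ℕ := fun j => if (π ^ j) s ∈ X ∧ μ ((π ^ j) s) ∉ X then 1 else 0
  let rr : ℤ → ℕ := fun j => if μ ((π ^ j) s) ∈ X then 4 else 0
  have hP : ∀ j : ℤ, -2 ≤ j → j < 3 →
      rr j + tt j ≤ ∑ v ∈ Iv π (Cen π μ j s) (-L) L, om π μ X v := by
    intro j j1 j2
    rw [sum_om]
    simp only [rr, tt]
    by_cases a : μ ((π ^ j) s) ∈ X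
    · have := hpi j j1 j2.le (by rwa [Cen_ne _ _ j2.ne])
      simp only [a, if_true, not_true, and_false, if_false]
      omega
    · simp only [a, if_false, not_false_eq_true, and_true]
      split_ifs with b
      · have : 1 ≤ #{v ∈ Iv π (Cen π μ j s) (-L) L | ¬ (v ∈ X ↔ μ v ∈ X)} := by
          refine card_pos.2 ⟨μ ((π ^ j) s), mem_filter.2 ⟨mem_Iv.2 ⟨0, by omega, by omega, ?_⟩, ?_⟩⟩
          · rw [Cen_ne _ _ j2.ne]; simp
          · rw [H.inv]; simp [a, b]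
        omega
      · omega
  have hP3 : 4 + ∑ j ∈ Icc (-2 : ℤ) 2, tt j ≤
      ∑ v ∈ Iv π (Cen π μ 3 s) (-L) L, om π μ X v := by
    rw [sum_om]
    have a1 := hpi 3 (by omega) le_rfl (by rwa [Cen_three])
    have a2 : ∑ j ∈ Icc (-2 : ℤ) 2, tt j ≤
        #{v ∈ Iv π (Cen π μ 3 s) (-L) L | ¬ (v ∈ X ↔ μ v ∈ X)} := by
      simp only [tt]
      rw [← card_filter]
      refine card_le_card_of_injOn (fun j => (π ^ j) s) (fun j hj => ?_) (fun j hj k hk e => ?_)
      · simp only [coe_filter, mem_Icc, Set.mem_ofPred_eq] at hj ⊢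
        refine ⟨mem_Iv.2 ⟨j, by omega, by omega, by rw [Cen_three]⟩, ?_⟩
        simp [hj.2.1, hj.2.2]
      · simp only [coe_filter, mem_Icc, Set.mem_ofPred_eq] at hj hk
        exact H.inj s (abs_lt.2 ⟨by omega, by omega⟩) e
    omega
  unfold Sys at hom
  rw [Finset.sum_biUnion (H.disj hL s)] at hom
  have i1 : Icc (-2 : ℤ) 3 = {-2, -1, 0, 1, 2, 3} := by decide
  have i2 : Icc (-2 : ℤ) 2 = {-2, -1, 0, 1, 2} := by decide
  rw [i1] at hom
  rw [i2] at hP3
  rw [sum_insert (by decide), sum_insert (by decide), sum_insert (by decide),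
    sum_insert (by decide), sum_insert (by decide), sum_singleton] at hom
  rw [sum_insert (by decide), sum_insert (by decide), sum_insert (by decide),
    sum_insert (by decide), sum_singleton] at hP3
  have b1 := hP (-2) (by omega) (by omega)
  have b2 := hP (-1) (by omega) (by omega)
  have b3 := hP 0 (by omega) (by omega)
  have b4 := hP 1 (by omega) (by omega)
  have b5 := hP 2 (by omega) (by omega)
  have q1 : ∀ j : ℤ, (π ^ j) s ∈ X → 2 ≤ rr j + 2 * tt j := by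
    intro j hj
    simp only [rr, tt, hj, true_and]
    split_ifs <;> simp_all
  have q2 : ∀ j : ℤ, μ ((π ^ j) s) ∈ X → 4 ≤ rr j := by
    intro j hj
    simp only [rr, hj, if_true, le_refl]
  have c1 := q1 _ h1
  have c2 := q1 _ h1'
  have c3 := q1 0 (by simpa using h0)
  rcases hiso with h | h | h | h | h
  · have := q1 _ h; omega
  · have := q1 _ h; omega
  · have := q2 _ h; omega
  · have := q2 _ h; omega
  · have := q2 _ h; omega


end Pool.Agent.P.MP_e59a69_co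
end

-- part Pool.Agent.P.MP_e59a69_co.SRBase
section

/-! Letters, words, Laplacian and segment averages. -/

open Finset

namespace Pool.Agent.P.MP_e59a69_co

variable {V : Type}

/-- the three neighbour maps -/
def Lt (π μ : Equiv.Perm V) : Fin 3 → Equiv.Perm V := ![π, π⁻¹, μ]

/-- index of the inverse letter -/
def iv : Fin 3 → Fin 3 := ![1, 0, 2]

/-- `w` is a product of at most `n` letters -/
def Wd (π μ : Equiv.Perm V) (n : ℕ) (w : Equiv.Perm V) : Prop :=
  ∃ l : List (Fin 3), l.length ≤ n ∧ w = (l.map (Lt π μ)).prod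

/-- the Laplacian -/
def Lap (π μ : Equiv.Perm V) (y : V → ℝ) (v : V) : ℝ := ∑ l, (y v - y (Lt π μ l v))

/-- average over the `n` vertices after `x` on its circuit -/
noncomputable def seg (π : Equiv.Perm V) (n : ℕ) (x : V) : (V → ℝ) →ₗ[ℝ] ℝ :=
  (n : ℝ)⁻¹ • ∑ t ∈ range n, LinearMap.proj ((π ^ (t + 1)) x)

/-- `G` is a gradient map: it represents the Dirichlet form -/
def IsGrad [Fintype V] {κ : Type} [Fintype κ] (π μ : Equiv.Perm V)
    (G : (V → ℝ) →ₗ[ℝ] κ → ℝ) : Prop :=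
  ∀ y y' : V → ℝ, ∑ k, G y k * G y' k = ∑ v, y v * Lap π μ y' v

/-- unit flows across the three edges at each vertex with total energy at most `2 + η` -/
def Short {κ : Type} [Fintype κ] (π μ : Equiv.Perm V) (G : (V → ℝ) →ₗ[ℝ] κ → ℝ) (η : ℝ) : Prop :=
  ∀ u, ∃ f : Fin 3 → κ → ℝ, (∀ l y, ∑ k, f l k * G y k = y u - y (Lt π μ l u)) ∧
    ∑ l, ∑ k, f l k ^ 2 ≤ 2 + η

variable {π μ : Equiv.Perm V}

lemma seg_apply (π : Equiv.Perm V) (n : ℕ) (x : V) (y : V → ℝ) :
    seg π n x y = (n : ℝ)⁻¹ * ∑ t ∈ range n, y ((π ^ (t + 1)) x) := by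
  simp [seg]

lemma Lt_zero : Lt π μ 0 = π := rfl
lemma Lt_one : Lt π μ 1 = π⁻¹ := rfl
lemma Lt_two : Lt π μ 2 = μ := rfl

lemma iv_iv (l : Fin 3) : iv (iv l) = l := by fin_cases l <;> rfl

lemma Lt_iv (hμ : ∀ v, μ (μ v) = v) (l : Fin 3) (v : V) : Lt π μ (iv l) (Lt π μ l v) = v := by
  fin_cases l <;> simp [Lt, iv, hμ]

lemma Lt_iv' (hμ : ∀ v, μ (μ v) = v) (l : Fin 3) (v : V) : Lt π μ l (Lt π μ (iv l) v) = v := by
  simpa only [iv_iv] using Lt_iv (π := π) hμ (iv l) v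

lemma Wd.mono {n m : ℕ} {w : Equiv.Perm V} (h : Wd π μ n w) (hn : n ≤ m) : Wd π μ m w := by
  obtain ⟨l, h1, h2⟩ := h
  exact ⟨l, h1.trans hn, h2⟩

lemma Wd.mul {n m : ℕ} {w w' : Equiv.Perm V} (h : Wd π μ n w) (h' : Wd π μ m w') :
    Wd π μ (n + m) (w * w') := by
  obtain ⟨l, h1, rfl⟩ := h
  obtain ⟨l', h1', rfl⟩ := h'
  exact ⟨l ++ l', by simp; omega, by simp⟩

lemma wd_one : Wd π μ 0 1 := ⟨[], le_rfl, rfl⟩

lemma wd_letter (l : Fin 3) : Wd π μ 1 (Lt π μ l) := ⟨[l], le_rfl, by simp⟩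

lemma wd_mu : Wd π μ 1 μ := wd_letter 2

lemma wd_zpow (t : ℤ) : Wd π μ t.natAbs (π ^ t) := by
  rcases Int.natAbs_eq t with h | h
  · exact ⟨List.replicate t.natAbs 0, by simp, by
      rw [List.map_replicate, List.prod_replicate, Lt_zero, ← zpow_natCast, ← h]⟩
  · exact ⟨List.replicate t.natAbs 1, by simp, by
      rw [List.map_replicate, List.prod_replicate, Lt_one, inv_pow, ← zpow_natCast, ← zpow_neg,
        ← h]⟩

/-- induction along a word -/
lemma Wd.induct {P : ℕ → Equiv.Perm V → Prop} (h0 : P 0 1)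
    (h1 : ∀ n w l, P n w → P (n + 1) (Lt π μ l * w)) (h2 : ∀ n w, P n w → P (n + 1) w)
    {n : ℕ} {w : Equiv.Perm V} (h : Wd π μ n w) : P n w := by
  obtain ⟨l, hl, rfl⟩ := h
  have a : P l.length (l.map (Lt π μ)).prod := by
    clear hl
    induction l with
    | nil => exact h0
    | cons x l ih => exact h1 _ _ x ih
  induction n, hl using Nat.le_induction with
  | base => exact a
  | succ n _ ih => exact h2 _ _ ih

end Pool.Agent.P.MP_e59a69_co
end

-- part Pool.Agent.P.MP_e59a69_co.SRDir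
section

/-! The Dirichlet form of indicators and Bessel bounds for words. -/

open Finset

namespace Pool.Agent.P.MP_e59a69_co

variable {V κ : Type} [Fintype V] [DecidableEq V] [Fintype κ] {π μ : Equiv.Perm V}
  {G : (V → ℝ) →ₗ[ℝ] κ → ℝ}

omit [DecidableEq V] in
lemma dir_eq (hμ : ∀ v, μ (μ v) = v) (hG : IsGrad π μ G) (y : V → ℝ) :
    ∑ k, G y k ^ 2 = ∑ v, (y v - y (π v)) ^ 2 + (∑ v, (y v - y (μ v)) ^ 2) / 2 := by
  have _ := hμ
  have h0 : ∑ k, G y k ^ 2 = ∑ v, y v * Lap π μ y v := by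
    rw [← hG y y]; exact sum_congr rfl fun k _ => sq _
  have h1 : ∑ v, y (π v) ^ 2 = ∑ v, y v ^ 2 := Equiv.sum_comp π fun v => y v ^ 2
  have h2 : ∑ v, y (μ v) ^ 2 = ∑ v, y v ^ 2 := Equiv.sum_comp μ fun v => y v ^ 2
  have h3 : ∑ v, y v * y (π⁻¹ v) = ∑ v, y v * y (π v) := by
    rw [← Equiv.sum_comp π fun v => y v * y (π⁻¹ v)]
    refine sum_congr rfl fun v _ => ?_
    simp [mul_comm]
  have h4 : ∑ v, y v * Lap π μ y v = 3 * ∑ v, y v ^ 2 - ∑ v, y v * y (π v) -
      ∑ v, y v * y (π⁻¹ v) - ∑ v, y v * y (μ v) := by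
    rw [mul_sum, ← sum_sub_distrib, ← sum_sub_distrib, ← sum_sub_distrib]
    refine sum_congr rfl fun v _ => ?_
    simp only [Lap, Fin.sum_univ_three, Lt_zero, Lt_one, Lt_two]
    ring
  have h5 : ∀ σ : Equiv.Perm V, ∑ v, (y v - y (σ v)) ^ 2 =
      ∑ v, y v ^ 2 + ∑ v, y (σ v) ^ 2 - 2 * ∑ v, y v * y (σ v) := by
    intro σ
    rw [mul_sum, ← sum_add_distrib, ← sum_sub_distrib]
    exact sum_congr rfl fun v _ => by ring
  rw [h0, h4, h5 π, h5 μ, h1, h2, h3]
  ring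

lemma srxdir_ind (σ : Equiv.Perm V) (X : Finset V) :
    ∑ v, ((if v ∈ X then (1 : ℝ) else 0) - (if σ v ∈ X then 1 else 0)) ^ 2 =
      ((#{v | ¬ (v ∈ X ↔ σ v ∈ X)} : ℕ) : ℝ) := by
  rw [card_filter, Nat.cast_sum]
  refine sum_congr rfl fun v _ => ?_
  by_cases h1 : v ∈ X <;> by_cases h2 : σ v ∈ X <;> simp [h1, h2]

lemma dir_ind (hμ : ∀ v, μ (μ v) = v) (hG : IsGrad π μ G) (X : Finset V) :
    ∑ k, G (fun v => if v ∈ X then 1 else 0) k ^ 2 = (fc π X + mc μ X : ℕ) := by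
  rw [dir_eq hμ hG, srxdir_ind, srxdir_ind, card_mucut hμ, fc]
  push_cast
  ring

omit [DecidableEq V] in
lemma srxdir_letter (hμ : ∀ v, μ (μ v) = v) (hG : IsGrad π μ G) (l : Fin 3) (y : V → ℝ) :
    ∑ v, (y (Lt π μ l v) - y v) ^ 2 ≤ 2 * ∑ k, G y k ^ 2 := by
  have h1 : 0 ≤ ∑ v, (y v - y (π v)) ^ 2 := sum_nonneg fun _ _ => sq_nonneg _
  have h2 : 0 ≤ ∑ v, (y v - y (μ v)) ^ 2 := sum_nonneg fun _ _ => sq_nonneg _
  have h3 : ∀ σ : Equiv.Perm V, ∑ v, (y (σ v) - y v) ^ 2 = ∑ v, (y v - y (σ v)) ^ 2 :=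
    fun σ => sum_congr rfl fun v _ => by ring
  have h4 : ∑ v, (y (π⁻¹ v) - y v) ^ 2 = ∑ v, (y v - y (π v)) ^ 2 := by
    rw [← Equiv.sum_comp π fun v => (y (π⁻¹ v) - y v) ^ 2]
    refine sum_congr rfl fun v _ => ?_
    simp
  rw [dir_eq hμ hG]
  fin_cases l
  · change ∑ v, (y (π v) - y v) ^ 2 ≤ _
    rw [h3]; linarith
  · change ∑ v, (y (π⁻¹ v) - y v) ^ 2 ≤ _
    rw [h4]; linarith
  · change ∑ v, (y (μ v) - y v) ^ 2 ≤ _
    rw [h3]; linarith

omit [DecidableEq V] in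
lemma dir_word (hμ : ∀ v, μ (μ v) = v) (hG : IsGrad π μ G) {n : ℕ} {w : Equiv.Perm V}
    (hw : Wd π μ n w) (y : V → ℝ) :
    ∑ v, (y (w v) - y v) ^ 2 ≤ 2 * n ^ 2 * ∑ k, G y k ^ 2 := by
  have hD : 0 ≤ ∑ k, G y k ^ 2 := sum_nonneg fun _ _ => sq_nonneg _
  refine Wd.induct (P := fun n w => ∑ v, (y (w v) - y v) ^ 2 ≤ 2 * (n : ℝ) ^ 2 * ∑ k, G y k ^ 2)
    ?_ ?_ ?_ hw
  · simp
  · intro n w l ih
    have ha : ∑ v, (y (Lt π μ l (w v)) - y (w v)) ^ 2 ≤ 2 * ∑ k, G y k ^ 2 := by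
      rw [Equiv.sum_comp w fun v => (y (Lt π μ l v) - y v) ^ 2]
      exact srxdir_letter hμ hG l y
    have hn : (0 : ℝ) ≤ n := Nat.cast_nonneg n
    have hc := sum_mul_sq_le_sq_mul_sq univ (fun v => y (Lt π μ l (w v)) - y (w v))
      (fun v => y (w v) - y v)
    have hb : 0 ≤ ∑ v, (y (w v) - y v) ^ 2 := sum_nonneg fun _ _ => sq_nonneg _
    have hd : (∑ v, (y (Lt π μ l (w v)) - y (w v)) * (y (w v) - y v)) ^ 2 ≤
        (2 * n * ∑ k, G y k ^ 2) ^ 2 := by
      refine hc.trans ((mul_le_mul ha ih hb (by positivity)).trans_eq ?_)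
      ring
    have he := (abs_le_of_sq_le_sq' hd (by positivity)).2
    have hf : ∑ v, (y ((Lt π μ l * w) v) - y v) ^ 2 =
        ∑ v, (y (Lt π μ l (w v)) - y (w v)) ^ 2 +
        2 * ∑ v, (y (Lt π μ l (w v)) - y (w v)) * (y (w v) - y v) +
        ∑ v, (y (w v) - y v) ^ 2 := by
      rw [mul_sum, ← sum_add_distrib, ← sum_add_distrib]
      refine sum_congr rfl fun v _ => ?_
      rw [Equiv.Perm.mul_apply]; ring
    rw [hf]
    push_cast
    nlinarith
  · intro n w ih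
    refine ih.trans ?_
    have hn : (0 : ℝ) ≤ n := Nat.cast_nonneg n
    push_cast
    nlinarith

omit [DecidableEq V] in
lemma seg_bessel (hμ : ∀ v, μ (μ v) = v) (hG : IsGrad π μ G) {n : ℕ} {w : Equiv.Perm V}
    (hw : Wd π μ n w) (m : ℕ) (y : V → ℝ) :
    ∑ v, (seg π m (w v) y - seg π m v y) ^ 2 ≤ 2 * (2 * m + n) ^ 2 * ∑ k, G y k ^ 2 := by
  have hD : 0 ≤ ∑ k, G y k ^ 2 := sum_nonneg fun _ _ => sq_nonneg _
  rcases Nat.eq_zero_or_pos m with rfl | hm
  · simp only [seg_apply, range_zero, sum_empty, mul_zero, sub_self]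
    simp only [ne_eq, OfNat.ofNat_ne_zero, not_false_eq_true, zero_pow, sum_const_zero]
    positivity
  have hm' : (0 : ℝ) < m := by exact_mod_cast hm
  have h1 : ∀ v, (seg π m (w v) y - seg π m v y) ^ 2 ≤
      (m : ℝ)⁻¹ * ∑ t ∈ range m, (y ((π ^ (t + 1)) (w v)) - y ((π ^ (t + 1)) v)) ^ 2 := by
    intro v
    have h := sq_sum_le_card_mul_sum_sq (s := range m)
      (f := fun t => y ((π ^ (t + 1)) (w v)) - y ((π ^ (t + 1)) v))
    rw [card_range] at h
    rw [seg_apply, seg_apply, ← mul_sub, ← sum_sub_distrib, mul_pow]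
    refine (mul_le_mul_of_nonneg_left h (sq_nonneg _)).trans_eq ?_
    field_simp
  have h2 : ∀ t ∈ range m, ∑ v, (y ((π ^ (t + 1)) (w v)) - y ((π ^ (t + 1)) v)) ^ 2 ≤
      2 * (2 * m + n) ^ 2 * ∑ k, G y k ^ 2 := by
    intro t ht
    have ht' := mem_range.1 ht
    have a1 : Wd π μ (t + 1) (π ^ (t + 1)) := by
      have := wd_zpow (π := π) (μ := μ) ((t + 1 : ℕ) : ℤ)
      rwa [Int.natAbs_natCast, zpow_natCast] at this
    have a2 : Wd π μ (t + 1) (π ^ (t + 1))⁻¹ := by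
      have := wd_zpow (π := π) (μ := μ) (-((t + 1 : ℕ) : ℤ))
      rwa [Int.natAbs_neg, Int.natAbs_natCast, zpow_neg, zpow_natCast] at this
    have a3 : Wd π μ (2 * m + n) (π ^ (t + 1) * w * (π ^ (t + 1))⁻¹) :=
      ((a1.mul hw).mul a2).mono (by omega)
    have a4 := dir_word hμ hG a3 y
    rw [Nat.cast_add, Nat.cast_mul, Nat.cast_ofNat, ← Equiv.sum_comp (π ^ (t + 1))] at a4
    refine le_of_eq_of_le (sum_congr rfl fun v _ => ?_) a4
    simp only [Equiv.Perm.mul_apply, Equiv.Perm.coe_inv, Equiv.symm_apply_apply]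
  refine (sum_le_sum fun v _ => h1 v).trans ?_
  rw [← mul_sum, sum_comm]
  refine (mul_le_mul_of_nonneg_left (sum_le_sum h2) (by positivity)).trans_eq ?_
  rw [sum_const, card_range, nsmul_eq_mul]
  field_simp

end Pool.Agent.P.MP_e59a69_co
end

-- part Pool.Agent.P.MP_e59a69_co.SRSel
section

/-! The selector theorem for real linear functionals dominated by a sum of squares. -/

open Finset

namespace Pool.Agent.P.MP_e59a69_co

theorem srxsel_rep {W κ : Type} [AddCommGroup W] [Module ℝ W] [Fintype κ]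
    (γ : W →ₗ[ℝ] κ → ℝ) (α : W →ₗ[ℝ] ℝ) (h : ∀ w, γ w = 0 → α w = 0) :
    ∃ w0, ∀ w, α w = ∑ k, γ w0 k * γ w k := by
  let Γ : W →ₗ[ℝ] EuclideanSpace ℝ κ :=
    (WithLp.linearEquiv 2 ℝ (κ → ℝ)).symm.toLinearMap ∘ₗ γ
  have hΓ : ∀ w k, Γ w k = γ w k := fun w k => rfl
  have hk : LinearMap.ker Γ ≤ LinearMap.ker α := by
    intro w hw
    rw [LinearMap.mem_ker] at hw ⊢
    apply h
    funext k
    rw [← hΓ, hw]
    rfl
  let β : LinearMap.range Γ →ₗ[ℝ] ℝ :=
    (LinearMap.ker Γ).liftQ α hk ∘ₗ Γ.quotKerEquivRange.symm.toLinearMap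
  have hβ : ∀ w, β ⟨Γ w, LinearMap.mem_range_self Γ w⟩ = α w := by
    intro w
    simp only [β, LinearMap.comp_apply, LinearEquiv.coe_coe]
    rw [LinearMap.quotKerEquivRange_symm_apply_image]
    simp
  let r : LinearMap.range Γ :=
    (InnerProductSpace.toDual ℝ (LinearMap.range Γ)).symm (LinearMap.toContinuousLinearMap β)
  obtain ⟨w0, hw0⟩ := r.2
  refine ⟨w0, fun w => ?_⟩
  have h1 : inner ℝ r (⟨Γ w, LinearMap.mem_range_self Γ w⟩ : LinearMap.range Γ) = α w := by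
    rw [← hβ]
    simp only [r]
    rw [InnerProductSpace.toDual_symm_apply]
    simp
  rw [← h1, Submodule.coe_inner, ← hw0, PiLp.inner_apply]
  refine Finset.sum_congr rfl fun k _ => ?_
  simp only [hΓ]
  simp [mul_comm]

theorem srxsel_norm {κ V : Type} [Fintype κ] [Fintype V] (z : V → κ → ℝ) (x : V → ℂ) :
    ‖∑ l, x l • (WithLp.toLp 2 (fun k => (z l k : ℂ)) : EuclideanSpace ℂ κ)‖ ^ 2
      = ∑ k, (∑ l, (x l).re * z l k) ^ 2 + ∑ k, (∑ l, (x l).im * z l k) ^ 2 := by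
  rw [EuclideanSpace.norm_sq_eq, ← Finset.sum_add_distrib]
  refine Finset.sum_congr rfl fun k _ => ?_
  rw [Complex.sq_norm, Complex.normSq_apply]
  simp [Complex.re_sum, Complex.im_sum, sq]

theorem srxsel_le {s A : ℝ} (hA : 0 ≤ A) (h : s ^ 2 ≤ A * s) : s ≤ A := by
  by_contra hc
  push Not at hc
  nlinarith

theorem form_sel {W κ ι : Type} [AddCommGroup W] [Module ℝ W] [Fintype κ] [Fintype ι]
    [DecidableEq ι] (γ : W →ₗ[ℝ] κ → ℝ) (α : ι × Bool → W →ₗ[ℝ] ℝ)
    (h1 : ∀ w, ∑ l, α l w ^ 2 ≤ ∑ k, γ w k ^ 2) (h2 : ∀ l w, 100 * α l w ^ 2 ≤ ∑ k, γ w k ^ 2) :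
    ∃ τ : ι → Bool, ∀ w, ∑ i, α (i, τ i) w ^ 2 ≤ 9 / 10 * ∑ k, γ w k ^ 2 := by
  have hrep : ∀ l, ∃ w0, ∀ w, α l w = ∑ k, γ w0 k * γ w k := by
    intro l
    apply srxsel_rep
    intro w hw
    have := h2 l w
    rw [hw] at this
    simp only [Pi.zero_apply, ne_eq, OfNat.ofNat_ne_zero, not_false_eq_true, zero_pow,
      sum_const_zero] at this
    have h0 : α l w ^ 2 = 0 := le_antisymm (by linarith) (sq_nonneg _)
    exact pow_eq_zero_iff (two_ne_zero) |>.1 h0
  choose w0 hw0 using hrep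
  have hsyn : ∀ a : ι × Bool → ℝ, ∑ k, (∑ l, a l * γ (w0 l) k) ^ 2 ≤ ∑ l, a l ^ 2 := by
    intro a
    have e1 : ∀ k, γ (∑ l, a l • w0 l) k = ∑ l, a l * γ (w0 l) k := by
      intro k
      simp [map_sum, Finset.sum_apply]
    have e2 : ∑ k, (∑ l, a l * γ (w0 l) k) ^ 2 = ∑ l, a l * α l (∑ l, a l • w0 l) := by
      simp only [hw0, Finset.mul_sum]
      rw [Finset.sum_comm]
      refine Finset.sum_congr rfl fun k _ => ?_
      rw [e1, sq, Finset.sum_mul]
      refine Finset.sum_congr rfl fun l _ => ?_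
      ring
    have e3 := h1 (∑ l, a l • w0 l)
    simp only [e1] at e3
    have e4 := Finset.sum_mul_sq_le_sq_mul_sq univ a (fun l => α l (∑ l, a l • w0 l))
    rw [← e2] at e4
    have hA : 0 ≤ ∑ l, a l ^ 2 := Finset.sum_nonneg fun l _ => sq_nonneg _
    exact srxsel_le hA (e4.trans (mul_le_mul_of_nonneg_left e3 hA))
  obtain ⟨τ, hτ⟩ := Pool.Agent.Lib.Selector.selector_finite (ι := ι)
    (fun l => (WithLp.toLp 2 (fun k => (γ (w0 l) k : ℂ)) : EuclideanSpace ℂ κ))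
    (by
      intro x
      rw [srxsel_norm (fun l => γ (w0 l)) x]
      have a1 := hsyn (fun l => (x l).re)
      have a2 := hsyn (fun l => (x l).im)
      have a3 : ∑ l, ‖x l‖ ^ 2 = ∑ l, (x l).re ^ 2 + ∑ l, (x l).im ^ 2 := by
        rw [← Finset.sum_add_distrib]
        refine Finset.sum_congr rfl fun l _ => ?_
        rw [Complex.sq_norm, Complex.normSq_apply]
        ring
      linarith)
    (by
      intro l
      have b1 := h2 l (w0 l)
      have b2 : α l (w0 l) = ∑ k, γ (w0 l) k ^ 2 := by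
        rw [hw0]
        exact Finset.sum_congr rfl fun k _ => (sq _).symm
      rw [b2] at b1
      have b3 : ∑ k, γ (w0 l) k ^ 2 ≤ 1 / 100 := srxsel_le (by norm_num) (by linarith)
      have b4 : ‖(WithLp.toLp 2 (fun k => (γ (w0 l) k : ℂ)) : EuclideanSpace ℂ κ)‖ ^ 2
          = ∑ k, γ (w0 l) k ^ 2 := by
        rw [EuclideanSpace.norm_sq_eq]
        refine Finset.sum_congr rfl fun k _ => ?_
        simp
      apply le_of_sq_le_sq _ (by norm_num)
      rw [b4]
      linarith)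
  refine ⟨τ, fun w => ?_⟩
  have c1 := hτ (fun i => (α (i, τ i) w : ℂ))
  rw [srxsel_norm (fun i => γ (w0 (i, τ i)))] at c1
  simp only [Complex.ofReal_re, Complex.ofReal_im, zero_mul, sum_const_zero, ne_eq,
    OfNat.ofNat_ne_zero, not_false_eq_true, zero_pow, add_zero, Complex.norm_real,
    Real.norm_eq_abs, sq_abs] at c1
  have c2 : ∑ i, α (i, τ i) w ^ 2
      = ∑ k, (∑ i, α (i, τ i) w * γ (w0 (i, τ i)) k) * γ w k := by
    simp only [Finset.sum_mul]
    rw [Finset.sum_comm]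
    refine Finset.sum_congr rfl fun i _ => ?_
    rw [sq]
    nth_rewrite 2 [hw0]
    rw [Finset.mul_sum]
    refine Finset.sum_congr rfl fun k _ => ?_
    ring
  have c3 := Finset.sum_mul_sq_le_sq_mul_sq univ
    (fun k => ∑ i, α (i, τ i) w * γ (w0 (i, τ i)) k) (fun k => γ w k)
  rw [← c2] at c3
  have hD : 0 ≤ ∑ k, γ w k ^ 2 := Finset.sum_nonneg fun k _ => sq_nonneg _
  apply srxsel_le (by positivity)
  have c4 := mul_le_mul_of_nonneg_right c1 hD
  nlinarith

end Pool.Agent.P.MP_e59a69_co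
end

-- part Pool.Agent.P.MP_e59a69_co.SRIter
section

/-! A subfamily that is thin in one block and still spanning in the other. -/

open Finset

namespace Pool.Agent.P.MP_e59a69_co

theorem srxiter_step {W₁ W₂ κ ι : Type} [AddCommGroup W₁] [Module ℝ W₁] [AddCommGroup W₂]
    [Module ℝ W₂] [Fintype κ] [DecidableEq ι] (γ : W₁ →ₗ[ℝ] κ → ℝ) (a : ι → W₁ →ₗ[ℝ] ℝ)
    (b : ι → W₂ →ₗ[ℝ] ℝ) (B : ℝ) (hB : 0 ≤ B) (U : Finset ι)
    (ha : ∀ i w, 100 * a i w ^ 2 ≤ B * ∑ k, γ w k ^ 2)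
    (h1 : ∀ w, ∑ i ∈ U, a i w ^ 2 ≤ B * ∑ k, γ w k ^ 2)
    (h2 : ∀ i ∈ U, ∀ x, 100 * b i x ^ 2 ≤ ∑ f ∈ U, b f x ^ 2) :
    ∃ K ⊆ U, (∀ w, ∑ i ∈ K, a i w ^ 2 ≤ 9 / 10 * (B * ∑ k, γ w k ^ 2)) ∧
      ∀ x, ∑ f ∈ U, b f x ^ 2 ≤ 10 * ∑ f ∈ K, b f x ^ 2 := by
  classical
  let γ' : (W₁ × W₂) →ₗ[ℝ] (κ ⊕ U) → ℝ := LinearMap.pi (fun k => match k with
    | Sum.inl k => Real.sqrt B • ((LinearMap.proj k).comp (γ.comp (LinearMap.fst ℝ W₁ W₂)))
    | Sum.inr i => (b i.1).comp (LinearMap.snd ℝ W₁ W₂))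
  let α : U × Bool → (W₁ × W₂) →ₗ[ℝ] ℝ := fun l => match l.2 with
    | true => (a l.1.1).comp (LinearMap.fst ℝ W₁ W₂)
    | false => (b l.1.1).comp (LinearMap.snd ℝ W₁ W₂)
  have hγ : ∀ p : W₁ × W₂, ∑ k, γ' p k ^ 2 = B * ∑ k, γ p.1 k ^ 2 + ∑ f ∈ U, b f p.2 ^ 2 := by
    intro p
    rw [Fintype.sum_sum_type, Finset.mul_sum, ← Finset.sum_coe_sort U]
    congr 1
    refine Finset.sum_congr rfl (fun k _ => ?_)
    have : γ' p (Sum.inl k) = Real.sqrt B * γ p.1 k := rfl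
    rw [this, mul_pow, Real.sq_sqrt hB]
  have hn1 : ∀ w, 0 ≤ B * ∑ k, γ w k ^ 2 := fun w =>
    mul_nonneg hB (Finset.sum_nonneg fun _ _ => sq_nonneg _)
  have hn2 : ∀ x, 0 ≤ ∑ f ∈ U, b f x ^ 2 := fun x => Finset.sum_nonneg fun _ _ => sq_nonneg _
  obtain ⟨t, ht⟩ := form_sel γ' α (by
      intro p
      rw [hγ, Fintype.sum_prod_type]
      have e : ∀ i : U, ∑ c : Bool, α (i, c) p ^ 2 = a i.1 p.1 ^ 2 + b i.1 p.2 ^ 2 := by
        intro i
        rw [Fintype.sum_bool]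
        rfl
      rw [Finset.sum_congr rfl (fun i _ => e i), Finset.sum_add_distrib,
        Finset.sum_coe_sort U (fun i => a i p.1 ^ 2), Finset.sum_coe_sort U (fun i => b i p.2 ^ 2)]
      linarith [h1 p.1]) (by
      rintro ⟨i, c⟩ p
      rw [hγ]
      cases c
      · have : α (i, false) p = b i.1 p.2 := rfl
        rw [this]
        linarith [h2 i.1 i.2 p.2, hn1 p.1]
      · have : α (i, true) p = a i.1 p.1 := rfl
        rw [this]
        linarith [ha i.1 p.1, hn2 p.2])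
  let K : Finset ι := (Finset.univ.filter (fun i : U => t i = true)).map
    (Function.Embedding.subtype _)
  have hK : ∀ f : ι → ℝ, ∑ i ∈ K, f i = ∑ i : U, if t i = true then f i.1 else 0 := by
    intro f
    rw [Finset.sum_map, Finset.sum_filter]
    rfl
  refine ⟨K, ?_, ?_, ?_⟩
  · intro i hi
    obtain ⟨i', _, rfl⟩ := Finset.mem_map.1 hi
    exact i'.2
  · intro w
    have h := ht (w, 0)
    rw [hγ] at h
    have e : ∀ i : U, α (i, t i) (w, 0) ^ 2 = if t i = true then a i.1 w ^ 2 else 0 := by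
      intro i
      cases t i
      · have : α (i, false) (w, 0) = b i.1 0 := rfl
        rw [this]; simp
      · have : α (i, true) (w, 0) = a i.1 w := rfl
        rw [this]; simp
    rw [Finset.sum_congr rfl (fun i _ => e i)] at h
    rw [hK]
    simpa using h
  · intro x
    have h := ht (0, x)
    rw [hγ] at h
    have e : ∀ i : U, α (i, t i) (0, x) ^ 2 =
        b i.1 x ^ 2 - if t i = true then b i.1 x ^ 2 else 0 := by
      intro i
      cases t i
      · have : α (i, false) (0, x) = b i.1 x := rfl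
        rw [this]; simp
      · have : α (i, true) (0, x) = a i.1 0 := rfl
        rw [this]; simp
    rw [Finset.sum_congr rfl (fun i _ => e i), Finset.sum_sub_distrib,
      Finset.sum_coe_sort U (fun i => b i x ^ 2), ← hK (fun i => b i x ^ 2)] at h
    have z : ∑ k, γ (0 : W₁) k ^ 2 = 0 := by simp
    simp only [z] at h
    linarith

theorem thin_span {W₁ W₂ κ ι : Type} [AddCommGroup W₁] [Module ℝ W₁] [AddCommGroup W₂]
    [Module ℝ W₂] [Fintype κ] [DecidableEq ι] (γ : W₁ →ₗ[ℝ] κ → ℝ) (a : ι → W₁ →ₗ[ℝ] ℝ)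
    (b : ι → W₂ →ₗ[ℝ] ℝ) (τ : ℝ) (hτ : 0 < τ)
    (ha : ∀ i w, 100 * a i w ^ 2 ≤ τ * ∑ k, γ w k ^ 2) (j : ℕ) (U : Finset ι)
    (h1 : ∀ w, ∑ i ∈ U, a i w ^ 2 ≤ τ * (10 / 9) ^ j * ∑ k, γ w k ^ 2)
    (h2 : ∀ i ∈ U, ∀ x, 100 * 10 ^ j * b i x ^ 2 ≤ ∑ f ∈ U, b f x ^ 2) :
    ∃ K ⊆ U, (∀ w, ∑ i ∈ K, a i w ^ 2 ≤ τ * ∑ k, γ w k ^ 2) ∧
      ∀ x, (∀ i ∈ K, b i x = 0) → ∀ i ∈ U, b i x = 0 := by
  induction j generalizing U with
  | zero => exact ⟨U, Finset.Subset.refl _, by simpa using h1, fun x hx => hx⟩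
  | succ j ih =>
    have hp : (1 : ℝ) ≤ (10 / 9) ^ (j + 1) := one_le_pow₀ (by norm_num)
    have hq : (1 : ℝ) ≤ 10 ^ (j + 1) := one_le_pow₀ (by norm_num)
    obtain ⟨K', hK'U, hA, hB⟩ := srxiter_step γ a b (τ * (10 / 9) ^ (j + 1)) (by positivity) U
      (fun i w => by
        have hs : 0 ≤ τ * ∑ k, γ w k ^ 2 :=
          mul_nonneg hτ.le (Finset.sum_nonneg fun _ _ => sq_nonneg _)
        have := mul_le_mul_of_nonneg_left hp hs
        nlinarith [ha i w]) h1
      (fun i hi x => by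
        have := mul_le_mul_of_nonneg_left hq (sq_nonneg (b i x))
        nlinarith [h2 i hi x])
    obtain ⟨K, hKK', hC, hD⟩ := ih K' (fun w => by
        have h := hA w
        have e : 9 / 10 * (τ * (10 / 9) ^ (j + 1) * ∑ k, γ w k ^ 2) =
            τ * (10 / 9) ^ j * ∑ k, γ w k ^ 2 := by ring
        rwa [e] at h)
      (fun i hi x => by
        have h := h2 i (hK'U hi) x
        have h' := hB x
        have e : (100 : ℝ) * 10 ^ (j + 1) * b i x ^ 2 = 10 * (100 * 10 ^ j * b i x ^ 2) := by ring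
        rw [e] at h
        linarith)
    refine ⟨K, hKK'.trans hK'U, hC, fun x hx i hi => ?_⟩
    have h0 : ∑ f ∈ K', b f x ^ 2 = 0 :=
      Finset.sum_eq_zero fun f hf => by rw [hD x hx f hf]; simp
    have h3 := hB x
    rw [h0, mul_zero] at h3
    have h4 : b i x ^ 2 ≤ ∑ f ∈ U, b f x ^ 2 :=
      Finset.single_le_sum (f := fun f => b f x ^ 2) (fun _ _ => sq_nonneg _) hi
    have h5 : b i x ^ 2 = 0 := le_antisymm (h4.trans h3) (sq_nonneg _)
    exact pow_eq_zero_iff (two_ne_zero) |>.1 h5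

end Pool.Agent.P.MP_e59a69_co
end

-- part Pool.Agent.P.MP_e59a69_co.SRThin
section

/-! From few bad pairs to a thin pairing, under a girth hypothesis only. -/

open Finset

namespace Pool.Agent.P.MP_e59a69_co

variable {V : Type} [Fintype V] [DecidableEq V] {π μ : Equiv.Perm V} {c : ℕ}

lemma sr_toggle (H : Hy π μ c) {L : ℕ} (hL2 : 2 ≤ L) (hL : 2 * L + 10 ≤ c) (S : Finset V) (Q : V → V)
    (hdis : ∀ s ∈ S, ∀ s' ∈ S, s ≠ s' → Disjoint (Sys π μ L s) (Sys π μ L s'))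
    (X : Finset V) (s : V) (hs : s ∈ S)
    (h0 : s ∈ X) (h1 : (π ^ (1 : ℤ)) s ∈ X) (h1' : (π ^ (-1 : ℤ)) s ∈ X)
    (hiso : ¬ ((π ^ (2 : ℤ)) s ∈ X ∨ (π ^ (-2 : ℤ)) s ∈ X ∨ μ ((π ^ (-1 : ℤ)) s) ∈ X ∨
      μ ((π ^ (0 : ℤ)) s) ∈ X ∨ μ ((π ^ (1 : ℤ)) s) ∈ X)) :
    ∃ Y : Finset V, fc π Y + mc μ Y + 5 ≤ fc π X + mc μ X ∧ lam π S Y ≤ lam π S X ∧
      dQ S Q X ≤ dQ S Q Y + 1 := by
  push Not at hiso
  obtain ⟨i1, i2, i3, i4, i5⟩ := hiso
  let T := Iv π s (-1) 1
  have hT : ∀ v, v ∈ T ↔ v = (π ^ (-1 : ℤ)) s ∨ v = (π ^ (0 : ℤ)) s ∨ v = (π ^ (1 : ℤ)) s := by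
    intro v
    rw [mem_Iv]
    constructor
    · rintro ⟨t, t1, t2, rfl⟩
      have : t = -1 ∨ t = 0 ∨ t = 1 := by omega
      rcases this with rfl | rfl | rfl <;> simp
    · rintro (rfl | rfl | rfl)
      · exact ⟨-1, by omega, by omega, rfl⟩
      · exact ⟨0, by omega, by omega, rfl⟩
      · exact ⟨1, by omega, by omega, rfl⟩
  have hTc : #T = 3 := by rw [H.card_Iv _ (by omega)]; rfl
  have hTX : ∀ v ∈ T, v ∈ X ∧ μ v ∉ X := by
    intro v hv
    rcases (hT v).1 hv with rfl | rfl | rfl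
    · exact ⟨h1', i3⟩
    · exact ⟨by simpa using h0, i4⟩
    · exact ⟨h1, i5⟩
  have hTS : T ⊆ Sys π μ L s := fun v hv => by
    obtain ⟨t, t1, t2, rfl⟩ := mem_Iv.1 hv
    exact pow_mem_Sys s (by omega) (by omega)
  have hoth : ∀ s' ∈ S, s' ≠ s → ∀ t : ℤ, -1 ≤ t → t ≤ 1 → (π ^ t) s' ∉ T :=
    fun s' hs' hne t t1 t2 h => Finset.disjoint_left.1 (hdis s' hs' s hs hne)
      (pow_mem_Sys s' (by omega) (by omega)) (hTS h)
  refine ⟨X \ T, ?_, ?_, ?_⟩
  · have a1 : fc π (X \ T) + 2 ≤ fc π X := by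
      have hne : (π ^ (1 : ℤ)) s ≠ (π ^ (-2 : ℤ)) s := fun e => i2 (e ▸ h1)
      have e1 : π ((π ^ (1 : ℤ)) s) = (π ^ (2 : ℤ)) s := zp_succ _ _ _
      have e2 : π ((π ^ (-2 : ℤ)) s) = (π ^ (-1 : ℤ)) s := zp_succ _ _ _
      have hin : ∀ v, v ∈ T → π v ∉ X \ T := by
        intro v hv h
        rw [mem_sdiff] at h
        obtain ⟨t, t1, t2, rfl⟩ := mem_Iv.1 hv
        rw [zp_succ] at h
        by_cases ht : t = 1
        · subst ht; exact i1 h.1
        · exact h.2 (mem_Iv.2 ⟨t + 1, by omega, by omega, rfl⟩)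
      have hin' : ∀ v, π v ∈ T → v ∉ X \ T := by
        intro v hv h
        rw [mem_sdiff] at h
        obtain ⟨t, t1, t2, e⟩ := mem_Iv.1 hv
        have e3 : (π ^ (t - 1)) s = v := by
          apply π.injective
          rw [zp_succ, sub_add_cancel, e]
        by_cases ht : t = -1
        · subst ht; exact i2 (by rw [← e3] at h; exact h.1)
        · exact h.2 (mem_Iv.2 ⟨t - 1, by omega, by omega, e3⟩)
      rw [← card_pair hne]
      unfold fc
      rw [← card_union_of_disjoint]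
      · refine card_le_card fun v hv => ?_
        simp only [mem_union, mem_filter, mem_univ, true_and, mem_insert, mem_singleton] at hv ⊢
        rcases hv with hv | rfl | rfl
        · have p1 : v ∉ T := fun h => hv (iff_of_false (fun h2 => (mem_sdiff.1 h2).2 h) (hin v h))
          have p2 : π v ∉ T := fun h =>
            hv (iff_of_false (hin' v h) (fun h2 => (mem_sdiff.1 h2).2 h))
          simpa only [mem_sdiff, p1, p2, not_false_eq_true, and_true] using hv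
        · rw [e1]; exact fun h => i1 (h.1 h1)
        · rw [e2]; exact fun h => i2 (h.2 h1')
      · refine Finset.disjoint_left.2 fun v p1 p2 => ?_
        simp only [mem_filter, mem_univ, true_and, mem_insert, mem_singleton] at p1 p2
        apply p1
        rcases p2 with rfl | rfl
        · have := (hT _).2 (Or.inr (Or.inr rfl))
          exact iff_of_false (fun h2 => (mem_sdiff.1 h2).2 this) (hin _ this)
        · have := (hT _).2 (Or.inl rfl)
          rw [← e2] at this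
          exact iff_of_false (hin' _ this) (fun h2 => (mem_sdiff.1 h2).2 this)
    have a2 : mc μ (X \ T) + 3 ≤ mc μ X := by
      rw [← hTc]
      unfold mc
      rw [← card_union_of_disjoint]
      · refine card_le_card fun v hv => ?_
        simp only [mem_union, mem_filter, mem_sdiff] at hv ⊢
        rcases hv with hv | hv
        · refine ⟨hv.1.1, fun h => hv.2 ⟨h, fun h2 => ?_⟩⟩
          have := (hTX _ h2).2
          rw [H.inv] at this
          exact this hv.1.1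
        · exact hTX v hv
      · exact Finset.disjoint_left.2 fun v p1 p2 => (mem_sdiff.1 (mem_filter.1 p1).1).2 p2
    omega
  · refine card_le_card fun s' hs' => ?_
    simp only [mem_filter, mem_sdiff] at hs' ⊢
    refine ⟨hs'.1, ?_⟩
    by_cases hne : s' = s
    · exfalso
      subst hne
      have p1 := (hT _).2 (Or.inl rfl)
      have p2 := (hT _).2 (Or.inr (Or.inl rfl))
      have p3 := (hT _).2 (Or.inr (Or.inr rfl))
      rw [zpow_zero, Equiv.Perm.one_apply] at p2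
      have := hs'.2
      simp only [p1, p2, p3, not_true, and_false, or_self] at this
    · have p1 := hoth s' hs'.1 hne (-1) (by omega) (by omega)
      have p2 := hoth s' hs'.1 hne 0 (by omega) (by omega)
      have p3 := hoth s' hs'.1 hne 1 (by omega) (by omega)
      rw [zpow_zero, Equiv.Perm.one_apply] at p2
      have := hs'.2
      simpa only [p1, p2, p3, not_false_eq_true, and_true] using this
  · refine le_trans (card_le_card (t := insert s _) fun s' hs' => ?_) (card_insert_le _ _)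
    simp only [mem_filter, mem_sdiff, mem_insert] at hs' ⊢
    by_cases hne : s' = s
    · exact Or.inl hne
    · have p2 := hoth s' hs'.1 hne 0 (by omega) (by omega)
      rw [zpow_zero, Equiv.Perm.one_apply] at p2
      exact Or.inr ⟨hs'.1, ⟨hs'.2.1, p2⟩, fun h => hs'.2.2 h.1⟩

theorem sr_thin (H : Hy π μ c) {L : ℕ} (hL2 : 2 ≤ L) (hL : 2 * L + 10 ≤ c) (S : Finset V)
    (Q : V → V) (hQ : ∀ t ∈ S, Q t ∈ S ∧ Q (Q t) = t)
    (hdis : ∀ s ∈ S, ∀ s' ∈ S, s ≠ s' → Disjoint (Sys π μ L s) (Sys π μ L s'))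
    (hbad : ∀ (X B : Finset V), B ⊆ S →
      (∀ s ∈ B, s ∈ X ∧ Q s ∉ X ∧ Half π μ L X s ∧ Half π μ L Xᶜ (Q s)) →
      30 * #B ≤ fc π X + mc μ X)
    (X : Finset V) : 5 * dQ S Q X ≤ fc π X + mc μ X + 5 * lam π S X := by
  classical
  have hlamc : ∀ X, lam π S Xᶜ = lam π S X := fun X => by
    unfold lam
    simp only [mem_compl, not_iff_not]
  have hdQc : ∀ X, dQ S Q Xᶜ = dQ S Q X := fun X => by
    unfold dQ
    rw [← invol_card Q S X hQ]
    simp only [mem_compl, not_not]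
  induction h : fc π X + mc μ X using Nat.strong_induction_on generalizing X with
  | _ n ih =>
  let iso : Finset V → V → Prop := fun X s => s ∈ X ∧ (π ^ (1 : ℤ)) s ∈ X ∧ (π ^ (-1 : ℤ)) s ∈ X ∧
    ¬ ((π ^ (2 : ℤ)) s ∈ X ∨ (π ^ (-2 : ℤ)) s ∈ X ∨ μ ((π ^ (-1 : ℤ)) s) ∈ X ∨
      μ ((π ^ (0 : ℤ)) s) ∈ X ∨ μ ((π ^ (1 : ℤ)) s) ∈ X)
  by_cases c1 : ∃ s ∈ S, iso X s
  · obtain ⟨s, hs, p1, p2, p3, p4⟩ := c1
    obtain ⟨Y, y1, y2, y3⟩ := sr_toggle H hL2 hL S Q hdis X s hs p1 p2 p3 p4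
    have := ih _ (by omega) Y rfl
    omega
  by_cases c2 : ∃ s ∈ S, iso Xᶜ s
  · obtain ⟨s, hs, p1, p2, p3, p4⟩ := c2
    obtain ⟨Y, y1, y2, y3⟩ := sr_toggle H hL2 hL S Q hdis Xᶜ s hs p1 p2 p3 p4
    rw [fc_compl, mc_compl H.inv] at y1
    rw [hlamc] at y2
    rw [hdQc] at y3
    have := ih _ (by omega) Y rfl
    omega
  let lt : V → Prop := fun s =>
    ¬ (s ∈ X ↔ (π ^ (1 : ℤ)) s ∈ X) ∨ ¬ (s ∈ X ↔ (π ^ (-1 : ℤ)) s ∈ X)
  let big : V → Prop := fun s => 12 ≤ ∑ v ∈ Sys π μ L s, om π μ X v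
  let B : Finset V := {s ∈ S | s ∈ X ∧ Q s ∉ X ∧ ¬ (lt s ∨ big s) ∧ ¬ (lt (Q s) ∨ big (Q s))}
  have hA : ∀ s ∈ B, Half π μ L X s := by
    intro s hs
    simp only [B, mem_filter, lt, big] at hs
    obtain ⟨p0, p1, -, p2, -⟩ := hs
    push Not at p2
    exact H.loc hL2 hL X s p1 (p2.1.1.1 p1) (p2.1.2.1 p1)
      (by
        by_contra hc
        exact c1 ⟨s, p0, p1, p2.1.1.1 p1, p2.1.2.1 p1, hc⟩) p2.2
  have hA' : ∀ s ∈ B, Half π μ L Xᶜ (Q s) := by
    intro s hs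
    simp only [B, mem_filter, lt, big] at hs
    obtain ⟨p0, -, p1, -, p2⟩ := hs
    push Not at p2
    have q1 : Q s ∈ Xᶜ := mem_compl.2 p1
    have q2 : (π ^ (1 : ℤ)) (Q s) ∈ Xᶜ := mem_compl.2 fun h => p1 (p2.1.1.2 h)
    have q3 : (π ^ (-1 : ℤ)) (Q s) ∈ Xᶜ := mem_compl.2 fun h => p1 (p2.1.2.2 h)
    exact H.loc hL2 hL Xᶜ (Q s) q1 q2 q3
      (by
        by_contra hc
        exact c2 ⟨Q s, (hQ s p0).1, q1, q2, q3, hc⟩) (by simp only [om_compl]; exact p2.2)
  have e1 := hbad X B (filter_subset _ _) fun s hs =>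
    ⟨(mem_filter.1 hs).2.1, (mem_filter.1 hs).2.2.1, hA s hs, hA' s hs⟩
  have e2 : 12 * #{s ∈ S | big s} ≤ 2 * (fc π X + mc μ X) := by
    rw [← sum_om_univ π H.inv]
    have f1 : ∑ s ∈ S with big s, 12 ≤ ∑ s ∈ S with big s, ∑ v ∈ Sys π μ L s, om π μ X v :=
      Finset.sum_le_sum fun s hs => (mem_filter.1 hs).2
    rw [← Finset.sum_biUnion] at f1
    · rw [Finset.sum_const, smul_eq_mul, mul_comm] at f1
      exact f1.trans (Finset.sum_le_sum_of_subset (subset_univ _))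
    · intro s hs s' hs' hne
      exact hdis s (mem_filter.1 hs).1 s' (mem_filter.1 hs').1 hne
  have e3 : dQ S Q X ≤ #B + #{s ∈ S | lt s ∨ big s} := by
    let P : V → Prop := fun s => lt s ∨ big s
    have f1 : dQ S Q X ≤ #B + #{s ∈ S | s ∈ X ∧ Q s ∉ X ∧ (P s ∨ P (Q s))} := by
      refine le_trans (card_le_card fun s hs => ?_) (card_union_le _ _)
      rw [mem_filter] at hs
      by_cases hp : P s ∨ P (Q s)
      · exact mem_union_right _ (mem_filter.2 ⟨hs.1, hs.2.1, hs.2.2, hp⟩)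
      · exact mem_union_left _ (mem_filter.2 ⟨hs.1, hs.2.1, hs.2.2, fun h => hp (Or.inl h),
          fun h => hp (Or.inr h)⟩)
    have f2 : #{s ∈ S | s ∈ X ∧ Q s ∉ X ∧ (P s ∨ P (Q s))} ≤ #{s ∈ S | P s} := by
      refine card_le_card_of_injOn (fun s => if P s then s else Q s) (fun s hs => ?_)
        (fun s hs s' hs' e => ?_)
      · simp only [coe_filter, Set.mem_ofPred_eq] at hs ⊢
        split_ifs with hp
        · exact ⟨hs.1, hp⟩
        · exact ⟨(hQ s hs.1).1, hs.2.2.2.resolve_left hp⟩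
      · simp only [coe_filter, Set.mem_ofPred_eq] at hs hs' e
        split_ifs at e
        · exact e
        · exact absurd (e ▸ hs.2.1) hs'.2.2.1
        · exact absurd (e ▸ hs'.2.1) hs.2.2.1
        · rw [← (hQ s hs.1).2, e, (hQ s' hs'.1).2]
    exact f1.trans (Nat.add_le_add_left f2 _)
  have e4 : #{s ∈ S | lt s ∨ big s} ≤ lam π S X + #{s ∈ S | big s} := by
    rw [filter_or]; exact card_union_le _ _
  omega

end Pool.Agent.P.MP_e59a69_co
end
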