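import Pool.Agent.K.MP_e59a69_co.C1
import Pool.Agent.P.MP_da739a_co.Orient

-- part Pool.Agent.P.MP_e59a69_co.TDefs
section

/-! Coordinates along the circuits of a 2-factor, and flows in the permutation model. -/

open Finset Function

namespace Pool.Agent.P.MP_e59a69_co

variable {V : Type} [Fintype V] [DecidableEq V]

/-- net outflow at `v`: `y u` is the value on the arc from `u` to `π u`, `x u` the value leaving
`u` along its matching edge -/
def bd (π : Equiv.Perm V) (y x : V → ℤ) (v : V) : ℤ := y v - y (π.symm v) + x v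

/-- the same with re-attached ends: the arc of `u` goes from `r1 u` to `r2 u`, the matching edge
of `u` has its end at `r3 u` -/
def gb {N : Type} [DecidableEq N] (r1 r2 r3 : V → N) (y x : V → ℤ) (n : N) : ℤ :=
  ∑ v, ((if r1 v = n then y v else 0) - (if r2 v = n then y v else 0) +
    (if r3 v = n then x v else 0))

/-- base point and index on every circuit -/
structure Co (π : Equiv.Perm V) (bs : V → V) (ix : V → ℕ) : Prop where
  pw : ∀ v, π^[ix v] (bs v) = v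
  bs_pi : ∀ v, bs (π v) = bs v
  lt : ∀ v, ix v < minimalPeriod π v

/-- the window: the first `L` vertices of an odd circuit -/
def Win (π : Equiv.Perm V) (ix : V → ℕ) (L : ℕ) (v : V) : Prop :=
  Odd (minimalPeriod π v) ∧ ix v < L

/-- every nontrivial union of circuits is left by a matching edge with an end in `T` -/
def Con (π μ : Equiv.Perm V) (T : Finset V) : Prop :=
  ∀ X : Finset V, (∀ v, π v ∈ X ↔ v ∈ X) → X.Nonempty → Xᶜ.Nonempty →
    ∃ v ∈ T, v ∈ X ∧ μ v ∉ X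

/-- initial sum along a circuit -/
def pre (π : Equiv.Perm V) (f : V → ℤ) (x : V) (i : ℕ) : ℤ := ∑ j ∈ range i, f (π^[j] x)

lemma gb_id (π : Equiv.Perm V) (y x : V → ℤ) (v : V) : gb id π id y x v = bd π y x v := by
  unfold gb bd
  rw [Finset.sum_add_distrib, Finset.sum_sub_distrib]
  have : ∀ u, π u = v ↔ u = π.symm v := fun u => by rw [Equiv.eq_symm_apply]
  simp [this]

omit [DecidableEq V] in
lemma per_pos (π : Equiv.Perm V) (v : V) : 0 < minimalPeriod π v :=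
  minimalPeriod_pos_of_mem_periodicPts (π.injective.mem_periodicPts v)

omit [DecidableEq V] in
lemma per_iter (π : Equiv.Perm V) (v : V) (i : ℕ) :
    minimalPeriod π (π^[i] v) = minimalPeriod π v :=
  minimalPeriod_apply_iterate (π.injective.mem_periodicPts v) i

omit [DecidableEq V] in
lemma per_pi (π : Equiv.Perm V) (v : V) : minimalPeriod π (π v) = minimalPeriod π v :=
  per_iter π v 1

omit [Fintype V] [DecidableEq V] in
lemma symm_iter (π : Equiv.Perm V) (v : V) (i : ℕ) : π.symm (π^[i + 1] v) = π^[i] v := by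
  rw [iterate_succ_apply']; simp

omit [Fintype V] [DecidableEq V] in
lemma pre_succ (π : Equiv.Perm V) (f : V → ℤ) (x : V) (i : ℕ) :
    pre π f x (i + 1) = pre π f x i + f (π^[i] x) := Finset.sum_range_succ _ _

variable {π : Equiv.Perm V} {bs : V → V} {ix : V → ℕ}

omit [Fintype V] [DecidableEq V] in
lemma Co.bs_iter (C : Co π bs ix) (v : V) (i : ℕ) : bs (π^[i] v) = bs v := by
  induction i with
  | zero => rfl
  | succ i ih => rw [iterate_succ_apply', C.bs_pi, ih]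

omit [Fintype V] [DecidableEq V] in
lemma Co.bs_bs (C : Co π bs ix) (v : V) : bs (bs v) = bs v := by
  conv_rhs => rw [← C.pw v, C.bs_iter]

omit [DecidableEq V] in
lemma Co.per_bs (C : Co π bs ix) (v : V) : minimalPeriod π (bs v) = minimalPeriod π v := by
  conv_rhs => rw [← C.pw v, per_iter]

omit [DecidableEq V] in
lemma Co.ix_iter (C : Co π bs ix) {x : V} (hx : bs x = x) {i : ℕ} (hi : i < minimalPeriod π x) :
    ix (π^[i] x) = i := by
  have h1 := C.pw (π^[i] x)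
  rw [C.bs_iter, hx] at h1
  have h2 := C.lt (π^[i] x)
  rw [per_iter] at h2
  exact iterate_injOn_Iio_minimalPeriod h2 hi h1

omit [DecidableEq V] in
lemma Co.ix_bs (C : Co π bs ix) (v : V) : ix (bs v) = 0 :=
  C.ix_iter (C.bs_bs v) (i := 0) (per_pos π _)

omit [Fintype V] [DecidableEq V] in
lemma Co.eq_bs (C : Co π bs ix) {v : V} (h : ix v = 0) : bs v = v := by
  have := C.pw v
  rwa [h] at this

omit [Fintype V] [DecidableEq V] in
lemma Co.ext (C : Co π bs ix) {u v : V} (h1 : bs u = bs v) (h2 : ix u = ix v) : u = v := by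
  rw [← C.pw u, ← C.pw v, h1, h2]

omit [Fintype V] [DecidableEq V] in
lemma Co.bs_symm (C : Co π bs ix) (v : V) : bs (π.symm v) = bs v := by
  rw [← C.bs_pi (π.symm v)]; simp

omit [DecidableEq V] in
lemma Co.ix_symm (C : Co π bs ix) {v : V} (h : ix v ≠ 0) : ix (π.symm v) + 1 = ix v := by
  obtain ⟨i, hi⟩ := Nat.exists_eq_succ_of_ne_zero h
  have h1 := C.pw v
  have h2 := C.lt v
  rw [hi] at h1 h2
  rw [← C.per_bs] at h2
  rw [hi, ← h1, symm_iter, C.ix_iter (C.bs_bs v) (by omega)]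

omit [DecidableEq V] in
lemma symm_eq_iter (π : Equiv.Perm V) (x : V) : π.symm x = π^[minimalPeriod π x - 1] x := by
  have h := per_pos π x
  rw [← symm_iter π x, Nat.sub_add_cancel h, iterate_minimalPeriod]

omit [DecidableEq V] in
lemma Co.ix_symm_zero (C : Co π bs ix) {v : V} (h : ix v = 0) :
    ix (π.symm v) + 1 = minimalPeriod π v := by
  have h1 := per_pos π v
  rw [symm_eq_iter, C.ix_iter (C.eq_bs h) (by omega)]
  omega

/-- sums over a circuit -/
lemma Co.sum_cycle (C : Co π bs ix) {x : V} (hx : bs x = x) (f : V → ℤ) (n : ℕ)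
    (hn : n ≤ minimalPeriod π x) :
    ∑ v with bs v = x ∧ ix v < n, f v = pre π f x n := by
  unfold pre
  symm
  refine Finset.sum_bij (fun j _ => π^[j] x) (fun j hj => ?_) (fun i hi j hj e => ?_)
    (fun v hv => ?_) fun _ _ => rfl
  · have := mem_range.1 hj
    exact mem_filter.2 ⟨mem_univ _, by rw [C.bs_iter, hx], by rw [C.ix_iter hx (by omega)]; exact this⟩
  · have := mem_range.1 hi
    have := mem_range.1 hj
    exact iterate_injOn_Iio_minimalPeriod (show i < _ by omega) (show j < _ by omega) e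
  · obtain ⟨-, h1, h2⟩ := mem_filter.1 hv
    exact ⟨ix v, mem_range.2 h2, by rw [← h1, C.pw]⟩

omit [DecidableEq V] in
/-- coordinates from a choice of base points -/
lemma exists_co (π : Equiv.Perm V) (bs : V → V) (h1 : ∀ v, π.SameCycle (bs v) v)
    (h2 : ∀ v, bs (π v) = bs v) : ∃ ix, Co π bs ix := by
  choose ix h3 h4 using fun v => exists_iter (h1 v)
  exact ⟨ix, h4, h2, fun v => by rw [period_eq (h1 v)]; exact h3 v⟩

omit [DecidableEq V] in
lemma exists_co' (π : Equiv.Perm V) : ∃ bs ix, Co π bs ix := by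
  let q := Equiv.Perm.SameCycle.setoid π
  refine ⟨fun v => (Quotient.mk q v).out, exists_co π _ (fun v => Quotient.mk_out (s := q) v)
    fun v => ?_⟩
  have : Quotient.mk q (π v) = Quotient.mk q v :=
    Quotient.sound (Equiv.Perm.SameCycle.symm ⟨1, by simp⟩)
  rw [this]

/-- one end of every matching edge -/
lemma exists_half (μ : Equiv.Perm V) (h1 : ∀ v, μ (μ v) = v) (h2 : ∀ v, μ v ≠ v) :
    ∃ O : Finset V, ∀ v, μ v ∈ O ↔ v ∉ O := by
  let e := Fintype.equivFin V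
  refine ⟨univ.filter fun v => e v < e (μ v), fun v => ?_⟩
  have : e (μ v) ≠ e v := fun h => h2 v (e.injective h)
  simp only [mem_filter, mem_univ, true_and, h1]
  omega

/-- the multigraph behind `gb`: edges `inl v` are the arcs, edges `inr v` with `v ∈ O` the
matching edges, the other edges are loops -/
def sE {N : Type} (r1 r3 : V → N) : V ⊕ V → N := Sum.elim r1 r3

def tE {N : Type} (μ : Equiv.Perm V) (O : Finset V) (r2 r3 : V → N) : V ⊕ V → N :=
  Sum.elim r2 fun v => if v ∈ O then r3 (μ v) else r3 v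

/-- matching part of an edge function -/
def xE (μ : Equiv.Perm V) (O : Finset V) (φ : V ⊕ V → ℤ) (v : V) : ℤ :=
  if v ∈ O then φ (Sum.inr v) else - φ (Sum.inr (μ v))

omit [Fintype V] in
lemma xE_anti {μ : Equiv.Perm V} (h1 : ∀ v, μ (μ v) = v) {O : Finset V}
    (hO : ∀ v, μ v ∈ O ↔ v ∉ O) (φ : V ⊕ V → ℤ) (v : V) : xE μ O φ (μ v) = - xE μ O φ v := by
  unfold xE
  by_cases h : v ∈ O <;> simp [hO, h, h1]

omit [Fintype V] in
lemma xE_elim {μ : Equiv.Perm V} (O : Finset V) (y x : V → ℤ) (hx : ∀ v, x (μ v) = - x v) :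
    xE μ O (Sum.elim y x) = x := by
  funext v
  unfold xE
  by_cases h : v ∈ O <;> simp [h, hx]

lemma bdry_gb {N : Type} [DecidableEq N] {μ : Equiv.Perm V} (h1 : ∀ v, μ (μ v) = v)
    {O : Finset V} (hO : ∀ v, μ v ∈ O ↔ v ∉ O) (r1 r2 r3 : V → N) (φ : V ⊕ V → ℤ) (n : N) :
    bdry (sE r1 r3) (tE μ O r2 r3) φ n =
      gb r1 r2 r3 (fun v => φ (Sum.inl v)) (xE μ O φ) n := by
  unfold bdry gb
  rw [Fintype.sum_sum_type, Finset.sum_add_distrib]
  congr 1
  have e1 : ∀ v, (if r3 v = n then xE μ O φ v else 0) =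
      (if v ∈ O ∧ r3 v = n then φ (Sum.inr v) else 0) -
        (if μ v ∈ O ∧ r3 (μ (μ v)) = n then φ (Sum.inr (μ v)) else 0) := fun v => by
    unfold xE
    by_cases a : v ∈ O <;> by_cases b : r3 v = n <;> simp [a, b, hO, h1]
  rw [Finset.sum_congr rfl fun v _ => e1 v, Finset.sum_sub_distrib, Finset.sum_sub_distrib,
    Equiv.sum_comp μ fun v => if v ∈ O ∧ r3 (μ v) = n then φ (Sum.inr v) else 0,
    ← Finset.sum_sub_distrib, ← Finset.sum_sub_distrib]
  refine Finset.sum_congr rfl fun v _ => ?_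
  by_cases a : v ∈ O <;> by_cases b : r3 v = n <;> by_cases b' : r3 (μ v) = n <;>
    simp [sE, tE, a, b, b']

end Pool.Agent.P.MP_e59a69_co
end

-- part Pool.Agent.P.MP_e59a69_co.TLift
section

/-! Lifting modular flows to integer flows. -/

open Finset Function

namespace Pool.Agent.P.MP_e59a69_co

theorem lift {N E : Type} [Fintype N] [Fintype E] [DecidableEq N] (s t : E → N) (K : ℤ)
    (hK : 0 < K) (a : E → ℤ) (h : ∀ v, K ∣ bdry s t a v) :
    ∃ φ : E → ℤ, (∀ v, bdry s t φ v = 0) ∧ ∀ e, K ∣ φ e - a e ∧ |φ e| < K := by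
  classical
  let a' : E → ℤ := fun e => a e % K
  have ha : ∀ e, 0 ≤ a' e ∧ a' e < K := fun e =>
    ⟨Int.emod_nonneg _ hK.ne', Int.emod_lt_of_pos _ hK⟩
  have hd : ∀ v, K ∣ bdry s t a' v := fun v => by
    have e1 : a = fun e => a' e + K * (a e / K) := funext fun e => (Int.emod_add_mul_ediv _ _).symm
    have e2 := h v
    rw [e1, bdry_add, bdry_mul] at e2
    exact (Int.dvd_add_left (Dvd.intro _ rfl)).1 e2
  choose g hg using hd
  have hs : ∀ X : Finset N, K * ∑ v ∈ X, g v = ∑ v ∈ X, bdry s t a' v := fun X => by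
    rw [Finset.mul_sum]; exact Finset.sum_congr rfl fun v _ => (hg v).symm
  obtain ⟨y, hy, hb⟩ := hoffman' s t g (by
      have := hs univ
      rw [sum_bdry_univ] at this
      exact (mul_eq_zero.1 this).resolve_left hK.ne')
    (fun _ => 0) (fun e => if a' e = 0 then 0 else 1) (fun e => by split_ifs <;> omega)
    (fun X => by
      refine le_of_mul_le_mul_left ?_ hK
      rw [hs, sum_bdry]
      unfold capOut
      rw [Finset.mul_sum]
      refine Finset.sum_le_sum fun e _ => ?_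
      have := ha e
      by_cases a0 : a' e = 0 <;> by_cases a1 : s e ∈ X <;> by_cases a2 : t e ∈ X <;>
        simp [a0, a1, a2] <;> omega)
  refine ⟨fun e => a' e + (-K) * y e, fun v => ?_, fun e => ⟨?_, ?_⟩⟩
  · rw [bdry_add, bdry_mul, hb, hg]; ring
  · exact ⟨-(y e) - a e / K, by
      have := Int.emod_add_mul_ediv (a e) K
      simp only [a']; linarith⟩
  · have h1 := ha e
    have h2 := hy e
    rw [abs_lt]
    by_cases a0 : a' e = 0
    · have : y e = 0 := by simp only [a0, if_true] at h2; omega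
      simp only [a0, this]; omega
    · simp only [a0, if_false] at h2
      rcases (by omega : y e = 0 ∨ y e = 1) with h3 | h3 <;> simp only [h3] <;> omega

variable {V : Type} [Fintype V] [DecidableEq V]

theorem glift {N : Type} [Fintype N] [DecidableEq N] {μ : Equiv.Perm V}
    (h1 : ∀ v, μ (μ v) = v) (h2 : ∀ v, μ v ≠ v) (r1 r2 r3 : V → N) (K : ℤ) (hK : 0 < K)
    (y x : V → ℤ) (hx : ∀ v, x (μ v) = - x v) (h : ∀ n, K ∣ gb r1 r2 r3 y x n) :
    ∃ y' x' : V → ℤ, (∀ v, x' (μ v) = - x' v) ∧ (∀ n, gb r1 r2 r3 y' x' n = 0) ∧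
      ∀ v, (K ∣ y' v - y v ∧ |y' v| < K) ∧ (K ∣ x' v - x v ∧ |x' v| < K) := by
  obtain ⟨O, hO⟩ := exists_half μ h1 h2
  obtain ⟨φ, a1, a2⟩ := lift (sE r1 r3) (tE μ O r2 r3) K hK (Sum.elim y x) fun n => by
    rw [bdry_gb h1 hO, xE_elim O y x hx]; exact h n
  refine ⟨fun v => φ (Sum.inl v), xE μ O φ, xE_anti h1 hO φ, fun n => ?_, fun v =>
    ⟨a2 (Sum.inl v), ?_⟩⟩
  · rw [← bdry_gb h1 hO, a1]
  · unfold xE
    split_ifs
    · exact a2 (Sum.inr v)
    · obtain ⟨b1, b2⟩ := a2 (Sum.inr (μ v))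
      rw [Sum.elim_inr, hx] at b1
      exact ⟨by rw [show -φ (Sum.inr (μ v)) - x v = -(φ (Sum.inr (μ v)) - -x v) by ring]; exact dvd_neg.2 b1, by rwa [abs_neg]⟩

end Pool.Agent.P.MP_e59a69_co
end

-- part Pool.Agent.P.MP_e59a69_co.TCut
section

/-! Cuts of an edge set of a multigraph. -/

open Finset Function

namespace Pool.Agent.P.MP_e59a69_co

variable {N E : Type} [DecidableEq N]

/-- number of edges of `A` in the cut of `X` -/
def ct (s t : E → N) (A : Finset E) (X : Finset N) : ℕ := #{e ∈ A | ¬ (s e ∈ X ↔ t e ∈ X)}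

/-- number of arcs of `A` entering `X` -/
def ent (s t : E → N) (A : Finset E) (X : Finset N) : ℕ := #{e ∈ A | t e ∈ X ∧ s e ∉ X}

lemma ct_eq [Fintype N] (s t : E → N) (A : Finset E) (X : Finset N) :
    ct s t A X = ent s t A X + ent s t A Xᶜ := by
  unfold ct ent
  simp only [card_filter]
  rw [← Finset.sum_add_distrib]
  refine Finset.sum_congr rfl fun e _ => ?_
  by_cases a : s e ∈ X <;> by_cases b : t e ∈ X <;> simp [a, b]

lemma ent_submod (s t : E → N) (A : Finset E) (X Y : Finset N) :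
    ent s t A (X ∩ Y) + ent s t A (X ∪ Y) ≤ ent s t A X + ent s t A Y := by
  unfold ent
  simp only [card_filter]
  rw [← Finset.sum_add_distrib, ← Finset.sum_add_distrib]
  refine Finset.sum_le_sum fun e _ => ?_
  by_cases a : s e ∈ X <;> by_cases b : t e ∈ X <;> by_cases c : s e ∈ Y <;>
    by_cases d : t e ∈ Y <;> simp [a, b, c, d]

lemma ct_swap {s t s' t' : E → N}
    (h : ∀ e, (s' e = s e ∧ t' e = t e) ∨ (s' e = t e ∧ t' e = s e)) (A : Finset E)
    (X : Finset N) : ct s' t' A X = ct s t A X := by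
  unfold ct
  refine congrArg _ (filter_congr fun e _ => ?_)
  rcases h e with ⟨a, b⟩ | ⟨a, b⟩ <;> rw [a, b]
  exact not_congr iff_comm

end Pool.Agent.P.MP_e59a69_co
end

-- part Pool.Agent.P.MP_e59a69_co.TThird
section

/-! A balanced orientation of a 7-edge-connected multigraph. -/

open Finset Function

namespace Pool.Agent.P.MP_e59a69_co

variable {N E : Type} [Fintype N] [Fintype E] [DecidableEq N] [DecidableEq E]

theorem third (s t : E → N) (A : Finset E)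
    (h : ∀ X : Finset N, X.Nonempty → Xᶜ.Nonempty → 7 ≤ ct s t A X) :
    ∃ s' t' : E → N, (∀ e, (s' e = s e ∧ t' e = t e) ∨ (s' e = t e ∧ t' e = s e)) ∧
      ∀ X, ct s t A X ≤ 3 * ent s' t' A X := by
  let t1 : E → N := fun e => if e ∈ A then t e else s e
  have hcz : ∀ X, MP_da739a_co.cz s t1 X = ct s t A X := fun X => by
    unfold MP_da739a_co.cz ct
    rw [card_filter]
    push_cast
    rw [← Finset.sum_ite_mem_eq A]
    refine Finset.sum_congr rfl fun e _ => ?_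
    by_cases a : e ∈ A <;> by_cases b : s e ∈ X <;> by_cases c : t e ∈ X <;> simp [t1, a, b, c]
  obtain ⟨x, hx, hd⟩ := MP_da739a_co.orient 1 _ s t1 rfl fun X hX => by
    rw [hcz] at hX ⊢
    have h0 : 0 < ct s t A X := by
      rcases hX with ⟨k, hk⟩
      omega
    obtain ⟨e, he⟩ := card_pos.1 h0
    have he' := (mem_filter.1 he).2
    have := h X (by
        by_cases b : s e ∈ X
        · exact ⟨_, b⟩
        · exact ⟨t e, by_contra fun c => he' (iff_of_false b c)⟩) (by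
        by_cases b : s e ∈ X
        · exact ⟨t e, mem_compl.2 fun c => he' (iff_of_true b c)⟩
        · exact ⟨_, mem_compl.2 b⟩)
    push_cast
    omega
  obtain ⟨φ, p1, p2⟩ := lift s t1 3 (by norm_num) x hd
  have hφ : ∀ e, φ e = 1 ∨ φ e = 2 ∨ φ e = -1 ∨ φ e = -2 := fun e => by
    have a := hx e
    obtain ⟨b, c⟩ := p2 e
    rw [abs_lt] at c
    omega
  refine ⟨fun e => if 0 < φ e then s e else t e, fun e => if 0 < φ e then t e else s e,
    fun e => by by_cases a : 0 < φ e <;> simp [a], fun X => ?_⟩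
  have e0 : ∑ v ∈ X, bdry s t1 φ v = 0 := Finset.sum_eq_zero fun v _ => p1 v
  rw [sum_bdry] at e0
  have : (ct s t A X : ℤ) ≤ 3 * (ent (fun e => if 0 < φ e then s e else t e)
      (fun e => if 0 < φ e then t e else s e) A X : ℤ) + ∑ e, ((if s e ∈ X then φ e else 0) -
        (if t1 e ∈ X then φ e else 0)) := by
    unfold ct ent
    rw [card_filter, card_filter]
    push_cast
    rw [← Finset.sum_ite_mem_eq A, ← Finset.sum_ite_mem_eq A, Finset.mul_sum,
      ← Finset.sum_add_distrib]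
    refine Finset.sum_le_sum fun e _ => ?_
    by_cases a : e ∈ A <;> by_cases b : s e ∈ X <;> by_cases c : t e ∈ X <;>
      rcases hφ e with d | d | d | d <;> simp [t1, a, b, c, d]
  rw [e0] at this
  omega

end Pool.Agent.P.MP_e59a69_co
end

-- part Pool.Agent.P.MP_e59a69_co.TEdm
section

/-! Disjoint spanning arborescences. -/

open Finset Function

namespace Pool.Agent.P.MP_e59a69_co

variable {N E : Type} [Fintype N] [Fintype E] [DecidableEq N] [DecidableEq E]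

/-- The invariant of the growing arborescence. -/
structure EdmInv (s t : E → N) (A : Finset E) (r : N) (k : ℕ) (S : Finset N) (T : Finset E) :
    Prop where
  root : r ∈ S
  sub : T ⊆ A
  head : ∀ e ∈ T, t e ∈ S
  reach : ∀ X : Finset N, r ∉ X → (∃ v ∈ X, v ∈ S) → 1 ≤ ent s t T X
  rest : ∀ X : Finset N, X.Nonempty → r ∉ X → k ≤ ent s t (A \ T) X

omit [Fintype N] [Fintype E] [DecidableEq E] in
lemma edm_mono (s t : E → N) {A B : Finset E} (h : A ⊆ B) (X : Finset N) :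
    ent s t A X ≤ ent s t B X :=
  card_le_card (filter_subset_filter _ h)

omit [Fintype N] [Fintype E] in
lemma edm_erase (s t : E → N) (A T : Finset E) (e : E) (X : Finset N) :
    ent s t (A \ T) X ≤ ent s t (A \ insert e T) X + if t e ∈ X ∧ s e ∉ X then 1 else 0 := by
  unfold ent
  by_cases he : t e ∈ X ∧ s e ∉ X
  · rw [if_pos he]
    refine le_trans (card_le_card (t := insert e {f ∈ A \ insert e T | t f ∈ X ∧ s f ∉ X})
      fun f hf => ?_) (card_insert_le _ _)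
    rw [mem_filter, mem_sdiff] at hf
    by_cases hfe : f = e
    · exact mem_insert.2 (Or.inl hfe)
    · refine mem_insert.2 (Or.inr (mem_filter.2 ⟨mem_sdiff.2 ⟨hf.1.1, fun h => ?_⟩, hf.2⟩))
      exact (mem_insert.1 h).elim hfe hf.1.2
  · rw [if_neg he, add_zero]
    refine card_le_card fun f hf => ?_
    rw [mem_filter, mem_sdiff] at hf
    refine mem_filter.2 ⟨mem_sdiff.2 ⟨hf.1.1, fun h => ?_⟩, hf.2⟩
    rcases mem_insert.1 h with h | h
    · exact he (h ▸ hf.2)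
    · exact hf.1.2 h

omit [Fintype E] in
lemma edm_grow {s t : E → N} {A : Finset E} {r : N} {k : ℕ}
    (h : ∀ X : Finset N, X.Nonempty → r ∉ X → k + 1 ≤ ent s t A X) {S : Finset N} {T : Finset E}
    (I : EdmInv s t A r k S T) (hS : S ≠ univ) :
    ∃ e, t e ∉ S ∧ EdmInv s t A r k (insert (t e) S) (insert e T) := by
  obtain ⟨X, hX, hmin⟩ := exists_min_image ((univ : Finset (Finset N)).filter fun X =>
      (X = univ ∨ (X.Nonempty ∧ r ∉ X ∧ ent s t (A \ T) X = k)) ∧ ¬ X ⊆ S) card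
    ⟨univ, mem_filter.2 ⟨mem_univ _, Or.inl rfl, fun h => hS (univ_subset_iff.1 h)⟩⟩
  obtain ⟨hcrit, hXS⟩ := (mem_filter.1 hX).2
  have hne : (X \ S).Nonempty := sdiff_nonempty.2 hXS
  have hk := h (X \ S) hne fun hr => (mem_sdiff.1 hr).2 I.root
  obtain ⟨e, heA, htX, htS, hsX, hsS⟩ :
      ∃ e ∈ A, t e ∈ X ∧ t e ∉ S ∧ s e ∈ X ∧ s e ∈ S := by
    by_contra hno
    have h1 : ∀ e ∈ A, t e ∈ X \ S → s e ∉ X \ S → s e ∉ X := by
      intro e he ht hs hsX
      refine hno ⟨e, he, (mem_sdiff.1 ht).1, (mem_sdiff.1 ht).2, hsX, ?_⟩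
      by_contra hsS
      exact hs (mem_sdiff.2 ⟨hsX, hsS⟩)
    rcases hcrit with rfl | ⟨-, -, hc⟩
    · have h2 : 0 < ent s t A (univ \ S) := by omega
      obtain ⟨e, he⟩ := card_pos.1 h2
      rw [mem_filter] at he
      exact h1 e he.1 he.2.1 he.2.2 (mem_univ _)
    · have h2 : ent s t A (X \ S) ≤ ent s t (A \ T) X := by
        refine card_le_card fun e he => ?_
        rw [mem_filter] at he
        exact mem_filter.2 ⟨mem_sdiff.2 ⟨he.1, fun hT => (mem_sdiff.1 he.2.1).2 (I.head e hT)⟩,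
          (mem_sdiff.1 he.2.1).1, h1 e he.1 he.2.1 he.2.2⟩
      omega
  refine ⟨e, htS, mem_insert_of_mem I.root, insert_subset heA I.sub, fun f hf => ?_,
    fun Y hr hY => ?_, fun Y hY hr => ?_⟩
  · rcases mem_insert.1 hf with rfl | hf
    · exact mem_insert_self _ _
    · exact mem_insert_of_mem (I.head f hf)
  · by_cases hm : ∃ v ∈ Y, v ∈ S
    · exact (I.reach Y hr hm).trans (edm_mono s t (subset_insert _ _) Y)
    · obtain ⟨v, hvY, hv⟩ := hY
      rcases mem_insert.1 hv with rfl | hv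
      · exact card_pos.2 ⟨e, mem_filter.2 ⟨mem_insert_self _ _, hvY, fun hs => hm ⟨_, hs, hsS⟩⟩⟩
      · exact absurd ⟨v, hvY, hv⟩ hm
  · have h1 := edm_erase s t A T e Y
    have h2 := I.rest Y hY hr
    by_cases he : t e ∈ Y ∧ s e ∉ Y
    · rw [if_pos he] at h1
      by_contra hlt
      have h3 : ent s t (A \ T) Y = k := by omega
      have htm : t e ∈ X ∩ Y := mem_inter.2 ⟨htX, he.1⟩
      have hrm : r ∉ X ∩ Y := fun h => hr (mem_inter.1 h).2
      have h4 : ent s t (A \ T) (X ∩ Y) = k := by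
        rcases hcrit with rfl | ⟨hXne, hrX, hc⟩
        · rw [univ_inter]; exact h3
        · have h5 := ent_submod s t (A \ T) X Y
          have h6 := I.rest (X ∩ Y) ⟨_, htm⟩ hrm
          have h7 := I.rest (X ∪ Y) (hY.mono subset_union_right)
            fun h => (mem_union.1 h).elim hrX hr
          omega
      have h5 := hmin (X ∩ Y) (mem_filter.2 ⟨mem_univ _, Or.inr ⟨⟨_, htm⟩, hrm, h4⟩,
        fun h => htS (h htm)⟩)
      have h6 : #(X ∩ Y) < #X := card_lt_card ⟨inter_subset_left,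
        fun h => he.2 (mem_inter.1 (h hsX)).2⟩
      omega
    · rw [if_neg he] at h1
      omega

omit [Fintype E] in
lemma edm_full {s t : E → N} {A : Finset E} {r : N} {k : ℕ}
    (h : ∀ X : Finset N, X.Nonempty → r ∉ X → k + 1 ≤ ent s t A X) (n : ℕ) :
    ∀ (S : Finset N) (T : Finset E), EdmInv s t A r k S T → Fintype.card N ≤ #S + n →
      ∃ T', EdmInv s t A r k univ T' := by
  induction n with
  | zero =>
    intro S T I hn
    have hS : S = univ := eq_univ_of_card S (le_antisymm (card_le_univ S) hn)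
    exact ⟨T, hS ▸ I⟩
  | succ n ih =>
    intro S T I hn
    by_cases hS : S = univ
    · exact ⟨T, hS ▸ I⟩
    · obtain ⟨e, he, I'⟩ := edm_grow h I hS
      refine ih _ _ I' ?_
      rw [card_insert_of_notMem he]
      omega

theorem edmonds_step (s t : E → N) (A : Finset E) (r : N) (k : ℕ)
    (h : ∀ X : Finset N, X.Nonempty → r ∉ X → k + 1 ≤ ent s t A X) :
    ∃ T ⊆ A, (∀ X : Finset N, X.Nonempty → r ∉ X → 1 ≤ ent s t T X) ∧
      ∀ X : Finset N, X.Nonempty → r ∉ X → k ≤ ent s t (A \ T) X := by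
  have I : EdmInv s t A r k {r} ∅ := by
    refine ⟨mem_singleton_self r, empty_subset _, fun e he => absurd he (notMem_empty e),
      fun X hr ⟨v, hv, hv'⟩ => absurd (mem_singleton.1 hv' ▸ hv) hr, fun X hX hr => ?_⟩
    rw [sdiff_empty]
    exact (Nat.le_succ k).trans (h X hX hr)
  obtain ⟨T, I'⟩ := edm_full h (Fintype.card N) _ _ I (Nat.le_add_left _ _)
  exact ⟨T, I'.sub, fun X ⟨v, hv⟩ hr => I'.reach X hr ⟨v, hv, mem_univ v⟩, I'.rest⟩

lemma edm_many (s t : E → N) (r : N) (n : ℕ) : ∀ A : Finset E,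
    (∀ X : Finset N, X.Nonempty → r ∉ X → n ≤ ent s t A X) →
    ∃ T : ℕ → Finset E, (∀ i, T i ⊆ A) ∧ (∀ i j, i ≠ j → Disjoint (T i) (T j)) ∧
      ∀ i < n, ∀ X : Finset N, X.Nonempty → r ∉ X → 1 ≤ ent s t (T i) X := by
  induction n with
  | zero =>
    intro A _
    exact ⟨fun _ => ∅, fun _ => empty_subset _, fun _ _ _ => disjoint_empty_left _,
      fun i hi => absurd hi (Nat.not_lt_zero i)⟩
  | succ n ih =>
    intro A h
    obtain ⟨T₀, hs, h1, h2⟩ := edmonds_step s t A r n h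
    obtain ⟨T, hT, hd, h3⟩ := ih (A \ T₀) h2
    have hd0 : ∀ i, Disjoint T₀ (T i) := fun i => disjoint_sdiff.mono_right (hT i)
    refine ⟨fun i => Nat.casesOn i T₀ T, fun i => ?_, fun i j hij => ?_, fun i hi => ?_⟩
    · cases i with
      | zero => exact hs
      | succ i => exact (hT i).trans sdiff_subset
    · cases i with
      | zero =>
        cases j with
        | zero => exact absurd rfl hij
        | succ j => exact hd0 j
      | succ i =>
        cases j with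
        | zero => exact (hd0 i).symm
        | succ j => exact hd i j fun h => hij (congrArg Nat.succ h)
    · cases i with
      | zero => exact h1
      | succ i => exact h3 i (Nat.lt_of_succ_lt_succ hi)

theorem five (s t : E → N) (A : Finset E)
    (h : ∀ X : Finset N, X.Nonempty → Xᶜ.Nonempty → 15 ≤ ct s t A X) :
    ∃ T : ℕ → Finset E, (∀ i, T i ⊆ A) ∧ (∀ i j, i ≠ j → Disjoint (T i) (T j)) ∧
      ∀ i < 5, ∀ X : Finset N, X.Nonempty → Xᶜ.Nonempty → 1 ≤ ct s t (T i) X := by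
  rcases isEmpty_or_nonempty N with hN | ⟨⟨r⟩⟩
  · exact ⟨fun _ => ∅, fun _ => empty_subset _, fun _ _ _ => disjoint_empty_left _,
      fun _ _ X ⟨v, _⟩ => hN.elim v⟩
  obtain ⟨s', t', hsw, h3⟩ := third s t A fun X hX hX' => le_trans (by norm_num) (h X hX hX')
  obtain ⟨T, hT, hd, h1⟩ := edm_many s' t' r 5 A fun X hX hr => by
    have h4 := h X hX ⟨r, mem_compl.2 hr⟩
    have h5 := h3 X
    omega
  refine ⟨T, hT, hd, fun i hi X hX hX' => ?_⟩
  rw [← ct_swap hsw, ct_eq]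
  by_cases hr : r ∈ X
  · have h4 := h1 i hi Xᶜ hX' fun h => mem_compl.1 h hr
    omega
  · have h4 := h1 i hi X hX hr
    omega

end Pool.Agent.P.MP_e59a69_co
end

-- part Pool.Agent.P.MP_e59a69_co.TIT
section

/-! Independent transversals by counting. -/

open Finset Function

namespace Pool.Agent.P.MP_e59a69_co

theorem tit_exists {ι Ω : Type} [DecidableEq ι] (A : ι → Finset Ω) (R : Ω → Ω → Prop) (d : Ω)
    (J : Finset ι) : ∃ G : Finset (ι → Ω), ∀ s, s ∈ G ↔ (∀ j ∈ J, s j ∈ A j) ∧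
      (∀ j, j ∉ J → s j = d) ∧ ∀ j ∈ J, ∀ k ∈ J, j ≠ k → ¬ R (s j) (s k) := by
  classical
  refine ⟨((J.pi A).image fun f j => if h : j ∈ J then f j h else d).filter
    fun s => ∀ j ∈ J, ∀ k ∈ J, j ≠ k → ¬ R (s j) (s k), fun s => ?_⟩
  rw [mem_filter, mem_image, ← and_assoc]
  refine and_congr_left fun _ => ⟨?_, fun h => ⟨fun j _ => s j, mem_pi.2 h.1, ?_⟩⟩
  · rintro ⟨f, hf, rfl⟩
    exact ⟨fun j hj => by simpa [hj] using mem_pi.1 hf j hj, fun j hj => by simp [hj]⟩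
  · funext j
    by_cases hj : j ∈ J
    · simp [hj]
    · simp [hj, h.2 j hj]

theorem exists_IT {ι Ω : Type} [DecidableEq ι] [DecidableEq Ω] [Nonempty Ω] (I : Finset ι)
    (A : ι → Finset Ω) (R : Ω → Ω → Prop) [DecidableRel R] (hR : ∀ a b, R a b → R b a) (D : ℕ)
    (hD : 0 < D) (hA : ∀ i ∈ I, 4 * D ≤ #(A i))
    (hdeg : ∀ i ∈ I, ∀ a ∈ A i, ∑ j ∈ I.erase i, #{b ∈ A j | R a b} ≤ D) :
    ∃ s : ι → Ω, (∀ i ∈ I, s i ∈ A i) ∧ ∀ i ∈ I, ∀ j ∈ I, i ≠ j → ¬ R (s i) (s j) := by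
  classical
  obtain ⟨d⟩ := ‹Nonempty Ω›
  choose G hG using tit_exists A R d
  have h1 : ∀ (J : Finset ι) (j : ι) (b : Ω), #{s ∈ G J | s j = b} ≤ #(G (J.erase j)) := by
    intro J j b
    refine card_le_card_of_injOn (fun s => update s j d) (fun s hs => ?_) fun s hs t ht e => ?_
    · obtain ⟨a1, a2, a3⟩ := (hG J s).1 (mem_filter.1 hs).1
      refine mem_coe.2 ((hG _ (update s j d)).2
        ⟨fun k hk => ?_, fun k hk => ?_, fun k hk l hl hkl => ?_⟩)
      · rw [update_of_ne (mem_erase.1 hk).1]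
        exact a1 k (mem_erase.1 hk).2
      · by_cases e : k = j
        · rw [e, update_self]
        · rw [update_of_ne e]
          exact a2 k fun h => hk (mem_erase.2 ⟨e, h⟩)
      · rw [update_of_ne (mem_erase.1 hk).1, update_of_ne (mem_erase.1 hl).1]
        exact a3 k (mem_erase.1 hk).2 l (mem_erase.1 hl).2 hkl
    · funext k
      by_cases e' : k = j
      · rw [e', (mem_filter.1 hs).2, (mem_filter.1 ht).2]
      · simpa [update_of_ne e'] using congrFun e k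
  have h2 : ∀ (J : Finset ι) (i : ι), i ∉ J → ∀ a ∈ A i,
      #{s ∈ G J | ¬ ∃ j ∈ J, R a (s j)} ≤ #{t ∈ G (insert i J) | t i = a} := by
    intro J i hi a ha
    have hne : ∀ k ∈ J, k ≠ i := fun k hk e => hi (e ▸ hk)
    refine card_le_card_of_injOn (fun s => update s i a) (fun s hs => ?_) fun s hs t ht e => ?_
    · obtain ⟨a1, a2, a3⟩ := (hG J s).1 (mem_filter.1 hs).1
      have a4 : ∀ j ∈ J, ¬ R a (s j) := fun j hj h => (mem_filter.1 hs).2 ⟨j, hj, h⟩
      refine mem_coe.2 (mem_filter.2 ⟨(hG _ (update s i a)).2 ⟨fun k hk => ?_, fun k hk => ?_,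
        fun k hk l hl hkl => ?_⟩, update_self ..⟩)
      · rcases mem_insert.1 hk with rfl | hk
        · rwa [update_self]
        · rw [update_of_ne (hne k hk)]
          exact a1 k hk
      · rw [update_of_ne fun e => hk (mem_insert.2 (Or.inl e))]
        exact a2 k fun h => hk (mem_insert_of_mem h)
      · rcases mem_insert.1 hk with rfl | hk' <;> rcases mem_insert.1 hl with rfl | hl'
        · exact absurd rfl hkl
        · rw [update_self, update_of_ne (hne l hl')]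
          exact a4 l hl'
        · rw [update_self, update_of_ne (hne k hk')]
          exact fun h => a4 k hk' (hR _ _ h)
        · rw [update_of_ne (hne k hk'), update_of_ne (hne l hl')]
          exact a3 k hk' l hl' hkl
    · funext k
      by_cases e' : k = i
      · rw [e', ((hG J s).1 (mem_filter.1 hs).1).2.1 i hi, ((hG J t).1 (mem_filter.1 ht).1).2.1 i hi]
      · simpa [update_of_ne e'] using congrFun e k
  have key : ∀ n, ∀ J ⊆ I, #J = n → ∀ i ∈ I, i ∉ J → 2 * D * #(G J) ≤ #(G (insert i J)) := by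
    intro n
    induction n using Nat.strong_induction_on with
    | _ n ih =>
    intro J hJ hn i hi hiJ
    have h3 : ∀ j ∈ J, 2 * D * #(G (J.erase j)) ≤ #(G J) := fun j hj => by
      have := ih _ (hn ▸ card_erase_lt_of_mem hj) (J.erase j) ((erase_subset j J).trans hJ) rfl j
        (hJ hj) (notMem_erase j J)
      rwa [insert_erase hj] at this
    have h4 : ∀ a ∈ A i, #(G J) ≤ 2 * #{t ∈ G (insert i J) | t i = a} := by
      intro a ha
      have b1 : #{s ∈ G J | ∃ j ∈ J, R a (s j)} ≤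
          ∑ j ∈ J, ∑ b ∈ A j with R a b, #{s ∈ G J | s j = b} := by
        refine le_trans (card_le_card (t := J.biUnion fun j => ({b ∈ A j | R a b}).biUnion
          fun b => {s ∈ G J | s j = b}) fun s hs => ?_)
          (card_biUnion_le.trans (sum_le_sum fun j _ => card_biUnion_le))
        obtain ⟨hs, j, hj, h⟩ := mem_filter.1 hs
        exact mem_biUnion.2 ⟨j, hj, mem_biUnion.2 ⟨s j,
          mem_filter.2 ⟨((hG J s).1 hs).1 j hj, h⟩, mem_filter.2 ⟨hs, rfl⟩⟩⟩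
      have b2 : 2 * D * ∑ j ∈ J, ∑ b ∈ A j with R a b, #{s ∈ G J | s j = b} ≤ D * #(G J) := by
        calc 2 * D * ∑ j ∈ J, ∑ b ∈ A j with R a b, #{s ∈ G J | s j = b}
            ≤ ∑ j ∈ J, #{b ∈ A j | R a b} * #(G J) := by
              rw [mul_sum]
              refine sum_le_sum fun j hj => ?_
              rw [mul_sum, ← smul_eq_mul]
              exact sum_le_card_nsmul _ _ _ fun b _ =>
                (Nat.mul_le_mul_left _ (h1 J j b)).trans (h3 j hj)
          _ ≤ D * #(G J) := by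
              rw [← sum_mul]
              refine Nat.mul_le_mul_right _ (le_trans (sum_le_sum_of_subset fun j hj => ?_)
                (hdeg i hi a ha))
              exact mem_erase.2 ⟨fun e => hiJ (e ▸ hj), hJ hj⟩
      have b3 := card_filter_add_card_filter_not (s := G J) fun s => ∃ j ∈ J, R a (s j)
      have b4 := h2 J i hiJ a ha
      have b5 : D * (2 * #{s ∈ G J | ∃ j ∈ J, R a (s j)}) ≤ D * #(G J) := by
        refine le_trans ?_ b2
        rw [← mul_assoc, mul_comm D 2]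
        exact Nat.mul_le_mul_left _ b1
      have b6 := Nat.le_of_mul_le_mul_left b5 hD
      omega
    have h5 : #(G (insert i J)) = ∑ a ∈ A i, #{t ∈ G (insert i J) | t i = a} :=
      card_eq_sum_card_fiberwise fun t ht => ((hG _ t).1 ht).1 i (mem_insert_self i J)
    have h6 : #(A i) * #(G J) ≤ 2 * #(G (insert i J)) := by
      rw [h5, mul_sum, ← smul_eq_mul]
      exact card_nsmul_le_sum _ _ _ h4
    have h7 := Nat.mul_le_mul_right #(G J) (hA i hi)
    nlinarith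
  have pos : ∀ J ⊆ I, 0 < #(G J) := by
    intro J
    induction J using Finset.induction_on with
    | empty => exact fun _ => card_pos.2 ⟨fun _ => d, (hG _ _).2 (by simp)⟩
    | insert i J hi ih =>
      intro h
      have h8 := (subset_insert i J).trans h
      exact lt_of_lt_of_le (Nat.mul_pos (by omega) (ih h8))
        (key _ J h8 rfl i (h (mem_insert_self i J)) hi)
  obtain ⟨s, hs⟩ := card_pos.1 (pos I subset_rfl)
  exact ⟨s, ((hG I s).1 hs).1, ((hG I s).1 hs).2.2⟩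

end Pool.Agent.P.MP_e59a69_co
end

-- part Pool.Agent.P.MP_e59a69_co.LDefs
section

/-! Definitions for the sublogarithmic connectivity bound. -/

open Finset Function

namespace Pool.Agent.P.MP_e59a69_co

section
variable {N E : Type} [DecidableEq N]

/-- `X` separates `Z` -/
def Sep (Z X : Finset N) : Prop := (∃ z ∈ Z, z ∈ X) ∧ ∃ z ∈ Z, z ∉ X

/-- the edge set `T` joins all vertices of `Z` -/
def Conn (s t : E → N) (Z : Finset N) (T : Finset E) : Prop := ∀ X, Sep Z X → 1 ≤ ct s t T X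

/-- number of side changes along a list -/
def chg (X : Finset N) : List N → ℕ
  | a :: b :: l => (if (a ∈ X ↔ b ∈ X) then 0 else 1) + chg X (b :: l)
  | _ => 0

/-- every small piece of one side of the cut has an edge to the rest of its side -/
def Solid (s t : E → N) (n : ℕ) (X : Finset N) : Prop :=
  ∀ Q : Finset N, Q.Nonempty → #Q < n → (Q ⊆ X ∨ Disjoint Q X) →
    ∃ e, ¬ (s e ∈ Q ↔ t e ∈ Q) ∧ (s e ∈ X ↔ t e ∈ X)

lemma chg_cons_cons (X : Finset N) (a b : N) (l : List N) :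
    chg X (a :: b :: l) = (if (a ∈ X ↔ b ∈ X) then 0 else 1) + chg X (b :: l) := rfl

lemma chg_nil (X : Finset N) : chg X [] = 0 := rfl

lemma chg_single (X : Finset N) (a : N) : chg X [a] = 0 := rfl

lemma ct_mono (s t : E → N) {A B : Finset E} (h : A ⊆ B) (X : Finset N) :
    ct s t A X ≤ ct s t B X := card_le_card (filter_subset_filter _ h)

lemma ct_compl [Fintype N] (s t : E → N) (A : Finset E) (X : Finset N) :
    ct s t A Xᶜ = ct s t A X := by
  unfold ct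
  simp only [mem_compl, not_iff_not]

lemma Sep.compl [Fintype N] {Z X : Finset N} (h : Sep Z X) : Sep Z Xᶜ := by
  obtain ⟨⟨a, ha, ha'⟩, b, hb, hb'⟩ := h
  exact ⟨⟨b, hb, mem_compl.2 hb'⟩, a, ha, fun h => mem_compl.1 h ha'⟩

end

variable {V : Type} [Fintype V] [DecidableEq V]

/-- tail of an edge of the graph with the matching edges doubled -/
def es (e : V × Bool) : V := e.1

/-- head of an edge of the graph with the matching edges doubled -/
def et (π μ : Equiv.Perm V) (e : V × Bool) : V := if e.2 = true then μ e.1 else π e.1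

/-- size of a cut, matching edges counted twice -/
def dc (π μ : Equiv.Perm V) (X : Finset V) : ℕ := fc π X + 2 * mc μ X

lemma ct_et (π : Equiv.Perm V) {μ : Equiv.Perm V} (hμ : ∀ v, μ (μ v) = v) (X : Finset V) :
    ct es (et π μ) univ X = dc π μ X := by
  rw [dc, ← card_mucut hμ, fc, ct, card_filter, card_filter, card_filter, Fintype.sum_prod_type,
    ← Finset.sum_add_distrib]
  refine Finset.sum_congr rfl fun v _ => ?_
  rw [Fintype.sum_bool, add_comm]
  rfl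

lemma Hyp.cut' {π μ : Equiv.Perm V} {c : ℕ} (H : Hyp π μ c) (X : Finset V) (h1 : X.Nonempty)
    (h2 : Xᶜ.Nonempty) : c ≤ ct es (et π μ) univ X ∨ #X + 2 ≤ ct es (et π μ) univ X ∨
      #Xᶜ + 2 ≤ ct es (et π μ) univ X := by
  rw [ct_et π H.inv, dc]
  rcases H.cut X h1 h2 with h | h | h <;> omega

end Pool.Agent.P.MP_e59a69_co
end

-- part Pool.Agent.P.MP_e59a69_co.KDefs
section

/-! Definitions for the constant connectivity bound. -/

open Finset Function

namespace Pool.Agent.P.MP_e59a69_co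

variable {V E Φ Y : Type}

/-- Dirichlet energy -/
def En [Fintype E] (s t : E → V) (y : V → ℝ) : ℝ := ∑ e, (y (s e) - y (t e)) ^ 2

/-- energy of a weight on pairs of vertices -/
def ED [Fintype V] (D : V × V → ℝ) (y : V → ℝ) : ℝ := ∑ p, D p * (y p.1 - y p.2) ^ 2

/-- indicator function -/
def ind1 [DecidableEq V] (X : Finset V) : V → ℝ := fun v => if v ∈ X then 1 else 0

/-- the weight `D` is dominated by the graph on every cut -/
def Dom [Fintype V] [Fintype E] [DecidableEq V] (s t : E → V) (D : V × V → ℝ) : Prop :=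
  (∀ p, 0 ≤ D p) ∧ ∀ X : Finset V, ED D (ind1 X) ≤ (ct s t univ X : ℝ)

/-- a pseudo-metric -/
structure Met (l : V → V → ℝ) : Prop where
  self : ∀ x, l x x = 0
  symm : ∀ x y, l x y = l y x
  tri : ∀ x y z, l x z ≤ l x y + l y z

/-- total length of the edges -/
def Pl [Fintype E] (s t : E → V) (l : V → V → ℝ) : ℝ := ∑ e, l (s e) (t e)

/-- pairing -/
def evl [Fintype V] (χ y : V → ℝ) : ℝ := ∑ x, χ x * y x

/-- mixture of mass vectors -/
def mix [Fintype Y] (lam : Y → ℝ) (a : Y → Φ → ℝ) (f : Φ) : ℝ := ∑ y, lam y * a y f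

open Classical in
/-- the item `f` is cheap and not lonely -/
def Nice [Fintype V] [Fintype Φ] (χ : Φ → V → ℝ) (o : Φ → V) (R Λ : ℝ) (M : ℕ) (a : Φ → ℝ)
    (l : V → V → ℝ) (f : Φ) : Prop :=
  ∑ x, |χ f x| * l (o f) x ≤ R * a f ∧ M ≤ #{g | a f ≤ Λ * a g ∧ l (o f) (o g) ≤ R * a f}

/-- hereditarily sparse set -/
def Fo [Fintype E] [DecidableEq V] (s t : E → V) (X : Finset V) : Prop :=
  ∀ Z ⊆ X, Z.Nonempty → #Z + 2 ≤ ct s t univ Z

/-- cubic, large girth, large cyclic connectivity -/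
structure Cub [Fintype V] [Fintype E] [DecidableEq V] (s t : E → V) (c : ℕ) : Prop where
  deg : ∀ v, dg s t univ v = 3
  small : ∀ X : Finset V, X.Nonempty → #X + 2 ≤ c → #X + 2 ≤ ct s t univ X
  cut : ∀ X : Finset V, c ≤ ct s t univ X ∨ Fo s t X ∨ Fo s t Xᶜ

/-- closed neighbourhood along the edges of `A` -/
def nb [DecidableEq V] (s t : E → V) (A : Finset E) (X : Finset V) : Finset V :=
  X ∪ ({e ∈ A | s e ∈ X}.image t ∪ {e ∈ A | t e ∈ X}.image s)

/-- ball of radius `r` -/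
def kball [DecidableEq V] (s t : E → V) (A : Finset E) (X : Finset V) (r : ℕ) : Finset V :=
  (nb s t A)^[r] X

/-- the random walk operator of a cubic graph -/
noncomputable def Pw [Fintype E] [DecidableEq V] (s t : E → V) (y : V → ℝ) (v : V) : ℝ :=
  (∑ e with s e = v, y (t e) + ∑ e with t e = v, y (s e)) / 3

/-- every part of `Z` meets many edges inside `Z` -/
def Rich [Fintype E] [DecidableEq V] (s t : E → V) (ε : ℝ) (Z : Finset V) : Prop :=
  ∀ S ⊆ Z, (1 + ε) * #S ≤ #{e | (s e ∈ Z ∧ t e ∈ Z) ∧ (s e ∈ S ∨ t e ∈ S)}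

/-- the edge `e` joins `u` and `v` -/
def Jn (s t : E → V) (e : E) (u v : V) : Prop := (s e = u ∧ t e = v) ∨ (t e = u ∧ s e = v)

lemma Met.nonneg {l : V → V → ℝ} (h : Met l) (x y : V) : 0 ≤ l x y := by
  have h1 := h.tri x y x
  rw [h.self, h.symm y x] at h1
  linarith

lemma En_nonneg [Fintype E] (s t : E → V) (y : V → ℝ) : 0 ≤ En s t y :=
  sum_nonneg fun _ _ => sq_nonneg _

lemma ED_nonneg [Fintype V] {D : V × V → ℝ} (h : ∀ p, 0 ≤ D p) (y : V → ℝ) : 0 ≤ ED D y :=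
  sum_nonneg fun p _ => mul_nonneg (h p) (sq_nonneg _)

lemma En_ind1 [Fintype E] [DecidableEq V] (s t : E → V) (X : Finset V) :
    En s t (ind1 X) = (ct s t univ X : ℝ) := by
  unfold En ct ind1
  rw [card_filter, Nat.cast_sum]
  refine sum_congr rfl fun e _ => ?_
  by_cases h1 : s e ∈ X <;> by_cases h2 : t e ∈ X <;> simp [h1, h2]

lemma Pl_nonneg [Fintype E] (s t : E → V) {l : V → V → ℝ} (h : Met l) : 0 ≤ Pl s t l :=
  sum_nonneg fun _ _ => h.nonneg _ _

lemma mem_nb [DecidableEq V] {s t : E → V} {A : Finset E} {X : Finset V} {v : V} :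
    v ∈ nb s t A X ↔ v ∈ X ∨ ∃ e ∈ A, ∃ u ∈ X, Jn s t e u v := by
  simp only [nb, mem_union, mem_image, mem_filter, Jn]
  constructor
  · rintro (h | ⟨e, ⟨h1, h2⟩, h3⟩ | ⟨e, ⟨h1, h2⟩, h3⟩)
    · exact Or.inl h
    · exact Or.inr ⟨e, h1, _, h2, Or.inl ⟨rfl, h3⟩⟩
    · exact Or.inr ⟨e, h1, _, h2, Or.inr ⟨rfl, h3⟩⟩
  · rintro (h | ⟨e, h1, u, h2, ⟨h3, h4⟩ | ⟨h3, h4⟩⟩)
    · exact Or.inl h
    · exact Or.inr (Or.inl ⟨e, ⟨h1, h3 ▸ h2⟩, h4⟩)
    · exact Or.inr (Or.inr ⟨e, ⟨h1, h3 ▸ h2⟩, h4⟩)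

lemma kball_zero [DecidableEq V] (s t : E → V) (A : Finset E) (X : Finset V) :
    kball s t A X 0 = X := rfl

lemma kball_succ [DecidableEq V] (s t : E → V) (A : Finset E) (X : Finset V) (r : ℕ) :
    kball s t A X (r + 1) = nb s t A (kball s t A X r) := iterate_succ_apply' _ _ _

lemma Cub.mono [Fintype V] [Fintype E] [DecidableEq V] {s t : E → V} {c c' : ℕ} (H : Cub s t c)
    (h : c' ≤ c) : Cub s t c' :=
  ⟨H.deg, fun X h1 h2 => H.small X h1 (by omega), fun X => (H.cut X).imp (by omega) id⟩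

/-- a maximal separated subset -/
lemma exists_net [DecidableEq V] {l : V → V → ℝ} (hl : Met l) (U : Finset V) {r : ℝ}
    (hr : 0 ≤ r) : ∃ N ⊆ U, (∀ x ∈ N, ∀ y ∈ N, x ≠ y → r < l x y) ∧
      ∀ u ∈ U, ∃ x ∈ N, l u x ≤ r := by
  classical
  obtain ⟨p, hp⟩ : ∃ p : Finset V → Prop, ∀ N, p N ↔ ∀ x ∈ N, ∀ y ∈ N, x ≠ y → r < l x y :=
    ⟨_, fun _ => Iff.rfl⟩
  obtain ⟨N, hN, hmax⟩ := exists_max_image (U.powerset.filter p) card
    ⟨∅, mem_filter.2 ⟨empty_mem_powerset _, by simp [hp]⟩⟩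
  obtain ⟨h1, h2⟩ := mem_filter.1 hN
  rw [hp] at h2
  refine ⟨N, mem_powerset.1 h1, h2, fun u hu => ?_⟩
  by_contra hc
  push Not at hc
  have hu' : u ∉ N := fun h => by
    have := hc u h
    rw [hl.self] at this
    linarith
  have := hmax (insert u N) (mem_filter.2 ⟨mem_powerset.2 (insert_subset hu (mem_powerset.1 h1)),
    (hp _).2 fun x hx y hy hxy => by
      rcases mem_insert.1 hx with rfl | hx' <;> rcases mem_insert.1 hy with rfl | hy'
      · exact absurd rfl hxy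
      · exact hc y hy'
      · rw [hl.symm]; exact hc x hx'
      · exact h2 x hx' y hy' hxy⟩)
  rw [card_insert_of_notMem hu'] at this
  omega

end Pool.Agent.P.MP_e59a69_co
end

-- part Pool.Agent.P.MP_e59a69_co.KMM
section

/-! A mixed strategy against a compact convex set. -/

open Finset Function

namespace Pool.Agent.P.MP_e59a69_co

theorem kmm {n Ξ : Type} [Fintype n] (X : Set (n → ℝ)) (hne : X.Nonempty) (hc : IsCompact X)
    (hv : Convex ℝ X) (c : Ξ → ℝ) (g : Ξ → n → ℝ) (η : ℝ)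
    (h : ∀ x ∈ X, ∃ ξ, η < c ξ + ∑ i, g ξ i * x i) :
    ∃ (m : ℕ) (ξ : Fin m → Ξ) (lam : Fin m → ℝ), (∀ k, 0 ≤ lam k) ∧ ∑ k, lam k = 1 ∧
      ∀ x ∈ X, η < ∑ k, lam k * (c (ξ k) + ∑ i, g (ξ k) i * x i) := by
  classical
  have hcont : ∀ ξ, Continuous fun x : n → ℝ => c ξ + ∑ i, g ξ i * x i := fun ξ => by fun_prop
  obtain ⟨t, ht⟩ := hc.elim_finite_subcover (fun ξ => {x | η < c ξ + ∑ i, g ξ i * x i})
    (fun ξ => isOpen_lt continuous_const (hcont ξ))
    (fun x hx => Set.mem_iUnion.2 (h x hx))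
  let ξ : Fin t.card → Ξ := fun k => (t.equivFin.symm k : Ξ)
  let p : Fin t.card → (n → ℝ) → ℝ := fun k x => c (ξ k) + ∑ i, g (ξ k) i * x i
  have hp : ∀ k (x y : n → ℝ) (a b : ℝ), a + b = 1 →
      p k (a • x + b • y) = a * p k x + b * p k y := by
    intro k x y a b hab
    have e : ∑ i, g (ξ k) i * (a • x + b • y) i =
        a * ∑ i, g (ξ k) i * x i + b * ∑ i, g (ξ k) i * y i := by
      rw [Finset.mul_sum, Finset.mul_sum, ← Finset.sum_add_distrib]
      refine Finset.sum_congr rfl fun i _ => ?_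
      simp only [Pi.add_apply, Pi.smul_apply, smul_eq_mul]
      ring
    show c (ξ k) + ∑ i, g (ξ k) i * (a • x + b • y) i =
      a * (c (ξ k) + ∑ i, g (ξ k) i * x i) + b * (c (ξ k) + ∑ i, g (ξ k) i * y i)
    rw [e]
    linear_combination (-(c (ξ k))) * hab
  obtain ⟨lam, hlam, hx⟩ := Sion.exists_lt_iInf_of_lt_iInf_of_finite (X := X)
    (Y := stdSimplex ℝ (Fin t.card)) (f := fun x y => ∑ k, y k * p k x) hne hc
    (fun y _ => (Continuous.lowerSemicontinuous
      (continuous_finsetSum _ fun k _ => continuous_const.mul (hcont (ξ k)))).lowerSemicontinuousOn _)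
    (fun y _ => ConvexOn.quasiconvexOn ⟨hv, fun x _ x' _ a b _ _ hab => le_of_eq (by
      simp only [smul_eq_mul]
      rw [Finset.mul_sum, Finset.mul_sum, ← Finset.sum_add_distrib]
      exact Finset.sum_congr rfl fun k _ => by rw [hp k x x' a b hab]; ring)⟩)
    (convex_stdSimplex ℝ _)
    (fun x _ => (Continuous.upperSemicontinuous (by fun_prop)).upperSemicontinuousOn _)
    (fun x _ => ConcaveOn.quasiconcaveOn ⟨convex_stdSimplex ℝ _, fun y _ y' _ a b _ _ _ =>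
      le_of_eq (by
        simp only [smul_eq_mul]
        rw [Finset.mul_sum, Finset.mul_sum, ← Finset.sum_add_distrib]
        refine Finset.sum_congr rfl fun k _ => ?_
        simp only [Pi.add_apply, Pi.smul_apply, smul_eq_mul]
        ring)⟩)
    hv (s := Set.range fun k : Fin t.card => (Pi.single k 1 : Fin t.card → ℝ))
    (Set.finite_range _) (by rintro _ ⟨k, rfl⟩; exact single_mem_stdSimplex ℝ k) (t := η)
    (fun x hx => by
      obtain ⟨a, ha, hxa⟩ := Set.mem_iUnion₂.1 (ht hx)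
      refine ⟨_, ⟨t.equivFin ⟨a, ha⟩, rfl⟩, ?_⟩
      beta_reduce
      rw [Finset.sum_eq_single (t.equivFin ⟨a, ha⟩) (fun b _ hb => by
        rw [Pi.single_eq_of_ne hb, zero_mul]) (fun h0 => absurd (Finset.mem_univ _) h0),
        Pi.single_eq_same, one_mul]
      have e : ξ (t.equivFin ⟨a, ha⟩) = a := by simp only [ξ, Equiv.symm_apply_apply]
      show η < c (ξ _) + ∑ i, g (ξ _) i * x i
      rw [e]
      exact hxa)
  exact ⟨t.card, ξ, lam, hlam.1, hlam.2, hx⟩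

end Pool.Agent.P.MP_e59a69_co
end

-- part Pool.Agent.P.MP_e59a69_co.KDual
section

/-! Shortcuts dominated on cuts, or a metric with potentials. -/

open Finset Function

namespace Pool.Agent.P.MP_e59a69_co

lemma kdual_cs {ι : Type} [Fintype ι] (b d : ι → ℝ) (hb : ∀ k, 0 ≤ b k) :
    ((∑ k, b k * d k) / √(∑ k, b k)) ^ 2 ≤ ∑ k, b k * d k ^ 2 := by
  have hM : 0 ≤ ∑ k, b k := sum_nonneg fun k _ => hb k
  have h2 : 0 ≤ ∑ k, b k * d k ^ 2 := sum_nonneg fun k _ => mul_nonneg (hb k) (sq_nonneg _)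
  rw [div_pow, Real.sq_sqrt hM]
  rcases hM.eq_or_lt with h | h
  · rw [← h, div_zero]; exact h2
  · rw [div_le_iff₀ h, mul_comm]
    exact sum_sq_le_sum_mul_sum_of_sq_le_mul _ (fun k _ => hb k)
      (fun k _ => mul_nonneg (hb k) (sq_nonneg _)) fun k _ => le_of_eq (by ring)

lemma kdual_sqrt {ι : Type} [Fintype ι] (b d : ι → ℝ) (hb : ∀ k, 0 ≤ b k) :
    √(∑ k, b k) * ((∑ k, b k * d k) / √(∑ k, b k)) = ∑ k, b k * d k := by
  have hM : 0 ≤ ∑ k, b k := sum_nonneg fun k _ => hb k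
  rcases hM.eq_or_lt with h | h
  · have h0 := (sum_eq_zero_iff_of_nonneg fun k _ => hb k).1 h.symm
    have : ∑ k, b k * d k = 0 := sum_eq_zero fun k hk => by rw [h0 k hk, zero_mul]
    rw [this, zero_div, mul_zero]
  · have := Real.sqrt_pos.2 h
    field_simp

lemma kdual_amgm {e B n : ℝ} (hB : 0 ≤ B) (hn : 0 ≤ n) (h : e ^ 2 ≤ B * n) : 2 * e ≤ B + n := by
  refine le_of_sq_le_sq ?_ (add_nonneg hB hn)
  nlinarith [sq_nonneg (B - n)]

lemma kdual_r {V E Φ : Type} [Fintype V] [Fintype E] (s t : E → V) (χ : Φ → V → ℝ) {B : ℝ}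
    (hB : 0 < B) (hχ : ∀ f y, evl (χ f) y ^ 2 ≤ B * En s t y) {D : V × V → ℝ}
    (hD : ∀ p, 0 ≤ D p) : ∃ r : Φ → ℝ, (∀ f, 0 ≤ r f) ∧
      (∀ f y, evl (χ f) y ^ 2 ≤ r f * (En s t y + ED D y)) ∧
      ∀ f ε, 0 < ε → ∃ w, r f - ε < 2 * evl (χ f) w - En s t w - ED D w := by
  have hb : ∀ f, BddAbove (Set.range fun w => 2 * evl (χ f) w - En s t w - ED D w) := by
    intro f
    refine ⟨B, ?_⟩
    rintro _ ⟨w, rfl⟩
    have h1 := kdual_amgm hB.le (En_nonneg s t w) (hχ f w)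
    have h2 := ED_nonneg hD w
    show 2 * evl (χ f) w - En s t w - ED D w ≤ B
    linarith
  have hs : ∀ f y (τ : ℝ), 2 * τ * evl (χ f) y - τ ^ 2 * (En s t y + ED D y) ≤
      ⨆ w, (2 * evl (χ f) w - En s t w - ED D w) := by
    intro f y τ
    refine le_trans (le_of_eq ?_) (le_ciSup (hb f) fun x => τ * y x)
    have e1 : evl (χ f) (fun x => τ * y x) = τ * evl (χ f) y := by
      simp only [evl, mul_sum]
      exact sum_congr rfl fun _ _ => by ring
    have e2 : En s t (fun x => τ * y x) = τ ^ 2 * En s t y := by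
      simp only [En, mul_sum]
      exact sum_congr rfl fun _ _ => by ring
    have e3 : ED D (fun x => τ * y x) = τ ^ 2 * ED D y := by
      simp only [ED, mul_sum]
      exact sum_congr rfl fun _ _ => by ring
    rw [e1, e2, e3]
    ring
  refine ⟨fun f => ⨆ w, (2 * evl (χ f) w - En s t w - ED D w), fun f => ?_, fun f y => ?_,
    fun f ε hε => exists_lt_of_lt_ciSup (by linarith)⟩
  · have := hs f 0 0
    simpa using this
  · have h1 := En_nonneg s t y
    have h2 := ED_nonneg hD y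
    rcases (add_nonneg h1 h2).eq_or_lt with h | h
    · have h3 : En s t y = 0 := by linarith
      have h4 := hχ f y
      rw [h3, mul_zero] at h4
      rw [← h, mul_zero]
      exact h4
    · have h3 := hs f y (evl (χ f) y / (En s t y + ED D y))
      rw [← div_le_iff₀ h]
      refine le_trans (le_of_eq ?_) h3
      field_simp
      ring

lemma kdual_merge {V E Φ ι : Type} [Fintype V] [Fintype E] [Fintype Φ] [Fintype ι] [DecidableEq V]
    (s t : E → V) (χ : Φ → V → ℝ) {B η : ℝ} (hB : 0 < B) (hη : 0 < η)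
    (hχ : ∀ f y, evl (χ f) y ^ 2 ≤ B * En s t y) (b : ι → Φ → ℝ) (hb : ∀ k f, 0 ≤ b k f)
    (hb1 : ∑ f, ∑ k, b k f ≤ 1) (W : ι → Φ → V → ℝ) (ν : ι → ℝ) (hν : ∀ k, 0 ≤ ν k)
    (S : ι → Finset V) {C : ℝ}
    (hC : C = ∑ k, (∑ f, b k f * (2 * evl (χ f) (W k f) - En s t (W k f)) -
      ν k * (ct s t univ (S k) : ℝ))) (h0 : η < C)
    (h1 : ∀ x x', η < C + ((Fintype.card E : ℝ) + 1) * ∑ k, (ν k * (ind1 (S k) x - ind1 (S k) x') ^ 2
      - ∑ f, b k f * (W k f x - W k f x') ^ 2)) :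
    ∃ (z : Φ → V → ℝ) (l : V → V → ℝ), Met l ∧ Pl s t l ≤ 2 * B ∧
      (∀ x x', ∑ f, (z f x - z f x') ^ 2 ≤ l x x') ∧ ∑ f, evl (χ f) (z f) ^ 2 ≤ 4 * B ^ 2 ∧
      η / 2 ≤ ∑ f, √(∑ k, b k f) * evl (χ f) (z f) := by
  obtain ⟨z, hz⟩ : ∃ z : Φ → V → ℝ, ∀ f x, z f x = (∑ k, b k f * W k f x) / √(∑ k, b k f) :=
    ⟨_, fun _ _ => rfl⟩
  obtain ⟨l0, hl0⟩ : ∃ l0 : V → V → ℝ, ∀ x x',
      l0 x x' = ∑ k, ν k * (ind1 (S k) x - ind1 (S k) x') ^ 2 := ⟨_, fun _ _ => rfl⟩
  have hN : (0 : ℝ) < (Fintype.card E : ℝ) + 1 := by positivity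
  have hcs : ∀ f x x', (z f x - z f x') ^ 2 ≤ ∑ k, b k f * (W k f x - W k f x') ^ 2 := by
    intro f x x'
    refine le_trans (le_of_eq ?_) (kdual_cs (fun k => b k f) _ fun k => hb k f)
    rw [hz, hz, ← sub_div, ← sum_sub_distrib]
    simp only [mul_sub]
  have hev : ∀ f, √(∑ k, b k f) * evl (χ f) (z f) = ∑ k, b k f * evl (χ f) (W k f) := by
    intro f
    rw [← kdual_sqrt (fun k => b k f) (fun k => evl (χ f) (W k f)) fun k => hb k f]
    congr 1
    simp only [evl, hz, mul_sum, sum_div]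
    rw [sum_comm]
    exact sum_congr rfl fun _ _ => sum_congr rfl fun _ _ => by ring
  have hEn : ∀ f, En s t (z f) ≤ ∑ k, b k f * En s t (W k f) := by
    intro f
    simp only [En, mul_sum]
    rw [sum_comm]
    exact sum_le_sum fun e _ => hcs f _ _
  have hP : Pl s t l0 = ∑ k, ν k * (ct s t univ (S k) : ℝ) := by
    simp only [Pl, hl0, ← En_ind1, En, mul_sum]
    rw [sum_comm]
  have hP0 : 0 ≤ Pl s t l0 := by
    rw [hP]
    exact sum_nonneg fun k _ => mul_nonneg (hν k) (Nat.cast_nonneg _)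
  obtain ⟨F, hF⟩ : ∃ F, F = ∑ f, √(∑ k, b k f) * evl (χ f) (z f) := ⟨_, rfl⟩
  obtain ⟨Ez, hEz⟩ : ∃ Ez, Ez = ∑ f, En s t (z f) := ⟨_, rfl⟩
  have hEz0 : 0 ≤ Ez := hEz ▸ sum_nonneg fun f _ => En_nonneg s t _
  have hCle : C ≤ 2 * F - Ez - Pl s t l0 := by
    rw [hC, sum_sub_distrib, hP, sum_comm, hF, hEz, mul_sum, ← sum_sub_distrib]
    refine sub_le_sub_right (sum_le_sum fun f _ => ?_) _
    have e : ∑ k, b k f * (2 * evl (χ f) (W k f) - En s t (W k f)) =
        2 * ∑ k, b k f * evl (χ f) (W k f) - ∑ k, b k f * En s t (W k f) := by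
      rw [mul_sum, ← sum_sub_distrib]
      exact sum_congr rfl fun _ _ => by ring
    rw [e, hev]
    linarith [hEn f]
  have hG : ∑ f, evl (χ f) (z f) ^ 2 ≤ B * Ez := by
    rw [hEz, mul_sum]
    exact sum_le_sum fun f _ => hχ f _
  have hF2 : F ^ 2 ≤ B * Ez := by
    have h2 : F ^ 2 ≤ (∑ f, ∑ k, b k f) * ∑ f, evl (χ f) (z f) ^ 2 := by
      rw [hF]
      refine sum_sq_le_sum_mul_sum_of_sq_le_mul _ (fun f _ => sum_nonneg fun k _ => hb k f)
        (fun f _ => sq_nonneg _) fun f _ => le_of_eq ?_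
      rw [mul_pow, Real.sq_sqrt (sum_nonneg fun k _ => hb k f)]
    have h3 : 0 ≤ ∑ f, evl (χ f) (z f) ^ 2 := sum_nonneg fun f _ => sq_nonneg _
    nlinarith
  have hFB := kdual_amgm hB.le hEz0 hF2
  have hE4 : Ez ≤ 4 * B := by
    by_contra hc
    push Not at hc
    have h2 : Ez < 2 * F := by linarith
    nlinarith
  refine ⟨z, fun x x' => l0 x x' + if x = x' then 0 else B / ((Fintype.card E : ℝ) + 1),
    ⟨fun x => ?_, fun x y => ?_, fun x y u => ?_⟩, ?_, fun x x' => ?_, ?_, ?_⟩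
  · simp [hl0]
  · have e : l0 x y = l0 y x := by
      rw [hl0, hl0]
      exact sum_congr rfl fun _ _ => by ring
    rw [e]
    simp only [eq_comm]
  · have e : l0 x u ≤ l0 x y + l0 y u := by
      rw [hl0, hl0, hl0, ← sum_add_distrib]
      refine sum_le_sum fun k _ => ?_
      rw [← mul_add]
      refine mul_le_mul_of_nonneg_left ?_ (hν k)
      unfold ind1
      split_ifs <;> norm_num
    have hq : 0 ≤ B / ((Fintype.card E : ℝ) + 1) := by positivity
    split_ifs with h2 h3 h4 h5 h6 h7 h8 <;> first | linarith | exact absurd (h6.trans h7) h2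
  · have e : Pl s t (fun x x' => l0 x x' + if x = x' then 0 else B / ((Fintype.card E : ℝ) + 1))
        ≤ Pl s t l0 + ∑ _e : E, B / ((Fintype.card E : ℝ) + 1) := by
      unfold Pl
      rw [← sum_add_distrib]
      refine sum_le_sum fun e _ => add_le_add le_rfl ?_
      split_ifs
      · positivity
      · exact le_rfl
    have e2 : ∑ _e : E, B / ((Fintype.card E : ℝ) + 1) ≤ B := by
      rw [sum_const, card_univ, nsmul_eq_mul, ← mul_div_assoc, div_le_iff₀ hN]
      nlinarith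
    linarith
  · show _ ≤ l0 x x' + _
    split_ifs with h2
    · subst h2
      simp [hl0]
    · have h3 := h1 x x'
      rw [sum_sub_distrib, ← hl0, sum_comm] at h3
      have h4 : ∑ f, (z f x - z f x') ^ 2 ≤ ∑ f, ∑ k, b k f * (W k f x - W k f x') ^ 2 :=
        sum_le_sum fun f _ => hcs f x x'
      have h5 : ∑ f, ∑ k, b k f * (W k f x - W k f x') ^ 2 - l0 x x' ≤
          B / ((Fintype.card E : ℝ) + 1) := by
        rw [le_div_iff₀ hN]
        nlinarith
      linarith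
  · nlinarith
  · rw [← hF]
    linarith

theorem kdual {V E Φ Y : Type} [Fintype V] [Fintype E] [Fintype Φ] [Fintype Y] [DecidableEq V]
    (s t : E → V) (χ : Φ → V → ℝ) (B η : ℝ) (hB : 0 < B) (hη : 0 < η)
    (hχ : ∀ f y, evl (χ f) y ^ 2 ≤ B * En s t y) (a : Y → Φ → ℝ) (ha : ∀ y f, 0 ≤ a y f)
    (ha1 : ∀ y, ∑ f, a y f ≤ 1) :
    (∃ (D : V × V → ℝ) (r : Φ → ℝ), Dom s t D ∧ (∀ f, 0 ≤ r f) ∧
      (∀ f y, evl (χ f) y ^ 2 ≤ r f * (En s t y + ED D y)) ∧ ∀ y, ∑ f, a y f * r f ≤ η) ∨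
    ∃ (lam : Y → ℝ) (z : Φ → V → ℝ) (l : V → V → ℝ), (∀ y, 0 ≤ lam y) ∧ ∑ y, lam y ≤ 1 ∧
      Met l ∧ Pl s t l ≤ 2 * B ∧ (∀ x x', ∑ f, (z f x - z f x') ^ 2 ≤ l x x') ∧
      ∑ f, evl (χ f) (z f) ^ 2 ≤ 4 * B ^ 2 ∧
      η / 2 ≤ ∑ f, √(mix lam a f) * evl (χ f) (z f) := by
  classical
  refine or_iff_not_imp_left.2 fun hL => ?_
  push Not at hL
  obtain ⟨a', ha0, ha'⟩ : ∃ a' : Option Y → Φ → ℝ, (∀ f, a' none f = 0) ∧
      ∀ y f, a' (some y) f = a y f :=
    ⟨fun o f => o.elim 0 fun y => a y f, fun _ => rfl, fun _ _ => rfl⟩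
  have hN : (0 : ℝ) ≤ (Fintype.card E : ℝ) + 1 := by positivity
  have hg : ∀ (μ : ℝ) (X : Finset V) (u : Φ → ℝ) (w : Φ → V → ℝ) (D : V × V → ℝ),
      ∑ p : V × V, (μ * (ind1 X p.1 - ind1 X p.2) ^ 2 - ∑ f, u f * (w f p.1 - w f p.2) ^ 2) * D p =
        μ * ED D (ind1 X) - ∑ f, u f * ED D (w f) := by
    intro μ X u w D
    simp only [ED, sub_mul, sum_sub_distrib, mul_sum, sum_mul]
    rw [sum_comm (s := (univ : Finset Φ))]
    congr 1
    · exact sum_congr rfl fun _ _ => by ring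
    · exact sum_congr rfl fun _ _ => sum_congr rfl fun _ _ => by ring
  obtain ⟨m, ξ, lam, hl0, hl1, hl⟩ := kmm (Ξ := (Option Y × (Φ → V → ℝ)) × (Finset V × ℝ))
    (Set.Icc (0 : V × V → ℝ) fun _ => (Fintype.card E : ℝ) + 1) ⟨0, le_rfl, fun _ => hN⟩
    isCompact_Icc (convex_Icc _ _)
    (fun ξ => ∑ f, a' ξ.1.1 f * (2 * evl (χ f) (ξ.1.2 f) - En s t (ξ.1.2 f)) -
      |ξ.2.2| * (ct s t univ ξ.2.1 : ℝ))
    (fun ξ p => |ξ.2.2| * (ind1 ξ.2.1 p.1 - ind1 ξ.2.1 p.2) ^ 2 -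
      ∑ f, a' ξ.1.1 f * (ξ.1.2 f p.1 - ξ.1.2 f p.2) ^ 2) η (by
      intro D hD
      have hD0 : ∀ p, 0 ≤ D p := hD.1
      simp only [hg]
      by_cases hd : Dom s t D
      · obtain ⟨r, h1, h2, h3⟩ := kdual_r s t χ hB hχ hD0
        obtain ⟨y, hy⟩ := hL D r hd h1 h2
        have hε : 0 < (∑ f, a y f * r f - η) / 2 := by linarith
        choose w hw using fun f => h3 f _ hε
        refine ⟨((some y, w), (∅, 0)), ?_⟩
        simp only [abs_zero, zero_mul, sub_zero, zero_sub, ha']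
        have h4 : ∑ f, a y f * (r f - (∑ f, a y f * r f - η) / 2) ≤
            ∑ f, a y f * (2 * evl (χ f) (w f) - En s t (w f)) + -∑ f, a y f * ED D (w f) := by
          rw [← sub_eq_add_neg, ← sum_sub_distrib]
          refine sum_le_sum fun f _ => ?_
          rw [← mul_sub]
          exact mul_le_mul_of_nonneg_left (hw f).le (ha y f)
        simp only [mul_sub (a y _) (r _), sum_sub_distrib, ← sum_mul] at h4
        have h5 := mul_le_mul_of_nonneg_right (ha1 y) hε.le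
        linarith
      · simp only [Dom, not_and, not_forall, not_le] at hd
        obtain ⟨X, hX⟩ := hd hD0
        have hδ : 0 < ED D (ind1 X) - (ct s t univ X : ℝ) := by linarith
        refine ⟨((none, 0), (X, (η + 1) / (ED D (ind1 X) - (ct s t univ X : ℝ)))), ?_⟩
        simp only [ha0, zero_mul, sum_const_zero, zero_sub, sub_zero]
        rw [abs_of_pos (by positivity)]
        have e : (η + 1) / (ED D (ind1 X) - (ct s t univ X : ℝ)) *
            (ED D (ind1 X) - (ct s t univ X : ℝ)) = η + 1 := by field_simp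
        rw [mul_sub] at e
        linarith)
  have ha0' : ∀ o f, 0 ≤ a' o f := by
    rintro (_ | y) f
    · exact (ha0 f).ge
    · rw [ha']; exact ha y f
  have ha1' : ∀ o, ∑ f, a' o f ≤ 1 := by
    rintro (_ | y)
    · simp [ha0]
    · simpa only [ha'] using ha1 y
  have hmix : ∀ f, mix (fun y => ∑ k, if (ξ k).1.1 = some y then lam k else 0) a f =
      ∑ k, lam k * a' (ξ k).1.1 f := by
    intro f
    simp only [mix, sum_mul]
    rw [sum_comm]
    refine sum_congr rfl fun k _ => ?_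
    rcases (ξ k).1.1 with _ | y
    · simp [ha0]
    · simp [ha']
  obtain ⟨z, l, h1, h2, h3, h4, h5⟩ := kdual_merge s t χ hB hη hχ
    (fun k f => lam k * a' (ξ k).1.1 f) (fun k f => mul_nonneg (hl0 k) (ha0' _ f)) (by
      rw [sum_comm, ← hl1]
      refine sum_le_sum fun k _ => ?_
      rw [← mul_sum]
      exact mul_le_of_le_one_right (hl0 k) (ha1' _))
    (fun k => (ξ k).1.2) (fun k => lam k * |(ξ k).2.2|)
    (fun k => mul_nonneg (hl0 k) (abs_nonneg _)) (fun k => (ξ k).2.1) rfl (by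
      refine (hl 0 ⟨le_rfl, fun _ => hN⟩).trans_le (le_of_eq (sum_congr rfl fun k _ => ?_))
      simp only [Pi.zero_apply, mul_zero, sum_const_zero, add_zero, mul_sub, mul_sum, mul_assoc])
    (by
      intro x x'
      have h6 := hl (Pi.single (x, x') ((Fintype.card E : ℝ) + 1)) ⟨fun p => by
        by_cases hp : p = (x, x') <;> simp [hp, hN], fun p => by
        by_cases hp : p = (x, x') <;> simp [hp, hN]⟩
      refine h6.trans_le (le_of_eq ?_)
      rw [mul_sum, ← sum_add_distrib]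
      refine sum_congr rfl fun k _ => ?_
      simp only [Pi.single_apply, mul_ite, mul_zero, sum_ite_eq', mem_univ, if_true, mul_assoc,
        ← mul_sum]
      ring)
  refine ⟨fun y => ∑ k, if (ξ k).1.1 = some y then lam k else 0, z, l, fun y => ?_, ?_, h1, h2,
    h3, h4, ?_⟩
  · exact sum_nonneg fun k _ => by split_ifs; exacts [hl0 k, le_rfl]
  · rw [sum_comm, ← hl1]
    refine sum_le_sum fun k _ => ?_
    rcases (ξ k).1.1 with _ | y
    · simp [hl0]
    · simp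
  · simpa only [hmix] using h5

end Pool.Agent.P.MP_e59a69_co
end

-- part Pool.Agent.P.MP_e59a69_co.KFlat
section

/-! Collapsing intervals; the coarea inequality; a trace bound. -/

open Finset Function

namespace Pool.Agent.P.MP_e59a69_co

lemma KFlat_clamp (a b : ℝ) {u v : ℝ} (h : u ≤ v) :
    max a (min u b) ≤ max a (min v b) ∧ max a (min v b) - max a (min u b) ≤ v - u := by
  simp only [max_def, min_def]
  split_ifs <;> constructor <;> linarith

lemma KFlat_aux {ι : Type} (J : Finset ι) (α β : ι → ℝ) (h : ∀ i ∈ J, α i ≤ β i) (r1 r2 : ℝ)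
    (hr : r1 ≤ r2) :
    ∃ (ψ : ℝ → ℝ) (top : ℝ), (∀ x y, x ≤ y → ψ x ≤ ψ y ∧ ψ y - ψ x ≤ y - x) ∧
      (∀ x, x ≤ r1 → ψ x = 0) ∧ (∀ x, r2 ≤ x → ψ x = top) ∧ top ≤ r2 - r1 ∧
      r2 - r1 - ∑ i ∈ J, (β i - α i) ≤ top ∧ ∀ i ∈ J, ψ (α i) = ψ (β i) := by
  classical
  induction J using Finset.induction_on with
  | empty =>
    refine ⟨fun x => max r1 (min x r2) - r1, r2 - r1, fun x y hxy => ?_, fun x hx => ?_,
      fun x hx => ?_, le_rfl, by simp, by simp⟩
    · obtain ⟨h1, h2⟩ := KFlat_clamp r1 r2 hxy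
      constructor <;> linarith
    · beta_reduce
      rw [max_eq_left ((min_le_left _ _).trans hx), sub_self]
    · beta_reduce
      rw [min_eq_right hx, max_eq_right hr]
  | insert j J hj ih =>
    obtain ⟨ψ, top, h1, h2, h3, h4, h5, h6⟩ := ih fun i hi => h i (mem_insert_of_mem hi)
    obtain ⟨hab, hab'⟩ := h1 _ _ (h j (mem_insert_self j J))
    have ha : 0 ≤ ψ (α j) := (h2 _ (min_le_right (α j) r1)).ge.trans (h1 _ _ (min_le_left _ _)).1
    refine ⟨fun x => ψ x - (max (ψ (α j)) (min (ψ x) (ψ (β j))) - ψ (α j)),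
      top - (max (ψ (α j)) (min top (ψ (β j))) - ψ (α j)), fun x y hxy => ?_, fun x hx => ?_,
      fun x hx => by simp only [h3 x hx], ?_, ?_, fun i hi => ?_⟩
    · obtain ⟨a1, a2⟩ := h1 x y hxy
      obtain ⟨a3, a4⟩ := KFlat_clamp (ψ (α j)) (ψ (β j)) a1
      constructor <;> linarith
    · beta_reduce
      rw [h2 x hx, max_eq_left ((min_le_left _ _).trans ha), sub_self, sub_self]
    · linarith [le_max_left (ψ (α j)) (min top (ψ (β j)))]
    · rw [sum_insert hj]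
      linarith [max_le hab (min_le_right top (ψ (β j)))]
    · beta_reduce
      rcases mem_insert.1 hi with rfl | hi
      · rw [min_self, min_eq_left hab, max_self, max_eq_right hab]
        ring
      · rw [h6 i hi]

theorem kflat {ι : Type} (J : Finset ι) (α β : ι → ℝ) (h : ∀ i ∈ J, α i ≤ β i) (r1 r2 : ℝ)
    (hr : r1 ≤ r2) :
    ∃ (ψ : ℝ → ℝ) (top : ℝ), Monotone ψ ∧ (∀ x y, |ψ x - ψ y| ≤ |x - y|) ∧
      (∀ x, x ≤ r1 → ψ x = 0) ∧ (∀ x, r2 ≤ x → ψ x = top) ∧ top ≤ r2 - r1 ∧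
      r2 - r1 - ∑ i ∈ J, (β i - α i) ≤ top ∧ ∀ i ∈ J, ψ (α i) = ψ (β i) := by
  obtain ⟨ψ, top, h1, h2⟩ := KFlat_aux J α β h r1 r2 hr
  refine ⟨ψ, top, fun x y hxy => (h1 x y hxy).1, fun x y => ?_, h2⟩
  rcases le_total x y with hxy | hxy
  · obtain ⟨a1, a2⟩ := h1 x y hxy
    rw [abs_of_nonpos (by linarith), abs_of_nonpos (by linarith)]
    linarith
  · obtain ⟨a1, a2⟩ := h1 y x hxy
    rwa [abs_of_nonneg (by linarith), abs_of_nonneg (by linarith)]

open Classical in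
theorem kcoarea {V E : Type} [Fintype V] [DecidableEq V] (s t : E → V) (A : Finset E)
    (φ : V → ℝ) (top κ : ℝ) (h0 : 0 ≤ top) (h1 : ∀ v, 0 ≤ φ v ∧ φ v ≤ top)
    (h : ∀ τ, 0 ≤ τ → τ < top → κ ≤ (ct s t A {v | φ v ≤ τ} : ℝ)) :
    κ * top ≤ ∑ e ∈ A, |φ (s e) - φ (t e)| := by
  have hi : ∀ a b c : ℝ, MeasureTheory.Integrable ((Set.Ico a b).indicator fun _ : ℝ => c) :=
    fun a b c => (MeasureTheory.integrableOn_const (by simp)).integrable_indicator measurableSet_Ico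
  have hv : ∀ a b c : ℝ, a ≤ b → ∫ τ, (Set.Ico a b).indicator (fun _ : ℝ => c) τ = (b - a) * c :=
    fun a b c hab => by
      rw [MeasureTheory.integral_indicator_const c measurableSet_Ico,
        Real.volume_real_Ico_of_le hab, smul_eq_mul]
  have key := MeasureTheory.integral_mono (hi 0 top κ)
    (MeasureTheory.integrable_finsetSum A fun e _ =>
      hi (min (φ (s e)) (φ (t e))) (max (φ (s e)) (φ (t e))) 1) fun τ => by
      by_cases hτ : τ ∈ Set.Ico 0 top
      · rw [Set.indicator_of_mem hτ]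
        refine (h τ hτ.1 hτ.2).trans ?_
        rw [ct, card_filter, Nat.cast_sum]
        refine sum_le_sum fun e _ => ?_
        split_ifs with he
        · rw [Nat.cast_zero]
          exact Set.indicator_nonneg (fun _ _ => zero_le_one) _
        · rw [Set.indicator_of_mem, Nat.cast_one]
          simp only [mem_filter, mem_univ, true_and] at he
          rw [Set.mem_Ico, min_le_iff, lt_max_iff, ← not_le, ← not_le]
          tauto
      · rw [Set.indicator_of_notMem hτ]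
        exact sum_nonneg fun e _ => Set.indicator_nonneg (fun _ _ => zero_le_one) _
  rw [hv _ _ _ h0, MeasureTheory.integral_finsetSum _ fun e _ => hi _ _ _, sub_zero,
    mul_comm] at key
  refine key.trans (le_of_eq (sum_congr rfl fun e _ => ?_))
  rw [hv _ _ _ min_le_max, mul_one, max_sub_min_eq_abs']

theorem ktrace {Φ K : Type} [Fintype Φ] (Ψ : Finset Φ) (S : Finset K) (z : K → Φ → ℝ)
    (v : Φ → Φ → ℝ) (hv : ∀ f ∈ Ψ, v f ∈ Submodule.span ℝ (z '' (S : Set K))) :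
    (∑ f ∈ Ψ, v f f) ^ 2 ≤ #S * ∑ f ∈ Ψ, ∑ g, v f g ^ 2 := by
  classical
  let L : (Φ → ℝ) ≃ₗ[ℝ] EuclideanSpace ℝ Φ := (WithLp.linearEquiv 2 ℝ (Φ → ℝ)).symm
  let W := (Submodule.span ℝ (z '' (S : Set K))).map L.toLinearMap
  have hW : Module.finrank ℝ W ≤ #S := by
    rw [LinearEquiv.finrank_map_eq, ← coe_image]
    exact (finrank_span_finset_le_card _).trans card_image_le
  let b := stdOrthonormalBasis ℝ W
  let c : Φ → Fin (Module.finrank ℝ W) → ℝ := fun f k => inner ℝ (b k : EuclideanSpace ℝ Φ) (L (v f))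
  have h1 : ∀ f ∈ Ψ, v f f = ∑ k, c f k * (b k : EuclideanSpace ℝ Φ) f := fun f hf => by
    have e := congrArg (fun w : W => (w : EuclideanSpace ℝ Φ) f)
      (b.sum_repr' ⟨L (v f), Submodule.mem_map_of_mem (hv f hf)⟩)
    simp only [Submodule.coe_sum, Submodule.coe_smul, WithLp.ofLp_sum, WithLp.ofLp_smul,
      Finset.sum_apply, Pi.smul_apply, smul_eq_mul] at e
    exact e.symm
  have h2 : ∀ f ∈ Ψ, ∑ k, c f k ^ 2 = ∑ g, v f g ^ 2 := fun f hf =>
    (b.sum_sq_inner_right ⟨L (v f), Submodule.mem_map_of_mem (hv f hf)⟩).trans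
      (EuclideanSpace.real_norm_sq_eq (L (v f)))
  have h3 : ∀ k, ∑ f ∈ Ψ, (b k : EuclideanSpace ℝ Φ) f ^ 2 ≤ 1 := fun k => by
    refine (sum_le_univ_sum_of_nonneg fun f => sq_nonneg _).trans (le_of_eq ?_)
    rw [← EuclideanSpace.real_norm_sq_eq, ← Submodule.coe_norm, b.norm_eq_one, one_pow]
  have h4 := sum_mul_sq_le_sq_mul_sq (Ψ ×ˢ univ) (fun p => c p.1 p.2)
    fun p => (b p.2 : EuclideanSpace ℝ Φ) p.1
  rw [sum_product, sum_product, sum_product_right, ← sum_congr rfl h1, sum_congr rfl h2,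
    mul_comm] at h4
  refine h4.trans (mul_le_mul_of_nonneg_right ((sum_le_sum fun k _ => h3 k).trans ?_)
    (sum_nonneg fun f _ => sum_nonneg fun g _ => sq_nonneg _))
  simpa using hW

end Pool.Agent.P.MP_e59a69_co
end

-- part Pool.Agent.P.MP_e59a69_co.KHull
section

/-! Separated balls at many scales need a large total length. -/

open Finset Function

namespace Pool.Agent.P.MP_e59a69_co

lemma khull_geo (b : ℕ → ℝ) (T : ℝ) (hb : ∀ i, 2 * b (i + 1) ≤ b i) (n : ℕ) :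
    ∑ i ∈ range n, (if b i ≤ T then b i else 0) + 2 * min (b n) T ≤ 2 * T := by
  induction n with
  | zero => simp
  | succ n ih =>
    rw [sum_range_succ]
    have h1 := min_le_left (b (n + 1)) T
    have h2 := min_le_right (b (n + 1)) T
    have h3 := hb n
    split_ifs with h
    · rw [min_eq_left h] at ih; linarith
    · rw [min_eq_right (not_le.1 h).le] at ih; linarith

lemma khull_last (D : ℕ → ℝ) (L : ℝ) (hL : 0 ≤ L) (h2 : ∀ i, D i ≤ L) (n : ℕ)
    (h3 : ∀ i j, i < j → j < n → D j ≠ 0 → D i = 0) : ∑ i ∈ range n, D i ≤ L := by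
  induction n with
  | zero => simpa using hL
  | succ n ih =>
    rw [sum_range_succ]
    by_cases h : D n = 0
    · rw [h, add_zero]
      exact ih fun i j a b => h3 i j a (by omega)
    · rw [sum_eq_zero fun i hi => h3 i n (mem_range.1 hi) (by omega) h, zero_add]
      exact h2 n

lemma khull_sum (D b : ℕ → ℝ) (L : ℝ) (n : ℕ) (hL : 0 ≤ L) (hb0 : ∀ i, 0 ≤ b i)
    (hb : ∀ i, 2 * b (i + 1) ≤ b i) (h1 : ∀ i, D i ≤ b i) (h2 : ∀ i, D i ≤ L)
    (h3 : ∀ i j, i < j → j < n → L ≤ 4 * b j → D j ≠ 0 → D i = 0) :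
    ∑ i ∈ range n, D i ≤ 3 / 2 * L := by
  have a1 := khull_geo b (L / 4) hb n
  have a2 : 0 ≤ min (b n) (L / 4) := le_min (hb0 n) (by linarith)
  have a3 := khull_last (fun i => if b i ≤ L / 4 then 0 else D i) L hL
    (fun i => by split_ifs; exacts [hL, h2 i]) n fun i j hij hj h => by
      by_cases h4 : b j ≤ L / 4
      · exact absurd (if_pos h4) h
      · rw [if_neg h4] at h
        rw [h3 i j hij hj (by linarith [not_le.1 h4]) h, ite_self]
  have a4 : ∑ i ∈ range n, D i ≤ ∑ i ∈ range n, (if b i ≤ L / 4 then b i else 0) +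
      ∑ i ∈ range n, (if b i ≤ L / 4 then 0 else D i) := by
    rw [← sum_add_distrib]
    refine sum_le_sum fun i _ => ?_
    have := h1 i
    split_ifs <;> linarith
  linarith

lemma khull_one {α : Type} (S : Finset α) (p : α → Prop) [DecidablePred p] (d : α → ℝ) (B : ℝ)
    (hB : 0 ≤ B) (hd : ∀ x, d x ≤ B) (h : ∀ x ∈ S, ∀ y ∈ S, p x → p y → x = y) :
    ∑ x ∈ S, (if p x then d x else 0) ≤ B := by
  rw [← sum_filter]
  have h1 : #(S.filter p) ≤ 1 := card_le_one.2 fun x hx y hy =>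
    h x (mem_filter.1 hx).1 y (mem_filter.1 hy).1 (mem_filter.1 hx).2 (mem_filter.1 hy).2
  have h2 := sum_le_card_nsmul (S.filter p) d B fun x _ => hd x
  rw [nsmul_eq_mul] at h2
  exact h2.trans (mul_le_of_le_one_left hB (by exact_mod_cast h1))

/-- the hull `h` meets the ball `b` -/
def khullM {V : Type} (l : V → V → ℝ) (a : ℕ → ℝ) (Rh r : ℝ) (h b : Σ _ : ℕ, V) : Prop :=
  ∃ v, l h.2 v ≤ Rh * a h.1 ∧ l b.2 v ≤ r * a b.1

/-- `b` is the finest of the coarser balls met by the hull `h` -/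
def khullA {V : Type} (l : V → V → ℝ) (a : ℕ → ℝ) (Rh r : ℝ) (N : ℕ → Finset V)
    (b h : Σ _ : ℕ, V) : Prop :=
  b.1 < h.1 ∧ khullM l a Rh r h b ∧
    ∀ b' : Σ _ : ℕ, V, b.1 < b'.1 → b'.1 < h.1 → b'.2 ∈ N b'.1 → ¬ khullM l a Rh r h b'

section
variable {V : Type} {l : V → V → ℝ} {a : ℕ → ℝ} {r R0 : ℝ} {N C : ℕ → Finset V}

lemma khull_uniq (hl : Met l) (hF : ∀ i j, i < j → 4 * ((R0 + 6 * r) * a j) ≤ r * a i)
    (hsep : ∀ j, ∀ x ∈ N j, ∀ y ∈ N j, x ≠ y → 5 / 2 * r * a j < l x y) {h b b' : Σ _ : ℕ, V}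
    (hb : b.2 ∈ N b.1) (hb' : b'.2 ∈ N b'.1) (h1 : khullA l a (R0 + 6 * r) r N b h)
    (h2 : khullA l a (R0 + 6 * r) r N b' h) : b = b' := by
  obtain ⟨i, x⟩ := b
  obtain ⟨i', x'⟩ := b'
  rcases lt_trichotomy i i' with hi | rfl | hi
  · exact absurd h2.2.1 (h1.2.2 _ hi h2.1 hb')
  · by_contra hne
    have a0 := hsep i x hb x' hb' fun e => hne (e ▸ rfl)
    obtain ⟨v, a1, a2⟩ := h1.2.1
    obtain ⟨v', a3, a4⟩ := h2.2.1
    have a5 := hF i h.1 h1.1
    have a6 := hl.tri x v x'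
    have a7 := hl.tri v h.2 x'
    have a8 := hl.tri h.2 v' x'
    rw [hl.symm v h.2] at a7
    rw [hl.symm v' x'] at a8
    dsimp only at a2 a4
    linarith
  · exact absurd h1.2.1 (h2.2.2 _ hi h1.1 hb)

lemma khull_chain (hl : Met l) (ha : ∀ j, 0 ≤ r * a j)
    (hF : ∀ i j, i < j → 4 * ((R0 + 6 * r) * a j) ≤ r * a i)
    (hcov : ∀ j, ∀ x ∈ N j, ∃ c ∈ C j, l x c ≤ R0 * a j) (b : Σ _ : ℕ, V) (j : ℕ) :
    ∀ c ∈ C j, b.1 < j → khullM l a (R0 + 6 * r) r ⟨j, c⟩ b → ∃ h : Σ _ : ℕ, V, h.1 ≤ j ∧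
      h.2 ∈ C h.1 ∧ khullA l a (R0 + 6 * r) r N b h ∧
      ∀ w, l c w ≤ (R0 + 6 * r) * a j → l h.2 w ≤ (R0 + 6 * r) * a h.1 := by
  induction j using Nat.strong_induction_on with
  | _ j ih =>
    intro c hc hj hm
    by_cases hex : ∃ b' : Σ _ : ℕ, V, b.1 < b'.1 ∧ b'.1 < j ∧ b'.2 ∈ N b'.1 ∧
        khullM l a (R0 + 6 * r) r ⟨j, c⟩ b'
    · obtain ⟨⟨i, x⟩, h1, h2, h3, v, h4, h5⟩ := hex
      obtain ⟨c', h6, h7⟩ := hcov i x h3
      have hsub : ∀ w, l c w ≤ (R0 + 6 * r) * a j → l c' w ≤ (R0 + 6 * r) * a i := fun w hw => by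
        have a5 := hF i j h2
        have a6 := hl.tri c' x w
        have a7 := hl.tri x v w
        have a8 := hl.tri v c w
        have a9 := ha i
        rw [hl.symm c' x] at a6
        rw [hl.symm v c] at a8
        dsimp only at h4 h5
        linarith
      obtain ⟨w, h8, h9⟩ := hm
      obtain ⟨h, b1, b2, b3, b4⟩ := ih i h2 c' h6 h1 ⟨w, hsub w h8, h9⟩
      exact ⟨h, b1.trans (le_of_lt h2), b2, b3, fun w hw => b4 w (hsub w hw)⟩
    · exact ⟨⟨j, c⟩, le_rfl, hc, ⟨hj, hm, fun b' h1 h2 h3 h4 => hex ⟨b', h1, h2, h3, h4⟩⟩,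
        fun _ hw => hw⟩

open Classical in
lemma khull_half (hl : Met l) (n : ℕ) (ha : ∀ j, 0 ≤ r * a j) (hR : ∀ j, 0 ≤ R0 * a j)
    (hF : ∀ i j, i < j → 4 * ((R0 + 6 * r) * a j) ≤ r * a i)
    (hsep : ∀ j, ∀ x ∈ N j, ∀ y ∈ N j, x ≠ y → 5 / 2 * r * a j < l x y)
    (hcov : ∀ j, ∀ x ∈ N j, ∃ c ∈ C j, l x c ≤ R0 * a j) (u v : V) (d : (Σ _ : ℕ, V) → ℝ)
    (d1 : ∀ b, d b ≤ r * a b.1) (d2 : ∀ b, d b ≤ l u v)
    (d3 : ∀ b h, h.1 < n → h.2 ∈ C h.1 → khullA l a (R0 + 6 * r) r N b h →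
      l h.2 u ≤ (R0 + 6 * r) * a h.1 → l h.2 v ≤ (R0 + 6 * r) * a h.1 → d b = 0) :
    ∑ b ∈ (range n).sigma N, (if l b.2 u ≤ r * a b.1 then d b else 0) ≤ 3 / 2 * l u v := by
  rw [sum_sigma]
  have huniq : ∀ i, ∀ x ∈ N i, ∀ y ∈ N i, l x u ≤ r * a i → l y u ≤ r * a i → x = y := by
    intro i x hx y hy h1 h2
    by_contra hne
    have a0 := hsep i x hx y hy hne
    have a1 := hl.tri x u y
    have a2 := ha i
    rw [hl.symm u y] at a1
    linarith
  refine khull_sum _ (fun i => r * a i) _ n (hl.nonneg _ _) ha (fun i => ?_)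
    (fun i => khull_one (N i) _ (fun x => d ⟨i, x⟩) _ (ha i) (fun x => d1 _) (huniq i))
    (fun i => khull_one (N i) _ (fun x => d ⟨i, x⟩) _ (hl.nonneg _ _) (fun x => d2 _) (huniq i))
    fun i j hij hj hL hne => ?_
  · have := hF i (i + 1) (by omega)
    have := ha (i + 1)
    have := hR (i + 1)
    linarith
  · obtain ⟨y, hy, hy'⟩ := exists_ne_zero_of_sum_ne_zero hne
    have hyu : l y u ≤ r * a j := by
      by_contra h
      exact hy' (if_neg h)
    obtain ⟨c, hc, hc'⟩ := hcov j y hy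
    have a1 := hl.tri c y u
    have a2 := hl.tri c u v
    have a3 := ha j
    rw [hl.symm c y] at a1
    have hu : l c u ≤ (R0 + 6 * r) * a j := by linarith
    have hv : l c v ≤ (R0 + 6 * r) * a j := by linarith
    refine sum_eq_zero fun x hx => ite_eq_right_iff.2 fun hxu => ?_
    obtain ⟨h, b1, b2, b3, b4⟩ := khull_chain hl ha hF hcov ⟨i, x⟩ j c hc hij ⟨u, hu, hxu⟩
    exact d3 _ h (by omega) b2 b3 (b4 u hu) (b4 v hv)

end

theorem khull {V E : Type} [Fintype V] [Fintype E] [DecidableEq V] (s t : E → V)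
    {l : V → V → ℝ} (hl : Met l) (n : ℕ) (a0 Θ r1 r R0 κ : ℝ) (N C : ℕ → Finset V)
    (ha : 0 < a0) (hr1 : 0 ≤ r1) (hr : r1 ≤ r) (hr0 : 0 < r) (hR : 0 ≤ R0) (hκ : 0 ≤ κ)
    (hΘ : 4 * (R0 + 6 * r) ≤ Θ * r)
    (hsep : ∀ j, ∀ x ∈ N j, ∀ y ∈ N j, x ≠ y → 5 / 2 * r * (a0 / Θ ^ j) < l x y)
    (hcov : ∀ j, ∀ x ∈ N j, ∃ c ∈ C j, l x c ≤ R0 * (a0 / Θ ^ j))
    (hcon : ∀ j, ∀ x ∈ N j, ∀ X : Finset V, (∀ v, l x v ≤ r1 * (a0 / Θ ^ j) → v ∈ X) →
      (∀ v ∈ X, l x v < r * (a0 / Θ ^ j)) → κ ≤ (ct s t univ X : ℝ)) :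
    κ * ∑ j ∈ range n, a0 / Θ ^ j * ((r - r1) * #(N j) - 2 * (R0 + 6 * r) * #(C j)) ≤
      3 * Pl s t l := by
  classical
  have hΘ1 : 1 ≤ Θ := by nlinarith
  obtain ⟨a, hdef⟩ : ∃ a : ℕ → ℝ, ∀ j, a0 / Θ ^ j = a j := ⟨_, fun _ => rfl⟩
  have hpos : ∀ j, 0 < a j := fun j => by rw [← hdef]; positivity
  have hF : ∀ i j, i < j → 4 * ((R0 + 6 * r) * a j) ≤ r * a i := fun i j hij => by
    have a1 : Θ * a j ≤ a i := by
      rw [← hdef, ← hdef, ← mul_div_assoc, div_le_div_iff₀ (by positivity) (by positivity)]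
      have : Θ ^ (i + 1) ≤ Θ ^ j := pow_le_pow_right₀ hΘ1 hij
      calc _ = a0 * Θ ^ (i + 1) := by ring
        _ ≤ _ := by gcongr
    have a2 := mul_le_mul_of_nonneg_right hΘ (hpos j).le
    have a3 := mul_le_mul_of_nonneg_left a1 hr0.le
    linarith
  simp only [hdef] at hsep hcov hcon ⊢
  have hra : ∀ j, 0 ≤ r * a j := fun j => mul_nonneg hr0.le (hpos j).le
  have hRa : ∀ j, 0 ≤ R0 * a j := fun j => mul_nonneg hR (hpos j).le
  have hh : ∀ j, 0 ≤ (R0 + 6 * r) * a j := fun j => by linarith [hra j, hRa j]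
  have h12 : ∀ j, r1 * a j ≤ r * a j := fun j => mul_le_mul_of_nonneg_right hr (hpos j).le
  choose ψ top p1 p2 p3 p4 p5 p6 p7 using fun b : Σ _ : ℕ, V =>
    kflat (((range n).sigma C).filter (khullA l a (R0 + 6 * r) r N b))
      (fun h => l b.2 h.2 - (R0 + 6 * r) * a h.1) (fun h => l b.2 h.2 + (R0 + 6 * r) * a h.1)
      (fun h _ => by linarith [hh h.1]) (r1 * a b.1) (r * a b.1) (h12 b.1)
  have q1 : ∀ b y, 0 ≤ ψ b y := fun b y =>
    (p3 b _ (min_le_right y _)).symm.le.trans (p1 b (min_le_left _ _))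
  have q2 : ∀ b y, ψ b y ≤ top b := fun b y =>
    (p1 b (le_max_left _ _)).trans (p4 b _ (le_max_right y _)).le
  have co : ∀ b ∈ (range n).sigma N,
      κ * top b ≤ ∑ e, |ψ b (l b.2 (s e)) - ψ b (l b.2 (t e))| := fun b hb =>
    kcoarea s t univ (fun v => ψ b (l b.2 v)) (top b) κ ((q1 b 0).trans (q2 b 0))
      (fun v => ⟨q1 b _, q2 b _⟩) fun τ h0 h1 => hcon b.1 b.2 (mem_sigma.1 hb).2 _
        (fun v hv => mem_filter.2 ⟨mem_univ _, (p3 b _ hv).le.trans h0⟩) fun v hv => by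
          by_contra h
          have := (mem_filter.1 hv).2
          rw [p4 b _ (not_lt.1 h)] at this
          linarith
  have half : ∀ u v, ∑ b ∈ (range n).sigma N, (if l b.2 u ≤ r * a b.1 then
      |ψ b (l b.2 u) - ψ b (l b.2 v)| else 0) ≤ 3 / 2 * l u v := fun u v => by
    refine khull_half hl n hra hRa hF hsep hcov u v _ (fun b => ?_) (fun b => ?_)
      fun b h h1 h2 h3 h4 h5 => ?_
    · have := mul_nonneg hr1 (hpos b.1).le
      rw [abs_le]
      constructor <;> linarith [q1 b (l b.2 u), q1 b (l b.2 v), q2 b (l b.2 u), q2 b (l b.2 v), p5 b]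
    · refine (p2 b _ _).trans (abs_le.2 ⟨?_, ?_⟩)
      · linarith [hl.tri b.2 u v]
      · linarith [hl.tri b.2 v u, hl.symm v u]
    · have e := p7 b h (mem_filter.2 ⟨mem_sigma.2 ⟨mem_range.2 h1, h2⟩, h3⟩)
      have key : ∀ w, l h.2 w ≤ (R0 + 6 * r) * a h.1 →
          ψ b (l b.2 w) = ψ b (l b.2 h.2 + (R0 + 6 * r) * a h.1) := fun w hw =>
        le_antisymm (p1 b (by linarith [hl.tri b.2 h.2 w]))
          (e.symm.le.trans (p1 b (by linarith [hl.tri b.2 w h.2, hl.symm w h.2])))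
      rw [key u h4, key v h5, sub_self, abs_zero]
  have edge : ∀ u v, ∑ b ∈ (range n).sigma N, |ψ b (l b.2 u) - ψ b (l b.2 v)| ≤ 3 * l u v := by
    intro u v
    have a1 := half u v
    have a2 := half v u
    rw [hl.symm v u] at a2
    refine le_trans (sum_le_sum fun b _ => ?_) ((sum_add_distrib.le.trans (add_le_add a1 a2)).trans
      (by linarith))
    rw [abs_sub_comm (ψ b (l b.2 v))]
    have := abs_nonneg (ψ b (l b.2 u) - ψ b (l b.2 v))
    split_ifs with h1 h2 h2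
    · linarith
    · linarith
    · linarith
    · rw [p4 b _ (not_le.1 h1).le, p4 b _ (not_le.1 h2).le, sub_self, abs_zero, add_zero]
  have cnt : ∑ b ∈ (range n).sigma N, ∑ h ∈ ((range n).sigma C).filter
      (khullA l a (R0 + 6 * r) r N b), 2 * ((R0 + 6 * r) * a h.1) ≤
      ∑ h ∈ (range n).sigma C, 2 * ((R0 + 6 * r) * a h.1) := by
    simp only [sum_filter]
    rw [sum_comm]
    exact sum_le_sum fun h _ => khull_one _ _ _ _ (by linarith [hh h.1]) (fun _ => le_rfl)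
      fun b hb b' hb' => khull_uniq hl hF hsep (mem_sigma.1 hb).2 (mem_sigma.1 hb').2
  have low : ∑ j ∈ range n, a j * ((r - r1) * #(N j) - 2 * (R0 + 6 * r) * #(C j)) ≤
      ∑ b ∈ (range n).sigma N, top b := by
    have a1 : ∑ b ∈ (range n).sigma N, (r * a b.1 - r1 * a b.1 - ∑ h ∈ ((range n).sigma C).filter
        (khullA l a (R0 + 6 * r) r N b), 2 * ((R0 + 6 * r) * a h.1)) ≤
        ∑ b ∈ (range n).sigma N, top b := sum_le_sum fun b _ => by
      refine le_trans (le_of_eq ?_) (p6 b)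
      congr 1
      exact sum_congr rfl fun h _ => by ring
    have a2 : ∑ j ∈ range n, a j * ((r - r1) * #(N j) - 2 * (R0 + 6 * r) * #(C j)) =
        ∑ b ∈ (range n).sigma N, (r * a b.1 - r1 * a b.1) -
          ∑ h ∈ (range n).sigma C, 2 * ((R0 + 6 * r) * a h.1) := by
      rw [sum_sigma, sum_sigma, ← sum_sub_distrib]
      refine sum_congr rfl fun j _ => ?_
      simp only [sum_const, nsmul_eq_mul]
      ring
    rw [sum_sub_distrib] at a1
    linarith
  calc _ ≤ κ * ∑ b ∈ (range n).sigma N, top b := mul_le_mul_of_nonneg_left low hκ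
    _ ≤ ∑ b ∈ (range n).sigma N, ∑ e, |ψ b (l b.2 (s e)) - ψ b (l b.2 (t e))| := by
      rw [mul_sum]; exact sum_le_sum co
    _ ≤ ∑ e, 3 * l (s e) (t e) := by
      rw [sum_comm]; exact sum_le_sum fun e _ => edge _ _
    _ = _ := by rw [Pl, mul_sum]

end Pool.Agent.P.MP_e59a69_co
end

-- part Pool.Agent.P.MP_e59a69_co.KScale
section

/-! Many separated points at one scale. -/

open Finset Function

namespace Pool.Agent.P.MP_e59a69_co

section aux

variable {V Φ : Type} [Fintype Φ] {l : V → V → ℝ}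

theorem kscale_one {z : Φ → V → ℝ} (hz : ∀ x x', ∑ f, (z f x - z f x') ^ 2 ≤ l x x') (f : Φ)
    (x x' : V) {b : ℝ} (hb : 0 ≤ b) (h : l x x' ≤ b ^ 2) (t : ℝ) :
    t * (z f x - z f x') ≤ |t| * b := by
  have h1 : (z f x - z f x') ^ 2 ≤ l x x' :=
    (single_le_sum (f := fun f => (z f x - z f x') ^ 2) (fun _ _ => sq_nonneg _)
      (mem_univ f)).trans (hz x x')
  refine (le_abs_self _).trans ?_
  rw [abs_mul]
  exact mul_le_mul_of_nonneg_left (abs_le_of_sq_le_sq (h1.trans h) hb) (abs_nonneg _)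

theorem kscale_light [Fintype V] {z : Φ → V → ℝ} (hz : ∀ x x', ∑ f, (z f x - z f x') ^ 2 ≤ l x x')
    (χ : Φ → V → ℝ) (n : V → V) (Ψ : Finset Φ) (T : Finset V) {ν B : ℝ}
    (h2 : ∀ f, ∑ x, χ f x ^ 2 ≤ ν) (hT : ∀ x ∈ T, l x (n x) ≤ B) :
    (∑ f ∈ Ψ, ∑ x ∈ T, χ f x * (z f x - z f (n x))) ^ 2 ≤ (#Ψ * ν) * (#T * B) := by
  rw [← sum_product']
  refine (sum_mul_sq_le_sq_mul_sq _ _ _).trans (mul_le_mul ?_ ?_ (by positivity) ?_)
  · rw [sum_product' (f := fun f x => χ f x ^ 2), ← nsmul_eq_mul]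
    exact sum_le_card_nsmul _ _ _ fun f _ =>
      (sum_le_sum_of_subset_of_nonneg (subset_univ _) fun _ _ _ => sq_nonneg _).trans (h2 f)
  · rw [sum_product' (f := fun f x => (z f x - z f (n x)) ^ 2), sum_comm, ← nsmul_eq_mul]
    exact sum_le_card_nsmul _ _ _ fun x hx =>
      (sum_le_sum_of_subset_of_nonneg (subset_univ _) fun _ _ _ => sq_nonneg _).trans
        ((hz _ _).trans (hT x hx))
  · rw [← nsmul_eq_mul, ← sum_const]
    exact sum_nonneg fun f _ => (sum_nonneg fun _ _ => sq_nonneg _).trans (h2 f)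

theorem kscale_trace [Fintype V] {z : Φ → V → ℝ} (hz : ∀ x x', ∑ f, (z f x - z f x') ^ 2 ≤ l x x')
    (χ : Φ → V → ℝ) (n : V → V) (c : Φ → V) (Ψ : Finset Φ) (S : Finset V) {B : ℝ} (hB : 0 ≤ B)
    (h1 : ∀ f, ∑ x, |χ f x| ≤ 2) (hc : ∀ f ∈ Ψ, c f ∈ S)
    (hn : ∀ f ∈ Ψ, ∀ x, χ f x = 0 ∨ (n x ∈ S ∧ l (n x) (c f) ≤ B)) :
    (∑ f ∈ Ψ, ∑ x, χ f x * (z f (n x) - z f (c f))) ^ 2 ≤ #S * (#Ψ * (4 * B)) := by
  have h := ktrace Ψ S (fun y g => z g y)
    (fun f => ∑ x, χ f x • ((fun g => z g (n x)) - fun g => z g (c f))) fun f hf =>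
      Submodule.sum_mem _ fun x _ => by
        rcases hn f hf x with h | h
        · rw [h, zero_smul]; exact zero_mem _
        · exact Submodule.smul_mem _ _ (sub_mem (Submodule.subset_span ⟨n x, h.1, rfl⟩)
            (Submodule.subset_span ⟨c f, hc f hf, rfl⟩))
  simp only [Finset.sum_apply, Pi.smul_apply, Pi.sub_apply, smul_eq_mul] at h
  refine h.trans (mul_le_mul_of_nonneg_left ?_ (Nat.cast_nonneg _))
  rw [← nsmul_eq_mul]
  refine sum_le_card_nsmul _ _ _ fun f hf => ?_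
  have e1 : ∀ g, (∑ x, χ f x * (z g (n x) - z g (c f))) ^ 2 ≤
      2 * ∑ x, |χ f x| * (z g (n x) - z g (c f)) ^ 2 := fun g =>
    (sum_sq_le_sum_mul_sum_of_sq_le_mul univ (f := fun x => |χ f x|)
      (g := fun x => |χ f x| * (z g (n x) - z g (c f)) ^ 2) (fun _ _ => abs_nonneg _)
      (fun _ _ => by positivity) fun x _ => by
        rw [← mul_assoc, ← sq, sq_abs, mul_pow]).trans
      (mul_le_mul_of_nonneg_right (h1 f) (sum_nonneg fun _ _ => by positivity))
  refine (sum_le_sum fun g _ => e1 g).trans ?_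
  rw [← mul_sum, sum_comm]
  have e2 : ∑ x, ∑ g, |χ f x| * (z g (n x) - z g (c f)) ^ 2 ≤ ∑ x, |χ f x| * B :=
    sum_le_sum fun x _ => by
      rw [← mul_sum]
      rcases hn f hf x with h | h
      · rw [h, abs_zero, zero_mul, zero_mul]
      · exact mul_le_mul_of_nonneg_left ((hz _ _).trans h.2) (abs_nonneg _)
  rw [← sum_mul] at e2
  have e3 := mul_le_mul_of_nonneg_right (h1 f) hB
  linarith

theorem kscale_ineq [Fintype V] (hl : Met l) (χ : Φ → V → ℝ) (o : Φ → V) (z : Φ → V → ℝ)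
    (hz : ∀ x x', ∑ f, (z f x - z f x') ^ 2 ≤ l x x') (ν θ R s Q : ℝ) (hθ : 0 < θ)
    (hR : 1 ≤ R) (hs : 0 < s) (hQ : Q * θ ^ 2 = 64 * R ^ 2) (hRQ : 2 * R ≤ Q) (Ψ : Finset Φ)
    (h0 : ∀ f, ∑ x, χ f x = 0) (h1 : ∀ f, ∑ x, |χ f x| ≤ 2) (h2 : ∀ f, ∑ x, χ f x ^ 2 ≤ ν)
    (hg : ∀ f ∈ Ψ, 7 / 10 * θ * s ≤ evl (χ f) (z f))
    (hc : ∀ f ∈ Ψ, ∑ x, |χ f x| * l (o f) x ≤ R * s ^ 2) (c : Φ → V) (n : V → V)
    (S T : Finset V) (hcS : ∀ f ∈ Ψ, c f ∈ S ∧ l (o f) (c f) ≤ 2 * R * s ^ 2)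
    (hn : ∀ f ∈ Ψ, ∀ x, l (o f) x ≤ Q * s ^ 2 → n x ∈ S ∧ l x (n x) ≤ 2 * Q * s ^ 2 ∧
      (x ∉ T → l x (n x) ≤ (θ * s / 8) ^ 2))
    (hT : ∀ x ∈ T, l x (n x) ≤ 2 * Q * s ^ 2) (hν : 0 ≤ ν) :
    θ ^ 2 * #Ψ ≤ Q * (512 * #S + 64 * ν * #T) := by
  classical
  have hQ0 : 0 ≤ Q := by linarith
  have hs2 : 0 < s ^ 2 := by positivity
  have hRQ' : 2 * R * s ^ 2 ≤ Q * s ^ 2 := mul_le_mul_of_nonneg_right hRQ hs2.le
  obtain ⟨χ', hχ'⟩ : ∃ χ' : Φ → V → ℝ, ∀ f x,
      χ' f x = if l (o f) x ≤ Q * s ^ 2 then χ f x else 0 := ⟨_, fun _ _ => rfl⟩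
  have habs : ∀ f x, |χ' f x| ≤ |χ f x| := fun f x => by
    rw [hχ']
    split_ifs
    · exact le_rfl
    · rw [abs_zero]; exact abs_nonneg _
  obtain ⟨κ, hκ⟩ : ∃ κ : ℝ, κ = 9 / 50 * θ / (R * s) := ⟨_, rfl⟩
  have hκ0 : 0 ≤ κ := by rw [hκ]; positivity
  have hκ1 : κ * (R * s ^ 2) = 9 / 50 * θ * s := by rw [hκ]; field_simp
  have hκ2 : κ ^ 2 * (Q * s ^ 2) = 64 * (9 / 50) ^ 2 := by
    rw [hκ]
    field_simp
    linarith
  have hpt : ∀ f ∈ Ψ, ∀ x, χ f x * (z f x - z f (c f)) ≤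
      κ * (|χ f x| * l (o f) x) + θ * s / 8 * |χ f x| +
        (if x ∈ T then χ' f x * (z f x - z f (n x)) else 0) +
        χ' f x * (z f (n x) - z f (c f)) := by
    intro f hf x
    have hd := hl.nonneg (o f) x
    have a1 : 0 ≤ κ * (|χ f x| * l (o f) x) := by positivity
    have a2 : 0 ≤ θ * s / 8 * |χ f x| := by positivity
    rw [hχ']
    by_cases hx : l (o f) x ≤ Q * s ^ 2
    · rw [if_pos hx]
      by_cases hxT : x ∈ T
      · rw [if_pos hxT]
        linarith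
      · rw [if_neg hxT]
        have := kscale_one hz f x (n x) (by positivity) ((hn f hf x hx).2.2 hxT) (χ f x)
        linarith
    · rw [if_neg hx, zero_mul, zero_mul, ite_self]
      have b1 : l x (c f) ≤ 2 * l (o f) x := by
        have := hl.tri x (o f) (c f)
        rw [hl.symm x (o f)] at this
        linarith [(hcS f hf).2]
      have b2 : 2 ≤ κ ^ 2 * l (o f) x := by
        have := mul_le_mul_of_nonneg_left (not_le.1 hx).le (sq_nonneg κ)
        rw [hκ2] at this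
        linarith
      have b3 : l x (c f) ≤ (κ * l (o f) x) ^ 2 := by
        have := mul_le_mul_of_nonneg_right b2 hd
        linarith
      have := kscale_one hz f x (c f) (by positivity) b3 (χ f x)
      linarith
  have hsum : ∀ f ∈ Ψ, θ * s / 4 ≤ ∑ x ∈ T, χ' f x * (z f x - z f (n x)) +
      ∑ x, χ' f x * (z f (n x) - z f (c f)) := by
    intro f hf
    have e1 : evl (χ f) (z f) = ∑ x, χ f x * (z f x - z f (c f)) := by
      simp only [mul_sub, sum_sub_distrib, ← sum_mul, h0, zero_mul, sub_zero, evl]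
    have e2 := sum_le_sum fun x (_ : x ∈ univ) => hpt f hf x
    rw [← e1, sum_add_distrib, sum_add_distrib, sum_add_distrib, ← mul_sum, ← mul_sum,
      sum_ite_mem, univ_inter] at e2
    have e3 := mul_le_mul_of_nonneg_left (hc f hf) hκ0
    have e4 := mul_le_mul_of_nonneg_left (h1 f) (show 0 ≤ θ * s / 8 by positivity)
    have e5 := hg f hf
    have e6 : 0 ≤ θ * s := by positivity
    linarith
  have hp := kscale_light hz χ' n Ψ T (ν := ν) (B := 2 * Q * s ^ 2)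
    (fun f => (sum_le_sum fun x _ => sq_le_sq.2 (habs f x)).trans (h2 f)) hT
  have hq := kscale_trace hz χ' n c Ψ S (B := 4 * Q * s ^ 2) (by positivity)
    (fun f => (sum_le_sum fun x _ => habs f x).trans (h1 f)) (fun f hf => (hcS f hf).1)
    fun f hf x => by
      by_cases hx : l (o f) x ≤ Q * s ^ 2
      · obtain ⟨b1, b2, -⟩ := hn f hf x hx
        refine Or.inr ⟨b1, ?_⟩
        have t1 := hl.tri (n x) x (c f)
        have t2 := hl.tri x (o f) (c f)
        rw [hl.symm (n x) x] at t1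
        rw [hl.symm x (o f)] at t2
        linarith [(hcS f hf).2]
      · exact Or.inl (by rw [hχ', if_neg hx])
  have hm := card_nsmul_le_sum _ _ _ hsum
  rw [sum_add_distrib, nsmul_eq_mul] at hm
  generalize (∑ f ∈ Ψ, ∑ x ∈ T, χ' f x * (z f x - z f (n x))) = p at hp hm
  generalize (∑ f ∈ Ψ, ∑ x, χ' f x * (z f (n x) - z f (c f))) = q at hq hm
  rcases (Nat.cast_nonneg (α := ℝ) #Ψ).eq_or_lt with h | h
  · rw [← h, mul_zero]
    positivity
  have k1 : (#Ψ * (θ * s / 4)) ^ 2 ≤ (p + q) ^ 2 := pow_le_pow_left₀ (by positivity) hm 2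
  have k2 : (p + q) ^ 2 ≤ 2 * p ^ 2 + 2 * q ^ 2 := by nlinarith [sq_nonneg (p - q)]
  refine le_of_mul_le_mul_left ?_ (show 0 < #Ψ * s ^ 2 / 16 by positivity)
  linarith

end aux

open Classical in
theorem kscale {V Φ : Type} [Fintype V] [Fintype Φ] [DecidableEq V] {l : V → V → ℝ}
    (hl : Met l) (χ : Φ → V → ℝ) (o : Φ → V) (z : Φ → V → ℝ)
    (hz : ∀ x x', ∑ f, (z f x - z f x') ^ 2 ≤ l x x') (ν θ R a : ℝ) (k0 : ℕ) (hθ : 0 < θ)
    (hθ1 : θ ≤ 1) (hR : 1 ≤ R) (ha : 0 < a) (hν : 0 ≤ ν) (Ψ : Finset Φ)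
    (h0 : ∀ f, ∑ x, χ f x = 0) (h1 : ∀ f, ∑ x, |χ f x| ≤ 2) (h2 : ∀ f, ∑ x, χ f x ^ 2 ≤ ν)
    (hg : ∀ f ∈ Ψ, 7 / 10 * θ * √a ≤ evl (χ f) (z f))
    (hc : ∀ f ∈ Ψ, ∑ x, |χ f x| * l (o f) x ≤ R * a) :
    ∃ C H L : Finset V, C ⊆ Ψ.image o ∧ (∀ c ∈ C, ∀ c' ∈ C, c ≠ c' → 2 * R * a < l c c') ∧
      (∀ x ∈ H, k0 < #{v | l x v ≤ θ ^ 2 / 256 * a}) ∧
      (∀ x ∈ H, ∀ y ∈ H, x ≠ y → 4 * (θ ^ 2 / 256 * a) < l x y) ∧
      (∀ x ∈ L, ∀ y ∈ L, x ≠ y → θ ^ 2 / 256 * a < l x y) ∧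
      (∀ x ∈ H ∪ L, ∃ c ∈ C, l x c ≤ 128 * R ^ 2 / θ ^ 2 * a) ∧
      θ ^ 2 * #Ψ ≤ 64 * R ^ 2 / θ ^ 2 * (512 * (#H + #C) + 64 * ν * k0 * #L) := by
  obtain ⟨s, hs, rfl⟩ : ∃ s : ℝ, 0 < s ∧ a = s ^ 2 :=
    ⟨√a, Real.sqrt_pos.2 ha, (Real.sq_sqrt ha.le).symm⟩
  rw [Real.sqrt_sq hs.le] at hg
  obtain ⟨Q, hQ⟩ : ∃ Q : ℝ, Q = 64 * R ^ 2 / θ ^ 2 := ⟨_, rfl⟩
  have hQ1 : Q * θ ^ 2 = 64 * R ^ 2 := by rw [hQ]; field_simp
  have hθ2 : θ ^ 2 ≤ 1 := pow_le_one₀ hθ.le hθ1
  have hQ0 : 0 ≤ Q := by rw [hQ]; positivity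
  have hRQ : 64 * R ≤ Q := by
    have a1 := mul_le_of_le_one_right hQ0 hθ2
    have a2 : R * 1 ≤ R * R := mul_le_mul_of_nonneg_left hR (by linarith)
    linarith
  have hQ2 : 128 * R ^ 2 / θ ^ 2 = 2 * Q := by rw [hQ]; ring
  rw [hQ2, ← hQ]
  obtain ⟨C, hC1, hC2, hC3⟩ := exists_net hl (Ψ.image o) (r := 2 * R * s ^ 2) (by positivity)
  obtain ⟨U, hU⟩ : ∃ U : Finset V, ∀ x, x ∈ U ↔ ∃ f ∈ Ψ, l (o f) x ≤ Q * s ^ 2 :=
    ⟨univ.filter fun x => ∃ f ∈ Ψ, l (o f) x ≤ Q * s ^ 2, fun x => by simp⟩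
  have gen : ∀ p : V → Prop, ∃ T : Finset V, ∀ x, x ∈ T ↔ x ∈ U ∧ p x := fun p =>
    ⟨U.filter p, fun x => mem_filter⟩
  obtain ⟨T, hT⟩ := gen fun x => #{v | l x v ≤ θ ^ 2 / 256 * s ^ 2} ≤ k0
  obtain ⟨H, hH1, hH2, hH3⟩ := exists_net hl (U \ T) (r := 4 * (θ ^ 2 / 256 * s ^ 2))
    (by positivity)
  obtain ⟨L, hL1, hL2, hL3⟩ := exists_net hl T (r := θ ^ 2 / 256 * s ^ 2) (by positivity)
  have hcf : ∀ f, ∃ y, f ∈ Ψ → y ∈ C ∧ l (o f) y ≤ 2 * R * s ^ 2 := fun f => by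
    by_cases hf : f ∈ Ψ
    · obtain ⟨y, hy⟩ := hC3 _ (mem_image_of_mem o hf)
      exact ⟨y, fun _ => hy⟩
    · exact ⟨o f, fun h => absurd h hf⟩
  choose c hc' using hcf
  have hRs : 64 * R * s ^ 2 ≤ Q * s ^ 2 := mul_le_mul_of_nonneg_right hRQ ha.le
  have hR1 : s ^ 2 ≤ R * s ^ 2 := le_mul_of_one_le_left ha.le hR
  have hθs : θ ^ 2 * s ^ 2 ≤ s ^ 2 := mul_le_of_le_one_left ha.le hθ2
  have hUC : ∀ x ∈ U, ∃ y ∈ C, l x y ≤ 2 * Q * s ^ 2 := fun x hx => by
    obtain ⟨f, hf, hx⟩ := (hU x).1 hx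
    refine ⟨c f, (hc' f hf).1, ?_⟩
    have := hl.tri x (o f) (c f)
    rw [hl.symm x (o f)] at this
    linarith [(hc' f hf).2]
  have hnx : ∀ x, ∃ y, x ∈ U → y ∈ H ∪ C ∧ l x y ≤ 2 * Q * s ^ 2 ∧
      (x ∉ T → l x y ≤ (θ * s / 8) ^ 2) := fun x => by
    by_cases hx : x ∈ U
    · by_cases hxT : x ∈ T
      · obtain ⟨y, hy, hy'⟩ := hUC x hx
        exact ⟨y, fun _ => ⟨mem_union_right _ hy, hy', fun h => absurd hxT h⟩⟩
      · obtain ⟨y, hy, hy'⟩ := hH3 x (mem_sdiff.2 ⟨hx, hxT⟩)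
        exact ⟨y, fun _ => ⟨mem_union_left _ hy, by linarith, fun _ => by linarith⟩⟩
    · exact ⟨x, fun h => absurd h hx⟩
  choose n hn using hnx
  have key := kscale_ineq hl χ o z hz ν θ R s Q hθ hR hs hQ1 (by linarith) Ψ h0 h1 h2 hg hc c n
    (H ∪ C) T (fun f hf => ⟨mem_union_right _ (hc' f hf).1, (hc' f hf).2⟩)
    (fun f hf x hx => hn x ((hU x).2 ⟨f, hf, hx⟩)) (fun x hx => (hn x ((hT x).1 hx).1).2.1) hν
  have hcard : #T ≤ #L * k0 := by
    refine le_trans (card_le_card fun u hu => ?_) (card_biUnion_le_card_mul L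
      (fun x => {v | l x v ≤ θ ^ 2 / 256 * s ^ 2}) k0 fun x hx => ((hT x).1 (hL1 hx)).2)
    obtain ⟨x, hx, hx'⟩ := hL3 u hu
    exact mem_biUnion.2 ⟨x, hx, mem_filter.2 ⟨mem_univ _, by rwa [hl.symm]⟩⟩
  refine ⟨C, H, L, hC1, hC2, fun x hx => ?_, hH2, hL2, fun x hx => hUC x ?_, key.trans ?_⟩
  · obtain ⟨a1, a2⟩ := mem_sdiff.1 (hH1 hx)
    exact not_le.1 fun h => a2 ((hT x).2 ⟨a1, h⟩)
  · rcases mem_union.1 hx with hx | hx
    · exact (mem_sdiff.1 (hH1 hx)).1
    · exact ((hT x).1 (hL1 hx)).1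
  · have c1 : (#(H ∪ C) : ℝ) ≤ #H + #C := by exact_mod_cast card_union_le H C
    have c2 : (#T : ℝ) ≤ #L * k0 := by exact_mod_cast hcard
    have c3 := mul_le_mul_of_nonneg_left c2 hν
    refine mul_le_mul_of_nonneg_left ?_ hQ0
    linarith

end Pool.Agent.P.MP_e59a69_co
end

-- part Pool.Agent.P.MP_e59a69_co.KCore
section

/-! The nice items with a large potential drop have small mass. -/

open Finset Function

namespace Pool.Agent.P.MP_e59a69_co

lemma kcore_split (J n : ℕ) (g : ℕ → ℝ) :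
    ∑ j ∈ range (J * n), g j = ∑ i ∈ range J, ∑ k ∈ range n, g (i + J * k) := by
  induction n with
  | zero => simp
  | succ n ih =>
    rw [Nat.mul_succ, sum_range_add, ih, ← sum_add_distrib]
    exact sum_congr rfl fun i _ => by rw [sum_range_succ, add_comm (J * n)]

lemma kcore_geo (x : ℝ) (n : ℕ) :
    ∑ j ∈ range n, (if (1 / 2 : ℝ) ^ j ≤ x then (1 / 2 : ℝ) ^ j else 0) ≤
      max 0 (2 * x - 2 * (1 / 2) ^ n) := by
  induction n with
  | zero => simp
  | succ n ih =>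
    have hp : (0 : ℝ) < (1 / 2) ^ n := by positivity
    rw [sum_range_succ, pow_succ]
    split_ifs with h
    · rw [max_eq_right (by linarith)] at ih
      exact le_max_of_le_right (by linarith)
    · rw [max_eq_left (by linarith [not_le.1 h])] at ih
      exact le_max_of_le_left (by linarith)

/-- the anchors of all scales together have small mass -/
lemma kcore_anchor {V Φ : Type} [Fintype V] [Fintype Φ] [DecidableEq V] {l : V → V → ℝ}
    (hl : Met l) (χ : Φ → V → ℝ) (o : Φ → V) (a : Φ → ℝ) (R Λ : ℝ) (M n : ℕ) (hR : 1 ≤ R)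
    (hΛ : 1 ≤ Λ) (ha : ∀ f, 0 ≤ a f) (ha1 : ∑ f, a f ≤ 1) (C : ℕ → Finset V)
    (hC : ∀ j, ∀ c ∈ C j, ∃ f, o f = c ∧ (1 / 2) ^ (j + 1) < a f ∧ a f ≤ (1 / 2) ^ j ∧
      Nice χ o R Λ M a l f)
    (hsep : ∀ j, ∀ c ∈ C j, ∀ c' ∈ C j, c ≠ c' → 2 * R * (1 / 2) ^ j < l c c') :
    M * ∑ j ∈ range n, (1 / 2 : ℝ) ^ j * #(C j) ≤ 4 * Λ := by
  classical
  have h1 : ∀ j, M * #(C j) ≤ #{g | (1 / 2 : ℝ) ^ j ≤ 2 * Λ * a g} := by
    intro j
    let S : V → Finset Φ := fun c =>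
      {g | (1 / 2 : ℝ) ^ j ≤ 2 * Λ * a g ∧ l c (o g) ≤ R * (1 / 2) ^ j}
    have hd : ((C j : Finset V) : Set V).PairwiseDisjoint S := by
      intro c hc c' hc' hne
      refine disjoint_left.2 fun g hg hg' => ?_
      have e1 := (mem_filter.1 hg).2.2
      have e2 := (mem_filter.1 hg').2.2
      have e3 := hsep j c hc c' hc' hne
      have e4 := hl.tri c (o g) c'
      rw [hl.symm (o g)] at e4
      linarith
    calc M * #(C j) = ∑ _c ∈ C j, M := by rw [sum_const, smul_eq_mul, mul_comm]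
      _ ≤ ∑ c ∈ C j, #(S c) := by
        refine sum_le_sum fun c hc => ?_
        obtain ⟨f, rfl, e1, e2, e3⟩ := hC j c hc
        refine e3.2.trans (card_le_card fun g hg => ?_)
        obtain ⟨g1, g2⟩ := (mem_filter.1 hg).2
        rw [pow_succ] at e1
        exact mem_filter.2 ⟨mem_univ _, by linarith,
          g2.trans (mul_le_mul_of_nonneg_left e2 (by linarith))⟩
      _ = #((C j).biUnion S) := (card_biUnion hd).symm
      _ ≤ _ := card_le_card fun g hg => by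
        obtain ⟨c, _, hg⟩ := mem_biUnion.1 hg
        exact mem_filter.2 ⟨mem_univ _, (mem_filter.1 hg).2.1⟩
  calc _ = ∑ j ∈ range n, (1 / 2 : ℝ) ^ j * ((M * #(C j) : ℕ) : ℝ) := by
        rw [mul_sum]
        exact sum_congr rfl fun j _ => by push_cast; ring
    _ ≤ ∑ j ∈ range n, ∑ g, (if (1 / 2 : ℝ) ^ j ≤ 2 * Λ * a g then (1 / 2 : ℝ) ^ j else 0) := by
        refine sum_le_sum fun j _ => ?_
        rw [← sum_filter, sum_const, nsmul_eq_mul, mul_comm]
        exact mul_le_mul_of_nonneg_right (Nat.cast_le.2 (h1 j)) (by positivity)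
    _ ≤ ∑ g, 4 * Λ * a g := by
        rw [sum_comm]
        refine sum_le_sum fun g _ => (kcore_geo _ n).trans (max_le ?_ ?_)
        · exact mul_nonneg (by linarith) (ha g)
        · have : (0 : ℝ) < (1 / 2) ^ n := by positivity
          linarith
    _ ≤ _ := by
        rw [← mul_sum]
        exact mul_le_of_le_one_right (by linarith) ha1

/-- the hull bound for all dyadic scales -/
lemma kcore_hull {V E : Type} [Fintype V] [Fintype E] [DecidableEq V] (s t : E → V)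
    {l : V → V → ℝ} (hl : Met l) (J n : ℕ) (r1 r R0 κ : ℝ) (N C : ℕ → Finset V)
    (hr1 : 0 ≤ r1) (hr : r1 ≤ r) (hr0 : 0 < r) (hR : 0 ≤ R0) (hκ : 0 ≤ κ)
    (hΘ : 4 * (R0 + 6 * r) ≤ 2 ^ J * r)
    (hsep : ∀ j, ∀ x ∈ N j, ∀ y ∈ N j, x ≠ y → 5 / 2 * r * (1 / 2) ^ j < l x y)
    (hcov : ∀ j, ∀ x ∈ N j, ∃ c ∈ C j, l x c ≤ R0 * (1 / 2) ^ j)
    (hcon : ∀ j, ∀ x ∈ N j, ∀ y ∈ N j, x ≠ y → ∀ X : Finset V,
      (∀ v, l x v ≤ r1 * (1 / 2) ^ j → v ∈ X) →
      (∀ v ∈ X, l x v < r * (1 / 2) ^ j) → κ ≤ (ct s t univ X : ℝ)) :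
    κ * ((r - r1) * ∑ j ∈ range (J * n), (1 / 2 : ℝ) ^ j * #(N j) -
      (2 * (R0 + 6 * r) + (r - r1)) * ∑ j ∈ range (J * n), (1 / 2 : ℝ) ^ j * #(C j)) ≤
      3 * J * Pl s t l := by
  let N2 : ℕ → Finset V := fun j => if 1 < #(N j) then N j else ∅
  have hsub : ∀ j, ∀ x ∈ N2 j, x ∈ N j ∧ ∃ y ∈ N j, x ≠ y := by
    intro j x hx
    by_cases h : 1 < #(N j)
    · simp only [N2, if_pos h] at hx
      obtain ⟨y, hy, hne⟩ := exists_mem_ne h x
      exact ⟨hx, y, hy, hne.symm⟩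
    · simp [N2, if_neg h] at hx
  have hcard : ∀ j, (#(N j) : ℝ) ≤ #(N2 j) + #(C j) := by
    intro j
    have : #(N j) ≤ #(N2 j) + #(C j) := by
      by_cases h : 1 < #(N j)
      · simp [N2, if_pos h]
      · rcases (N j).eq_empty_or_nonempty with h0 | ⟨x, hx⟩
        · simp [h0]
        · obtain ⟨c, hc, _⟩ := hcov j x hx
          have := card_pos.2 ⟨c, hc⟩
          omega
    exact_mod_cast this
  have he : ∀ i k : ℕ, (1 / 2 : ℝ) ^ i / (2 ^ J) ^ k = (1 / 2) ^ (i + J * k) := by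
    intro i k
    rw [pow_add, ← pow_mul, div_eq_mul_inv, one_div, inv_pow, inv_pow]
  have h1 : ∀ i ∈ range J, κ * ∑ k ∈ range n, (1 / 2 : ℝ) ^ (i + J * k) *
      ((r - r1) * #(N2 (i + J * k)) - 2 * (R0 + 6 * r) * #(C (i + J * k))) ≤ 3 * Pl s t l := by
    intro i _
    have := khull s t hl n ((1 / 2) ^ i) (2 ^ J) r1 r R0 κ (fun k => N2 (i + J * k))
      (fun k => C (i + J * k)) (by positivity) hr1 hr hr0 hR hκ hΘ
      (fun k x hx y hy hne => by
        rw [he]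
        exact hsep _ x (hsub _ x hx).1 y (hsub _ y hy).1 hne)
      (fun k x hx => by
        rw [he]
        exact hcov _ x (hsub _ x hx).1)
      (fun k x hx X => by
        rw [he]
        obtain ⟨hx1, y, hy, hne⟩ := hsub _ x hx
        exact hcon _ x hx1 y hy hne X)
    simpa only [he] using this
  have h2 := sum_le_sum h1
  rw [← mul_sum, ← kcore_split J n fun j => (1 / 2 : ℝ) ^ j *
    ((r - r1) * #(N2 j) - 2 * (R0 + 6 * r) * #(C j)), sum_const, card_range, nsmul_eq_mul] at h2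
  refine le_trans (mul_le_mul_of_nonneg_left ?_ hκ) (h2.trans_eq (by ring))
  rw [mul_sum, mul_sum, ← sum_sub_distrib]
  refine sum_le_sum fun j _ => ?_
  have h3 : (1 / 2 : ℝ) ^ j * ((r - r1) * #(N j)) ≤
      (1 / 2) ^ j * ((r - r1) * (#(N2 j) + #(C j))) :=
    mul_le_mul_of_nonneg_left (mul_le_mul_of_nonneg_left (hcard j) (by linarith)) (by positivity)
  linarith

lemma kcore_arith (δ Ξ J P Λ κ M w SH SL SC : ℝ) (hδ : 0 < δ) (hδ1 : δ ≤ 1) (hΞ : 20 ≤ Ξ)
    (hJ : J ≤ 22 * Ξ) (hP : 0 ≤ P) (hΛ : 1 ≤ Λ) (hκ : 0 < κ) (hM : 1 ≤ M) (hw : 0 ≤ w)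
    (hSC : 0 ≤ SC) (hC : M * SC ≤ 4 * Λ)
    (hH : κ * ((8 / 5 * δ - δ) * SH - (2 * (2 * (Ξ * δ) + 6 * (8 / 5 * δ)) + (8 / 5 * δ - δ)) * SC)
      ≤ 3 * J * P)
    (hL : 1 * ((2 / 5 * δ - 0) * SL - (2 * (2 * (Ξ * δ) + 6 * (2 / 5 * δ)) + (2 / 5 * δ - 0)) * SC)
      ≤ 3 * J * P) :
    Ξ * δ * (512 * (SH + SC) + 64 * w * SL) ≤ 2 ^ 16 * Ξ ^ 2 * (P / κ + Λ / M + w * (P + Λ)) := by
  have hp : 0 ≤ P / κ := by positivity
  have hq : 0 ≤ Λ / M := by positivity
  have c1 : SC ≤ 4 * (Λ / M) := by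
    rw [← mul_div_assoc, le_div_iff₀ (by linarith)]
    linarith
  have c2 : SC ≤ 4 * Λ := by nlinarith
  have d0 : 0 ≤ δ * SC := by positivity
  have d1 : δ * SC ≤ SC := mul_le_of_le_one_left hSC hδ1
  have d2 : 20 * (δ * SC) ≤ Ξ * (δ * SC) := mul_le_mul_of_nonneg_right hΞ d0
  have d3 : Ξ * (δ * SC) ≤ Ξ * (4 * (Λ / M)) :=
    mul_le_mul_of_nonneg_left (d1.trans c1) (by linarith)
  have d4 : Ξ * (δ * SC) ≤ Ξ * (4 * Λ) := mul_le_mul_of_nonneg_left (d1.trans c2) (by linarith)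
  have j1 : J * P ≤ 22 * Ξ * P := mul_le_mul_of_nonneg_right hJ hP
  have j2 : J * (P / κ) ≤ 22 * Ξ * (P / κ) := mul_le_mul_of_nonneg_right hJ hp
  have h1 := (le_div_iff₀' hκ).2 hH
  rw [mul_div_assoc] at h1
  have x1 : 0 ≤ Ξ * (P / κ) := by positivity
  have x2 : 0 ≤ Ξ * (Λ / M) := by positivity
  have x3 : 0 ≤ Ξ * Λ := by positivity
  have x4 : 0 ≤ Ξ * P := by positivity
  have h2 : δ * (SH + SC) ≤ 111 * Ξ * (P / κ + Λ / M) := by linarith
  have h3 : δ * SL ≤ 165 * Ξ * (P + Λ) := by linarith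
  have h4 := mul_le_mul_of_nonneg_left h2 (show 0 ≤ Ξ by linarith)
  have h5 := mul_le_mul_of_nonneg_left h3 (show 0 ≤ Ξ * w by positivity)
  have y1 : 0 ≤ Ξ ^ 2 * (P / κ + Λ / M) := by positivity
  have y2 : 0 ≤ Ξ ^ 2 * (w * (P + Λ)) := by positivity
  linarith

theorem kcore {V E Φ : Type} [Fintype V] [Fintype E] [Fintype Φ] [DecidableEq V] (s t : E → V)
    {l : V → V → ℝ} (hl : Met l) (χ : Φ → V → ℝ) (o : Φ → V) (z : Φ → V → ℝ) (a : Φ → ℝ)
    (ν θ R Λ κ : ℝ) (k0 M : ℕ) (Ψ : Finset Φ)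
    (hz : ∀ x x', ∑ f, (z f x - z f x') ^ 2 ≤ l x x') (hθ : 0 < θ) (hθ1 : θ ≤ 1) (hR : 1 ≤ R)
    (hΛ : 1 ≤ Λ) (hκ : 0 < κ) (hν : 0 ≤ ν) (hM : 0 < M) (ha : ∀ f, 0 ≤ a f)
    (ha1 : ∑ f, a f ≤ 1) (h0 : ∀ f, ∑ x, χ f x = 0) (h1 : ∀ f, ∑ x, |χ f x| ≤ 2)
    (h2 : ∀ f, ∑ x, χ f x ^ 2 ≤ ν)
    (c1 : ∀ X : Finset V, X.Nonempty → Xᶜ.Nonempty → 1 ≤ ct s t univ X)
    (c2 : ∀ X : Finset V, k0 < #X → k0 < #Xᶜ → κ ≤ (ct s t univ X : ℝ))
    (hΨ : ∀ f ∈ Ψ, 0 < a f ∧ θ * √(a f) ≤ evl (χ f) (z f) ∧ Nice χ o R Λ M a l f) :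
    ∑ f ∈ Ψ, a f ≤ 2 ^ 50 * R ^ 4 / θ ^ 10 *
      (Pl s t l / κ + Λ / M + ν * k0 * (Pl s t l + Λ)) := by
  classical
  have hlev : ∀ f, ∃ j : ℕ, f ∈ Ψ → (1 / 2 : ℝ) ^ (j + 1) < a f ∧ a f ≤ (1 / 2) ^ j := by
    intro f
    by_cases hf : f ∈ Ψ
    · obtain ⟨j, hj⟩ := exists_nat_pow_near_of_lt_one (hΨ f hf).1
        ((single_le_sum (fun g _ => ha g) (mem_univ f)).trans ha1)
        (show (0 : ℝ) < 1 / 2 by norm_num) (by norm_num)
      exact ⟨j, fun _ => hj⟩
    · exact ⟨0, fun h => absurd h hf⟩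
  choose lev hlev using hlev
  have hmem : ∀ j, ∀ f ∈ Ψ.filter fun f => lev f = j,
      f ∈ Ψ ∧ (1 / 2 : ℝ) ^ (j + 1) < a f ∧ a f ≤ (1 / 2) ^ j := fun j f hf => by
    obtain ⟨e1, rfl⟩ := mem_filter.1 hf
    exact ⟨e1, hlev f e1⟩
  choose C H L hC hCs hH hHs hLs hcov hm using fun j : ℕ =>
    kscale hl χ o z hz ν θ R ((1 / 2) ^ j) k0 hθ hθ1 hR (by positivity) hν
      (Ψ.filter fun f => lev f = j) h0 h1 h2
      (fun f hf => by
        obtain ⟨e1, e2, _⟩ := hmem j f hf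
        refine le_trans ?_ (hΨ f e1).2.1
        have e3 : 7 / 10 * √((1 / 2 : ℝ) ^ j) ≤ √(a f) := by
          refine Real.le_sqrt_of_sq_le ?_
          have e4 : (0 : ℝ) < (1 / 2) ^ j := by positivity
          rw [mul_pow, Real.sq_sqrt e4.le]
          rw [pow_succ] at e2
          linarith
        have := mul_le_mul_of_nonneg_left e3 hθ.le
        linarith)
      (fun f hf => by
        obtain ⟨e1, _, e2⟩ := hmem j f hf
        exact (hΨ f e1).2.2.1.trans (mul_le_mul_of_nonneg_left e2 (by linarith)))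
  obtain ⟨δ, hδ⟩ : ∃ δ, δ = θ ^ 2 / 256 := ⟨_, rfl⟩
  obtain ⟨Ξ, hΞ⟩ : ∃ Ξ, Ξ = 2 ^ 14 * R ^ 2 / θ ^ 4 := ⟨_, rfl⟩
  have hδ0 : 0 < δ := by rw [hδ]; positivity
  have hδ1 : δ ≤ 1 := by
    have := pow_le_one₀ (n := 2) hθ.le hθ1
    linarith
  have hΞ1 : 24 ≤ Ξ := by
    have e1 := pow_le_one₀ (n := 4) hθ.le hθ1
    have e2 := one_le_pow₀ (n := 2) hR
    rw [hΞ, le_div_iff₀ (by positivity)]
    linarith
  have eR : 64 * R ^ 2 / θ ^ 2 = Ξ * δ := by rw [hΞ, hδ]; field_simp; norm_num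
  have eR2 : 128 * R ^ 2 / θ ^ 2 = 2 * (Ξ * δ) := by rw [← eR]; ring
  rw [← hδ] at hH hHs hLs
  rw [eR2] at hcov
  rw [eR] at hm
  obtain ⟨J, hJ⟩ : ∃ J : ℕ, J = ⌈21 * Ξ⌉₊ := ⟨_, rfl⟩
  have hJ1 : 21 * Ξ ≤ J := hJ ▸ Nat.le_ceil _
  have hJ2 : (J : ℝ) ≤ 22 * Ξ := by
    have := Nat.ceil_lt_add_one (show 0 ≤ 21 * Ξ by linarith)
    rw [← hJ] at this
    linarith
  have hJ3 : 21 * Ξ * δ ≤ 2 ^ J * δ := by
    have : (J : ℝ) ≤ 2 ^ J := by exact_mod_cast (Nat.lt_two_pow_self (n := J)).le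
    exact mul_le_mul_of_nonneg_right (hJ1.trans this) hδ0.le
  have hJ0 : 0 < J := by
    have : (0 : ℝ) < J := by linarith
    exact_mod_cast this
  have hΞδ : 24 * δ ≤ Ξ * δ := mul_le_mul_of_nonneg_right hΞ1 hδ0.le
  obtain ⟨n, hn⟩ : ∃ n, ∀ f ∈ Ψ, lev f < J * n :=
    ⟨Ψ.sup lev + 1, fun f hf => lt_of_lt_of_le (Nat.lt_succ_of_le (le_sup hf))
      (Nat.le_mul_of_pos_left _ hJ0)⟩
  have bC := kcore_anchor hl χ o a R Λ M (J * n) hR hΛ ha ha1 C
    (fun j c hc => by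
      obtain ⟨f, hf, rfl⟩ := mem_image.1 (hC j hc)
      obtain ⟨e1, e2, e3⟩ := hmem j f hf
      exact ⟨f, rfl, e2, e3, (hΨ f e1).2.2⟩) hCs
  have bH := kcore_hull s t hl J n δ (8 / 5 * δ) (2 * (Ξ * δ)) κ H C hδ0.le (by linarith)
    (by linarith) (by linarith) hκ.le (by linarith)
    (fun j x hx y hy hne => by
      have := hHs j x hx y hy hne
      linarith)
    (fun j x hx => hcov j x (mem_union_left _ hx))
    (fun j x hx y hy hne X g1 g2 => by
      refine c2 X ((hH j x hx).trans_le (card_le_card fun v hv => g1 v (mem_filter.1 hv).2))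
        ((hH j y hy).trans_le (card_le_card fun v hv => mem_compl.2 fun hv' => ?_))
      have e1 := (mem_filter.1 hv).2
      have e2 := g2 v hv'
      have e3 := hHs j x hx y hy hne
      have e4 := hl.tri x v y
      have e5 : 0 < δ * (1 / 2) ^ j := by positivity
      rw [hl.symm v] at e4
      linarith)
  have bL := kcore_hull s t hl J n 0 (2 / 5 * δ) (2 * (Ξ * δ)) 1 L C le_rfl (by linarith)
    (by linarith) (by linarith) zero_le_one (by linarith)
    (fun j x hx y hy hne => by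
      have := hLs j x hx y hy hne
      linarith)
    (fun j x hx => hcov j x (mem_union_right _ hx))
    (fun j x hx y hy hne X g1 g2 => by
      refine Nat.one_le_cast.2 (c1 X ⟨x, g1 x (by rw [hl.self, zero_mul])⟩
        ⟨y, mem_compl.2 fun hv' => ?_⟩)
      have e2 := g2 y hv'
      have e3 := hLs j x hx y hy hne
      have e5 : 0 < δ * (1 / 2) ^ j := by positivity
      linarith)
  have bA := kcore_arith δ Ξ J (Pl s t l) Λ κ M (ν * k0) _ _ _ hδ0 hδ1 (by linarith) hJ2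
    (Pl_nonneg s t hl) hΛ hκ (Nat.one_le_cast.2 hM) (by positivity)
    (sum_nonneg fun j _ => by positivity) bC bH bL
  have bT : θ ^ 2 * ∑ f ∈ Ψ, a f ≤ Ξ * δ * (512 * (∑ j ∈ range (J * n), (1 / 2 : ℝ) ^ j * #(H j) +
      ∑ j ∈ range (J * n), (1 / 2 : ℝ) ^ j * #(C j)) +
      64 * (ν * k0) * ∑ j ∈ range (J * n), (1 / 2 : ℝ) ^ j * #(L j)) := by
    rw [← sum_fiberwise_of_maps_to (g := lev) fun f hf => mem_range.2 (hn f hf),
      ← sum_add_distrib, mul_sum, mul_sum, mul_sum, ← sum_add_distrib, mul_sum]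
    refine sum_le_sum fun j _ => ?_
    have e1 := sum_le_card_nsmul _ _ _ fun f hf => (hmem j f hf).2.2
    rw [nsmul_eq_mul] at e1
    have e2 := mul_le_mul_of_nonneg_left e1 (sq_nonneg θ)
    have e3 := mul_le_mul_of_nonneg_left (hm j) (show (0 : ℝ) ≤ (1 / 2) ^ j by positivity)
    linarith
  have hP := Pl_nonneg s t hl
  have hW : 0 ≤ Pl s t l / κ + Λ / M + ν * k0 * (Pl s t l + Λ) := by positivity
  refine le_of_mul_le_mul_left ((bT.trans bA).trans ?_) (pow_pos hθ 2)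
  rw [← mul_assoc]
  refine mul_le_mul_of_nonneg_right ?_ hW
  have e1 : 2 ^ 16 * Ξ ^ 2 = 2 ^ 44 * (R ^ 4 / θ ^ 8) := by rw [hΞ]; field_simp
  have e2 : θ ^ 2 * (2 ^ 50 * R ^ 4 / θ ^ 10) = 2 ^ 50 * (R ^ 4 / θ ^ 8) := by field_simp
  rw [e1, e2]
  gcongr <;> norm_num

end Pool.Agent.P.MP_e59a69_co
end

-- part Pool.Agent.P.MP_e59a69_co.KGen
section

/-! The general star lemma. -/

open Finset Function

namespace Pool.Agent.P.MP_e59a69_co

lemma kgen_cs {Φ : Type} [Fintype Φ] (S : Finset Φ) (m g : Φ → ℝ) (hm : ∀ f, 0 ≤ m f) (B x : ℝ)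
    (hx : 0 ≤ x) (hB : 0 ≤ B) (h1 : ∑ f ∈ S, m f ≤ x ^ 2) (h2 : ∑ f, g f ^ 2 ≤ 4 * B ^ 2) :
    ∑ f ∈ S, √(m f) * g f ≤ x * (2 * B) := by
  have h3 := sum_mul_sq_le_sq_mul_sq S (fun f => √(m f)) g
  have h4 : ∑ f ∈ S, √(m f) ^ 2 = ∑ f ∈ S, m f := sum_congr rfl fun f _ => Real.sq_sqrt (hm f)
  have h5 : ∑ f ∈ S, g f ^ 2 ≤ ∑ f, g f ^ 2 :=
    sum_le_sum_of_subset_of_nonneg (subset_univ _) fun _ _ _ => sq_nonneg _
  have h6 : 0 ≤ ∑ f ∈ S, g f ^ 2 := sum_nonneg fun _ _ => sq_nonneg _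
  rw [h4] at h3
  refine abs_le_of_sq_le_sq' ?_ (by positivity) |>.2
  calc (∑ f ∈ S, √(m f) * g f) ^ 2 ≤ (∑ f ∈ S, m f) * ∑ f ∈ S, g f ^ 2 := h3
    _ ≤ x ^ 2 * (4 * B ^ 2) := mul_le_mul h1 (h5.trans h2) h6 (sq_nonneg _)
    _ = (x * (2 * B)) ^ 2 := by ring

theorem kgen {V E Φ Y : Type} [Fintype V] [Fintype E] [Fintype Φ] [Fintype Y] [DecidableEq V]
    (s t : E → V) (χ : Φ → V → ℝ) (o : Φ → V) (a : Y → Φ → ℝ) (B η ν R Λ κ : ℝ) (k0 M : ℕ)
    (hB : 1 ≤ B) (hη : 0 < η) (hη1 : η ≤ 1) (hν : 0 ≤ ν) (hR : 1 ≤ R) (hΛ : 1 ≤ Λ) (hκ : 0 < κ)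
    (hM : 0 < M) (h0 : ∀ f, ∑ x, χ f x = 0) (h1 : ∀ f, ∑ x, |χ f x| ≤ 2)
    (h2 : ∀ f, ∑ x, χ f x ^ 2 ≤ ν) (hχ : ∀ f y, evl (χ f) y ^ 2 ≤ B * En s t y)
    (ha : ∀ y f, 0 ≤ a y f) (ha1 : ∀ y, ∑ f, a y f ≤ 1)
    (c1 : ∀ X : Finset V, X.Nonempty → Xᶜ.Nonempty → 1 ≤ ct s t univ X)
    (c2 : ∀ X : Finset V, k0 < #X → k0 < #Xᶜ → κ ≤ (ct s t univ X : ℝ))
    (hn : ∀ (lam : Y → ℝ) (l : V → V → ℝ), (∀ y, 0 ≤ lam y) → ∑ y, lam y ≤ 1 → Met l →
      Pl s t l ≤ 2 * B → ∃ S : Finset Φ, ∑ f ∈ S, mix lam a f ≤ (η / (16 * B)) ^ 2 ∧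
        ∀ f, f ∉ S → 0 < mix lam a f → Nice χ o R Λ M (mix lam a) l f)
    (hc : 2 ^ 50 * R ^ 4 / (η / 8) ^ 10 * (2 * B / κ + Λ / M + ν * k0 * (2 * B + Λ)) ≤
      (η / (16 * B)) ^ 2) :
    ∃ (D : V × V → ℝ) (r : Φ → ℝ), Dom s t D ∧ (∀ f, 0 ≤ r f) ∧
      (∀ f y, evl (χ f) y ^ 2 ≤ r f * (En s t y + ED D y)) ∧ ∀ y, ∑ f, a y f * r f ≤ η := by
  classical
  rcases kdual s t χ B η (by linarith) hη hχ a ha ha1 with h | ⟨lam, z, l, l0, l1, hl, hP, hz, hg, hF⟩
  · exact h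
  exfalso
  obtain ⟨S, hS, hS'⟩ := hn lam l l0 l1 hl hP
  set m := mix lam a with hm
  have m0 : ∀ f, 0 ≤ m f := fun f => sum_nonneg fun y _ => mul_nonneg (l0 y) (ha y f)
  have m1 : ∑ f, m f ≤ 1 := by
    simp only [hm, mix]
    rw [sum_comm]
    refine le_trans (sum_le_sum fun y _ => ?_) l1
    rw [← mul_sum]
    exact mul_le_of_le_one_right (l0 y) (ha1 y)
  let Ψ : Finset Φ := {f | f ∉ S ∧ 0 < m f ∧ η / 8 * √(m f) ≤ evl (χ f) (z f)}
  have hΨ := kcore s t hl χ o z m ν (η / 8) R Λ κ k0 M Ψ hz (by positivity) (by linarith) hR hΛ hκ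
    hν hM m0 m1 h0 h1 h2 c1 c2 fun f hf => by
      obtain ⟨a1, a2, a3⟩ := (mem_filter.1 hf).2
      exact ⟨a2, a3, hS' f a1 a2⟩
  have hP0 := Pl_nonneg s t hl
  have hΨ' : ∑ f ∈ Ψ, m f ≤ (η / (16 * B)) ^ 2 := by
    refine hΨ.trans (le_trans ?_ hc)
    gcongr
  have hx : 0 ≤ η / (16 * B) := by positivity
  have e1 := kgen_cs S m (fun f => evl (χ f) (z f)) m0 B _ hx (by linarith) hS hg
  have e2 := kgen_cs Ψ m (fun f => evl (χ f) (z f)) m0 B _ hx (by linarith) hΨ' hg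
  have e3 : η / (16 * B) * (2 * B) = η / 8 := by field_simp; ring
  rw [e3] at e1 e2
  have e4 : ∑ f, √(m f) * evl (χ f) (z f) ≤ ∑ f ∈ S, √(m f) * evl (χ f) (z f) +
      ∑ f ∈ Ψ, √(m f) * evl (χ f) (z f) + ∑ f, η / 8 * m f := by
    rw [← sum_ite_mem_eq S, ← sum_ite_mem_eq Ψ, ← sum_add_distrib, ← sum_add_distrib]
    refine sum_le_sum fun f _ => ?_
    have b0 : 0 ≤ η / 8 * m f := mul_nonneg (by positivity) (m0 f)
    by_cases f1 : f ∈ S
    · have f2 : f ∉ Ψ := fun h => (mem_filter.1 h).2.1 f1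
      simp only [f1, f2, if_true, if_false]
      linarith
    by_cases f2 : f ∈ Ψ
    · simp only [f1, f2, if_true, if_false]
      linarith
    simp only [f1, f2, if_false, zero_add]
    rcases (m0 f).eq_or_lt with f3 | f3
    · rw [← f3]; simp
    have f4 : evl (χ f) (z f) < η / 8 * √(m f) := by
      by_contra hc'
      exact f2 (mem_filter.2 ⟨mem_univ _, f1, f3, not_lt.1 hc'⟩)
    have f5 := Real.mul_self_sqrt (m0 f)
    have f6 := Real.sqrt_nonneg (m f)
    nlinarith [mul_le_mul_of_nonneg_left f4.le f6]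
  rw [← mul_sum] at e4
  nlinarith

end Pool.Agent.P.MP_e59a69_co
end

-- part Pool.Agent.P.MP_e59a69_co.KBall
section

/-! Balls and the walk operator: elementary facts. -/

open Finset Function

namespace Pool.Agent.P.MP_e59a69_co

variable {V E : Type} [Fintype V] [Fintype E] [DecidableEq V] {s t : E → V}

omit [Fintype V] in
lemma kball_nb_card (h : ∀ v, dg s t univ v = 3) (A : Finset E) (X : Finset V) :
    #(nb s t A X) ≤ 4 * #X := by
  have h1 : #{e | s e ∈ X} + #{e | t e ∈ X} = 3 * #X := by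
    rw [← sum_card_fiberwise_eq_card_filter, ← sum_card_fiberwise_eq_card_filter,
      ← sum_add_distrib, mul_comm, ← smul_eq_mul, ← sum_const]
    exact sum_congr rfl fun v _ => h v
  have h2 : #{e ∈ A | s e ∈ X} ≤ #{e | s e ∈ X} :=
    card_le_card (filter_subset_filter _ (subset_univ A))
  have h3 : #{e ∈ A | t e ∈ X} ≤ #{e | t e ∈ X} :=
    card_le_card (filter_subset_filter _ (subset_univ A))
  have h4 := card_union_le X ({e ∈ A | s e ∈ X}.image t ∪ {e ∈ A | t e ∈ X}.image s)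
  have h5 := card_union_le ({e ∈ A | s e ∈ X}.image t) ({e ∈ A | t e ∈ X}.image s)
  have h6 := card_image_le (s := {e ∈ A | s e ∈ X}) (f := t)
  have h7 := card_image_le (s := {e ∈ A | t e ∈ X}) (f := s)
  unfold nb
  omega

theorem card_kball (h : ∀ v, dg s t univ v = 3) (A : Finset E) (X : Finset V) (r : ℕ) :
    #(kball s t A X r) ≤ 4 ^ r * #X := by
  induction r with
  | zero => simp [kball_zero]
  | succ r ih =>
    rw [kball_succ, pow_succ', mul_assoc]
    exact (kball_nb_card h A _).trans (Nat.mul_le_mul_left 4 ih)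

omit [Fintype V] [Fintype E] in
theorem kball_mono (A : Finset E) {X X' : Finset V} (hX : X ⊆ X') {r r' : ℕ} (h : r ≤ r') :
    kball s t A X r ⊆ kball s t A X' r' := by
  have h1 : ∀ r, kball s t A X r ⊆ kball s t A X' r := fun r => by
    induction r with
    | zero => exact hX
    | succ r ih =>
      rw [kball_succ, kball_succ]
      intro v hv
      rw [mem_nb] at hv ⊢
      exact hv.imp (fun h => ih h) fun ⟨e, he, u, hu, hj⟩ => ⟨e, he, u, ih hu, hj⟩
  induction r', h using Nat.le_induction with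
  | base => exact h1 r
  | succ n _ ih =>
    rw [kball_succ]
    exact fun v hv => mem_nb.2 (Or.inl (ih hv))

omit [Fintype V] [Fintype E] in
theorem kball_symm (A : Finset E) {u v : V} {r : ℕ} (h : u ∈ kball s t A {v} r) :
    v ∈ kball s t A {u} r := by
  induction r generalizing u with
  | zero =>
    rw [kball_zero, mem_singleton] at h ⊢
    exact h.symm
  | succ r ih =>
    rw [kball_succ, mem_nb] at h
    rcases h with h | ⟨e, he, w, hw, hj⟩
    · exact kball_mono A subset_rfl r.le_succ (ih h)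
    · have h1 : ({w} : Finset V) ⊆ nb s t A {u} := singleton_subset_iff.2 (mem_nb.2 (Or.inr
        ⟨e, he, u, mem_singleton_self u, hj.symm.imp And.symm And.symm⟩))
      exact kball_mono A h1 le_rfl (ih hw)

omit [Fintype V] in
theorem kball_energy {u v : V} {r : ℕ} (h : u ∈ kball s t univ {v} r) (y : V → ℝ) :
    (y v - y u) ^ 2 ≤ (r : ℝ) ^ 2 * En s t y := by
  have h0 := Real.sqrt_nonneg (En s t y)
  have h1 : ∀ e, |y (s e) - y (t e)| ≤ √(En s t y) := fun e => Real.abs_le_sqrt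
    (single_le_sum (f := fun e => (y (s e) - y (t e)) ^ 2) (fun _ _ => sq_nonneg _) (mem_univ e))
  have h2 : |y v - y u| ≤ r * √(En s t y) := by
    induction r generalizing u with
    | zero =>
      rw [kball_zero, mem_singleton] at h
      simp [h]
    | succ r ih =>
      rw [kball_succ, mem_nb] at h
      push_cast
      rcases h with h | ⟨e, -, w, hw, hj⟩
      · linarith [ih h]
      · have h3 : |y w - y u| ≤ √(En s t y) := by
          rcases hj with ⟨rfl, rfl⟩ | ⟨rfl, rfl⟩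
          · exact h1 e
          · rw [abs_sub_comm]
            exact h1 e
        linarith [ih hw, abs_sub_le (y v) (y w) (y u)]
  have h3 := pow_le_pow_left₀ (abs_nonneg _) h2 2
  rwa [sq_abs, mul_pow, Real.sq_sqrt (En_nonneg s t y)] at h3

lemma kball_fib (s : E → V) (F : E → V → ℝ) :
    ∑ v, ∑ e with s e = v, F e v = ∑ e, F e (s e) := by
  rw [← sum_fiberwise univ s fun e => F e (s e)]
  exact sum_congr rfl fun v _ => sum_congr rfl fun e he => by rw [(mem_filter.1 he).2]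

/-- the length of the edges at a vertex -/
def kballB (s t : E → V) (l : V → V → ℝ) (x : V) : ℝ :=
  ∑ e with s e = x, l (s e) (t e) + ∑ e with t e = x, l (s e) (t e)

lemma kball_sumB (l : V → V → ℝ) : ∑ x, kballB s t l x = 2 * Pl s t l := by
  unfold kballB Pl
  rw [sum_add_distrib, sum_fiberwise, sum_fiberwise, two_mul]

omit [Fintype V] in
lemma kball_B_nonneg {l : V → V → ℝ} (hl : Met l) (x : V) : 0 ≤ kballB s t l x :=
  add_nonneg (sum_nonneg fun _ _ => hl.nonneg _ _) (sum_nonneg fun _ _ => hl.nonneg _ _)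

omit [Fintype V] in
lemma kball_le_B {l : V → V → ℝ} (hl : Met l) {e : E} {w u : V} (hj : Jn s t e w u) :
    l w u ≤ kballB s t l w := by
  have h0 : ∀ (S : Finset E), ∀ e ∈ S, 0 ≤ l (s e) (t e) := fun _ _ _ => hl.nonneg _ _
  rcases hj with ⟨rfl, rfl⟩ | ⟨rfl, rfl⟩
  · exact le_add_of_le_of_nonneg (single_le_sum (h0 _) (mem_filter.2 ⟨mem_univ e, rfl⟩))
      (sum_nonneg (h0 _))
  · rw [hl.symm]
    exact le_add_of_nonneg_of_le (sum_nonneg (h0 _))
      (single_le_sum (h0 _) (mem_filter.2 ⟨mem_univ e, rfl⟩))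

omit [Fintype V] in
lemma kball_dist {l : V → V → ℝ} (hl : Met l) {u v : V} {r : ℕ} (h : u ∈ kball s t univ {v} r) :
    l v u ≤ ∑ i ∈ range r, ∑ x ∈ kball s t univ {v} i, kballB s t l x := by
  induction r generalizing u with
  | zero =>
    rw [kball_zero, mem_singleton] at h
    simp [h, hl.self]
  | succ r ih =>
    rw [kball_succ, mem_nb] at h
    rw [sum_range_succ]
    rcases h with h | ⟨e, -, w, hw, hj⟩
    · exact le_add_of_le_of_nonneg (ih h) (sum_nonneg fun x _ => kball_B_nonneg hl x)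
    · exact (hl.tri v w u).trans (add_le_add (ih hw) ((kball_le_B hl hj).trans
        (single_le_sum (fun x _ => kball_B_nonneg hl x) hw)))

theorem kball_length (h : ∀ v, dg s t univ v = 3) {l : V → V → ℝ} (hl : Met l) (r : ℕ) :
    ∑ v, ∑ u ∈ kball s t univ {v} r, l v u ≤ 2 * 16 ^ r * Pl s t l := by
  have hP := Pl_nonneg s t hl
  have hc : ∀ (i : ℕ) (v : V), (#(kball s t univ {v} i) : ℝ) ≤ 4 ^ i := fun i v => by
    have := card_kball h univ {v} i
    rw [card_singleton, mul_one] at this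
    exact_mod_cast this
  have h1 : ∀ i : ℕ, ∑ v, ∑ x ∈ kball s t univ {v} i, kballB s t l x ≤ 4 ^ i * (2 * Pl s t l) :=
    fun i => by
      rw [sum_comm' (s' := fun x => kball s t univ {x} i) (t' := univ) fun v x =>
        ⟨fun hx => ⟨kball_symm _ hx.2, mem_univ _⟩, fun hx => ⟨mem_univ _, kball_symm _ hx.1⟩⟩,
        ← kball_sumB, mul_sum]
      refine sum_le_sum fun x _ => ?_
      rw [sum_const, nsmul_eq_mul]
      exact mul_le_mul_of_nonneg_right (hc i x) (kball_B_nonneg hl x)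
  have h2 : ∀ r : ℕ, ∑ i ∈ range r, (4 : ℝ) ^ i ≤ 4 ^ r := fun r => by
    induction r with
    | zero => simp
    | succ r ih =>
      rw [sum_range_succ, pow_succ]
      linarith [pow_pos (show (0 : ℝ) < 4 by norm_num) r]
  calc ∑ v, ∑ u ∈ kball s t univ {v} r, l v u
      ≤ ∑ v, 4 ^ r * ∑ i ∈ range r, ∑ x ∈ kball s t univ {v} i, kballB s t l x := by
        refine sum_le_sum fun v _ => (sum_le_card_nsmul _ _ _ fun u hu => kball_dist hl hu).trans ?_
        rw [nsmul_eq_mul]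
        exact mul_le_mul_of_nonneg_right (hc r v)
          (sum_nonneg fun i _ => sum_nonneg fun x _ => kball_B_nonneg hl x)
    _ ≤ 4 ^ r * ∑ i ∈ range r, 4 ^ i * (2 * Pl s t l) := by
        rw [← mul_sum, sum_comm]
        exact mul_le_mul_of_nonneg_left (sum_le_sum fun i _ => h1 i) (by positivity)
    _ ≤ 4 ^ r * (4 ^ r * (2 * Pl s t l)) := by
        rw [← sum_mul]
        gcongr
        exact h2 r
    _ = _ := by
        rw [show (16 : ℝ) = 4 * 4 by norm_num, mul_pow]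
        ring

lemma kball_evl (x y : V → ℝ) :
    3 * evl (Pw s t x) y = ∑ e, (x (t e) * y (s e) + x (s e) * y (t e)) := by
  rw [sum_add_distrib, ← kball_fib s fun e v => x (t e) * y v,
    ← kball_fib t fun e v => x (s e) * y v, ← sum_add_distrib, evl, mul_sum]
  refine sum_congr rfl fun v _ => ?_
  rw [← sum_mul, ← sum_mul, Pw]
  ring

theorem Pw_symm (n : ℕ) (x y : V → ℝ) : evl ((Pw s t)^[n] x) y = evl x ((Pw s t)^[n] y) := by
  have h1 : ∀ x y : V → ℝ, evl (Pw s t x) y = evl x (Pw s t y) := fun x y => by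
    have h2 : evl x (Pw s t y) = evl (Pw s t y) x := sum_congr rfl fun v _ => mul_comm _ _
    have h3 : 3 * evl (Pw s t x) y = 3 * evl (Pw s t y) x := by
      rw [kball_evl, kball_evl]
      exact sum_congr rfl fun e _ => by ring
    linarith
  induction n generalizing y with
  | zero => rfl
  | succ n ih => rw [iterate_succ_apply', h1, ih, iterate_succ_apply]

omit [Fintype V] in
theorem Pw_nonneg (n : ℕ) {x : V → ℝ} (hx : ∀ v, 0 ≤ x v) (v : V) : 0 ≤ (Pw s t)^[n] x v := by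
  induction n generalizing v with
  | zero => exact hx v
  | succ n ih =>
    rw [iterate_succ_apply']
    exact div_nonneg (add_nonneg (sum_nonneg fun e _ => ih _) (sum_nonneg fun e _ => ih _))
      (by norm_num)

omit [Fintype V] in
lemma kball_dg (h : ∀ v, dg s t univ v = 3) (v : V) (c : ℝ) :
    ∑ e with s e = v, c + ∑ e with t e = v, c = 3 * c := by
  rw [sum_const, sum_const, ← add_nsmul, show #{e | s e = v} + #{e | t e = v} = 3 from h v,
    nsmul_eq_mul, Nat.cast_ofNat]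

lemma kball_deg (h : ∀ v, dg s t univ v = 3) (x : V → ℝ) :
    ∑ e, (x (s e) + x (t e)) = 3 * ∑ v, x v := by
  rw [sum_add_distrib, ← kball_fib s fun _ v => x v, ← kball_fib t fun _ v => x v,
    ← sum_add_distrib, mul_sum]
  exact sum_congr rfl fun v _ => kball_dg h v (x v)

lemma kball_sum (h : ∀ v, dg s t univ v = 3) (x : V → ℝ) : ∑ v, Pw s t x v = ∑ v, x v := by
  have h1 := kball_evl (s := s) (t := t) x fun _ => 1
  have h2 := kball_deg h x
  simp only [evl, mul_one, sum_add_distrib] at h1 h2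
  linarith

theorem Pw_sum (h : ∀ v, dg s t univ v = 3) (n : ℕ) (x : V → ℝ) :
    ∑ v, (Pw s t)^[n] x v = ∑ v, x v := by
  induction n with
  | zero => rfl
  | succ n ih => rw [iterate_succ_apply', kball_sum h, ih]

theorem Pw_energy (h : ∀ v, dg s t univ v = 3) (n : ℕ) (y : V → ℝ) :
    En s t ((Pw s t)^[n] y) ≤ En s t y := by
  have h1 : ∀ y : V → ℝ, En s t (Pw s t y) ≤ En s t y := fun y => by
    obtain ⟨z, hz⟩ : ∃ z, z = Pw s t y := ⟨_, rfl⟩
    have f1 := kball_evl (s := s) (t := t) y z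
    have f2 := kball_evl (s := s) (t := t) y y
    rw [← hz, evl, ← kball_deg h] at f1 f2
    have f3 : 0 ≤ ∑ e, (y (s e) - z (s e) + (y (t e) - z (t e))) ^ 2 :=
      sum_nonneg fun _ _ => sq_nonneg _
    have f4 : En s t y = En s t z + ∑ e, (y (s e) - z (s e) + (y (t e) - z (t e))) ^ 2 +
        2 * (∑ e, (y (t e) * z (s e) + y (s e) * z (t e)) -
          ∑ e, (z (s e) * z (s e) + z (t e) * z (t e))) -
        2 * (∑ e, (y (t e) * y (s e) + y (s e) * y (t e)) -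
          ∑ e, (z (s e) * y (s e) + z (t e) * y (t e))) := by
      simp only [En, mul_sum, ← sum_add_distrib, ← sum_sub_distrib]
      exact sum_congr rfl fun e _ => by ring
    rw [← hz]
    linarith
  induction n with
  | zero => exact le_rfl
  | succ n ih =>
    rw [iterate_succ_apply']
    exact (h1 _).trans ih

theorem Pw_length (h : ∀ v, dg s t univ v = 3) {l : V → V → ℝ} (hl : Met l) (n : ℕ) :
    ∑ v, (Pw s t)^[n] (l v) v ≤ n * Pl s t l := by
  have hP := Pl_nonneg s t hl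
  have h1 : ∃ g : V → ℝ, ∑ x, g x ≤ n * Pl s t l ∧
      ∀ v x, (Pw s t)^[n] (l v) x ≤ l v x + g x := by
    induction n with
    | zero => exact ⟨0, by simp, fun v x => by simp⟩
    | succ n ih =>
      obtain ⟨g, h1, h2⟩ := ih
      refine ⟨fun x => kballB s t l x / 3 + Pw s t g x, ?_, fun v x => ?_⟩
      · rw [sum_add_distrib, ← sum_div, kball_sumB, kball_sum h]
        push_cast
        linarith
      · have a1 : ∑ e with s e = x, (Pw s t)^[n] (l v) (t e) ≤
            ∑ e with s e = x, (l v x + l (s e) (t e) + g (t e)) := sum_le_sum fun e he => by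
          rw [← (mem_filter.1 he).2]
          linarith [h2 v (t e), hl.tri v (s e) (t e)]
        have a2 : ∑ e with t e = x, (Pw s t)^[n] (l v) (s e) ≤
            ∑ e with t e = x, (l v x + l (s e) (t e) + g (s e)) := sum_le_sum fun e he => by
          rw [← (mem_filter.1 he).2]
          linarith [h2 v (s e), hl.tri v (t e) (s e), hl.symm (t e) (s e)]
        have a3 := kball_dg h x (l v x)
        rw [sum_add_distrib, sum_add_distrib] at a1 a2
        rw [iterate_succ_apply']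
        unfold Pw kballB
        unfold Pw at a1 a2
        linarith
  obtain ⟨g, h1, h2⟩ := h1
  refine le_trans (sum_le_sum fun v _ => ?_) h1
  have := h2 v v
  rwa [hl.self, zero_add] at this

end Pool.Agent.P.MP_e59a69_co
end

-- part Pool.Agent.P.MP_e59a69_co.KWalk
section

/-! Decay of the walk in tree-like balls and the segment estimate. -/

open Finset Function

namespace Pool.Agent.P.MP_e59a69_co

variable {V E : Type} [Fintype V] [Fintype E] [DecidableEq V] {s t : E → V} {c : ℕ}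

lemma kwalk_fib (s : E → V) (x : V → ℝ) (g : E → ℝ) :
    ∑ v, x v * ∑ e with s e = v, g e = ∑ e, x (s e) * g e := by
  rw [← sum_fiberwise univ s fun e => x (s e) * g e]
  refine sum_congr rfl fun v _ => ?_
  rw [mul_sum]
  exact sum_congr rfl fun e he => by rw [(mem_filter.1 he).2]

lemma kwalk_edge (h : ∀ v, dg s t univ v = 3) (g : V → ℝ) :
    ∑ e, (g (s e) + g (t e)) = 3 * ∑ v, g v := by
  have h1 := kwalk_fib s g fun _ => 1
  have h2 := kwalk_fib t g fun _ => 1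
  simp only [mul_one, sum_const, nsmul_eq_mul] at h1 h2
  rw [sum_add_distrib, ← h1, ← h2, ← sum_add_distrib, mul_sum]
  refine sum_congr rfl fun v _ => ?_
  have h3 := congrArg (Nat.cast : ℕ → ℝ) (h v)
  unfold dg at h3
  push_cast at h3
  linear_combination g v * h3

lemma kwalk_evl (x y : V → ℝ) :
    3 * evl x (Pw s t y) = ∑ e, (x (s e) * y (t e) + x (t e) * y (s e)) := by
  rw [sum_add_distrib, ← kwalk_fib s x, ← kwalk_fib t x, ← sum_add_distrib, evl, mul_sum]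
  refine sum_congr rfl fun v _ => ?_
  unfold Pw
  ring

lemma kwalk_grad (h : ∀ v, dg s t univ v = 3) (x y : V → ℝ) :
    ∑ e, (x (s e) - x (t e)) * (y (s e) - y (t e)) = 3 * (evl x y - evl x (Pw s t y)) := by
  rw [mul_sub, kwalk_evl, evl, ← kwalk_edge h fun v => x v * y v, ← sum_sub_distrib]
  exact sum_congr rfl fun e _ => by ring

lemma kwalk_cake (S : Finset V) (hS : ∀ Z ⊆ S, Z.Nonempty → #Z ≤ ct s t univ Z) (n : ℕ) :
    ∀ g : V → ℝ, (∀ v, 0 ≤ g v) → (∀ v, v ∉ S → g v = 0) → #{v | 0 < g v} ≤ n →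
      ∑ v, g v ≤ ∑ e, |g (s e) - g (t e)| := by
  classical
  induction n with
  | zero =>
    intro g h0 _ hn
    have h1 : ∀ v, g v = 0 := fun v => by
      by_contra hv
      have : v ∈ ({v | 0 < g v} : Finset V) := by simpa using (h0 v).lt_of_ne' hv
      have := card_pos.2 ⟨v, this⟩
      omega
    simp [h1]
  | succ n ih =>
    intro g h0 h1 hn
    obtain ⟨Z, hZ⟩ : ∃ Z : Finset V, Z = univ.filter fun v => 0 < g v := ⟨_, rfl⟩
    have hm : ∀ v, v ∈ Z ↔ 0 < g v := fun v => by simp [hZ]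
    rcases Z.eq_empty_or_nonempty with he | hne
    · exact ih g h0 h1 (by rw [← hZ, he]; simp)
    obtain ⟨u, hu, hmin⟩ := exists_min_image Z g hne
    have hz : ∀ v, v ∉ Z → g v = 0 := fun v hv => le_antisymm (not_lt.1 (mt (hm v).2 hv)) (h0 v)
    have hZS : Z ⊆ S := fun v hv => by
      by_contra hc
      exact ((hm v).1 hv).ne' (h1 v hc)
    have hgu := (hm u).1 hu
    have h2 := ih (fun v => g v - g u * ind1 Z v) (fun v => ?_) (fun v hv => ?_) ?_
    · have h3 : ∑ v, ind1 Z v = (#Z : ℝ) := by simp [ind1]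
      have h4 : (#Z : ℝ) ≤ En s t (ind1 Z) := by
        rw [En_ind1]
        exact_mod_cast hS Z hZS hne
      have h5 : ∑ e, |g (s e) - g (t e)| =
          ∑ e, |g (s e) - g u * ind1 Z (s e) - (g (t e) - g u * ind1 Z (t e))| +
            g u * En s t (ind1 Z) := by
        rw [En, mul_sum, ← sum_add_distrib]
        refine sum_congr rfl fun e _ => ?_
        by_cases a : s e ∈ Z <;> by_cases b : t e ∈ Z
        · simp [ind1, a, b]
        · have := hmin _ a
          simp only [ind1, a, b, if_true, if_false, hz _ b]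
          rw [abs_of_nonneg (by linarith), abs_of_nonneg (by linarith)]
          ring
        · have := hmin _ b
          simp only [ind1, a, b, if_true, if_false, hz _ a]
          rw [abs_of_nonpos (by linarith), abs_of_nonpos (by linarith)]
          ring
        · simp [ind1, a, b]
      rw [sum_sub_distrib, ← mul_sum, h3] at h2
      rw [h5]
      nlinarith [mul_le_mul_of_nonneg_left h4 hgu.le]
    · by_cases a : v ∈ Z
      · have := hmin _ a
        simp only [ind1, a, if_true]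
        linarith
      · simp [ind1, a, h0 v]
    · have a : v ∉ Z := fun a => hv (hZS a)
      simp [ind1, a, h1 v hv]
    · have h6 : ({v | 0 < g v - g u * ind1 Z v} : Finset V) ⊆ Z.erase u := by
        intro v hv
        have hv' := (mem_filter.1 hv).2
        by_cases a : v ∈ Z
        · refine mem_erase.2 ⟨?_, a⟩
          rintro rfl
          simp [ind1, a] at hv'
        · simp [ind1, a, hz v a] at hv'
      have h7 := card_le_card h6
      rw [card_erase_of_mem hu] at h7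
      rw [← hZ] at hn
      omega

lemma kwalk_quad (h : ∀ v, dg s t univ v = 3) (S : Finset V)
    (hS : ∀ Z ⊆ S, Z.Nonempty → #Z ≤ ct s t univ Z) (f : V → ℝ) (hf : ∀ v, v ∉ S → f v = 0) :
    |∑ e, 2 * (f (s e) * f (t e))| ≤ 3 * (19 / 20) * ∑ v, f v ^ 2 := by
  have h1 := kwalk_cake S hS _ (fun v => f v ^ 2) (fun v => sq_nonneg _)
    (fun v hv => by simp [hf v hv]) le_rfl
  have h2 := kwalk_edge h fun v => f v ^ 2
  have hA : 0 ≤ ∑ v, f v ^ 2 := sum_nonneg fun _ _ => sq_nonneg _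
  have h3 := sum_mul_sq_le_sq_mul_sq univ (fun e => |f (s e) - f (t e)|)
    fun e => |f (s e) + f (t e)|
  have h4 : ∑ e, |f (s e) - f (t e)| * |f (s e) + f (t e)| = ∑ e, |f (s e) ^ 2 - f (t e) ^ 2| :=
    sum_congr rfl fun e _ => by rw [← abs_mul]; exact congrArg abs (by ring)
  have h5 : ∑ e, |f (s e) - f (t e)| ^ 2 = 3 * ∑ v, f v ^ 2 - ∑ e, 2 * (f (s e) * f (t e)) := by
    rw [← h2, ← sum_sub_distrib]
    exact sum_congr rfl fun e _ => by rw [sq_abs]; ring
  have h6 : ∑ e, |f (s e) + f (t e)| ^ 2 = 3 * ∑ v, f v ^ 2 + ∑ e, 2 * (f (s e) * f (t e)) := by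
    rw [← h2, ← sum_add_distrib]
    exact sum_congr rfl fun e _ => by rw [sq_abs]; ring
  rw [h4, h5, h6] at h3
  have h7 := pow_le_pow_left₀ hA h1 2
  refine abs_le_of_sq_le_sq ?_ (by positivity)
  nlinarith [sq_nonneg (∑ v, f v ^ 2)]

lemma kwalk_step (h : ∀ v, dg s t univ v = 3) (S : Finset V)
    (hS : ∀ Z ⊆ S, Z.Nonempty → #Z ≤ ct s t univ Z) (f : V → ℝ) (hf : ∀ v, v ∉ S → f v = 0)
    (hg : ∀ v, v ∉ S → Pw s t f v = 0) :
    ∑ v, Pw s t f v ^ 2 ≤ (19 / 20) ^ 2 * ∑ v, f v ^ 2 := by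
  have h0 := kwalk_evl (s := s) (t := t) (Pw s t f) f
  have e0 : evl (Pw s t f) (Pw s t f) = ∑ v, Pw s t f v ^ 2 :=
    sum_congr rfl fun v _ => (sq _).symm
  rw [e0] at h0
  generalize Pw s t f = g at hg h0 ⊢
  have h1 := kwalk_quad h S hS (fun v => 19 / 20 * f v + g v) fun v hv => by
    simp [hf v hv, hg v hv]
  have h2 := kwalk_quad h S hS (fun v => 19 / 20 * f v - g v) fun v hv => by
    simp [hf v hv, hg v hv]
  have h3 : ∑ e, 2 * ((19 / 20 * f (s e) + g (s e)) * (19 / 20 * f (t e) + g (t e))) -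
      ∑ e, 2 * ((19 / 20 * f (s e) - g (s e)) * (19 / 20 * f (t e) - g (t e))) =
      4 * (19 / 20) * ∑ e, (g (s e) * f (t e) + g (t e) * f (s e)) := by
    rw [← sum_sub_distrib, mul_sum]
    exact sum_congr rfl fun e _ => by ring
  have h4 : ∑ v, (19 / 20 * f v + g v) ^ 2 + ∑ v, (19 / 20 * f v - g v) ^ 2 =
      2 * (19 / 20) ^ 2 * ∑ v, f v ^ 2 + 2 * ∑ v, g v ^ 2 := by
    rw [← sum_add_distrib, mul_sum, mul_sum, ← sum_add_distrib]
    exact sum_congr rfl fun v _ => by ring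
  have h5 := (abs_le.1 h1).2
  have h6 := (abs_le.1 h2).1
  rw [← h0] at h3
  linarith

omit [Fintype V] in
lemma kwalk_supp (X : Finset V) (x : V → ℝ) (hx : ∀ v, v ∉ X → x v = 0) (v : V)
    (hv : v ∉ nb s t univ X) : Pw s t x v = 0 := by
  have h1 : ∑ e with s e = v, x (t e) = 0 := sum_eq_zero fun e he => hx _ fun hc =>
    hv (mem_nb.2 (Or.inr ⟨e, mem_univ _, _, hc, Or.inr ⟨rfl, (mem_filter.1 he).2⟩⟩))
  have h2 : ∑ e with t e = v, x (s e) = 0 := sum_eq_zero fun e he => hx _ fun hc =>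
    hv (mem_nb.2 (Or.inr ⟨e, mem_univ _, _, hc, Or.inl ⟨rfl, (mem_filter.1 he).2⟩⟩))
  rw [Pw, h1, h2]
  simp

omit [Fintype V] in
lemma kwalk_supp_iter (T : Finset V) (x : V → ℝ) (hx : ∀ v, v ∉ T → x v = 0) (k : ℕ) :
    ∀ v, v ∉ kball s t univ T k → (Pw s t)^[k] x v = 0 := by
  induction k with
  | zero => exact hx
  | succ k ih =>
    intro v hv
    rw [iterate_succ_apply']
    rw [kball_succ] at hv
    exact kwalk_supp _ _ ih v hv

lemma kwalk_decay (H : Cub s t c) (T : Finset V) (n : ℕ) (hc : 4 ^ n * #T + 2 ≤ c) (x : V → ℝ)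
    (hx : ∀ v, v ∉ T → x v = 0) (k : ℕ) (hk : k ≤ n) :
    ∑ v, (Pw s t)^[k] x v ^ 2 ≤ (19 / 20) ^ (2 * k) * ∑ v, x v ^ 2 := by
  have hS : ∀ Z ⊆ kball s t univ T n, Z.Nonempty → #Z ≤ ct s t univ Z := fun Z hZ hne => by
    have h1 := card_le_card hZ
    have h2 := card_kball H.deg univ T n
    have h3 := H.small Z hne (by omega)
    omega
  have hs : ∀ j ≤ n, ∀ v, v ∉ kball s t univ T n → (Pw s t)^[j] x v = 0 := fun j hj v hv =>
    kwalk_supp_iter T x hx j v fun h => hv (kball_mono univ Subset.rfl hj h)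
  induction k with
  | zero => simp
  | succ k ih =>
    have h1 := kwalk_step H.deg _ hS ((Pw s t)^[k] x) (hs k (by omega)) (by
      have := hs (k + 1) hk
      rwa [iterate_succ_apply'] at this)
    rw [iterate_succ_apply']
    refine h1.trans ?_
    rw [show 2 * (k + 1) = 2 + 2 * k by ring, pow_add, mul_assoc]
    exact mul_le_mul_of_nonneg_left (ih (by omega)) (by positivity)

theorem Pw_decay (H : Cub s t c) (T : Finset V) (n : ℕ) (hc : 4 ^ n * #T + 2 ≤ c) (x : V → ℝ)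
    (hx : ∀ v, v ∉ T → x v = 0) :
    ∑ v, (Pw s t)^[n] x v ^ 2 ≤ (19 / 20) ^ (2 * n) * ∑ v, x v ^ 2 :=
  kwalk_decay H T n hc x hx n le_rfl

omit [DecidableEq V] in
lemma kwalk_cs (a b : V → ℝ) (N β : ℝ) (hN : 0 ≤ N) (hβ : 0 ≤ β) (ha : ∑ v, a v ^ 2 ≤ N)
    (hb : ∑ v, b v ^ 2 ≤ β ^ 2 * N) : |evl a b| ≤ β * N := by
  refine abs_le_of_sq_le_sq ?_ (by positivity)
  refine (sum_mul_sq_le_sq_mul_sq univ a b).trans ?_
  calc (∑ v, a v ^ 2) * ∑ v, b v ^ 2 ≤ N * (β ^ 2 * N) :=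
        mul_le_mul ha hb (sum_nonneg fun _ _ => sq_nonneg _) hN
    _ = (β * N) ^ 2 := by ring

lemma kwalk_geom (n : ℕ) : ∑ i ∈ range n, (19 / 20 : ℝ) ^ i = 20 - 20 * (19 / 20) ^ n := by
  induction n with
  | zero => simp
  | succ n ih => rw [sum_range_succ, ih, pow_succ]; ring

omit [DecidableEq V] in
lemma kwalk_evl_sum (n : ℕ) (a : ℕ → V → ℝ) (y : V → ℝ) :
    evl (fun v => ∑ i ∈ range n, a i v) y = ∑ i ∈ range n, evl (a i) y := by
  simp only [evl, sum_mul]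
  exact sum_comm

omit [DecidableEq V] in
lemma kwalk_evl_comm (a b : V → ℝ) : evl a b = evl b a :=
  sum_congr rfl fun _ _ => mul_comm _ _

lemma kwalk_tel (h : ∀ v, dg s t univ v = 3) (n : ℕ) (f y : V → ℝ) :
    ∑ e, ((∑ i ∈ range n, (Pw s t)^[i] f (s e)) - ∑ i ∈ range n, (Pw s t)^[i] f (t e)) *
      (y (s e) - y (t e)) = 3 * (evl f y - evl ((Pw s t)^[n] f) y) := by
  rw [kwalk_grad h (fun v => ∑ i ∈ range n, (Pw s t)^[i] f v) y, kwalk_evl_sum, kwalk_evl_sum,
    ← sum_sub_distrib]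
  have h1 : ∀ i, evl ((Pw s t)^[i] f) (Pw s t y) = evl ((Pw s t)^[i + 1] f) y := fun i => by
    rw [iterate_succ_apply']
    exact (Pw_symm 1 _ y).symm
  simp only [h1]
  rw [sum_range_sub' (fun i => evl ((Pw s t)^[i] f) y) n]
  rfl

theorem Pw_seg (H : Cub s t c) (T : Finset V) (hT : T.Nonempty) (n : ℕ)
    (hc : 4 ^ n * #T + 2 ≤ c) (y : V → ℝ) :
    ((∑ v ∈ T, y v) / #T - (∑ v ∈ T, (Pw s t)^[n] y v) / #T) ^ 2 ≤ 14 / #T * En s t y := by
  have hT0 : (0 : ℝ) < #T := by exact_mod_cast card_pos.2 hT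
  obtain ⟨f, hf⟩ : ∃ f : V → ℝ, ∀ v, f v = if v ∈ T then 1 / (#T : ℝ) else 0 := ⟨_, fun _ => rfl⟩
  have h1 : ∀ z : V → ℝ, evl f z = (∑ v ∈ T, z v) / #T := fun z => by
    simp only [evl, hf, ite_mul, zero_mul, sum_ite_mem, univ_inter, sum_div]
    exact sum_congr rfl fun v _ => by ring
  have h2 : ∑ v, f v ^ 2 = 1 / #T := by
    have e : ∑ v, f v ^ 2 = evl f f := sum_congr rfl fun v _ => sq _
    rw [e, h1, sum_congr rfl fun v hv => (hf v).trans (if_pos hv), sum_const, nsmul_eq_mul]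
    field_simp
  have hN : (0 : ℝ) ≤ 1 / #T := by positivity
  have h3 : ∀ k ≤ n, ∑ v, (Pw s t)^[k] f v ^ 2 ≤ ((19 / 20) ^ k) ^ 2 * (1 / #T) := fun k hk => by
    rw [← h2, ← pow_mul, mul_comm k 2]
    exact kwalk_decay H T n hc f (fun v hv => (hf v).trans (if_neg hv)) k hk
  have h4 : ∑ v, (Pw s t)^[n] f v ^ 2 ≤ 1 / #T :=
    (h3 n le_rfl).trans (mul_le_of_le_one_left hN
      (pow_le_one₀ (by positivity) (pow_le_one₀ (by norm_num) (by norm_num))))
  have h5 : En s t (fun v => ∑ i ∈ range n, (Pw s t)^[i] f v) ≤ 120 * (1 / #T) := by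
    have e := kwalk_tel H.deg n f fun v => ∑ i ∈ range n, (Pw s t)^[i] f v
    rw [kwalk_evl_comm f, kwalk_evl_comm ((Pw s t)^[n] f), kwalk_evl_sum, kwalk_evl_sum,
      ← sum_sub_distrib] at e
    have h6 : ∑ i ∈ range n, (evl ((Pw s t)^[i] f) f - evl ((Pw s t)^[i] f) ((Pw s t)^[n] f)) ≤
        ∑ i ∈ range n, (19 / 20) ^ i * (2 * (1 / (#T : ℝ))) := by
      refine sum_le_sum fun i hi => ?_
      have hi' := h3 i (mem_range.1 hi).le
      have a := kwalk_cs f _ _ _ hN (by positivity) h2.le hi'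
      have b := kwalk_cs _ _ _ _ hN (by positivity) h4 hi'
      rw [kwalk_evl_comm] at a b
      linarith [(abs_le.1 a).2, (abs_le.1 b).1]
    rw [← sum_mul, kwalk_geom] at h6
    have h7 : (0 : ℝ) ≤ (19 / 20) ^ n * (1 / #T) := by positivity
    unfold En
    simp only [sq]
    rw [e]
    linarith
  have h8 := kwalk_tel H.deg n f y
  have h9 := sum_mul_sq_le_sq_mul_sq univ
    (fun e => (∑ i ∈ range n, (Pw s t)^[i] f (s e)) - ∑ i ∈ range n, (Pw s t)^[i] f (t e))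
    fun e => y (s e) - y (t e)
  rw [h8, Pw_symm, h1, h1] at h9
  have h10 := En_nonneg s t y
  have h11 := mul_le_mul_of_nonneg_right h5 h10
  have h12 : 0 ≤ 1 / (#T : ℝ) * En s t y := by positivity
  have e : 14 / (#T : ℝ) * En s t y = 14 * (1 / (#T : ℝ) * En s t y) := by ring
  rw [e]
  unfold En at h11 h12 ⊢
  linarith

end Pool.Agent.P.MP_e59a69_co
end

-- part Pool.Agent.P.MP_e59a69_co.KBin
section

/-! Classes of comparable mass that few edges leave. -/

open Finset Function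

namespace Pool.Agent.P.MP_e59a69_co

lemma kbin_her (lam : ℕ) (hlam : 0 < lam) (x g : ℕ) :
    ∑ σ ∈ range lam, (x + g + σ) / lam = ∑ σ ∈ range lam, (x + σ) / lam + g := by
  induction g with
  | zero => rfl
  | succ g ih =>
    have h1 := sum_range_succ (fun σ => (x + g + σ) / lam) lam
    have h2 := sum_range_succ' (fun σ => (x + g + σ) / lam) lam
    have h3 : ∑ σ ∈ range lam, (x + (g + 1) + σ) / lam =
        ∑ σ ∈ range lam, (x + g + (σ + 1)) / lam :=
      sum_congr rfl fun σ _ => by rw [show x + (g + 1) + σ = x + g + (σ + 1) by omega]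
    rw [Nat.add_div_right _ hlam] at h1
    rw [add_zero] at h2
    omega

lemma kbin_cnt (lam : ℕ) (hlam : 0 < lam) (x g : ℕ) :
    #{σ ∈ range lam | (x + σ) / lam ≠ (x + g + σ) / lam} ≤ g := by
  have h1 := kbin_her lam hlam x g
  have h2 : ∑ σ ∈ range lam, ((x + σ) / lam +
      if (x + σ) / lam ≠ (x + g + σ) / lam then 1 else 0) ≤ ∑ σ ∈ range lam, (x + g + σ) / lam :=
    sum_le_sum fun σ _ => by
      have : (x + σ) / lam ≤ (x + g + σ) / lam := Nat.div_le_div_right (by omega)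
      split_ifs <;> omega
  rw [sum_add_distrib, ← card_filter] at h2
  omega

lemma kbin_edge (lam : ℕ) (hlam : 0 < lam) {x y : ℕ} (hxy : x ≤ y) {w p : ℝ}
    (h1 : w ≤ (1 / 2) ^ y) (h2 : (1 / 2) ^ (x + 1) < p) :
    w * #{σ ∈ range lam | (x + σ) / lam ≠ (y + σ) / lam} ≤ p := by
  obtain ⟨g, rfl⟩ := Nat.exists_eq_add_of_le hxy
  have h3 : (#{σ ∈ range lam | (x + σ) / lam ≠ (x + g + σ) / lam} : ℝ) ≤ g := by
    exact_mod_cast kbin_cnt lam hlam x g
  have h4 : (2 : ℝ) * g ≤ 2 ^ g := by exact_mod_cast Nat.mul_le_pow (by norm_num : 2 ≠ 1) g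
  have h5 : ((1 : ℝ) / 2) ^ g * 2 ^ g = 1 := by rw [← mul_pow]; norm_num
  have h6 : ((1 : ℝ) / 2) ^ g * g ≤ 1 / 2 := by
    have := mul_le_mul_of_nonneg_left h4 (by positivity : 0 ≤ ((1 : ℝ) / 2) ^ g)
    linarith
  refine (mul_le_mul h1 h3 (Nat.cast_nonneg _) (by positivity)).trans (le_trans ?_ h2.le)
  rw [pow_add, pow_succ, mul_assoc]
  exact mul_le_mul_of_nonneg_left h6 (by positivity)

lemma kbin_ends {V E : Type} [Fintype V] [Fintype E] [DecidableEq V] (s : E → V) (a : V → ℝ) :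
    ∑ e, a (s e) = ∑ v, (#{e | s e = v} : ℝ) * a v := by
  rw [← sum_fiberwise univ s]
  refine sum_congr rfl fun v _ => ?_
  rw [sum_congr rfl fun e he => congrArg a (mem_filter.1 he).2, sum_const, nsmul_eq_mul]

theorem kbin {V E : Type} [Fintype V] [Fintype E] [DecidableEq V] (s t : E → V)
    (h : ∀ v, dg s t univ v = 3) (a : V → ℝ) (w : E → ℝ) (ha1 : ∑ v, a v ≤ 1)
    (ha : ∀ v, 0 ≤ a v) (hw : ∀ e, 0 ≤ w e ∧ w e ≤ a (s e) ∧ w e ≤ a (t e)) (lam : ℕ)
    (hlam : 0 < lam) :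
    ∃ b : V → ℕ, (∀ u v, 0 < a u → 0 < a v → b u = b v → a u ≤ 2 ^ lam * a v) ∧
      ∑ e with b (s e) ≠ b (t e), w e ≤ 3 / lam := by
  have h0 : ∀ v, ∃ n : ℕ, 0 < a v → ((1 : ℝ) / 2) ^ (n + 1) < a v ∧ a v ≤ (1 / 2) ^ n := fun v => by
    rcases (ha v).eq_or_lt with h1 | h1
    · exact ⟨0, fun h2 => absurd h1 h2.ne⟩
    · obtain ⟨n, hn⟩ := exists_nat_pow_near_of_lt_one h1
        ((single_le_sum (fun u _ => ha u) (mem_univ v)).trans ha1) (y := (1 : ℝ) / 2) (by norm_num)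
        (by norm_num)
      exact ⟨n, fun _ => hn⟩
  choose lev hlev using h0
  have h1 : ∑ e, (a (s e) + a (t e)) ≤ 3 := by
    rw [sum_add_distrib, kbin_ends s, kbin_ends t, ← sum_add_distrib]
    refine le_trans (le_of_eq ?_) (show 3 * ∑ v, a v ≤ 3 by linarith)
    rw [mul_sum]
    refine sum_congr rfl fun v _ => ?_
    rw [← add_mul, ← Nat.cast_add]
    exact congrArg (· * a v) (by exact_mod_cast h v)
  have h2 : ∀ e, w e * #{σ ∈ range lam | (lev (s e) + σ) / lam ≠ (lev (t e) + σ) / lam} ≤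
      a (s e) + a (t e) := fun e => by
    obtain ⟨a0, a1, a2⟩ := hw e
    rcases a0.eq_or_lt with a3 | a3
    · rw [← a3, zero_mul]
      exact add_nonneg (ha _) (ha _)
    · have b1 := hlev _ (a3.trans_le a1)
      have b2 := hlev _ (a3.trans_le a2)
      rcases le_total (lev (s e)) (lev (t e)) with b3 | b3
      · linarith [kbin_edge lam hlam b3 (a2.trans b2.2) b1.1, ha (t e)]
      · simp only [ne_comm (a := (lev (s e) + _) / lam)]
        linarith [kbin_edge lam hlam b3 (a1.trans b1.2) b2.1, ha (s e)]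
  have hl : (0 : ℝ) < lam := by exact_mod_cast hlam
  obtain ⟨σ, -, hσ⟩ := exists_le_of_sum_le (nonempty_range_iff.2 hlam.ne')
    (f := fun σ => ∑ e with (lev (s e) + σ) / lam ≠ (lev (t e) + σ) / lam, w e)
    (g := fun _ => (3 : ℝ) / lam) (by
      rw [sum_const, card_range, nsmul_eq_mul, mul_div_cancel₀ _ hl.ne']
      refine le_trans (le_of_eq ?_) ((sum_le_sum fun e _ => h2 e).trans h1)
      simp only [sum_filter]
      rw [sum_comm]
      refine sum_congr rfl fun e _ => ?_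
      rw [← sum_filter, sum_const, nsmul_eq_mul, mul_comm])
  refine ⟨fun v => (lev v + σ) / lam, fun u v hu hv e => ?_, hσ⟩
  have c1 := Nat.lt_mul_div_succ (lev v + σ) hlam
  have c2 := Nat.mul_div_le (lev u + σ) lam
  rw [← show (lev u + σ) / lam = (lev v + σ) / lam from e, Nat.mul_succ] at c1
  have c3 : ((1 : ℝ) / 2) ^ (lev u + lam) ≤ (1 / 2) ^ (lev v + 1) :=
    pow_le_pow_of_le_one (by norm_num) (by norm_num) (by omega)
  have c4 : (2 : ℝ) ^ lam * (1 / 2) ^ (lev u + lam) = (1 / 2) ^ lev u := by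
    rw [pow_add, mul_left_comm, ← mul_pow]; norm_num
  refine (hlev u hu).2.trans (c4.symm.trans_le ?_)
  exact mul_le_mul_of_nonneg_left (c3.trans (hlev v hv).1.le) (by positivity)

end Pool.Agent.P.MP_e59a69_co
end

-- part Pool.Agent.P.MP_e59a69_co.KCarve
section

/-! Vertices with a small ball have small mass. -/

open Finset Function

namespace Pool.Agent.P.MP_e59a69_co

section
variable {V E : Type} [DecidableEq V] {s t : E → V}

lemma kcarve_fib (f : E → V) (B : Finset E) (Z : Finset V) :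
    ∑ v ∈ Z, #{e ∈ B | f e = v} = #{e ∈ B | f e ∈ Z} := by
  rw [card_eq_sum_card_fiberwise (f := f) (s := {e ∈ B | f e ∈ Z}) (t := Z)
    fun e he => (mem_filter.1 (mem_coe.1 he)).2]
  refine sum_congr rfl fun v hv => ?_
  rw [filter_filter]
  congr 1
  refine filter_congr fun e _ => ⟨fun h => ⟨h ▸ hv, h⟩, fun h => h.2⟩

lemma kcarve_nb_sub (B : Finset E) (X : Finset V) : X ⊆ nb s t B X := subset_union_left

lemma kcarve_edge_mono {A B : Finset E} (h : B ⊆ A) (X : Finset V) (r : ℕ) :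
    kball s t B X r ⊆ kball s t A X r := by
  induction r with
  | zero => exact Subset.rfl
  | succ r ih =>
    intro v hv
    rw [kball_succ, mem_nb] at hv ⊢
    rcases hv with hv | ⟨e, he, u, hu, hj⟩
    · exact Or.inl (ih hv)
    · exact Or.inr ⟨e, h he, u, ih hu, hj⟩

lemma kcarve_inside {B : Finset E} {R X : Finset V} (hB : ∀ e ∈ B, s e ∈ R ∧ t e ∈ R)
    (hX : X ⊆ R) (r : ℕ) : kball s t B X r ⊆ R := by
  induction r with
  | zero => exact hX
  | succ r ih =>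
    intro v hv
    rw [kball_succ, mem_nb] at hv
    rcases hv with hv | ⟨e, he, u, -, ⟨-, h⟩ | ⟨-, h⟩⟩
    · exact ih hv
    · exact h ▸ (hB e he).2
    · exact h ▸ (hB e he).1

variable [Fintype E]

lemma kcarve_deg (h : ∀ v, dg s t univ v = 3) (Z : Finset V) :
    #{e | s e ∈ Z} + #{e | t e ∈ Z} = 3 * #Z := by
  rw [← kcarve_fib, ← kcarve_fib, ← sum_add_distrib, mul_comm, ← smul_eq_mul, ← sum_const]
  exact sum_congr rfl fun v _ => h v

lemma kcarve_in (h : ∀ v, dg s t univ v = 3) (Z : Finset V) :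
    2 * #{e | s e ∈ Z ∧ t e ∈ Z} + ct s t univ Z = 3 * #Z := by
  rw [← kcarve_deg h, ct, card_filter, card_filter, card_filter, card_filter, mul_sum,
    ← sum_add_distrib, ← sum_add_distrib]
  refine sum_congr rfl fun e _ => ?_
  by_cases h1 : s e ∈ Z <;> by_cases h2 : t e ∈ Z <;> simp [h1, h2]

lemma kcarve_grow [DecidableEq E] (h : ∀ v, dg s t univ v = 3) (B : Finset E) (X : Finset V) :
    ct s t B X + 3 * #X ≤ 3 * #(nb s t B X) := by
  have h1 := kcarve_deg h (nb s t B X \ X)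
  have h2 := card_sdiff_add_card_eq_card (kcarve_nb_sub (s := s) (t := t) B X)
  have h3 : ct s t B X ≤ #{e | s e ∈ nb s t B X \ X} + #{e | t e ∈ nb s t B X \ X} := by
    refine le_trans (card_le_card fun e he => ?_) (card_union_le _ _)
    obtain ⟨he1, he2⟩ := mem_filter.1 he
    simp only [mem_union, mem_filter, mem_univ, true_and, mem_sdiff]
    by_cases k1 : s e ∈ X
    · exact Or.inr ⟨mem_nb.2 (Or.inr ⟨e, he1, _, k1, Or.inl ⟨rfl, rfl⟩⟩),
        fun k2 => he2 (iff_of_true k1 k2)⟩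
    · have k2 : t e ∈ X := by
        by_contra k2
        exact he2 (iff_of_false k1 k2)
      exact Or.inl ⟨mem_nb.2 (Or.inr ⟨e, he1, _, k2, Or.inr ⟨rfl, rfl⟩⟩), k1⟩
  omega

lemma kcarve_radius [DecidableEq E] (h : ∀ v, dg s t univ v = 3) (B : Finset E) (v : V) {γ : ℝ}
    (hγ : 0 ≤ γ) {ρ : ℕ} (hρ : (#(kball s t B {v} ρ) : ℝ) < (1 + γ / 3) ^ ρ) :
    ∃ i ≤ ρ, (ct s t B (kball s t B {v} i) : ℝ) ≤ γ * #(kball s t B {v} i) := by
  by_contra hc
  push Not at hc
  have key : ∀ i ≤ ρ, (1 + γ / 3) ^ i ≤ (#(kball s t B {v} i) : ℝ) := by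
    intro i
    induction i with
    | zero => intro _; simp [kball_zero]
    | succ i ih =>
      intro hi
      have h1 := ih (by omega)
      have h2 := hc i (by omega)
      have h3 : (ct s t B (kball s t B {v} i) : ℝ) + 3 * #(kball s t B {v} i) ≤
          3 * #(nb s t B (kball s t B {v} i)) := by exact_mod_cast kcarve_grow h B _
      rw [kball_succ, pow_succ]
      nlinarith [mul_le_mul_of_nonneg_right h1 (by positivity : 0 ≤ 1 + γ / 3)]
  exact absurd (key ρ le_rfl) (not_le.2 hρ)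

lemma kcarve_forest [Fintype V] [DecidableEq E] {c : ℕ} (H : Cub s t c) {a : V → ℝ} {w : E → ℝ}
    (ha : ∀ v, 0 ≤ a v) (hw : ∀ e, 0 ≤ w e ∧ w e ≤ a (s e) ∧ w e ≤ a (t e)) (Q : Finset V)
    (hQ : #Q + 2 ≤ c) : ∑ e with s e ∈ Q ∧ t e ∈ Q, w e ≤ ∑ v ∈ Q, a v := by
  induction Q using Finset.strongInduction with
  | H Q ih =>
    rcases Q.eq_empty_or_nonempty with rfl | hne
    · simp
    have h1 := kcarve_in H.deg Q
    have h2 := H.small Q hne hQ
    obtain ⟨B, hB⟩ : ∃ B : Finset E, B = univ.filter fun e => s e ∈ Q ∧ t e ∈ Q := ⟨_, rfl⟩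
    have hB' : ∀ e, e ∈ B ↔ s e ∈ Q ∧ t e ∈ Q := fun e => by simp [hB]
    rw [← hB] at h1 ⊢
    obtain ⟨v, hv, hd⟩ : ∃ v ∈ Q, #{e ∈ B | s e = v} + #{e ∈ B | t e = v} < 2 := by
      refine exists_lt_of_sum_lt (f := fun v => #{e ∈ B | s e = v} + #{e ∈ B | t e = v})
        (g := fun _ => 2) ?_
      rw [sum_add_distrib, kcarve_fib, kcarve_fib, sum_const, smul_eq_mul]
      have k1 := card_filter_le B fun e => s e ∈ Q
      have k2 := card_filter_le B fun e => t e ∈ Q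
      omega
    have h3 := ih (Q.erase v) (erase_ssubset hv) (by
      have := card_erase_le (s := Q) (a := v)
      omega)
    have h4 : ∑ e ∈ B with s e = v ∨ t e = v, w e ≤ a v := by
      refine (sum_le_card_nsmul _ _ (a v) fun e he => ?_).trans ?_
      · rcases (mem_filter.1 he).2 with h | h
        · exact h ▸ (hw e).2.1
        · exact h ▸ (hw e).2.2
      · have k : #{e ∈ B | s e = v ∨ t e = v} ≤ 1 := by
          rw [filter_or]
          have := card_union_le {e ∈ B | s e = v} {e ∈ B | t e = v}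
          omega
        rw [nsmul_eq_mul]
        exact mul_le_of_le_one_left (ha v) (by exact_mod_cast k)
    rw [← sum_filter_add_sum_filter_not B fun e => s e = v ∨ t e = v, ← add_sum_erase Q a hv]
    refine add_le_add h4 (le_trans (le_of_eq (sum_congr ?_ fun _ _ => rfl)) h3)
    ext e
    simp only [mem_filter, hB', mem_univ, true_and, mem_erase, not_or]
    tauto

lemma kcarve_piece [Fintype V] [DecidableEq E] {c : ℕ} (H : Cub s t c) {a : V → ℝ} {w : E → ℝ}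
    {ε Λ : ℝ} (hΛ : 1 ≤ Λ) (ha : ∀ v, 0 ≤ a v)
    (hw : ∀ e, 0 ≤ w e ∧ w e ≤ a (s e) ∧ w e ≤ a (t e)) (B : Finset E) (Q : Finset V)
    (hne : Q.Nonempty) (hQ : #Q + 2 ≤ c) (hct : (ct s t B Q : ℝ) ≤ ε / (2 * Λ) * #Q)
    (hA : ∀ u ∈ Q, ∀ u' ∈ Q, a u ≤ Λ * a u') :
    ∑ e ∈ B with s e ∈ Q ∨ t e ∈ Q, w e ≤ (1 + ε / 2) * ∑ v ∈ Q, a v := by
  have hΛ0 : 0 < Λ := by linarith
  have hq : (0 : ℝ) < #Q := by exact_mod_cast hne.card_pos
  have hS : 0 ≤ ∑ v ∈ Q, a v := sum_nonneg fun v _ => ha v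
  have h1 : ∀ u ∈ Q, a u ≤ Λ * (∑ v ∈ Q, a v) / #Q := by
    intro u hu
    rw [le_div_iff₀ hq, mul_sum, mul_comm, ← nsmul_eq_mul]
    exact card_nsmul_le_sum _ _ _ (hA u hu)
  have h2 : ∑ e ∈ B with ¬ (s e ∈ Q ↔ t e ∈ Q), w e ≤ ε / 2 * ∑ v ∈ Q, a v := by
    refine (sum_le_card_nsmul _ _ (Λ * (∑ v ∈ Q, a v) / #Q) fun e he => ?_).trans ?_
    · by_cases k1 : s e ∈ Q
      · exact (hw e).2.1.trans (h1 _ k1)
      · refine (hw e).2.2.trans (h1 _ ?_)
        by_contra k2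
        exact (mem_filter.1 he).2 (iff_of_false k1 k2)
    · rw [nsmul_eq_mul]
      refine (mul_le_mul_of_nonneg_right hct (by positivity)).trans (le_of_eq ?_)
      field_simp
  have h3 := kcarve_forest H ha hw Q hQ
  have h4 : ∑ e ∈ B with s e ∈ Q ∨ t e ∈ Q, w e ≤
      ∑ e with s e ∈ Q ∧ t e ∈ Q, w e + ∑ e ∈ B with ¬ (s e ∈ Q ↔ t e ∈ Q), w e := by
    rw [← sum_union]
    · refine sum_le_sum_of_subset_of_nonneg (fun e he => ?_) fun e _ _ => (hw e).1
      simp only [mem_filter, mem_union, mem_univ, true_and] at he ⊢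
      tauto
    · rw [disjoint_left]
      intro e k1 k2
      simp only [mem_filter, mem_univ, true_and] at k1 k2
      tauto
  linarith

end

theorem kcarve {V E : Type} [Fintype V] [Fintype E] [DecidableEq V] [DecidableEq E]
    {s t : E → V} {c : ℕ}
    (H : Cub s t c) (a : V → ℝ) (w : E → ℝ) (ε Λ : ℝ) (hε : 0 < ε) (hΛ : 1 ≤ Λ)
    (ha : ∀ v, 0 ≤ a v) (hw : ∀ e, 0 ≤ w e ∧ w e ≤ a (s e) ∧ w e ≤ a (t e))
    (hrich : ∀ S : Finset V, (1 + ε) * ∑ v ∈ S, a v ≤ ∑ e with s e ∈ S ∨ t e ∈ S, w e)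
    (A : Finset E) (M ρ : ℕ) (hM : (M : ℝ) ≤ (1 + ε / (6 * Λ)) ^ ρ) (hc : M + 2 ≤ c)
    (hA : ∀ v, 0 < a v → ∀ u ∈ kball s t A {v} ρ, ∀ u' ∈ kball s t A {v} ρ, a u ≤ Λ * a u') :
    ∃ S : Finset V, ε / 2 * ∑ v ∈ S, a v ≤ ∑ e ∈ Aᶜ, w e ∧
      ∀ v, v ∉ S → 0 < a v → M ≤ #(kball s t A {v} ρ) := by
  have hΛ0 : 0 < Λ := by linarith
  have key : ∀ R : Finset V, ∃ S ⊆ R, (∀ v ∈ R, 0 < a v → #(kball s t A {v} ρ) < M → v ∈ S) ∧
      ∑ e ∈ A with (s e ∈ R ∧ t e ∈ R) ∧ (s e ∈ S ∨ t e ∈ S), w e ≤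
        (1 + ε / 2) * ∑ v ∈ S, a v := by
    intro R
    induction R using Finset.strongInduction with
    | H R ih =>
      by_cases hp : ∃ v ∈ R, 0 < a v ∧ #(kball s t A {v} ρ) < M
      swap
      · exact ⟨∅, empty_subset _, fun v h1 h2 h3 => absurd ⟨v, h1, h2, h3⟩ hp, by simp⟩
      obtain ⟨v, hv, hav, hb⟩ := hp
      obtain ⟨B, hB⟩ : ∃ B : Finset E, B = {e ∈ A | s e ∈ R ∧ t e ∈ R} := ⟨_, rfl⟩
      have hB' : ∀ e, e ∈ B ↔ e ∈ A ∧ s e ∈ R ∧ t e ∈ R := fun e => by simp [hB]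
      have hBA : B ⊆ A := fun e he => ((hB' e).1 he).1
      obtain ⟨i, hi, hct⟩ := kcarve_radius H.deg B v (γ := ε / (2 * Λ)) (ρ := ρ) (by positivity) (by
        have e : ε / (2 * Λ) / 3 = ε / (6 * Λ) := by
          field_simp
          norm_num
        rw [e]
        refine lt_of_lt_of_le ?_ hM
        exact_mod_cast (card_le_card (kcarve_edge_mono hBA _ _)).trans_lt hb)
      obtain ⟨Q, hQ⟩ : ∃ Q, Q = kball s t B {v} i := ⟨_, rfl⟩
      rw [← hQ] at hct
      have hQA : Q ⊆ kball s t A {v} ρ :=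
        hQ ▸ (kcarve_edge_mono hBA _ _).trans (kball_mono A Subset.rfl hi)
      have hQR : Q ⊆ R :=
        hQ ▸ kcarve_inside (fun e he => ((hB' e).1 he).2) (singleton_subset_iff.2 hv) i
      have hvQ : v ∈ Q :=
        hQ ▸ kball_mono B Subset.rfl (Nat.zero_le i) (mem_singleton_self v)
      have h1 := kcarve_piece H hΛ ha hw B Q ⟨v, hvQ⟩ (by
        have := card_le_card hQA
        omega) hct fun u hu u' hu' => hA v hav u (hQA hu) u' (hQA hu')
      obtain ⟨S, hS, h2, h3⟩ := ih (R \ Q) (sdiff_ssubset hQR ⟨v, hvQ⟩)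
      have hd : Disjoint Q S := disjoint_left.2 fun u k1 k2 => (mem_sdiff.1 (hS k2)).2 k1
      refine ⟨Q ∪ S, union_subset hQR (hS.trans sdiff_subset), fun u k1 k2 k3 => ?_, ?_⟩
      · by_cases k : u ∈ Q
        · exact mem_union_left _ k
        · exact mem_union_right _ (h2 u (mem_sdiff.2 ⟨k1, k⟩) k2 k3)
      · rw [sum_union hd, mul_add]
        refine le_trans ?_ (add_le_add h1 h3)
        rw [← sum_union]
        · refine sum_le_sum_of_subset_of_nonneg (fun e he => ?_) fun e _ _ => (hw e).1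
          simp only [mem_filter, mem_union, hB', mem_sdiff] at he ⊢
          tauto
        · rw [disjoint_left]
          intro e k1 k2
          simp only [mem_filter, mem_sdiff] at k1 k2
          tauto
  obtain ⟨S, -, h1, h2⟩ := key univ
  refine ⟨S, ?_, fun v k1 k2 => not_lt.1 fun k3 => k1 (h1 v (mem_univ v) k2 k3)⟩
  have h3 : ∑ e with s e ∈ S ∨ t e ∈ S, w e ≤
      ∑ e ∈ A with (s e ∈ univ ∧ t e ∈ univ) ∧ (s e ∈ S ∨ t e ∈ S), w e + ∑ e ∈ Aᶜ, w e := by
    rw [← sum_union]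
    · refine sum_le_sum_of_subset_of_nonneg (fun e he => ?_) fun e _ _ => (hw e).1
      simp only [mem_filter, mem_union, mem_univ, true_and, mem_compl] at he ⊢
      tauto
    · rw [disjoint_left]
      intro e k1 k2
      exact mem_compl.1 k2 (mem_filter.1 k1).1
  linarith [hrich S]

end Pool.Agent.P.MP_e59a69_co
end

-- part Pool.Agent.P.MP_e59a69_co.KDsl
section

/-! The bad vertices contain no rich set. -/

open Finset Function

namespace Pool.Agent.P.MP_e59a69_co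

section
variable {V E : Type} [Fintype V] [Fintype E] [DecidableEq V] {s t : E → V}

/-- distribution of the walk started at `v` -/
noncomputable def wm (s t : E → V) (ρ : ℕ) (v : V) : V → ℝ :=
  (Pw s t)^[ρ] fun x => if x = v then 1 else 0

lemma wm_evl (ρ : ℕ) (v : V) (y : V → ℝ) : evl (wm s t ρ v) y = (Pw s t)^[ρ] y v := by
  rw [wm, Pw_symm]
  simp [evl]

omit [Fintype V] in
lemma wm_nonneg (ρ : ℕ) (v x : V) : 0 ≤ wm s t ρ v x :=
  Pw_nonneg ρ (fun _ => by split_ifs <;> norm_num) x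

lemma wm_sum (h : ∀ v, dg s t univ v = 3) (ρ : ℕ) (v : V) : ∑ x, wm s t ρ v x = 1 := by
  rw [wm, Pw_sum h]
  simp

lemma kdsl_sum (q : ℕ) (g : V → V → ℝ) :
    ∑ f : {p : V × V // p.2 ∈ kball s t univ {p.1} q}, g f.1.1 f.1.2 =
      ∑ v, ∑ u ∈ kball s t univ {v} q, g v u := by
  rw [← sum_subtype (univ.filter fun p : V × V => p.2 ∈ kball s t univ {p.1} q) (by simp)
    fun p => g p.1 p.2, sum_filter, Fintype.sum_prod_type]
  exact sum_congr rfl fun v _ => by rw [← sum_filter]; simp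

lemma kdsl_fst (h : ∀ v, dg s t univ v = 3) (q : ℕ) (g : V → ℝ) (hg : ∀ v, 0 ≤ g v) :
    ∑ v, ∑ _u ∈ kball s t univ {v} q, g v ≤ 4 ^ q * ∑ v, g v := by
  rw [mul_sum]
  refine sum_le_sum fun v _ => ?_
  rw [sum_const, nsmul_eq_mul]
  have := card_kball h univ {v} q
  rw [card_singleton, mul_one] at this
  exact mul_le_mul_of_nonneg_right (by exact_mod_cast this) (hg v)

lemma kdsl_snd (h : ∀ v, dg s t univ v = 3) (q : ℕ) (g : V → ℝ) (hg : ∀ v, 0 ≤ g v) :
    ∑ v, ∑ u ∈ kball s t univ {v} q, g u ≤ 4 ^ q * ∑ v, g v := by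
  rw [sum_comm' (t' := univ) (s' := fun u => kball s t univ {u} q) fun v u =>
    ⟨fun a => ⟨kball_symm univ a.2, mem_univ _⟩, fun a => ⟨mem_univ _, kball_symm univ a.1⟩⟩]
  exact kdsl_fst h q g hg

lemma kdsl_cost (h : ∀ v, dg s t univ v = 3) {l : V → V → ℝ} (hl : Met l) (q ρ : ℕ)
    (hρ : 1 ≤ ρ) : ∑ v, ∑ u ∈ kball s t univ {v} q,
      ∑ x, |wm s t ρ v x - wm s t ρ u x| * l v x ≤ 4 * 16 ^ q * ρ * Pl s t l := by
  have m0 : ∀ v, 0 ≤ (Pw s t)^[ρ] (l v) v := fun v => Pw_nonneg ρ (hl.nonneg v) v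
  have h1 : ∀ v u, ∑ x, |wm s t ρ v x - wm s t ρ u x| * l v x ≤
      (Pw s t)^[ρ] (l v) v + (l v u + (Pw s t)^[ρ] (l u) u) := fun v u => by
    rw [← wm_evl, ← wm_evl, ← one_mul (l v u), ← wm_sum h ρ u, sum_mul, evl, evl,
      ← sum_add_distrib, ← sum_add_distrib]
    refine sum_le_sum fun x _ => ?_
    have a1 := wm_nonneg (s := s) (t := t) ρ v x
    have a2 := wm_nonneg (s := s) (t := t) ρ u x
    have a3 : |wm s t ρ v x - wm s t ρ u x| ≤ wm s t ρ v x + wm s t ρ u x := by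
      rw [abs_le]; constructor <;> linarith
    nlinarith [mul_le_mul_of_nonneg_right a3 (hl.nonneg v x),
      mul_le_mul_of_nonneg_left (hl.tri v u x) a2]
  refine le_trans (sum_le_sum fun v _ => sum_le_sum fun u _ => h1 v u) ?_
  simp only [sum_add_distrib]
  have a1 := kdsl_fst h q _ m0
  have a2 := kdsl_snd h q _ m0
  have a3 := kball_length h hl q
  have a4 := Pw_length h hl ρ
  have a5 := Pl_nonneg s t hl
  have a6 : (4 : ℝ) ^ q ≤ 16 ^ q := pow_le_pow_left₀ (by norm_num) (by norm_num) q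
  have a7 : (1 : ℝ) ≤ ρ := by exact_mod_cast hρ
  have a8 : (4 : ℝ) ^ q * ∑ v, (Pw s t)^[ρ] (l v) v ≤ 16 ^ q * (ρ * Pl s t l) :=
    mul_le_mul a6 a4 (sum_nonneg fun v _ => m0 v) (by positivity)
  have a9 : (16 : ℝ) ^ q * Pl s t l ≤ 16 ^ q * (ρ * Pl s t l) := by
    gcongr
    nlinarith
  nlinarith

/-- most of the mass sits at vertices with many near vertices of comparable mass -/
lemma kdsl_near [DecidableEq E] {c : ℕ} (H : Cub s t c) {l : V → V → ℝ} (hl : Met l)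
    (a : V → ℝ) (w : E → ℝ) (ε C : ℝ) (hε : 0 < ε) (hC : 0 < C) (ha1 : ∑ v, a v ≤ 1)
    (ha : ∀ v, 0 ≤ a v) (hw : ∀ e, 0 ≤ w e ∧ w e ≤ a (s e) ∧ w e ≤ a (t e))
    (hrich : ∀ S : Finset V, (1 + ε) * ∑ v ∈ S, a v ≤ ∑ e with s e ∈ S ∨ t e ∈ S, w e)
    (lam M ρ : ℕ) (hlam : 0 < lam) (hM : (M : ℝ) ≤ (1 + ε / (6 * 2 ^ lam)) ^ ρ)
    (hc : M + 2 ≤ c) :
    ∃ S : Finset V, ε / 2 * ∑ v ∈ S, a v ≤ 3 / lam + Pl s t l / C ∧
      ∀ v, v ∉ S → 0 < a v → ∃ Q : Finset V, M ≤ #Q ∧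
        ∀ u ∈ Q, a v ≤ 2 ^ lam * a u ∧ l v u ≤ ρ * (C * 2 ^ lam * a v) := by
  classical
  obtain ⟨b, b1, b2⟩ := kbin s t H.deg a w ha1 ha hw lam hlam
  let A : Finset E := {e | 0 < w e ∧ b (s e) = b (t e) ∧ l (s e) (t e) ≤ C * w e}
  have key : ∀ v, 0 < a v → ∀ r, ∀ u ∈ kball s t A {v} r,
      0 < a u ∧ b u = b v ∧ l v u ≤ r * (C * 2 ^ lam * a v) := by
    intro v hv r
    have p0 : 0 ≤ C * 2 ^ lam * a v := by positivity
    induction r with
    | zero =>
      intro u hu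
      rw [kball_zero, mem_singleton] at hu
      subst hu
      exact ⟨hv, rfl, by simp [hl.self]⟩
    | succ r ih =>
      intro u hu
      rw [kball_succ, mem_nb] at hu
      push_cast
      rcases hu with hu | ⟨e, he, x, hx, hj⟩
      · obtain ⟨a1, a2, a3⟩ := ih u hu
        exact ⟨a1, a2, by linarith⟩
      obtain ⟨a1, a2, a3⟩ := ih x hx
      obtain ⟨e1, e2, e3⟩ := (mem_filter.1 he).2
      obtain ⟨w1, w2, w3⟩ := hw e
      have a4 := b1 x v a1 hv a2
      have a5 := hl.tri v x u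
      have a6 : 0 < a u ∧ b u = b x ∧ l x u ≤ C * a x := by
        rcases hj with ⟨rfl, rfl⟩ | ⟨rfl, rfl⟩
        · exact ⟨by linarith, e2.symm, by nlinarith⟩
        · exact ⟨by linarith, e2, by rw [hl.symm]; nlinarith⟩
      exact ⟨a6.1, a6.2.1.trans a2, by nlinarith [a6.2.2]⟩
  obtain ⟨S, h1, h2⟩ := kcarve H a w ε (2 ^ lam) hε (one_le_pow₀ (by norm_num)) ha hw hrich A M ρ
    hM hc fun v hv u hu u' hu' => b1 u u' (key v hv ρ u hu).1 (key v hv ρ u' hu').1
      ((key v hv ρ u hu).2.1.trans (key v hv ρ u' hu').2.1.symm)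
  refine ⟨S, h1.trans ?_, fun v hv hv' => ⟨_, h2 v hv hv', fun u hu =>
    ⟨b1 v u hv' (key v hv' ρ u hu).1 (key v hv' ρ u hu).2.1.symm, (key v hv' ρ u hu).2.2⟩⟩⟩
  refine le_trans ?_ (add_le_add b2 le_rfl)
  rw [Pl, sum_div, sum_filter, ← sum_add_distrib, ← sum_ite_mem_eq Aᶜ]
  refine sum_le_sum fun e _ => ?_
  have w1 := (hw e).1
  have w2 : 0 ≤ l (s e) (t e) / C := div_nonneg (hl.nonneg _ _) hC.le
  by_cases e1 : e ∈ Aᶜ
  · rw [if_pos e1]
    by_cases e2 : b (s e) ≠ b (t e)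
    · rw [if_pos e2]; linarith
    rw [if_neg e2, zero_add]
    rcases w1.eq_or_lt with e3 | e3
    · linarith
    rw [le_div_iff₀ hC, mul_comm]
    by_contra e4
    exact mem_compl.1 e1 (mem_filter.2 ⟨mem_univ _, e3, not_not.1 e2, (not_le.1 e4).le⟩)
  · rw [if_neg e1]
    split_ifs <;> linarith

end

lemma kdsl_rho (K μ β : ℝ) (hμ : 0 < μ) (hβ : 1 < β) : ∃ ρ : ℕ, 1 ≤ ρ ∧
    K * (1 / ρ + 4 * (19 / 20) ^ (2 * ρ) * (ρ : ℝ) ^ 9) ≤ μ ∧ (ρ : ℝ) ^ 5 ≤ β ^ ρ := by
  have h1 : Filter.Tendsto (fun ρ : ℕ => K * (1 / ρ + 4 * (19 / 20) ^ (2 * ρ) * (ρ : ℝ) ^ 9))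
      Filter.atTop (nhds (K * (0 + 4 * 0))) := by
    refine Filter.Tendsto.const_mul _ (tendsto_one_div_atTop_nhds_zero_nat.add ?_)
    have := (tendsto_pow_const_mul_const_pow_of_abs_lt_one 9
      (r := (19 / 20) ^ 2) (by norm_num [abs_lt])).const_mul 4
    refine this.congr fun ρ => ?_
    rw [pow_mul]; ring
  have h2 := tendsto_pow_const_div_const_pow_of_one_lt 5 hβ
  have h3 := h1.eventually (ge_mem_nhds (show K * (0 + 4 * 0) < μ by simpa using hμ))
  have h4 := h2.eventually (ge_mem_nhds one_pos)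
  obtain ⟨ρ, a1, a2, a3⟩ := ((Filter.eventually_ge_atTop 1).and (h3.and h4)).exists
  exact ⟨ρ, a1, a2, by rwa [div_le_one (by positivity)] at a3⟩

theorem kdsl (ε η : ℝ) (hε : 0 < ε) (hη : 0 < η) (q : ℕ) : ∃ ρ c : ℕ,
    ∀ (V E : Type) [Fintype V] [Fintype E] [DecidableEq V] [DecidableEq E] (s t : E → V),
      Cub s t c → ∃ (D : V × V → ℝ) (Bad : Finset V), Dom s t D ∧
        (∀ Z ⊆ Bad, Z.Nonempty → ¬ Rich s t ε Z) ∧
        ∀ v, v ∉ Bad → ∀ u ∈ kball s t univ {v} q, ∀ y,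
          ((Pw s t)^[ρ] y v - (Pw s t)^[ρ] y u) ^ 2 ≤ η * (En s t y + ED D y) := by
  obtain ⟨η', g1, g2, g3⟩ : ∃ η' : ℝ, 0 < η' ∧ η' ≤ 1 ∧ 4 ^ q * η' ≤ η := by
    refine ⟨min (η / 4 ^ q) 1, lt_min (by positivity) one_pos, min_le_right _ _, ?_⟩
    rw [mul_comm, ← le_div_iff₀ (by positivity)]
    exact min_le_left _ _
  obtain ⟨B, hB⟩ : ∃ B : ℝ, B = (q + 1) ^ 2 := ⟨_, rfl⟩
  have hq0 : (0 : ℝ) ≤ q := Nat.cast_nonneg q
  have hB1 : 1 ≤ B := by nlinarith
  obtain ⟨μ0, hμ0⟩ : ∃ μ0 : ℝ, μ0 = (η' / (16 * B)) ^ 2 := ⟨_, rfl⟩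
  have hμ : 0 < μ0 := by rw [hμ0]; positivity
  obtain ⟨lam, hlam⟩ := exists_nat_gt (24 / (ε * μ0))
  have hlam0 : (0 : ℝ) < lam := lt_trans (by positivity) hlam
  obtain ⟨C1, hC1⟩ : ∃ C1 : ℝ, C1 = 16 * B / (ε * μ0) := ⟨_, rfl⟩
  have hC : 0 < C1 := by rw [hC1]; positivity
  obtain ⟨C2, hC2⟩ : ∃ C2 : ℝ, C2 = 16 * 16 ^ q * B / μ0 + C1 * 2 ^ lam * 4 ^ q + 1 := ⟨_, rfl⟩
  have c21 : 0 ≤ 16 * 16 ^ q * B / μ0 := by positivity
  have c22 : 0 ≤ C1 * 2 ^ lam * 4 ^ q := by positivity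
  obtain ⟨ρ, r1, r2, r3⟩ := kdsl_rho (2 ^ 50 * C2 ^ 4 / (η' / 8) ^ 10 * (2 * B + 2 ^ lam)) μ0
    (1 + ε / (6 * 2 ^ lam)) hμ (by simp; positivity)
  have r0 : (1 : ℝ) ≤ ρ := by exact_mod_cast r1
  obtain ⟨c, hc1, hc2⟩ : ∃ c : ℕ, 4 ^ ρ * 1 + 2 ≤ c ∧ ρ ^ 5 + 3 ≤ c :=
    ⟨4 ^ ρ * 1 + 2 + (ρ ^ 5 + 3), Nat.le_add_right _ _, Nat.le_add_left _ _⟩
  refine ⟨ρ, c, fun V E _ _ _ _ s t H => ?_⟩
  classical
  let χ : {p : V × V // p.2 ∈ kball s t univ {p.1} q} → V → ℝ := fun f x =>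
    wm s t ρ f.1.1 x - wm s t ρ f.1.2 x
  have hev : ∀ f y, evl (χ f) y = (Pw s t)^[ρ] y f.1.1 - (Pw s t)^[ρ] y f.1.2 := fun f y => by
    rw [← wm_evl, ← wm_evl]
    simp [evl, χ, sub_mul, sum_sub_distrib]
  let a : {Z : Finset V // Z.Nonempty ∧ Rich s t ε Z} →
      {p : V × V // p.2 ∈ kball s t univ {p.1} q} → ℝ := fun Z f =>
    (if f.1.1 ∈ Z.1 then 1 / (#Z.1 : ℝ) else 0) / 4 ^ q
  have hZ : ∀ Z : {Z : Finset V // Z.Nonempty ∧ Rich s t ε Z}, (0 : ℝ) < #Z.1 := fun Z => by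
    exact_mod_cast card_pos.2 Z.2.1
  have hone : ∀ Z : {Z : Finset V // Z.Nonempty ∧ Rich s t ε Z},
      ∑ v, (if v ∈ Z.1 then 1 / (#Z.1 : ℝ) else 0) = 1 := fun Z => by
    rw [sum_ite_mem_eq, sum_const, nsmul_eq_mul, mul_one_div_cancel (hZ Z).ne']
  have hdec : ∀ v, ∑ x, wm s t ρ v x ^ 2 ≤ (19 / 20) ^ (2 * ρ) := fun v => by
    have := Pw_decay H {v} ρ (by rw [card_singleton]; omega) (fun x => if x = v then 1 else 0)
      fun x hx => if_neg (by simpa using hx)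
    simpa [wm] using this
  have hcut : ∀ X : Finset V, ∀ k, k ≤ ρ ^ 5 → k < #X → k < #Xᶜ → k + 1 ≤ ct s t univ X :=
    fun X k hk a1 a2 => by
      rcases H.cut X with h | h | h
      · omega
      · have := h X Subset.rfl (card_pos.1 (by omega))
        omega
      · have := h Xᶜ Subset.rfl (card_pos.1 (by omega))
        rw [ct_compl] at this
        omega
  obtain ⟨D, r, d1, d2, d3, d4⟩ := kgen s t χ (fun f => f.1.1) a B η' (4 * (19 / 20) ^ (2 * ρ))
    (C2 * ρ) (2 ^ lam) ((ρ : ℝ) ^ 5) (ρ ^ 5) (ρ ^ 5) hB1 g1 g2 (by positivity) (by nlinarith)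
    (one_le_pow₀ (by norm_num)) (by positivity) (by positivity)
    (fun f => by simp [χ, sum_sub_distrib, wm_sum H.deg])
    (fun f => by
      refine le_trans (sum_le_sum (g := fun x => wm s t ρ f.1.1 x + wm s t ρ f.1.2 x)
        fun x _ => ?_) (by rw [sum_add_distrib, wm_sum H.deg, wm_sum H.deg]; norm_num)
      have a1 := wm_nonneg (s := s) (t := t) ρ f.1.1 x
      have a2 := wm_nonneg (s := s) (t := t) ρ f.1.2 x
      simp only [χ]
      rw [abs_le]; constructor <;> linarith)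
    (fun f => by
      refine le_trans (sum_le_sum
        (g := fun x => 2 * wm s t ρ f.1.1 x ^ 2 + 2 * wm s t ρ f.1.2 x ^ 2) fun x _ => ?_) ?_
      · simp only [χ]
        nlinarith [sq_nonneg (wm s t ρ f.1.1 x + wm s t ρ f.1.2 x)]
      · rw [sum_add_distrib, ← mul_sum, ← mul_sum]
        linarith [hdec f.1.1, hdec f.1.2])
    (fun f y => by
      rw [hev]
      refine (kball_energy f.2 _).trans ?_
      exact mul_le_mul (by nlinarith) (Pw_energy H.deg ρ y) (En_nonneg _ _ _) (by linarith))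
    (fun Z f => by
      have := hZ Z
      simp only [a]
      split_ifs <;> positivity)
    (fun Z => by
      have := hZ Z
      rw [kdsl_sum q fun v _ => (if v ∈ Z.1 then 1 / (#Z.1 : ℝ) else 0) / 4 ^ q]
      refine (kdsl_fst H.deg q _ fun v => by split_ifs <;> positivity).trans ?_
      rw [← sum_div, hone, mul_one_div_cancel (by positivity)])
    (fun X a1 a2 => hcut X 0 (Nat.zero_le _) (card_pos.2 a1) (card_pos.2 a2))
    (fun X a1 a2 => by exact_mod_cast (Nat.le_succ _).trans (hcut X _ le_rfl a1 a2))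
    (fun la l l0 l1 hl hP => by
      let av : V → ℝ := fun v => ∑ Z, la Z * if v ∈ Z.1 then 1 / (#Z.1 : ℝ) else 0
      let w : E → ℝ := fun e => ∑ Z, la Z * if s e ∈ Z.1 ∧ t e ∈ Z.1 then 1 / (#Z.1 : ℝ) else 0
      have hmix : ∀ f, mix la a f = av f.1.1 / 4 ^ q := fun f => by
        simp only [mix, a, av, sum_div, mul_div_assoc]
      have av0 : ∀ v, 0 ≤ av v := fun v => sum_nonneg fun Z _ => mul_nonneg (l0 Z) (by
        have := hZ Z
        split_ifs <;> positivity)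
      have av1 : ∑ v, av v ≤ 1 := by
        simp only [av]
        rw [sum_comm]
        simpa only [← mul_sum, hone, mul_one] using l1
      obtain ⟨S, s1, s2⟩ := kdsl_near H hl av w ε C1 hε hC av1 av0
        (fun e => by
          refine ⟨sum_nonneg fun Z _ => mul_nonneg (l0 Z) ?_,
            sum_le_sum fun Z _ => mul_le_mul_of_nonneg_left ?_ (l0 Z),
            sum_le_sum fun Z _ => mul_le_mul_of_nonneg_left ?_ (l0 Z)⟩ <;> have := hZ Z
          · split_ifs <;> positivity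
          · by_cases b1 : s e ∈ Z.1 <;> by_cases b2 : t e ∈ Z.1 <;> simp [b1, b2]
          · by_cases b1 : s e ∈ Z.1 <;> by_cases b2 : t e ∈ Z.1 <;> simp [b1, b2])
        (fun S => by
          simp only [av, w]
          rw [sum_comm, sum_comm (s := univ.filter _), mul_sum]
          refine sum_le_sum fun Z _ => ?_
          rw [← mul_sum, ← mul_sum, mul_left_comm]
          refine mul_le_mul_of_nonneg_left ?_ (l0 Z)
          rw [← sum_filter, ← sum_filter, sum_const, sum_const, nsmul_eq_mul, nsmul_eq_mul,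
            ← mul_assoc]
          refine mul_le_mul_of_nonneg_right ((Z.2.2 _ fun v hv => (mem_filter.1 hv).2).trans ?_)
            (by have := hZ Z; positivity)
          refine Nat.cast_le.2 (card_le_card fun e he => ?_)
          simp only [mem_filter, mem_univ, true_and] at he ⊢
          tauto)
        lam (ρ ^ 5) ρ (by exact_mod_cast hlam0) (by exact_mod_cast r3) (by omega)
      have hR : 0 < C2 * ρ := by nlinarith
      have m0 : ∀ f, 0 ≤ mix la a f := fun f => by rw [hmix]; exact div_nonneg (av0 _) (by positivity)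
      refine ⟨(univ.filter fun f => f.1.1 ∈ S) ∪ univ.filter fun f =>
        C2 * ρ * mix la a f < ∑ x, |χ f x| * l f.1.1 x, ?_, fun f hf hf0 => ?_⟩
      · have b0 := sum_union_inter (s₁ := univ.filter fun f => f.1.1 ∈ S)
          (s₂ := univ.filter fun f => C2 * ρ * mix la a f < ∑ x, |χ f x| * l f.1.1 x)
          (f := mix la a)
        have b1 : ∑ f with f.1.1 ∈ S, mix la a f ≤ μ0 / 2 := by
          rw [sum_filter]
          simp only [hmix]
          rw [kdsl_sum q fun v _ => if v ∈ S then av v / 4 ^ q else 0]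
          refine (kdsl_fst H.deg q _ fun v => by
            have := av0 v
            split_ifs <;> positivity).trans ?_
          rw [sum_ite_mem_eq, ← sum_div, mul_div_cancel₀ _ (by positivity)]
          have e1 : 3 / (lam : ℝ) ≤ ε * μ0 / 8 := by
            rw [div_lt_iff₀ (by positivity)] at hlam
            rw [div_le_iff₀ hlam0]
            linarith
          have e2 : Pl s t l / C1 ≤ ε * μ0 / 8 := by
            rw [div_le_iff₀ hC, hC1]
            refine hP.trans (le_of_eq ?_)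
            field_simp
            ring
          refine le_of_mul_le_mul_left ?_ (show 0 < ε / 2 by linarith)
          linarith
        have b2 : ∑ f with C2 * ρ * mix la a f < ∑ x, |χ f x| * l f.1.1 x, mix la a f ≤
            μ0 / 2 := by
          refine le_of_mul_le_mul_left ?_ hR
          rw [mul_sum]
          refine le_trans (sum_le_sum fun f hf => (mem_filter.1 hf).2.le) ?_
          refine le_trans (sum_le_sum_of_subset_of_nonneg (subset_univ _) fun f _ _ =>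
            sum_nonneg fun x _ => mul_nonneg (abs_nonneg _) (hl.nonneg _ _)) ?_
          rw [kdsl_sum q fun v u => ∑ x, |wm s t ρ v x - wm s t ρ u x| * l v x]
          refine (kdsl_cost H.deg hl q ρ r1).trans ?_
          have e1 : 16 * 16 ^ q * B ≤ C2 * μ0 := by
            rw [← div_le_iff₀ hμ]; linarith
          have e2 : 4 * 16 ^ q * ρ * Pl s t l ≤ 4 * 16 ^ q * ρ * (2 * B) := by gcongr
          nlinarith
        have b3 := sum_nonneg (s := (univ.filter fun f => f.1.1 ∈ S) ∩ univ.filter fun f =>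
          C2 * ρ * mix la a f < ∑ x, |χ f x| * l f.1.1 x) fun f _ => m0 f
        rw [← hμ0]
        linarith
      · rw [mem_union, not_or] at hf
        have b1 : 0 < av f.1.1 := by
          rw [hmix] at hf0
          exact (div_pos_iff_of_pos_right (by positivity)).1 hf0
        obtain ⟨Q, q1, q2⟩ := s2 f.1.1 (fun h => hf.1 (mem_filter.2 ⟨mem_univ _, h⟩)) b1
        refine ⟨not_lt.1 fun h => hf.2 (mem_filter.2 ⟨mem_univ _, h⟩), q1.trans ?_⟩
        refine card_le_card_of_injOn (fun u => ⟨(u, u), kball_mono univ Subset.rfl (Nat.zero_le q)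
          (mem_singleton_self u)⟩) (fun u hu => ?_) fun u _ u' _ h =>
            (Prod.ext_iff.1 (Subtype.ext_iff.1 h)).1
        obtain ⟨e1, e2⟩ := q2 u hu
        refine mem_coe.2 (mem_filter.2 ⟨mem_univ _, ?_, e2.trans ?_⟩)
        · rw [hmix, hmix, ← mul_div_assoc]
          exact div_le_div_of_nonneg_right e1 (by positivity)
        · rw [hmix, ← mul_div_assoc, le_div_iff₀ (by positivity)]
          have e3 : 0 ≤ ρ * av f.1.1 := by positivity
          nlinarith [mul_le_mul_of_nonneg_right (show C1 * 2 ^ lam * 4 ^ q ≤ C2 by linarith) e3])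
    (by
      rw [← hμ0]
      refine le_trans (le_of_eq ?_) r2
      push_cast
      field_simp)
  refine ⟨D, univ.filter fun v => ∃ f : {p : V × V // p.2 ∈ kball s t univ {p.1} q},
    f.1.1 = v ∧ η < r f, d1, fun Z hZ1 hZ2 hZ3 => ?_, fun v hv u hu y => ?_⟩
  · have b1 := d4 ⟨Z, hZ2, hZ3⟩
    have b0 := hZ ⟨Z, hZ2, hZ3⟩
    rw [← sum_fiberwise univ fun f => f.1.1] at b1
    have b2 : ∀ v ∈ Z, 1 / (#Z : ℝ) / 4 ^ q * η <
        ∑ f with f.1.1 = v, a ⟨Z, hZ2, hZ3⟩ f * r f := fun v hv => by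
      obtain ⟨f, f1, f2⟩ := (mem_filter.1 (hZ1 hv)).2
      refine lt_of_lt_of_le ?_ (single_le_sum (f := fun f => a ⟨Z, hZ2, hZ3⟩ f * r f)
        (fun g _ => mul_nonneg (by simp only [a]; split_ifs <;> positivity) (d2 g))
        (mem_filter.2 ⟨mem_univ f, f1⟩))
      simp only [a, f1, hv, if_true]
      exact mul_lt_mul_of_pos_left f2 (by positivity)
    have b3 := sum_lt_sum_of_nonempty hZ2 b2
    have b4 := sum_le_sum_of_subset_of_nonneg (subset_univ Z)
      (f := fun v => ∑ f with f.1.1 = v, a ⟨Z, hZ2, hZ3⟩ f * r f) fun v _ _ =>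
        sum_nonneg fun g _ => mul_nonneg (by simp only [a]; split_ifs <;> positivity) (d2 g)
    rw [sum_const, nsmul_eq_mul] at b3
    have b5 : (#Z : ℝ) * (1 / (#Z : ℝ) / 4 ^ q * η) = η / 4 ^ q := by
      simp only at b0
      field_simp
    have b6 : η' ≤ η / 4 ^ q := by rw [le_div_iff₀ (by positivity)]; linarith
    linarith
  · have b1 := d3 ⟨(v, u), hu⟩ y
    rw [hev] at b1
    refine b1.trans (mul_le_mul_of_nonneg_right (not_lt.1 fun h => hv ?_)
      (add_nonneg (En_nonneg _ _ _) (ED_nonneg d1.1 _)))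
    exact mem_filter.2 ⟨mem_univ _, _, rfl, h⟩

end Pool.Agent.P.MP_e59a69_co
end

-- part Pool.Agent.P.MP_e59a69_co.KPeel
section

/-! A set without rich part is covered by threads. -/

open Finset Function

namespace Pool.Agent.P.MP_e59a69_co

section
variable {V E : Type} [Fintype V] [Fintype E] [DecidableEq V] [DecidableEq E] {s t : E → V}

omit [Fintype V] [Fintype E] [DecidableEq E] in
lemma kpeel_sum (A : Finset E) (p q : E → Prop) [DecidablePred p] [DecidablePred q]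
    (S : Finset V) :
    ∑ v ∈ S, (#{e ∈ A | s e = v ∧ p e} + #{e ∈ A | t e = v ∧ q e}) =
      ∑ e ∈ A, ((if s e ∈ S ∧ p e then 1 else 0) + if t e ∈ S ∧ q e then 1 else 0) := by
  simp only [card_filter]
  rw [Finset.sum_add_distrib, Finset.sum_add_distrib, Finset.sum_comm,
    Finset.sum_comm (s := S)]
  congr 1 <;> refine Finset.sum_congr rfl fun e _ => ?_
  · by_cases h : p e <;> simp [h]
  · by_cases h : q e <;> simp [h]

omit [DecidableEq E] in
lemma kpeel_in {c : ℕ} (H : Cub s t c) (X : Finset V) (h1 : X.Nonempty) (h2 : #X + 2 ≤ c) :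
    #{e | s e ∈ X ∧ t e ∈ X} < #X := by
  have a1 := H.small X h1 h2
  have a2 := kpeel_sum (s := s) (t := t) univ (fun _ => True) (fun _ => True) X
  simp only [and_true] at a2
  have a3 : ∑ v ∈ X, (#{e | s e = v} + #{e | t e = v}) = ∑ _v ∈ X, 3 :=
    Finset.sum_congr rfl fun v _ => H.deg v
  have a4 : ∑ e, ((if s e ∈ X then 1 else 0) + if t e ∈ X then 1 else 0) =
      2 * #{e | s e ∈ X ∧ t e ∈ X} + ct s t univ X := by
    unfold ct
    rw [card_filter, card_filter, Finset.mul_sum, ← Finset.sum_add_distrib]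
    refine Finset.sum_congr rfl fun e _ => ?_
    by_cases a : s e ∈ X <;> by_cases b : t e ∈ X <;> simp [a, b]
  rw [a3, a4, Finset.sum_const, smul_eq_mul] at a2
  omega

omit [Fintype V] [Fintype E] in
lemma kpeel_other (hl : ∀ e, s e ≠ t e) (A : Finset E) (v : V) (h : 2 ≤ dg s t A v) (e0 : E) :
    ∃ e ∈ A, e ≠ e0 ∧ ∃ u, Jn s t e v u := by
  by_contra hc
  push Not at hc
  have d : Disjoint {e ∈ A | s e = v} {e ∈ A | t e = v} := Finset.disjoint_left.2 fun e h1 h2 =>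
    hl e ((mem_filter.1 h1).2.trans (mem_filter.1 h2).2.symm)
  have : {e ∈ A | s e = v} ∪ {e ∈ A | t e = v} ⊆ {e0} := fun e he => by
    rw [mem_singleton]
    by_contra hn
    rcases mem_union.1 he with h1 | h1
    · exact hc e (mem_filter.1 h1).1 hn (t e) (Or.inl ⟨(mem_filter.1 h1).2, rfl⟩)
    · exact hc e (mem_filter.1 h1).1 hn (s e) (Or.inr ⟨(mem_filter.1 h1).2, rfl⟩)
  have := card_le_card this
  rw [card_union_of_disjoint d, card_singleton] at this
  unfold dg at h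
  omega

lemma kpeel_walk {L : ℕ} (H : Cub s t (L + 3)) (A : Finset E) (S W : Finset V)
    (h1 : ∀ v ∈ S, 2 ≤ dg s t A v) (h2 : ∀ v ∈ S, v ∉ W → ∀ e ∈ A, ∀ u, Jn s t e v u → u ∈ S)
    (v : V) (hv : v ∈ S) (hv' : v ∉ kball s t univ W L) (k : ℕ) (hk : k ≤ L) :
    ∃ (p : ℕ → V) (pe : ℕ → E), (∀ a b, a ≤ k → b ≤ k → p a = p b → a = b) ∧
      (∀ a, a < k → pe a ∈ A ∧ Jn s t (pe a) (p a) (p (a + 1))) ∧
      ∀ a, a ≤ k → p a ∈ S ∧ p a ∉ kball s t univ W (L - a) := by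
  have hl : ∀ e, s e ≠ t e := fun e h => by
    have := kpeel_in H {s e} (singleton_nonempty _) (by simp)
    rw [card_singleton, Nat.lt_one_iff, card_eq_zero, filter_eq_empty_iff] at this
    exact this (mem_univ e) ⟨mem_singleton_self _, mem_singleton.2 h.symm⟩
  induction k with
  | zero =>
    have : Nonempty E := by
      have := h1 v hv
      by_contra hc
      rw [not_nonempty_iff] at hc
      simp [dg, Finset.eq_empty_of_isEmpty A] at this
    exact ⟨fun _ => v, fun _ => Classical.arbitrary E, fun a b _ _ _ => by omega,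
      fun a h => by omega, fun a h => ⟨hv, by rwa [Nat.le_zero.1 h]⟩⟩
  | succ k ih =>
    obtain ⟨p, pe, p1, p2, p3⟩ := ih (by omega)
    obtain ⟨q1, q2⟩ := p3 k le_rfl
    obtain ⟨e, e1, e2, u, e3⟩ := kpeel_other hl A (p k) (h1 _ q1) (pe (k - 1))
    have hu : ∀ a, a ≤ k → p a ≠ u := fun a ha hu => by
      have c1 : #((range (k + 1)).image p) = k + 1 := by
        rw [card_image_of_injOn fun a ha b hb h => p1 a b (by simpa [Nat.lt_succ_iff] using ha)
          (by simpa [Nat.lt_succ_iff] using hb) h, card_range]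
      have m : ∀ a, a ≤ k → p a ∈ (range (k + 1)).image p := fun a ha =>
        mem_image_of_mem _ (mem_range.2 (by omega))
      have c2 := kpeel_in H ((range (k + 1)).image p) ⟨_, m 0 (by omega)⟩ (by omega)
      have c3 : insert e ((range k).image pe) ⊆
          ({e | s e ∈ (range (k + 1)).image p ∧ t e ∈ (range (k + 1)).image p} : Finset E) := by
        intro f hf
        refine mem_filter.2 ⟨mem_univ _, ?_⟩
        rcases mem_insert.1 hf with rfl | hf
        · rcases e3 with ⟨b1, b2⟩ | ⟨b1, b2⟩ <;> rw [b1, b2, ← hu]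
          · exact ⟨m _ le_rfl, m _ ha⟩
          · exact ⟨m _ ha, m _ le_rfl⟩
        · obtain ⟨b, hb, rfl⟩ := mem_image.1 hf
          rw [mem_range] at hb
          rcases (p2 b hb).2 with ⟨b1, b2⟩ | ⟨b1, b2⟩ <;> rw [b1, b2]
          · exact ⟨m _ hb.le, m _ hb⟩
          · exact ⟨m _ hb, m _ hb.le⟩
      have c4 := card_le_card c3
      rw [card_insert_of_notMem, card_image_of_injOn, card_range] at c4
      · omega
      · intro a ha b hb h
        rw [coe_range, Set.mem_Iio] at ha hb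
        rcases (p2 a ha).2 with ⟨b1, b2⟩ | ⟨b1, b2⟩ <;>
          rcases (p2 b hb).2 with ⟨b3, b4⟩ | ⟨b3, b4⟩ <;> rw [h] at b1 b2
        · exact p1 a b ha.le hb.le (b1.symm.trans b3)
        · have := p1 a (b + 1) ha.le hb (b1.symm.trans b4)
          have := p1 (a + 1) b ha hb.le (b2.symm.trans b3)
          omega
        · have := p1 a (b + 1) ha.le hb (b1.symm.trans b4)
          have := p1 (a + 1) b ha hb.le (b2.symm.trans b3)
          omega
        · exact p1 a b ha.le hb.le (b1.symm.trans b3)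
      · intro hf
        obtain ⟨b, hb, rfl⟩ := mem_image.1 hf
        rw [mem_range] at hb
        apply e2
        rcases (p2 b hb).2 with ⟨b1, b2⟩ | ⟨b1, b2⟩ <;> rcases e3 with ⟨b3, -⟩ | ⟨b3, -⟩
        · have := p1 b k hb.le le_rfl (b1.symm.trans b3)
          omega
        · rw [← p1 (b + 1) k hb le_rfl (b2.symm.trans b3), Nat.add_sub_cancel]
        · rw [← p1 (b + 1) k hb le_rfl (b2.symm.trans b3), Nat.add_sub_cancel]
        · have := p1 b k hb.le le_rfl (b1.symm.trans b3)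
          omega
    refine ⟨update p (k + 1) u, update pe k e, fun a b ha hb h => ?_, fun a ha => ?_,
      fun a ha => ?_⟩
    · by_cases c1 : a = k + 1 <;> by_cases c2 : b = k + 1
      · omega
      · rw [c1, update_self, update_of_ne c2] at h
        exact absurd h.symm (hu b (by omega))
      · rw [c2, update_self, update_of_ne c1] at h
        exact absurd h (hu a (by omega))
      · rw [update_of_ne c1, update_of_ne c2] at h
        exact p1 a b (by omega) (by omega) h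
    · by_cases c1 : a = k
      · rw [c1, update_self, update_self, update_of_ne (by omega)]
        exact ⟨e1, e3⟩
      · rw [update_of_ne c1, update_of_ne (by omega), update_of_ne (by omega)]
        exact p2 a (by omega)
    · by_cases c1 : a = k + 1
      · rw [c1, update_self]
        refine ⟨h2 _ q1 (fun h => q2 (kball_mono univ Subset.rfl (Nat.zero_le _) h)) e e1 u e3,
          fun h => q2 ?_⟩
        rw [show L - k = L - (k + 1) + 1 by omega, kball_succ]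
        exact mem_nb.2 (Or.inr ⟨e, mem_univ _, u, h, e3.symm.imp And.symm And.symm⟩)
      · rw [update_of_ne c1]
        exact p3 a (by omega)

lemma kpeel_step {L : ℕ} (H : Cub s t (L + 3)) (B : Finset V)
    (hB : ¬ Rich s t (1 / (2 * 4 ^ L)) B) :
    (∃ v ∈ B, dg s t {e | s e ∈ B ∧ t e ∈ B} v ≤ 1) ∨
    ∃ (p : ℕ → V) (pe : ℕ → E), (∀ a b, a < L → b < L → p a = p b → a = b) ∧
      (∀ a, a + 1 < L → Jn s t (pe a) (p a) (p (a + 1))) ∧
      ∀ a, a < L → p a ∈ B ∧ dg s t {e | s e ∈ B ∧ t e ∈ B} (p a) ≤ 2 := by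
  classical
  by_contra hc
  rw [not_or] at hc
  obtain ⟨c1, c2⟩ := hc
  push Not at c1
  refine hB fun S hS => ?_
  set A : Finset E := {e | s e ∈ B ∧ t e ∈ B} with hA
  let W : Finset V := {v ∈ S | 3 ≤ dg s t A v ∨ ∃ e ∈ A, ∃ u, Jn s t e v u ∧ u ∉ S}
  have a1 : S ⊆ kball s t univ W L := fun v hv => by
    by_contra hv'
    obtain ⟨p, pe, p1, p2, p3⟩ := kpeel_walk H A S W (fun v hv => c1 v (hS hv))
      (fun v hv hw e he u hu => by_contra fun h =>
        hw (mem_filter.2 ⟨hv, Or.inr ⟨e, he, u, hu, h⟩⟩)) v hv hv' L le_rfl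
    refine c2 ⟨p, pe, fun a b ha hb => p1 a b ha.le hb.le, fun a ha => (p2 a (by omega)).2,
      fun a ha => ⟨hS (p3 a ha.le).1, by_contra fun h => (p3 a ha.le).2 ?_⟩⟩
    exact kball_mono univ Subset.rfl (Nat.zero_le _)
      (show p a ∈ W from mem_filter.2 ⟨(p3 a ha.le).1, Or.inl (by omega)⟩)
  have a2 := (card_le_card a1).trans (card_kball H.deg univ W L)
  have a3 := kpeel_sum (s := s) (t := t) A (fun _ => True) (fun _ => True) S
  have a4 := kpeel_sum (s := s) (t := t) A (fun e => t e ∉ S) (fun e => s e ∉ S) S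
  simp only [and_true] at a3
  have a5 : ∑ v ∈ S, (2 + if v ∈ W then 1 else 0) ≤
      ∑ v ∈ S, (#{e ∈ A | s e = v} + #{e ∈ A | t e = v}) +
        ∑ v ∈ S, (#{e ∈ A | s e = v ∧ t e ∉ S} + #{e ∈ A | t e = v ∧ s e ∉ S}) := by
    rw [← Finset.sum_add_distrib]
    refine Finset.sum_le_sum fun v hv => ?_
    have b1 : 1 < #{e ∈ A | s e = v} + #{e ∈ A | t e = v} := c1 v (hS hv)
    split_ifs with h
    · rcases (mem_filter.1 h).2 with h | ⟨e, he, u, ⟨b2, b3⟩ | ⟨b2, b3⟩, b4⟩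
      · unfold dg at h; omega
      · have : 0 < #{e ∈ A | s e = v ∧ t e ∉ S} :=
          card_pos.2 ⟨e, mem_filter.2 ⟨he, b2, b3 ▸ b4⟩⟩
        omega
      · have : 0 < #{e ∈ A | t e = v ∧ s e ∉ S} :=
          card_pos.2 ⟨e, mem_filter.2 ⟨he, b2, b3 ▸ b4⟩⟩
        omega
    · omega
  have a6 : ∑ v ∈ S, (2 + if v ∈ W then 1 else 0) = 2 * #S + #W := by
    rw [Finset.sum_add_distrib, Finset.sum_const, smul_eq_mul, mul_comm, ← card_filter,
      filter_mem_eq_inter, inter_eq_right.2 (filter_subset _ _)]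
  have a7 : ∑ e ∈ A, ((if s e ∈ S then 1 else 0) + if t e ∈ S then 1 else 0) +
      ∑ e ∈ A, ((if s e ∈ S ∧ t e ∉ S then 1 else 0) + if t e ∈ S ∧ s e ∉ S then 1 else 0) =
      2 * #{e | (s e ∈ B ∧ t e ∈ B) ∧ (s e ∈ S ∨ t e ∈ S)} := by
    rw [← filter_filter, ← hA, card_filter, Finset.mul_sum, ← Finset.sum_add_distrib]
    refine Finset.sum_congr rfl fun e _ => ?_
    by_cases a : s e ∈ S <;> by_cases b : t e ∈ S <;> simp [a, b]
  rw [a3, a4, a6, a7] at a5
  have b1 : (2 * #S + #W : ℝ) ≤ 2 * #{e | (s e ∈ B ∧ t e ∈ B) ∧ (s e ∈ S ∨ t e ∈ S)} := by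
    exact_mod_cast a5
  have b2 : (#S : ℝ) ≤ 4 ^ L * #W := by exact_mod_cast a2
  have b3 : 1 / (2 * 4 ^ L) * (#S : ℝ) ≤ #W / 2 := by
    rw [div_mul_eq_mul_div, one_mul, div_le_div_iff₀ (by positivity) (by norm_num)]
    linarith
  linarith

omit [Fintype V] [DecidableEq E] in
lemma kpeel_full {B Z : Finset V} (hZ : Z ⊆ B) {F : Finset E} (hF : ∀ e ∈ F, s e ∈ Z ↔ t e ∈ Z)
    {v : V} (hv : v ∈ Z) : {e ∈ F | s e = v} ⊆ {e ∈ ({e | s e ∈ B ∧ t e ∈ B} : Finset E) | s e = v} ∧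
      {e ∈ F | t e = v} ⊆ {e ∈ ({e | s e ∈ B ∧ t e ∈ B} : Finset E) | t e = v} := by
  constructor <;> intro e he <;> obtain ⟨h1, h2⟩ := mem_filter.1 he
  · have : s e ∈ Z := h2 ▸ hv
    exact mem_filter.2 ⟨mem_filter.2 ⟨mem_univ _, hZ this, hZ ((hF e h1).1 this)⟩, h2⟩
  · have : t e ∈ Z := h2 ▸ hv
    exact mem_filter.2 ⟨mem_filter.2 ⟨mem_univ _, hZ ((hF e h1).2 this), hZ this⟩, h2⟩

end

theorem kpeel (L : ℕ) (hL : 2 ≤ L) : ∃ (ε : ℝ) (c : ℕ), 0 < ε ∧
    ∀ (V E : Type) [Fintype V] [Fintype E] [DecidableEq V] [DecidableEq E] (s t : E → V),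
      Cub s t c → ∀ B : Finset V, (∀ Z ⊆ B, Z.Nonempty → ¬ Rich s t ε Z) →
      ∃ (n : ℕ) (p : Fin n → ℕ → V) (pe : Fin n → ℕ → E),
        (∀ i a j b, a < L → b < L → p i a = p j b → i = j ∧ a = b) ∧
        (∀ i a, a + 1 < L → Jn s t (pe i a) (p i a) (p i (a + 1))) ∧
        ∀ F : Finset E, (∀ v, dg s t F v = 2) → (∀ i, ∃ a, a + 1 < L ∧ pe i a ∉ F) →
          ∀ Z ⊆ B, (∀ e ∈ F, s e ∈ Z ↔ t e ∈ Z) → Z = ∅ := by
  refine ⟨1 / (2 * 4 ^ L), L + 3, by positivity, fun V E _ _ _ _ s t H B hB => ?_⟩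
  suffices h : ∃ (n : ℕ) (p : Fin n → ℕ → V) (pe : Fin n → ℕ → E),
      (∀ i a, a < L → p i a ∈ B) ∧
      (∀ i a j b, a < L → b < L → p i a = p j b → i = j ∧ a = b) ∧
      (∀ i a, a + 1 < L → Jn s t (pe i a) (p i a) (p i (a + 1))) ∧
      ∀ F : Finset E, (∀ v, dg s t F v = 2) → (∀ i, ∃ a, a + 1 < L ∧ pe i a ∉ F) →
        ∀ Z ⊆ B, (∀ e ∈ F, s e ∈ Z ↔ t e ∈ Z) → Z = ∅ by
    obtain ⟨n, p, pe, -, h⟩ := h
    exact ⟨n, p, pe, h⟩
  induction B using Finset.strongInduction with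
  | H B ih =>
  rcases B.eq_empty_or_nonempty with rfl | hne
  · exact ⟨0, Fin.elim0, Fin.elim0, fun i => i.elim0, fun i => i.elim0, fun i => i.elim0,
      fun F _ _ Z hZ _ => subset_empty.1 hZ⟩
  rcases kpeel_step H B (hB B Subset.rfl hne) with ⟨v, v1, v2⟩ | ⟨q, qe, q1, q2, q3⟩
  · obtain ⟨n, p, pe, p0, p1, p2, p3⟩ := ih (B.erase v) (erase_ssubset v1)
      fun Z hZ => hB Z (hZ.trans (erase_subset _ _))
    refine ⟨n, p, pe, fun i a ha => mem_of_mem_erase (p0 i a ha), p1, p2,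
      fun F f1 f2 Z z1 z2 => p3 F f1 f2 Z (fun x hx => mem_erase.2 ⟨?_, z1 hx⟩) z2⟩
    rintro rfl
    obtain ⟨a1, a2⟩ := kpeel_full z1 z2 hx
    have := card_le_card a1
    have := card_le_card a2
    have := f1 x
    unfold dg at this v2
    omega
  · have m : ∀ a, a < L → q a ∈ (range L).image q := fun a ha =>
      mem_image_of_mem _ (mem_range.2 ha)
    obtain ⟨n, p, pe, p0, p1, p2, p3⟩ := ih (B \ (range L).image q)
      (sdiff_ssubset (fun x hx => by
        obtain ⟨a, ha, rfl⟩ := mem_image.1 hx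
        exact (q3 a (mem_range.1 ha)).1) ⟨_, m 0 (by omega)⟩)
      fun Z hZ => hB Z (hZ.trans sdiff_subset)
    refine ⟨n + 1, Fin.cons q p, Fin.cons qe pe, fun i => ?_, fun i a j => ?_, fun i => ?_,
      fun F f1 f2 Z z1 z2 => p3 F f1 (fun i => f2 i.succ) Z
        (fun x hx => mem_sdiff.2 ⟨z1 hx, fun hx' => ?_⟩) z2⟩
    · refine Fin.cases (fun a ha => (q3 a ha).1) (fun i a ha => (mem_sdiff.1 (p0 i a ha)).1) i
    · refine Fin.cases (Fin.cases (fun b ha hb h => ⟨rfl, q1 a b ha hb h⟩) (fun j b ha hb h => ?_) j)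
        (fun i => Fin.cases (fun b ha hb h => ?_) (fun j b ha hb h => ?_) j) i
      · exact absurd (m a ha) (by
          have h' : q a = p j b := h
          rw [h']; exact (mem_sdiff.1 (p0 j b hb)).2)
      · exact absurd (m b hb) (by
          have h' : p i a = q b := h
          rw [← h']; exact (mem_sdiff.1 (p0 i a ha)).2)
      · exact (p1 i a j b ha hb h).imp_left (congrArg Fin.succ)
    · exact Fin.cases q2 p2 i
    · have key : ∀ a, a < L → q a ∈ Z → ∀ e u, Jn s t e (q a) u → u ∈ B → e ∈ F := by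
        intro a ha hq e u he hu
        obtain ⟨a1, a2⟩ := kpeel_full z1 z2 hq
        have b1 := card_le_card a1
        have b2 := card_le_card a2
        have b3 := f1 (q a)
        have b4 := (q3 a ha).2
        unfold dg at b3 b4
        rcases he with ⟨e1, e2⟩ | ⟨e1, e2⟩
        · refine (mem_filter.1 ((eq_of_subset_of_card_le a1 (by omega)).ge ?_)).1
          exact mem_filter.2 ⟨mem_filter.2 ⟨mem_univ _, e1 ▸ z1 hq, e2 ▸ hu⟩, e1⟩
        · refine (mem_filter.1 ((eq_of_subset_of_card_le a2 (by omega)).ge ?_)).1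
          exact mem_filter.2 ⟨mem_filter.2 ⟨mem_univ _, e2 ▸ hu, e1 ▸ z1 hq⟩, e1⟩
      have step : ∀ a, a + 1 < L → (q a ∈ Z ↔ q (a + 1) ∈ Z) := fun a ha => by
        have j := q2 a ha
        have hf : q a ∈ Z ∨ q (a + 1) ∈ Z → qe a ∈ F := by
          rintro (h | h)
          · exact key a (by omega) h _ _ j (q3 _ ha).1
          · exact key _ ha h _ _ (j.symm.imp And.symm And.symm) (q3 a (by omega)).1
        have hz : qe a ∈ F → (q a ∈ Z ↔ q (a + 1) ∈ Z) := fun h => by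
          have := z2 _ h
          rcases j with ⟨e1, e2⟩ | ⟨e1, e2⟩ <;> rw [e1, e2] at this
          · exact this
          · exact this.symm
        exact ⟨fun h => (hz (hf (Or.inl h))).1 h, fun h => (hz (hf (Or.inr h))).2 h⟩
      have all : ∀ a, a < L → (q a ∈ Z ↔ q 0 ∈ Z) := fun a => by
        induction a with
        | zero => exact fun _ => Iff.rfl
        | succ a ih => exact fun ha => (step a ha).symm.trans (ih (by omega))
      obtain ⟨b, hb, rfl⟩ := mem_image.1 hx'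
      obtain ⟨a, a1, a2⟩ := f2 0
      exact a2 (key a (by omega) ((all a (by omega)).2 ((all b (mem_range.1 hb)).1 hx)) _ _
        (q2 a a1) (q3 _ a1).1)

end Pool.Agent.P.MP_e59a69_co
end

-- part Pool.Agent.P.MP_e59a69_co.QDefs
section

/-! Small connected vertex sets of a cubic graph of large girth, described by counting. -/

open Finset

set_option linter.unusedSectionVars false

namespace Pool.Agent.P.MP_e59a69_co

variable {V E : Type} [Fintype V] [Fintype E] [DecidableEq V] [DecidableEq E]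

/-- the edge `e` has exactly one end in `X` -/
abbrev Cr (src tgt : E → V) (X : Finset V) (e : E) : Prop := ¬ (src e ∈ X ↔ tgt e ∈ X)

/-- both ends of `e` lie in `X` -/
abbrev Ins (src tgt : E → V) (X : Finset V) (e : E) : Prop := src e ∈ X ∧ tgt e ∈ X

/-- the ends of `e` are `u` and `v` -/
abbrev Ends (src tgt : E → V) (e : E) (u v : V) : Prop :=
  (src e = u ∧ tgt e = v) ∨ (src e = v ∧ tgt e = u)

/-- `e` joins `A` and `B` -/
abbrev JnS (src tgt : E → V) (A B : Finset V) (e : E) : Prop :=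
  (src e ∈ A ∧ tgt e ∈ B) ∨ (src e ∈ B ∧ tgt e ∈ A)

/-- cubic, girth at least `k`, cyclic cuts of size at least `k` -/
structure QH (src tgt : E → V) (k : ℕ) : Prop where
  cub : ∀ v, degIn src tgt univ v = 3
  gir : ∀ X : Finset V, HasCycleIn src tgt X → k ≤ #X
  cyc : ∀ X : Finset V, HasCycleIn src tgt X → HasCycleIn src tgt Xᶜ → k ≤ ct src tgt univ X

/-- as few leaving edges as a tree has -/
def Tight (src tgt : E → V) (S : Finset V) : Prop := S.Nonempty ∧ ct src tgt univ S ≤ #S + 2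

/-- a tree with `h` vertices hangs on every edge that leaves `I` -/
structure Layer (src tgt : E → V) (I : Finset V) (h : ℕ) (hub : E → Finset V) : Prop where
  out : ∀ e, Cr src tgt I e →
    Tight src tgt (hub e) ∧ #(hub e) = h ∧ (src e ∈ hub e ∨ tgt e ∈ hub e)
  emp : ∀ e, ¬ Cr src tgt I e → hub e = ∅
  dI : ∀ e, Disjoint I (hub e)
  dj : ∀ e f, e ≠ f → Disjoint (hub e) (hub f)

/-- size of the trees around a set with at most `m` vertices -/
def hf (m : ℕ) : ℕ := 720 * (m + 2) + 38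

/-- ten layers -/
structure Tower (src tgt : E → V) (m : ℕ → ℕ) (I : ℕ → Finset V) (hub : ℕ → E → Finset V) :
    Prop where
  tight : ∀ j ≤ 10, Tight src tgt (I j)
  card : ∀ j ≤ 10, #(I j) ≤ m j
  lay : ∀ j < 10, Layer src tgt (I j) (hf (m j)) (hub j)
  next : ∀ j < 10, I (j + 1) = I j ∪ univ.biUnion (hub j)

/-- the size bounds grow fast enough -/
def Sz (m : ℕ → ℕ) : Prop := ∀ j, m j + (m j + 2) * hf (m j) ≤ m (j + 1)

/-- sum of the values on the edges at `v` -/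
def vs (src tgt : E → V) (y : E → ℤ) (v : V) : ℤ :=
  ∑ e, ((if src e = v then y e else 0) + if tgt e = v then y e else 0)

variable {src tgt : E → V} {k : ℕ}

lemma HasCycleIn.mono {X Y : Finset V} (h : HasCycleIn src tgt X) (hXY : X ⊆ Y) :
    HasCycleIn src tgt Y := by
  obtain ⟨C, h1, h2, h3⟩ := h
  exact ⟨C, h1, fun e he => ⟨hXY (h2 e he).1, hXY (h2 e he).2⟩, h3⟩

lemma QH.acyc (H : QH src tgt k) {X : Finset V} (hX : X.Nonempty)
    (hc : ¬ HasCycleIn src tgt X) : #X + 2 ≤ ct src tgt univ X :=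
  sparse src tgt H.cub X hX hc

lemma QH.small (H : QH src tgt k) {X : Finset V} (hX : X.Nonempty) (hk : #X < k) :
    #X + 2 ≤ ct src tgt univ X :=
  H.acyc hX fun h => absurd (H.gir X h) (by omega)

lemma QH.ne (H : QH src tgt k) (hk : 2 ≤ k) (e : E) : src e ≠ tgt e := by
  intro h
  have := H.gir {src e} ⟨{e}, singleton_nonempty _, by simp [h], fun v => by
    unfold degIn
    by_cases a : tgt e = v <;> simp [filter_singleton, h, a]⟩
  simp at this
  omega

lemma ct_union {A B : Finset V} (hd : Disjoint A B) :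
    ct src tgt univ (A ∪ B) + 2 * #{e | JnS src tgt A B e} =
      ct src tgt univ A + ct src tgt univ B := by
  unfold ct
  simp only [card_filter]
  rw [mul_sum, ← sum_add_distrib, ← sum_add_distrib]
  refine sum_congr rfl fun e _ => ?_
  have h1 : src e ∈ A → src e ∉ B := fun h => disjoint_left.1 hd h
  have h2 : tgt e ∈ A → tgt e ∉ B := fun h => disjoint_left.1 hd h
  by_cases a : src e ∈ A <;> by_cases b : src e ∈ B <;> by_cases c : tgt e ∈ A <;>
    by_cases d : tgt e ∈ B <;> simp_all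

lemma hand (hc : ∀ v, degIn src tgt univ v = 3) (X : Finset V) :
    3 * #X = 2 * #{e | Ins src tgt X e} + ct src tgt univ X := by
  have h1 : ∑ v ∈ X, degIn src tgt univ v =
      ∑ e, ((if src e ∈ X then 1 else 0) + if tgt e ∈ X then 1 else 0) := by
    unfold degIn
    simp only [card_filter]
    rw [sum_add_distrib, sum_comm, sum_add_distrib]
    congr 1
    · exact sum_congr rfl fun e _ => by simp
    · rw [sum_comm]
      exact sum_congr rfl fun e _ => by simp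
  simp only [hc, sum_const, smul_eq_mul] at h1
  rw [mul_comm, h1]
  unfold ct
  simp only [card_filter]
  rw [mul_sum, ← sum_add_distrib]
  refine sum_congr rfl fun e _ => ?_
  by_cases a : src e ∈ X <;> by_cases b : tgt e ∈ X <;> simp [a, b]

lemma QH.single (H : QH src tgt k) (v : V) : Tight src tgt {v} := by
  have := hand H.cub {v}
  exact ⟨singleton_nonempty _, by rw [card_singleton] at this ⊢; omega⟩

lemma Tight.union {A B : Finset V} (hA : Tight src tgt A) (hB : Tight src tgt B)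
    (hd : Disjoint A B) {e : E} (he : JnS src tgt A B e) : Tight src tgt (A ∪ B) := by
  have h1 := ct_union (src := src) (tgt := tgt) hd
  have h2 : 0 < #{e | JnS src tgt A B e} := card_pos.2 ⟨e, mem_filter.2 ⟨mem_univ _, he⟩⟩
  refine ⟨hA.1.mono subset_union_left, ?_⟩
  rw [card_union_of_disjoint hd]
  have := hA.2
  have := hB.2
  omega

/-- at most one edge joins two disjoint small trees -/
lemma QH.one (H : QH src tgt k) {A B : Finset V} (hA : Tight src tgt A) (hB : Tight src tgt B)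
    (hd : Disjoint A B) (hk : #A + #B < k) {e f : E} (he : JnS src tgt A B e)
    (hf : JnS src tgt A B f) : e = f := by
  have h1 := ct_union (src := src) (tgt := tgt) hd
  have h2 := H.small (X := A ∪ B) (hA.1.mono subset_union_left)
    (by rwa [card_union_of_disjoint hd])
  rw [card_union_of_disjoint hd] at h2
  have := hA.2
  have := hB.2
  exact card_le_one.1 (show #{e | JnS src tgt A B e} ≤ 1 by omega) e
    (mem_filter.2 ⟨mem_univ _, he⟩) f (mem_filter.2 ⟨mem_univ _, hf⟩)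

/-- a small tree is connected -/
lemma QH.split (H : QH src tgt k) {S X : Finset V} (hS : Tight src tgt S) (hk : #S < k) {u v : V}
    (hu : u ∈ S) (hv : v ∈ S) (huX : u ∈ X) (hvX : v ∉ X) :
    ∃ e, Ins src tgt S e ∧ Cr src tgt X e := by
  have hd : Disjoint (S ∩ X) (S \ X) := disjoint_left.2 fun a h1 h2 =>
    (mem_sdiff.1 h2).2 (mem_inter.1 h1).2
  have h1 := ct_union (src := src) (tgt := tgt) hd
  have e1 : S ∩ X ∪ S \ X = S := by
    ext a
    by_cases b : a ∈ X <;> simp [b]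
  have h2 := card_union_of_disjoint hd
  rw [e1] at h1 h2
  have h3 := H.small (X := S ∩ X) ⟨u, mem_inter.2 ⟨hu, huX⟩⟩ (by omega)
  have h4 := H.small (X := S \ X) ⟨v, mem_sdiff.2 ⟨hv, hvX⟩⟩ (by omega)
  have := hS.2
  obtain ⟨e, he⟩ := card_pos.1 (show 0 < #{e | JnS src tgt (S ∩ X) (S \ X) e} by omega)
  have := (mem_filter.1 he).2
  simp only [JnS, mem_inter, mem_sdiff] at this
  exact ⟨e, by tauto, by tauto⟩

/-- a cycle that meets `S` and does not cross its boundary gives a cycle inside `S` -/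
lemma cyc_pick {X : Finset V} (h : HasCycleIn src tgt X) : ∃ v, ∀ S : Finset V, v ∈ S →
    (∀ e, Ins src tgt X e → ¬ Cr src tgt S e) → HasCycleIn src tgt (X ∩ S) := by
  obtain ⟨C, ⟨e, he⟩, h2, h3⟩ := h
  refine ⟨src e, fun S hs hS => ?_⟩
  have hi : ∀ e ∈ C, src e ∈ S ↔ tgt e ∈ S := fun e he => not_not.1 (hS e (h2 e he))
  refine ⟨{e ∈ C | src e ∈ S}, ⟨e, mem_filter.2 ⟨he, hs⟩⟩, fun f hf => ?_, fun v => ?_⟩
  · obtain ⟨a, b⟩ := mem_filter.1 hf
    exact ⟨mem_inter.2 ⟨(h2 f a).1, b⟩, mem_inter.2 ⟨(h2 f a).2, (hi f a).1 b⟩⟩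
  · by_cases hv : v ∈ S
    · have : degIn src tgt {e ∈ C | src e ∈ S} v = degIn src tgt C v := by
        unfold degIn
        congr 2 <;> ext f <;> simp only [mem_filter]
        · exact ⟨fun a => ⟨a.1.1, a.2⟩, fun a => ⟨⟨a.1, a.2 ▸ hv⟩, a.2⟩⟩
        · exact ⟨fun a => ⟨a.1.1, a.2⟩, fun a => ⟨⟨a.1, (hi f a.1).2 (a.2 ▸ hv)⟩, a.2⟩⟩
      rw [this]
      exact h3 v
    · left
      unfold degIn
      rw [Nat.add_eq_zero_iff, card_eq_zero, card_eq_zero, filter_eq_empty_iff,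
        filter_eq_empty_iff]
      exact ⟨fun f hf a => hv (a ▸ (mem_filter.1 hf).2),
        fun f hf a => hv (a ▸ (hi f (mem_filter.1 hf).1).1 (mem_filter.1 hf).2)⟩

lemma Tower.sub {m : ℕ → ℕ} {I : ℕ → Finset V} {hub : ℕ → E → Finset V}
    (T : Tower src tgt m I hub) {i j : ℕ} (hij : i ≤ j) (hj : j ≤ 10) : I i ⊆ I j := by
  induction j, hij using Nat.le_induction with
  | base => exact Subset.refl _
  | succ j _ ih =>
    rw [T.next j (by omega)]
    exact (ih (by omega)).trans subset_union_left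

lemma Tower.hub_sub {m : ℕ → ℕ} {I : ℕ → Finset V} {hub : ℕ → E → Finset V}
    (T : Tower src tgt m I hub) {j : ℕ} (hj : j < 10) (e : E) : hub j e ⊆ I (j + 1) := by
  rw [T.next j hj]
  exact (subset_biUnion_of_mem _ (mem_univ e)).trans subset_union_right

/-- an edge with an end in one level has both ends in the next level -/
lemma Tower.ins {m : ℕ → ℕ} {I : ℕ → Finset V} {hub : ℕ → E → Finset V}
    (T : Tower src tgt m I hub) {j : ℕ} (hj : j < 10) {e : E}
    (he : src e ∈ I j ∨ tgt e ∈ I j) : Ins src tgt (I (j + 1)) e := by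
  have hs := T.sub (Nat.le_succ j) hj
  by_cases hc : Cr src tgt (I j) e
  · obtain ⟨-, -, h⟩ := (T.lay j hj).out e hc
    have hd : ∀ v, v ∈ I j → v ∉ hub j e := fun v a => disjoint_left.1 ((T.lay j hj).dI e) a
    have h1 := T.hub_sub hj e
    rcases h with h | h
    · exact ⟨h1 h, hs (he.resolve_left fun a => hd _ a h)⟩
    · exact ⟨hs (he.resolve_right fun a => hd _ a h), h1 h⟩
  · have := not_not.1 hc
    exact ⟨hs (by tauto), hs (by tauto)⟩

lemma Sz.mono {m : ℕ → ℕ} (h : Sz m) : Monotone m :=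
  monotone_nat_of_le_succ fun j => le_trans (Nat.le_add_right _ _) (h j)

end Pool.Agent.P.MP_e59a69_co
end

-- part Pool.Agent.P.MP_e59a69_co.QGrow
section

/-! Growing trees on the edges that leave a small tree. -/

open Finset Function

set_option linter.unusedSectionVars false

namespace Pool.Agent.P.MP_e59a69_co

variable {V E : Type} [Fintype V] [Fintype E] [DecidableEq V] [DecidableEq E]
variable {src tgt : E → V} {k : ℕ}

/-- an unfinished layer -/
structure PreL (src tgt : E → V) (I : Finset V) (h : ℕ) (hub : E → Finset V) : Prop where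
  out : ∀ e, hub e = ∅ ∨ (Tight src tgt (hub e) ∧ JnS src tgt I (hub e) e)
  le : ∀ e, #(hub e) ≤ h
  dI : ∀ e, Disjoint I (hub e)
  dj : ∀ e f, e ≠ f → Disjoint (hub e) (hub f)

lemma PreL.cr {I : Finset V} {h : ℕ} {hub : E → Finset V} (P : PreL src tgt I h hub) {e : E}
    (he : ¬ Cr src tgt I e) : hub e = ∅ := by
  refine (P.out e).resolve_right fun ⟨_, a⟩ => he ?_
  have hd : ∀ v, v ∈ I → v ∉ hub e := fun v b => disjoint_left.1 (P.dI e) b
  have h1 := hd (src e)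
  have h2 := hd (tgt e)
  tauto

lemma PreL.tight {I : Finset V} {h : ℕ} {hub : E → Finset V} (P : PreL src tgt I h hub)
    (hI : Tight src tgt I) (A : Finset E) : Tight src tgt (I ∪ A.biUnion hub) := by
  induction A using Finset.induction_on with
  | empty => simpa using hI
  | insert e A he ih =>
    rw [biUnion_insert, union_comm (hub e), ← union_assoc]
    rcases P.out e with a | ⟨a, b⟩
    · simpa [a] using ih
    · refine ih.union a ?_ (e := e) ?_
      · rw [disjoint_union_left, disjoint_biUnion_left]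
        exact ⟨P.dI e, fun f hf => P.dj f e fun c => he (c ▸ hf)⟩
      · simp only [JnS, mem_union] at b ⊢
        tauto

lemma PreL.card {I : Finset V} {h : ℕ} {hub : E → Finset V} (P : PreL src tgt I h hub)
    (hI : Tight src tgt I) : #(I ∪ univ.biUnion hub) ≤ #I + (#I + 2) * h := by
  refine (card_union_le _ _).trans (Nat.add_le_add_left (card_biUnion_le.trans ?_) _)
  rw [← sum_subset (filter_subset (Cr src tgt I) univ)
    fun e _ he => by rw [P.cr fun a => he (mem_filter.2 ⟨mem_univ _, a⟩), card_empty]]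
  refine (sum_le_card_nsmul _ _ h fun e _ => P.le e).trans ?_
  exact Nat.mul_le_mul_right _ hI.2

lemma QH.grow (H : QH src tgt k) {I : Finset V} (hI : Tight src tgt I) {h : ℕ}
    (hk : #I + (#I + 2) * h < k) {hub : E → Finset V} (P : PreL src tgt I h hub) {e : E}
    (he : Cr src tgt I e) : ∃ w, w ∉ I ∪ univ.biUnion hub ∧ Tight src tgt (insert w (hub e)) ∧
      JnS src tgt I (insert w (hub e)) e := by
  have hc := P.card hI
  rcases P.out e with a | ⟨a, b⟩
  · obtain ⟨w, h1, h2⟩ : ∃ w, w ∉ I ∧ JnS src tgt I {w} e := by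
      by_cases c : src e ∈ I
      · exact ⟨tgt e, by tauto, Or.inl ⟨c, mem_singleton_self _⟩⟩
      · exact ⟨src e, c, Or.inr ⟨mem_singleton_self _, by tauto⟩⟩
    refine ⟨w, fun hw => ?_, by simpa [a] using H.single w, by simpa [a] using h2⟩
    obtain ⟨f, -, hf⟩ := mem_biUnion.1 ((mem_union.1 hw).resolve_left h1)
    obtain ⟨c, d⟩ := (P.out f).resolve_left (ne_empty_of_mem hf)
    have h3 : #I + #(hub f) < k := by
      rw [← card_union_of_disjoint (P.dI f)]
      exact lt_of_le_of_lt ((card_le_card (union_subset_union_right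
        (subset_biUnion_of_mem _ (mem_univ f)))).trans hc) hk
    have h4 : JnS src tgt I (hub f) e := by
      simp only [JnS, mem_singleton] at h2 ⊢
      rcases h2 with ⟨x, y⟩ | ⟨x, y⟩
      exacts [Or.inl ⟨x, y ▸ hf⟩, Or.inr ⟨x ▸ hf, y⟩]
    rw [← H.one hI c (P.dI f) h3 h4 d, a] at hf
    exact notMem_empty _ hf
  · have hR := P.tight hI (univ.erase e)
    have hd : Disjoint (I ∪ (univ.erase e).biUnion hub) (hub e) := by
      rw [disjoint_union_left, disjoint_biUnion_left]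
      exact ⟨P.dI e, fun f hf => P.dj f e (ne_of_mem_erase hf)⟩
    have e1 : I ∪ univ.biUnion hub = (I ∪ (univ.erase e).biUnion hub) ∪ hub e := by
      rw [union_assoc, union_comm _ (hub e), ← biUnion_insert, insert_erase (mem_univ e)]
    rw [e1, card_union_of_disjoint hd] at hc
    have h1 := H.small a.1 (by omega)
    obtain ⟨g, hg, g', hg', hne⟩ := one_lt_card.1 (show 1 < ct src tgt univ (hub e) by omega)
    obtain ⟨f, f1, f2⟩ : ∃ f, Cr src tgt (hub e) f ∧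
        ¬ JnS src tgt (I ∪ (univ.erase e).biUnion hub) (hub e) f := by
      by_contra q
      have q' := fun f x => not_not.1 (not_and.1 (not_exists.1 q f) x)
      exact hne (H.one hR a hd (by omega) (q' g (mem_filter.1 hg).2) (q' g' (mem_filter.1 hg').2))
    obtain ⟨w, h2, h3, h4⟩ : ∃ w, w ∉ I ∪ (univ.erase e).biUnion hub ∧ w ∉ hub e ∧
        JnS src tgt {w} (hub e) f := by
      by_cases c : src f ∈ hub e
      · exact ⟨tgt f, by tauto, by tauto, Or.inr ⟨c, mem_singleton_self _⟩⟩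
      · exact ⟨src f, by tauto, c, Or.inl ⟨mem_singleton_self _, by tauto⟩⟩
    refine ⟨w, by rw [e1, mem_union]; tauto, ?_, ?_⟩
    · rw [insert_eq]
      exact (H.single w).union a (disjoint_singleton_left.2 h3) h4
    · simp only [JnS, mem_insert] at b ⊢
      tauto

theorem QH.exists_layer (H : QH src tgt k) {I : Finset V} (hI : Tight src tgt I) {h : ℕ}
    (hh : 1 ≤ h) (hk : #I + (#I + 2) * h < k) :
    ∃ hub : E → Finset V, Layer src tgt I h hub ∧ Tight src tgt (I ∪ univ.biUnion hub) ∧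
      #(I ∪ univ.biUnion hub) ≤ #I + (#I + 2) * h := by
  classical
  obtain ⟨hub, h1, h2⟩ := exists_max_image (univ.filter (PreL src tgt I h))
    (fun hub => ∑ e, #(hub e)) ⟨fun _ => ∅, mem_filter.2 ⟨mem_univ _,
      ⟨fun _ => Or.inl rfl, by simp, by simp, by simp⟩⟩⟩
  have P := (mem_filter.1 h1).2
  have hfull : ∀ e, Cr src tgt I e → #(hub e) = h := fun e he => by
    by_contra hne
    obtain ⟨w, w1, w2, w3⟩ := H.grow hI hk P he
    have w4 : ∀ f, w ∉ hub f := fun f a =>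
      w1 (mem_union_right _ (mem_biUnion.2 ⟨f, mem_univ _, a⟩))
    have w5 : w ∉ I := fun a => w1 (mem_union_left _ a)
    have Q : PreL src tgt I h (update hub e (insert w (hub e))) := by
      refine ⟨fun f => ?_, fun f => ?_, fun f => ?_, fun f g hfg => ?_⟩
      · by_cases c : f = e
        · subst c
          rw [update_self]
          exact Or.inr ⟨w2, w3⟩
        · rw [update_of_ne c]
          exact P.out f
      · by_cases c : f = e
        · subst c
          rw [update_self, card_insert_of_notMem (w4 f)]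
          have := P.le f
          omega
        · rw [update_of_ne c]
          exact P.le f
      · by_cases c : f = e
        · subst c
          rw [update_self, disjoint_insert_right]
          exact ⟨w5, P.dI f⟩
        · rw [update_of_ne c]
          exact P.dI f
      · by_cases c : f = e
        · subst c
          rw [update_self, update_of_ne hfg.symm, disjoint_insert_left]
          exact ⟨w4 g, P.dj f g hfg⟩
        · by_cases d : g = e
          · subst d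
            rw [update_self, update_of_ne c, disjoint_insert_right]
            exact ⟨w4 f, P.dj f g hfg⟩
          · rw [update_of_ne c, update_of_ne d]
            exact P.dj f g hfg
    refine absurd (h2 _ (mem_filter.2 ⟨mem_univ _, Q⟩)) (not_le.2 ?_)
    refine sum_lt_sum (fun f _ => ?_) ⟨e, mem_univ _, ?_⟩
    · by_cases c : f = e
      · subst c
        rw [update_self]
        exact card_le_card (subset_insert _ _)
      · rw [update_of_ne c]
    · rw [update_self, card_insert_of_notMem (w4 e)]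
      omega
  refine ⟨hub, ⟨fun e he => ?_, fun e he => P.cr he, P.dI, P.dj⟩, P.tight hI _, P.card hI⟩
  have a := hfull e he
  obtain ⟨b, c⟩ := (P.out e).resolve_left fun q => by
    rw [q, card_empty] at a
    omega
  exact ⟨b, a, by tauto⟩

theorem QH.exists_tower (H : QH src tgt k) {m : ℕ → ℕ} (hm : Sz m) (hk : m 10 < k) {W : Finset V}
    (hW : Tight src tgt W) (h0 : #W ≤ m 0) :
    ∃ (I : ℕ → Finset V) (hub : ℕ → E → Finset V), Tower src tgt m I hub ∧ I 0 = W := by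
  have key : ∀ (j : ℕ) (S : Finset V), ∃ hub : E → Finset V, j < 10 → Tight src tgt S →
      #S ≤ m j → Layer src tgt S (hf (m j)) hub ∧ Tight src tgt (S ∪ univ.biUnion hub) ∧
        #(S ∪ univ.biUnion hub) ≤ m (j + 1) := fun j S => by
    by_cases c : j < 10 ∧ Tight src tgt S ∧ #S ≤ m j
    · obtain ⟨c1, c2, c3⟩ := c
      have h1 : #S + (#S + 2) * hf (m j) ≤ m (j + 1) :=
        le_trans (add_le_add c3 (Nat.mul_le_mul_right _ (by omega))) (hm j)
      have h2 := hm.mono (show j + 1 ≤ 10 from c1)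
      obtain ⟨hub, a, b, d⟩ := H.exists_layer c2 (h := hf (m j)) (by unfold hf; omega) (by omega)
      exact ⟨hub, fun _ _ _ => ⟨a, b, d.trans h1⟩⟩
    · exact ⟨fun _ => ∅, fun a b d => absurd ⟨a, b, d⟩ c⟩
  choose g hg using key
  let I : ℕ → Finset V := fun j => Nat.rec W (fun i S => S ∪ univ.biUnion (g i S)) j
  have hI : ∀ j ≤ 10, Tight src tgt (I j) ∧ #(I j) ≤ m j := fun j hj => by
    induction j with
    | zero => exact ⟨hW, h0⟩
    | succ j ih =>
      obtain ⟨a, b⟩ := ih (by omega)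
      exact (hg j (I j) hj a b).2
  exact ⟨I, fun j => g j (I j), ⟨fun j hj => (hI j hj).1, fun j hj => (hI j hj).2,
    fun j hj => (hg j (I j) hj (hI j hj.le).1 (hI j hj.le).2).1, fun j _ => rfl⟩, rfl⟩

end Pool.Agent.P.MP_e59a69_co
end

-- part Pool.Agent.P.MP_e59a69_co.QCon
section

/-! Contracting the trees of a family of layers. -/

open Finset

set_option linter.unusedSectionVars false

namespace Pool.Agent.P.MP_e59a69_co

variable {V E κ : Type} [Fintype V] [Fintype E] [DecidableEq V] [DecidableEq E]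
variable {src tgt : E → V} {k : ℕ}

/-- disjoint small trees, each with a layer around it -/
structure Fam (src tgt : E → V) (k h : ℕ) (I J : κ → Finset V) (hub : κ → E → Finset V) :
    Prop where
  lay : ∀ c, Layer src tgt (I c) h (hub c)
  eq : ∀ c, J c = I c ∪ univ.biUnion (hub c)
  ne : ∀ c, (I c).Nonempty
  tJ : ∀ c, Tight src tgt (J c)
  sm : ∀ c, #(J c) < k
  dj : ∀ c d, c ≠ d → Disjoint (J c) (J d)

/-- `nd` sends every tree to one of its vertices and every core to one of its trees -/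
structure NdQ (I J : κ → Finset V) (hub : κ → E → Finset V) (nd : V → V) (Z : Finset V) :
    Prop where
  hub_mem : ∀ c e, ∀ v ∈ hub c e, nd v ∈ hub c e ∧ nd v ∈ Z ∧ ∀ w ∈ hub c e, nd w = nd v
  core : ∀ c, ∃ e, ∃ z ∈ hub c e, ∀ v ∈ I c, nd v = nd z
  out : ∀ v, (∀ c, v ∉ J c) → nd v = v
  ter : ∀ z ∈ Z, nd z = z ∧ ∃ c e, z ∈ hub c e

variable {h : ℕ} {I J : κ → Finset V} {hub : κ → E → Finset V} {nd : V → V} {Z : Finset V}

lemma Fam.IJ (F : Fam src tgt k h I J hub) (c : κ) : I c ⊆ J c := F.eq c ▸ subset_union_left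

lemma Fam.hJ (F : Fam src tgt k h I J hub) (c : κ) (e : E) : hub c e ⊆ J c :=
  F.eq c ▸ (subset_biUnion_of_mem _ (mem_univ e)).trans subset_union_right

lemma Fam.uniq (F : Fam src tgt k h I J hub) {c d : κ} {v : V} (h1 : v ∈ J c) (h2 : v ∈ J d) :
    c = d := by
  by_contra a
  exact disjoint_left.1 (F.dj c d a) h1 h2

lemma Fam.nI (F : Fam src tgt k h I J hub) {c d : κ} {e : E} {v : V} (h1 : v ∈ hub c e) :
    v ∉ I d := fun h2 => by
  obtain rfl := F.uniq (F.hJ c e h1) (F.IJ d h2)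
  exact disjoint_left.1 ((F.lay c).dI e) h2 h1

lemma Fam.cases (F : Fam src tgt k h I J hub) {c : κ} {v : V} (h1 : v ∈ J c) :
    v ∈ I c ∨ ∃ e, v ∈ hub c e := by
  rw [F.eq c, mem_union, mem_biUnion] at h1
  exact h1.imp_right fun ⟨e, _, a⟩ => ⟨e, a⟩

lemma Fam.hub_cr (F : Fam src tgt k h I J hub) {c : κ} {e : E} {v : V} (h1 : v ∈ hub c e) :
    Cr src tgt (I c) e := fun a => by
  rw [(F.lay c).emp e (not_not.2 a)] at h1
  exact notMem_empty _ h1

/-- the ends of an edge that leaves a core -/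
lemma Fam.ends (F : Fam src tgt k h I J hub) {c : κ} {e : E} (he : Cr src tgt (I c) e) :
    JnS src tgt (I c) (hub c e) e := by
  rcases ((F.lay c).out e he).2.2 with a | a
  · have := F.nI (d := c) a
    tauto
  · have := F.nI (d := c) a
    tauto

lemma Fam.ins (F : Fam src tgt k h I J hub) {c : κ} {e : E} (he : src e ∈ I c ∨ tgt e ∈ I c) :
    Ins src tgt (J c) e := by
  by_cases a : Cr src tgt (I c) e
  · rcases F.ends a with ⟨x, y⟩ | ⟨x, y⟩
    exacts [⟨F.IJ c x, F.hJ c e y⟩, ⟨F.hJ c e x, F.IJ c y⟩]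
  · have := not_not.1 a
    exact ⟨F.IJ c (by tauto), F.IJ c (by tauto)⟩

theorem QH.exists_nd (H : QH src tgt k) (F : Fam src tgt k h I J hub) :
    ∃ (nd : V → V) (Z : Finset V), NdQ I J hub nd Z := by
  classical
  have h1 : ∀ c, ∃ e, ∃ z, z ∈ hub c e := fun c => by
    have := H.small (F.ne c) (lt_of_le_of_lt (card_le_card (F.IJ c)) (F.sm c))
    obtain ⟨e, he⟩ := card_pos.1 (show 0 < ct src tgt univ (I c) by omega)
    exact ⟨e, ((F.lay c).out e (mem_filter.1 he).2).1.1⟩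
  choose rt z hz using h1
  let Hb : V → Finset V := fun v =>
    {w | ∃ c e, w ∈ hub c e ∧ (v ∈ hub c e ∨ (v ∈ I c ∧ e = rt c))}
  have hb1 : ∀ c e, ∀ v ∈ hub c e, Hb v = hub c e := fun c e v hv => by
    ext w
    simp only [Hb, mem_filter, mem_univ, true_and]
    refine ⟨fun ⟨d, f, a, b⟩ => ?_, fun a => ⟨c, e, a, Or.inl hv⟩⟩
    rcases b with b | b
    · obtain rfl := F.uniq (F.hJ c e hv) (F.hJ d f b)
      by_cases q : e = f
      · exact q ▸ a
      · exact absurd b (disjoint_left.1 ((F.lay c).dj e f q) hv)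
    · exact absurd b.1 (F.nI hv)
  have hb2 : ∀ c, ∀ v ∈ I c, Hb v = hub c (rt c) := fun c v hv => by
    ext w
    simp only [Hb, mem_filter, mem_univ, true_and]
    refine ⟨fun ⟨d, f, a, b⟩ => ?_, fun a => ⟨c, _, a, Or.inr ⟨hv, rfl⟩⟩⟩
    rcases b with b | b
    · exact absurd hv (F.nI b)
    · obtain rfl := F.uniq (F.IJ c hv) (F.IJ d b.1)
      exact b.2 ▸ a
  have hb3 : ∀ v, (∀ c, v ∉ J c) → ¬ (Hb v).Nonempty := fun v hv ⟨w, hw⟩ => by
    obtain ⟨c, e, -, b | b⟩ := (mem_filter.1 hw).2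
    exacts [hv c (F.hJ c e b), hv c (F.IJ c b.1)]
  let pk : Finset V → V → V := fun S v => if q : S.Nonempty then q.choose else v
  have pk1 : ∀ S v, S.Nonempty → pk S v ∈ S ∧ ∀ w, pk S w = pk S v := fun S v q => by
    simp only [pk, dif_pos q]
    exact ⟨q.choose_spec, fun _ => trivial⟩
  refine ⟨fun v => pk (Hb v) v, ({y | pk (Hb y) y = y ∧ ∃ c e, y ∈ hub c e} : Finset V),
    fun c e v hv => ?_, fun c => ⟨rt c, z c, hz c, fun v hv => ?_⟩, fun v hv => dif_neg (hb3 v hv),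
    fun y hy => (mem_filter.1 hy).2⟩
  · obtain ⟨a, b⟩ := pk1 (hub c e) v ⟨v, hv⟩
    rw [hb1 c e v hv]
    refine ⟨a, mem_filter.2 ⟨mem_univ _, ?_, c, e, a⟩, fun w hw => ?_⟩
    · rw [hb1 c e _ a, b]
    · rw [hb1 c e w hw, b]
  · rw [hb2 c v hv, hb1 c _ _ (hz c)]
    exact (pk1 _ _ ⟨_, hz c⟩).2 v

lemma ct_nd (nd : V → V) (A : Finset E) (X : Finset V) :
    ct (fun e => nd (src e)) (fun e => nd (tgt e)) A X = ct src tgt A {v | nd v ∈ X} := by
  unfold ct
  simp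

lemma NdQ.mem (D : NdQ I J hub nd Z) (F : Fam src tgt k h I J hub) {c : κ} {v : V} (hv : v ∈ J c) :
    nd v ∈ Z ∧ nd v ∈ J c := by
  rcases F.cases hv with a | ⟨e, a⟩
  · obtain ⟨e, z, hz, q⟩ := D.core c
    rw [q v a]
    exact ⟨(D.hub_mem c e z hz).2.1, F.hJ c e (D.hub_mem c e z hz).1⟩
  · exact ⟨(D.hub_mem c e v a).2.1, F.hJ c e (D.hub_mem c e v a).1⟩

/-- a side that holds a terminal holds a whole tree -/
lemma NdQ.side (D : NdQ I J hub nd Z) (F : Fam src tgt k h I J hub) {X : Finset V} {z : V}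
    (hz : z ∈ Z) (hX : z ∈ X) : ∃ c e, #(hub c e) = h ∧ ∀ v ∈ hub c e, nd v ∈ X := by
  obtain ⟨a, c, e, b⟩ := D.ter z hz
  exact ⟨c, e, ((F.lay c).out e (F.hub_cr b)).2.1, fun v hv => by
    rw [(D.hub_mem c e z b).2.2 v hv, a]; exact hX⟩

/-- if no tree is split, contraction does not change sides outside the cores -/
lemma NdQ.same (D : NdQ I J hub nd Z) (F : Fam src tgt k h I J hub) {X : Finset V}
    (hX : ∀ c e, ∀ u ∈ hub c e, ∀ v ∈ hub c e, u ∈ X → v ∈ X) {v : V} (hv : ∀ c, v ∉ I c) :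
    nd v ∈ X ↔ v ∈ X := by
  by_cases a : ∃ c, v ∈ J c
  · obtain ⟨c, a⟩ := a
    obtain ⟨e, b⟩ := (F.cases a).resolve_left (hv c)
    have := (D.hub_mem c e v b).1
    exact ⟨hX c e _ this _ b, hX c e _ b _ this⟩
  · rw [D.out v fun c q => a ⟨c, q⟩]

lemma QH.unsplit (H : QH src tgt k) (F : Fam src tgt k h I J hub) {X : Finset V}
    (hX : ∀ c f e, Ins src tgt (hub c f) e → ¬ Cr src tgt X e) :
    ∀ c e, ∀ u ∈ hub c e, ∀ v ∈ hub c e, u ∈ X → v ∈ X := fun c e u hu v hv a => by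
  by_contra b
  obtain ⟨g, g1, g2⟩ := H.split ((F.lay c).out e (F.hub_cr hu)).1
    (lt_of_le_of_lt (card_le_card (F.hJ c e)) (F.sm c)) hu hv a b
  exact hX c e g g1 g2

end Pool.Agent.P.MP_e59a69_co
end

-- part Pool.Agent.P.MP_e59a69_co.LSplit
section

/-! Complete splitting off at the non-terminals of a multigraph with even cuts. -/

open Finset Function

namespace Pool.Agent.P.MP_e59a69_co

variable {N E : Type} [Fintype N] [Fintype E] [DecidableEq N] [DecidableEq E]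

omit [Fintype N] [DecidableEq E] in
lemma submod_LSplit (s t : E → N) (X Y : Finset N) :
    ct s t univ (X ∩ Y) + ct s t univ (X ∪ Y) ≤ ct s t univ X + ct s t univ Y := by
  unfold ct
  simp only [card_filter]
  rw [← Finset.sum_add_distrib, ← Finset.sum_add_distrib]
  refine Finset.sum_le_sum fun e _ => ?_
  by_cases a : s e ∈ X <;> by_cases b : t e ∈ X <;> by_cases c : s e ∈ Y <;>
    by_cases d : t e ∈ Y <;> simp [a, b, c, d]

omit [Fintype N] [DecidableEq E] in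
lemma posi_LSplit (s t : E → N) {X Y : Finset N} {e1 : E} (h1 : s e1 ∉ X) (h2 : s e1 ∉ Y)
    (h3 : t e1 ∈ X) (h4 : t e1 ∈ Y) :
    ct s t univ (X \ Y) + ct s t univ (Y \ X) < ct s t univ X + ct s t univ Y := by
  unfold ct
  simp only [card_filter]
  rw [← Finset.sum_add_distrib, ← Finset.sum_add_distrib]
  refine Finset.sum_lt_sum (fun e _ => ?_) ⟨e1, mem_univ _, by simp [h1, h2, h3, h4]⟩
  by_cases a : s e ∈ X <;> by_cases b : t e ∈ X <;> by_cases c : s e ∈ Y <;>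
    by_cases d : t e ∈ Y <;> simp [a, b, c, d]

omit [Fintype N] in
lemma sep_LSplit {Z X Y : Finset N} (hX : Sep Z X) (hY : Sep Z Y)
    (h : (∀ z ∈ Z, z ∈ X → z ∉ Y) ∨ ∀ z ∈ Z, z ∉ Y → z ∈ X) : Sep Z (X \ Y) := by
  obtain ⟨⟨x, hx, hx'⟩, -⟩ := hX
  obtain ⟨⟨y, hy, hy'⟩, y', hz, hz'⟩ := hY
  refine ⟨?_, y, hy, fun h => (mem_sdiff.1 h).2 hy'⟩
  rcases h with h | h
  · exact ⟨x, hx, mem_sdiff.2 ⟨hx', h x hx hx'⟩⟩
  · exact ⟨y', hz, mem_sdiff.2 ⟨h y' hz hz', hz'⟩⟩

lemma union_LSplit {s t : E → N} {Z : Finset N} {k : ℕ}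
    (h : ∀ X, Sep Z X → 2 * k ≤ ct s t univ X) {X Y : Finset N} {e1 : E} (h1 : s e1 ∉ X)
    (h2 : s e1 ∉ Y) (h3 : t e1 ∈ X) (h4 : t e1 ∈ Y) (hX : Sep Z X) (hY : Sep Z Y)
    (cX : ct s t univ X = 2 * k) (cY : ct s t univ Y = 2 * k) :
    Sep Z (X ∪ Y) ∧ ct s t univ (X ∪ Y) = 2 * k := by
  by_cases hA : (∃ z ∈ Z, z ∈ X ∧ z ∈ Y) ∧ ∃ z ∈ Z, z ∉ X ∧ z ∉ Y
  · obtain ⟨⟨a, ha, aX, aY⟩, b, hb, bX, bY⟩ := hA
    have s1 : Sep Z (X ∩ Y) :=
      ⟨⟨a, ha, mem_inter.2 ⟨aX, aY⟩⟩, b, hb, fun h => bX (mem_inter.1 h).1⟩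
    have s2 : Sep Z (X ∪ Y) :=
      ⟨⟨a, ha, mem_union_left _ aX⟩, b, hb, fun h => (mem_union.1 h).elim bX bY⟩
    have := submod_LSplit s t X Y
    have := h _ s1
    have := h _ s2
    exact ⟨s2, by omega⟩
  · have s1 : Sep Z (X \ Y) := sep_LSplit hX hY (by grind)
    have s2 : Sep Z (Y \ X) := sep_LSplit hY hX (by grind)
    have := posi_LSplit s t h1 h2 h3 h4
    have := h _ s1
    have := h _ s2
    omega

lemma core_LSplit {s t : E → N} {Z : Finset N} {k : ℕ} (hev : ∀ X, Even (ct s t univ X))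
    (h : ∀ X, Sep Z X → 2 * k ≤ ct s t univ X) {e1 : E} (hv : s e1 ∉ Z)
    (hor : ∀ e, t e = s e1 → s e = s e1) (hu : t e1 ≠ s e1) :
    ∃ e2, e2 ≠ e1 ∧ s e2 = s e1 ∧ ∀ X, s e1 ∉ X → Sep Z X → t e1 ∈ X → t e2 ∈ X →
      ct s t univ X ≠ 2 * k := by
  classical
  by_cases hT : (univ.filter fun X : Finset N =>
      s e1 ∉ X ∧ t e1 ∈ X ∧ Sep Z X ∧ ct s t univ X = 2 * k).Nonempty
  · obtain ⟨M, hM, hmax⟩ := exists_max_image _ card hT
    obtain ⟨-, vM, uM, sM, cM⟩ := mem_filter.1 hM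
    have hsub : ∀ X, s e1 ∉ X → Sep Z X → t e1 ∈ X → ct s t univ X = 2 * k → X ⊆ M :=
      fun X h1 h2 h3 h4 => by
        obtain ⟨a, b⟩ := union_LSplit h h1 vM h3 uM h2 sM h4 cM
        have := hmax (X ∪ M) (mem_filter.2 ⟨mem_univ _, by simp [h1, vM], by simp [h3], a, b⟩)
        rw [eq_of_subset_of_card_le subset_union_right this]
        exact subset_union_left
    by_contra hc
    have hall : ∀ e, s e = s e1 → t e ∈ insert (s e1) M := fun e he => by
      by_contra hn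
      rw [mem_insert, not_or] at hn
      exact hc ⟨e, fun e' => hn.2 (e' ▸ uM), he, fun X h1 h2 h3 h4 h5 =>
        hn.2 (hsub X h1 h2 h3 h5 h4)⟩
    have hs : Sep Z (insert (s e1) M) := by
      obtain ⟨⟨a, ha, ha'⟩, b, hb, hb'⟩ := sM
      exact ⟨⟨a, ha, mem_insert_of_mem ha'⟩, b, hb, fun h =>
        (mem_insert.1 h).elim (fun e => hv (e ▸ hb)) hb'⟩
    have hlt : ct s t univ (insert (s e1) M) < ct s t univ M := by
      refine card_lt_card ⟨fun e he => ?_, fun hh => ?_⟩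
      · simp only [mem_filter, mem_univ, true_and] at he ⊢
        by_cases a : s e = s e1
        · exact absurd (iff_of_true (a ▸ mem_insert_self _ _) (hall e a)) he
        · have b : t e ≠ s e1 := fun b => a (hor e b)
          simpa [a, b] using he
      · have := hh (mem_filter.2 ⟨mem_univ e1, by simp [vM, uM]⟩)
        simp [uM] at this
    have := h _ hs
    omega
  · have h1 : e1 ∈ ({e ∈ univ | ¬ (s e ∈ ({s e1} : Finset N) ↔ t e ∈ ({s e1} : Finset N))} :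
        Finset E) := by simp [hu]
    have h2 := card_pos.2 ⟨_, h1⟩
    obtain ⟨r, hr⟩ := hev {s e1}
    unfold ct at hr
    obtain ⟨e2, he2, hne⟩ := exists_mem_ne (lt_of_lt_of_eq (by omega) hr.symm) e1
    refine ⟨e2, hne, ?_, fun X a b c _ d => hT ⟨X, mem_filter.2 ⟨mem_univ _, a, c, b, d⟩⟩⟩
    simp only [mem_filter, mem_univ, true_and, mem_singleton] at he2
    by_contra hn
    exact he2 (iff_of_false hn fun b => hn (hor e2 b))

lemma sum1_LSplit {f g : E → ℕ} (e1 : E) (h : ∀ e, e ≠ e1 → f e = g e) :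
    ∑ e, f e + g e1 = ∑ e, g e + f e1 := by
  rw [← add_sum_erase _ f (mem_univ e1), ← add_sum_erase _ g (mem_univ e1),
    sum_congr rfl fun e he => h e (ne_of_mem_erase he)]
  ring

lemma sum2_LSplit {f g : E → ℕ} {e1 e2 : E} (hne : e2 ≠ e1)
    (h : ∀ e, e ≠ e1 → e ≠ e2 → f e = g e) :
    ∑ e, f e + g e1 + g e2 = ∑ e, g e + f e1 + f e2 := by
  have h2 : e2 ∈ univ.erase e1 := mem_erase.2 ⟨hne, mem_univ _⟩
  rw [← add_sum_erase _ f (mem_univ e1), ← add_sum_erase _ g (mem_univ e1),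
    ← add_sum_erase _ f h2, ← add_sum_erase _ g h2, sum_congr rfl fun e he =>
      h e (ne_of_mem_erase (mem_of_mem_erase he)) (ne_of_mem_erase he)]
  ring

/-- number of ends outside `Z` -/
def out_LSplit (Z : Finset N) (s t : E → N) : ℕ :=
  ∑ e, ((if s e ∈ Z then 0 else 1) + if t e ∈ Z then 0 else 1)

lemma step0_LSplit {s t : E → N} {Z : Finset N} {z0 : N} (hz : z0 ∈ Z) {k : ℕ}
    (hev : ∀ X, Even (ct s t univ X)) (h : ∀ X, Sep Z X → 2 * k ≤ ct s t univ X) {e1 : E}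
    (hv : s e1 ∉ Z) (hor : ∀ e, t e = s e1 → s e = s e1) :
    ∃ s' t' : E → N, out_LSplit Z s' t' < out_LSplit Z s t ∧ (∀ X, Even (ct s' t' univ X)) ∧
      (∀ X, ct s' t' univ X ≤ ct s t univ X) ∧ ∀ X, Sep Z X → 2 * k ≤ ct s' t' univ X := by
  by_cases hu : t e1 = s e1
  · have hc : ∀ X, ct (update s e1 z0) (update t e1 z0) univ X = ct s t univ X := fun X => by
      unfold ct
      refine congrArg _ (filter_congr fun e _ => ?_)
      by_cases a : e = e1
      · simp [a, hu]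
      · simp [a]
    refine ⟨update s e1 z0, update t e1 z0, ?_, fun X => hc X ▸ hev X, fun X => (hc X).le,
      fun X hX => hc X ▸ h X hX⟩
    unfold out_LSplit
    refine sum_lt_sum (fun e _ => ?_) ⟨e1, mem_univ _, by simp [hz, hv]⟩
    by_cases a : e = e1
    · simp [a, hz]
    · simp [a]
  obtain ⟨e2, hne, hs2, hgood⟩ := core_LSplit hev h hv hor hu
  have hc : ∀ X, ct (update (update s e1 (t e2)) e2 z0) (update t e2 z0) univ X +
      (if ¬ (s e1 ∈ X ↔ t e1 ∈ X) then 1 else 0) + (if ¬ (s e1 ∈ X ↔ t e2 ∈ X) then 1 else 0) =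
      ct s t univ X + if ¬ (t e2 ∈ X ↔ t e1 ∈ X) then 1 else 0 := fun X => by
    unfold ct
    simp only [card_filter]
    have := sum2_LSplit (f := fun e => if ¬ (update (update s e1 (t e2)) e2 z0 e ∈ X ↔
      update t e2 z0 e ∈ X) then 1 else 0) (g := fun e => if ¬ (s e ∈ X ↔ t e ∈ X) then 1 else 0)
      hne fun e a b => by simp [a, b]
    simpa only [update_self, update_of_ne hne.symm, hs2, not_true, if_false, add_zero] using this
  have hd : ∀ X, ct (update (update s e1 (t e2)) e2 z0) (update t e2 z0) univ X = ct s t univ X ∨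
      (ct (update (update s e1 (t e2)) e2 z0) (update t e2 z0) univ X + 2 = ct s t univ X ∧
        (Sep Z X → ct s t univ X ≠ 2 * k)) := fun X => by
    have h1 := hc X
    have h2 := hgood X
    have h3 := hgood Xᶜ
    rw [ct_compl] at h3
    by_cases a : s e1 ∈ X <;> by_cases b : t e1 ∈ X <;> by_cases c : t e2 ∈ X <;>
      simp only [a, b, c, mem_compl, iff_true, iff_false, not_true, not_false_iff, if_true,
        if_false, add_zero, forall_true_left, add_left_inj] at h1 h2 h3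
    all_goals first
      | exact Or.inl h1
      | exact Or.inr ⟨h1, h2⟩
      | exact Or.inr ⟨h1, fun hX => h3 hX.compl⟩
  refine ⟨update (update s e1 (t e2)) e2 z0, update t e2 z0, ?_, fun X => ?_, fun X => ?_,
    fun X hX => ?_⟩
  · have := sum2_LSplit (f := fun e => (if update (update s e1 (t e2)) e2 z0 e ∈ Z then 0 else 1) +
      if update t e2 z0 e ∈ Z then 0 else 1)
      (g := fun e => (if s e ∈ Z then 0 else 1) + if t e ∈ Z then 0 else 1) hne
      fun e a b => by simp [a, b]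
    simp only [update_self, update_of_ne hne.symm, hs2, hz, hv, if_true, if_false] at this
    unfold out_LSplit
    omega
  · obtain ⟨r, hr⟩ := hev X
    rcases hd X with a | ⟨a, -⟩
    · exact ⟨r, by omega⟩
    · exact ⟨r - 1, by omega⟩
  · rcases hd X with a | ⟨a, -⟩ <;> omega
  · obtain ⟨r, hr⟩ := hev X
    have := h X hX
    rcases hd X with a | ⟨a, b⟩
    · omega
    · have := b hX
      omega

lemma step_LSplit {s t : E → N} {Z : Finset N} {z0 : N} (hz : z0 ∈ Z) {k : ℕ}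
    (hev : ∀ X, Even (ct s t univ X)) (h : ∀ X, Sep Z X → 2 * k ≤ ct s t univ X) {e1 : E} {v : N}
    (hv : v ∉ Z) (he : s e1 = v ∨ t e1 = v) :
    ∃ s' t' : E → N, out_LSplit Z s' t' < out_LSplit Z s t ∧ (∀ X, Even (ct s' t' univ X)) ∧
      (∀ X, ct s' t' univ X ≤ ct s t univ X) ∧ ∀ X, Sep Z X → 2 * k ≤ ct s' t' univ X := by
  have hc := ct_swap (s := s) (t := t) (s' := fun e => if t e = v then t e else s e)
    (t' := fun e => if t e = v then s e else t e) (fun e => by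
      by_cases a : t e = v <;> simp [a]) univ
  have h1 : (if t e1 = v then t e1 else s e1) = v := by
    split_ifs with a
    exacts [a, he.resolve_right a]
  have ho : out_LSplit Z (fun e => if t e = v then t e else s e)
      (fun e => if t e = v then s e else t e) = out_LSplit Z s t :=
    sum_congr rfl fun e _ => by by_cases a : t e = v <;> simp [a, add_comm]
  have := step0_LSplit (e1 := e1) hz (fun X => hc X ▸ hev X) (fun X hX => hc X ▸ h X hX)
    (by rwa [h1]) (fun e => by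
      rw [h1]
      by_cases a : t e = v <;> simp [a])
  simpa only [ho, hc] using this

theorem split_off (s t : E → N) (Z : Finset N) (z0 : N) (hz : z0 ∈ Z) (k : ℕ)
    (hev : ∀ X, Even (ct s t univ X)) (h : ∀ X, Sep Z X → 2 * k ≤ ct s t univ X) :
    ∃ s' t' : E → N, (∀ e, s' e ∈ Z ∧ t' e ∈ Z) ∧ (∀ X, ct s' t' univ X ≤ ct s t univ X) ∧
      ∀ X, Sep Z X → 2 * k ≤ ct s' t' univ X := by
  induction hm : out_LSplit Z s t using Nat.strong_induction_on generalizing s t with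
  | _ m ih =>
    by_cases hall : ∀ e, s e ∈ Z ∧ t e ∈ Z
    · exact ⟨s, t, hall, fun _ => le_rfl, h⟩
    obtain ⟨e1, v, hv, he⟩ : ∃ e1 v, v ∉ Z ∧ (s e1 = v ∨ t e1 = v) := by
      obtain ⟨e, he⟩ := not_forall.1 hall
      rcases not_and_or.1 he with a | a
      exacts [⟨e, _, a, Or.inl rfl⟩, ⟨e, _, a, Or.inr rfl⟩]
    obtain ⟨s1, t1, a, b, c, d⟩ := step_LSplit hz hev h hv he
    obtain ⟨s', t', h1, h2, h3⟩ := ih _ (hm ▸ a) s1 t1 b d rfl
    exact ⟨s', t', h1, fun X => (h2 X).trans (c X), h3⟩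

end Pool.Agent.P.MP_e59a69_co
end

-- part Pool.Agent.P.MP_e59a69_co.LPack
section

/-! Disjoint connecting edge sets. -/

open Finset Function

namespace Pool.Agent.P.MP_e59a69_co

lemma many_LPack {N E : Type} [Fintype N] [Fintype E] [DecidableEq N] [DecidableEq E]
    (s t : E → N) (A : Finset E) (k : ℕ) (hk : 3 ≤ k)
    (h : ∀ X : Finset N, X.Nonempty → Xᶜ.Nonempty → 3 * k ≤ ct s t A X) :
    ∃ T : ℕ → Finset E, (∀ i j, i ≠ j → Disjoint (T i) (T j)) ∧
      ∀ i < k, ∀ X : Finset N, X.Nonempty → Xᶜ.Nonempty → 1 ≤ ct s t (T i) X := by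
  rcases isEmpty_or_nonempty N with hN | ⟨⟨r⟩⟩
  · exact ⟨fun _ => ∅, fun _ _ _ => disjoint_empty_left _, fun _ _ X ⟨v, _⟩ => hN.elim v⟩
  obtain ⟨s', t', hsw, h3⟩ := third s t A fun X hX hX' => le_trans (by omega) (h X hX hX')
  obtain ⟨T, -, hd, h1⟩ := edm_many s' t' r k A fun X hX hr => by
    have h4 := h X hX ⟨r, mem_compl.2 hr⟩
    have h5 := h3 X
    omega
  refine ⟨T, hd, fun i hi X hX hX' => ?_⟩
  rw [← ct_swap hsw, ct_eq]
  by_cases hr : r ∈ X
  · have h4 := h1 i hi Xᶜ hX' fun h => mem_compl.1 h hr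
    omega
  · have h4 := h1 i hi X hX hr
    omega

theorem pack {N E : Type} [Fintype N] [Fintype E] [DecidableEq N] [DecidableEq E]
    (s t : E → N) (Z : Finset N) (hZ : ∀ e, s e ∈ Z ∧ t e ∈ Z) (k : ℕ) (hk : 3 ≤ k)
    (h : ∀ X, Sep Z X → 3 * k ≤ ct s t univ X) :
    ∃ T : ℕ → Finset E, (∀ i j, i ≠ j → Disjoint (T i) (T j)) ∧ ∀ i < k, Conn s t Z (T i) := by
  let s0 : E → {v // v ∈ Z} := fun e => ⟨s e, (hZ e).1⟩
  let t0 : E → {v // v ∈ Z} := fun e => ⟨t e, (hZ e).2⟩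
  have hct : ∀ (A : Finset E) (X : Finset N),
      ct s0 t0 A (X.subtype (· ∈ Z)) = ct s t A X := fun A X => by
    unfold ct
    simp only [mem_subtype, s0, t0]
  obtain ⟨T, hd, h1⟩ := many_LPack s0 t0 univ k hk fun X0 hX hX' => by
    have e1 : (X0.map (Embedding.subtype _)).subtype (· ∈ Z) = X0 := by
      ext v
      simp only [mem_subtype, mem_map, Embedding.coe_subtype]
      constructor
      · rintro ⟨w, hw, e⟩
        rwa [← Subtype.ext e]
      · exact fun hv => ⟨v, hv, rfl⟩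
    rw [← e1, hct]
    obtain ⟨a, ha⟩ := hX
    obtain ⟨b, hb⟩ := hX'
    refine h _ ⟨⟨a.1, a.2, mem_map.2 ⟨a, ha, rfl⟩⟩, b.1, b.2, fun hm => ?_⟩
    obtain ⟨w, hw, e⟩ := mem_map.1 hm
    exact mem_compl.1 hb (by rwa [← Subtype.ext e])
  refine ⟨T, hd, fun i hi X ⟨⟨a, ha, ha'⟩, b, hb, hb'⟩ => ?_⟩
  rw [← hct]
  exact h1 i hi _ ⟨⟨a, ha⟩, mem_subtype.2 ha'⟩
    ⟨⟨b, hb⟩, mem_compl.2 fun hm => hb' (mem_subtype.1 hm)⟩

end Pool.Agent.P.MP_e59a69_co
end

-- part Pool.Agent.P.MP_e59a69_co.QSplit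
section

/-! Splitting off with a record of the old edges behind every new edge. -/

open Finset Function

set_option linter.unusedSectionVars false

namespace Pool.Agent.P.MP_e59a69_co

variable {N E : Type} [Fintype N] [Fintype E] [DecidableEq N] [DecidableEq E]

/-- every new edge is covered by the old edges it owns; edges inside `Z` are kept -/
def Trk (Z : Finset N) (s t s' t' : E → N) (own : E → E) : Prop :=
  (∀ e X, Cr s' t' X e → ∃ f, own f = e ∧ Cr s t X f) ∧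
    ∀ e, Ins s t Z e → Ins s' t' Z e ∧ ∀ f, own f = e ↔ f = e

lemma Trk.comp {Z : Finset N} {s t s1 t1 s2 t2 : E → N} {o1 o2 : E → E}
    (h1 : Trk Z s t s1 t1 o1) (h2 : Trk Z s1 t1 s2 t2 o2) : Trk Z s t s2 t2 (o2 ∘ o1) := by
  refine ⟨fun e X h => ?_, fun e he => ?_⟩
  · obtain ⟨f, a, b⟩ := h2.1 e X h
    obtain ⟨g, c, d⟩ := h1.1 f X b
    exact ⟨g, by simp [c, a], d⟩
  · obtain ⟨a, b⟩ := h1.2 e he
    obtain ⟨c, d⟩ := h2.2 e a
    exact ⟨c, fun f => (d _).trans (b f)⟩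

lemma qstep0 {s t : E → N} {Z : Finset N} {z0 : N} (hz : z0 ∈ Z) {k : ℕ}
    (hev : ∀ X, Even (ct s t univ X)) (h : ∀ X, Sep Z X → 2 * k ≤ ct s t univ X) {e1 : E}
    (hv : s e1 ∉ Z) (hor : ∀ e, t e = s e1 → s e = s e1) :
    ∃ (s' t' : E → N) (own : E → E), out_LSplit Z s' t' < out_LSplit Z s t ∧
      (∀ X, Even (ct s' t' univ X)) ∧ Trk Z s t s' t' own ∧
      ∀ X, Sep Z X → 2 * k ≤ ct s' t' univ X := by
  by_cases hu : t e1 = s e1
  · have hc : ∀ X, ct (update s e1 z0) (update t e1 z0) univ X = ct s t univ X := fun X => by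
      unfold ct
      refine congrArg _ (filter_congr fun e _ => ?_)
      by_cases a : e = e1
      · simp [a, hu]
      · simp [a]
    refine ⟨update s e1 z0, update t e1 z0, id, ?_, fun X => hc X ▸ hev X,
      ⟨fun e X he => ⟨e, rfl, ?_⟩, fun e he => ⟨?_, fun f => Iff.rfl⟩⟩, fun X hX => hc X ▸ h X hX⟩
    · unfold out_LSplit
      refine sum_lt_sum (fun e _ => ?_) ⟨e1, mem_univ _, by simp [hz, hv]⟩
      by_cases a : e = e1
      · simp [a, hz]
      · simp [a]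
    · by_cases a : e = e1
      · simp [Cr, a] at he
      · simpa [Cr, a] using he
    · have a : e ≠ e1 := fun a => hv (a ▸ he.1)
      simpa [Ins, a] using he
  obtain ⟨e2, hne, hs2, hgood⟩ := core_LSplit hev h hv hor hu
  have hc : ∀ X, ct (update (update s e1 (t e2)) e2 z0) (update t e2 z0) univ X +
      (if ¬ (s e1 ∈ X ↔ t e1 ∈ X) then 1 else 0) + (if ¬ (s e1 ∈ X ↔ t e2 ∈ X) then 1 else 0) =
      ct s t univ X + if ¬ (t e2 ∈ X ↔ t e1 ∈ X) then 1 else 0 := fun X => by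
    unfold ct
    simp only [card_filter]
    have := sum2_LSplit (f := fun e => if ¬ (update (update s e1 (t e2)) e2 z0 e ∈ X ↔
      update t e2 z0 e ∈ X) then 1 else 0) (g := fun e => if ¬ (s e ∈ X ↔ t e ∈ X) then 1 else 0)
      hne fun e a b => by simp [a, b]
    simpa only [update_self, update_of_ne hne.symm, hs2, not_true, if_false, add_zero] using this
  have hd : ∀ X, ct (update (update s e1 (t e2)) e2 z0) (update t e2 z0) univ X = ct s t univ X ∨
      (ct (update (update s e1 (t e2)) e2 z0) (update t e2 z0) univ X + 2 = ct s t univ X ∧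
        (Sep Z X → ct s t univ X ≠ 2 * k)) := fun X => by
    have h1 := hc X
    have h2 := hgood X
    have h3 := hgood Xᶜ
    rw [ct_compl] at h3
    by_cases a : s e1 ∈ X <;> by_cases b : t e1 ∈ X <;> by_cases c : t e2 ∈ X <;>
      simp only [a, b, c, mem_compl, iff_true, iff_false, not_true, not_false_iff, if_true,
        if_false, add_zero, forall_true_left, add_left_inj] at h1 h2 h3
    all_goals first
      | exact Or.inl h1
      | exact Or.inr ⟨h1, h2⟩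
      | exact Or.inr ⟨h1, fun hX => h3 hX.compl⟩
  refine ⟨update (update s e1 (t e2)) e2 z0, update t e2 z0, update id e2 e1, ?_, fun X => ?_,
    ⟨fun e X he => ?_, fun e he => ?_⟩, fun X hX => ?_⟩
  · have := sum2_LSplit (f := fun e => (if update (update s e1 (t e2)) e2 z0 e ∈ Z then 0 else 1) +
      if update t e2 z0 e ∈ Z then 0 else 1)
      (g := fun e => (if s e ∈ Z then 0 else 1) + if t e ∈ Z then 0 else 1) hne
      fun e a b => by simp [a, b]
    simp only [update_self, update_of_ne hne.symm, hs2, hz, hv, if_true, if_false] at this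
    unfold out_LSplit
    omega
  · obtain ⟨r, hr⟩ := hev X
    rcases hd X with a | ⟨a, -⟩
    · exact ⟨r, by omega⟩
    · exact ⟨r - 1, by omega⟩
  · by_cases b : e = e2
    · simp [Cr, b] at he
    by_cases a : e = e1
    · simp only [Cr, a, update_self, update_of_ne hne.symm] at he
      by_cases c : Cr s t X e1
      · exact ⟨e1, by simp [a, update_of_ne hne.symm], c⟩
      · refine ⟨e2, by simp [a], ?_⟩
        simp only [Cr, hs2] at c ⊢
        tauto
    · exact ⟨e, by simp [b], by simpa [Cr, a, b] using he⟩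
  · have a : e ≠ e1 := fun a => hv (a ▸ he.1)
    have b : e ≠ e2 := fun b => hv (hs2 ▸ b ▸ he.1)
    refine ⟨by simpa [Ins, a, b] using he, fun f => ?_⟩
    by_cases c : f = e2
    · simp [c, a.symm, b.symm]
    · simp [c]
  · obtain ⟨r, hr⟩ := hev X
    have := h X hX
    rcases hd X with a | ⟨a, b⟩
    · omega
    · have := b hX
      omega

lemma qstep {s t : E → N} {Z : Finset N} {z0 : N} (hz : z0 ∈ Z) {k : ℕ}
    (hev : ∀ X, Even (ct s t univ X)) (h : ∀ X, Sep Z X → 2 * k ≤ ct s t univ X) {e1 : E} {v : N}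
    (hv : v ∉ Z) (he : s e1 = v ∨ t e1 = v) :
    ∃ (s' t' : E → N) (own : E → E), out_LSplit Z s' t' < out_LSplit Z s t ∧
      (∀ X, Even (ct s' t' univ X)) ∧ Trk Z s t s' t' own ∧
      ∀ X, Sep Z X → 2 * k ≤ ct s' t' univ X := by
  have hc := ct_swap (s := s) (t := t) (s' := fun e => if t e = v then t e else s e)
    (t' := fun e => if t e = v then s e else t e) (fun e => by
      by_cases a : t e = v <;> simp [a]) univ
  have h1 : (if t e1 = v then t e1 else s e1) = v := by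
    split_ifs with a
    exacts [a, he.resolve_right a]
  have ho : out_LSplit Z (fun e => if t e = v then t e else s e)
      (fun e => if t e = v then s e else t e) = out_LSplit Z s t :=
    sum_congr rfl fun e _ => by by_cases a : t e = v <;> simp [a, add_comm]
  have h0 : Trk Z s t (fun e => if t e = v then t e else s e)
      (fun e => if t e = v then s e else t e) id := by
    refine ⟨fun e X he => ⟨e, rfl, ?_⟩, fun e he => ⟨?_, fun f => Iff.rfl⟩⟩
    · simp only [Cr] at he ⊢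
      split_ifs at he <;> tauto
    · simp only [Ins] at he ⊢
      split_ifs <;> tauto
  obtain ⟨s', t', own, a, b, c, d⟩ := qstep0 (e1 := e1) hz (fun X => hc X ▸ hev X)
    (fun X hX => hc X ▸ h X hX) (by rwa [h1]) (fun e => by
      rw [h1]
      by_cases a : t e = v <;> simp [a])
  exact ⟨s', t', _, ho ▸ a, b, h0.comp c, d⟩

theorem split_track (s t : E → N) (Z : Finset N) (z0 : N) (hz : z0 ∈ Z) (k : ℕ)
    (hev : ∀ X, Even (ct s t univ X)) (h : ∀ X, Sep Z X → 2 * k ≤ ct s t univ X) :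
    ∃ (s' t' : E → N) (own : E → E), (∀ e, s' e ∈ Z ∧ t' e ∈ Z) ∧ Trk Z s t s' t' own ∧
      ∀ X, Sep Z X → 2 * k ≤ ct s' t' univ X := by
  induction hm : out_LSplit Z s t using Nat.strong_induction_on generalizing s t with
  | _ m ih =>
    by_cases hall : ∀ e, s e ∈ Z ∧ t e ∈ Z
    · exact ⟨s, t, id, hall, ⟨fun e X he => ⟨e, rfl, he⟩, fun e he => ⟨he, fun f => Iff.rfl⟩⟩, h⟩
    obtain ⟨e1, v, hv, he⟩ : ∃ e1 v, v ∉ Z ∧ (s e1 = v ∨ t e1 = v) := by
      obtain ⟨e, he⟩ := not_forall.1 hall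
      rcases not_and_or.1 he with a | a
      exacts [⟨e, _, a, Or.inl rfl⟩, ⟨e, _, a, Or.inr rfl⟩]
    obtain ⟨s1, t1, o1, a, b, c, d⟩ := qstep hz hev h hv he
    obtain ⟨s', t', o2, h1, h2, h3⟩ := ih _ (hm ▸ a) s1 t1 b d rfl
    exact ⟨s', t', _, h1, c.comp h2, h3⟩

/-- double the edges of `A` and split off everything outside `Z` -/
theorem double_split (s t : E → N) (A : Finset E) (Z : Finset N) (z0 : N) (hz : z0 ∈ Z) (k : ℕ)
    (h : ∀ X, Sep Z X → k ≤ ct s t A X) :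
    ∃ (s' t' : E × Bool → N) (own : E × Bool → E × Bool), (∀ e, s' e ∈ Z ∧ t' e ∈ Z) ∧
      (∀ X, Sep Z X → 2 * k ≤ ct s' t' univ X) ∧
      (∀ e X, Cr s' t' X e → ∃ f, own f = e ∧ f.1 ∈ A ∧ Cr s t X f.1) ∧
      ∀ e, Ins s t Z e.1 → ∀ f, own f = e ↔ f = e := by
  have hc : ∀ X, ct (fun e : E × Bool => if e.1 ∈ A then s e.1 else z0)
      (fun e : E × Bool => if e.1 ∈ A then t e.1 else z0) univ X = 2 * ct s t A X := fun X => by
    unfold ct
    simp only [card_filter]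
    rw [Fintype.sum_prod_type, mul_sum, ← sum_subset (subset_univ A)]
    · exact sum_congr rfl fun e he => by simp [he]
    · intro e _ he
      simp [he]
  obtain ⟨s', t', own, h1, h2, h3⟩ := split_track _ _ Z z0 hz k
    (fun X => hc X ▸ even_two_mul _) (fun X hX => by rw [hc]; have := h X hX; omega)
  refine ⟨s', t', own, h1, h3, fun e X he => ?_, fun e he => (h2.2 e ?_).2⟩
  · obtain ⟨f, a, b⟩ := h2.1 e X he
    by_cases c : f.1 ∈ A
    · exact ⟨f, a, c, by simpa [Cr, c] using b⟩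
    · simp [Cr, c] at b
  · simp only [Ins] at he ⊢
    split_ifs <;> tauto

/-- three connecting edge sets without a common edge -/
theorem three_sets (s t : E → N) (A : Finset E) (Z : Finset N)
    (h : ∀ X, Sep Z X → 5 ≤ ct s t A X) :
    ∃ H : ℕ → Finset E, (∀ i, H i ⊆ A) ∧ (∀ i < 3, Conn s t Z (H i)) ∧
      ∀ e, ¬ (e ∈ H 0 ∧ e ∈ H 1 ∧ e ∈ H 2) := by
  rcases Z.eq_empty_or_nonempty with rfl | ⟨z0, hz⟩
  · exact ⟨fun _ => ∅, fun _ => empty_subset _, fun i _ X hX => by simp [Sep] at hX, by simp⟩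
  obtain ⟨s', t', own, h1, h2, h3, -⟩ := double_split s t A Z z0 hz 5 h
  obtain ⟨T, hd, hT⟩ := pack s' t' Z h1 3 le_rfl fun X hX => by have := h2 X hX; omega
  refine ⟨fun i => {e ∈ A | ∃ b, own (e, b) ∈ T i}, fun i => filter_subset _ _,
    fun i hi X hX => ?_, fun e ⟨a, b, c⟩ => ?_⟩
  · obtain ⟨e, he⟩ := card_pos.1 (hT i hi X hX)
    obtain ⟨f, a, b, c⟩ := h3 e X (mem_filter.1 he).2
    exact card_pos.2 ⟨f.1, mem_filter.2 ⟨mem_filter.2 ⟨b, f.2, a ▸ (mem_filter.1 he).1⟩, c⟩⟩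
  · obtain ⟨b0, a0⟩ := (mem_filter.1 a).2
    obtain ⟨b1, a1⟩ := (mem_filter.1 b).2
    obtain ⟨b2, a2⟩ := (mem_filter.1 c).2
    have d01 := disjoint_left.1 (hd 0 1 (by norm_num)) a0
    have d02 := disjoint_left.1 (hd 0 2 (by norm_num)) a0
    have d12 := disjoint_left.1 (hd 1 2 (by norm_num)) a1
    cases b0 <;> cases b1 <;> cases b2 <;> contradiction

end Pool.Agent.P.MP_e59a69_co
end

-- part Pool.Agent.P.MP_e59a69_co.QLevel
section

/-! All but one edge of every small group can be deleted from a highly connected graph. -/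

open Finset Module

set_option linter.unusedSectionVars false

namespace Pool.Agent.P.MP_e59a69_co

variable {N E : Type} [Fintype N] [Fintype E] [DecidableEq N] [DecidableEq E]

lemma qflat {W : Type} [AddCommGroup W] [Module ℝ W] (s t : E → N) (Z : Finset N)
    (hZ : ∀ e, s e ∈ Z ∧ t e ∈ Z) (ev : N → W) (lam : ℕ)
    (hlam : ∀ X, Sep Z X → 2 * lam ≤ ct s t univ X) (S : Finset E)
    [DecidablePred fun x => ev (s x) - ev (t x) ∉
      Submodule.span ℝ ((fun e => ev (s e) - ev (t e)) '' (S : Set E))] :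
    lam * (finrank ℝ (Submodule.span ℝ (Set.range fun e => ev (s e) - ev (t e))) - #S) ≤
      #{x | ev (s x) - ev (t x) ∉
        Submodule.span ℝ ((fun e => ev (s e) - ev (t e)) '' (S : Set E))} := by
  classical
  set a : E → W := fun e => ev (s e) - ev (t e) with ha
  set Us : Submodule ℝ W := Submodule.span ℝ (a '' (S : Set E)) with hUs
  let cls : N → W ⧸ Us := fun v => Us.mkQ (ev v)
  have hbad : ∀ e, ev (s e) - ev (t e) ∉ Us ↔ cls (s e) ≠ cls (t e) := by
    intro e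
    simp only [cls, Submodule.mkQ_apply, ne_eq, Submodule.Quotient.eq]
  set Bad : Finset E := {x | cls (s x) ≠ cls (t x)} with hBad
  have hmem : ∀ e, e ∈ Bad ↔ cls (s e) ≠ cls (t e) := fun e => by simp [hBad]
  let T : Finset (W ⧸ Us) := Bad.image (fun e => cls (s e)) ∪ Bad.image (fun e => cls (t e))
  obtain ⟨sec, hsec⟩ : ∃ sec : W ⧸ Us → W, ∀ t, Us.mkQ (sec t) = t :=
    ⟨fun t => (Us.mkQ_surjective t).choose, fun t => (Us.mkQ_surjective t).choose_spec⟩
  have hdiff : ∀ v, ev v - sec (cls v) ∈ Us := by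
    intro v
    rw [← Submodule.Quotient.eq]
    exact (hsec (cls v)).symm
  let Y : Finset W := S.image a ∪ T.image sec
  have hUZ : Us ≤ Submodule.span ℝ (Y : Set W) := by
    apply Submodule.span_mono
    rintro _ ⟨v, hv, rfl⟩
    exact mem_coe.2 (mem_union_left _ (mem_image_of_mem _ (mem_coe.1 hv)))
  have hsecZ : ∀ c ∈ T, sec c ∈ Submodule.span ℝ (Y : Set W) := fun c hc =>
    Submodule.subset_span (mem_coe.2 (mem_union_right _ (mem_image_of_mem _ hc)))
  have hA : Submodule.span ℝ (Set.range a) ≤ Submodule.span ℝ (Y : Set W) := by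
    rw [Submodule.span_le]
    rintro _ ⟨e, rfl⟩
    by_cases hv : e ∈ Bad
    · have e1 : a e = (ev (s e) - sec (cls (s e))) - (ev (t e) - sec (cls (t e))) +
          (sec (cls (s e)) - sec (cls (t e))) := by
        simp only [ha]
        abel
      rw [SetLike.mem_coe, e1]
      exact add_mem (sub_mem (hUZ (hdiff _)) (hUZ (hdiff _)))
        (sub_mem (hsecZ _ (mem_union_left _ (mem_image_of_mem (fun e => cls (s e)) hv)))
          (hsecZ _ (mem_union_right _ (mem_image_of_mem (fun e => cls (t e)) hv))))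
    · apply hUZ
      by_contra h
      exact hv ((hmem e).2 ((hbad e).1 h))
  have hdim : finrank ℝ (Submodule.span ℝ (Set.range a)) ≤ #S + #T := by
    refine (Submodule.finrank_mono hA).trans ?_
    refine (finrank_span_finset_le_card Y).trans ?_
    exact (card_union_le _ _).trans (add_le_add card_image_le card_image_le)
  have hfib : ∀ c ∈ T, 2 * lam ≤ #{e ∈ Bad | cls (s e) = c} + #{e ∈ Bad | cls (t e) = c} := by
    intro c hc
    have h1 : Sep Z {v | cls v = c} := by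
      rcases mem_union.1 hc with h | h <;> obtain ⟨e, he, rfl⟩ := mem_image.1 h
      · exact ⟨⟨_, (hZ e).1, by simp⟩, _, (hZ e).2, by simpa using ((hmem e).1 he).symm⟩
      · exact ⟨⟨_, (hZ e).2, by simp⟩, _, (hZ e).1, by simpa using (hmem e).1 he⟩
    refine (hlam _ h1).trans (le_trans (card_le_card fun e he => ?_) (card_union_le _ _))
    have := (mem_filter.1 he).2
    simp only [mem_filter, mem_univ, true_and, mem_union, hmem] at this ⊢
    by_cases a1 : cls (s e) = c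
    · exact Or.inl ⟨fun h => this (by simp [a1, ← h]), a1⟩
    · have a2 : cls (t e) = c := by tauto
      exact Or.inr ⟨fun h => a1 (h.trans a2), a2⟩
  have hs1 : #Bad = ∑ c ∈ T, #{e ∈ Bad | cls (s e) = c} :=
    card_eq_sum_card_fiberwise fun e he =>
      mem_coe.2 (mem_union_left _ (mem_image_of_mem (fun e => cls (s e)) (mem_coe.1 he)))
  have hs2 : #Bad = ∑ c ∈ T, #{e ∈ Bad | cls (t e) = c} :=
    card_eq_sum_card_fiberwise fun e he =>
      mem_coe.2 (mem_union_right _ (mem_image_of_mem (fun e => cls (t e)) (mem_coe.1 he)))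
  have hs3 := sum_le_sum hfib
  rw [sum_add_distrib, ← hs1, ← hs2, sum_const, smul_eq_mul] at hs3
  refine le_trans ?_ (card_le_card (s := Bad) fun v hv => by
    simp only [mem_filter, mem_univ, true_and]
    exact (hbad v).2 ((hmem v).1 hv))
  have : lam * (finrank ℝ (Submodule.span ℝ (Set.range a)) - #S) ≤ lam * #T :=
    Nat.mul_le_mul_left _ (by omega)
  nlinarith

/-- a conflict-free edge set that crosses every cut `K` times -/
lemma qfree (s t : E → N) (Z : Finset N) (hZ : ∀ e, s e ∈ Z ∧ t e ∈ Z) (R : E → E → Prop)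
    [DecidableRel R] (hR : ∀ x y, R x y → R y x) (D K : ℕ) (hK : 0 < K)
    (hD : ∀ x, #{y | R x y} ≤ D)
    (h : ∀ X, Sep Z X → 2 * (2 * (K * (D + 1)) + 2) ≤ ct s t univ X) :
    ∃ U : Finset E, (∀ x ∈ U, ∀ y ∈ U, x ≠ y → ¬ R x y) ∧ ∀ X, Sep Z X → K ≤ ct s t U X := by
  classical
  let ev : N → N → ℝ := fun v => Pi.single v 1
  obtain ⟨U, h1, h2, h3, h4⟩ := exists_bases (fun e => ev (s e) - ev (t e)) R hR D K hK hD
    fun S => qflat s t Z hZ ev _ h S
  refine ⟨U, h1, fun X hX => ?_⟩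
  let φ : (N → ℝ) →ₗ[ℝ] ℝ := ∑ v ∈ X, LinearMap.proj v
  have hφ : ∀ v, φ (ev v) = if v ∈ X then 1 else 0 := fun v => by
    simp [φ, ev, Pi.single_apply]
  let F : Finset E := {e ∈ U | s e ∈ X ↔ t e ∈ X}
  have hF : F ⊆ U := filter_subset _ _
  have hk : Submodule.span ℝ ((fun e => ev (s e) - ev (t e)) '' (F : Set E)) ≤ LinearMap.ker φ := by
    rw [Submodule.span_le]
    rintro _ ⟨e, he, rfl⟩
    have := (mem_filter.1 (mem_coe.1 he)).2
    simp only [SetLike.mem_coe, LinearMap.mem_ker, map_sub, hφ, this, sub_self]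
  obtain ⟨e, he⟩ := card_pos.1 (show 0 < ct s t univ X by have := h X hX; omega)
  have he' := (mem_filter.1 he).2
  have hlt : Submodule.span ℝ ((fun e => ev (s e) - ev (t e)) '' (F : Set E)) <
      Submodule.span ℝ ((fun e => ev (s e) - ev (t e)) '' (U : Set E)) := by
    refine lt_of_le_of_ne (Submodule.span_mono (Set.image_mono (coe_subset.2 hF))) fun q => ?_
    have : ev (s e) - ev (t e) ∈ LinearMap.ker φ := by
      apply hk
      rw [q, h2]
      exact Submodule.subset_span ⟨e, rfl⟩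
    rw [LinearMap.mem_ker, map_sub, hφ, hφ] at this
    by_cases a : s e ∈ X <;> by_cases b : t e ∈ X <;> simp_all
  have h5 := Submodule.finrank_lt_finrank_of_lt hlt
  have h6 := h4 F hF
  have h7 : #F + ct s t U X = #U := card_filter_add_card_filter_not _
  have h8 := Nat.mul_le_mul_left K (Nat.succ_le_of_lt h5)
  rw [Nat.mul_succ] at h8
  omega

theorem level (s t : E → N) (Z : Finset N) {ι : Type} (G : ι → Finset E) (D : ℕ)
    (hG : ∀ i j, i ≠ j → Disjoint (G i) (G j)) (hD : ∀ i, #(G i) ≤ D)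
    (hZ : ∀ i, ∀ e ∈ G i, Ins s t Z e) (h : ∀ X, Sep Z X → 72 * D + 38 ≤ ct s t univ X) :
    ∃ A : Finset E, (∀ i, ∀ e ∈ A, ∀ f ∈ A, e ∈ G i → f ∈ G i → e = f) ∧
      ∀ X, Sep Z X → 9 ≤ ct s t A X := by
  classical
  rcases Z.eq_empty_or_nonempty with rfl | ⟨z0, hz⟩
  · exact ⟨∅, by simp, fun X hX => by simp [Sep] at hX⟩
  obtain ⟨s', t', own, h1, h2, h3, h4⟩ := double_split s t univ Z z0 hz _ h
  obtain ⟨U, u1, u2⟩ := qfree s' t' Z h1 (fun x y => ∃ i, x.1 ∈ G i ∧ y.1 ∈ G i)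
    (fun x y ⟨i, a, b⟩ => ⟨i, b, a⟩) (2 * D) 18 (by norm_num)
    (fun x => by
      by_cases hx : ∃ i, x.1 ∈ G i
      · obtain ⟨i, hi⟩ := hx
        refine le_trans (card_le_card (t := G i ×ˢ univ) fun y hy => ?_) ?_
        · obtain ⟨j, a, b⟩ := (mem_filter.1 hy).2
          by_cases c : i = j
          · exact mem_product.2 ⟨c ▸ b, mem_univ _⟩
          · exact absurd a (disjoint_left.1 (hG i j c) hi)
        · rw [card_product, card_univ, Fintype.card_bool]
          have := hD i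
          omega
      · rw [filter_eq_empty_iff.2 fun y _ ⟨i, a, _⟩ => hx ⟨i, a⟩]
        simp)
    (fun X hX => by have := h2 X hX; omega)
  refine ⟨({e | ∃ b, own (e, b) ∈ U} : Finset E), fun i e he f hf a b => ?_, fun X hX => ?_⟩
  · obtain ⟨b1, a1⟩ := (mem_filter.1 he).2
    obtain ⟨b2, a2⟩ := (mem_filter.1 hf).2
    rw [(h4 (e, b1) (hZ i e a) _).2 rfl] at a1
    rw [(h4 (f, b2) (hZ i f b) _).2 rfl] at a2
    by_contra c
    exact u1 _ a1 _ a2 (fun q => c (congrArg Prod.fst q)) ⟨i, a, b⟩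
  · have h5 := u2 X hX
    have h6 : ct s' t' U X ≤
        #(({e ∈ ({e | ∃ b, own (e, b) ∈ U} : Finset E) | ¬ (s e ∈ X ↔ t e ∈ X)} ×ˢ
          (univ : Finset Bool)).image own) := card_le_card fun e he => by
      obtain ⟨f, a, -, c⟩ := h3 e X (mem_filter.1 he).2
      exact mem_image.2 ⟨f, mem_product.2 ⟨mem_filter.2 ⟨mem_filter.2
        ⟨mem_univ _, f.2, a ▸ (mem_filter.1 he).1⟩, c⟩, mem_univ _⟩, a⟩
    have h7 := h6.trans card_image_le
    rw [card_product, card_univ, Fintype.card_bool] at h7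
    unfold ct at *
    omega

end Pool.Agent.P.MP_e59a69_co
end

-- part Pool.Agent.P.MP_e59a69_co.QOne
section

/-! One level of trees spoils at most one of ten candidates of a thread. -/

open Finset

set_option linter.unusedSectionVars false

namespace Pool.Agent.P.MP_e59a69_co

variable {V E : Type} [Fintype V] [Fintype E] [DecidableEq V] [DecidableEq E]
variable {src tgt : E → V} {k : ℕ}

lemma cr_compl (X : Finset V) (e : E) : Cr src tgt Xᶜ e ↔ Cr src tgt X e := by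
  simp only [Cr, mem_compl]
  tauto

lemma QH.nohub (H : QH src tgt k) {κ : Type} [Fintype κ] {h : ℕ} {I J : κ → Finset V}
    {hub : κ → E → Finset V} (F : Fam src tgt k h I J hub) {X : Finset V}
    (hX : ∀ c e, ∀ v ∈ hub c e, v ∉ X) (h1 : HasCycleIn src tgt X) (h2 : HasCycleIn src tgt Xᶜ) :
    k ≤ #{e | Cr src tgt X e ∧ ∀ c, ¬ Ins src tgt (I c) e} := by
  have hn : ∀ c e, Ins src tgt X e → ¬ Cr src tgt (I c) e := fun c e a b => by
    rcases F.ends b with ⟨-, y⟩ | ⟨y, -⟩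
    exacts [hX c e _ y a.2, hX c e _ y a.1]
  obtain ⟨v, hv⟩ := cyc_pick h1
  by_cases a : ∃ c, v ∈ I c
  · obtain ⟨c, a⟩ := a
    have h3 := H.gir _ (hv (I c) a (hn c))
    have h4 := card_le_card ((inter_subset_right (s₁ := X)).trans (F.IJ c))
    have := F.sm c
    omega
  have h3 := hv {v | ∀ c, v ∉ I c} (mem_filter.2 ⟨mem_univ _, fun c q => a ⟨c, q⟩⟩)
    fun e he => by
      simp only [Cr, mem_filter, mem_univ, true_and, not_not]
      exact forall_congr' fun c => not_congr (not_not.1 (hn c e he))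
  refine (H.cyc _ h3 (h2.mono (compl_subset_compl.2 inter_subset_left))).trans
    (card_le_card fun e he => ?_)
  have h4 := (mem_filter.1 he).2
  simp only [mem_inter, mem_filter, mem_univ, true_and] at h4 ⊢
  refine ⟨fun q => ?_, fun c q => h4 (iff_of_false (fun r => r.2 c q.1) fun r => r.2 c q.2)⟩
  by_cases b : src e ∈ X
  · exact h4 (and_congr q (forall_congr' fun c =>
      not_congr (not_not.1 (hn c e ⟨b, q.1 b⟩))))
  · exact h4 (iff_of_false (fun r => b r.1) fun r => b (q.2 r.1))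

theorem QH.one_level (H : QH src tgt k) {ι : Type} [Fintype ι] [DecidableEq ι] {n : ℕ}
    {I J : ι × Fin 10 → Finset V} {hub : ι × Fin 10 → E → Finset V}
    (F : Fam src tgt k (hf n) I J hub) (hk : hf n ≤ k)
    (hI : ∀ c, ct src tgt univ (I c) ≤ n + 2) :
    ∃ bad : ι → Fin 10, ∀ sel : ι → Fin 10, (∀ i, sel i ≠ bad i) → ∀ X : Finset V,
      HasCycleIn src tgt X → HasCycleIn src tgt Xᶜ →
      (∀ c e, Cr src tgt X e → Ins src tgt (J c) e → src e ∈ I c ∨ tgt e ∈ I c) →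
      9 ≤ #{e | Cr src tgt X e ∧ ∀ i, ¬ Ins src tgt (I (i, sel i)) e} := by
  obtain ⟨nd, Z, D⟩ := H.exists_nd F
  have hin : ∀ c e, Cr src tgt (I c) e → Ins src tgt (J c) e := fun c e a => F.ins (by tauto)
  obtain ⟨A, hA1, hA2⟩ := level (fun e => nd (src e)) (fun e => nd (tgt e)) Z
    (fun i => ({e | ∃ a, Cr src tgt (I (i, a)) e} : Finset E)) (10 * (n + 2))
    (fun i j hij => disjoint_left.2 fun e a b => by
      obtain ⟨x, a⟩ := (mem_filter.1 a).2
      obtain ⟨y, b⟩ := (mem_filter.1 b).2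
      exact hij (congrArg Prod.fst (F.uniq (hin _ e a).1 (hin _ e b).1)))
    (fun i => by
      refine le_trans (card_le_card (t := univ.biUnion fun a : Fin 10 =>
        ({e | Cr src tgt (I (i, a)) e} : Finset E)) fun e he => ?_) (card_biUnion_le.trans ?_)
      · obtain ⟨x, a⟩ := (mem_filter.1 he).2
        exact mem_biUnion.2 ⟨x, mem_univ _, mem_filter.2 ⟨mem_univ _, a⟩⟩
      · exact (sum_le_card_nsmul _ _ (n + 2) fun a _ => hI (i, a)).trans (by simp))
    (fun i e he => by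
      obtain ⟨x, a⟩ := (mem_filter.1 he).2
      exact ⟨(D.mem F (hin _ e a).1).1, (D.mem F (hin _ e a).2).1⟩)
    (fun X ⟨⟨z, z1, z2⟩, w, w1, w2⟩ => by
      rw [ct_nd, show 72 * (10 * (n + 2)) + 38 = hf n by unfold hf; ring]
      have key : ∀ P : Finset V, ¬ HasCycleIn src tgt P →
          (∃ c e, #(hub c e) = hf n ∧ hub c e ⊆ P) → hf n ≤ ct src tgt univ P :=
        fun P a ⟨c, e, b, d⟩ => by
          have h1 := card_le_card d
          have h2 : 0 < hf n := by unfold hf; omega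
          have := H.acyc (card_pos.1 (by omega)) a
          omega
      by_cases a : HasCycleIn src tgt ({v | nd v ∈ X} : Finset V)
      · by_cases b : HasCycleIn src tgt ({v | nd v ∈ X} : Finset V)ᶜ
        · exact hk.trans (H.cyc _ a b)
        · obtain ⟨c, e, x, y⟩ := D.side F w1 (mem_compl.2 w2)
          rw [← ct_compl]
          exact key _ b ⟨c, e, x, fun v hv => by simpa using y v hv⟩
      · obtain ⟨c, e, x, y⟩ := D.side F z1 z2
        exact key _ a ⟨c, e, x, fun v hv => by simpa using y v hv⟩)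
  have hb : ∀ i, ∃ b : Fin 10, ∀ a, ∀ e ∈ A, Cr src tgt (I (i, a)) e → a = b := fun i => by
    by_cases q : ∃ a, ∃ e ∈ A, Cr src tgt (I (i, a)) e
    · obtain ⟨b, f, f1, f2⟩ := q
      refine ⟨b, fun a e e1 e2 => ?_⟩
      obtain rfl := hA1 i e e1 f f1 (mem_filter.2 ⟨mem_univ _, a, e2⟩)
        (mem_filter.2 ⟨mem_univ _, b, f2⟩)
      exact congrArg Prod.snd (F.uniq (hin _ e e2).1 (hin _ e f2).1)
    · exact ⟨0, fun a e e1 e2 => absurd ⟨a, e, e1, e2⟩ q⟩
  choose bad hbad using hb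
  refine ⟨bad, fun sel hsel X h1 h2 hX => ?_⟩
  have hun := H.unsplit F (X := X) fun c f e a b => by
    rcases hX c e b ⟨F.hJ c f a.1, F.hJ c f a.2⟩ with q | q
    exacts [F.nI a.1 q, F.nI a.2 q]
  by_cases hs : Sep Z X
  · refine (hA2 X hs).trans (card_le_card_of_forall_subsingleton (fun e f =>
      (e = f ∧ ∀ c, src f ∉ I c ∧ tgt f ∉ I c) ∨
        ∃ c, Cr src tgt (I c) e ∧ (src f ∈ I c ∨ tgt f ∈ I c)) (fun e he => ?_) fun f _ => ?_)
    · obtain ⟨eA, eX⟩ := mem_filter.1 he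
      beta_reduce at eX
      by_cases a : ∀ c, src e ∉ I c ∧ tgt e ∉ I c
      · refine ⟨e, mem_filter.2 ⟨mem_univ _, ?_, fun i q => (a _).1 q.1⟩, Or.inl ⟨rfl, a⟩⟩
        rwa [D.same F hun fun c => (a c).1, D.same F hun fun c => (a c).2] at eX
      obtain ⟨c, hc⟩ := not_forall.1 a
      have hcr : Cr src tgt (I c) e := fun q => by
        obtain ⟨g, z, -, r⟩ := D.core c
        rw [r (src e) (by tauto), r (tgt e) (by tauto)] at eX
        exact eX Iff.rfl
      obtain ⟨f, f1, f2⟩ : ∃ f, Ins src tgt (J c) f ∧ Cr src tgt X f := by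
        have m1 := (D.mem F (hin c e hcr).1).2
        have m2 := (D.mem F (hin c e hcr).2).2
        by_cases b : nd (src e) ∈ X
        · exact H.split (F.tJ c) (F.sm c) m1 m2 b (by tauto)
        · exact H.split (F.tJ c) (F.sm c) m2 m1 (by tauto) b
      refine ⟨f, mem_filter.2 ⟨mem_univ _, f2, fun i q => ?_⟩, Or.inr ⟨c, hcr, hX c f f2 f1⟩⟩
      obtain rfl := F.uniq f1.1 (F.IJ _ q.1)
      exact hsel i (hbad i _ e eA hcr)
    · rintro e ⟨e1, e2⟩ g ⟨g1, g2⟩
      rcases e2 with ⟨a, b⟩ | ⟨c, a, b⟩ <;> rcases g2 with ⟨x, y⟩ | ⟨d, x, y⟩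
      · rw [a, x]
      · have := b d
        tauto
      · have := y c
        tauto
      · obtain rfl := F.uniq (F.ins b).1 (F.ins y).1
        exact hA1 c.1 e (mem_filter.1 e1).1 g (mem_filter.1 g1).1
          (mem_filter.2 ⟨mem_univ _, c.2, a⟩) (mem_filter.2 ⟨mem_univ _, c.2, x⟩)
  have h9 : 9 ≤ k := le_trans (by unfold hf; omega) hk
  have hz : ∀ c e, ∀ v ∈ hub c e, nd v ∈ Z ∧ (nd v ∈ X ↔ v ∈ X) := fun c e v hv =>
    ⟨(D.hub_mem c e v hv).2.1, D.same F hun fun d => F.nI hv⟩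
  rcases not_and_or.1 hs with a | a
  · refine h9.trans ((H.nohub F (fun c e v hv q => a ⟨_, (hz c e v hv).1, (hz c e v hv).2.2 q⟩)
      h1 h2).trans (card_le_card fun e he => ?_))
    obtain ⟨x, y⟩ := (mem_filter.1 he).2
    exact mem_filter.2 ⟨mem_univ _, x, fun i => y _⟩
  · refine h9.trans ((H.nohub F (X := Xᶜ) (fun c e v hv q => a ⟨_, (hz c e v hv).1,
      fun r => mem_compl.1 q ((hz c e v hv).2.1 r)⟩) h2 (by rwa [compl_compl])).trans
      (card_le_card fun e he => ?_))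
    obtain ⟨x, y⟩ := (mem_filter.1 he).2
    exact mem_filter.2 ⟨mem_univ _, (cr_compl X e).1 x, fun i => y _⟩

lemma Tower.fam {κ : Type} {m : ℕ → ℕ} (hm : Sz m) (hk : m 10 < k) {I : κ → ℕ → Finset V}
    {hub : κ → ℕ → E → Finset V} (T : ∀ c, Tower src tgt m (I c) (hub c))
    (hd : ∀ c d, c ≠ d → Disjoint (I c 10) (I d 10)) {j : ℕ} (hj : j < 10) :
    Fam src tgt k (hf (m j)) (fun c => I c j) (fun c => I c (j + 1)) (fun c => hub c j) :=
  ⟨fun c => (T c).lay j hj, fun c => (T c).next j hj, fun c => ((T c).tight j hj.le).1,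
    fun c => (T c).tight _ hj, fun c => lt_of_le_of_lt (((T c).card _ hj).trans (hm.mono hj)) hk,
    fun c d a => (hd c d a).mono ((T c).sub hj le_rfl) ((T d).sub hj le_rfl)⟩

/-- one candidate per thread such that cyclic cuts keep nine edges outside the chosen zones -/
theorem QH.cl (H : QH src tgt k) {m : ℕ → ℕ} (hm : Sz m) (hk : m 10 < k) {ι : Type} [Fintype ι]
    [DecidableEq ι] {I : ι × Fin 10 → ℕ → Finset V} {hub : ι × Fin 10 → ℕ → E → Finset V}
    (T : ∀ c, Tower src tgt m (I c) (hub c))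
    (hd : ∀ c d, c ≠ d → Disjoint (I c 10) (I d 10)) :
    ∃ sel : ι → Fin 10, ∀ X : Finset V, HasCycleIn src tgt X → HasCycleIn src tgt Xᶜ →
      9 ≤ #{e | Cr src tgt X e ∧ ∀ i, ¬ Ins src tgt (I (i, sel i) 1) e} := by
  have h1 := fun j : Fin 9 => H.one_level (Tower.fam hm hk T hd (j := j + 1) (by omega))
    (by
      have a := hm (j + 1)
      have b := hm.mono (show (j : ℕ) + 1 + 1 ≤ 10 by omega)
      nlinarith)
    (fun c => by
      have a := ((T c).tight (j + 1) (by omega)).2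
      have b := (T c).card (j + 1) (by omega)
      omega)
  choose bad hbad using h1
  have h2 : ∀ i, ∃ a : Fin 10, ∀ j, a ≠ bad j i := fun i => by
    obtain ⟨a, -, ha⟩ := exists_mem_notMem_of_card_lt_card
      (s := univ.image fun j => bad j i) (t := univ) (card_image_le.trans_lt (by simp))
    exact ⟨a, fun j q => ha (mem_image.2 ⟨j, mem_univ _, q.symm⟩)⟩
  choose sel hsel using h2
  refine ⟨sel, fun X x1 x2 => ?_⟩
  by_cases hj : ∃ j : Fin 9, ∀ c e, Cr src tgt X e → Ins src tgt (I c (j + 1 + 1)) e →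
      src e ∈ I c (j + 1) ∨ tgt e ∈ I c (j + 1)
  · obtain ⟨j, hj⟩ := hj
    refine (hbad j sel (fun i => hsel i j) X x1 x2 hj).trans (card_le_card fun e he => ?_)
    obtain ⟨x, y⟩ := (mem_filter.1 he).2
    have hs := fun c => (T c).sub (i := 1) (j := j + 1) (by omega) (by omega)
    exact mem_filter.2 ⟨mem_univ _, x, fun i q => y i ⟨hs _ q.1, hs _ q.2⟩⟩
  have h3 : ∀ j : Fin 9, ∃ c e, Cr src tgt X e ∧ src e ∈ I c (j + 1 + 1) ∧ src e ∉ I c (j + 1) :=
    fun j => by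
      by_contra q
      exact hj ⟨j, fun c e a b => Or.inl (not_not.1 fun r => q ⟨c, e, a, b.1, r⟩)⟩
  choose c f f1 f2 f3 using h3
  have hu : ∀ (j : Fin 9) d, src (f j) ∈ I d 10 → c j = d := fun j d a => by
    by_contra q
    exact disjoint_left.1 (hd _ _ q) ((T _).sub (by omega) le_rfl (f2 j)) a
  refine le_trans (by simp) (card_le_card_of_injOn (s := (univ : Finset (Fin 9))) f
    (fun j _ => mem_coe.2 (mem_filter.2 ⟨mem_univ _, f1 j, fun i q => ?_⟩)) fun i _ j _ q => ?_)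
  · have := hu j _ ((T _).sub (by omega) le_rfl q.1)
    exact f3 j ((T _).sub (by omega) (by omega) (this ▸ q.1))
  · have e1 := hu i (c j) (q ▸ (T _).sub (by omega) le_rfl (f2 j))
    by_contra r
    rcases lt_or_gt_of_ne (fun x => r (Fin.ext x)) with a | a
    · exact f3 j ((T _).sub (by omega) (by omega) (e1 ▸ q ▸ f2 i))
    · exact f3 i ((T _).sub (by omega) (by omega) (e1 ▸ q ▸ f2 j))

end Pool.Agent.P.MP_e59a69_co
end

-- part Pool.Agent.P.MP_e59a69_co.QFar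
section

/-! Choosing disjoint small trees, and windows on a path. -/

open Finset

set_option linter.unusedSectionVars false

namespace Pool.Agent.P.MP_e59a69_co

variable {V E : Type} [Fintype V] [Fintype E] [DecidableEq V] [DecidableEq E]
variable {src tgt : E → V} {k : ℕ}

/-- a set with all its neighbours -/
def nbh (src tgt : E → V) (S : Finset V) : Finset V :=
  S ∪ (image tgt {e | src e ∈ S} ∪ image src {e | tgt e ∈ S})

lemma nbh_card (hc : ∀ v, degIn src tgt univ v = 3) (S : Finset V) :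
    #(nbh src tgt S) ≤ 4 * #S := by
  have h1 : ∑ v ∈ S, degIn src tgt univ v = #{e | src e ∈ S} + #{e | tgt e ∈ S} := by
    unfold degIn
    rw [sum_add_distrib, card_eq_sum_card_fiberwise (f := src) (s := {e | src e ∈ S}) (t := S)
      fun e he => (mem_filter.1 he).2, card_eq_sum_card_fiberwise (f := tgt)
      (s := {e | tgt e ∈ S}) (t := S) fun e he => (mem_filter.1 he).2]
    congr 1 <;> refine sum_congr rfl fun v hv => congrArg _ ?_ <;> ext e <;>
      simp only [mem_filter, mem_univ, true_and] <;>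
      exact ⟨fun h => ⟨h ▸ hv, h⟩, fun h => h.2⟩
  simp only [hc, sum_const, smul_eq_mul] at h1
  have h2 := card_union_le S (image tgt {e | src e ∈ S} ∪ image src {e | tgt e ∈ S})
  have h3 := card_union_le (image tgt {e | src e ∈ S}) (image src {e | tgt e ∈ S})
  have h4 := card_image_le (f := tgt) (s := {e | src e ∈ S})
  have h5 := card_image_le (f := src) (s := {e | tgt e ∈ S})
  unfold nbh
  omega

lemma ball_card (hc : ∀ v, degIn src tgt univ v = 3) (v : V) (t : ℕ) :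
    #((nbh src tgt)^[t] {v}) ≤ 4 ^ t := by
  induction t with
  | zero => simp
  | succ t ih =>
    rw [Function.iterate_succ_apply', pow_succ]
    have := nbh_card hc ((nbh src tgt)^[t] {v})
    omega

lemma QH.ball (H : QH src tgt k) {T : Finset V} (hT : Tight src tgt T) (hk : #T < k) {v : V}
    (hv : v ∈ T) (t : ℕ) : v ∈ (nbh src tgt)^[t] {v} ∧
      (T ⊆ (nbh src tgt)^[t] {v} ∨ t + 1 ≤ #(T ∩ (nbh src tgt)^[t] {v})) := by
  induction t with
  | zero => simp [hv]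
  | succ t ih =>
    rw [Function.iterate_succ_apply']
    generalize (nbh src tgt)^[t] {v} = S at ih
    have hs : S ⊆ nbh src tgt S := subset_union_left
    refine ⟨hs ih.1, ?_⟩
    by_cases a : T ⊆ S
    · exact Or.inl (a.trans hs)
    obtain ⟨w, w1, w2⟩ := not_subset.1 a
    obtain ⟨e, e1, e2⟩ := H.split hT hk hv w1 ih.1 w2
    obtain ⟨u, u1, u2, u3⟩ : ∃ u ∈ T, u ∈ nbh src tgt S ∧ u ∉ S := by
      by_cases b : src e ∈ S
      · exact ⟨tgt e, e1.2, mem_union_right _ (mem_union_left _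
          (mem_image_of_mem _ (mem_filter.2 ⟨mem_univ _, b⟩))), by tauto⟩
      · exact ⟨src e, e1.1, mem_union_right _ (mem_union_right _
          (mem_image_of_mem _ (mem_filter.2 ⟨mem_univ _, by tauto⟩))), b⟩
    have h1 : T ∩ S ⊂ T ∩ nbh src tgt S := (ssubset_iff_of_subset
      (inter_subset_inter_left hs)).2 ⟨u, mem_inter.2 ⟨u1, u2⟩, fun q => u3 (mem_inter.1 q).2⟩
    have := card_lt_card h1
    have := ih.2.resolve_left a
    omega

theorem QH.far (H : QH src tgt k) {M : ℕ} (hM : 0 < M) (hk : M < k) {κ : Type} [Fintype κ]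
    [DecidableEq κ] (A : κ → Finset V) (hA : ∀ c d, c ≠ d → Disjoint (A c) (A d))
    (hc : ∀ c, 4 * (M * 4 ^ M) ≤ #(A c)) (B : V → Finset V)
    (hB : ∀ c, ∀ a ∈ A c, a ∈ B a ∧ Tight src tgt (B a) ∧ #(B a) ≤ M) :
    ∃ s : κ → V, (∀ c, s c ∈ A c) ∧ ∀ c d, c ≠ d → Disjoint (B (s c)) (B (s d)) := by
  have hD : 0 < M * 4 ^ M := by positivity
  rcases isEmpty_or_nonempty κ with q | ⟨⟨c0⟩⟩
  · exact ⟨isEmptyElim, isEmptyElim, isEmptyElim⟩
  obtain ⟨v0, -⟩ := card_pos.1 (show 0 < #(A c0) by have := hc c0; omega)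
  have : Nonempty V := ⟨v0⟩
  obtain ⟨s, h1, h2⟩ := exists_IT univ A (fun a b => ¬ Disjoint (B a) (B b))
    (fun a b h q => h q.symm) (M * 4 ^ M) hD (fun c _ => hc c) fun c _ a ha => by
      rw [← card_biUnion fun i _ j _ hij =>
        (hA i j hij).mono (filter_subset _ _) (filter_subset _ _)]
      refine le_trans (card_le_card (t := (B a).biUnion fun v => (nbh src tgt)^[M] {v})
        fun b hb => ?_) (card_biUnion_le.trans ?_)
      · obtain ⟨j, -, hj⟩ := mem_biUnion.1 hb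
        obtain ⟨b1, b2⟩ := mem_filter.1 hj
        obtain ⟨v, v1, v2⟩ := not_disjoint_iff.1 b2
        obtain ⟨x, y, z⟩ := hB j b b1
        refine mem_biUnion.2 ⟨v, v1, (H.ball y (by omega) v2 M).2.resolve_right (fun q => ?_) x⟩
        have := card_le_card (inter_subset_left (s₁ := B b) (s₂ := (nbh src tgt)^[M] {v}))
        omega
      · exact (sum_le_card_nsmul _ _ _ fun v _ => ball_card H.cub v M).trans
          (Nat.mul_le_mul_right _ (hB c a ha).2.2)
  exact ⟨s, fun c => h1 c (mem_univ _), fun c d a => not_not.1 (h2 c (mem_univ _) d (mem_univ _) a)⟩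

lemma QH.path_tight (H : QH src tgt k) (p : ℕ → V) (pe : ℕ → E) (n : ℕ)
    (hp : ∀ s ≤ n, ∀ t ≤ n, p s = p t → s = t)
    (he : ∀ t < n, Ends src tgt (pe t) (p t) (p (t + 1))) :
    Tight src tgt (image p (range (n + 1))) := by
  induction n with
  | zero => simpa using H.single (p 0)
  | succ n ih =>
    rw [range_add_one, image_insert, insert_eq]
    have h1 : p n ∈ image p (range (n + 1)) := mem_image_of_mem _ (by simp)
    refine (H.single _).union (ih (fun s a t b => hp s (by omega) t (by omega))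
      fun t a => he t (by omega)) (disjoint_singleton_left.2 fun q => ?_) (e := pe n) ?_
    · obtain ⟨t, a, b⟩ := mem_image.1 q
      have := mem_range.1 a
      have := hp t (by omega) _ le_rfl b
      omega
    · rcases he n (by omega) with ⟨a, b⟩ | ⟨a, b⟩
      exacts [Or.inr ⟨a ▸ h1, b ▸ mem_singleton_self _⟩, Or.inl ⟨a ▸ mem_singleton_self _, b ▸ h1⟩]

lemma QH.at_card (H : QH src tgt k) (hk : 2 ≤ k) (v : V) : #{e | src e = v ∨ tgt e = v} = 3 := by
  rw [← H.cub v, filter_or, card_union_of_disjoint]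
  · rfl
  · exact disjoint_filter.2 fun e _ a b => H.ne hk e (a.trans b.symm)

lemma path_inj {p : ℕ → V} {pe : ℕ → E} {n : ℕ} (hp : ∀ s ≤ n, ∀ t ≤ n, p s = p t → s = t)
    (he : ∀ t < n, Ends src tgt (pe t) (p t) (p (t + 1))) {s t : ℕ} (hs : s < n) (ht : t < n)
    (h : pe s = pe t) : s = t := by
  have a := he s hs
  have b := he t ht
  rw [h] at a
  rcases a with ⟨a1, a2⟩ | ⟨a1, a2⟩ <;> rcases b with ⟨b1, b2⟩ | ⟨b1, b2⟩ <;>
    have h1 := hp _ (by omega) _ (by omega) (a1.symm.trans b1) <;>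
    have h2 := hp _ (by omega) _ (by omega) (a2.symm.trans b2) <;> omega

/-- the third edge at an inner vertex of a short path leaves the path -/
theorem QH.leg (H : QH src tgt k) (p : ℕ → V) (pe : ℕ → E) (n : ℕ) (hk : n + 1 < k)
    (hp : ∀ s ≤ n, ∀ t ≤ n, p s = p t → s = t)
    (he : ∀ t < n, Ends src tgt (pe t) (p t) (p (t + 1))) (t : ℕ) (ht : t + 1 < n) :
    ∃ (g : E) (o : V), Ends src tgt g (p (t + 1)) o ∧ o ∉ image p (range (n + 1)) ∧
      ∀ f, src f = p (t + 1) ∨ tgt f = p (t + 1) → f = pe t ∨ f = pe (t + 1) ∨ f = g := by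
  have h1 := H.at_card (by omega) (p (t + 1))
  have h2 : ({pe t, pe (t + 1)} : Finset E) ⊆
      ({e | src e = p (t + 1) ∨ tgt e = p (t + 1)} : Finset E) := by
    intro e a
    have b := he t (by omega)
    have c := he (t + 1) ht
    rcases mem_insert.1 a with a | a
    · exact mem_filter.2 ⟨mem_univ _, by rw [a]; tauto⟩
    · exact mem_filter.2 ⟨mem_univ _, by rw [mem_singleton.1 a]; tauto⟩
  have h3 : pe t ≠ pe (t + 1) := fun q => by
    have := path_inj hp he (by omega) ht q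
    omega
  have h4 := card_sdiff_of_subset h2
  rw [h1, card_pair h3] at h4
  obtain ⟨g, hg⟩ := card_eq_one.1 h4
  have h5 : ∀ f, f = g ↔ (src f = p (t + 1) ∨ tgt f = p (t + 1)) ∧ ¬ (f = pe t ∨ f = pe (t + 1)) :=
    fun f => by rw [← mem_singleton, ← hg]; simp
  obtain ⟨g1, g2⟩ := (h5 g).1 rfl
  have hW : #(image p (range (n + 1))) = n + 1 := by
    rw [card_image_of_injOn fun a x b y => hp a (by simpa [Nat.lt_succ_iff] using x) b
      (by simpa [Nat.lt_succ_iff] using y), card_range]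
  have hm : ∀ s ≤ n, p s ∈ image p (range (n + 1)) := fun s a =>
    mem_image_of_mem _ (mem_range.2 (by omega))
  have hn : ¬ Ins src tgt (image p (range (n + 1))) g := fun q => by
    have a := hand H.cub (image p (range (n + 1)))
    have b := H.small (X := image p (range (n + 1))) ⟨_, hm 0 (by omega)⟩ (by omega)
    have c : insert g (image pe (range n)) ⊆
        ({e | Ins src tgt (image p (range (n + 1))) e} : Finset E) := by
      intro e x
      refine mem_filter.2 ⟨mem_univ _, ?_⟩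
      rcases mem_insert.1 x with x | x
      · exact x ▸ q
      · obtain ⟨s, s1, rfl⟩ := mem_image.1 x
        have s2 := mem_range.1 s1
        rcases he s s2 with ⟨y, z⟩ | ⟨y, z⟩
        exacts [⟨y ▸ hm _ (by omega), z ▸ hm _ (by omega)⟩, ⟨y ▸ hm _ (by omega), z ▸ hm _ (by omega)⟩]
    have d := card_le_card c
    rw [card_insert_of_notMem, card_image_of_injOn fun a x b y => path_inj hp he
      (by simpa using x) (by simpa using y), card_range] at d
    · omega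
    · intro x
      obtain ⟨s, s1, rfl⟩ := mem_image.1 x
      have s2 := mem_range.1 s1
      have : s = t + 1 ∨ s + 1 = t + 1 := by
        rcases he s s2 with ⟨y, z⟩ | ⟨y, z⟩ <;> rw [y, z] at g1 <;> rcases g1 with w | w <;>
          have := hp _ (by omega) _ (by omega) w <;> omega
      rcases this with w | w
      · exact g2 (Or.inr (by rw [w]))
      · exact g2 (Or.inl (by rw [Nat.add_right_cancel w]))
  have h6 : ∀ f, src f = p (t + 1) ∨ tgt f = p (t + 1) → f = pe t ∨ f = pe (t + 1) ∨ f = g :=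
    fun f a => by
      have := h5 f
      tauto
  rcases g1 with a | a
  · exact ⟨g, tgt g, Or.inl ⟨a, rfl⟩, fun q => hn ⟨a ▸ hm _ (by omega), q⟩, h6⟩
  · exact ⟨g, src g, Or.inr ⟨rfl, a⟩, fun q => hn ⟨q, a ▸ hm _ (by omega)⟩, h6⟩

end Pool.Agent.P.MP_e59a69_co
end

-- part Pool.Agent.P.MP_e59a69_co.QThree
section

/-! Three edge sets that avoid the windows and connect all trees around them. -/

open Finset

set_option linter.unusedSectionVars false

namespace Pool.Agent.P.MP_e59a69_co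

variable {V E ι : Type} [Fintype V] [Fintype E] [DecidableEq V] [DecidableEq E] [Fintype ι]
  [DecidableEq ι]
variable {src tgt : E → V} {k h : ℕ} {W J : ι → Finset V} {hub : ι → E → Finset V}

lemma QH.five (H : QH src tgt k) (F : Fam src tgt k h W J hub) (h4 : 4 ≤ h) {P : Finset V}
    (hP : ¬ HasCycleIn src tgt P) (hun : ∀ c e, ∀ u ∈ hub c e, ∀ v ∈ hub c e, u ∈ P → v ∈ P)
    (hb : ∃ c e, #(hub c e) = h ∧ ∀ v ∈ hub c e, v ∈ P) :
    5 ≤ ct src tgt {e | ∀ i, src e ∉ W i ∧ tgt e ∉ W i} P := by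
  set Q : Finset V := {v ∈ P | ∀ i, v ∉ W i} with hQ
  have hm : ∀ v, v ∈ Q ↔ v ∈ P ∧ ∀ i, v ∉ W i := fun v => mem_filter
  have hsub : ∀ c e, (∀ v ∈ hub c e, v ∈ P) → hub c e ⊆ Q := fun c e a v hv =>
    (hm v).2 ⟨a v hv, fun i => F.nI hv⟩
  obtain ⟨c, e, b1, b2⟩ := hb
  have h1 := card_le_card (hsub c e b2)
  have h2 := H.acyc (X := Q) (card_pos.1 (by omega)) fun q => hP (q.mono (filter_subset _ _))
  set B : Finset (ι × E) := {x | Cr src tgt (W x.1) x.2 ∧ hub x.1 x.2 ⊆ Q} with hB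
  have h3 : #B * h ≤ #Q := by
    have a : #(B.biUnion fun x => hub x.1 x.2) ≤ #Q :=
      card_le_card (biUnion_subset.2 fun x hx => (mem_filter.1 hx).2.2)
    rw [card_biUnion, sum_congr rfl fun x hx => ((F.lay x.1).out x.2 (mem_filter.1 hx).2.1).2.1,
      sum_const, smul_eq_mul] at a
    · exact a
    · intro x _ y _ hxy
      refine disjoint_left.2 fun v p q => ?_
      have r := F.uniq (F.hJ _ _ p) (F.hJ _ _ q)
      beta_reduce at q
      rw [← r] at q
      exact disjoint_left.1 ((F.lay x.1).dj x.2 y.2 fun s => hxy (Prod.ext r s)) p q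
  have h5 : ct src tgt univ Q ≤
      ct src tgt {e | ∀ i, src e ∉ W i ∧ tgt e ∉ W i} P + #(B.image Prod.snd) := by
    refine le_trans (card_le_card fun f hf => ?_) (card_union_le _ _)
    have a := (mem_filter.1 hf).2
    rw [hm, hm] at a
    by_cases q : ∀ i, src f ∉ W i ∧ tgt f ∉ W i
    · refine mem_union_left _ (mem_filter.2 ⟨mem_filter.2 ⟨mem_univ _, q⟩, fun r => a ?_⟩)
      exact and_congr r (iff_of_true (fun i => (q i).1) fun i => (q i).2)
    obtain ⟨i, hi⟩ := not_forall.1 q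
    have r : Cr src tgt (W i) f := fun r =>
      a (iff_of_false (fun x => x.2 i (by tauto)) fun x => x.2 i (by tauto))
    refine mem_union_right _ (mem_image.2 ⟨(i, f), mem_filter.2 ⟨mem_univ _, r,
      hsub i f fun v hv => ?_⟩, rfl⟩)
    rcases F.ends r with ⟨x, y⟩ | ⟨x, y⟩
    · refine hun i f _ y v hv (not_not.1 fun z => a (iff_of_false (fun w => w.2 i x) fun w => z w.1))
    · refine hun i f _ x v hv (not_not.1 fun z => a (iff_of_false (fun w => z w.1) fun w => w.2 i y))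
  have h6 := card_image_le (s := B) (f := Prod.snd)
  have h7 := Nat.mul_le_mul_left #B h4
  omega

theorem QH.three_conn (H : QH src tgt k) (F : Fam src tgt k h W J hub) (h4 : 4 ≤ h)
    (hcl : ∀ X : Finset V, HasCycleIn src tgt X → HasCycleIn src tgt Xᶜ →
      9 ≤ #{e | Cr src tgt X e ∧ ∀ i, ¬ Ins src tgt (J i) e}) :
    ∃ Hs : ℕ → Finset E, (∀ s, ∀ e ∈ Hs s, ∀ i, src e ∉ W i ∧ tgt e ∉ W i) ∧
      (∀ s < 3, Conn src tgt {v | ∃ i e, v ∈ hub i e} (Hs s)) ∧
      ∀ e, (∀ i, ¬ Ins src tgt (J i) e) → ¬ (e ∈ Hs 0 ∧ e ∈ Hs 1 ∧ e ∈ Hs 2) := by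
  obtain ⟨nd, Z, D⟩ := H.exists_nd F
  obtain ⟨T, t1, t2, t3⟩ := three_sets (fun e => nd (src e)) (fun e => nd (tgt e))
    {e | ∀ i, src e ∉ W i ∧ tgt e ∉ W i} Z fun X ⟨⟨z, z1, z2⟩, w, w1, w2⟩ => by
      rw [ct_nd]
      by_cases a : HasCycleIn src tgt ({v | nd v ∈ X} : Finset V)
      · by_cases b : HasCycleIn src tgt ({v | nd v ∈ X} : Finset V)ᶜ
        · refine le_trans (by norm_num) ((hcl _ a b).trans (card_le_card fun e he => ?_))
          obtain ⟨x, y⟩ := (mem_filter.1 he).2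
          exact mem_filter.2 ⟨mem_filter.2 ⟨mem_univ _, fun i =>
            ⟨fun q => y i (F.ins (Or.inl q)), fun q => y i (F.ins (Or.inr q))⟩⟩, x⟩
        · obtain ⟨c, e, x, y⟩ := D.side F w1 (mem_compl.2 w2)
          rw [← ct_compl]
          refine H.five F h4 b (fun c e u hu v hv => ?_) ⟨c, e, x, fun v hv => by simpa using y v hv⟩
          simp [(D.hub_mem c e u hu).2.2 v hv]
      · obtain ⟨c, e, x, y⟩ := D.side F z1 z2
        refine H.five F h4 a (fun c e u hu v hv => ?_) ⟨c, e, x, fun v hv => by simpa using y v hv⟩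
        simp [(D.hub_mem c e u hu).2.2 v hv]
  refine ⟨fun s => T s ∪ ({e | ∃ i f, Ins src tgt (hub i f) e} : Finset E), fun s e he i => ?_,
    fun s hs X hX => ?_, fun e he ⟨a, b, c⟩ => ?_⟩
  · rcases mem_union.1 he with a | a
    · exact (mem_filter.1 (t1 s a)).2 i
    · obtain ⟨j, f, b⟩ := (mem_filter.1 a).2
      exact ⟨F.nI b.1, F.nI b.2⟩
  · by_cases q : ∃ c f e, Ins src tgt (hub c f) e ∧ Cr src tgt X e
    · obtain ⟨c, f, e, a, b⟩ := q
      exact card_pos.2 ⟨e, mem_filter.2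
        ⟨mem_union_right _ (mem_filter.2 ⟨mem_univ _, c, f, a⟩), b⟩⟩
    have hun := H.unsplit F (X := X) fun c f e a b => q ⟨c, f, e, a, b⟩
    obtain ⟨⟨u, u1, u2⟩, v, v1, v2⟩ := hX
    obtain ⟨c, f, u3⟩ := (mem_filter.1 u1).2
    obtain ⟨d, g, v3⟩ := (mem_filter.1 v1).2
    obtain ⟨e, he⟩ := card_pos.1 (t2 s hs X ⟨⟨_, (D.hub_mem c f u u3).2.1,
      (D.same F hun fun _ => F.nI u3).2 u2⟩, _, (D.hub_mem d g v v3).2.1,
      fun r => v2 ((D.same F hun fun _ => F.nI v3).1 r)⟩)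
    obtain ⟨e1, e2⟩ := mem_filter.1 he
    have e3 := (mem_filter.1 (t1 s e1)).2
    rw [D.same F hun fun c => (e3 c).1, D.same F hun fun c => (e3 c).2] at e2
    exact card_pos.2 ⟨e, mem_filter.2 ⟨mem_union_left _ e1, e2⟩⟩
  · have n : e ∉ ({e | ∃ i f, Ins src tgt (hub i f) e} : Finset E) := fun q => by
      obtain ⟨i, f, r⟩ := (mem_filter.1 q).2
      exact he i ⟨F.hJ i f r.1, F.hJ i f r.2⟩
    exact t3 e ⟨(mem_union.1 a).resolve_right n, (mem_union.1 b).resolve_right n,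
      (mem_union.1 c).resolve_right n⟩

end Pool.Agent.P.MP_e59a69_co
end

-- part Pool.Agent.P.MP_e59a69_co.QFlow
section

/-! Alternating weights that join pairs of equally coloured vertices. -/

open Finset

set_option linter.unusedSectionVars false

namespace Pool.Agent.P.MP_e59a69_co

variable {V E : Type} [Fintype V] [Fintype E] [DecidableEq V] [DecidableEq E]
variable {src tgt : E → V}

lemma maxcut (src tgt : E → V) (H : Finset E) :
    ∃ S : Finset V, ∀ X, 1 ≤ ct src tgt H X → 1 ≤ ct src tgt {e ∈ H | Cr src tgt S e} X := by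
  obtain ⟨S, -, hS⟩ := exists_max_image (univ : Finset (Finset V)) (ct src tgt H) univ_nonempty
  refine ⟨S, fun X hX => ?_⟩
  by_contra q
  have h1 : ∀ e ∈ H, Cr src tgt S e → ¬ Cr src tgt X e := fun e a b c =>
    q (card_pos.2 ⟨e, mem_filter.2 ⟨mem_filter.2 ⟨a, b⟩, c⟩⟩)
  obtain ⟨f, hf⟩ := card_pos.1 hX
  obtain ⟨f1, f2⟩ := mem_filter.1 hf
  refine absurd (hS (symmDiff S X) (mem_univ _)) (not_le.2 (card_lt_card
    ((ssubset_iff_of_subset fun e he => ?_).2 ⟨f, ?_, fun a => h1 f f1 (mem_filter.1 a).2 f2⟩)))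
  · obtain ⟨a, b⟩ := mem_filter.1 he
    have := h1 e a b
    refine mem_filter.2 ⟨a, ?_⟩
    simp only [mem_symmDiff]
    tauto
  · have := fun a => h1 f f1 a f2
    refine mem_filter.2 ⟨f1, ?_⟩
    simp only [mem_symmDiff]
    tauto

lemma Conn.reach {T : Finset V} {B : Finset E} (h : Conn src tgt T B) {a b : V} (ha : a ∈ T)
    (hb : b ∈ T) : (spanGr src tgt B).Reachable a b := by
  classical
  by_contra q
  obtain ⟨e, he⟩ := card_pos.1 (h {v | (spanGr src tgt B).Reachable a v}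
    ⟨⟨a, ha, by simp⟩, b, hb, by simpa using q⟩)
  obtain ⟨e1, e2⟩ := mem_filter.1 he
  have := SimpleGraph.ConnectedComponent.exact (comp_eq_of_mem src tgt B e1)
  simp only [mem_filter, mem_univ, true_and] at e2
  exact e2 ⟨fun r => r.trans this, fun r => r.trans this.symm⟩

lemma euler_join {κ : Type} [Fintype κ] [DecidableEq κ] {T : Finset V} {B : Finset E}
    (h : Conn src tgt T B) (a b : κ → V) (ha : ∀ x, a x ∈ T) (hb : ∀ x, b x ∈ T) :
    ∃ (φ : E → ℤ) (ε : κ → ℤ), (∀ e, |φ e| ≤ 1) ∧ (∀ e, e ∉ B → φ e = 0) ∧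
      (∀ x, ε x = 1 ∨ ε x = -1) ∧ ∀ v, bdry src tgt φ v =
        ∑ x, ε x * ((if a x = v then 1 else 0) - if b x = v then 1 else 0) := by
  choose J j1 j2 using fun x => exists_join src tgt B (h.reach (ha x) (hb x))
  have hs : ∀ (ψ : E ⊕ κ → ℤ) v, bdry (Sum.elim src b) (Sum.elim tgt a) ψ v =
      bdry src tgt (fun e => ψ (Sum.inl e)) v -
        ∑ x, ψ (Sum.inr x) * ((if a x = v then 1 else 0) - if b x = v then 1 else 0) := by
    intro ψ v
    unfold bdry
    rw [Fintype.sum_sum_type, sub_eq_add_neg, ← sum_neg_distrib]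
    congr 1
    refine sum_congr rfl fun x _ => ?_
    simp only [Sum.elim_inr]
    split_ifs <;> ring
  let J' : E ⊕ κ → ℤ := Sum.elim (fun e => ∑ x, J x e) fun _ => 1
  obtain ⟨ψ, p1, p2, p3⟩ := exists_orientation (Sum.elim src b) (Sum.elim tgt a) {e | Odd (J' e)}
  refine ⟨fun e => ψ (Sum.inl e), fun x => ψ (Sum.inr x), fun e => ?_, fun e he => p2 _ ?_,
    fun x => p1 _ (by simp [J']), fun v => ?_⟩
  · by_cases q : Sum.inl e ∈ ({e | Odd (J' e)} : Finset (E ⊕ κ))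
    · rcases p1 _ q with r | r <;> simp [r]
    · simp [p2 _ q]
  · simp [J', j1 _ e he]
  · have h1 := bdry_parity (Sum.elim src b) (Sum.elim tgt a) {e | Odd (J' e)} J' (by simp) v
    have h2 : bdry (Sum.elim src b) (Sum.elim tgt a) J' v = 0 := by
      rw [hs]
      simp only [J', Sum.elim_inl, Sum.elim_inr, bdry_sum, j2, one_mul, sub_self]
    rw [h2, zero_sub, even_neg, Int.even_coe_nat] at h1
    have h3 := (p3 v).2 h1
    rw [hs] at h3
    exact sub_eq_zero.1 h3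

theorem pair_flow {T : Finset V} {H : Finset E} (h : Conn src tgt T H) :
    ∃ S : Finset V, ∀ (κ : Type) [Fintype κ] [DecidableEq κ] (a b : κ → V), (∀ x, a x ∈ T) →
      (∀ x, b x ∈ T) → (∀ x, a x ∈ S ↔ b x ∈ S) →
      ∃ (y : E → ℤ) (δ : κ → ℤ), (∀ e, |y e| ≤ 1) ∧ (∀ e, e ∉ H → y e = 0) ∧
        (∀ x, δ x = 1 ∨ δ x = -1) ∧ ∀ v, vs src tgt y v =
          ∑ x, δ x * ((if a x = v then 1 else 0) - if b x = v then 1 else 0) := by
  obtain ⟨S, hS⟩ := maxcut src tgt H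
  refine ⟨S, fun κ _ _ a b ha hb hab => ?_⟩
  obtain ⟨φ, ε, p1, p2, p3, p4⟩ := euler_join (B := {e ∈ H | Cr src tgt S e})
    (fun X hX => hS X (h X hX)) a b ha hb
  let χ : V → ℤ := fun v => if v ∈ S then 1 else -1
  refine ⟨fun e => χ (src e) * φ e, fun x => χ (a x) * ε x, fun e => ?_, fun e he => ?_,
    fun x => ?_, fun v => ?_⟩
  · have := p1 e
    simp only [χ]
    split_ifs <;> simpa using this
  · exact mul_eq_zero_of_right _ (p2 e fun q => he (mem_filter.1 q).1)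
  · simp only [χ]
    rcases p3 x with r | r <;> split_ifs <;> simp [r]
  · have h1 : vs src tgt (fun e => χ (src e) * φ e) v = χ v * bdry src tgt φ v := by
      unfold vs bdry
      rw [mul_sum]
      refine sum_congr rfl fun e _ => ?_
      by_cases q : e ∈ ({e ∈ H | Cr src tgt S e} : Finset E)
      · have r := (mem_filter.1 q).2
        have r' : χ (src e) = - χ (tgt e) := by
          simp only [χ]
          by_cases x : src e ∈ S <;> by_cases y : tgt e ∈ S <;> simp_all [Cr]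
        by_cases x : src e = v <;> by_cases y : tgt e = v
        · exact absurd (by rw [x, y]) r
        · simp [x, y]
        · simp [x, y, r']
        · simp [x, y]
      · simp [p2 e q]
    rw [h1, p4, mul_sum]
    refine sum_congr rfl fun x _ => ?_
    have r : χ (a x) = χ (b x) := by simp only [χ, hab x]
    by_cases p : a x = v <;> by_cases q : b x = v
    · simp [p, q]
    · simp [p, q]
    · simp [p, q, r]
    · simp [p, q]

lemma vs_add (y z : E → ℤ) (v : V) :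
    vs src tgt (fun e => y e + z e) v = vs src tgt y v + vs src tgt z v := by
  unfold vs
  rw [← sum_add_distrib]
  exact sum_congr rfl fun e _ => by split_ifs <;> ring

lemma vs_sum {κ : Type} (s : Finset κ) (c : κ → ℤ) (y : κ → E → ℤ) (v : V) :
    vs src tgt (fun e => ∑ x ∈ s, c x * y x e) v = ∑ x ∈ s, c x * vs src tgt (y x) v := by
  unfold vs
  simp only [mul_sum]
  rw [sum_comm]
  refine sum_congr rfl fun e _ => ?_
  split_ifs <;> simp [mul_add, sum_add_distrib]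

lemma vs_one {g : E} {u w : V} (h : Ends src tgt g u w) (c : ℤ) (v : V) :
    vs src tgt (fun e => if e = g then c else 0) v =
      c * ((if u = v then 1 else 0) + if w = v then 1 else 0) := by
  unfold vs
  rw [sum_eq_single g (fun e _ a => by simp [a]) (by simp)]
  rcases h with ⟨a, b⟩ | ⟨a, b⟩ <;> rw [a, b] <;> split_ifs <;> simp_all <;> ring

lemma vs_const (hc : ∀ v, degIn src tgt univ v = 3) (c : ℤ) (v : V) :
    vs src tgt (fun _ => c) v = 3 * c := by
  have := hc v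
  unfold degIn at this
  unfold vs
  rw [sum_add_distrib, ← sum_filter, ← sum_filter, sum_const, sum_const, ← add_nsmul, this]
  simp

/-- alternating signs along a path -/
lemma alt_path {p : ℕ → V} {pe : ℕ → E} (s l : ℕ)
    (he : ∀ t < s + l, Ends src tgt (pe t) (p t) (p (t + 1)))
    (hi : ∀ t < s + l, ∀ u < s + l, pe t = pe u → t = u) :
    ∃ A : E → ℤ, (∀ e, |A e| ≤ 1) ∧ (∀ e, A e ≠ 0 → ∃ t, s ≤ t ∧ t < s + l ∧ e = pe t) ∧
      ∀ v, vs src tgt A v =
        (if p s = v then 1 else 0) - (-1) ^ l * if p (s + l) = v then 1 else 0 := by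
  induction l with
  | zero => exact ⟨fun _ => 0, by simp, by simp, fun v => by simp [vs]⟩
  | succ l ih =>
    obtain ⟨A, a1, a2, a3⟩ := ih (fun t a => he t (by omega))
      fun t a u b => hi t (by omega) u (by omega)
    refine ⟨fun e => A e + if e = pe (s + l) then (-1) ^ l else 0, fun e => ?_, fun e q => ?_,
      fun v => ?_⟩
    · by_cases q : e = pe (s + l)
      · have : A e = 0 := by
          by_contra r
          obtain ⟨t, -, t2, t3⟩ := a2 e r
          have := hi t (by omega) (s + l) (by omega) (t3.symm.trans q)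
          omega
        simp [this, if_pos q]
      · simpa [q] using a1 e
    · by_cases r : e = pe (s + l)
      · exact ⟨s + l, by omega, by omega, r⟩
      · obtain ⟨t, t1, t2, t3⟩ := a2 e (by simpa [r] using q)
        exact ⟨t, t1, by omega, t3⟩
    · rw [vs_add, a3, vs_one (he (s + l) (by omega)), pow_succ, ← add_assoc]
      ring

end Pool.Agent.P.MP_e59a69_co
end

-- part Pool.Agent.P.MP_e59a69_co.QStep
section

/-! Three rounds that lower one leg of every window to weight zero. -/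

open Finset

set_option linter.unusedSectionVars false

namespace Pool.Agent.P.MP_e59a69_co

variable {V E ι : Type} [Fintype V] [Fintype E] [DecidableEq V] [DecidableEq E] [Fintype ι]
  [DecidableEq ι]

/-- windows of 55 vertices with legs at the odd places -/
structure Thr (src tgt : E → V) (p : ι → ℕ → V) (pe lg : ι → ℕ → E) (o : ι → ℕ → V) : Prop where
  pe_ends : ∀ i, ∀ t < 54, Ends src tgt (pe i t) (p i t) (p i (t + 1))
  lg_ends : ∀ i, ∀ a < 27, Ends src tgt (lg i a) (p i (2 * a + 1)) (o i a)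
  pe_inj : ∀ i j, ∀ t < 54, ∀ u < 54, pe i t = pe j u → i = j ∧ t = u
  lg_inj : ∀ i j, ∀ a < 27, ∀ b < 27, lg i a = lg j b → i = j ∧ a = b
  pe_lg : ∀ i j, ∀ t < 54, ∀ a < 27, pe i t ≠ lg j a

variable {src tgt : E → V} {p : ι → ℕ → V} {pe lg : ι → ℕ → E} {o : ι → ℕ → V}

lemma Thr.dipole (Th : Thr src tgt p pe lg o) (i : ι) {a b : ℕ} (hab : a < b) (hb : b < 27) :
    ∃ D : E → ℤ, (∀ e, |D e| ≤ 1) ∧ D (lg i a) = -1 ∧ D (lg i b) = 1 ∧
      (∀ e, D e ≠ 0 → e = lg i a ∨ e = lg i b ∨ ∃ t, 2 * a + 1 ≤ t ∧ t < 2 * b + 1 ∧ e = pe i t) ∧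
      ∀ v, vs src tgt D v = (if o i b = v then 1 else 0) - if o i a = v then 1 else 0 := by
  obtain ⟨A, a1, a2, a3⟩ := alt_path (src := src) (tgt := tgt) (p := p i) (pe := pe i) (2 * a + 1)
    (2 * (b - a)) (fun t q => Th.pe_ends i t (by omega))
    fun t q u r s => (Th.pe_inj i i t (by omega) u (by omega) s).2
  have e1 : 2 * a + 1 + 2 * (b - a) = 2 * b + 1 := by omega
  rw [e1] at a2 a3
  have h0 : ∀ c < 27, A (lg i c) = 0 := fun c hc => by
    by_contra r
    obtain ⟨t, -, t2, t3⟩ := a2 _ r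
    exact Th.pe_lg i i t (by omega) c hc t3.symm
  have hne : lg i a ≠ lg i b := fun q => by
    have := (Th.lg_inj i i a (by omega) b hb q).2
    omega
  refine ⟨fun e => (A e + if e = lg i a then -1 else 0) + if e = lg i b then 1 else 0,
    fun e => ?_, ?_, ?_, fun e q => ?_, fun v => ?_⟩
  · by_cases x : e = lg i a
    · simp [x, hne, h0 a (by omega)]
    by_cases y : e = lg i b
    · simp [y, hne.symm, h0 b hb]
    · simpa [x, y] using a1 e
  · simp [hne, h0 a (by omega)]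
  · simp [hne.symm, h0 b hb]
  · by_cases x : e = lg i a
    · exact Or.inl x
    by_cases y : e = lg i b
    · exact Or.inr (Or.inl y)
    · exact Or.inr (Or.inr (a2 e (by simpa [x, y] using q)))
  · rw [vs_add, vs_add, a3, vs_one (Th.lg_ends i a (by omega)), vs_one (Th.lg_ends i b hb),
      pow_mul]
    ring

lemma two_of_three (S : Finset V) (f : ℕ → V) (a : ℕ) :
    ∃ r s, 3 * a ≤ r ∧ r < s ∧ s < 3 * a + 3 ∧ (f r ∈ S ↔ f s ∈ S) := by
  by_cases x : f (3 * a) ∈ S ↔ f (3 * a + 1) ∈ S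
  · exact ⟨_, _, le_rfl, by omega, by omega, x⟩
  by_cases y : f (3 * a) ∈ S ↔ f (3 * a + 2) ∈ S
  · exact ⟨_, _, le_rfl, by omega, by omega, y⟩
  · exact ⟨3 * a + 1, 3 * a + 2, by omega, by omega, by omega, by tauto⟩

theorem Thr.step (Th : Thr src tgt p pe lg o) {H : Finset E} {T : Finset V}
    (hH : Conn src tgt T H) (ho : ∀ i, ∀ a < 27, o i a ∈ T) (h1 : ∀ i, ∀ t < 54, pe i t ∉ H)
    (h2 : ∀ i, ∀ a < 27, lg i a ∉ H) (n : ℕ) (σ : ι → ℕ → ℕ)
    (hσ : ∀ i a b, a < b → b < 3 * n → σ i a < σ i b) (hlt : ∀ i, ∀ a < 3 * n, σ i a < 27) :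
    ∃ (y : E → ℤ) (τ : ι → ℕ → ℕ), (∀ e, |y e| ≤ 1) ∧ (∀ v, vs src tgt y v = 0) ∧
      (∀ e, e ∉ H → (∀ i, ∀ t < 54, e ≠ pe i t) → (∀ i, ∀ a < 27, e ≠ lg i a) → y e = 0) ∧
      ∀ i, ∀ a < n, 3 * a ≤ τ i a ∧ τ i a < 3 * a + 3 ∧ y (lg i (σ i (τ i a))) = -1 := by
  obtain ⟨S, hS⟩ := pair_flow hH
  choose r s r1 r2 r3 r4 using fun i a => two_of_three S (fun c => o i (σ i c)) a
  have b1 : ∀ x : ι × Fin n, σ x.1 (r x.1 x.2) < σ x.1 (s x.1 x.2) := fun x =>
    hσ _ _ _ (r2 _ _) (by have := r3 x.1 x.2; omega)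
  have b2 : ∀ x : ι × Fin n, σ x.1 (s x.1 x.2) < 27 := fun x =>
    hlt _ _ (by have := r3 x.1 x.2; omega)
  have b3 : ∀ i (a b : Fin n), a < b → σ i (s i a) < σ i (r i b) := fun i a b q =>
    hσ _ _ _ (by have := r3 i a; have := r1 i b; omega)
      (by have := r3 i b; have := r2 i b; omega)
  obtain ⟨y, δ, y1, y2, y3, y4⟩ := hS (ι × Fin n) (fun x => o x.1 (σ x.1 (r x.1 x.2)))
    (fun x => o x.1 (σ x.1 (s x.1 x.2))) (fun x => ho _ _ ((b1 x).trans (b2 x)))
    (fun x => ho _ _ (b2 x)) fun x => r4 _ _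
  choose D d1 d2 d3 d4 d5 using fun x : ι × Fin n => Th.dipole x.1 (b1 x) (b2 x)
  have hs : ∀ x e, D x e ≠ 0 → (∃ c, σ x.1 (r x.1 x.2) ≤ c ∧ c ≤ σ x.1 (s x.1 x.2) ∧
      e = lg x.1 c) ∨ ∃ t, 2 * σ x.1 (r x.1 x.2) ≤ t ∧ t ≤ 2 * σ x.1 (s x.1 x.2) ∧ e = pe x.1 t := by
    intro x e q
    rcases d4 x e q with a | a | ⟨t, a, b, c⟩
    exacts [Or.inl ⟨_, le_rfl, (b1 x).le, a⟩, Or.inl ⟨_, (b1 x).le, le_rfl, a⟩,
      Or.inr ⟨t, by omega, by omega, c⟩]
  have hu : ∀ x z e, D x e ≠ 0 → D z e ≠ 0 → x = z := by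
    rintro ⟨i, a⟩ ⟨j, b⟩ e q1 q2
    have c1 := b2 (i, a)
    have c2 := b2 (j, b)
    have key : i = j ∧ σ i (r i a) ≤ σ j (s j b) ∧ σ j (r j b) ≤ σ i (s i a) := by
      rcases hs _ e q1 with ⟨c, x1, x2, x3⟩ | ⟨c, x1, x2, x3⟩ <;>
        rcases hs _ e q2 with ⟨d, z1, z2, z3⟩ | ⟨d, z1, z2, z3⟩ <;> dsimp only at *
      · obtain ⟨u, w⟩ := Th.lg_inj i j c (by omega) d (by omega) (x3.symm.trans z3)
        exact ⟨u, by omega, by omega⟩
      · exact absurd (z3.symm.trans x3) (Th.pe_lg j i d (by omega) c (by omega))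
      · exact absurd (x3.symm.trans z3) (Th.pe_lg i j c (by omega) d (by omega))
      · obtain ⟨u, w⟩ := Th.pe_inj i j c (by omega) d (by omega) (x3.symm.trans z3)
        exact ⟨u, by omega, by omega⟩
    obtain ⟨rfl, u, w⟩ := key
    rcases lt_trichotomy a b with q | q | q
    · have := b3 i a b q
      omega
    · rw [q]
    · have := b3 i b a q
      omega
  have hH0 : ∀ x e, D x e ≠ 0 → e ∉ H := fun x e q => by
    have := b2 x
    rcases hs x e q with ⟨c, -, x2, rfl⟩ | ⟨c, -, x2, rfl⟩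
    exacts [h2 _ _ (by omega), h1 _ _ (by omega)]
  have hval : ∀ x e, D x e ≠ 0 → y e + ∑ z, δ z * D z e = δ x * D x e := fun x e q => by
    rw [y2 e (hH0 x e q), zero_add]
    exact sum_eq_single x (fun z _ a => mul_eq_zero_of_right _ (not_not.1 fun b =>
      a (hu z x e b q))) (by simp)
  refine ⟨fun e => y e + ∑ z, δ z * D z e,
    fun i a => if q : a < n then (if δ (i, ⟨a, q⟩) = 1 then r i a else s i a) else 0,
    fun e => ?_, fun v => ?_, fun e e1 e2 e3 => ?_, fun i a ha => ?_⟩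
  · by_cases q : ∃ x, D x e ≠ 0
    · obtain ⟨x, q⟩ := q
      beta_reduce
      rw [hval x e q]
      rcases y3 x with a | a <;> simpa [a] using d1 x e
    · have : ∀ x, D x e = 0 := fun x => not_not.1 fun a => q ⟨x, a⟩
      simpa [this] using y1 e
  · rw [vs_add, vs_sum, y4, ← sum_add_distrib]
    exact sum_eq_zero fun x _ => by rw [d5]; ring
  · have : ∀ x, D x e = 0 := fun x => not_not.1 fun q => by
      have := b2 x
      rcases hs x e q with ⟨c, -, x2, x3⟩ | ⟨c, -, x2, x3⟩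
      exacts [e3 _ _ (by omega) x3, e2 _ _ (by omega) x3]
    simp [this, y2 e e1]
  · have c1 := r1 i a
    have c2 := r2 i a
    have c3 := r3 i a
    have c4 := d2 (i, ⟨a, ha⟩)
    have c5 := d3 (i, ⟨a, ha⟩)
    simp only [dif_pos ha]
    split_ifs with q
    · exact ⟨c1, by omega, by rw [hval (i, ⟨a, ha⟩) _ (by rw [c4]; decide), c4, q]; rfl⟩
    · exact ⟨by omega, c3, by
        rw [hval (i, ⟨a, ha⟩) _ (by rw [c5]; decide), c5, (y3 _).resolve_left q]; rfl⟩

theorem Thr.three (Th : Thr src tgt p pe lg o) (hc : ∀ v, degIn src tgt univ v = 3)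
    {H : ℕ → Finset E} {T : Finset V} (hH : ∀ s < 3, Conn src tgt T (H s))
    (ho : ∀ i, ∀ a < 27, o i a ∈ T) (h1 : ∀ s i, ∀ t < 54, pe i t ∉ H s)
    (h2 : ∀ s i, ∀ a < 27, lg i a ∉ H s) :
    ∃ x : E → ℤ, (∀ e, 0 ≤ x e) ∧ (∀ v, vs src tgt x v = 9) ∧
      (∀ e, ¬ (e ∈ H 0 ∧ e ∈ H 1 ∧ e ∈ H 2) → (∀ i, ∀ t < 54, e ≠ pe i t) →
        (∀ i, ∀ a < 27, e ≠ lg i a) → 1 ≤ x e) ∧ ∀ i, ∃ a < 27, x (lg i a) = 0 := by
  obtain ⟨y0, τ0, a1, a2, a3, a4⟩ := Th.step (hH 0 (by norm_num)) ho (h1 0) (h2 0) 9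
    (fun _ a => a) (fun _ _ _ q _ => q) fun _ _ q => q
  obtain ⟨y1, τ1, b1, b2, b3, b4⟩ := Th.step (hH 1 (by norm_num)) ho (h1 1) (h2 1) 3 τ0
    (fun i a b q r => by
      have := a4 i a (by omega)
      have := a4 i b (by omega)
      omega)
    fun i a q => by
      have := a4 i a q
      omega
  obtain ⟨y2, τ2, c1, c2, c3, c4⟩ := Th.step (hH 2 (by norm_num)) ho (h1 2) (h2 2) 1
    (fun i a => τ0 i (τ1 i a))
    (fun i a b q r => by
      have := b4 i a (by omega)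
      have := b4 i b (by omega)
      have := a4 i (τ1 i a) (by omega)
      have := a4 i (τ1 i b) (by omega)
      omega)
    fun i a q => by
      have := b4 i a q
      have := a4 i (τ1 i a) (by omega)
      omega
  refine ⟨fun e => ((3 + y0 e) + y1 e) + y2 e, fun e => ?_, fun v => ?_, fun e q r s => ?_,
    fun i => ?_⟩
  · have := abs_le.1 (a1 e)
    have := abs_le.1 (b1 e)
    have := abs_le.1 (c1 e)
    beta_reduce
    omega
  · rw [vs_add, vs_add, vs_add, a2, b2, c2, vs_const hc]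
    rfl
  · have := abs_le.1 (a1 e)
    have := abs_le.1 (b1 e)
    have := abs_le.1 (c1 e)
    have : y0 e = 0 ∨ y1 e = 0 ∨ y2 e = 0 := by
      have := fun w => a3 e w r s
      have := fun w => b3 e w r s
      have := fun w => c3 e w r s
      tauto
    beta_reduce
    omega
  · have c := c4 i 0 (by norm_num)
    have b := b4 i (τ2 i 0) (by omega)
    have a := a4 i (τ1 i (τ2 i 0)) (by omega)
    exact ⟨τ0 i (τ1 i (τ2 i 0)), by omega, by
      beta_reduce at a c ⊢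
      rw [a.2.2, b.2.2, c.2.2]
      rfl⟩

end Pool.Agent.P.MP_e59a69_co
end

-- part Pool.Agent.P.MP_e59a69_co.QTutte
section

/-! A perfect matching inside the support of a weighting with large odd cuts. -/

open Finset

set_option linter.unusedSectionVars false

namespace Pool.Agent.P.MP_e59a69_co

variable {V E : Type} [Fintype V] [Fintype E] [DecidableEq V] [DecidableEq E]

lemma sum_vs (src tgt : E → V) (x : E → ℤ) (X : Finset V) :
    ∑ v ∈ X, vs src tgt x v =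
      ∑ e, ((if src e ∈ X then x e else 0) + if tgt e ∈ X then x e else 0) := by
  unfold vs
  rw [sum_comm]
  exact sum_congr rfl fun e _ => by simp [sum_add_distrib]

lemma qt_mate (src tgt : E → V) (A : Finset E) (μ : V → V) (h1 : ∀ v, μ (μ v) = v)
    (h2 : ∀ v, μ v ≠ v) (h3 : ∀ v, ∃ e ∈ A, Ends src tgt e v (μ v)) :
    ∃ M ⊆ A, ∀ v, degIn src tgt M v = 1 := by
  choose ed ha hb using h3
  let od : V → ℕ := fun v => (Fintype.equivFin V v : ℕ)
  have hod : ∀ u v, od u = od v → u = v := fun u v h =>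
    (Fintype.equivFin V).injective (Fin.ext h)
  refine ⟨image ed {v | od v < od (μ v)}, fun e he => ?_, fun v => ?_⟩
  · obtain ⟨v, -, rfl⟩ := mem_image.1 he
    exact ha v
  obtain ⟨w, w1, w2⟩ : ∃ w, od w < od (μ w) ∧ (w = v ∨ μ w = v) := by
    rcases lt_trichotomy (od v) (od (μ v)) with a | a | a
    · exact ⟨v, a, Or.inl rfl⟩
    · exact absurd (hod _ _ a).symm (h2 v)
    · exact ⟨μ v, by rwa [h1], Or.inr (h1 v)⟩
  have hw : ed w ∈ image ed {v | od v < od (μ v)} :=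
    mem_image_of_mem _ (mem_filter.2 ⟨mem_univ _, w1⟩)
  have hu : ∀ e ∈ image ed {v | od v < od (μ v)}, src e = v ∨ tgt e = v → e = ed w := by
    intro e he hv
    obtain ⟨u, hu, rfl⟩ := mem_image.1 he
    have u1 := (mem_filter.1 hu).2
    have u2 : u = v ∨ μ u = v := by
      rcases hb u with ⟨a, b⟩ | ⟨a, b⟩ <;> rw [a, b] at hv <;> tauto
    congr 1
    rcases u2 with a | a <;> rcases w2 with b | b
    · rw [a, b]
    · rw [a, ← b, h1] at u1
      omega
    · rw [b, ← a, h1] at w1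
      omega
    · rw [← h1 u, a, ← b, h1]
  have hne : src (ed w) ≠ tgt (ed w) := by
    rcases hb w with ⟨a, b⟩ | ⟨a, b⟩ <;> rw [a, b]
    exacts [(h2 w).symm, h2 w]
  have hv : src (ed w) = v ∨ tgt (ed w) = v := by
    rcases hb w with ⟨a, b⟩ | ⟨a, b⟩ <;> rw [a, b] <;> tauto
  unfold degIn
  rcases hv with a | a
  · rw [eq_singleton_iff_unique_mem.2 ⟨mem_filter.2 ⟨hw, a⟩, fun e he =>
      hu e (mem_filter.1 he).1 (Or.inl (mem_filter.1 he).2)⟩, filter_eq_empty_iff.2 fun e he b =>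
      hne (a.trans (hu e he (Or.inr b) ▸ b).symm)]
    simp
  · rw [filter_eq_empty_iff.2 fun e he b => hne ((hu e he (Or.inl b) ▸ b).trans a.symm),
      eq_singleton_iff_unique_mem.2 ⟨mem_filter.2 ⟨hw, a⟩, fun e he =>
      hu e (mem_filter.1 he).1 (Or.inr (mem_filter.1 he).2)⟩]
    simp

theorem tut (src tgt : E → V) (x : E → ℤ) (n : ℤ) (hn : 0 < n) (hx : ∀ e, 0 ≤ x e)
    (hv : ∀ v, vs src tgt x v ≤ n)
    (hodd : ∀ X : Finset V, Odd #X → n ≤ ∑ e with Cr src tgt X e, x e) :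
    ∃ M : Finset E, (∀ v, degIn src tgt M v = 1) ∧ ∀ e ∈ M, x e ≠ 0 := by
  classical
  let A : Finset E := {e | x e ≠ 0}
  obtain ⟨M, hM⟩ : ∃ M : (spanGr src tgt A).Subgraph, M.IsPerfectMatching := by
    refine SimpleGraph.tutte.2 fun u hu => ?_
    unfold SimpleGraph.IsTutteViolator at hu
    set G' := ((⊤ : (spanGr src tgt A).Subgraph).deleteVerts u).coe with hG
    have hmem : ∀ v, v ∉ u → v ∈ ((⊤ : (spanGr src tgt A).Subgraph).deleteVerts u).verts :=
      fun v h => by simpa using h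
    let X : G'.ConnectedComponent → Finset V := fun c =>
      {v | ∃ h : v ∉ u, G'.connectedComponentMk ⟨v, hmem v h⟩ = c}
    have hX : ∀ c v, v ∈ X c ↔ ∃ h : v ∉ u, G'.connectedComponentMk ⟨v, hmem v h⟩ = c :=
      fun c v => by simp [X]
    have hc : ∀ c, c.supp.ncard = #(X c) := fun c => by
      rw [← Set.ncard_image_of_injective _ Subtype.val_injective, ← Set.ncard_coe_finset]
      congr 1
      ext v
      rw [mem_coe, hX]
      constructor
      · rintro ⟨w, hw, rfl⟩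
        exact ⟨(show w.1 ∈ Set.univ \ u from w.2).2, hw⟩
      · rintro ⟨h, hw⟩
        exact ⟨_, hw, rfl⟩
    let O : Finset G'.ConnectedComponent := G'.oddComponents.toFinset
    have h1 : ∑ _c ∈ O, n ≤ ∑ c ∈ O, ∑ e with Cr src tgt (X c) e, x e :=
      sum_le_sum fun c hc' => hodd _ (by
        rw [← hc]
        exact (Set.mem_toFinset (s := G'.oddComponents)).1 hc')
    have h2 : ∑ c ∈ O, ∑ e with Cr src tgt (X c) e, x e ≤ ∑ v ∈ u.toFinset, vs src tgt x v := by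
      rw [sum_vs]
      simp only [sum_filter]
      rw [sum_comm]
      refine sum_le_sum fun e _ => ?_
      have h0 := hx e
      have hone : ∀ w, (∀ c, Cr src tgt (X c) e → w ∈ X c) →
          ∑ c ∈ O, (if Cr src tgt (X c) e then x e else 0) ≤ x e := fun w hw => by
        rw [← sum_filter, sum_const, nsmul_eq_mul]
        have : #{c ∈ O | Cr src tgt (X c) e} ≤ 1 := card_le_one.2 fun c a d b => by
          obtain ⟨_, p⟩ := (hX _ _).1 (hw c (mem_filter.1 a).2)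
          obtain ⟨_, q⟩ := (hX _ _).1 (hw d (mem_filter.1 b).2)
          exact p.symm.trans q
        have : (#{c ∈ O | Cr src tgt (X c) e} : ℤ) ≤ 1 := by exact_mod_cast this
        nlinarith
      have hnot : ∀ c w, w ∈ u → w ∉ X c := fun c w a b => ((hX _ _).1 b).1 a
      simp only [Set.mem_toFinset]
      by_cases a : src e ∈ u
      · refine (hone (tgt e) fun c q => ?_).trans (by rw [if_pos a]; split_ifs <;> omega)
        have := hnot c _ a
        tauto
      by_cases b : tgt e ∈ u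
      · refine (hone (src e) fun c q => ?_).trans (by rw [if_neg a, if_pos b]; omega)
        have := hnot c _ b
        tauto
      rw [if_neg a, if_neg b]
      refine le_of_eq ((sum_eq_zero fun c _ => ?_).trans (add_zero _).symm)
      by_cases d : x e = 0
      · simp [d]
      have hq : G'.connectedComponentMk ⟨src e, hmem _ a⟩ =
          G'.connectedComponentMk ⟨tgt e, hmem _ b⟩ := by
        by_cases q : src e = tgt e
        · congr 2
        · refine SimpleGraph.ConnectedComponent.connectedComponentMk_eq_of_adj ?_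
          simp only [hG, SimpleGraph.Subgraph.coe_adj, SimpleGraph.Subgraph.deleteVerts_adj,
            SimpleGraph.Subgraph.verts_top, Set.mem_univ, SimpleGraph.Subgraph.top_adj, true_and]
          exact ⟨a, b, (SimpleGraph.fromRel_adj _ _ _).2
            ⟨q, Or.inl ⟨e, mem_filter.2 ⟨mem_univ _, d⟩, rfl, rfl⟩⟩⟩
      refine if_neg (not_not.2 ?_)
      rw [hX, hX]
      exact ⟨fun ⟨_, q⟩ => ⟨b, hq ▸ q⟩, fun ⟨_, q⟩ => ⟨a, hq.symm ▸ q⟩⟩
    have h3 : ∑ v ∈ u.toFinset, vs src tgt x v ≤ ∑ _v ∈ u.toFinset, n := sum_le_sum fun v _ => hv v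
    rw [Set.ncard_eq_toFinset_card', Set.ncard_eq_toFinset_card'] at hu
    have h4 : (#u.toFinset : ℤ) < #O := by exact_mod_cast hu
    rw [sum_const, nsmul_eq_mul] at h1 h3
    nlinarith
  rw [SimpleGraph.Subgraph.isPerfectMatching_iff] at hM
  choose μ h1 h2 using hM
  obtain ⟨M', a, b⟩ := qt_mate src tgt A μ (fun v => (h2 _ _ (h1 v).symm).symm)
    (fun v => (h1 v).ne.symm) fun v => by
      obtain ⟨-, ⟨e, p, q⟩ | ⟨e, p, q⟩⟩ := (SimpleGraph.fromRel_adj _ _ _).1 (h1 v).adj_sub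
      exacts [⟨e, p, Or.inl q⟩, ⟨e, p, Or.inr q⟩]
  exact ⟨M', b, fun e he => (mem_filter.1 (a he)).2⟩

/-- an acyclic set has a proper colouring -/
lemma forest_sign (src tgt : E → V) (hc : ∀ v, degIn src tgt univ v = 3) (X : Finset V)
    (hX : ∀ Y ⊆ X, Y.Nonempty → #Y + 2 ≤ ct src tgt univ Y) :
    ∃ χ : V → ℤ, (∀ v, χ v = 1 ∨ χ v = -1) ∧
      ∀ e, Ins src tgt X e → χ (src e) + χ (tgt e) = 0 := by
  induction X using Finset.strongInduction with
  | H X ih =>
  rcases X.eq_empty_or_nonempty with rfl | hne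
  · exact ⟨fun _ => 1, fun _ => Or.inl rfl, fun e he => absurd he.1 (notMem_empty _)⟩
  have h1 := hand hc X
  have h2 := hX X (Subset.refl _) hne
  have h3 : ∑ v ∈ X, degIn src tgt {e | Ins src tgt X e} v = 2 * #{e | Ins src tgt X e} := by
    unfold degIn
    rw [sum_add_distrib, ← card_eq_sum_card_fiberwise (f := src) fun e he => (mem_filter.1 he).2.1,
      ← card_eq_sum_card_fiberwise (f := tgt) fun e he => (mem_filter.1 he).2.2, two_mul]
  obtain ⟨v, hv, h4⟩ := exists_lt_of_sum_lt (s := X)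
    (f := fun v => degIn src tgt {e | Ins src tgt X e} v) (g := fun _ => 2) (by
      rw [h3, sum_const, smul_eq_mul]
      omega)
  obtain ⟨χ, c1, c2⟩ := ih (X.erase v) (erase_ssubset hv)
    fun Y hY => hX Y (hY.trans (erase_subset _ _))
  unfold degIn at h4
  have hs : ∀ e, Ins src tgt X e → src e = v →
      e ∈ ({e ∈ ({e | Ins src tgt X e} : Finset E) | src e = v} : Finset E) :=
    fun e a b => mem_filter.2 ⟨mem_filter.2 ⟨mem_univ _, a⟩, b⟩
  have ht : ∀ e, Ins src tgt X e → tgt e = v →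
      e ∈ ({e ∈ ({e | Ins src tgt X e} : Finset E) | tgt e = v} : Finset E) :=
    fun e a b => mem_filter.2 ⟨mem_filter.2 ⟨mem_univ _, a⟩, b⟩
  have hst : ∀ e f, Ins src tgt X e → Ins src tgt X f → src e = v → tgt f ≠ v := fun e f a b c d => by
    have := card_pos.2 ⟨_, hs e a c⟩
    have := card_pos.2 ⟨_, ht f b d⟩
    omega
  obtain ⟨w, hw⟩ : ∃ w, ∀ e, Ins src tgt X e →
      (src e = v → tgt e = w) ∧ (tgt e = v → src e = w) := by
    by_cases a : ∃ e, Ins src tgt X e ∧ src e = v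
    · obtain ⟨e, a, b⟩ := a
      exact ⟨tgt e, fun f c => ⟨fun d => congrArg tgt (card_le_one.1 (by omega) _ (hs f c d) _
        (hs e a b)), fun d => absurd d (hst e f a c b)⟩⟩
    by_cases b : ∃ e, Ins src tgt X e ∧ tgt e = v
    · obtain ⟨e, b, b'⟩ := b
      exact ⟨src e, fun f c => ⟨fun d => absurd ⟨f, c, d⟩ a, fun d => congrArg src
        (card_le_one.1 (by omega) _ (ht f c d) _ (ht e b b'))⟩⟩
    · exact ⟨v, fun f c => ⟨fun d => absurd ⟨f, c, d⟩ a, fun d => absurd ⟨f, c, d⟩ b⟩⟩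
  refine ⟨Function.update χ v (-χ w), fun u => ?_, fun e he => ?_⟩
  · by_cases a : u = v
    · rw [a, Function.update_self]
      have := c1 w
      omega
    · rw [Function.update_of_ne a]
      exact c1 u
  · by_cases a : src e = v
    · rw [Function.update_of_ne (hst e e he he a), a, Function.update_self, (hw e he).1 a]
      ring
    by_cases b : tgt e = v
    · rw [Function.update_of_ne a, b, Function.update_self, (hw e he).2 b]
      ring
    · rw [Function.update_of_ne a, Function.update_of_ne b]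
      exact c2 e ⟨mem_erase.2 ⟨a, he.1⟩, mem_erase.2 ⟨b, he.2⟩⟩

/-- the cut of an odd acyclic set has full weight -/
lemma forest_odd (src tgt : E → V) (hc : ∀ v, degIn src tgt univ v = 3) (X : Finset V)
    (hX : ∀ Y ⊆ X, Y.Nonempty → #Y + 2 ≤ ct src tgt univ Y) (x : E → ℤ) (n : ℤ) (hn : 0 ≤ n)
    (hx : ∀ e, 0 ≤ x e) (hv : ∀ v, vs src tgt x v = n) (ho : Odd #X) :
    n ≤ ∑ e with Cr src tgt X e, x e := by
  obtain ⟨χ, c1, c2⟩ := forest_sign src tgt hc X hX
  have h1 : Odd (∑ v ∈ X, χ v) := by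
    have e1 : Even (∑ v ∈ X, (χ v - 1)) := even_sum _ fun v _ => by
      rcases c1 v with a | a <;> rw [a] <;> decide
    rw [sum_sub_distrib, sum_const, nsmul_eq_mul, mul_one] at e1
    have := e1.add_odd (ho.natCast (R := ℤ))
    rwa [sub_add_cancel] at this
  have h2 : (∑ v ∈ X, χ v) * n = ∑ e, ((if src e ∈ X then χ (src e) * x e else 0) +
      if tgt e ∈ X then χ (tgt e) * x e else 0) := by
    rw [sum_mul, sum_congr rfl fun v _ => by rw [← hv v]]
    unfold vs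
    simp only [mul_sum]
    rw [sum_comm]
    refine sum_congr rfl fun e _ => ?_
    simp only [mul_add, mul_ite, mul_zero, sum_add_distrib, sum_ite_eq]
  have h3 : |(∑ v ∈ X, χ v) * n| ≤ ∑ e with Cr src tgt X e, x e := by
    rw [h2, sum_filter]
    refine (abs_sum_le_sum_abs _ _).trans (sum_le_sum fun e _ => ?_)
    have := hx e
    by_cases a : src e ∈ X <;> by_cases b : tgt e ∈ X
    · rw [if_pos a, if_pos b, ← add_mul, c2 e ⟨a, b⟩]
      simp [a, b]
    · rcases c1 (src e) with d | d <;> simp [a, b, d, abs_of_nonneg this]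
    · rcases c1 (tgt e) with d | d <;> simp [a, b, d, abs_of_nonneg this]
    · simp [a, b]
  rw [abs_mul, abs_of_nonneg hn] at h3
  have h4 : 1 ≤ |∑ v ∈ X, χ v| := Int.one_le_abs fun q => by
    rw [q] at h1
    exact absurd h1 (by decide)
  nlinarith

/-- it is enough to look at the cuts with a cycle on both sides -/
theorem tut_cyc (src tgt : E → V) (hc : ∀ v, degIn src tgt univ v = 3) (x : E → ℤ) (n : ℤ)
    (hn : 0 < n) (hx : ∀ e, 0 ≤ x e) (hv : ∀ v, vs src tgt x v = n)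
    (hcyc : ∀ X : Finset V, Odd #X → HasCycleIn src tgt X → HasCycleIn src tgt Xᶜ →
      n ≤ ∑ e with Cr src tgt X e, x e) :
    ∃ M : Finset E, (∀ v, degIn src tgt M v = 1) ∧ ∀ e ∈ M, x e ≠ 0 := by
  refine tut src tgt x n hn hx (fun v => (hv v).le) fun X ho => ?_
  have key : ∀ Y : Finset V, Odd #Y → ¬ HasCycleIn src tgt Y → n ≤ ∑ e with Cr src tgt Y e, x e :=
    fun Y a b => forest_odd src tgt hc Y
      (fun Z hZ hne => sparse src tgt hc Z hne fun q => b (q.mono hZ)) x n hn.le hx hv a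
  by_cases a : HasCycleIn src tgt X
  · by_cases b : HasCycleIn src tgt Xᶜ
    · exact hcyc X ho a b
    · have h1 := hand hc (univ : Finset V)
      have h2 : ct src tgt univ (univ : Finset V) = 0 := by simp [ct]
      have h3 := card_add_card_compl X
      rw [card_univ] at h1
      obtain ⟨r, hr⟩ := ho
      refine (key Xᶜ (Nat.odd_iff.2 (by omega)) b).trans (le_of_eq ?_)
      exact sum_congr (filter_congr fun e _ => by simp only [Cr, mem_compl]; tauto) fun _ _ => rfl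
  · exact key X ho a

end Pool.Agent.P.MP_e59a69_co
end

-- part Pool.Agent.P.MP_e59a69_co.QMain
section

/-! A perfect matching that contains an edge of each of many disjoint long paths. -/

open Finset

set_option linter.unusedSectionVars false

namespace Pool.Agent.P.MP_e59a69_co

variable {V E ι : Type} [Fintype V] [Fintype E] [DecidableEq V] [DecidableEq E] [Fintype ι]
  [DecidableEq ι]
variable {src tgt : E → V} {k h : ℕ}

theorem QH.windows0 (H : QH src tgt k) (p : ι → ℕ → V) (pe lg : ι → ℕ → E) (o : ι → ℕ → V)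
    (hp : ∀ i, ∀ s ≤ 54, ∀ t ≤ 54, p i s = p i t → s = t)
    (he : ∀ i, ∀ t < 54, Ends src tgt (pe i t) (p i t) (p i (t + 1)))
    {W J : ι → Finset V} {hub : ι → E → Finset V} (hm : ∀ i, ∀ s ≤ 54, p i s ∈ W i)
    (hl : ∀ i, ∀ a < 27, Ends src tgt (lg i a) (p i (2 * a + 1)) (o i a) ∧
      o i a ∉ W i ∧ ∀ f, src f = p i (2 * a + 1) ∨ tgt f = p i (2 * a + 1) →
        f = pe i (2 * a) ∨ f = pe i (2 * a + 1) ∨ f = lg i a)
    (F : Fam src tgt k h W J hub) (h4 : 4 ≤ h)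
    (hcl : ∀ X : Finset V, HasCycleIn src tgt X → HasCycleIn src tgt Xᶜ →
      9 ≤ #{e | Cr src tgt X e ∧ ∀ i, ¬ Ins src tgt (J i) e}) :
    ∃ M : Finset E, (∀ v, degIn src tgt M v = 1) ∧ ∀ i, ∃ t < 54, pe i t ∈ M := by
  have p1 : ∀ i, ∀ t < 54, Ins src tgt (W i) (pe i t) := fun i t q => by
    rcases he i t q with ⟨y, z⟩ | ⟨y, z⟩
    exacts [⟨y ▸ hm _ _ (by omega), z ▸ hm _ _ (by omega)⟩,
      ⟨y ▸ hm _ _ (by omega), z ▸ hm _ _ (by omega)⟩]
  have l1 : ∀ i, ∀ a < 27, Cr src tgt (W i) (lg i a) := fun i a q => by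
    obtain ⟨x, y, -⟩ := hl i a q
    have z := hm i (2 * a + 1) (by omega)
    rcases x with ⟨u, w⟩ | ⟨u, w⟩ <;> simp only [Cr, u, w] <;> tauto
  have l2 : ∀ i, ∀ a < 27, Ins src tgt (J i) (lg i a) := fun i a q =>
    F.ins (by have := l1 i a q; tauto)
  have l3 : ∀ i, ∀ a < 27, o i a ∈ hub i (lg i a) := fun i a q => by
    obtain ⟨x, y, -⟩ := hl i a q
    rcases F.ends (l1 i a q) with ⟨u, w⟩ | ⟨u, w⟩ <;> rcases x with ⟨r, s⟩ | ⟨r, s⟩
    exacts [s ▸ w, absurd (r ▸ u) y, absurd (s ▸ w) y, r ▸ u]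
  have Th : Thr src tgt p pe lg o := by
    refine ⟨he, fun i a q => (hl i a q).1, fun i j t q u r s => ?_, fun i j a q b r s => ?_,
      fun i j t q a r s => ?_⟩
    · obtain rfl := F.uniq (F.IJ i (p1 i t q).1) (s ▸ F.IJ j (p1 j u r).1)
      exact ⟨rfl, path_inj (hp i) (he i) q r s⟩
    · obtain rfl := F.uniq (l2 i a q).1 (s ▸ (l2 j b r).1)
      obtain ⟨x, y, -⟩ := hl i a q
      obtain ⟨z, w, -⟩ := hl i b r
      have c := hm i (2 * b + 1) (by omega)
      have d : p i (2 * a + 1) = p i (2 * b + 1) := by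
        rw [s] at x
        rcases x with ⟨x1, x2⟩ | ⟨x1, x2⟩ <;> rcases z with ⟨z1, z2⟩ | ⟨z1, z2⟩
        exacts [x1.symm.trans z1, absurd (x2.symm.trans z2 ▸ c) y, absurd (x1.symm.trans z1 ▸ c) y,
          x2.symm.trans z2]
      have := hp i _ (by omega) _ (by omega) d
      exact ⟨rfl, by omega⟩
    · obtain rfl := F.uniq (F.IJ i (p1 i t q).1) (s ▸ (l2 j a r).1)
      exact l1 i a r (s ▸ iff_of_true (p1 i t q).1 (p1 i t q).2)
  obtain ⟨Hs, s1, s2, s3⟩ := H.three_conn F h4 hcl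
  obtain ⟨x, x1, x2, x3, x4⟩ := Th.three H.cub s2
    (fun i a q => mem_filter.2 ⟨mem_univ _, i, _, l3 i a q⟩)
    (fun s i t q r => (s1 s _ r i).1 (p1 i t q).1)
    fun s i a q r => l1 i a q (iff_of_false (s1 s _ r i).1 (s1 s _ r i).2)
  obtain ⟨M, m1, m2⟩ := tut_cyc src tgt H.cub x 9 (by norm_num) x1 x2 fun X _ a b => by
    have c : (9 : ℤ) ≤ #{e | Cr src tgt X e ∧ ∀ i, ¬ Ins src tgt (J i) e} := by
      exact_mod_cast hcl X a b
    rw [card_eq_sum_ones, Nat.cast_sum] at c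
    refine c.trans ((sum_le_sum fun e q => ?_).trans (sum_le_sum_of_subset_of_nonneg
      (fun e q => mem_filter.2 ⟨mem_univ _, (mem_filter.1 q).2.1⟩) fun e _ _ => x1 e))
    have r := (mem_filter.1 q).2.2
    exact x3 e (s3 e r) (fun i t u w => r i (w ▸ ⟨F.IJ i (p1 i t u).1, F.IJ i (p1 i t u).2⟩))
      fun i a u w => r i (w ▸ l2 i a u)
  refine ⟨M, m1, fun i => ?_⟩
  obtain ⟨a, a1, a2⟩ := x4 i
  obtain ⟨f, f1, f2⟩ : ∃ f ∈ M, src f = p i (2 * a + 1) ∨ tgt f = p i (2 * a + 1) := by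
    have := m1 (p i (2 * a + 1))
    unfold degIn at this
    by_cases q : 0 < #{e ∈ M | src e = p i (2 * a + 1)}
    · obtain ⟨f, r⟩ := card_pos.1 q
      exact ⟨f, (mem_filter.1 r).1, Or.inl (mem_filter.1 r).2⟩
    · obtain ⟨f, r⟩ := card_pos.1 (show 0 < #{e ∈ M | tgt e = p i (2 * a + 1)} by omega)
      exact ⟨f, (mem_filter.1 r).1, Or.inr (mem_filter.1 r).2⟩
  rcases (hl i a a1).2.2 f f2 with q | q | q
  · exact ⟨_, by omega, q ▸ f1⟩
  · exact ⟨_, by omega, q ▸ f1⟩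
  · exact absurd a2 (q ▸ m2 f f1)

theorem QH.windows (H : QH src tgt k) (hk : 55 < k) (p : ι → ℕ → V) (pe : ι → ℕ → E)
    (hp : ∀ i, ∀ s ≤ 54, ∀ t ≤ 54, p i s = p i t → s = t)
    (he : ∀ i, ∀ t < 54, Ends src tgt (pe i t) (p i t) (p i (t + 1)))
    {J : ι → Finset V} {hub : ι → E → Finset V}
    (F : Fam src tgt k h (fun i => image (p i) (range 55)) J hub) (h4 : 4 ≤ h)
    (hcl : ∀ X : Finset V, HasCycleIn src tgt X → HasCycleIn src tgt Xᶜ →
      9 ≤ #{e | Cr src tgt X e ∧ ∀ i, ¬ Ins src tgt (J i) e}) :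
    ∃ M : Finset E, (∀ v, degIn src tgt M v = 1) ∧ ∀ i, ∃ t < 54, pe i t ∈ M := by
  have hl : ∀ i a, ∃ (g : E) (o : V), a < 27 → Ends src tgt g (p i (2 * a + 1)) o ∧
      o ∉ image (p i) (range 55) ∧ ∀ f, src f = p i (2 * a + 1) ∨ tgt f = p i (2 * a + 1) →
        f = pe i (2 * a) ∨ f = pe i (2 * a + 1) ∨ f = g := fun i a => by
    by_cases q : a < 27
    · obtain ⟨g, o, r⟩ := H.leg (p i) (pe i) 54 hk (hp i) (he i) (2 * a) (by omega)
      exact ⟨g, o, fun _ => r⟩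
    · exact ⟨pe i 0, p i 0, fun r => absurd r q⟩
  choose lg o hl using hl
  exact H.windows0 p pe lg o hp he
    (fun i s a => mem_image_of_mem _ (mem_range.2 (by omega))) hl F h4 hcl

theorem pmt_core {m : ℕ → ℕ} (hm : Sz m) (h0 : m 0 = 55) {N : ℕ} (hN : 4 * (m 10 * 4 ^ m 10) ≤ N)
    (H : QH src tgt k) (hk : m 10 < k) (p : ι → ℕ → V) (pe : ι → ℕ → E)
    (hp : ∀ i j, ∀ s < 10 * N + 55, ∀ t < 10 * N + 55, p i s = p j t → i = j ∧ s = t)
    (he : ∀ i t, t + 1 < 10 * N + 55 → Ends src tgt (pe i t) (p i t) (p i (t + 1))) :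
    ∃ M : Finset E, (∀ v, degIn src tgt M v = 1) ∧
      ∀ i, ∃ t, t + 1 < 10 * N + 55 ∧ pe i t ∈ M := by
  have h55 : 55 ≤ m 10 := h0 ▸ hm.mono (Nat.zero_le 10)
  have hw : ∀ i b, ∃ (I : ℕ → Finset V) (hub : ℕ → E → Finset V), b < 10 * N →
      Tower src tgt m I hub ∧ I 0 = image (fun t => p i (b + t)) (range 55) := fun i b => by
    by_cases q : b < 10 * N
    · obtain ⟨I, hub, r⟩ := H.exists_tower hm hk (H.path_tight (fun t => p i (b + t))
        (fun t => pe i (b + t)) 54 (fun s x t y z => by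
          have := (hp i i _ (by omega) _ (by omega) z).2
          omega) fun t x => he i (b + t) (by omega))
        (card_image_le.trans (by rw [h0, card_range]))
      exact ⟨I, hub, fun _ => r⟩
    · exact ⟨fun _ => ∅, fun _ _ => ∅, fun r => absurd r q⟩
  choose I hub hI using hw
  have hB : ∀ v, ∃ B : Finset V, ∀ i, ∀ b < 10 * N, p i b = v → B = I i b 10 := fun v => by
    by_cases q : ∃ i, ∃ b < 10 * N, p i b = v
    · obtain ⟨i, b, q, r⟩ := q
      refine ⟨I i b 10, fun j c x y => ?_⟩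
      obtain ⟨rfl, rfl⟩ := hp i j b (by omega) c (by omega) (r.trans y.symm)
      rfl
    · exact ⟨∅, fun i b x y => absurd ⟨i, b, x, y⟩ q⟩
  choose B hB using hB
  have hr : ∀ (a : Fin 10) b, b ∈ Ico (a * N) (a * N + N) → b < 10 * N := fun a b q => by
    have := (mem_Ico.1 q).2
    have := Nat.mul_le_mul_right N (show (a : ℕ) + 1 ≤ 10 from a.2)
    rw [add_mul] at this
    omega
  obtain ⟨s, s1, s2⟩ := H.far (M := m 10) (by omega) hk
    (fun c : ι × Fin 10 => image (p c.1) (Ico (c.2 * N) (c.2 * N + N)))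
    (fun c d q => disjoint_left.2 fun v x y => by
      obtain ⟨b, b1, b2⟩ := mem_image.1 x
      obtain ⟨e, e1, e2⟩ := mem_image.1 y
      have u := hr _ _ b1
      have w := hr _ _ e1
      obtain ⟨r, rfl⟩ := hp _ _ b (by omega) e (by omega) (b2.trans e2.symm)
      rw [mem_Ico] at b1 e1
      refine q (Prod.ext r (Fin.ext (le_antisymm ?_ ?_))) <;> refine Nat.le_of_lt_succ
        (Nat.lt_of_mul_lt_mul_right (a := N) ?_) <;> rw [Nat.succ_mul] <;> omega)
    (fun c => by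
      rw [card_image_of_injOn fun b x e y z => (hp _ _ b (by have := hr _ _ x; omega) e
        (by have := hr _ _ y; omega) z).2, Nat.card_Ico]
      omega) B
    (fun c v x => by
      obtain ⟨b, b1, rfl⟩ := mem_image.1 x
      obtain ⟨T, e⟩ := hI c.1 b (hr _ _ b1)
      rw [hB _ c.1 b (hr _ _ b1) rfl]
      exact ⟨T.sub (Nat.zero_le _) le_rfl (e ▸ mem_image.2 ⟨0, by simp, rfl⟩),
        T.tight _ le_rfl, T.card _ le_rfl⟩)
  choose b b1 b2 using fun c => mem_image.1 (s1 c)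
  have b3 : ∀ c, b c < 10 * N := fun c => hr _ _ (b1 c)
  have hd : ∀ c d, c ≠ d → Disjoint (I c.1 (b c) 10) (I d.1 (b d) 10) := fun c d q => by
    rw [← hB _ c.1 _ (b3 c) (b2 c), ← hB _ d.1 _ (b3 d) (b2 d)]
    exact s2 c d q
  obtain ⟨sel, hsel⟩ := H.cl hm hk (fun c => (hI c.1 (b c) (b3 c)).1) hd
  have F := Tower.fam hm hk (fun i => (hI i (b (i, sel i)) (b3 _)).1)
    (fun i j q => hd (i, sel i) (j, sel j) fun r => q (congrArg Prod.fst r)) (j := 0) (by norm_num)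
  rw [funext fun i => (hI i (b (i, sel i)) (b3 _)).2] at F
  obtain ⟨M, m1, m2⟩ := H.windows (by omega) (fun i t => p i (b (i, sel i) + t))
    (fun i t => pe i (b (i, sel i) + t))
    (fun i s x t y z => by
      have := b3 (i, sel i)
      have := (hp i i _ (by omega) _ (by omega) z).2
      omega)
    (fun i t x => he i _ (by have := b3 (i, sel i); omega)) F (by unfold hf; omega) hsel
  refine ⟨M, m1, fun i => ?_⟩
  obtain ⟨t, t1, t2⟩ := m2 i
  exact ⟨_, by have := b3 (i, sel i); omega, t2⟩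

/-- a perfect matching with an edge on each of a family of disjoint long paths -/
theorem pmt : ∃ L k : ℕ, 2 ≤ L ∧ ∀ (V E ι : Type) [Fintype V] [Fintype E] [DecidableEq V]
    [DecidableEq E] [Fintype ι] (src tgt : E → V), QH src tgt k →
    ∀ (p : ι → ℕ → V) (pe : ι → ℕ → E),
    (∀ i j, ∀ s < L, ∀ t < L, p i s = p j t → i = j ∧ s = t) →
    (∀ i t, t + 1 < L → Ends src tgt (pe i t) (p i t) (p i (t + 1))) →
    ∃ M : Finset E, (∀ v, degIn src tgt M v = 1) ∧ ∀ i, ∃ t, t + 1 < L ∧ pe i t ∈ M := by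
  obtain ⟨m, hm, h0⟩ : ∃ m : ℕ → ℕ, Sz m ∧ m 0 = 55 :=
    ⟨fun j => Nat.rec 55 (fun _ x => x + (x + 2) * hf x) j, fun _ => le_rfl, rfl⟩
  refine ⟨10 * (4 * (m 10 * 4 ^ m 10)) + 55, m 10 + 1, by omega, fun V E ι _ _ _ _ _ src tgt H => ?_⟩
  classical
  exact pmt_core hm h0 le_rfl H (Nat.lt_succ_self _)

end Pool.Agent.P.MP_e59a69_co
end

-- part Pool.Agent.P.MP_e59a69_co.KPmt
section

/-! A perfect matching that meets given disjoint long paths. -/

open Finset Function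

namespace Pool.Agent.P.MP_e59a69_co

theorem ktut {V E : Type} [Fintype V] [Fintype E] [DecidableEq V] [DecidableEq E]
    (s t : E → V) (x : E → ℕ) (n0 : ℕ) (hn : 0 < n0) (_hloop : ∀ e, s e ≠ t e)
    (hx : ∀ v, ∑ e with s e = v, x e + ∑ e with t e = v, x e = n0)
    (hodd : ∀ X : Finset V, Odd #X → n0 ≤ ∑ e with ¬ (s e ∈ X ↔ t e ∈ X), x e) :
    ∃ M : Finset E, (∀ e ∈ M, 0 < x e) ∧ ∀ v, degIn s t M v = 1 := by
  obtain ⟨M, h1, h2⟩ := tut s t (fun e => x e) n0 (by exact_mod_cast hn)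
    (fun e => Int.natCast_nonneg _)
    (fun v => by
      unfold vs
      rw [sum_add_distrib, ← sum_filter, ← sum_filter]
      exact_mod_cast (hx v).le)
    fun X hX => by exact_mod_cast hodd X hX
  exact ⟨M, fun e he => Nat.pos_of_ne_zero fun q => h2 e he (by simp [q]), h1⟩

theorem kpmt : ∃ L k : ℕ, ∀ (V E : Type) [Fintype V] [Fintype E] [DecidableEq V]
    [DecidableEq E] (s t : E → V), (∀ v, degIn s t univ v = 3) →
    (∀ X : Finset V, HasCycleIn s t X → k ≤ #X) →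
    (∀ X : Finset V, HasCycleIn s t X → HasCycleIn s t Xᶜ → k ≤ #{e | ¬ (s e ∈ X ↔ t e ∈ X)}) →
    ∀ (n : ℕ) (p : Fin n → ℕ → V) (pe : Fin n → ℕ → E),
      (∀ i a j b, a < L → b < L → p i a = p j b → i = j ∧ a = b) →
      (∀ i a, a + 1 < L → Jn s t (pe i a) (p i a) (p i (a + 1))) →
      ∃ M : Finset E, (∀ v, degIn s t M v = 1) ∧ ∀ i, ∃ a, a + 1 < L ∧ pe i a ∈ M := by
  obtain ⟨L, k, -, h⟩ := pmt
  exact ⟨L, k, fun V E _ _ _ _ s t h1 h2 h3 n p pe h4 h5 => h V E (Fin n) s t ⟨h1, h2, h3⟩ p pe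
    (fun i j a ha b hb => h4 i a j b ha hb) fun i a ha => (h5 i a ha).imp_right And.symm⟩

end Pool.Agent.P.MP_e59a69_co
end

-- part Pool.Agent.P.MP_e59a69_co.UDefs
section

/-! Definitions for the virtual order theorem. -/

open Finset

namespace Pool.Agent.P.MP_e59a69_co

section graph
variable {ι E : Type} [DecidableEq ι]

/-- the edges of `A` with both ends in `S` -/
def ins (s t : E → ι) (A : Finset E) (S : Finset ι) : Finset E := {e ∈ A | s e ∈ S ∧ t e ∈ S}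

/-- the edges of `A` between `u` and `v` -/
def btw (s t : E → ι) (A : Finset E) (u v : ι) : Finset E :=
  {e ∈ A | (s e = u ∧ t e = v) ∨ (s e = v ∧ t e = u)}

/-- a state: sparse everywhere and almost tight -/
structure St (K b : ℕ) (s t : E → ι) (A : Finset E) (U : Finset ι) : Prop where
  ends : ∀ e ∈ A, s e ∈ U ∧ t e ∈ U
  one : ∀ S ⊆ U, S.Nonempty → #(ins s t A S) + K ≤ K * #S
  two : K * #U ≤ #A + b + K

/-- the edge set of one node of the hierarchy -/
structure Gam (κ Δ T : ℕ) (s t : E → ι) (Γ : Finset E) (S : Finset ι) : Prop where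
  card : 2 ≤ #S
  ends : ∀ e ∈ Γ, s e ∈ S ∧ t e ∈ S ∧ s e ≠ t e
  conn : ∀ Y, Sep S Y → κ ≤ ct s t Γ Y
  rob : ∀ u ∈ S, ∀ Y, Sep (S.erase u) Y → κ ≤ ct s t {e ∈ Γ | s e ≠ u ∧ t e ≠ u} Y
  deg : ∀ u ∈ S, ct s t Γ {u} ≤ Δ
  thin : ∃ J ⊆ Γ, Conn s t S J ∧ ∀ Y, T * ct s t J Y ≤ ct s t Γ Y

/-- contraction of `S` to `r` -/
def ctr (S : Finset ι) (r : ι) (x : ι) : ι := if x ∈ S then r else x

/-- disjoint pairs of edges of `B` with different colours -/
structure Prs (B : Finset E) (col : E → ι) (F : Finset (E × E)) : Prop where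
  mem : ∀ p ∈ F, p.1 ∈ B ∧ p.2 ∈ B ∧ col p.1 ≠ col p.2
  dis : ∀ p ∈ F, ∀ p' ∈ F, p.1 ≠ p'.2 ∧ (p.1 = p'.1 → p = p') ∧ (p.2 = p'.2 → p = p')

/-- the number of pairs separated by `X` -/
def pc (en : E → ι) (F : Finset (E × E)) (X : Finset ι) : ℕ :=
  #{p ∈ F | ¬ (en p.1 ∈ X ↔ en p.2 ∈ X)}

/-- the concave size function -/
noncomputable def hh (n : ℕ) : ℝ := n - (n : ℝ) ^ (3 / 4 : ℝ) / 2

end graph

section node
variable {N : Type} [DecidableEq N] {κ : ℕ}

/-- cut function of a multiset of pairs -/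
def mcut (W : Multiset (N × N)) (X : Finset N) : ℕ :=
  W.countP fun p => ¬ (p.1 ∈ X ↔ p.2 ∈ X)

/-- a centre: the unit it serves and the leaves of its star -/
abbrev Ce (N : Type) (κ : ℕ) : Type := Finset N × (Fin κ → N)

/-- a unit with its inner edges, centres and joining edges -/
structure Nd (N : Type) (κ : ℕ) where
  vs : Finset N
  W : Multiset (N × N)
  C : Finset (Ce N κ)
  J : Finset (Ce N κ × Ce N κ)

/-- star edges crossing the extension `Y` of `X` -/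
def stc (C : Finset (Ce N κ)) (X : Finset N) (Y : Finset (Ce N κ)) : ℕ :=
  ∑ c ∈ C, #{i : Fin κ | ¬ (c ∈ Y ↔ c.2 i ∈ X)}

/-- joining edges crossing `Y` -/
def jc (J : Finset (Ce N κ × Ce N κ)) (Y : Finset (Ce N κ)) : ℕ :=
  #{p ∈ J | ¬ (p.1 ∈ Y ↔ p.2 ∈ Y)}

structure Good (c₁ c₂ T : ℕ) (u : Nd N κ) : Prop where
  ne : u.vs.Nonempty
  wend : ∀ p ∈ u.W, p.1 ∈ u.vs ∧ p.2 ∈ u.vs
  wconn : ∀ X, Sep u.vs X → κ ≤ mcut u.W X
  csub : ∀ c ∈ u.C, c.1.Nonempty ∧ c.1 ⊂ u.vs ∧ ∀ i, c.2 i ∈ u.vs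
  jend : ∀ p ∈ u.J, p.1 ∈ u.C ∧ p.2 ∈ u.C
  conn : ∀ (σ : Ce N κ → Fin κ) (X : Finset N) (Y : Finset (Ce N κ)),
    (∀ c ∈ u.C, c ∈ Y ↔ c.2 (σ c) ∈ X) → (∀ p ∈ u.J, p.1 ∈ Y ↔ p.2 ∈ Y) → ¬ Sep u.vs X
  cost : ∀ X, ∃ Y, stc u.C X Y + T * jc u.J Y ≤ c₁ * mcut u.W X ∧
    (Sep u.vs X → stc u.C X Y + T * jc u.J Y + c₂ ≤ c₁ * mcut u.W X)

/-- the units with labels in `U` are the fibres of `f` -/
def Units {ι : Type} (c₁ c₂ T : ℕ) (f : N → ι) (d : ι → Nd N κ) (U : Finset ι) : Prop :=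
  ∀ u ∈ U, Good c₁ c₂ T (d u) ∧ ∀ v, v ∈ (d u).vs ↔ f v = u

/-- the potential -/
def Th (q κ x : ℕ) : ℕ := x + 3 * q * min x κ + 3 * q * min x (3 * q * κ)

lemma mcut_add (W W' : Multiset (N × N)) (X : Finset N) :
    mcut (W + W') X = mcut W X + mcut W' X := Multiset.countP_add _ _ _

lemma mcut_zero (X : Finset N) : mcut (0 : Multiset (N × N)) X = 0 := rfl

lemma mcut_sum {ι : Type} (S : Finset ι) (W : ι → Multiset (N × N)) (X : Finset N) :
    mcut (∑ u ∈ S, W u) X = ∑ u ∈ S, mcut (W u) X := by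
  classical
  induction S using Finset.induction_on with
  | empty => rfl
  | insert a S ha ih => rw [sum_insert ha, sum_insert ha, mcut_add, ih]

lemma mcut_map {E : Type} (s t : E → N) (A : Finset E) (X : Finset N) :
    mcut (A.val.map fun e => (s e, t e)) X = ct s t A X := by
  rw [mcut, Multiset.countP_map]
  rfl

lemma Good.sep_of_pos {c₁ c₂ T : ℕ} {u : Nd N κ} (h : Good c₁ c₂ T u) {X : Finset N}
    (hX : 0 < mcut u.W X) : Sep u.vs X := by
  obtain ⟨p, hp, hc⟩ := Multiset.countP_pos.1 hX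
  obtain ⟨h1, h2⟩ := h.wend p hp
  by_cases a : p.1 ∈ X
  · exact ⟨⟨_, h1, a⟩, _, h2, fun b => hc ⟨fun _ => b, fun _ => a⟩⟩
  · exact ⟨⟨_, h2, by by_contra b; exact hc ⟨fun c => (a c).elim, fun c => (b c).elim⟩⟩, _, h1, a⟩

end node

end Pool.Agent.P.MP_e59a69_co
end

-- part Pool.Agent.P.MP_e59a69_co.UMk
section

open Finset

namespace Pool.Agent.P.MP_e59a69_co

variable {N ι E : Type} [DecidableEq N] [DecidableEq ι] [DecidableEq E] {κ Δ T c₁ c₂ : ℕ}

/-- the node over the children `S` with stars `σ` and joining edges `J` -/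
noncomputable def mkNd (d : ι → Nd N κ) (S : Finset ι) (s t : E → N) (f : N → ι) (Γ J : Finset E)
    (σ : ι → Fin κ → N) : Nd N κ where
  vs := S.biUnion fun u => (d u).vs
  W := ∑ u ∈ S, (d u).W + Γ.val.map fun e => (s e, t e)
  C := (S.biUnion fun u => (d u).C) ∪ S.image fun u => ((d u).vs, σ u)
  J := (S.biUnion fun u => (d u).J) ∪ J.image fun e =>
    (((d (f (s e))).vs, σ (f (s e))), ((d (f (t e))).vs, σ (f (t e))))

/-- the leaves of the star of `u` are the ends in `u` of different edges of `Γ` -/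
def Stars (f : N → ι) (s t : E → N) (Γ : Finset E) (S : Finset ι) (σ : ι → Fin κ → N) : Prop :=
  ∀ u ∈ S, ∃ g : Fin κ → E, Function.Injective g ∧ ∀ i, g i ∈ Γ ∧ f (σ u i) = u ∧
    (σ u i = s (g i) ∨ σ u i = t (g i))

variable {f : N → ι} {d : ι → Nd N κ} {S : Finset ι} {s t : E → N} {Γ J : Finset E}
  {σ : ι → Fin κ → N}

theorem exists_stars (hG : Gam κ Δ T (fun e => f (s e)) (fun e => f (t e)) Γ S) :
    ∃ σ : ι → Fin κ → N, Stars f s t Γ S σ := by
  have key : ∀ u ∈ S, ∃ a : Fin κ → N, ∃ g : Fin κ → E, Function.Injective g ∧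
      ∀ i, g i ∈ Γ ∧ f (a i) = u ∧ (a i = s (g i) ∨ a i = t (g i)) := by
    intro u hu
    obtain ⟨w, hw, hwu⟩ := exists_mem_ne (s := S) (by have := hG.card; omega) u
    have h1 := hG.conn {u} ⟨⟨u, hu, mem_singleton_self u⟩, w, hw, fun h => hwu (mem_singleton.1 h)⟩
    obtain ⟨F, hF, hc⟩ := exists_subset_card_eq h1
    let g : Fin κ → E := fun i => ((equivFinOfCardEq hc).symm i).1
    refine ⟨fun i => if f (s (g i)) = u then s (g i) else t (g i), g,
      Subtype.val_injective.comp (equivFinOfCardEq hc).symm.injective, fun i => ?_⟩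
    have h2 := mem_filter.1 (hF ((equivFinOfCardEq hc).symm i).2)
    have h3 : ¬ (f (s (g i)) = u ↔ f (t (g i)) = u) := by
      have h4 := h2.2
      rwa [mem_singleton, mem_singleton] at h4
    refine ⟨h2.1, ?_, ?_⟩
    · by_cases h : f (s (g i)) = u
      · simp only [if_pos h]; exact h
      · simp only [if_neg h]
        by_contra h'
        exact h3 ⟨fun c => (h c).elim, fun c => (h' c).elim⟩
    · by_cases h : f (s (g i)) = u
      · exact Or.inl (if_pos h)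
      · exact Or.inr (if_neg h)
  obtain ⟨u₀, hu₀⟩ : S.Nonempty := card_pos.1 (by have := hG.card; omega)
  have key2 : ∀ u, ∃ a : Fin κ → N, u ∈ S → ∃ g : Fin κ → E, Function.Injective g ∧
      ∀ i, g i ∈ Γ ∧ f (a i) = u ∧ (a i = s (g i) ∨ a i = t (g i)) := by
    intro u
    by_cases hu : u ∈ S
    · obtain ⟨a, ha⟩ := key u hu
      exact ⟨a, fun _ => ha⟩
    · obtain ⟨a, -⟩ := key u₀ hu₀
      exact ⟨a, fun h => (hu h).elim⟩
  choose σ hσ using key2
  exact ⟨σ, hσ⟩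

lemma mk_vs (hU : Units c₁ c₂ T f d S) (v : N) : v ∈ (mkNd d S s t f Γ J σ).vs ↔ f v ∈ S := by
  change v ∈ S.biUnion (fun u => (d u).vs) ↔ _
  rw [mem_biUnion]
  constructor
  · rintro ⟨u, hu, hv⟩
    rw [((hU u hu).2 v).1 hv]
    exact hu
  · intro h
    exact ⟨f v, h, ((hU _ h).2 v).2 rfl⟩

lemma mk_mcut (X : Finset N) :
    mcut (mkNd d S s t f Γ J σ).W X = ∑ u ∈ S, mcut (d u).W X + ct s t Γ X := by
  change mcut (∑ u ∈ S, (d u).W + Γ.val.map fun e => (s e, t e)) X = _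
  rw [mcut_add, mcut_sum, mcut_map]

lemma mk_wend (hU : Units c₁ c₂ T f d S) (hG : Gam κ Δ T (fun e => f (s e)) (fun e => f (t e)) Γ S) :
    ∀ p ∈ (mkNd d S s t f Γ J σ).W,
      p.1 ∈ (mkNd d S s t f Γ J σ).vs ∧ p.2 ∈ (mkNd d S s t f Γ J σ).vs := by
  intro p hp
  rw [mk_vs hU, mk_vs hU]
  have hp' : p ∈ ∑ u ∈ S, (d u).W + Γ.val.map fun e => (s e, t e) := hp
  rcases Multiset.mem_add.1 hp' with h | h
  · obtain ⟨u, hu, h⟩ := Multiset.mem_sum.1 h
    obtain ⟨h1, h2⟩ := (hU u hu).1.wend p h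
    rw [((hU u hu).2 _).1 h1, ((hU u hu).2 _).1 h2]
    exact ⟨hu, hu⟩
  · obtain ⟨e, he, rfl⟩ := Multiset.mem_map.1 h
    exact ⟨(hG.ends e he).1, (hG.ends e he).2.1⟩

lemma side_UMk (hU : Units c₁ c₂ T f d S) {X : Finset N} (h : ∀ u ∈ S, ¬ Sep (d u).vs X) {v : N}
    (hv : f v ∈ S) : v ∈ X ↔ f v ∈ S.filter fun u => (d u).vs ⊆ X := by
  have h1 : v ∈ (d (f v)).vs := ((hU _ hv).2 v).2 rfl
  rw [mem_filter]
  refine ⟨fun hX => ⟨hv, fun w hw => ?_⟩, fun hX => hX.2 h1⟩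
  by_contra hw'
  exact h _ hv ⟨⟨v, h1, hX⟩, w, hw, hw'⟩

lemma sep_UMk (hU : Units c₁ c₂ T f d S) {X : Finset N} (h : ∀ u ∈ S, ¬ Sep (d u).vs X)
    (hX : Sep (mkNd d S s t f Γ J σ).vs X) : Sep S (S.filter fun u => (d u).vs ⊆ X) := by
  obtain ⟨⟨a, ha, ha'⟩, b, hb, hb'⟩ := hX
  rw [mk_vs hU] at ha hb
  exact ⟨⟨f a, ha, (side_UMk hU h ha).1 ha'⟩, f b, hb, fun c => hb' ((side_UMk hU h hb).2 c)⟩

lemma mk_wconn (hU : Units c₁ c₂ T f d S)
    (hG : Gam κ Δ T (fun e => f (s e)) (fun e => f (t e)) Γ S) :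
    ∀ X, Sep (mkNd d S s t f Γ J σ).vs X → κ ≤ mcut (mkNd d S s t f Γ J σ).W X := by
  intro X hX
  rw [mk_mcut]
  by_cases h : ∃ u ∈ S, Sep (d u).vs X
  · obtain ⟨u, hu, h⟩ := h
    exact ((hU u hu).1.wconn X h).trans ((single_le_sum (f := fun u => mcut (d u).W X)
      (fun _ _ => Nat.zero_le _) hu).trans (Nat.le_add_right _ _))
  · have h' : ∀ u ∈ S, ¬ Sep (d u).vs X := fun u hu c => h ⟨u, hu, c⟩
    refine (hG.conn _ (sep_UMk hU h' hX)).trans (le_trans (le_of_eq ?_) (Nat.le_add_left _ _))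
    unfold ct
    refine congrArg _ (filter_congr fun e he => ?_)
    rw [side_UMk hU h' (hG.ends e he).1, side_UMk hU h' (hG.ends e he).2.1]

lemma memC_UMk {c : Ce N κ} : c ∈ (mkNd d S s t f Γ J σ).C ↔
    (∃ u ∈ S, c ∈ (d u).C) ∨ ∃ u ∈ S, ((d u).vs, σ u) = c := by
  change c ∈ (S.biUnion fun u => (d u).C) ∪ S.image (fun u => ((d u).vs, σ u)) ↔ _
  rw [mem_union, mem_biUnion, mem_image]

lemma memJ_UMk {p : Ce N κ × Ce N κ} : p ∈ (mkNd d S s t f Γ J σ).J ↔
    (∃ u ∈ S, p ∈ (d u).J) ∨ ∃ e ∈ J,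
      (((d (f (s e))).vs, σ (f (s e))), ((d (f (t e))).vs, σ (f (t e)))) = p := by
  change p ∈ (S.biUnion fun u => (d u).J) ∪ J.image (fun e =>
    (((d (f (s e))).vs, σ (f (s e))), ((d (f (t e))).vs, σ (f (t e))))) ↔ _
  rw [mem_union, mem_biUnion, mem_image]

lemma mk_csub (hU : Units c₁ c₂ T f d S) (h2 : 2 ≤ #S) (hσ : Stars f s t Γ S σ) :
    ∀ c ∈ (mkNd d S s t f Γ J σ).C, c.1.Nonempty ∧ c.1 ⊂ (mkNd d S s t f Γ J σ).vs ∧
      ∀ i, c.2 i ∈ (mkNd d S s t f Γ J σ).vs := by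
  have hsub : ∀ u ∈ S, (d u).vs ⊆ (mkNd d S s t f Γ J σ).vs := fun u hu v hv => by
    rw [mk_vs hU, ((hU u hu).2 v).1 hv]
    exact hu
  intro c hc
  rcases memC_UMk.1 hc with ⟨u, hu, h⟩ | ⟨u, hu, rfl⟩
  · obtain ⟨h1, h3, h4⟩ := (hU u hu).1.csub c h
    exact ⟨h1, h3.trans_subset (hsub u hu), fun i => hsub u hu (h4 i)⟩
  · refine ⟨(hU u hu).1.ne, ⟨hsub u hu, fun hs => ?_⟩, fun i => ?_⟩
    · obtain ⟨w, hw, hwu⟩ := exists_mem_ne (s := S) (by omega) u
      obtain ⟨v, hv⟩ := (hU w hw).1.ne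
      exact hwu ((((hU w hw).2 v).1 hv).symm.trans (((hU u hu).2 v).1 (hs (hsub w hw hv))))
    · obtain ⟨g, -, hg⟩ := hσ u hu
      rw [mk_vs hU]
      change f (σ u i) ∈ S
      rw [(hg i).2.1]
      exact hu

lemma mk_jend (hU : Units c₁ c₂ T f d S) (hJ : ∀ e ∈ J, f (s e) ∈ S ∧ f (t e) ∈ S) :
    ∀ p ∈ (mkNd d S s t f Γ J σ).J,
      p.1 ∈ (mkNd d S s t f Γ J σ).C ∧ p.2 ∈ (mkNd d S s t f Γ J σ).C := by
  intro p hp
  rcases memJ_UMk.1 hp with ⟨u, hu, h⟩ | ⟨e, he, rfl⟩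
  · obtain ⟨h1, h2⟩ := (hU u hu).1.jend p h
    exact ⟨memC_UMk.2 (Or.inl ⟨u, hu, h1⟩), memC_UMk.2 (Or.inl ⟨u, hu, h2⟩)⟩
  · exact ⟨memC_UMk.2 (Or.inr ⟨_, (hJ e he).1, rfl⟩), memC_UMk.2 (Or.inr ⟨_, (hJ e he).2, rfl⟩)⟩

lemma mk_conn (hU : Units c₁ c₂ T f d S) (hσ : Stars f s t Γ S σ)
    (hJ : ∀ e ∈ J, f (s e) ∈ S ∧ f (t e) ∈ S)
    (hc : Conn (fun e => f (s e)) (fun e => f (t e)) S J) (τ : Ce N κ → Fin κ) (X : Finset N)
    (Y : Finset (Ce N κ)) (h1 : ∀ c ∈ (mkNd d S s t f Γ J σ).C, c ∈ Y ↔ c.2 (τ c) ∈ X)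
    (h2 : ∀ p ∈ (mkNd d S s t f Γ J σ).J, p.1 ∈ Y ↔ p.2 ∈ Y) :
    ¬ Sep (mkNd d S s t f Γ J σ).vs X := by
  intro hX
  have h' : ∀ u ∈ S, ¬ Sep (d u).vs X := fun u hu => (hU u hu).1.conn τ X Y
    (fun c hc => h1 c (memC_UMk.2 (Or.inl ⟨u, hu, hc⟩)))
    fun p hp => h2 p (memJ_UMk.2 (Or.inl ⟨u, hu, hp⟩))
  have h3 : ∀ u ∈ S, (((d u).vs, σ u) ∈ Y ↔ u ∈ S.filter fun u => (d u).vs ⊆ X) := by
    intro u hu
    obtain ⟨g, -, hg⟩ := hσ u hu
    have h4 := (hg (τ ((d u).vs, σ u))).2.1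
    have h5 := side_UMk hU h' (v := σ u (τ ((d u).vs, σ u))) (by rw [h4]; exact hu)
    rw [h4] at h5
    exact (h1 _ (memC_UMk.2 (Or.inr ⟨u, hu, rfl⟩))).trans h5
  obtain ⟨e, he⟩ := card_pos.1 (hc _ (sep_UMk hU h' hX))
  obtain ⟨he, hne⟩ := mem_filter.1 he
  exact hne (((h3 _ (hJ e he).1).symm.trans (h2 _ (memJ_UMk.2 (Or.inr ⟨e, he, rfl⟩)))).trans
    (h3 _ (hJ e he).2))

end Pool.Agent.P.MP_e59a69_co
end

-- part Pool.Agent.P.MP_e59a69_co.UGlue
section

open Finset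

namespace Pool.Agent.P.MP_e59a69_co

variable {N ι E : Type} [DecidableEq N] [DecidableEq ι] [DecidableEq E] {κ Δ T c₁ c₂ : ℕ}
  {f : N → ι} {d : ι → Nd N κ} {S : Finset ι} {s t : E → N} {Γ J : Finset E} {σ : ι → Fin κ → N}

lemma sum_union_UGlue {α : Type} [DecidableEq α] (A B : Finset α) (g : α → ℕ) :
    ∑ x ∈ A ∪ B, g x ≤ ∑ x ∈ A, g x + ∑ x ∈ B, g x := by
  rw [← sum_union_inter]
  exact Nat.le_add_right _ _

lemma sum_biUnion_UGlue {α β : Type} [DecidableEq α] (S : Finset β) (A : β → Finset α)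
    (g : α → ℕ) : ∑ x ∈ S.biUnion A, g x ≤ ∑ u ∈ S, ∑ x ∈ A u, g x := by
  classical
  induction S using Finset.induction_on with
  | empty => simp
  | insert a S ha ih =>
    rw [biUnion_insert, sum_insert ha]
    exact (sum_union_UGlue _ _ g).trans (Nat.add_le_add_left ih _)

lemma sum_image_UGlue {α β : Type} [DecidableEq α] (S : Finset β) (h : β → α) (g : α → ℕ) :
    ∑ x ∈ S.image h, g x ≤ ∑ u ∈ S, g (h u) := by
  rw [← biUnion_singleton]
  exact (sum_biUnion_UGlue S _ g).trans (le_of_eq (sum_congr rfl fun u _ => sum_singleton _ _))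

omit [DecidableEq ι] in
lemma old_UGlue (hU : Units c₁ c₂ T f d S) {u u' : ι} (hu : u ∈ S) (hu' : u' ∈ S) {c : Ce N κ}
    (hc : c ∈ (d u).C) (h : c.1 ⊆ (d u').vs) : u = u' := by
  obtain ⟨⟨v, hv⟩, h1, -⟩ := (hU u hu).1.csub c hc
  exact (((hU u hu).2 v).1 (h1.1 hv)).symm.trans (((hU u' hu').2 v).1 (h hv))

omit [DecidableEq ι] in
lemma ne_UGlue (hU : Units c₁ c₂ T f d S) {u u' : ι} (hu : u ∈ S) (hu' : u' ∈ S) {c : Ce N κ}
    (hc : c ∈ (d u).C) : ((d u').vs, σ u') ≠ c := by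
  rintro rfl
  obtain rfl := old_UGlue hU hu hu' hc subset_rfl
  exact ((hU u hu).1.csub _ hc).2.1.2 subset_rfl

omit [DecidableEq ι] in
lemma new_UGlue (hU : Units c₁ c₂ T f d S) {u u' : ι} (hu : u ∈ S) (hu' : u' ∈ S)
    (h : (d u).vs = (d u').vs) : u = u' := by
  obtain ⟨v, hv⟩ := (hU u hu).1.ne
  exact (((hU u hu).2 v).1 hv).symm.trans (((hU u' hu').2 v).1 (h ▸ hv))

/-- extensions of the children and sides `P` of the new centres glue to one extension -/
theorem mk_glue (hU : Units c₁ c₂ T f d S) (hJ : ∀ e ∈ J, f (s e) ∈ S ∧ f (t e) ∈ S)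
    (X : Finset N) (y : ι → Finset (Ce N κ)) (P : Finset ι) :
    ∃ Y, stc (mkNd d S s t f Γ J σ).C X Y ≤
        ∑ u ∈ S, stc (d u).C X (y u) + ∑ u ∈ S, #{i : Fin κ | ¬ (u ∈ P ↔ σ u i ∈ X)} ∧
      jc (mkNd d S s t f Γ J σ).J Y ≤
        ∑ u ∈ S, jc (d u).J (y u) + ct (fun e => f (s e)) (fun e => f (t e)) J P := by
  obtain ⟨Y, hY⟩ : ∃ Y : Finset (Ce N κ), ∀ c, c ∈ Y ↔ (∃ u ∈ S, c ∈ y u ∧ c ∈ (d u).C) ∨
      ∃ u, (u ∈ P ∧ u ∈ S) ∧ ((d u).vs, σ u) = c :=
    ⟨(S.biUnion fun u => y u ∩ (d u).C) ∪ (P ∩ S).image fun u => ((d u).vs, σ u), fun c => by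
      simp only [mem_union, mem_biUnion, mem_inter, mem_image]⟩
  have h1 : ∀ u ∈ S, ∀ c ∈ (d u).C, c ∈ Y ↔ c ∈ y u := fun u hu c hc => by
    rw [hY]
    refine ⟨?_, fun h => Or.inl ⟨u, hu, h, hc⟩⟩
    rintro (⟨u', hu', h, hc'⟩ | ⟨u', ⟨-, hu'⟩, h⟩)
    · rwa [old_UGlue hU hu hu' hc ((hU u' hu').1.csub c hc').2.1.1]
    · exact (ne_UGlue hU hu hu' hc h).elim
  have h2 : ∀ u ∈ S, ((d u).vs, σ u) ∈ Y ↔ u ∈ P := fun u hu => by
    rw [hY]
    refine ⟨?_, fun h => Or.inr ⟨u, ⟨h, hu⟩, rfl⟩⟩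
    rintro (⟨u', hu', -, hc'⟩ | ⟨u', ⟨h, hu'⟩, e⟩)
    · exact (ne_UGlue hU hu' hu hc' rfl).elim
    · rwa [← new_UGlue hU hu' hu (congrArg Prod.fst e)]
  refine ⟨Y, (sum_union_UGlue _ _ _).trans (Nat.add_le_add
    ((sum_biUnion_UGlue _ _ _).trans (le_of_eq ?_)) ((sum_image_UGlue _ _ _).trans (le_of_eq ?_))),
    ?_⟩
  · exact sum_congr rfl fun u hu => sum_congr rfl fun c hc => by simp only [h1 u hu c hc]
  · exact sum_congr rfl fun u hu => by simp only [h2 u hu]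
  · simp only [jc, ct, mkNd, filter_union, filter_biUnion, filter_image]
    refine (card_union_le _ _).trans (Nat.add_le_add (card_biUnion_le.trans (le_of_eq ?_))
      (card_image_le.trans (le_of_eq ?_)))
    · refine sum_congr rfl fun u hu => congrArg card (filter_congr fun p hp => ?_)
      rw [h1 u hu _ ((hU u hu).1.jend p hp).1, h1 u hu _ ((hU u hu).1.jend p hp).2]
    · refine congrArg card (filter_congr fun e he => ?_)
      rw [h2 _ (hJ e he).1, h2 _ (hJ e he).2]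

end Pool.Agent.P.MP_e59a69_co
end

-- part Pool.Agent.P.MP_e59a69_co.USides
section

open Finset

namespace Pool.Agent.P.MP_e59a69_co

variable {N ι E : Type} [DecidableEq N] [DecidableEq ι] [DecidableEq E] {κ Δ T c₁ c₂ : ℕ}
  {f : N → ι} {d : ι → Nd N κ} {S : Finset ι} {s t : E → N} {Γ : Finset E} {σ : ι → Fin κ → N}

/-- `P` gives the side of every vertex whose label is not in `Sp` -/
def Ok_USides (f : N → ι) (S Sp : Finset ι) (X : Finset N) (P : Finset ι) : Prop :=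
  ∀ v, f v ∈ S → f v ∉ Sp → (f v ∈ P ↔ v ∈ X)

lemma star_USides (hσ : Stars f s t Γ S σ) {X : Finset N} {Sp P : Finset ι} (hSp : Sp ⊆ S)
    (h : Ok_USides f S Sp X P) : ∑ u ∈ S, #{i : Fin κ | ¬ (u ∈ P ↔ σ u i ∈ X)} =
      ∑ u ∈ Sp, #{i : Fin κ | ¬ (u ∈ P ↔ σ u i ∈ X)} := by
  refine (sum_subset hSp fun u hu hu' => ?_).symm
  obtain ⟨g, -, hg⟩ := hσ u hu
  rw [card_eq_zero, filter_eq_empty_iff]
  intro i _ hi
  have e := (hg i).2.1
  exact hi (by simpa only [e] using h (σ u i) (e.symm ▸ hu) (e.symm ▸ hu'))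

lemma cut_USides (hG : Gam κ Δ T (fun e => f (s e)) (fun e => f (t e)) Γ S) {X : Finset N}
    {Sp P : Finset ι} (hSp : Sp ⊆ S) (h : Ok_USides f S Sp X P) :
    ct (fun e => f (s e)) (fun e => f (t e)) Γ P ≤ ct s t Γ X + #Sp * Δ := by
  have h1 : ∑ u ∈ Sp, ct (fun e => f (s e)) (fun e => f (t e)) Γ {u} ≤ #Sp * Δ :=
    sum_le_card_nsmul _ _ _ fun u hu => hG.deg u (hSp hu)
  refine le_trans ?_ (Nat.add_le_add_left h1 _)
  unfold ct
  refine le_trans (card_le_card ?_)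
    ((card_union_le _ _).trans (Nat.add_le_add_left card_biUnion_le _))
  intro e he
  obtain ⟨h2, h3⟩ := mem_filter.1 he
  obtain ⟨h4, h5, h6⟩ := hG.ends e h2
  rw [mem_union, mem_biUnion]
  by_cases a : f (s e) ∈ Sp
  · refine Or.inr ⟨_, a, mem_filter.2 ⟨h2, fun b => h6 ?_⟩⟩
    exact (mem_singleton.1 (b.1 (mem_singleton_self _))).symm
  · by_cases b : f (t e) ∈ Sp
    · refine Or.inr ⟨_, b, mem_filter.2 ⟨h2, fun c => h6 ?_⟩⟩
      exact mem_singleton.1 (c.2 (mem_singleton_self _))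
    · refine Or.inl (mem_filter.2 ⟨h2, ?_⟩)
      rwa [← h _ h4 a, ← h _ h5 b]

lemma rob_USides (hG : Gam κ Δ T (fun e => f (s e)) (fun e => f (t e)) Γ S) {X : Finset N}
    {u : ι} {P : Finset ι} (hu : u ∈ S) (h : Ok_USides f S {u} X P) (hs : Sep (S.erase u) P) :
    κ ≤ ct s t Γ X := by
  refine (hG.rob u hu P hs).trans (card_le_card fun e he => ?_)
  obtain ⟨h1, h3⟩ := mem_filter.1 he
  obtain ⟨h2, a, b⟩ := mem_filter.1 h1
  obtain ⟨h4, h5, -⟩ := hG.ends e h2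
  refine mem_filter.2 ⟨h2, ?_⟩
  rwa [← h _ h4 (notMem_singleton.2 a), ← h _ h5 (notMem_singleton.2 b)]

lemma const_USides (hG : Gam κ Δ T (fun e => f (s e)) (fun e => f (t e)) Γ S)
    (hσ : Stars f s t Γ S σ) {X : Finset N} {u : ι} {P : Finset ι} (hu : u ∈ S)
    (h : Ok_USides f S {u} X P) (hc : ∀ a ∈ S, ∀ b ∈ S, a ∈ P ↔ b ∈ P) :
    ∑ u ∈ S, #{i : Fin κ | ¬ (u ∈ P ↔ σ u i ∈ X)} +
      ct (fun e => f (s e)) (fun e => f (t e)) Γ P ≤ ct s t Γ X := by
  have h0 : ct (fun e => f (s e)) (fun e => f (t e)) Γ P = 0 := by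
    rw [ct, card_eq_zero, filter_eq_empty_iff]
    intro e he hn
    exact hn (hc _ (hG.ends e he).1 _ (hG.ends e he).2.1)
  rw [h0, add_zero, star_USides hσ (singleton_subset_iff.2 hu) h, sum_singleton]
  obtain ⟨g, hg, hg'⟩ := hσ u hu
  refine card_le_card_of_injOn g (fun i hi => ?_) hg.injOn
  have h1 := (mem_filter.1 (mem_coe.1 hi)).2
  obtain ⟨h2, h3, h4⟩ := hg' i
  obtain ⟨h5, h6, h7⟩ := hG.ends _ h2
  refine mem_coe.2 (mem_filter.2 ⟨h2, fun hn => h1 ?_⟩)
  rcases h4 with h4 | h4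
  · rw [h4] at h3 ⊢
    rw [hn, ← h _ h6 (notMem_singleton.2 fun a => h7 (h3.trans a.symm))]
    exact hc _ hu _ h6
  · rw [h4] at h3 ⊢
    rw [← hn, ← h _ h5 (notMem_singleton.2 fun a => h7 (a.trans h3.symm))]
    exact hc _ hu _ h5

/-- sides of the new centres; `Sp` is the set of split children -/
theorem exists_sides (hκ : 1 ≤ κ) (hU : Units c₁ c₂ T f d S)
    (hG : Gam κ Δ T (fun e => f (s e)) (fun e => f (t e)) Γ S) (hσ : Stars f s t Γ S σ)
    (h2 : c₂ = 2 * (Δ + κ)) (h1 : c₂ + κ ≤ c₁ * κ) (X : Finset N) (Sp : Finset ι) (hSp : Sp ⊆ S)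
    (hS : ∀ u ∈ S, u ∈ Sp ↔ Sep (d u).vs X) :
    ∃ P : Finset ι, ∑ u ∈ S, #{i : Fin κ | ¬ (u ∈ P ↔ σ u i ∈ X)} +
        ct (fun e => f (s e)) (fun e => f (t e)) Γ P ≤ c₁ * ct s t Γ X + c₂ * #Sp ∧
      (Sep (S.biUnion fun u => (d u).vs) X → ∑ u ∈ S, #{i : Fin κ | ¬ (u ∈ P ↔ σ u i ∈ X)} +
        ct (fun e => f (s e)) (fun e => f (t e)) Γ P + c₂ ≤ c₁ * ct s t Γ X + c₂ * #Sp) := by
  obtain ⟨P, hP⟩ : ∃ P : Finset ι, P = {u ∈ S | (d u).vs ⊆ X} := ⟨_, rfl⟩
  have hok : Ok_USides f S Sp X P := by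
    intro v hv hv'
    have hm : v ∈ (d (f v)).vs := ((hU _ hv).2 v).2 rfl
    rw [hP, mem_filter]
    refine ⟨fun a => a.2 hm, fun a => ⟨hv, fun z hz => ?_⟩⟩
    by_contra hn
    exact hv' ((hS _ hv).2 ⟨⟨v, hm, a⟩, z, hz, hn⟩)
  obtain ⟨k, rfl⟩ : ∃ k, c₁ = k + 1 := by
    refine ⟨c₁ - 1, ?_⟩
    rcases c₁ with _ | k
    · omega
    · rfl
  have h3 : c₂ ≤ k * κ := by
    rw [add_mul, one_mul] at h1
    omega
  have h4 : ∑ u ∈ S, #{i : Fin κ | ¬ (u ∈ P ↔ σ u i ∈ X)} ≤ #Sp * κ := by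
    rw [star_USides hσ hSp hok]
    exact sum_le_card_nsmul _ _ _ fun u _ => (card_le_univ _).trans (Fintype.card_fin κ).le
  have h5 := cut_USides hG hSp hok
  have h6 : c₂ * #Sp = 2 * (#Sp * Δ + #Sp * κ) := by
    rw [h2]
    ring
  have h7 : κ ≤ ct s t Γ X → c₂ ≤ k * ct s t Γ X := fun a => h3.trans (Nat.mul_le_mul_left k a)
  rw [add_mul, one_mul]
  by_cases hone : #Sp = 1
  · obtain ⟨u, rfl⟩ := card_eq_one.1 hone
    have hu : u ∈ S := hSp (mem_singleton_self u)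
    rw [card_singleton, mul_one]
    rw [card_singleton, one_mul] at h4 h5
    by_cases hs : Sep (S.erase u) P
    · have := h7 (rob_USides hG hu hok hs)
      exact ⟨P, by omega, fun _ => by omega⟩
    · by_cases ha : ∃ z ∈ S.erase u, z ∈ P
      · have hall : ∀ z ∈ S.erase u, z ∈ P := fun z hz => by_contra fun hn => hs ⟨ha, z, hz, hn⟩
        have := const_USides hG hσ (X := X) (P := S) hu (fun v hv hv' => by
          rw [← hok v hv hv']
          exact iff_of_true hv (hall _ (mem_erase.2 ⟨notMem_singleton.1 hv', hv⟩)))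
          fun a ha b hb => iff_of_true ha hb
        exact ⟨S, by omega, fun _ => by omega⟩
      · have := const_USides hG hσ (X := X) (P := ∅) hu (fun v hv hv' => by
          rw [← hok v hv hv']
          exact iff_of_false (notMem_empty _) fun a =>
            ha ⟨_, mem_erase.2 ⟨notMem_singleton.1 hv', hv⟩, a⟩)
          fun a _ b _ => iff_of_false (notMem_empty _) (notMem_empty _)
        exact ⟨∅, by omega, fun _ => by omega⟩
  · refine ⟨P, by omega, fun hs => ?_⟩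
    by_cases hz : #Sp = 0
    · obtain rfl := card_eq_zero.1 hz
      obtain ⟨⟨z, hz, hzX⟩, z', hz', hzX'⟩ := hs
      obtain ⟨u, hu, hzu⟩ := mem_biUnion.1 hz
      obtain ⟨u', hu', hzu'⟩ := mem_biUnion.1 hz'
      obtain rfl := ((hU u hu).2 z).1 hzu
      obtain rfl := ((hU u' hu').2 z').1 hzu'
      have h8 := hG.conn P ⟨⟨_, hu, (hok z hu (notMem_empty _)).2 hzX⟩,
        _, hu', fun a => hzX' ((hok z' hu' (notMem_empty _)).1 a)⟩
      rw [card_empty, zero_mul] at h4 h5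
      have := h7 (h8.trans h5)
      omega
    · have h8 : 2 * Δ ≤ #Sp * Δ := Nat.mul_le_mul_right _ (by omega)
      have h9 : 2 * κ ≤ #Sp * κ := Nat.mul_le_mul_right _ (by omega)
      omega

end Pool.Agent.P.MP_e59a69_co
end

-- part Pool.Agent.P.MP_e59a69_co.UNode
section

open Finset

namespace Pool.Agent.P.MP_e59a69_co

variable {N ι E : Type} [DecidableEq N] [DecidableEq ι] [DecidableEq E] {κ Δ T c₁ c₂ : ℕ}
  {f : N → ι} {d : ι → Nd N κ} {S : Finset ι} {s t : E → N} {Γ : Finset E}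

/-- a node over the units `S` -/
theorem exists_node (hκ : 1 ≤ κ) (hU : Units c₁ c₂ T f d S)
    (hG : Gam κ Δ T (fun e => f (s e)) (fun e => f (t e)) Γ S)
    (h2 : c₂ = 2 * (Δ + κ)) (h1 : c₂ + κ ≤ c₁ * κ) :
    ∃ u : Nd N κ, Good c₁ c₂ T u ∧ (∀ v, v ∈ u.vs ↔ f v ∈ S) ∧
      ∀ X, mcut u.W X = ∑ x ∈ S, mcut (d x).W X + ct s t Γ X := by
  classical
  obtain ⟨σ, hσ⟩ := exists_stars hG
  obtain ⟨J, hJ, hc, ht⟩ := hG.thin
  have hJ' : ∀ e ∈ J, f (s e) ∈ S ∧ f (t e) ∈ S := fun e he =>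
    ⟨(hG.ends e (hJ he)).1, (hG.ends e (hJ he)).2.1⟩
  refine ⟨mkNd d S s t f Γ J σ, ⟨?_, mk_wend hU hG, mk_wconn hU hG, mk_csub hU hG.card hσ,
    mk_jend hU hJ', mk_conn hU hσ hJ' hc, fun X => ?_⟩, mk_vs hU, mk_mcut⟩
  · obtain ⟨u, hu⟩ : S.Nonempty := card_pos.1 (by have := hG.card; omega)
    obtain ⟨v, hv⟩ := (hU u hu).1.ne
    exact ⟨v, (mk_vs hU v).2 (by rw [((hU u hu).2 v).1 hv]; exact hu)⟩
  have hy : ∀ u, ∃ Y, u ∈ S → stc (d u).C X Y + T * jc (d u).J Y +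
      (if Sep (d u).vs X then c₂ else 0) ≤ c₁ * mcut (d u).W X := by
    intro u
    by_cases hu : u ∈ S
    · obtain ⟨Y, a, b⟩ := (hU u hu).1.cost X
      refine ⟨Y, fun _ => ?_⟩
      split_ifs with h
      · exact b h
      · exact a
    · exact ⟨∅, fun h => (hu h).elim⟩
  choose y hy using hy
  obtain ⟨P, p1, p2⟩ := exists_sides hκ hU hG hσ h2 h1 X {u ∈ S | Sep (d u).vs X}
    (filter_subset _ _) (fun u hu => by simp [hu])
  obtain ⟨Y, y1, y2⟩ := mk_glue (Γ := Γ) (σ := σ) hU hJ' X y P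
  have hs := sum_le_sum fun u (hu : u ∈ S) => hy u hu
  rw [sum_add_distrib, sum_add_distrib, ← mul_sum, ← mul_sum, ← sum_filter, sum_const,
    smul_eq_mul, mul_comm _ c₂] at hs
  have h3 := Nat.mul_le_mul_left T y2
  have h4 := ht P
  rw [mul_add] at h3
  refine ⟨Y, ?_, fun h => ?_⟩
  · rw [mk_mcut, mul_add]
    omega
  · have := p2 h
    rw [mk_mcut, mul_add]
    omega

end Pool.Agent.P.MP_e59a69_co
end

-- part Pool.Agent.P.MP_e59a69_co.UContr
section

open Finset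

namespace Pool.Agent.P.MP_e59a69_co

variable {ι E : Type} [DecidableEq ι] [DecidableEq E] {K b : ℕ} {s t : E → ι} {A : Finset E}
  {U : Finset ι}

omit [DecidableEq E] in
lemma mem_ins_UContr {S : Finset ι} {e : E} : e ∈ ins s t A S ↔ e ∈ A ∧ s e ∈ S ∧ t e ∈ S :=
  mem_filter

omit [DecidableEq E] in
lemma ins_mono_UContr {B : Finset E} (h : B ⊆ A) (S : Finset ι) : ins s t B S ⊆ ins s t A S :=
  filter_subset_filter _ h

/-- a near-tight set carries a state -/
lemma St.sub (h : St K b s t A U) {S : Finset ι} (hS : S ⊆ U)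
    (ht : K * #S ≤ #(ins s t A S) + b + K) : St K b s t (ins s t A S) S := by
  refine ⟨fun e he => (mem_ins_UContr.1 he).2, fun T hT hne => ?_, ht⟩
  have h1 := h.one T (hT.trans hS) hne
  have h2 : #(ins s t (ins s t A S) T) ≤ #(ins s t A T) :=
    card_le_card (ins_mono_UContr (filter_subset _ _) T)
  omega

lemma ct_ins_add {N : Type} [DecidableEq N] (s' t' : E → N) {A' : Finset E} {S : Finset ι}
    (h : A' ⊆ A \ ins s t A S) (X : Finset N) :
    ct s' t' A' X + ct s' t' (ins s t A S) X ≤ ct s' t' A X := by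
  unfold ct
  rw [← card_union_of_disjoint, ← filter_union]
  · refine card_le_card (filter_subset_filter _ (union_subset (h.trans sdiff_subset) ?_))
    exact filter_subset _ _
  · exact disjoint_filter_filter (disjoint_left.2 fun e he => (mem_sdiff.1 (h he)).2)

omit [DecidableEq E] in
lemma image_ctr_UContr {S : Finset ι} (hS : S ⊆ U) {r : ι} (hr : r ∈ S) :
    U.image (ctr S r) = insert r (U \ S) := by
  ext x
  simp only [mem_image, mem_insert, mem_sdiff, ctr]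
  constructor
  · rintro ⟨y, hy, rfl⟩
    by_cases k : y ∈ S
    · exact Or.inl (if_pos k)
    · rw [if_neg k]
      exact Or.inr ⟨hy, k⟩
  · rintro (rfl | ⟨h1, h2⟩)
    · exact ⟨x, hS hr, if_pos hr⟩
    · exact ⟨x, h1, if_neg h2⟩

lemma card_ctr {S : Finset ι} (hS : S ⊆ U) {r : ι} (hr : r ∈ S) :
    #(U.image (ctr S r)) + #S = #U + 1 := by
  rw [image_ctr_UContr hS hr, card_insert_of_notMem fun h => (mem_sdiff.1 h).2 hr]
  have := card_sdiff_add_card_eq_card hS
  omega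

lemma image_ctr {S : Finset ι} (hS : S ⊆ U) {r : ι} (hr : r ∈ S) :
    U.image (ctr S r) = insert r (U \ S) := image_ctr_UContr hS hr

omit [DecidableEq E] in
lemma ins_super_UContr (B : Finset E) (X Y : Finset ι) :
    #(ins s t B X) + #(ins s t B Y) ≤ #(ins s t B (X ∩ Y)) + #(ins s t B (X ∪ Y)) := by
  unfold ins
  simp only [card_filter]
  rw [← Finset.sum_add_distrib, ← Finset.sum_add_distrib]
  refine Finset.sum_le_sum fun e _ => ?_
  by_cases a : s e ∈ X <;> by_cases b : t e ∈ X <;> by_cases c : s e ∈ Y <;>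
    by_cases d : t e ∈ Y <;> simp [a, b, c, d]

lemma trim_UContr (r : ι) (m : ℕ) (B : Finset E)
    (h1 : ∀ T ⊆ U, T.Nonempty → r ∉ T → #(ins s t B T) + K ≤ K * #T)
    (h2 : ∀ T ⊆ U, r ∈ T → #(ins s t B T) + K ≤ K * #T + m) :
    ∃ B' ⊆ B, (∀ T ⊆ U, T.Nonempty → #(ins s t B' T) + K ≤ K * #T) ∧ #B ≤ #B' + m := by
  induction m generalizing B with
  | zero =>
    refine ⟨B, Subset.rfl, fun T hT hne => ?_, le_rfl⟩
    by_cases k : r ∈ T
    · exact h2 T hT k
    · exact h1 T hT hne k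
  | succ m ih =>
    obtain ⟨F, hF⟩ : ∃ F : Finset (Finset ι), ∀ T, T ∈ F ↔
        T ⊆ U ∧ r ∈ T ∧ #(ins s t B T) + K = K * #T + (m + 1) :=
      ⟨U.powerset.filter fun T => r ∈ T ∧ #(ins s t B T) + K = K * #T + (m + 1), fun T => by
        rw [mem_filter, mem_powerset]⟩
    have hn : ∀ T ⊆ U, r ∈ T → T ∉ F → #(ins s t B T) + K ≤ K * #T + m := by
      intro T hT k hc
      have k1 := h2 T hT k
      have k2 : #(ins s t B T) + K ≠ K * #T + (m + 1) := fun e => hc ((hF T).2 ⟨hT, k, e⟩)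
      omega
    rcases F.eq_empty_or_nonempty with rfl | hne
    · obtain ⟨B', k1, k2, k3⟩ := ih B h1 fun T hT k => hn T hT k (notMem_empty T)
      exact ⟨B', k1, k2, by omega⟩
    obtain ⟨T₀, hT₀, hmin⟩ := exists_min_image F card hne
    obtain ⟨a1, a2, a3⟩ := (hF T₀).1 hT₀
    have hsub : ∀ T ∈ F, T₀ ⊆ T := by
      intro T hT
      obtain ⟨b1, b2, b3⟩ := (hF T).1 hT
      have c1 := ins_super_UContr (s := s) (t := t) B T₀ T
      have c2 := h2 (T₀ ∩ T) (inter_subset_left.trans a1) (mem_inter.2 ⟨a2, b2⟩)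
      have c3 := h2 (T₀ ∪ T) (union_subset a1 b1) (mem_union_left _ a2)
      have c4 : K * #(T₀ ∩ T) + K * #(T₀ ∪ T) = K * #T₀ + K * #T := by
        rw [← mul_add, ← mul_add, card_inter_add_card_union]
      have c5 := hmin (T₀ ∩ T) ((hF _).2 ⟨inter_subset_left.trans a1, mem_inter.2 ⟨a2, b2⟩,
        by omega⟩)
      exact inter_eq_left.1 (eq_of_subset_of_card_le inter_subset_left c5)
    obtain ⟨e, he⟩ : (ins s t B T₀).Nonempty := by
      have c1 : K * 1 ≤ K * #T₀ := Nat.mul_le_mul_left K (card_pos.2 ⟨r, a2⟩)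
      rw [← card_pos]
      omega
    obtain ⟨e1, e2, e3⟩ := mem_ins_UContr.1 he
    have hle : ∀ T, #(ins s t (B.erase e) T) ≤ #(ins s t B T) :=
      fun T => card_le_card (ins_mono_UContr (erase_subset _ _) T)
    obtain ⟨B', k1, k2, k3⟩ := ih (B.erase e) (fun T hT hne k => by
      have c1 := h1 T hT hne k
      have c2 := hle T
      omega) fun T hT k => by
        by_cases hc : T ∈ F
        · have c1 := h2 T hT k
          have c2 : #(ins s t (B.erase e) T) < #(ins s t B T) :=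
            card_lt_card ⟨ins_mono_UContr (erase_subset _ _) T, fun hs =>
              notMem_erase e B (mem_ins_UContr.1 (hs (mem_ins_UContr.2
                ⟨e1, hsub T hc e2, hsub T hc e3⟩))).1⟩
          omega
        · have c1 := hn T hT k hc
          have c2 := hle T
          omega
    refine ⟨B', k1.trans (erase_subset _ _), k2, ?_⟩
    have := card_erase_add_one e1
    omega

/-- contraction -/
theorem St.contract (h : St K b s t A U) {S : Finset ι} (hS : S ⊆ U) {r : ι} (hr : r ∈ S) :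
    ∃ A' ⊆ A \ ins s t A S,
      St K b (fun e => ctr S r (s e)) (fun e => ctr S r (t e)) A' (U.image (ctr S r)) := by
  obtain ⟨m, hm⟩ := Nat.exists_eq_add_of_le (h.one S hS ⟨r, hr⟩)
  have hU : U.image (ctr S r) ⊆ U := by
    rw [image_ctr hS hr]
    exact insert_subset (hS hr) sdiff_subset
  have hc : ∀ {T : Finset ι} {x : ι}, ctr S r x ∈ T → x ∈ T.erase r ∪ S := by
    intro T x hx
    by_cases k : x ∈ S
    · exact mem_union_right _ k
    · rw [ctr, if_neg k] at hx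
      exact mem_union_left _ (mem_erase.2 ⟨fun e => k (e ▸ hr), hx⟩)
  have hc' : ∀ {T : Finset ι} {x : ι}, r ∉ T → ctr S r x ∈ T → x ∈ T := by
    intro T x k hx
    by_cases k' : x ∈ S
    · rw [ctr, if_pos k'] at hx
      exact absurd hx k
    · rwa [ctr, if_neg k'] at hx
  obtain ⟨A', k1, k2, k3⟩ := trim_UContr (K := K) (s := fun e => ctr S r (s e))
    (t := fun e => ctr S r (t e)) (U := U.image (ctr S r)) r m (A \ ins s t A S)
    (fun T hT hne k => by
      refine le_trans (Nat.add_le_add_right (card_le_card fun e he => ?_) K)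
        (h.one T (hT.trans hU) hne)
      obtain ⟨e1, e2, e3⟩ := mem_ins_UContr.1 he
      exact mem_ins_UContr.2 ⟨(mem_sdiff.1 e1).1, hc' k e2, hc' k e3⟩)
    fun T hT k => by
      have c1 := h.one (T.erase r ∪ S) (union_subset ((erase_subset _ _).trans (hT.trans hU)) hS)
        ⟨r, mem_union_right _ hr⟩
      have c2 : #(ins (fun e => ctr S r (s e)) (fun e => ctr S r (t e)) (A \ ins s t A S) T) +
          #(ins s t A S) ≤ #(ins s t A (T.erase r ∪ S)) := by
        rw [← card_union_of_disjoint]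
        · refine card_le_card (union_subset (fun e he => ?_) fun e he => ?_)
          · obtain ⟨e1, e2, e3⟩ := mem_ins_UContr.1 he
            exact mem_ins_UContr.2 ⟨(mem_sdiff.1 e1).1, hc e2, hc e3⟩
          · obtain ⟨e1, e2, e3⟩ := mem_ins_UContr.1 he
            exact mem_ins_UContr.2 ⟨e1, mem_union_right _ e2, mem_union_right _ e3⟩
        · exact disjoint_left.2 fun e he => (mem_sdiff.1 (mem_ins_UContr.1 he).1).2
      have c3 : K * #(T.erase r ∪ S) + K ≤ K * #T + K * #S := by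
        rw [← mul_add_one, ← mul_add]
        refine Nat.mul_le_mul_left K ?_
        have d1 := card_union_le (T.erase r) S
        have d2 := card_erase_add_one k
        omega
      omega
  refine ⟨A', k1, fun e he => ?_, k2, ?_⟩
  · have := h.ends e (mem_sdiff.1 (k1 he)).1
    exact ⟨mem_image_of_mem _ this.1, mem_image_of_mem _ this.2⟩
  · have c1 : K * #(U.image (ctr S r)) + K * #S = K * #U + K := by
      rw [← mul_add, card_ctr hS hr, mul_add_one]
    have c2 : #(A \ ins s t A S) + #(ins s t A S) = #A :=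
      card_sdiff_add_card_eq_card (filter_subset _ _)
    have c3 := h.two
    omega

end Pool.Agent.P.MP_e59a69_co
end

-- part Pool.Agent.P.MP_e59a69_co.UTh
section

open Finset

namespace Pool.Agent.P.MP_e59a69_co

variable {q κ : ℕ}

lemma le_Th (x : ℕ) : x ≤ Th q κ x := by
  unfold Th
  omega

lemma Th_zero : Th q κ 0 = 0 := by simp [Th]

lemma Th_mono {x y : ℕ} (h : x ≤ y) : Th q κ x ≤ Th q κ y := by
  unfold Th
  gcongr

lemma Th_le (hq : 1 ≤ q) (x : ℕ) : Th q κ x ≤ 7 * q * x := by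
  unfold Th
  have h1 := Nat.mul_le_mul_left (3 * q) (min_le_left x κ)
  have h2 := Nat.mul_le_mul_left (3 * q) (min_le_left x (3 * q * κ))
  have h3 := Nat.mul_le_mul_right x hq
  linarith

lemma min_add_UTh (c x y m : ℕ) : c * min (x + y) m ≤ c * min x m + c * min y m := by
  rw [← mul_add]
  exact Nat.mul_le_mul_left _ (by omega)

lemma Th_add (x y : ℕ) : Th q κ (x + y) ≤ Th q κ x + Th q κ y := by
  unfold Th
  have h1 := min_add_UTh (3 * q) x y κ
  have h2 := min_add_UTh (3 * q) x y (3 * q * κ)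
  omega

lemma Th_sum {ι : Type} (S : Finset ι) (x : ι → ℕ) :
    Th q κ (∑ u ∈ S, x u) ≤ ∑ u ∈ S, Th q κ (x u) :=
  le_sum_of_subadditive (Th q κ) Th_zero.le Th_add S x

lemma Th_big (hq : 1 ≤ q) {x : ℕ} (h : κ ≤ x) : 7 * q * κ ≤ 3 * Th q κ x := by
  have _ := hq
  unfold Th
  rw [min_eq_right h]
  have h1 : 7 * q * κ ≤ 3 * (3 * q * κ) := by nlinarith [Nat.zero_le (q * κ)]
  omega

/-- the accounting of the lifting step -/
lemma Th_lift (hq : 1 ≤ q) {x y p z : ℕ} (h1 : Th q κ y ≤ p + 7 * q * z) (h2 : z ≤ q * κ)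
    (h3 : 7 * q * z ≤ x) (h4 : z = 0 ∨ (κ ≤ x ∧ κ ≤ y ∧ 7 * q * κ ≤ 3 * p)) :
    Th q κ (x + y) ≤ Th q κ x + p := by
  have _ := hq
  rcases h4 with rfl | ⟨a1, a2, a3⟩
  · have := Th_add (q := q) (κ := κ) x y
    omega
  unfold Th at h1 ⊢
  rw [min_eq_right a2] at h1
  rw [min_eq_right a1, min_eq_right (show κ ≤ x + y by omega)]
  rcases Nat.le_total x (3 * q * κ) with h | h
  · have := min_add_UTh (3 * q) x y (3 * q * κ)
    omega
  · rw [min_eq_right h, min_eq_right (show 3 * q * κ ≤ x + y by omega)]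
    rw [mul_assoc 7 q κ] at a3
    rcases Nat.le_total (7 * (q * κ)) (3 * y) with h5 | h5
    · have h6 : 7 * z ≤ 3 * min y (3 * q * κ) := by rw [mul_assoc 3 q κ]; omega
      have h7 := Nat.mul_le_mul_left q h6
      have h8 : 7 * q * z ≤ 3 * q * min y (3 * q * κ) := by linarith
      omega
    · omega

end Pool.Agent.P.MP_e59a69_co
end

-- part Pool.Agent.P.MP_e59a69_co.UFin
section

open Finset

namespace Pool.Agent.P.MP_e59a69_co

/-- the constants -/
structure Par (q κ K b Δ T c₁ c₂ Λ : ℕ) : Prop where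
  q1 : 1 ≤ q
  k1 : 1 ≤ κ
  hb : b = q * κ
  hK : 2 * b + κ ≤ K
  hΔ : κ ≤ Δ
  hT : T ≤ κ
  h2 : c₂ = 2 * (Δ + κ)
  h1 : c₂ + κ ≤ c₁ * κ
  hd : 4 * (K + b) * K ≤ Δ * b
  hρ : 640 * κ ≤ b
  hΛ : 1536 * Δ * Λ ≤ (320 * κ) ^ 2

variable {N ι E : Type} [DecidableEq N] [DecidableEq ι] [DecidableEq E]
  {q κ K b Δ T c₁ c₂ Λ : ℕ}

/-- a node over all units of `U` with a controlled potential -/
def Out (q c₁ c₂ T : ℕ) (f : N → ι) (d : ι → Nd N κ) (U : Finset ι) (s t : E → N)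
    (A : Finset E) : Prop :=
  ∃ u : Nd N κ, Good c₁ c₂ T u ∧ (∀ v, v ∈ u.vs ↔ f v ∈ U) ∧
    ∀ X, Th q κ (mcut u.W X) ≤ ∑ x ∈ U, Th q κ (mcut (d x).W X) + 7 * q * ct s t A X

/-- the induction hypothesis for fewer than `n` units -/
def Ih (N ι E : Type) [DecidableEq N] [DecidableEq ι] (q κ K b c₁ c₂ T n : ℕ) : Prop :=
  ∀ (U : Finset ι) (f : N → ι) (d : ι → Nd N κ) (s t : E → N) (A : Finset E), #U < n →
    U.Nonempty → St K b (fun e => f (s e)) (fun e => f (t e)) A U → Units c₁ c₂ T f d U →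
    Out q c₁ c₂ T f d U s t A

variable {f : N → ι} {d : ι → Nd N κ} {U S : Finset ι} {s t : E → N} {A : Finset E}

lemma ctr_eq_iff {r : ι} (hr : r ∈ S) (x : ι) : ctr S r x = r ↔ x ∈ S := by
  unfold ctr
  split_ifs with h
  · simp [h]
  · exact ⟨fun e => (h (e ▸ hr)).elim, fun e => (h e).elim⟩

lemma ctr_eq_iff' {r u : ι} (hr : r ∈ S) (hu : u ∉ S) (x : ι) : ctr S r x = u ↔ x = u := by
  unfold ctr
  split_ifs with h
  · exact ⟨fun e => (hu (e ▸ hr)).elim, fun e => (hu (e ▸ h)).elim⟩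
  · rfl

omit [DecidableEq ι] in
lemma Units.mono (h : Units c₁ c₂ T f d U) (hS : S ⊆ U) : Units c₁ c₂ T f d S :=
  fun u hu => h u (hS hu)

/-- the units after a contraction -/
lemma Units.ctr {V : Finset ι} (h : Units c₁ c₂ T f d V) (hV : Disjoint V S) {r : ι} (hr : r ∈ S)
    {n : Nd N κ} (hn : Good c₁ c₂ T n) (hv : ∀ v, v ∈ n.vs ↔ f v ∈ S) :
    Units c₁ c₂ T (fun v => ctr S r (f v)) (Function.update d r n) (insert r V) := by
  intro u hu
  by_cases e : u = r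
  · subst e
    rw [Function.update_self]
    exact ⟨hn, fun v => by rw [hv, ctr_eq_iff hr]⟩
  · have hu' : u ∈ V := (mem_insert.1 hu).resolve_left e
    rw [Function.update_of_ne e]
    exact ⟨(h u hu').1, fun v => by
      rw [(h u hu').2, ctr_eq_iff' hr (disjoint_left.1 hV hu')]⟩

/-- contract a finished part and go on -/
theorem finish (ih : Ih N ι E q κ K b c₁ c₂ T #U)
    (h : St K b (fun e => f (s e)) (fun e => f (t e)) A U) (hU : Units c₁ c₂ T f d U)
    (hS : S ⊆ U) (h2 : 2 ≤ #S)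
    (ho : Out q c₁ c₂ T f d S s t (ins (fun e => f (s e)) (fun e => f (t e)) A S)) :
    Out q c₁ c₂ T f d U s t A := by
  obtain ⟨r, hr⟩ : S.Nonempty := card_pos.1 (by omega)
  obtain ⟨n, hn, hv, hc⟩ := ho
  obtain ⟨A', hA, hs⟩ := h.contract hS hr
  have hcard := card_ctr hS hr
  rw [image_ctr hS hr] at hs hcard
  have hU' := (hU.mono (sdiff_subset (t := S))).ctr sdiff_disjoint hr hn hv
  obtain ⟨m, hm, hw, he⟩ := ih (insert r (U \ S)) (fun v => ctr S r (f v))
    (Function.update d r n) s t A' (by omega) (insert_nonempty _ _) hs hU'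
  refine ⟨m, hm, fun v => ?_, fun X => ?_⟩
  · rw [hw, mem_insert, ctr_eq_iff hr]
    by_cases a : f v ∈ S
    · simp [a, hS a]
    · simp [ctr, a]
  · have hr' : r ∉ U \ S := fun a => (mem_sdiff.1 a).2 hr
    have h3 := he X
    have h4 : ∑ x ∈ U \ S, Th q κ (mcut (Function.update d r n x).W X) =
        ∑ x ∈ U \ S, Th q κ (mcut (d x).W X) :=
      sum_congr rfl fun x hx => by rw [Function.update_of_ne (ne_of_mem_of_not_mem hx hr')]
    rw [sum_insert hr', Function.update_self, h4] at h3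
    have h5 := hc X
    have h6 := Nat.mul_le_mul_left (7 * q) (ct_ins_add s t hA X)
    have h7 := sum_sdiff (f := fun x => Th q κ (mcut (d x).W X)) hS
    rw [mul_add] at h6
    omega

/-- a node from an edge set -/
theorem out_of_gam (P : Par q κ K b Δ T c₁ c₂ Λ) (hU : Units c₁ c₂ T f d S) {Γ : Finset E}
    (hG : Gam κ Δ T (fun e => f (s e)) (fun e => f (t e)) Γ S) (hΓ : Γ ⊆ A) :
    Out q c₁ c₂ T f d S s t A := by
  obtain ⟨n, hn, hv, hc⟩ := exists_node P.k1 hU hG P.h2 P.h1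
  refine ⟨n, hn, hv, fun X => ?_⟩
  rw [hc]
  refine (Th_add _ _).trans (add_le_add (Th_sum _ _) ((Th_le P.q1 _).trans ?_))
  exact Nat.mul_le_mul_left _ (ct_mono s t hΓ X)

omit [DecidableEq E] in
lemma St.noloop {s t : E → ι} (h : St K b s t A U) {e : E} (he : e ∈ A) : s e ≠ t e := by
  intro a
  have h1 := h.one {s e} (singleton_subset_iff.2 (h.ends e he).1) (singleton_nonempty _)
  have h2 : 0 < #(ins s t A {s e}) := card_pos.2 ⟨e, by simp [ins, he, a]⟩
  rw [card_singleton] at h1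
  omega

end Pool.Agent.P.MP_e59a69_co
end

-- part Pool.Agent.P.MP_e59a69_co.UDense
section

open Finset

namespace Pool.Agent.P.MP_e59a69_co

variable {ι E : Type} [DecidableEq ι] [DecidableEq E] {K b : ℕ} {s t : E → ι} {A : Finset E}
  {U : Finset ι}

omit [DecidableEq E] in
theorem deg_sum_UDense (s t : E → ι) (A : Finset E) (L : Finset ι) :
    ∑ u ∈ L, ct s t A {u} ≤ #(ins s t A L) + #A := by
  simp only [ct, ins, card_filter]
  rw [sum_comm, card_eq_sum_ones A, ← sum_add_distrib]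
  refine sum_le_sum fun e _ => ?_
  rw [← card_filter]
  by_cases h1 : s e ∈ L
  · by_cases h2 : t e ∈ L
    · rw [if_pos ⟨h1, h2⟩]
      refine (card_le_card (t := {s e, t e}) fun u hu => ?_).trans card_le_two
      have h3 := (mem_filter.1 hu).2
      simp only [mem_insert, mem_singleton] at h3 ⊢
      by_contra h4
      exact h3 ⟨fun h => (h4 (Or.inl h.symm)).elim, fun h => (h4 (Or.inr h.symm)).elim⟩
    · refine le_add_left ((card_le_card (t := {s e}) fun u hu => ?_).trans (card_singleton _).le)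
      obtain ⟨h5, h3⟩ := mem_filter.1 hu
      simp only [mem_singleton] at h3 ⊢
      by_contra h4
      exact h3 ⟨fun h => (h4 h.symm).elim, fun h => (h2 (h ▸ h5)).elim⟩
  · refine le_add_left ((card_le_card (t := {t e}) fun u hu => ?_).trans (card_singleton _).le)
    obtain ⟨h5, h3⟩ := mem_filter.1 hu
    simp only [mem_singleton] at h3 ⊢
    by_contra h4
    exact h3 ⟨fun h => (h1 (h ▸ h5)).elim, fun h => (h4 h.symm).elim⟩

theorem hh_UDense {n : ℕ} (hn : 1 ≤ n) : 0 < hh n ∧ hh n ≤ n := by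
  have h1 : (1 : ℝ) ≤ n := by exact_mod_cast hn
  have h2 := Real.rpow_le_rpow_of_exponent_le h1 (by norm_num : (3 / 4 : ℝ) ≤ 1)
  have h3 := Real.rpow_nonneg (zero_le_one.trans h1) (3 / 4 : ℝ)
  rw [Real.rpow_one] at h2
  rw [hh]
  constructor <;> linarith

omit [DecidableEq E] in
theorem low_UDense (h : St K b s t A U) (hU : U.Nonempty) {Δ : ℕ}
    (hΔ : 4 * (K + b) * K ≤ Δ * b) (hdeg : ∀ u ∈ U, K + b < ct s t A {u}) :
    b * #U ≤ 2 * #(ins s t A {u ∈ U | ct s t A {u} ≤ Δ}) := by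
  have h1 := h.one U Subset.rfl hU
  have h2 : ins s t A U = A := filter_true_of_mem h.ends
  rw [h2] at h1
  have h3 := card_filter_add_card_filter_not (s := U) fun u => ct s t A {u} ≤ Δ
  have h4 : #{u ∈ U | ¬ ct s t A {u} ≤ Δ} * Δ ≤ 2 * #A := by
    refine le_trans ?_ ((deg_sum_UDense s t A {u ∈ U | ¬ ct s t A {u} ≤ Δ}).trans
      (by rw [two_mul]; exact Nat.add_le_add_right (card_filter_le _ _) _))
    exact card_nsmul_le_sum _ _ _ fun u hu => (not_le.1 (mem_filter.1 hu).2).le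
  have h5 : #{u ∈ U | ct s t A {u} ≤ Δ} * (K + b) ≤
      #(ins s t A {u ∈ U | ct s t A {u} ≤ Δ}) + #A :=
    le_trans (card_nsmul_le_sum _ _ _ fun u hu => (hdeg u (mem_filter.1 hu).1).le)
      (deg_sum_UDense s t A _)
  have h6 : 0 < K := by
    obtain ⟨u, hu⟩ := hU
    have h7 : ct s t A {u} ≤ #A := card_filter_le _ _
    have h8 := hdeg u hu
    rcases Nat.eq_zero_or_pos K with rfl | hK
    · omega
    · exact hK
  generalize #{u ∈ U | ¬ ct s t A {u} ≤ Δ} = x at h3 h4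
  generalize #(ins s t A {u ∈ U | ct s t A {u} ≤ Δ}) = y at h5 ⊢
  generalize #{u ∈ U | ct s t A {u} ≤ Δ} = l at h3 h5
  rw [← h3] at h1 ⊢
  have h9 : 2 * K * (2 * (K + b) * x) ≤ 2 * K * (b * (l + x)) := by
    calc _ = 4 * (K + b) * K * x := by ring
      _ ≤ Δ * b * x := Nat.mul_le_mul_right _ hΔ
      _ = x * Δ * b := by ring
      _ ≤ 2 * (K * (l + x)) * b := Nat.mul_le_mul_right _ (by omega)
      _ = _ := by ring
  have h10 := Nat.le_of_mul_le_mul_left h9 (by omega)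
  nlinarith

/-- a densest set of units of bounded degree -/
theorem exists_densest (h : St K b s t A U) (hU : U.Nonempty) (hb : 0 < b) {Δ : ℕ}
    (hΔ : 4 * (K + b) * K ≤ Δ * b) (hdeg : ∀ u ∈ U, K + b < ct s t A {u}) :
    ∃ S ⊆ U, ∃ ρ : ℝ, (b : ℝ) ≤ 2 * ρ ∧ 2 ≤ #S ∧ (∀ u ∈ S, ct s t A {u} ≤ Δ) ∧
      (#(ins s t A S) : ℝ) = ρ * hh #S ∧ ∀ Y ⊆ S, (#(ins s t A Y) : ℝ) ≤ ρ * hh #Y := by
  have h1 := low_UDense h hU hΔ hdeg
  obtain ⟨L, hL⟩ : ∃ L, L = {u ∈ U | ct s t A {u} ≤ Δ} := ⟨_, rfl⟩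
  rw [← hL] at h1
  have h2 : L ⊆ U := hL ▸ filter_subset _ _
  have h2' : ∀ u ∈ L, ct s t A {u} ≤ Δ := fun u hu => by
    rw [hL] at hu
    exact (mem_filter.1 hu).2
  have h3 : L.Nonempty := by
    have h4 : 0 < #(ins s t A L) := by
      have := Nat.mul_pos hb hU.card_pos
      omega
    obtain ⟨e, he⟩ := card_pos.1 h4
    exact ⟨_, (mem_filter.1 he).2.1⟩
  obtain ⟨S, hS, hm⟩ := exists_max_image {Y ∈ L.powerset | Y.Nonempty}
    (fun Y => (#(ins s t A Y) : ℝ) / hh #Y) ⟨L, mem_filter.2 ⟨mem_powerset_self _, h3⟩⟩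
  obtain ⟨hS1, hS2⟩ := mem_filter.1 hS
  rw [mem_powerset] at hS1
  have h5 : (b : ℝ) ≤ 2 * ((#(ins s t A S) : ℝ) / hh #S) := by
    have h6 := hm L (mem_filter.2 ⟨mem_powerset_self _, h3⟩)
    obtain ⟨h7, h8⟩ := hh_UDense h3.card_pos
    have h9 : (b : ℝ) * #U ≤ 2 * #(ins s t A L) := by exact_mod_cast h1
    have h10 : (#L : ℝ) ≤ #U := by exact_mod_cast card_le_card h2
    have h11 : (b : ℝ) / 2 ≤ (#(ins s t A L) : ℝ) / hh #L := by
      rw [le_div_iff₀ h7]
      have := mul_le_mul_of_nonneg_left (h8.trans h10) (Nat.cast_nonneg (α := ℝ) b)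
      linarith
    linarith
  refine ⟨S, hS1.trans h2, _, h5, ?_, fun u hu => h2' u (hS1 hu),
    (div_mul_cancel₀ _ (hh_UDense hS2.card_pos).1.ne').symm, fun Y hY => ?_⟩
  · by_contra h6
    have h7 : #S = 1 := by
      have := hS2.card_pos
      omega
    have h8 := h.one S (hS1.trans h2) hS2
    have h9 : #(ins s t A S) = 0 := by
      rw [h7] at h8
      omega
    have h10 : (0 : ℝ) < b := by exact_mod_cast hb
    rw [h9, Nat.cast_zero, zero_div] at h5
    linarith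
  · rcases Y.eq_empty_or_nonempty with rfl | hY0
    · simp [ins, hh]
    · exact (div_le_iff₀ (hh_UDense hY0.card_pos).1).1
        (hm Y (mem_filter.2 ⟨mem_powerset.2 (hY.trans hS1), hY0⟩))

end Pool.Agent.P.MP_e59a69_co
end

-- part Pool.Agent.P.MP_e59a69_co.UIso
section

open Finset

namespace Pool.Agent.P.MP_e59a69_co

variable {ι E : Type} [DecidableEq ι] [DecidableEq E] {s t : E → ι} {A : Finset E}
  {S : Finset ι} {ρ : ℝ}

lemma key_UIso {y z : ℝ} (hy : 0 ≤ y) (hyz : y ≤ z) :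
    (y + z) ^ (3 / 4 : ℝ) ≤ z ^ (3 / 4 : ℝ) + 3 / 4 * y ^ (3 / 4 : ℝ) := by
  rcases (hy.trans hyz).eq_or_lt with rfl | hz
  · obtain rfl : y = 0 := le_antisymm hyz hy
    norm_num
  · obtain ⟨r, rfl⟩ : ∃ r, y = z * r := ⟨y / z, by field_simp⟩
    have h0 : 0 ≤ r := nonneg_of_mul_nonneg_right hy hz
    have h1 : r ≤ 1 := by nlinarith
    have h2 : (1 + r) ^ (3 / 4 : ℝ) ≤ 1 + 3 / 4 * r :=
      rpow_one_add_le_one_add_mul_self (by linarith) (by norm_num) (by norm_num)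
    have h3 : r ≤ r ^ (3 / 4 : ℝ) := Real.self_le_rpow_of_le_one h0 h1 (by norm_num)
    have h4 : 0 ≤ z ^ (3 / 4 : ℝ) := Real.rpow_nonneg hz.le _
    rw [show z * r + z = z * (1 + r) by ring, Real.mul_rpow hz.le (by linarith),
      Real.mul_rpow hz.le h0]
    nlinarith

lemma sixteen_UIso {y : ℝ} (hy : 41 ≤ y) : 16 ≤ y ^ (3 / 4 : ℝ) := by
  refine le_trans ?_ (Real.rpow_le_rpow (by norm_num) hy (by norm_num))
  refine le_of_pow_le_pow_left₀ (n := 4) (by norm_num) (by positivity) ?_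
  rw [← Real.rpow_natCast ((41 : ℝ) ^ (3 / 4 : ℝ)), ← Real.rpow_mul (by norm_num)]
  norm_num

omit [DecidableEq E] in
lemma ct_congr_UIso {Γ : Finset E} {X Y : Finset ι}
    (h : ∀ e ∈ Γ, (s e ∈ X ↔ t e ∈ X) ↔ (s e ∈ Y ↔ t e ∈ Y)) : ct s t Γ X = ct s t Γ Y :=
  congrArg card (filter_congr fun e he => not_congr (h e he))

omit [DecidableEq E] in
/-- the smaller side of a cut -/
lemma small_UIso {Γ : Finset E} {U Y : Finset ι} (hΓ : ∀ e ∈ Γ, s e ∈ U ∧ t e ∈ U)
    (h : Sep U Y) : ∃ Z ⊆ U, Z.Nonempty ∧ 2 * #Z ≤ #U ∧ ct s t Γ Z = ct s t Γ Y := by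
  obtain ⟨⟨a, ha, ha'⟩, b, hb, hb'⟩ := h
  have hc := card_sdiff_add_card_inter U Y
  rcases le_total #(U ∩ Y) #(U \ Y) with h | h
  · refine ⟨U ∩ Y, inter_subset_left, ⟨a, mem_inter.2 ⟨ha, ha'⟩⟩, by omega,
      ct_congr_UIso fun e he => ?_⟩
    simp only [mem_inter, hΓ e he, true_and]
  · refine ⟨U \ Y, sdiff_subset, ⟨b, mem_sdiff.2 ⟨hb, hb'⟩⟩, by omega,
      ct_congr_UIso fun e he => ?_⟩
    simp only [mem_sdiff, hΓ e he, true_and, not_iff_not]

lemma three_UIso {B B₁ B₂ B₃ : Finset E} (h : ∀ e ∈ B, e ∈ B₁ ∨ e ∈ B₂ ∨ e ∈ B₃) :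
    (#B : ℝ) ≤ #B₁ + #B₂ + #B₃ := by
  have h1 : #B ≤ #(B₁ ∪ (B₂ ∪ B₃)) := card_le_card fun e he => by
    simpa only [mem_union] using h e he
  have h2 := card_union_le B₁ (B₂ ∪ B₃)
  have h3 := card_union_le B₂ B₃
  exact_mod_cast (by omega : #B ≤ #B₁ + #B₂ + #B₃)

/-- isoperimetry in a densest set -/
theorem iso_of_densest (hρ : 0 ≤ ρ) (h1 : (#(ins s t A S) : ℝ) = ρ * hh #S)
    (h2 : ∀ Y ⊆ S, (#(ins s t A Y) : ℝ) ≤ ρ * hh #Y) :
    ∀ Y ⊆ S, 2 * #Y ≤ #S → ρ * (#Y : ℝ) ^ (3 / 4 : ℝ) ≤ 8 * ct s t (ins s t A S) Y := by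
  intro Y hY hc
  have h3 : (#(ins s t A S) : ℝ) ≤
      #(ins s t A Y) + #(ins s t A (S \ Y)) + ct s t (ins s t A S) Y :=
    three_UIso fun e he => by
      simp only [ins, mem_filter, mem_sdiff] at he ⊢
      tauto
  have h4 : #S = #Y + #(S \ Y) := by
    rw [add_comm, card_sdiff_add_card_eq_card hY]
  have h5 : (#Y : ℝ) ≤ #(S \ Y) := by exact_mod_cast (by omega : #Y ≤ #(S \ Y))
  have h6 := mul_le_mul_of_nonneg_left (key_UIso (Nat.cast_nonneg _) h5) hρ
  have h7 := h2 Y hY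
  have h8 := h2 (S \ Y) sdiff_subset
  rw [h4] at h1
  unfold hh at h1 h7 h8
  push_cast at h1
  linarith

lemma forty_UIso {κ : ℕ} (hρ : 320 * (κ : ℝ) ≤ ρ) (h1 : (#(ins s t A S) : ℝ) = ρ * hh #S)
    (h2 : ∀ Y ⊆ S, (#(ins s t A Y) : ℝ) ≤ ρ * hh #Y) {Y : Finset ι} (hY : Y ⊆ S)
    (hn : Y.Nonempty) (hc : 2 * #Y ≤ #S) : 40 * κ ≤ ct s t (ins s t A S) Y := by
  have h0 : 0 ≤ ρ := le_trans (by positivity) hρ
  have h3 := iso_of_densest h0 h1 h2 Y hY hc
  have h4 : (1 : ℝ) ≤ (#Y : ℝ) ^ (3 / 4 : ℝ) :=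
    Real.one_le_rpow (by exact_mod_cast hn.card_pos) (by norm_num)
  have h5 := mul_le_mul_of_nonneg_left h4 h0
  have : 40 * (κ : ℝ) ≤ ct s t (ins s t A S) Y := by linarith
  exact_mod_cast this

theorem conn_of_densest {κ : ℕ} (hρ : 320 * (κ : ℝ) ≤ ρ) (h1 : (#(ins s t A S) : ℝ) = ρ * hh #S)
    (h2 : ∀ Y ⊆ S, (#(ins s t A Y) : ℝ) ≤ ρ * hh #Y) :
    ∀ Y, Sep S Y → κ ≤ ct s t (ins s t A S) Y := by
  intro Y hY
  obtain ⟨Z, hZ, hn, hc, e⟩ := small_UIso (s := s) (t := t) (Γ := ins s t A S)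
    (fun e he => (mem_filter.1 he).2) hY
  have := forty_UIso hρ h1 h2 hZ hn hc
  omega

theorem rob_of_densest {κ : ℕ} (hρ : 320 * (κ : ℝ) ≤ ρ) (h1 : (#(ins s t A S) : ℝ) = ρ * hh #S)
    (h2 : ∀ Y ⊆ S, (#(ins s t A Y) : ℝ) ≤ ρ * hh #Y)
    (hm : ∀ u ∈ S, ∀ v ∈ S, u ≠ v → #(btw s t A u v) < κ) :
    ∀ u ∈ S, ∀ Y, Sep (S.erase u) Y →
      κ ≤ ct s t {e ∈ ins s t A S | s e ≠ u ∧ t e ≠ u} Y := by
  intro u hu Y hY
  obtain ⟨Z, hZ, hn, hc, e⟩ := small_UIso (s := s) (t := t)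
    (Γ := {e ∈ ins s t A S | s e ≠ u ∧ t e ≠ u}) (U := S.erase u) (fun e he => by
      simp only [ins, mem_filter, mem_erase] at he ⊢
      tauto) hY
  rw [← e]
  have hZS : Z ⊆ S := hZ.trans (erase_subset _ _)
  have huZ : u ∉ Z := fun h => notMem_erase u S (hZ h)
  have hS := card_erase_add_one hu
  rcases le_or_gt #Z 39 with h39 | h39
  · have h3 := forty_UIso hρ h1 h2 hZS hn (by omega)
    have h4 : ct s t (ins s t A S) Z ≤ #({e ∈ {e ∈ ins s t A S | s e ≠ u ∧ t e ≠ u} |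
        ¬ (s e ∈ Z ↔ t e ∈ Z)} ∪ Z.biUnion fun v => btw s t A u v) := card_le_card fun e he => by
      obtain ⟨a1, a2⟩ := mem_filter.1 he
      have a3 : e ∈ A := (mem_filter.1 a1).1
      rw [mem_union]
      by_cases b1 : s e = u
      · refine Or.inr (mem_biUnion.2 ⟨t e, ?_, mem_filter.2 ⟨a3, Or.inl ⟨b1, rfl⟩⟩⟩)
        rw [b1] at a2
        tauto
      · by_cases b2 : t e = u
        · refine Or.inr (mem_biUnion.2 ⟨s e, ?_, mem_filter.2 ⟨a3, Or.inr ⟨rfl, b2⟩⟩⟩)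
          rw [b2] at a2
          tauto
        · exact Or.inl (mem_filter.2 ⟨mem_filter.2 ⟨a1, b1, b2⟩, a2⟩)
    have h5 : #(Z.biUnion fun v => btw s t A u v) ≤ #Z * κ :=
      card_biUnion_le_card_mul _ _ _ fun v hv =>
        (hm u hu v (hZS hv) fun h => huZ (h ▸ hv)).le
    have h6 := h4.trans (card_union_le _ _)
    have h7 : #Z * κ ≤ 39 * κ := Nat.mul_le_mul_right _ h39
    unfold ct at h3 h6 ⊢
    omega
  · have h0 : 0 ≤ ρ := le_trans (by positivity) hρ
    have h3 : (#(ins s t A S) : ℝ) ≤ #(ins s t A (insert u Z)) + #(ins s t A (S \ Z)) +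
        ct s t {e ∈ ins s t A S | s e ≠ u ∧ t e ≠ u} Z :=
      three_UIso fun e he => by
        simp only [ins, mem_filter, mem_sdiff, mem_insert] at he ⊢
        by_cases b1 : s e = u <;> by_cases b2 : t e = u <;> simp only [b1, b2] at he ⊢ <;> tauto
    have h4 : #S = #Z + #(S \ Z) := by
      rw [add_comm, card_sdiff_add_card_eq_card hZS]
    have h5 : (#Z : ℝ) + 1 ≤ #(S \ Z) := by exact_mod_cast (by omega : #Z + 1 ≤ #(S \ Z))
    have h6 := key_UIso (by positivity) h5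
    have h7 := h2 (insert u Z) (insert_subset hu hZS)
    have h8 := h2 (S \ Z) sdiff_subset
    have h9 : ((#Z : ℝ) + #(S \ Z)) ^ (3 / 4 : ℝ) ≤ ((#Z : ℝ) + 1 + #(S \ Z)) ^ (3 / 4 : ℝ) :=
      Real.rpow_le_rpow (by positivity) (by linarith) (by norm_num)
    have h10 : 16 ≤ ((#Z : ℝ) + 1) ^ (3 / 4 : ℝ) :=
      sixteen_UIso (by exact_mod_cast (by omega : 41 ≤ #Z + 1))
    have h11 := mul_le_mul_of_nonneg_left (h9.trans h6) h0
    have h12 := mul_le_mul_of_nonneg_left h10 h0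
    rw [h4] at h1
    rw [card_insert_of_notMem huZ] at h7
    unfold hh at h1 h7 h8
    push_cast at h1 h7
    have h13 : (0 : ℝ) ≤ κ := Nat.cast_nonneg _
    have : (κ : ℝ) ≤ ct s t {e ∈ ins s t A S | s e ≠ u ∧ t e ≠ u} Z := by linarith
    exact_mod_cast this

end Pool.Agent.P.MP_e59a69_co
end

-- part Pool.Agent.P.MP_e59a69_co.UCoarea
section

open Finset

namespace Pool.Agent.P.MP_e59a69_co

variable {ι E : Type} [DecidableEq ι] [DecidableEq E]

omit [DecidableEq E] in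
lemma level_UCoarea (s t : E → ι) (Γ : Finset E) (Y : Finset ι) (w : ι → ℝ) (hw : ∀ v, 0 ≤ w v)
    {ρ : ℝ} (hρ : 0 < ρ) (hY : Y.Nonempty) (h : ∀ v ∈ Y, ρ ≤ w v * ct s t Γ Y) :
    ρ ≤ ∑ e ∈ Γ, (w (s e) + w (t e)) * if (s e ∈ Y ↔ t e ∈ Y) then 0 else 1 := by
  obtain ⟨v, hv⟩ := hY
  have hc : (0 : ℝ) < ct s t Γ Y := by
    rcases (Nat.cast_nonneg (α := ℝ) (ct s t Γ Y)).eq_or_lt with h0 | h0
    · have := h v hv
      rw [← h0, mul_zero] at this
      linarith
    · exact h0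
  refine le_of_mul_le_mul_right ?_ hc
  have h1 : (ct s t Γ Y : ℝ) = ∑ e ∈ Γ, if (s e ∈ Y ↔ t e ∈ Y) then (0 : ℝ) else 1 := by
    rw [ct, card_filter]
    push_cast
    exact sum_congr rfl fun e _ => by split_ifs <;> rfl
  rw [sum_mul]
  calc ρ * ct s t Γ Y = ∑ e ∈ Γ, ρ * if (s e ∈ Y ↔ t e ∈ Y) then (0 : ℝ) else 1 := by
        rw [← mul_sum, ← h1]
    _ ≤ _ := by
      refine sum_le_sum fun e _ => ?_
      split_ifs with he
      · simp
      · rw [mul_one, mul_one, add_mul]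
        have a := mul_nonneg (hw (s e)) hc.le
        have b := mul_nonneg (hw (t e)) hc.le
        by_cases hs : s e ∈ Y
        · linarith [h _ hs]
        · have ht : t e ∈ Y := by
            by_contra ht
            exact he ⟨fun x => (hs x).elim, fun x => (ht x).elim⟩
          linarith [h _ ht]

omit [DecidableEq E] in
lemma aux_UCoarea (s t : E → ι) (Γ : Finset E) (S : Finset ι) (hE : ∀ e ∈ Γ, s e ∈ S ∧ t e ∈ S)
    (w : ι → ℝ) (hw : ∀ v, 0 ≤ w v) {ρ : ℝ} (hρ : 0 < ρ) (n : ℕ) : ∀ (g : ι → ℝ), (∀ v, 0 ≤ g v) →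
    #{x ∈ S | 0 < g x} ≤ n →
    (∀ τ : ℝ, 0 ≤ τ → ∀ v ∈ S, τ < g v → ρ ≤ w v * ct s t Γ {x ∈ S | τ < g x}) →
    ∀ v ∈ S, ρ * g v ≤ ∑ e ∈ Γ, (w (s e) + w (t e)) * |g (s e) - g (t e)| := by
  induction n with
  | zero =>
    intro g hg hn _ v hv
    have h0 : g v = 0 := by
      by_contra h0
      have : v ∈ ({x ∈ S | 0 < g x} : Finset ι) :=
        mem_filter.2 ⟨hv, lt_of_le_of_ne (hg v) (Ne.symm h0)⟩
      have := card_pos.2 ⟨v, this⟩
      omega
    rw [h0, mul_zero]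
    exact sum_nonneg fun e _ => mul_nonneg (add_nonneg (hw _) (hw _)) (abs_nonneg _)
  | succ n ih =>
    intro g hg hn h v hv
    rcases (hg v).eq_or_lt with h0 | h0
    · rw [← h0, mul_zero]
      exact sum_nonneg fun e _ => mul_nonneg (add_nonneg (hw _) (hw _)) (abs_nonneg _)
    set Y : Finset ι := {x ∈ S | 0 < g x} with hY
    have hvY : v ∈ Y := mem_filter.2 ⟨hv, h0⟩
    obtain ⟨a, ha, hmin⟩ := exists_min_image Y g ⟨v, hvY⟩
    have hm : 0 < g a := (mem_filter.1 ha).2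
    have hin : ∀ x ∈ Y, max (g x - g a) 0 = g x - g a := fun x hx =>
      max_eq_left (sub_nonneg.2 (hmin x hx))
    have hout : ∀ x ∈ S, x ∉ Y → g x = 0 ∧ max (g x - g a) 0 = 0 := fun x hx hx' => by
      have : g x = 0 := le_antisymm (not_lt.1 fun c => hx' (mem_filter.2 ⟨hx, c⟩)) (hg x)
      exact ⟨this, max_eq_right (by linarith)⟩
    have h1 := ih (fun x => max (g x - g a) 0) (fun x => le_max_right _ _) (by
      have : ({x ∈ S | 0 < max (g x - g a) 0} : Finset ι) ⊆ Y.erase a := fun x hx => by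
        obtain ⟨x1, x2⟩ := mem_filter.1 hx
        have x3 : g a < g x := by
          rcases lt_max_iff.1 x2 with c | c
          · linarith
          · exact (lt_irrefl _ c).elim
        exact mem_erase.2 ⟨fun c => by rw [c] at x3; exact lt_irrefl _ x3,
          mem_filter.2 ⟨x1, hm.trans x3⟩⟩
      have h2 := card_le_card this
      rw [card_erase_of_mem ha] at h2
      omega) (fun τ hτ x hx hlt => by
      have e : ∀ y, τ < max (g y - g a) 0 ↔ τ + g a < g y := fun y => by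
        rw [lt_max_iff]
        exact ⟨fun c => c.elim (fun c => by linarith) fun c => by linarith,
          fun c => Or.inl (by linarith)⟩
      simp only [e]
      exact h _ (by linarith) x hx ((e x).1 hlt)) v hv
    have h2 := level_UCoarea s t Γ Y w hw hρ ⟨v, hvY⟩ fun x hx =>
      h 0 le_rfl x (mem_filter.1 hx).1 (mem_filter.1 hx).2
    have h3 := mul_le_mul_of_nonneg_right h2 hm.le
    rw [sum_mul] at h3
    rw [hin v hvY] at h1
    refine le_trans (b := _ + _) (by linarith) ((add_le_add h1 h3).trans ?_)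
    rw [← sum_add_distrib]
    refine sum_le_sum fun e he => ?_
    rw [mul_assoc, ← mul_add]
    refine mul_le_mul_of_nonneg_left ?_ (add_nonneg (hw _) (hw _))
    obtain ⟨e1, e2⟩ := hE e he
    by_cases hs : s e ∈ Y <;> by_cases ht : t e ∈ Y
    · rw [hin _ hs, hin _ ht, if_pos (iff_of_true hs ht)]
      simp
    · rw [hin _ hs, (hout _ e2 ht).2, (hout _ e2 ht).1, if_neg fun c => ht (c.1 hs), sub_zero,
        sub_zero, abs_of_nonneg (sub_nonneg.2 (hmin _ hs)), abs_of_nonneg (hg _)]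
      linarith
    · rw [hin _ ht, (hout _ e1 hs).2, (hout _ e1 hs).1, if_neg fun c => hs (c.2 ht), zero_sub,
        zero_sub, abs_neg, abs_neg, abs_of_nonneg (sub_nonneg.2 (hmin _ ht)),
        abs_of_nonneg (hg _)]
      linarith
    · rw [(hout _ e1 hs).2, (hout _ e2 ht).2, if_pos (iff_of_false hs ht)]
      simp

/-- weighted coarea inequality -/
theorem wcoarea (s t : E → ι) (Γ : Finset E) (S : Finset ι) (hE : ∀ e ∈ Γ, s e ∈ S ∧ t e ∈ S)
    (w : ι → ℝ) (hw : ∀ v, 0 ≤ w v) (ρ : ℝ) (g : ι → ℝ) (hg : ∀ v, 0 ≤ g v)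
    (h : ∀ τ : ℝ, 0 ≤ τ → ∀ v ∈ S, τ < g v → ρ ≤ w v * ct s t Γ {x ∈ S | τ < g x}) :
    ∀ v ∈ S, ρ * g v ≤ ∑ e ∈ Γ, (w (s e) + w (t e)) * |g (s e) - g (t e)| := by
  rcases le_or_gt ρ 0 with hρ | hρ
  · intro v _
    exact (mul_nonpos_of_nonpos_of_nonneg hρ (hg v)).trans
      (sum_nonneg fun e _ => mul_nonneg (add_nonneg (hw _) (hw _)) (abs_nonneg _))
  · exact aux_UCoarea s t Γ S hE w hw hρ _ g hg le_rfl h

lemma pow_UCoarea {x : ℝ} (hx : 0 ≤ x) : x ^ (-(3 / 2) : ℝ) = 1 / √x ^ 3 := by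
  rw [Real.sqrt_eq_rpow, ← Real.rpow_natCast, ← Real.rpow_mul hx, Real.rpow_neg hx, one_div]
  norm_num

lemma step_UCoarea {x : ℝ} (hx : 0 < x) : 1 / √(x + 1) ^ 3 ≤ 2 / √x - 2 / √(x + 1) := by
  have ha : 0 < √x := Real.sqrt_pos.2 hx
  have hb : 0 < √(x + 1) := Real.sqrt_pos.2 (by linarith)
  have hab : √x ≤ √(x + 1) := Real.sqrt_le_sqrt (by linarith)
  have h1 : √(x + 1) ^ 2 = √x ^ 2 + 1 := by
    rw [Real.sq_sqrt hx.le, Real.sq_sqrt (by linarith)]
  generalize √x = a at *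
  generalize √(x + 1) = b at *
  rw [div_sub_div _ _ ha.ne' hb.ne', div_le_div_iff₀ (by positivity) (by positivity)]
  have h2 : (b - a) * (a + b) = 1 := by linarith
  have h3 : a * b * (a + b) ≤ 2 * b ^ 3 := by nlinarith [mul_pos ha hb, mul_pos hb hb]
  have h4 := mul_le_mul_of_nonneg_left h3 (sub_nonneg.2 hab)
  have h5 : (b - a) * (a * b * (a + b)) = a * b := by
    rw [show (b - a) * (a * b * (a + b)) = a * b * ((b - a) * (a + b)) by ring, h2, mul_one]
  linarith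

lemma rank_UCoarea (g : ι → ℝ) (n : ℕ) : ∀ P : Finset ι, #P = n + 1 →
    ∑ v ∈ P, ((#{x ∈ P | g v ≤ g x} : ℕ) : ℝ) ^ (-(3 / 2) : ℝ) ≤ 3 - 2 / √(n + 1 : ℝ) := by
  induction n with
  | zero =>
    intro P hP
    obtain ⟨a, rfl⟩ := card_eq_one.1 hP
    rw [sum_singleton, filter_singleton, if_pos le_rfl]
    norm_num
  | succ n ih =>
    intro P hP
    obtain ⟨a, ha, hmin⟩ := exists_min_image P g (card_pos.1 (by omega))
    have h1 := ih (P.erase a) (by rw [card_erase_of_mem ha]; omega)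
    rw [← add_sum_erase _ _ ha, filter_true_of_mem hmin, hP, pow_UCoarea (Nat.cast_nonneg _)]
    have h2 : ∑ v ∈ P.erase a, ((#{x ∈ P | g v ≤ g x} : ℕ) : ℝ) ^ (-(3 / 2) : ℝ) ≤
        ∑ v ∈ P.erase a, ((#{x ∈ P.erase a | g v ≤ g x} : ℕ) : ℝ) ^ (-(3 / 2) : ℝ) :=
      sum_le_sum fun v hv => Real.rpow_le_rpow_of_nonpos
        (Nat.cast_pos.2 (card_pos.2 ⟨v, mem_filter.2 ⟨hv, le_rfl⟩⟩))
        (Nat.cast_le.2 (card_le_card (filter_subset_filter _ (erase_subset _ _)))) (by norm_num)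
    have h3 := step_UCoarea (x := (n + 1 : ℝ)) (by positivity)
    push_cast
    linarith

theorem sum_rank (P : Finset ι) (g : ι → ℝ) :
    ∑ v ∈ P, ((#{x ∈ P | g v ≤ g x} : ℕ) : ℝ) ^ (-(3 / 2) : ℝ) ≤ 3 := by
  rcases P.eq_empty_or_nonempty with rfl | hP
  · simp
  · have := card_pos.2 hP
    refine (rank_UCoarea g (#P - 1) P (by omega)).trans ?_
    exact sub_le_self _ (by positivity)

theorem exists_median (S : Finset ι) (hS : S.Nonempty) (x : ι → ℝ) :
    ∃ m : ℝ, 2 * #{v ∈ S | m < x v} ≤ #S ∧ 2 * #{v ∈ S | x v < m} ≤ #S := by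
  obtain ⟨c, hc, hmax⟩ := exists_max_image S x hS
  obtain ⟨a, ha, hmin⟩ := exists_min_image {a ∈ S | 2 * #{v ∈ S | x a < x v} ≤ #S} x
    ⟨c, mem_filter.2 ⟨hc, by
      rw [filter_false_of_mem fun v hv => not_lt.2 (hmax v hv)]
      simp⟩⟩
  refine ⟨x a, (mem_filter.1 ha).2, ?_⟩
  rcases ({v ∈ S | x v < x a} : Finset ι).eq_empty_or_nonempty with h | h
  · rw [h]
    simp
  obtain ⟨b, hb, hbm⟩ := exists_max_image _ x h
  obtain ⟨b1, b2⟩ := mem_filter.1 hb
  have h1 : #S < 2 * #{v ∈ S | x b < x v} :=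
    not_le.1 fun c => not_le.2 b2 (hmin b (mem_filter.2 ⟨b1, c⟩))
  have h2 : #{v ∈ S | x v < x a} + #{v ∈ S | x b < x v} ≤ #S := by
    rw [← card_union_of_disjoint (disjoint_left.2 fun v hv hv' =>
      not_le.2 (mem_filter.1 hv').2 (hbm v hv))]
    exact card_le_card (union_subset (filter_subset _ _) (filter_subset _ _))
  omega

end Pool.Agent.P.MP_e59a69_co
end

-- part Pool.Agent.P.MP_e59a69_co.URes
section

open Finset

namespace Pool.Agent.P.MP_e59a69_co

variable {ι E : Type} [DecidableEq ι] [DecidableEq E]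

omit [DecidableEq E] in
lemma ends_URes (s t : E → ι) (Γ : Finset E) (S : Finset ι)
    (hE : ∀ e ∈ Γ, s e ∈ S ∧ t e ∈ S ∧ s e ≠ t e) (f : ι → ℝ) :
    ∑ e ∈ Γ, (f (s e) + f (t e)) = ∑ v ∈ S, f v * ct s t Γ {v} := by
  have h1 : ∀ v ∈ S, f v * (ct s t Γ {v} : ℝ) =
      ∑ e ∈ Γ, ((if s e = v then f v else 0) + if t e = v then f v else 0) := by
    intro v _
    unfold ct
    rw [card_filter, Nat.cast_sum, mul_sum]
    refine sum_congr rfl fun e he => ?_
    have h3 := (hE e he).2.2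
    by_cases a : s e = v <;> by_cases b : t e = v
    · exact absurd (a.trans b.symm) h3
    · simp [a, b]
    · simp [a, b]
    · simp [a, b]
  rw [sum_congr rfl h1, sum_comm]
  refine sum_congr rfl fun e he => ?_
  rw [sum_add_distrib, sum_ite_eq, sum_ite_eq, if_pos (hE e he).1, if_pos (hE e he).2.1]

lemma one_URes (s t : E → ι) (Γ : Finset E) (S : Finset ι)
    (hE : ∀ e ∈ Γ, s e ∈ S ∧ t e ∈ S ∧ s e ≠ t e) (Δ : ℕ) (hΔ : ∀ u ∈ S, ct s t Γ {u} ≤ Δ)
    (ρ : ℝ) (hρ : 0 < ρ)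
    (h : ∀ Y ⊆ S, 2 * #Y ≤ #S → ρ * (#Y : ℝ) ^ (3 / 4 : ℝ) ≤ 8 * ct s t Γ Y) (x : ι → ℝ)
    (m : ℝ) (hm : 2 * #{v ∈ S | m < x v} ≤ #S) (u : ι) (hu : u ∈ S) (hx : m ≤ x u) :
    ρ ^ 2 * (x u - m) ^ 2 ≤ 384 * Δ * ∑ e ∈ Γ, (x (s e) - x (t e)) ^ 2 := by
  obtain ⟨P, hP⟩ : ∃ P : Finset ι, P = {v ∈ S | m < x v} := ⟨_, rfl⟩
  obtain ⟨r, hr⟩ : ∃ r : ι → ℕ, ∀ v, r v = #{y ∈ P | x v ≤ x y} := ⟨_, fun _ => rfl⟩
  obtain ⟨w, hw⟩ : ∃ w : ι → ℝ, ∀ v,
      w v = if v ∈ P then 8 * (r v : ℝ) ^ (-(3 / 4) : ℝ) else 0 := ⟨_, fun _ => rfl⟩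
  obtain ⟨g, hg⟩ : ∃ g : ι → ℝ, ∀ v, g v = max (x v - m) 0 := ⟨_, fun _ => rfl⟩
  have hw0 : ∀ v, 0 ≤ w v := fun v => by
    rw [hw]
    split_ifs
    · positivity
    · exact le_rfl
  have hg0 : ∀ v, 0 ≤ g v := fun v => by rw [hg]; exact le_max_right _ _
  have hgP : ∀ τ : ℝ, 0 ≤ τ → ∀ v, τ < g v → m < x v := fun τ hτ v hv => by
    rw [hg] at hv
    rcases lt_max_iff.1 hv with a | a <;> linarith
  have key := wcoarea s t Γ S (fun e he => ⟨(hE e he).1, (hE e he).2.1⟩) w hw0 ρ g hg0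
    (fun τ hτ v hv hlt => by
      have hvP : v ∈ P := by rw [hP]; exact mem_filter.2 ⟨hv, hgP τ hτ v hlt⟩
      have hYP : {y ∈ S | τ < g y} ⊆ {v ∈ S | m < x v} := fun y hy =>
        mem_filter.2 ⟨(mem_filter.1 hy).1, hgP τ hτ y (mem_filter.1 hy).2⟩
      have h1 := h {y ∈ S | τ < g y} (filter_subset _ _) (by
        have := card_le_card hYP
        omega)
      have h2 : r v ≤ #{y ∈ S | τ < g y} := by
        rw [hr]
        refine card_le_card fun y hy => ?_
        obtain ⟨a, b⟩ := mem_filter.1 hy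
        rw [hP] at a
        refine mem_filter.2 ⟨(mem_filter.1 a).1, hlt.trans_le ?_⟩
        rw [hg, hg]
        exact max_le_max (by linarith) le_rfl
      have h3 : 0 < r v := by
        rw [hr]
        exact card_pos.2 ⟨v, mem_filter.2 ⟨hvP, le_rfl⟩⟩
      have h4 : (0 : ℝ) < r v := Nat.cast_pos.2 h3
      have h5 : (r v : ℝ) ^ (3 / 4 : ℝ) ≤ (#{y ∈ S | τ < g y} : ℝ) ^ (3 / 4 : ℝ) :=
        Real.rpow_le_rpow h4.le (Nat.cast_le.2 h2) (by norm_num)
      have h6 : 0 < (r v : ℝ) ^ (3 / 4 : ℝ) := Real.rpow_pos_of_pos h4 _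
      rw [hw, if_pos hvP, Real.rpow_neg h4.le, mul_right_comm, ← div_eq_mul_inv, le_div_iff₀ h6]
      exact (mul_le_mul_of_nonneg_left h5 hρ.le).trans h1) u hu
  have hgu : g u = x u - m := by rw [hg]; exact max_eq_left (by linarith)
  rw [hgu] at key
  have c1 := sum_mul_sq_le_sq_mul_sq Γ (fun e => w (s e) + w (t e))
    (fun e => |g (s e) - g (t e)|)
  have c2 : ∑ e ∈ Γ, |g (s e) - g (t e)| ^ 2 ≤ ∑ e ∈ Γ, (x (s e) - x (t e)) ^ 2 := by
    refine sum_le_sum fun e _ => ?_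
    rw [sq_abs, sq_le_sq, hg, hg]
    have := abs_max_sub_max_le_abs (x (s e) - m) (x (t e) - m) 0
    rwa [sub_sub_sub_cancel_right] at this
  have c3 : ∑ v ∈ S, w v ^ 2 ≤ 192 := by
    have a1 : ∑ v ∈ S, w v ^ 2 = ∑ v ∈ P, w v ^ 2 := by
      refine (sum_subset (by rw [hP]; exact filter_subset _ _) fun v _ hv => ?_).symm
      rw [hw, if_neg hv]
      ring
    have a2 : ∑ v ∈ P, w v ^ 2 =
        64 * ∑ v ∈ P, ((#{y ∈ P | x v ≤ x y} : ℕ) : ℝ) ^ (-(3 / 2) : ℝ) := by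
      rw [mul_sum]
      refine sum_congr rfl fun v hv => ?_
      rw [hw, if_pos hv, mul_pow, ← hr, ← Real.rpow_natCast ((r v : ℝ) ^ _),
        ← Real.rpow_mul (Nat.cast_nonneg _)]
      norm_num
    have a3 := sum_rank P x
    linarith
  have c4 : ∑ e ∈ Γ, (w (s e) + w (t e)) ^ 2 ≤ 384 * Δ := by
    have a1 : ∑ e ∈ Γ, (w (s e) + w (t e)) ^ 2 ≤
        2 * ∑ e ∈ Γ, (w (s e) ^ 2 + w (t e) ^ 2) := by
      rw [mul_sum]
      exact sum_le_sum fun e _ => by nlinarith [sq_nonneg (w (s e) - w (t e))]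
    have a2 := ends_URes s t Γ S hE fun v => w v ^ 2
    have a3 : ∑ v ∈ S, w v ^ 2 * ct s t Γ {v} ≤ (∑ v ∈ S, w v ^ 2) * Δ := by
      rw [sum_mul]
      exact sum_le_sum fun v hv =>
        mul_le_mul_of_nonneg_left (Nat.cast_le.2 (hΔ v hv)) (sq_nonneg _)
    have a4 := mul_le_mul_of_nonneg_right c3 (Nat.cast_nonneg (α := ℝ) Δ)
    linarith
  have c5 := mul_le_mul c4 c2 (sum_nonneg fun _ _ => sq_nonneg _) (by positivity)
  have c6 := pow_le_pow_left₀ (mul_nonneg hρ.le (by linarith)) key 2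
  rw [mul_pow] at c6
  linarith

/-- isoperimetry and bounded degree give small resistances -/
theorem res_of_iso (s t : E → ι) (Γ : Finset E) (S : Finset ι)
    (hE : ∀ e ∈ Γ, s e ∈ S ∧ t e ∈ S ∧ s e ≠ t e) (Δ : ℕ) (hΔ : ∀ u ∈ S, ct s t Γ {u} ≤ Δ)
    (ρ : ℝ) (hρ : 0 < ρ)
    (h : ∀ Y ⊆ S, 2 * #Y ≤ #S → ρ * (#Y : ℝ) ^ (3 / 4 : ℝ) ≤ 8 * ct s t Γ Y) (x : ι → ℝ) :
    ∀ u ∈ S, ∀ v ∈ S,
      ρ ^ 2 * (x u - x v) ^ 2 ≤ 1536 * Δ * ∑ e ∈ Γ, (x (s e) - x (t e)) ^ 2 := by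
  intro u hu v hv
  obtain ⟨m, h1, h2⟩ := exists_median S ⟨u, hu⟩ x
  have all : ∀ y ∈ S, ρ ^ 2 * (x y - m) ^ 2 ≤ 384 * Δ * ∑ e ∈ Γ, (x (s e) - x (t e)) ^ 2 := by
    intro y hy
    rcases le_total m (x y) with a | a
    · exact one_URes s t Γ S hE Δ hΔ ρ hρ h x m h1 y hy a
    · have := one_URes s t Γ S hE Δ hΔ ρ hρ h (fun z => - x z) (-m)
        (by simpa only [neg_lt_neg_iff] using h2) y hy (neg_le_neg a)
      have e1 : ∑ e ∈ Γ, (- x (s e) - - x (t e)) ^ 2 = ∑ e ∈ Γ, (x (s e) - x (t e)) ^ 2 :=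
        sum_congr rfl fun e _ => by ring
      have e2 : (- x y - - m) ^ 2 = (x y - m) ^ 2 := by ring
      rwa [e1, e2] at this
  have a1 := all u hu
  have a2 := all v hv
  have a3 : (x u - x v) ^ 2 ≤ 2 * (x u - m) ^ 2 + 2 * (x v - m) ^ 2 := by
    nlinarith [sq_nonneg (x u + x v - 2 * m)]
  have a4 := mul_le_mul_of_nonneg_left a3 (sq_nonneg ρ)
  linarith

end Pool.Agent.P.MP_e59a69_co
end

-- part Pool.Agent.P.MP_e59a69_co.UThin
section

open Finset

namespace Pool.Agent.P.MP_e59a69_co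

lemma ind_UThin {ι E : Type} [DecidableEq ι] (s t : E → ι) (A : Finset E) (Y : Finset ι) :
    ∑ e ∈ A, ((if s e ∈ Y then (1 : ℝ) else 0) - if t e ∈ Y then 1 else 0) ^ 2 =
      (ct s t A Y : ℝ) := by
  unfold ct
  rw [card_filter, Nat.cast_sum]
  refine sum_congr rfl fun e _ => ?_
  by_cases h1 : s e ∈ Y <;> by_cases h2 : t e ∈ Y <;> simp [h1, h2]

lemma pair_UThin {ι E : Type} [DecidableEq ι] {s t : E → ι} {A : Finset E} {u v : ι}
    (hE : ∀ e ∈ A, (s e = u ∧ t e = v) ∨ (s e = v ∧ t e = u)) (Y : Finset ι) :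
    ct s t A Y = if (u ∈ Y ↔ v ∈ Y) then 0 else #A := by
  unfold ct
  split_ifs with h
  · rw [card_eq_zero, filter_eq_empty_iff]
    intro e he
    rcases hE e he with ⟨a, b⟩ | ⟨a, b⟩ <;> rw [a, b] <;> tauto
  · rw [filter_true_of_mem]
    intro e he
    rcases hE e he with ⟨a, b⟩ | ⟨a, b⟩ <;> rw [a, b] <;> tauto

lemma sep_UThin {ι : Type} [DecidableEq ι] {u v : ι} {Y : Finset ι} (h : Sep {u, v} Y) :
    ¬ (u ∈ Y ↔ v ∈ Y) := by
  obtain ⟨⟨a, ha, h1⟩, b, hb, h2⟩ := h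
  rw [mem_insert, mem_singleton] at ha hb
  rcases ha with rfl | rfl <;> rcases hb with rfl | rfl <;> tauto

/-- small resistances give a thin connected part -/
theorem thin_join (T : ℕ) : ∃ Λ : ℕ, ∀ (ι E : Type) [DecidableEq ι] [DecidableEq E]
    (s t : E → ι) (Γ : Finset E) (S : Finset ι), Conn s t S Γ →
    (∀ x : ι → ℝ, ∀ e ∈ Γ, Λ * (x (s e) - x (t e)) ^ 2 ≤ ∑ f ∈ Γ, (x (s f) - x (t f)) ^ 2) →
    ∃ J ⊆ Γ, Conn s t S J ∧ ∀ Y, T * ct s t J Y ≤ ct s t Γ Y := by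
  rcases Nat.eq_zero_or_pos T with rfl | hT
  · exact ⟨0, fun ι E _ _ s t Γ S hc _ => ⟨Γ, Subset.rfl, hc, fun Y => by simp⟩⟩
  have hT' : (1 : ℝ) ≤ T := by exact_mod_cast hT
  obtain ⟨j, hj⟩ := pow_unbounded_of_one_lt (T : ℝ) (show (1 : ℝ) < 10 / 9 by norm_num)
  refine ⟨100 * 10 ^ j * T, fun ι E _ _ s t Γ S hc h => ?_⟩
  push_cast at h
  let a : Γ → (ι → ℝ) →ₗ[ℝ] ℝ := fun e =>
    (LinearMap.proj (s e.1) : (ι → ℝ) →ₗ[ℝ] ℝ) - (LinearMap.proj (t e.1) : (ι → ℝ) →ₗ[ℝ] ℝ)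
  have e1 : ∀ x, ∑ k : Γ, a k x ^ 2 = ∑ f ∈ Γ, (x (s f) - x (t f)) ^ 2 := fun x =>
    sum_coe_sort Γ fun f => (x (s f) - x (t f)) ^ 2
  have h' : ∀ (i : Γ) x, 100 * 10 ^ j * (T : ℝ) * a i x ^ 2 ≤ ∑ k : Γ, a k x ^ 2 := fun i x =>
    (h x i.1 i.2).trans_eq (e1 x).symm
  have hq : (1 : ℝ) ≤ 10 ^ j := one_le_pow₀ (by norm_num)
  obtain ⟨K, -, h1, h2⟩ := thin_span (LinearMap.pi a) a a (1 / T) (by positivity)
    (fun i w => by
      rw [one_div, ← div_eq_inv_mul, le_div_iff₀ (by positivity)]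
      refine le_trans ?_ (h' i w)
      have : 0 ≤ (T : ℝ) * a i w ^ 2 := by positivity
      nlinarith) j univ
    (fun w => le_mul_of_one_le_left (sum_nonneg fun _ _ => sq_nonneg _) (by
      rw [one_div, ← div_eq_inv_mul, le_div_iff₀ (by positivity), one_mul]
      exact hj.le))
    (fun i _ x => by
      refine le_trans ?_ (h' i x)
      have : 0 ≤ (10 : ℝ) ^ j * a i x ^ 2 := by positivity
      nlinarith)
  have e2 : ∀ Y : Finset ι, ∑ k ∈ K, a k (fun v => if v ∈ Y then 1 else 0) ^ 2 =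
      ct s t (K.map (Function.Embedding.subtype _)) Y := fun Y => by
    rw [← ind_UThin, sum_map]
    rfl
  have e3 : ∀ Y : Finset ι, ∑ k : Γ, a k (fun v => if v ∈ Y then 1 else 0) ^ 2 = ct s t Γ Y :=
    fun Y => (e1 _).trans (ind_UThin s t Γ Y)
  refine ⟨K.map (Function.Embedding.subtype _), fun e he => ?_, fun X hX => ?_, fun Y => ?_⟩
  · obtain ⟨i, -, rfl⟩ := mem_map.1 he
    exact i.2
  · by_contra h0
    have h3 := e2 X
    rw [show ct s t (K.map (Function.Embedding.subtype _)) X = 0 by omega, Nat.cast_zero,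
      sum_eq_zero_iff_of_nonneg fun _ _ => sq_nonneg _] at h3
    have h4 := e3 X
    rw [sum_eq_zero fun i hi => by
      rw [h2 _ (fun k hk => (pow_eq_zero_iff two_ne_zero).1 (h3 k hk)) i hi]; norm_num] at h4
    have h5 := hc X hX
    have h6 : ct s t Γ X = 0 := by exact_mod_cast h4.symm
    omega
  · have h3 := (e2 Y).symm.trans_le ((h1 _).trans_eq (congrArg (1 / (T : ℝ) * ·) (e3 Y)))
    rw [one_div, ← div_eq_inv_mul, le_div_iff₀ (by positivity), mul_comm] at h3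
    exact_mod_cast h3

/-- a bundle of parallel edges -/
theorem gam_pair {ι E : Type} [DecidableEq ι] [DecidableEq E] {κ Δ T : ℕ} (hκ : 1 ≤ κ)
    (hΔ : κ ≤ Δ) (hT : T ≤ κ) (s t : E → ι) (Γ : Finset E) {u v : ι} (huv : u ≠ v) (hc : #Γ = κ)
    (hE : ∀ e ∈ Γ, (s e = u ∧ t e = v) ∨ (s e = v ∧ t e = u)) : Gam κ Δ T s t Γ {u, v} := by
  obtain ⟨e₀, he₀⟩ := card_pos.1 (show 0 < #Γ by omega)
  have hE' : ∀ e ∈ ({e₀} : Finset E), (s e = u ∧ t e = v) ∨ (s e = v ∧ t e = u) := fun e he =>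
    hE e (mem_singleton.1 he ▸ he₀)
  refine ⟨(card_pair huv).ge, fun e he => ?_, fun Y hY => ?_, fun w hw Y hY => ?_, fun w _ => ?_,
    {e₀}, singleton_subset_iff.2 he₀, fun Y hY => ?_, fun Y => ?_⟩
  · rcases hE e he with ⟨a, b⟩ | ⟨a, b⟩ <;> rw [a, b] <;> simp [huv, huv.symm]
  · rw [pair_UThin hE, if_neg (sep_UThin hY), hc]
  · obtain ⟨⟨a, ha, h1⟩, b, hb, h2⟩ := hY
    rw [mem_erase, mem_insert, mem_singleton] at ha hb
    rw [mem_insert, mem_singleton] at hw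
    have : a = b := by grind
    exact absurd (this ▸ h1) h2
  · exact (card_filter_le _ _).trans (hc.trans_le hΔ)
  · rw [pair_UThin hE', if_neg (sep_UThin hY), card_singleton]
  · rw [pair_UThin hE', pair_UThin hE, card_singleton]
    split_ifs <;> omega

/-- iterated pair selector -/
theorem sel_iter {W κ ι : Type} [AddCommGroup W] [Module ℝ W] [Fintype κ] [Fintype ι]
    [DecidableEq ι] (γ : W →ₗ[ℝ] κ → ℝ) (j : ℕ) (α : ι → ℕ → W →ₗ[ℝ] ℝ) (B : ℝ) (hB : 0 ≤ B)
    (h1 : ∀ w, ∑ i, ∑ a ∈ range (2 ^ j), α i a w ^ 2 ≤ B * ∑ k, γ w k ^ 2)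
    (h2 : ∀ i a w, 100 * α i a w ^ 2 ≤ (9 / 10) ^ j * B * ∑ k, γ w k ^ 2) :
    ∃ σ : ι → ℕ, (∀ i, σ i < 2 ^ j) ∧
      ∀ w, ∑ i, α i (σ i) w ^ 2 ≤ (9 / 10) ^ j * B * ∑ k, γ w k ^ 2 := by
  induction j generalizing α B with
  | zero => exact ⟨fun _ => 0, fun _ => by simp, fun w => by simpa using h1 w⟩
  | succ j ih =>
    have hγ : ∀ w, ∑ k, (√B • γ) w k ^ 2 = B * ∑ k, γ w k ^ 2 := fun w => by
      rw [mul_sum]
      refine sum_congr rfl fun k _ => ?_
      rw [LinearMap.smul_apply, Pi.smul_apply, smul_eq_mul, mul_pow, Real.sq_sqrt hB]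
    obtain ⟨τ, hτ⟩ := form_sel (ι := ι × Fin (2 ^ j)) (√B • γ)
      (fun l => α l.1.1 ((if l.2 then 2 ^ j else 0) + l.1.2)) (fun w => by
        rw [hγ, Fintype.sum_prod_type, Fintype.sum_prod_type]
        refine le_trans (le_of_eq (sum_congr rfl fun i _ => ?_)) (h1 w)
        rw [pow_succ, mul_two, sum_range_add, ← sum_add_distrib, sum_range]
        refine sum_congr rfl fun a _ => ?_
        rw [Fintype.sum_bool, if_pos rfl, if_neg Bool.false_ne_true, zero_add, add_comm])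
      fun l w => by
        rw [hγ]
        refine (h2 _ _ w).trans ?_
        rw [mul_assoc]
        exact mul_le_of_le_one_left (mul_nonneg hB (sum_nonneg fun _ _ => sq_nonneg _))
          (pow_le_one₀ (by norm_num) (by norm_num))
    let c : ι → ℕ → ℕ := fun i a => if h : a < 2 ^ j then if τ (i, ⟨a, h⟩) then 2 ^ j else 0 else 0
    obtain ⟨σ, hσ, h3⟩ := ih (fun i a => α i (c i a + a)) (9 / 10 * B) (by positivity) (fun w => by
      have h4 := hτ w
      rw [hγ, Fintype.sum_prod_type, ← mul_assoc] at h4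
      refine le_trans (le_of_eq (sum_congr rfl fun i _ => ?_)) h4
      rw [sum_range]
      exact sum_congr rfl fun a _ => by simp only [c, dif_pos a.2])
      fun i a w => (h2 _ _ w).trans_eq (by ring)
    refine ⟨fun i => c i (σ i) + σ i, fun i => ?_, fun w => (h3 w).trans_eq (by ring)⟩
    have h5 := hσ i
    have h6 : c i (σ i) ≤ 2 ^ j := by
      simp only [c]
      split_ifs <;> simp
    change c i (σ i) + σ i < _
    rw [pow_succ]
    omega

end Pool.Agent.P.MP_e59a69_co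
end

-- part Pool.Agent.P.MP_e59a69_co.UCaseB
section

open Finset

namespace Pool.Agent.P.MP_e59a69_co

/-- small resistances give thin connected parts -/
def JoinOk (ι E : Type) [DecidableEq ι] (Λ T : ℕ) : Prop :=
  ∀ (s t : E → ι) (Γ : Finset E) (S : Finset ι), Conn s t S Γ →
    (∀ x : ι → ℝ, ∀ e ∈ Γ, Λ * (x (s e) - x (t e)) ^ 2 ≤ ∑ f ∈ Γ, (x (s f) - x (t f)) ^ 2) →
    ∃ J ⊆ Γ, Conn s t S J ∧ ∀ Y, T * ct s t J Y ≤ ct s t Γ Y

variable {ι E : Type} [DecidableEq ι] [DecidableEq E] {q κ K b Δ T c₁ c₂ Λ : ℕ}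
  {U : Finset ι} {s t : E → ι} {A : Finset E}

/-- all degrees are large -/
theorem case_dense (P : Par q κ K b Δ T c₁ c₂ Λ) (hJ : JoinOk ι E Λ T) (h : St K b s t A U)
    (hU : U.Nonempty) (hm : ∀ u ∈ U, ∀ v ∈ U, u ≠ v → #(btw s t A u v) < κ)
    (hdeg : ∀ u ∈ U, K + b < ct s t A {u}) :
    ∃ S ⊆ U, Gam κ Δ T s t (ins s t A S) S := by
  have k1 := P.k1
  have hρ' := P.hρ
  obtain ⟨S, hS, ρ, r1, r2, r3, r4, r5⟩ := exists_densest h hU (by omega) P.hd hdeg
  have k2 : (1 : ℝ) ≤ κ := by exact_mod_cast k1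
  have hρ : 320 * (κ : ℝ) ≤ ρ := by
    have : ((640 * κ : ℕ) : ℝ) ≤ b := by exact_mod_cast hρ'
    push_cast at this
    linarith
  have hρ0 : 0 < ρ := by linarith
  have hE : ∀ e ∈ ins s t A S, s e ∈ S ∧ t e ∈ S ∧ s e ≠ t e := fun e he => by
    obtain ⟨a, b, c⟩ := mem_filter.1 he
    exact ⟨b, c, h.noloop a⟩
  have hD : ∀ u ∈ S, ct s t (ins s t A S) {u} ≤ Δ := fun u hu =>
    (ct_mono s t (filter_subset _ _) _).trans (r3 u hu)
  have hc := conn_of_densest hρ r4 r5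
  refine ⟨S, hS, r2, hE, hc, rob_of_densest hρ r4 r5 fun u hu v hv => hm u (hS hu) v (hS hv), hD,
    hJ s t _ S (fun X hX => k1.trans (hc X hX)) fun x e he => ?_⟩
  have h1 := res_of_iso s t _ S hE Δ hD ρ hρ0 (iso_of_densest hρ0.le r4 r5) x _ (hE e he).1 _
    (hE e he).2.1
  have h2 : ((1536 * Δ * Λ : ℕ) : ℝ) ≤ ((320 * κ) ^ 2 : ℕ) := by exact_mod_cast P.hΛ
  push_cast at h2
  have h3 : (320 * (κ : ℝ)) ^ 2 ≤ ρ ^ 2 := pow_le_pow_left₀ (by positivity) hρ 2
  have h4 : (0 : ℝ) < 1536 * Δ := by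
    have : (κ : ℝ) ≤ Δ := by exact_mod_cast P.hΔ
    linarith
  refine le_of_mul_le_mul_left ?_ h4
  have h5 := mul_le_mul_of_nonneg_right (h2.trans h3) (sq_nonneg (x (s e) - x (t e)))
  linarith

/-- two units joined by many edges -/
theorem case_pair (P : Par q κ K b Δ T c₁ c₂ Λ) {u v : ι} (huv : u ≠ v)
    (hm : κ ≤ #(btw s t A u v)) : ∃ Γ ⊆ ins s t A {u, v}, Gam κ Δ T s t Γ {u, v} := by
  obtain ⟨Γ, h1, h2⟩ := exists_subset_card_eq hm
  refine ⟨Γ, fun e he => ?_, gam_pair P.k1 P.hΔ P.hT s t Γ huv h2 fun e he =>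
    (mem_filter.1 (h1 he)).2⟩
  obtain ⟨a, ⟨b, c⟩ | ⟨b, c⟩⟩ := mem_filter.1 (h1 he) <;> simp [ins, a, b, c]

omit [DecidableEq E] in
/-- a state with two units -/
theorem two_units (P : Par q κ K b Δ T c₁ c₂ Λ) (h : St K b s t A U) (h2 : #U = 2) :
    ∃ u ∈ U, ∃ v ∈ U, u ≠ v ∧ κ ≤ #(btw s t A u v) := by
  obtain ⟨u, v, huv, rfl⟩ := card_eq_two.1 h2
  refine ⟨u, by simp, v, by simp, huv, ?_⟩
  have h3 : A ⊆ btw s t A u v := fun e he => by
    have a := h.noloop he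
    obtain ⟨b, c⟩ := h.ends e he
    simp only [mem_insert, mem_singleton] at b c
    refine mem_filter.2 ⟨he, ?_⟩
    rcases b with b | b <;> rcases c with c | c
    · exact (a (b.trans c.symm)).elim
    · exact Or.inl ⟨b, c⟩
    · exact Or.inr ⟨b, c⟩
    · exact (a (b.trans c.symm)).elim
  have h4 := card_le_card h3
  have h5 := h.two
  have h6 := P.hK
  rw [h2] at h5
  omega

end Pool.Agent.P.MP_e59a69_co
end
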