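import Pool.Agent.K.MP_e59a69_co.C2
import Pool.Agent.K.MP_e59a69_co.C1
import Pool.Agent.K.MP_e59a69_co.C0

-- part Pool.Agent.P.MP_e59a69_co.ULift
section

open Finset

namespace Pool.Agent.P.MP_e59a69_co

variable {N ι E : Type} [DecidableEq N] [DecidableEq ι] [DecidableEq E]

lemma ct_union_ULift (s t : E → N) {A B : Finset E} (h : Disjoint A B) (X : Finset N) :
    ct s t (A ∪ B) X = ct s t A X + ct s t B X := by
  unfold ct
  rw [filter_union, card_union_of_disjoint (disjoint_filter_filter h)]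

omit [DecidableEq E] in
lemma ct_mono_ULift (s t : E → N) {A B : Finset E} (h : A ⊆ B) (X : Finset N) :
    ct s t A X ≤ ct s t B X := card_le_card (filter_subset_filter _ h)

omit [DecidableEq E] in
lemma ins_erase_ULift {K b : ℕ} {s t : E → ι} {A : Finset E} {U : Finset ι} (h : St K b s t A U)
    {a : ι} (hout : ∀ e ∈ A, t e ≠ a) : ins s t A (U.erase a) = {e ∈ A | s e ≠ a} :=
  filter_congr fun e he => by
    simp [mem_erase, (h.ends e he).1, (h.ends e he).2, hout e he]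

omit [DecidableEq E] in
lemma count_ULift {K b : ℕ} {s t : E → ι} {A : Finset E} {U : Finset ι} (h : St K b s t A U)
    {a : ι} (ha : a ∈ U) :
    K * #(U.erase a) ≤ #{e ∈ A | s e = a} + #{e ∈ A | s e ≠ a} + b := by
  have h1 := h.two
  have h2 : #{e ∈ A | s e = a} + #{e ∈ A | s e ≠ a} = #A := card_filter_add_card_filter_not _
  rw [← card_erase_add_one ha, Nat.mul_succ] at h1
  omega

lemma ct_image_ULift (s t : E → N) (Q : Finset (E × E)) (g : E × E → E)
    (hg : ∀ p ∈ Q, ∀ p' ∈ Q, g p = g p' → p = p') (X : Finset N) :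
    ct s t (Q.image g) X = #{p ∈ Q | ¬ (s (g p) ∈ X ↔ t (g p) ∈ X)} := by
  unfold ct
  rw [filter_image, card_image_of_injOn fun p hp p' hp' e =>
    hg p (mem_filter.1 hp).1 p' (mem_filter.1 hp').1 e]

/-- the lifting step; all edges at the unit `a` leave it -/
theorem lift_state {K b κ : ℕ} (hK : 2 * b + κ ≤ K) (f : N → ι) (s t : E → N) (A : Finset E)
    (U : Finset ι) (h : St K b (fun e => f (s e)) (fun e => f (t e)) A U) {a : ι} (ha : a ∈ U)
    (hout : ∀ e ∈ A, f (t e) ≠ a) (hlo : #{e ∈ A | f (s e) = a} ≤ K + b)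
    (hnt : ∀ S ⊆ U.erase a, 2 ≤ #S →
      #(ins (fun e => f (s e)) (fun e => f (t e)) A S) + b + K < K * #S)
    (h3 : 3 ≤ #U) (Q : Finset (E × E)) (hQ : Prs {e ∈ A | f (s e) = a} (fun e => f (t e)) Q)
    (hc : #Q = b) :
    ∃ (s' : E → N) (A' Γ : Finset E), St K b (fun e => f (s' e)) (fun e => f (t e)) A' (U.erase a) ∧
      Γ ⊆ {e ∈ A | f (s e) = a} ∧ #Γ = κ ∧ ∀ X : Finset N, ∃ z ≤ pc s Q X,
        ct s' t A' X + ct s t Γ X ≤ ct s t A X + z ∧
        (z = 0 ∨ ∃ v w, f v ∈ U.erase a ∧ f w ∈ U.erase a ∧ v ∈ X ∧ w ∉ X) := by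
  classical
  have hE := ins_erase_ULift h hout
  have c1 := count_ULift h ha
  have c2 := hnt _ Subset.rfl (by rw [card_erase_of_mem ha]; omega)
  rw [hE] at c2
  obtain ⟨B, hB⟩ : ∃ B : Finset E, B = {e ∈ A | f (s e) = a} := ⟨_, rfl⟩
  obtain ⟨A0, hA0⟩ : ∃ A0 : Finset E, A0 = {e ∈ A | f (s e) ≠ a} := ⟨_, rfl⟩
  rw [← hB] at hlo hQ c1 ⊢
  rw [← hA0] at c1 c2 hE
  have mB : ∀ e, e ∈ B ↔ e ∈ A ∧ f (s e) = a := fun e => by rw [hB, mem_filter]
  have mA : ∀ e, e ∈ A0 ↔ e ∈ A ∧ f (s e) ≠ a := fun e => by rw [hA0, mem_filter]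
  obtain ⟨y, hy⟩ : ∃ y, K * #(U.erase a) = #A0 + b + K + y := ⟨_, (Nat.add_sub_of_le c2.le).symm⟩
  obtain ⟨Q', hQ', hy'⟩ := exists_subset_card_eq (s := Q) (n := y) (by omega)
  have i1 : ∀ p ∈ Q', ∀ p' ∈ Q', p.1 = p'.1 → p = p' := fun p hp p' hp' =>
    (hQ.dis p (hQ' hp) p' (hQ' hp')).2.1
  have i2 : ∀ p ∈ Q', ∀ p' ∈ Q', p.2 = p'.2 → p = p' := fun p hp p' hp' =>
    (hQ.dis p (hQ' hp) p' (hQ' hp')).2.2
  obtain ⟨s', hs1, hs2⟩ : ∃ s' : E → N, (∀ p ∈ Q', s' p.1 = t p.2) ∧ ∀ e ∈ A0, s' e = s e := by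
    refine ⟨fun e => if h : ∃ p ∈ Q', p.1 = e then t h.choose.2 else s e, fun p hp => ?_,
      fun e he => dif_neg ?_⟩
    · have h0 : ∃ p' ∈ Q', p'.1 = p.1 := ⟨p, hp, rfl⟩
      simp only [dif_pos h0]
      rw [i1 _ h0.choose_spec.1 p hp h0.choose_spec.2]
    · rintro ⟨p, hp, rfl⟩
      exact ((mA _).1 he).2 ((mB _).1 (hQ.mem p (hQ' hp)).1).2
  have s1 : Q'.image Prod.fst ⊆ B := image_subset_iff.2 fun p hp => (hQ.mem p (hQ' hp)).1
  have s2 : Q'.image Prod.snd ⊆ B := image_subset_iff.2 fun p hp => (hQ.mem p (hQ' hp)).2.1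
  have k1 : #(Q'.image Prod.fst) = y := hy' ▸ card_image_of_injOn i1
  have k2 : #(Q'.image Prod.snd) = y := hy' ▸ card_image_of_injOn i2
  have d0 : Disjoint A0 B := disjoint_left.2 fun e h1 h2 => ((mA _).1 h1).2 ((mB _).1 h2).2
  have d1 : Disjoint (Q'.image Prod.fst) (Q'.image Prod.snd) := disjoint_left.2 fun e h1 h2 => by
    obtain ⟨p, hp, rfl⟩ := mem_image.1 h1
    obtain ⟨p', hp', e⟩ := mem_image.1 h2
    exact (hQ.dis p (hQ' hp) p' (hQ' hp')).1 e.symm
  obtain ⟨Γ, hΓ, hκ⟩ := exists_subset_card_eq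
    (s := B \ (Q'.image Prod.fst ∪ Q'.image Prod.snd)) (n := κ) (by
      rw [card_sdiff_of_subset (union_subset s1 s2), card_union_of_disjoint d1]
      omega)
  have tU : ∀ e ∈ B, f (t e) ∈ U.erase a := fun e he =>
    mem_erase.2 ⟨hout e ((mB _).1 he).1, (h.ends e ((mB _).1 he).1).2⟩
  refine ⟨s', A0 ∪ Q'.image Prod.fst, Γ, ⟨fun e he => ?_, fun S hS hne => ?_, ?_⟩,
    hΓ.trans sdiff_subset, hκ, fun X => ?_⟩
  · rcases mem_union.1 he with he | he
    · rw [hs2 e he]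
      rw [← hE] at he
      exact (mem_filter.1 he).2
    · obtain ⟨p, hp, rfl⟩ := mem_image.1 he
      rw [hs1 p hp]
      exact ⟨tU _ (hQ.mem p (hQ' hp)).2.1, tU _ (hQ.mem p (hQ' hp)).1⟩
  · have u1 : ∀ e ∈ ins (fun e => f (s' e)) (fun e => f (t e)) (A0 ∪ Q'.image Prod.fst) S,
        e ∈ A0 → e ∈ ins (fun e => f (s e)) (fun e => f (t e)) A S := fun e he h0 => by
      have := (mem_filter.1 he).2
      simp only [hs2 e h0] at this
      exact mem_filter.2 ⟨((mA _).1 h0).1, this⟩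
    by_cases h2 : 2 ≤ #S
    · have u2 := hnt S hS h2
      have u3 := (card_le_card (show ins (fun e => f (s' e)) (fun e => f (t e))
          (A0 ∪ Q'.image Prod.fst) S ⊆ ins (fun e => f (s e)) (fun e => f (t e)) A S ∪
          Q'.image Prod.fst from fun e he => mem_union.2
          ((mem_union.1 (mem_filter.1 he).1).imp_left (u1 e he)))).trans (card_union_le _ _)
      omega
    · refine le_trans (Nat.add_le_add_right (card_le_card fun e he => u1 e he ?_) K)
        (h.one S (hS.trans (erase_subset _ _)) hne)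
      obtain ⟨he1, he2⟩ := mem_filter.1 he
      refine (mem_union.1 he1).resolve_right fun h0 => ?_
      obtain ⟨p, hp, rfl⟩ := mem_image.1 h0
      simp only [hs1 p hp] at he2
      exact (hQ.mem p (hQ' hp)).2.2 (card_le_one.1 (by omega) _ he2.2 _ he2.1)
  · rw [card_union_of_disjoint (d0.mono_right s1)]
    omega
  · refine ⟨#{p ∈ Q' | ¬ (s p.1 ∈ X ↔ s p.2 ∈ X) ∧ ¬ (t p.2 ∈ X ↔ t p.1 ∈ X)},
      card_le_card fun p hp => mem_filter.2 ⟨hQ' (mem_filter.1 hp).1, (mem_filter.1 hp).2.1⟩,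
      ?_, ?_⟩
    · have e1 : ct s' t A0 X = ct s t A0 X :=
        congrArg card (filter_congr fun e he => by rw [hs2 e he])
      have e2 : ct s' t (Q'.image Prod.fst) X ≤
          #{p ∈ Q' | ¬ (s p.1 ∈ X ↔ s p.2 ∈ X) ∧ ¬ (t p.2 ∈ X ↔ t p.1 ∈ X)} +
          (ct s t (Q'.image Prod.fst) X + ct s t (Q'.image Prod.snd) X) := by
        rw [ct_image_ULift _ _ _ _ i1, ct_image_ULift _ _ _ _ i1, ct_image_ULift _ _ _ _ i2]
        refine le_trans (card_le_card fun p hp => ?_)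
          ((card_union_le _ _).trans (Nat.add_le_add_left (card_union_le _ _) _))
        obtain ⟨hp1, hp2⟩ := mem_filter.1 hp
        rw [hs1 p hp1] at hp2
        simp only [mem_union, mem_filter, hp1, true_and]
        tauto
      have e3 := ct_mono_ULift s t (show A0 ∪ ((Q'.image Prod.fst ∪ Q'.image Prod.snd) ∪ Γ) ⊆ A
        from union_subset (fun e he => ((mA _).1 he).1) fun e he =>
          ((mB _).1 (union_subset (union_subset s1 s2) (hΓ.trans sdiff_subset) he)).1) X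
      rw [ct_union_ULift _ _ (d0.mono_right (union_subset (union_subset s1 s2)
          (hΓ.trans sdiff_subset))), ct_union_ULift _ _ (disjoint_sdiff.mono_right hΓ),
        ct_union_ULift _ _ d1] at e3
      rw [ct_union_ULift _ _ (d0.mono_right s1), e1]
      omega
    · rcases Nat.eq_zero_or_pos #{p ∈ Q' | ¬ (s p.1 ∈ X ↔ s p.2 ∈ X) ∧ ¬ (t p.2 ∈ X ↔ t p.1 ∈ X)}
        with h0 | h0
      · exact Or.inl h0
      · obtain ⟨p, hp⟩ := card_pos.1 h0
        obtain ⟨hp1, _, hp2⟩ := mem_filter.1 hp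
        have v1 := tU _ (hQ.mem p (hQ' hp1)).1
        have v2 := tU _ (hQ.mem p (hQ' hp1)).2.1
        by_cases hx : t p.1 ∈ X
        · exact Or.inr ⟨_, _, v1, v2, hx, by tauto⟩
        · exact Or.inr ⟨_, _, v2, v1, by tauto, hx⟩

/-- a unit of low degree has more than `K` edges -/
theorem low_deg {K b : ℕ} {s t : E → ι} {A : Finset E} {U : Finset ι} (h : St K b s t A U) {a : ι}
    (ha : a ∈ U) (hout : ∀ e ∈ A, t e ≠ a)
    (hnt : #(ins s t A (U.erase a)) + b + K < K * #(U.erase a)) : K < #{e ∈ A | s e = a} := by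
  have c1 := count_ULift h ha
  rw [ins_erase_ULift h hout] at hnt
  omega

/-- two sides of the other units are joined by many edges -/
theorem two_sides {K b : ℕ} {s t : E → ι} {A : Finset E} {U : Finset ι} (h : St K b s t A U)
    {a : ι} (ha : a ∈ U) (hout : ∀ e ∈ A, t e ≠ a) (hlo : #{e ∈ A | s e = a} ≤ K + b)
    (Y : Finset ι) (hY : Sep (U.erase a) Y) : K ≤ ct s t {e ∈ A | s e ≠ a} Y + 2 * b := by
  have c1 := count_ULift h ha
  obtain ⟨⟨u, hu, hu'⟩, v, hv, hv'⟩ := hY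
  have c2 := h.one {x ∈ U.erase a | x ∈ Y} ((filter_subset _ _).trans (erase_subset _ _))
    ⟨u, mem_filter.2 ⟨hu, hu'⟩⟩
  have c3 := h.one {x ∈ U.erase a | x ∉ Y} ((filter_subset _ _).trans (erase_subset _ _))
    ⟨v, mem_filter.2 ⟨hv, hv'⟩⟩
  have c4 : #{x ∈ U.erase a | x ∈ Y} + #{x ∈ U.erase a | x ∉ Y} = #(U.erase a) :=
    card_filter_add_card_filter_not _
  have c5 : #{e ∈ A | s e ≠ a} ≤ ct s t {e ∈ A | s e ≠ a} Y +
      (#(ins s t A {x ∈ U.erase a | x ∈ Y}) + #(ins s t A {x ∈ U.erase a | x ∉ Y})) := by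
    refine le_trans (card_le_card fun e he => ?_)
      ((card_union_le _ _).trans (Nat.add_le_add_left (card_union_le _ _) _))
    obtain ⟨h1, h2⟩ := mem_filter.1 he
    simp only [ins, mem_union, mem_filter, mem_erase, h1, h2, (h.ends e h1).1, (h.ends e h1).2,
      hout e h1, ne_eq, not_false_eq_true, true_and, and_self]
    tauto
  rw [← c4, Nat.mul_add] at c1
  omega

end Pool.Agent.P.MP_e59a69_co
end

-- part Pool.Agent.P.MP_e59a69_co.UCaseC
section

open Finset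

namespace Pool.Agent.P.MP_e59a69_co

/-- thin families of pairs exist -/
def PairOk (N ι E : Type) [DecidableEq N] [DecidableEq ι] (q κ K : ℕ) : Prop :=
  ∀ (Z : Finset N) (W : Multiset (N × N)) (B : Finset E) (en : E → N) (col : E → ι),
    (∀ p ∈ W, p.1 ∈ Z ∧ p.2 ∈ Z) → (∀ X, Sep Z X → κ ≤ mcut W X) → (∀ e ∈ B, en e ∈ Z) →
    (∀ c, #{e ∈ B | col e = c} < κ) → K ≤ #B →
    ∃ Q : Finset (E × E), Prs B col Q ∧ #Q = q * κ ∧ ∀ X, 7 * q * pc en Q X ≤ mcut W X

variable {N ι E : Type} [DecidableEq N] [DecidableEq ι] [DecidableEq E]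
  {q κ K b Δ T c₁ c₂ Λ : ℕ} {f : N → ι} {d : ι → Nd N κ} {U : Finset ι} {s t : E → N}
  {A : Finset E}

/-- the other units pay when both sides of the cut meet them -/
lemma pay_UCaseC (P : Par q κ K b Δ T c₁ c₂ Λ)
    (h : St K b (fun e => f (s e)) (fun e => f (t e)) A U) (hU : Units c₁ c₂ T f d U) {a : ι}
    (ha : a ∈ U) (hout : ∀ e ∈ A, f (t e) ≠ a) (hlo : #{e ∈ A | f (s e) = a} ≤ K + b)
    (X : Finset N) {v w : N} (hv : f v ∈ U.erase a) (hw : f w ∈ U.erase a) (hv' : v ∈ X)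
    (hw' : w ∉ X) : 7 * q * κ ≤
      3 * (∑ x ∈ U.erase a, Th q κ (mcut (d x).W X) + 7 * q * ct s t A X) := by
  classical
  by_cases hs : ∃ u ∈ U.erase a, Sep (d u).vs X
  · obtain ⟨u, hu, hs⟩ := hs
    have h1 := Th_big P.q1 ((hU u (mem_of_mem_erase hu)).1.wconn X hs)
    have h2 := single_le_sum (f := fun x => Th q κ (mcut (d x).W X)) (fun _ _ => Nat.zero_le _) hu
    omega
  have key : ∀ x, f x ∈ U.erase a → (f x ∈ ({u ∈ U.erase a | (d u).vs ⊆ X} : Finset ι) ↔ x ∈ X) := by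
    intro x hx
    have hx' : x ∈ (d (f x)).vs := ((hU _ (mem_of_mem_erase hx)).2 x).2 rfl
    refine ⟨fun e => (mem_filter.1 e).2 hx', fun e => mem_filter.2 ⟨hx, fun y hy => ?_⟩⟩
    by_contra c
    exact hs ⟨_, hx, ⟨x, hx', e⟩, y, hy, c⟩
  have h1 := two_sides h ha hout hlo {u ∈ U.erase a | (d u).vs ⊆ X}
    ⟨⟨_, hv, (key v hv).2 hv'⟩, _, hw, fun e => hw' ((key w hw).1 e)⟩
  have h2 : ct (fun e => f (s e)) (fun e => f (t e)) {e ∈ A | f (s e) ≠ a}
      {u ∈ U.erase a | (d u).vs ⊆ X} ≤ ct s t A X := by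
    refine card_le_card fun e he => ?_
    obtain ⟨e1, e2⟩ := mem_filter.1 he
    obtain ⟨e3, e4⟩ := mem_filter.1 e1
    refine mem_filter.2 ⟨e3, ?_⟩
    rwa [key _ (mem_erase.2 ⟨e4, (h.ends e e3).1⟩),
      key _ (mem_erase.2 ⟨hout e e3, (h.ends e e3).2⟩)] at e2
  have h3 := P.hK
  have h4 : κ ≤ ct s t A X := by omega
  have h5 := Nat.mul_le_mul_left (7 * q) h4
  omega

/-- a unit of low degree, all its edges leave it -/
theorem case_low (P : Par q κ K b Δ T c₁ c₂ Λ) (hP : PairOk N ι E q κ K)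
    (ih : Ih N ι E q κ K b c₁ c₂ T #U)
    (h : St K b (fun e => f (s e)) (fun e => f (t e)) A U) (hU : Units c₁ c₂ T f d U) {a : ι}
    (ha : a ∈ U) (hout : ∀ e ∈ A, f (t e) ≠ a) (hlo : #{e ∈ A | f (s e) = a} ≤ K + b)
    (hnt : ∀ S ⊆ U.erase a, 2 ≤ #S →
      #(ins (fun e => f (s e)) (fun e => f (t e)) A S) + b + K < K * #S)
    (hm : ∀ u ∈ U, ∀ v ∈ U, u ≠ v → #(btw (fun e => f (s e)) (fun e => f (t e)) A u v) < κ)
    (h3 : 3 ≤ #U) : Out q c₁ c₂ T f d U s t A := by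
  have hce := card_erase_add_one ha
  have hB := low_deg h ha hout (hnt _ Subset.rfl (by omega))
  obtain ⟨ga, va⟩ := hU a ha
  obtain ⟨Q, q1, q2, q3⟩ := hP (d a).vs (d a).W {e ∈ A | f (s e) = a} s (fun e => f (t e))
    ga.wend ga.wconn (fun e he => (va _).2 (mem_filter.1 he).2) (fun c => by
      by_cases hc : c ∈ U ∧ a ≠ c
      · refine lt_of_le_of_lt (card_le_card fun e he => ?_) (hm a ha c hc.1 hc.2)
        obtain ⟨e1, e2⟩ := mem_filter.1 he
        exact mem_filter.2 ⟨(mem_filter.1 e1).1, Or.inl ⟨(mem_filter.1 e1).2, e2⟩⟩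
      · rw [card_eq_zero.2 (filter_eq_empty_iff.2 fun e he e2 => hc ?_)]
        · exact P.k1
        · have e1 := (mem_filter.1 he).1
          exact ⟨e2 ▸ (h.ends e e1).2, fun e3 => hout e e1 (e2.trans e3.symm)⟩) hB.le
  obtain ⟨s', A', Γ, l1, l2, l3, l4⟩ := lift_state P.hK f s t A U h ha hout hlo hnt h3 Q q1
    (q2.trans P.hb.symm)
  obtain ⟨r, hr⟩ : (U.erase a).Nonempty := card_pos.1 (by omega)
  obtain ⟨n, gn, vn, cn⟩ := ih (U.erase a) f d s' t A' (by omega) ⟨r, hr⟩ l1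
    (hU.mono (erase_subset _ _))
  have hra : r ≠ a := (mem_erase.1 hr).1
  have hU' := (hU.mono (singleton_subset_iff.2 ha)).ctr
    (disjoint_singleton_left.2 (notMem_erase a U)) hr gn vn
  have hG : Gam κ Δ T (fun e => ctr (U.erase a) r (f (s e))) (fun e => ctr (U.erase a) r (f (t e)))
      Γ {r, a} := gam_pair P.k1 P.hΔ P.hT _ _ Γ hra l3 fun e he => by
    obtain ⟨e1, e2⟩ := mem_filter.1 (l2 he)
    exact Or.inr ⟨(ctr_eq_iff' hr (notMem_erase a U) _).2 e2,
      (ctr_eq_iff hr _).2 (mem_erase.2 ⟨hout e e1, (h.ends e e1).2⟩)⟩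
  obtain ⟨m, gm, vm, cm⟩ := exists_node P.k1 hU' hG P.h2 P.h1
  refine ⟨m, gm, fun v => ?_, fun X => ?_⟩
  · rw [vm, mem_insert, mem_singleton, ctr_eq_iff hr, ctr_eq_iff' hr (notMem_erase a U), mem_erase]
    by_cases e : f v = a
    · simp [e, ha]
    · simp [e]
  obtain ⟨z, z1, z2, z3⟩ := l4 X
  rw [cm, sum_pair hra, Function.update_self, Function.update_of_ne hra.symm,
    ← add_sum_erase U (fun x => Th q κ (mcut (d x).W X)) ha, add_comm (mcut n.W X), add_assoc,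
    add_assoc]
  have z4 := (Nat.mul_le_mul_left (7 * q) z1).trans (q3 X)
  refine Th_lift P.q1 (z := z) ?_ (z1.trans ((card_filter_le _ _).trans q2.le)) z4 ?_
  · have a1 := Th_add (q := q) (κ := κ) (mcut n.W X) (ct s t Γ X)
    have a2 := Th_le (κ := κ) P.q1 (ct s t Γ X)
    have a3 := cn X
    have a4 := Nat.mul_le_mul_left (7 * q) z2
    rw [mul_add, mul_add] at a4
    omega
  · rcases Nat.eq_zero_or_pos z with z0 | z0
    · exact Or.inl z0
    obtain ⟨v, w, hv, hw, hv', hw'⟩ := z3.resolve_left z0.ne'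
    have a1 : 0 < 7 * q * z := Nat.mul_pos (by have := P.q1; omega) z0
    refine Or.inr ⟨ga.wconn X (ga.sep_of_pos (by omega)), ?_,
      pay_UCaseC P h hU ha hout hlo X hv hw hv' hw'⟩
    exact (gn.wconn X ⟨⟨v, (vn v).2 hv, hv'⟩, w, (vn w).2 hw, hw'⟩).trans (Nat.le_add_right _ _)

end Pool.Agent.P.MP_e59a69_co
end

-- part Pool.Agent.P.MP_e59a69_co.UBuild
section

open Finset

namespace Pool.Agent.P.MP_e59a69_co

section swap
variable {ι E : Type} [DecidableEq ι] {K b : ℕ} {s t s' t' : E → ι} {A : Finset E} {U : Finset ι}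

lemma ins_swap (h : ∀ e, (s' e = s e ∧ t' e = t e) ∨ (s' e = t e ∧ t' e = s e)) (A : Finset E)
    (S : Finset ι) : ins s' t' A S = ins s t A S := by
  refine filter_congr fun e _ => ?_
  rcases h e with ⟨a, b⟩ | ⟨a, b⟩ <;> rw [a, b]
  exact and_comm

lemma btw_swap (h : ∀ e, (s' e = s e ∧ t' e = t e) ∨ (s' e = t e ∧ t' e = s e)) (A : Finset E)
    (u v : ι) : btw s' t' A u v = btw s t A u v := by
  refine filter_congr fun e _ => ?_
  rcases h e with ⟨a, b⟩ | ⟨a, b⟩ <;> rw [a, b]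
  tauto

lemma St.swap (h : ∀ e, (s' e = s e ∧ t' e = t e) ∨ (s' e = t e ∧ t' e = s e))
    (H : St K b s t A U) : St K b s' t' A U := by
  refine ⟨fun e he => ?_, fun S h1 h2 => ins_swap h A S ▸ H.one S h1 h2, H.two⟩
  rcases h e with ⟨a, b⟩ | ⟨a, b⟩ <;> rw [a, b]
  · exact H.ends e he
  · exact (H.ends e he).symm

end swap

variable {N ι E : Type} [DecidableEq N] [DecidableEq ι] [DecidableEq E]
  {q κ K b Δ T c₁ c₂ Λ : ℕ} {f : N → ι} {d : ι → Nd N κ} {U : Finset ι} {s t : E → N}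
  {A : Finset E}

/-- a unit of low degree -/
theorem case_low' (P : Par q κ K b Δ T c₁ c₂ Λ) (hP : PairOk N ι E q κ K)
    (ih : Ih N ι E q κ K b c₁ c₂ T #U)
    (h : St K b (fun e => f (s e)) (fun e => f (t e)) A U) (hU : Units c₁ c₂ T f d U) {a : ι}
    (ha : a ∈ U) (hlo : ct (fun e => f (s e)) (fun e => f (t e)) A {a} ≤ K + b)
    (hnt : ∀ S ⊆ U.erase a, 2 ≤ #S →
      #(ins (fun e => f (s e)) (fun e => f (t e)) A S) + b + K < K * #S)
    (hm : ∀ u ∈ U, ∀ v ∈ U, u ≠ v → #(btw (fun e => f (s e)) (fun e => f (t e)) A u v) < κ)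
    (h3 : 3 ≤ #U) : Out q c₁ c₂ T f d U s t A := by
  obtain ⟨s', hs⟩ : ∃ s' : E → N, ∀ e, s' e = if f (t e) = a then t e else s e := ⟨_, fun _ => rfl⟩
  obtain ⟨t', ht⟩ : ∃ t' : E → N, ∀ e, t' e = if f (t e) = a then s e else t e := ⟨_, fun _ => rfl⟩
  have h1 : ∀ e, (s' e = s e ∧ t' e = t e) ∨ (s' e = t e ∧ t' e = s e) := fun e => by
    rw [hs, ht]
    split_ifs
    · exact Or.inr ⟨rfl, rfl⟩
    · exact Or.inl ⟨rfl, rfl⟩
  have h2 : ∀ e, (f (s' e) = f (s e) ∧ f (t' e) = f (t e)) ∨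
      (f (s' e) = f (t e) ∧ f (t' e) = f (s e)) := fun e =>
    (h1 e).imp (fun x => ⟨by rw [x.1], by rw [x.2]⟩) fun x => ⟨by rw [x.1], by rw [x.2]⟩
  have hout : ∀ e ∈ A, f (t' e) ≠ a := fun e he => by
    rw [ht]
    split_ifs with c
    · exact c ▸ h.noloop he
    · exact c
  obtain ⟨m, g1, g2, g3⟩ := case_low (s := s') (t := t') P hP ih (h.swap h2) hU ha hout (by
      rw [← ct_swap h2] at hlo
      refine le_trans (card_le_card fun e he => ?_) hlo
      obtain ⟨e1, e2⟩ := mem_filter.1 he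
      exact mem_filter.2 ⟨e1, by simp [e2, hout e e1]⟩)
    (fun S a1 a2 => by rw [ins_swap h2]; exact hnt S a1 a2)
    (fun u a1 v a2 a3 => by rw [btw_swap h2]; exact hm u a1 v a2 a3) h3
  exact ⟨m, g1, g2, fun X => by rw [← ct_swap h1]; exact g3 X⟩

/-- the hierarchy -/
theorem build (P : Par q κ K b Δ T c₁ c₂ Λ) (hP : PairOk N ι E q κ K) (hJ : JoinOk ι E Λ T)
    (n : ℕ) : Ih N ι E q κ K b c₁ c₂ T n := by
  induction n with
  | zero => exact fun U f d s t A h => absurd h (Nat.not_lt_zero _)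
  | succ n ih =>
  intro U f d s t A hn hne h hU
  rcases (Nat.lt_succ_iff.1 hn).lt_or_eq with hlt | heq
  · exact ih U f d s t A hlt hne h hU
  subst heq
  by_cases h1 : #U = 1
  · obtain ⟨u, rfl⟩ := card_eq_one.1 h1
    obtain ⟨g, v⟩ := hU u (mem_singleton_self _)
    exact ⟨d u, g, fun x => by rw [v, mem_singleton], fun X => by rw [sum_singleton]; omega⟩
  by_cases hA : ∃ u ∈ U, ∃ v ∈ U, u ≠ v ∧
      κ ≤ #(btw (fun e => f (s e)) (fun e => f (t e)) A u v)
  · obtain ⟨u, hu, v, hv, huv, hm⟩ := hA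
    obtain ⟨Γ, g1, g2⟩ := case_pair P huv hm
    have hS : ({u, v} : Finset ι) ⊆ U := insert_subset hu (singleton_subset_iff.2 hv)
    exact finish ih h hU hS g2.card (out_of_gam P (hU.mono hS) g2 g1)
  have hm : ∀ u ∈ U, ∀ v ∈ U, u ≠ v →
      #(btw (fun e => f (s e)) (fun e => f (t e)) A u v) < κ := fun u hu v hv huv =>
    lt_of_not_ge fun c => hA ⟨u, hu, v, hv, huv, c⟩
  have h2 : #U ≠ 2 := fun c => hA (two_units P h c)
  have h0 := card_pos.2 hne
  by_cases hN : ∃ S ⊆ U, 2 ≤ #S ∧ #S < #U ∧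
      K * #S ≤ #(ins (fun e => f (s e)) (fun e => f (t e)) A S) + b + K
  · obtain ⟨S, hS, a1, a2, a3⟩ := hN
    exact finish ih h hU hS a1
      (ih S f d s t _ a2 (card_pos.1 (by omega)) (h.sub hS a3) (hU.mono hS))
  by_cases hC : ∃ a ∈ U, ct (fun e => f (s e)) (fun e => f (t e)) A {a} ≤ K + b
  · obtain ⟨a, ha, hlo⟩ := hC
    refine case_low' P hP ih h hU ha hlo (fun S a1 a2 => lt_of_not_ge fun c => hN
      ⟨S, a1.trans (erase_subset _ _), a2, ?_, c⟩) hm (by omega)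
    exact (card_le_card a1).trans_lt (card_erase_lt_of_mem ha)
  · obtain ⟨S, hS, g⟩ := case_dense P hJ h hne hm fun u hu => lt_of_not_ge fun c => hC ⟨u, hu, c⟩
    exact finish ih h hU hS g.card (out_of_gam P (hU.mono hS) g Subset.rfl)

end Pool.Agent.P.MP_e59a69_co
end

-- part Pool.Agent.P.MP_e59a69_co.TLow
section

/-! Well connected edge sets that use a small part of the edges at every vertex. -/

open Finset Function

namespace Pool.Agent.P.MP_e59a69_co

section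
variable {N E : Type} [Fintype N] [Fintype E] [DecidableEq N] [DecidableEq E]

omit [Fintype N] [Fintype E] in
lemma tlow_ent_erase (s t : E → N) (B : Finset E) (e : E) (he : e ∈ B) (X : Finset N) :
    ent s t B X = ent s t (B.erase e) X + if (t e ∈ X ∧ s e ∉ X) then 1 else 0 := by
  unfold ent
  simp only [card_filter]
  rw [← Finset.add_sum_erase B _ he, add_comm]

omit [Fintype N] [Fintype E] [DecidableEq E] in
lemma tlow_ent_mono (s t : E → N) {B A : Finset E} (h : B ⊆ A) (X : Finset N) :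
    ent s t B X ≤ ent s t A X :=
  card_le_card (filter_subset_filter _ h)

omit [Fintype N] [Fintype E] [DecidableEq E] in
lemma tlow_ct_le_dg (s t : E → N) (A : Finset E) (v : N) : ct s t A {v} ≤ dg s t A v := by
  unfold ct dg
  simp only [card_filter]
  rw [← Finset.sum_add_distrib]
  refine Finset.sum_le_sum fun e _ => ?_
  by_cases a : s e = v <;> by_cases b : t e = v <;> simp [a, b]

omit [Fintype N] [Fintype E] [DecidableEq E] in
lemma tlow_dg_eq_ct (s t : E → N) (A : Finset E) (h : ∀ e ∈ A, s e ≠ t e) (v : N) :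
    dg s t A v = ct s t A {v} := by
  unfold ct dg
  simp only [card_filter]
  rw [← Finset.sum_add_distrib]
  refine Finset.sum_congr rfl fun e he => ?_
  have := h e he
  by_cases a : s e = v <;> by_cases b : t e = v
  · exact absurd (a.trans b.symm) this
  · simp [a, b]
  · simp [a, b]
  · simp [a, b]

lemma minimal_rooted (s t : E → N) (A : Finset E) (r : N) (k : ℕ)
    (h : ∀ X : Finset N, X.Nonempty → r ∉ X → k ≤ ent s t A X) :
    ∃ B ⊆ A, (∀ X : Finset N, X.Nonempty → r ∉ X → k ≤ ent s t B X) ∧ (∀ e ∈ B, s e ≠ t e) ∧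
      ∀ v, ent s t B {v} ≤ k := by
  classical
  obtain ⟨B, hB, hmin⟩ := exists_min_image
    (A.powerset.filter fun B => ∀ X : Finset N, X.Nonempty → r ∉ X → k ≤ ent s t B X)
    (fun B => #B) ⟨A, mem_filter.2 ⟨mem_powerset.2 (Subset.refl _), h⟩⟩
  obtain ⟨hBA, hP⟩ := mem_filter.1 hB
  have hBA := mem_powerset.1 hBA
  have tight : ∀ e ∈ B, ∃ X : Finset N, r ∉ X ∧ ent s t B X ≤ k ∧ t e ∈ X ∧ s e ∉ X := by
    intro e he
    by_contra hc
    have : B.erase e ∈ A.powerset.filter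
        fun B => ∀ X : Finset N, X.Nonempty → r ∉ X → k ≤ ent s t B X := by
      refine mem_filter.2 ⟨mem_powerset.2 ((erase_subset _ _).trans hBA), fun X hX hr => ?_⟩
      have e1 := tlow_ent_erase s t B e he X
      have e2 := hP X hX hr
      by_cases a : t e ∈ X ∧ s e ∉ X
      · rw [if_pos a] at e1
        by_contra hlt
        exact hc ⟨X, hr, by omega, a.1, a.2⟩
      · rw [if_neg a] at e1
        omega
    have h1 := hmin _ this
    have h2 := card_erase_lt_of_mem he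
    omega
  refine ⟨B, hBA, hP, fun e he heq => ?_, fun v => ?_⟩
  · obtain ⟨X, -, -, h1, h2⟩ := tight e he
    exact h2 (heq ▸ h1)
  · by_cases hex : ∃ X : Finset N, r ∉ X ∧ ent s t B X ≤ k ∧ v ∈ X
    · obtain ⟨X0, hX0⟩ := hex
      obtain ⟨X, hX, hXmin⟩ := exists_min_image
        (univ.filter fun X : Finset N => r ∉ X ∧ ent s t B X ≤ k ∧ v ∈ X)
        (fun X => #X) ⟨X0, mem_filter.2 ⟨mem_univ _, hX0⟩⟩
      obtain ⟨-, hr, hk, hv⟩ := mem_filter.1 hX
      refine le_trans (card_le_card fun e he => ?_) hk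
      obtain ⟨heB, h1, h2⟩ := mem_filter.1 he
      have h1 : t e = v := mem_singleton.1 h1
      obtain ⟨Y, hrY, hkY, htY, hsY⟩ := tight e heB
      have hsub := ent_submod s t B X Y
      have hU := hP (X ∪ Y) ⟨v, mem_union_left _ hv⟩ (by simp [hr, hrY])
      have hI : X ∩ Y ∈ univ.filter fun X : Finset N => r ∉ X ∧ ent s t B X ≤ k ∧ v ∈ X :=
        mem_filter.2 ⟨mem_univ _, by simp [hr], by omega, mem_inter.2 ⟨hv, h1 ▸ htY⟩⟩
      have hcard := hXmin _ hI
      have hEq : X ∩ Y = X := eq_of_subset_of_card_le inter_subset_left hcard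
      refine mem_filter.2 ⟨heB, h1 ▸ hv, fun hs => hsY ?_⟩
      rw [← hEq] at hs
      exact (mem_inter.1 hs).2
    · have : ent s t B {v} = 0 := by
        unfold ent
        rw [card_eq_zero, filter_eq_empty_iff]
        rintro e he ⟨h1, -⟩
        obtain ⟨Y, hrY, hkY, htY, -⟩ := tight e he
        exact hex ⟨Y, hrY, hkY, (mem_singleton.1 h1) ▸ htY⟩
      omega

lemma halve (s t : E → N) (A : Finset E) (k : ℕ)
    (h : ∀ X : Finset N, X.Nonempty → Xᶜ.Nonempty → 3 * k + 7 ≤ ct s t A X) :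
    ∃ B ⊆ A, (∀ X : Finset N, X.Nonempty → Xᶜ.Nonempty → k ≤ ct s t B X) ∧
      ∀ v, 3 * dg s t B v ≤ 2 * dg s t A v + 3 * k := by
  rcases isEmpty_or_nonempty N with hN | ⟨⟨r⟩⟩
  · exact ⟨A, Subset.refl _, fun X ⟨x, _⟩ _ => isEmptyElim x, fun v => isEmptyElim v⟩
  obtain ⟨s', t', hst, h3⟩ := third s t A fun X a b => le_trans (by omega) (h X a b)
  obtain ⟨B, hBA, hB, hloop, hent⟩ := minimal_rooted s' t' A r k fun X hX hr => by
    have a := h X hX ⟨r, mem_compl.2 hr⟩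
    have b := h3 X
    omega
  refine ⟨B, hBA, fun X hX hXc => ?_, fun v => ?_⟩
  · rw [← ct_swap hst, ct_eq]
    by_cases hr : r ∈ X
    · have := hB Xᶜ hXc (by simpa using hr)
      omega
    · have := hB X hX hr
      omega
  · have hloop' : ∀ e ∈ B, s e ≠ t e := fun e he heq => by
      rcases hst e with ⟨a, b⟩ | ⟨a, b⟩
      · exact hloop e he (by rw [a, b, heq])
      · exact hloop e he (by rw [a, b, heq])
    have e1 : dg s t B v = ent s' t' B {v} + ent s' t' B {v}ᶜ := by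
      rw [tlow_dg_eq_ct s t B hloop', ← ct_swap hst, ct_eq]
    have e2 : ct s t A {v} = ent s' t' A {v} + ent s' t' A {v}ᶜ := by
      rw [← ct_swap hst, ct_eq]
    have e3 := h3 {v}
    have e4 := tlow_ct_le_dg s t A v
    have e5 := hent v
    have e6 := tlow_ent_mono s' t' hBA {v}ᶜ
    omega

end

theorem tlow_iter (k j : ℕ) : ∃ lam Cn : ℕ, ∀ (N E : Type) [Fintype N] [Fintype E]
    [DecidableEq N] [DecidableEq E] (s t : E → N) (A : Finset E),
    (∀ X : Finset N, X.Nonempty → Xᶜ.Nonempty → lam ≤ ct s t A X) →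
    ∃ B ⊆ A, (∀ X : Finset N, X.Nonempty → Xᶜ.Nonempty → k ≤ ct s t B X) ∧
      ∀ v, 3 ^ j * dg s t B v ≤ 2 ^ j * dg s t A v + 3 ^ j * Cn := by
  induction j with
  | zero => exact ⟨k, 0, fun N E _ _ _ _ s t A h => ⟨A, Subset.refl _, h, fun v => by simp⟩⟩
  | succ j ih =>
    obtain ⟨lam, Cn, ih⟩ := ih
    refine ⟨3 * lam + 7, Cn + lam, fun N E _ _ _ _ s t A h => ?_⟩
    obtain ⟨A', hA', h1, h2⟩ := halve s t A lam h
    obtain ⟨B, hB, h3, h4⟩ := ih N E s t A' h1
    refine ⟨B, hB.trans hA', h3, fun v => ?_⟩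
    have a := h2 v
    have b := h4 v
    have c : 2 ^ j ≤ 3 ^ j := Nat.pow_le_pow_left (by norm_num) j
    have d : 2 ^ j * (3 * dg s t A' v) ≤ 2 ^ j * (2 * dg s t A v + 3 * lam) :=
      Nat.mul_le_mul_left _ a
    have e : 2 ^ j * lam ≤ 3 ^ j * lam := Nat.mul_le_mul_right _ c
    rw [pow_succ, pow_succ]
    nlinarith

theorem tlow_pow (G : ℕ) : ∃ j : ℕ, 2 * G * 2 ^ j ≤ 3 ^ j := by
  have key : ∀ j : ℕ, (j + 2) * 2 ^ j ≤ 2 * 3 ^ j := by
    intro j
    induction j with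
    | zero => norm_num
    | succ j ih =>
      have c : 2 ^ j ≤ 3 ^ j := Nat.pow_le_pow_left (by norm_num) j
      rw [pow_succ, pow_succ]
      nlinarith
  refine ⟨4 * G, ?_⟩
  have := key (4 * G)
  have c : 0 ≤ 2 ^ (4 * G) := Nat.zero_le _
  nlinarith

theorem lowdeg (G k : ℕ) : ∃ lam : ℕ, ∀ (N E : Type) [Fintype N] [Fintype E] [DecidableEq N]
    [DecidableEq E] (s t : E → N) (A : Finset E),
    (∀ X : Finset N, X.Nonempty → Xᶜ.Nonempty → lam ≤ ct s t A X) →
    ∃ B ⊆ A, (∀ X : Finset N, X.Nonempty → Xᶜ.Nonempty → k ≤ ct s t B X) ∧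
      ∀ v, G * dg s t B v ≤ dg s t A v := by
  obtain ⟨j, hj⟩ := tlow_pow G
  obtain ⟨lam, Cn, H⟩ := tlow_iter k j
  refine ⟨lam + 2 * G * Cn, fun N E _ _ _ _ s t A h => ?_⟩
  by_cases h2 : ∀ v : N, (({v} : Finset N)ᶜ).Nonempty
  · obtain ⟨B, hB, h3, h4⟩ := H N E s t A fun X a b => le_trans (by omega) (h X a b)
    refine ⟨B, hB, h3, fun v => ?_⟩
    have a := h {v} (singleton_nonempty v) (h2 v)
    have b := tlow_ct_le_dg s t A v
    have c := h4 v
    have hC : 2 * G * Cn ≤ dg s t A v := by omega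
    have hpos : 0 < 3 ^ j := by positivity
    have d : 2 * G * (3 ^ j * dg s t B v) ≤ 2 * G * (2 ^ j * dg s t A v + 3 ^ j * Cn) :=
      Nat.mul_le_mul_left _ c
    have e : 2 * G * 2 ^ j * dg s t A v ≤ 3 ^ j * dg s t A v := Nat.mul_le_mul_right _ hj
    have f : 3 ^ j * (2 * G * Cn) ≤ 3 ^ j * dg s t A v := Nat.mul_le_mul_left _ hC
    have g : 3 ^ j * (2 * (G * dg s t B v)) ≤ 3 ^ j * (2 * dg s t A v) := by nlinarith
    have := Nat.le_of_mul_le_mul_left g hpos
    omega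
  · push Not at h2
    obtain ⟨v, hv⟩ := h2
    have hall : ∀ w : N, w = v := fun w => by
      by_contra hw
      have : w ∈ (({v} : Finset N)ᶜ) := by simpa using hw
      rw [hv] at this
      simp at this
    refine ⟨∅, empty_subset _, fun X ⟨x, hx⟩ ⟨y, hy⟩ => ?_, fun w => by simp [dg]⟩
    rw [hall x] at hx
    rw [hall y] at hy
    exact absurd hx (mem_compl.1 hy)

end Pool.Agent.P.MP_e59a69_co
end

-- part Pool.Agent.P.MP_e59a69_co.UStart
section

open Finset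

namespace Pool.Agent.P.MP_e59a69_co

lemma ins_ent_UStart {N E : Type} [DecidableEq N] (s t : E → N) (A : Finset E)
    (hl : ∀ e ∈ A, s e ≠ t e) (S : Finset N) :
    #(ins s t A S) + ent s t A S = ∑ v ∈ S, ent s t A {v} := by
  unfold ins ent
  simp only [card_filter]
  rw [← sum_add_distrib, sum_comm]
  refine sum_congr rfl fun e he => ?_
  have h1 : ∀ v, (t e ∈ ({v} : Finset N) ∧ s e ∉ ({v} : Finset N)) ↔ t e = v := fun v => by
    simp only [mem_singleton]
    exact ⟨fun h => h.1, fun h => ⟨h, fun h' => hl e he (h'.trans h.symm)⟩⟩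
  simp only [h1, sum_ite_eq]
  by_cases a : s e ∈ S <;> by_cases b : t e ∈ S <;> simp [a, b]

/-- the first state -/
theorem exists_start {N E : Type} [Fintype N] [Fintype E] [DecidableEq N] [DecidableEq E]
    [Nonempty N] (s t : E → N) (K b : ℕ)
    (h : ∀ X : Finset N, X.Nonempty → Xᶜ.Nonempty → 3 * K + 7 ≤ ct s t univ X) :
    ∃ A : Finset E, St K b s t A univ := by
  obtain ⟨r⟩ := ‹Nonempty N›
  obtain ⟨s', t', hst, h3⟩ := third s t univ fun X a b => le_trans (by omega) (h X a b)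
  obtain ⟨B, -, hB, hloop, hent⟩ := minimal_rooted s' t' univ r K fun X hX hr => by
    have a := h X hX ⟨r, mem_compl.2 hr⟩
    have b := h3 X
    omega
  obtain ⟨A, hA⟩ : ∃ A : Finset E, A = {e ∈ B | t' e ≠ r} := ⟨_, rfl⟩
  have hl : ∀ e ∈ A, s' e ≠ t' e := fun e he => hloop e (mem_filter.1 (hA ▸ he)).1
  have e1 : ∀ X : Finset N, r ∉ X → ent s' t' A X = ent s' t' B X := fun X hX => by
    unfold ent
    rw [hA, filter_filter]
    exact congrArg card (filter_congr fun e _ =>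
      ⟨fun a => a.2, fun a => ⟨fun c => hX (c ▸ a.1), a⟩⟩)
  have e2 : ent s' t' A {r} = 0 := by
    unfold ent
    rw [card_eq_zero, filter_eq_empty_iff, hA]
    exact fun e he a => absurd (mem_singleton.1 a.1) (mem_filter.1 he).2
  have e3 : ∀ v, v ≠ r → ent s' t' A {v} = K := fun v hv => by
    have a : r ∉ ({v} : Finset N) := fun c => hv (mem_singleton.1 c).symm
    rw [e1 _ a]
    exact le_antisymm (hent v) (hB _ (singleton_nonempty v) a)
  have e4 : ∀ S : Finset N, ins s t A S = ins s' t' A S := fun S => by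
    unfold ins
    refine filter_congr fun e _ => ?_
    rcases hst e with ⟨a, b⟩ | ⟨a, b⟩
    · rw [a, b]
    · rw [a, b, and_comm]
  have e5 : ∀ S : Finset N, r ∉ S → ∑ v ∈ S, ent s' t' A {v} = K * #S := fun S hS => by
    rw [sum_congr rfl fun v hv => e3 v fun c => hS (c ▸ hv), sum_const, smul_eq_mul, mul_comm]
  have e6 : ∀ S : Finset N, r ∈ S → ∑ v ∈ S, ent s' t' A {v} + K = K * #S := fun S hS => by
    rw [← add_sum_erase S _ hS, e2, e5 _ (notMem_erase r S), ← card_erase_add_one hS]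
    ring
  refine ⟨A, fun e _ => ⟨mem_univ _, mem_univ _⟩, fun S _ hS => ?_, ?_⟩
  · have a := ins_ent_UStart s' t' A hl S
    rw [e4]
    by_cases hr : r ∈ S
    · have b := e6 S hr
      omega
    · have b := e5 S hr
      have c := hB S hS hr
      have d := e1 S hr
      omega
  · have a := ins_ent_UStart s' t' A hl univ
    have b := e6 univ (mem_univ r)
    have c : ins s' t' A univ = A := filter_true_of_mem fun e _ => ⟨mem_univ _, mem_univ _⟩
    have d : ent s' t' A univ = 0 := by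
      unfold ent
      rw [card_eq_zero, filter_eq_empty_iff]
      exact fun e _ a => a.2 (mem_univ _)
    rw [c, d] at a
    omega

end Pool.Agent.P.MP_e59a69_co
end

-- part Pool.Agent.P.MP_e59a69_co.LList
section

/-! Shortcut orders of a connected edge set. -/

open Finset Function

namespace Pool.Agent.P.MP_e59a69_co

variable {N E : Type} [DecidableEq N] [DecidableEq E]

lemma ins_LList (X : Finset N) (u v : N) (l1 l2 : List N) :
    chg X (l1 ++ u :: v :: l2) ≤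
      chg X (l1 ++ u :: l2) + 2 * (if (u ∈ X ↔ v ∈ X) then 0 else 1) := by
  induction l1 with
  | nil =>
    rcases l2 with _ | ⟨w, l2⟩
    · simp only [List.nil_append, chg_cons_cons, chg_single]; omega
    · simp only [List.nil_append, chg_cons_cons]
      by_cases h1 : u ∈ X <;> by_cases h2 : v ∈ X <;> by_cases h3 : w ∈ X <;>
        simp [h1, h2, h3] <;> omega
  | cons a l1 ih =>
    rcases l1 with _ | ⟨b, l1⟩ <;>
      simp only [List.nil_append, List.cons_append, chg_cons_cons X a] at ih ⊢ <;> omega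

lemma cons_LList (X : Finset N) (a : N) (l : List N) : chg X l ≤ chg X (a :: l) := by
  rcases l with _ | ⟨b, l⟩
  · exact le_rfl
  · exact Nat.le_add_left _ _

lemma tri_LList (X : Finset N) (a b : N) (l : List N) : chg X (a :: l) ≤ chg X (a :: b :: l) := by
  rcases l with _ | ⟨c, l⟩
  · exact Nat.zero_le _
  · simp only [chg_cons_cons]
    by_cases h1 : a ∈ X <;> by_cases h2 : b ∈ X <;> by_cases h3 : c ∈ X <;>
      simp [h1, h2, h3] <;> omega

theorem exists_list (s t : E → N) (Z : Finset N) (T : Finset E)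
    (hZ : ∀ e ∈ T, s e ∈ Z ∧ t e ∈ Z) (h : Conn s t Z T) :
    ∃ l : List N, l.Nodup ∧ l.toFinset = Z ∧ ∀ X, chg X l ≤ 2 * ct s t T X := by
  rcases Z.eq_empty_or_nonempty with rfl | ⟨z, hz⟩
  · exact ⟨[], List.nodup_nil, rfl, fun _ => Nat.zero_le _⟩
  have key : ∀ n, n < #Z → ∃ (l : List N) (T' : Finset E), l.Nodup ∧ l.length = n + 1 ∧
      (∀ v ∈ l, v ∈ Z) ∧ T' ⊆ T ∧ (∀ e ∈ T', s e ∈ l ∧ t e ∈ l) ∧
      ∀ X, chg X l ≤ 2 * ct s t T' X := by
    intro n
    induction n with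
    | zero => exact fun _ => ⟨[z], ∅, by simp, rfl, by simpa using hz, by simp, by simp,
        fun _ => Nat.zero_le _⟩
    | succ n ih =>
      intro hn
      obtain ⟨l, T', h1, h2, h3, h4, h5, h6⟩ := ih (by omega)
      have hs : Sep Z l.toFinset := by
        obtain ⟨a, ha⟩ := List.exists_mem_of_length_pos (l := l) (by omega)
        refine ⟨⟨a, h3 a ha, List.mem_toFinset.2 ha⟩, ?_⟩
        by_contra hc
        push Not at hc
        have := card_le_card (show Z ⊆ l.toFinset from hc)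
        have := List.toFinset_card_le l
        omega
      obtain ⟨e, he⟩ := card_pos.1 (h _ hs)
      obtain ⟨he1, he2⟩ := mem_filter.1 he
      simp only [List.mem_toFinset] at he2
      obtain ⟨u, v, hu, hv, huv⟩ : ∃ u v, u ∈ l ∧ v ∉ l ∧
          ((s e = u ∧ t e = v) ∨ (s e = v ∧ t e = u)) := by
        by_cases hs : s e ∈ l
        · exact ⟨_, _, hs, fun ht => he2 (iff_of_true hs ht), Or.inl ⟨rfl, rfl⟩⟩
        · exact ⟨_, _, by_contra fun ht => he2 (iff_of_false hs ht), hs, Or.inr ⟨rfl, rfl⟩⟩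
      have hvZ : v ∈ Z := by
        rcases huv with ⟨-, rfl⟩ | ⟨rfl, -⟩
        exacts [(hZ e he1).2, (hZ e he1).1]
      have heT : e ∉ T' := fun hh => he2 (iff_of_true (h5 e hh).1 (h5 e hh).2)
      obtain ⟨l1, l2, rfl⟩ := List.append_of_mem hu
      have hp : (l1 ++ u :: v :: l2).Perm (v :: (l1 ++ u :: l2)) :=
        ((List.Perm.swap v u l2).append_left l1).trans List.perm_middle
      refine ⟨l1 ++ u :: v :: l2, insert e T', hp.nodup_iff.2 (List.nodup_cons.2 ⟨hv, h1⟩),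
        by rw [hp.length_eq, List.length_cons, h2], fun w hw => ?_, insert_subset he1 h4,
        fun f hf => ?_, fun X => (ins_LList X u v l1 l2).trans ?_⟩
      · rcases List.mem_cons.1 (hp.mem_iff.1 hw) with rfl | hw
        exacts [hvZ, h3 w hw]
      · rw [hp.mem_iff, hp.mem_iff]
        rcases mem_insert.1 hf with rfl | hf
        · rcases huv with ⟨a, b⟩ | ⟨a, b⟩ <;> simp [a, b]
        · exact ⟨List.mem_cons_of_mem _ (h5 f hf).1, List.mem_cons_of_mem _ (h5 f hf).2⟩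
      · have h7 : ct s t (insert e T') X = (if (u ∈ X ↔ v ∈ X) then 0 else 1) + ct s t T' X := by
          rw [ct, ct, card_filter, card_filter, sum_insert heT]
          rcases huv with ⟨rfl, rfl⟩ | ⟨rfl, rfl⟩ <;> by_cases a : s e ∈ X <;>
            by_cases b : t e ∈ X <;> simp [a, b]
        have := h6 X
        omega
  have hc := card_pos.2 ⟨z, hz⟩
  obtain ⟨l, T', h1, h2, h3, h4, -, h6⟩ := key (#Z - 1) (by omega)
  refine ⟨l, h1, eq_of_subset_of_card_le (fun v hv => h3 v (List.mem_toFinset.1 hv)) ?_,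
    fun X => (h6 X).trans (Nat.mul_le_mul_left 2 (ct_mono s t h4 X))⟩
  rw [List.toFinset_card_of_nodup h1]
  omega

theorem chg_sublist (X : Finset N) {l l' : List N} (h : l'.Sublist l) : chg X l' ≤ chg X l := by
  have key : chg X l' ≤ chg X l ∧ ∀ a, chg X (a :: l') ≤ chg X (a :: l) := by
    induction h with
    | slnil => exact ⟨le_rfl, fun _ => le_rfl⟩
    | cons b _ ih =>
      exact ⟨ih.1.trans (cons_LList X b _), fun a => (ih.2 a).trans (tri_LList X a b _)⟩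
    | cons_cons b _ ih => exact ⟨ih.2 b, fun a => Nat.add_le_add_left (ih.2 b) _⟩
  exact key.1

theorem chg_congr {X Y : Finset N} (l : List N) (h : ∀ v ∈ l, (v ∈ X ↔ v ∈ Y)) :
    chg X l = chg Y l := by
  induction l with
  | nil => rfl
  | cons a l ih =>
    rcases l with _ | ⟨b, l⟩
    · rfl
    · rw [chg_cons_cons, chg_cons_cons, ih fun v hv => h v (List.mem_cons_of_mem _ hv)]
      simp only [h a (by simp), h b (by simp)]

end Pool.Agent.P.MP_e59a69_co
end

-- part Pool.Agent.P.MP_e59a69_co.UBlock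
section

open Finset

namespace Pool.Agent.P.MP_e59a69_co

variable {N ι E : Type} [DecidableEq N] [DecidableEq ι] [DecidableEq E]

omit [DecidableEq ι] [DecidableEq E] in
lemma rep_UBlock (X : Finset N) (v : N) (r s : List N) (h : ∀ w ∈ r, w = v) :
    chg X (v :: (r ++ s)) = chg X (v :: s) := by
  induction r with
  | nil => rfl
  | cons w r ih =>
    obtain rfl : w = v := h w List.mem_cons_self
    rw [List.cons_append, chg_cons_cons, if_pos Iff.rfl, zero_add]
    exact ih fun u hu => h u (List.mem_cons_of_mem _ hu)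

omit [DecidableEq ι] [DecidableEq E] in
lemma flat_UBlock (X : Finset N) (f : N → List N) (h : ∀ v, ∀ w ∈ f v, w = v) (l : List N) (a : N) :
    chg X (a :: l.flatMap f) ≤ chg X (a :: l) := by
  induction l generalizing a with
  | nil => exact le_rfl
  | cons v l ih =>
    rw [List.flatMap_cons]
    refine (tri_LList X a v _).trans ?_
    rw [chg_cons_cons, chg_cons_cons, rep_UBlock X v _ _ (h v)]
    exact Nat.add_le_add_left (ih v) _

omit [DecidableEq ι] [DecidableEq E] in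
lemma flat'_UBlock (X : Finset N) (f : N → List N) (h : ∀ v, ∀ w ∈ f v, w = v) (l : List N) :
    chg X (l.flatMap f) ≤ chg X l := by
  cases l with
  | nil => exact le_rfl
  | cons v l =>
    rw [List.flatMap_cons]
    refine (cons_LList X v _).trans ?_
    rw [rep_UBlock X v _ _ (h v)]
    exact flat_UBlock X f h l v

omit [DecidableEq ι] in
lemma pc_union_UBlock (en : E → N) (F F' : Finset (E × E)) (X : Finset N) :
    pc en (F ∪ F') X ≤ pc en F X + pc en F' X := by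
  unfold pc
  rw [filter_union]
  exact card_union_le _ _

omit [DecidableEq ι] in
lemma union_UBlock {B B₁ B₂ : Finset E} {col : E → ι} {F F' : Finset (E × E)} (h : Prs B₁ col F)
    (h' : Prs B₂ col F') (h₁ : B₁ ⊆ B) (h₂ : B₂ ⊆ B)
    (hd : ∀ p ∈ F, p.1 ∉ B₂ ∧ p.2 ∉ B₂) : Prs B col (F ∪ F') ∧ #(F ∪ F') = #F + #F' := by
  refine ⟨⟨fun p hp => ?_, fun p hp p' hp' => ?_⟩, card_union_of_disjoint ?_⟩
  · rcases mem_union.1 hp with hp | hp
    · exact ⟨h₁ (h.mem p hp).1, h₁ (h.mem p hp).2.1, (h.mem p hp).2.2⟩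
    · exact ⟨h₂ (h'.mem p hp).1, h₂ (h'.mem p hp).2.1, (h'.mem p hp).2.2⟩
  · rcases mem_union.1 hp with hp | hp <;> rcases mem_union.1 hp' with hp' | hp'
    · exact h.dis p hp p' hp'
    · exact ⟨fun e => (hd p hp).1 (e ▸ (h'.mem p' hp').2.1),
        fun e => ((hd p hp).1 (e ▸ (h'.mem p' hp').1)).elim,
        fun e => ((hd p hp).2 (e ▸ (h'.mem p' hp').2.1)).elim⟩
    · exact ⟨fun e => (hd p' hp').2 (e ▸ (h'.mem p hp).1),
        fun e => ((hd p' hp').1 (e ▸ (h'.mem p hp).1)).elim,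
        fun e => ((hd p' hp').2 (e ▸ (h'.mem p hp).2.1)).elim⟩
    · exact h'.dis p hp p' hp'
  · exact disjoint_left.2 fun p hp hp' => (hd p hp).1 (h'.mem p hp').1

lemma list_UBlock (B : Finset E) (en : E → N) (col : E → ι) (κ : ℕ) (hκ : 1 ≤ κ)
    (hcol : ∀ c, #{e ∈ B | col e = c} < κ) (n : ℕ) (m : List E) (hm : m.Nodup)
    (hB : ∀ e ∈ m, e ∈ B) (hn : n * κ ≤ m.length) :
    ∃ F : Finset (E × E), Prs m.toFinset col F ∧ #F = n ∧ ∀ X, pc en F X ≤ chg X (m.map en) := by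
  induction n generalizing m with
  | zero => exact ⟨∅, ⟨by simp, by simp⟩, rfl, fun X => Nat.zero_le _⟩
  | succ n ih =>
    rw [Nat.succ_mul] at hn
    have hlen : (m.take κ).length = κ := by rw [List.length_take]; omega
    obtain ⟨a, r, har⟩ : ∃ a r, m.take κ = a :: r :=
      List.exists_cons_of_length_pos (by omega)
    have hsub : (a :: r).Sublist m := har ▸ List.take_sublist κ m
    obtain ⟨b, hb, hab⟩ : ∃ b ∈ r, col a ≠ col b := by
      by_contra hno
      push Not at hno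
      have h1 : (a :: r).toFinset ⊆ {e ∈ B | col e = col a} := by
        intro e he
        rw [List.mem_toFinset] at he
        refine mem_filter.2 ⟨hB e (hsub.subset he), ?_⟩
        rcases List.mem_cons.1 he with rfl | he
        · rfl
        · exact (hno e he).symm
      have h2 := card_le_card h1
      rw [List.toFinset_card_of_nodup (hm.sublist hsub), ← har, hlen] at h2
      exact absurd (hcol (col a)) (not_lt.2 h2)
    have hs : (a :: b :: m.drop κ).Sublist m := by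
      conv_rhs => rw [← List.take_append_drop κ m, har]
      exact List.Sublist.cons_cons a
        (List.Sublist.append_right (List.singleton_sublist.2 hb) (m.drop κ))
    have hnd := hm.sublist hs
    rw [List.nodup_cons, List.nodup_cons, List.mem_cons, not_or] at hnd
    obtain ⟨F, hF, hc, hp⟩ := ih (m.drop κ) hnd.2.2
      (fun e he => hB e (List.mem_of_mem_drop he)) (by rw [List.length_drop]; omega)
    have h1 : Prs m.toFinset col {(a, b)} := by
      refine ⟨fun p hp => ?_, fun p hp p' hp' => ?_⟩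
      · obtain rfl := mem_singleton.1 hp
        exact ⟨List.mem_toFinset.2 (hs.subset List.mem_cons_self),
          List.mem_toFinset.2 (hs.subset (List.mem_cons_of_mem _ List.mem_cons_self)), hab⟩
      · obtain rfl := mem_singleton.1 hp
        obtain rfl := mem_singleton.1 hp'
        exact ⟨hnd.1.1, fun _ => rfl, fun _ => rfl⟩
    obtain ⟨h2, h3⟩ := union_UBlock h1 hF (Subset.refl _)
      (fun e he => List.mem_toFinset.2 (List.mem_of_mem_drop (List.mem_toFinset.1 he))) (by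
        intro p hp
        obtain rfl := mem_singleton.1 hp
        exact ⟨fun h => hnd.1.2 (List.mem_toFinset.1 h), fun h => hnd.2.1 (List.mem_toFinset.1 h)⟩)
    refine ⟨_, h2, by rw [h3, hc, card_singleton, add_comm], fun X => ?_⟩
    refine (pc_union_UBlock en _ _ X).trans (le_trans ?_ (chg_sublist X (hs.map en)))
    rw [List.map_cons, List.map_cons, chg_cons_cons]
    refine Nat.add_le_add ?_ ((hp X).trans (cons_LList X _ _))
    unfold pc
    rw [filter_singleton]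
    by_cases h : (en a ∈ X ↔ en b ∈ X)
    · rw [if_neg (not_not.2 h), card_empty]
      exact Nat.zero_le _
    · rw [if_pos h, if_neg h, card_singleton]

/-- one round: pairs in consecutive blocks of an order -/
theorem block_pairs (l : List N) (hl : l.Nodup) (B : Finset E) (en : E → N) (col : E → ι)
    (hen : ∀ e ∈ B, en e ∈ l) (κ n : ℕ) (hκ : 1 ≤ κ) (hcol : ∀ c, #{e ∈ B | col e = c} < κ)
    (hB : n * κ ≤ #B) :
    ∃ F : Finset (E × E), Prs B col F ∧ #F = n ∧ ∀ X, pc en F X ≤ chg X l := by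
  obtain ⟨m, hm⟩ : ∃ m, m = l.flatMap fun v => ({e ∈ B | en e = v} : Finset E).toList := ⟨_, rfl⟩
  have hmem : ∀ e, e ∈ m ↔ e ∈ B := by
    intro e
    rw [hm, List.mem_flatMap]
    constructor
    · rintro ⟨v, -, he⟩
      exact (mem_filter.1 (mem_toList.1 he)).1
    · exact fun he => ⟨en e, hen e he, mem_toList.2 (mem_filter.2 ⟨he, rfl⟩)⟩
  have hfin : m.dedup.toFinset = B := by
    ext e
    rw [List.mem_toFinset, List.mem_dedup, hmem]
  obtain ⟨F, hF, hc, hp⟩ := list_UBlock B en col κ hκ hcol n m.dedup m.nodup_dedup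
    (fun e he => (hmem e).1 (List.mem_dedup.1 he))
    (by rwa [← List.toFinset_card_of_nodup m.nodup_dedup, hfin])
  refine ⟨F, hfin ▸ hF, hc, fun X => (hp X).trans
    ((chg_sublist X (m.dedup_sublist.map en)).trans ?_)⟩
  rw [hm, List.map_flatMap]
  refine flat'_UBlock X _ (fun v w hw => ?_) l
  obtain ⟨e, he, rfl⟩ := List.mem_map.1 hw
  exact (mem_filter.1 (mem_toList.1 he)).2

/-- many rounds -/
theorem round_pairs (l : ℕ → List N) (B : Finset E) (en : E → N) (col : E → ι) (κ n m : ℕ)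
    (hl : ∀ i < m, (l i).Nodup ∧ ∀ e ∈ B, en e ∈ l i) (hκ : 1 ≤ κ)
    (hcol : ∀ c, #{e ∈ B | col e = c} < κ) (hB : n * κ + 2 * (n * m) ≤ #B) :
    ∃ F : Finset (E × E), Prs B col F ∧ #F = n * m ∧
      ∀ X, pc en F X ≤ ∑ i ∈ range m, chg X (l i) := by
  induction m with
  | zero => exact ⟨∅, ⟨by simp, by simp⟩, rfl, fun X => Nat.zero_le _⟩
  | succ m ih =>
    rw [Nat.mul_succ] at hB
    obtain ⟨F, hF, hc, hp⟩ := ih (fun i hi => hl i (by omega)) (by omega)
    have h1 : #(F.image Prod.fst ∪ F.image Prod.snd) ≤ 2 * (n * m) := by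
      have a1 := card_union_le (F.image Prod.fst) (F.image Prod.snd)
      have a2 : #(F.image Prod.fst) ≤ #F := card_image_le
      have a3 : #(F.image Prod.snd) ≤ #F := card_image_le
      omega
    have h2 := le_card_sdiff (F.image Prod.fst ∪ F.image Prod.snd) B
    obtain ⟨F', hF', hc', hp'⟩ := block_pairs (l m) (hl m (by omega)).1
      (B \ (F.image Prod.fst ∪ F.image Prod.snd)) en col
      (fun e he => (hl m (by omega)).2 e (mem_sdiff.1 he).1) κ n hκ
      (fun c => (card_le_card (filter_subset_filter _ sdiff_subset)).trans_lt (hcol c)) (by omega)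
    obtain ⟨h3, h4⟩ := union_UBlock hF hF' (Subset.refl _) sdiff_subset fun p hp =>
      ⟨fun h => (mem_sdiff.1 h).2 (mem_union_left _ (mem_image_of_mem _ hp)),
        fun h => (mem_sdiff.1 h).2 (mem_union_right _ (mem_image_of_mem _ hp))⟩
    refine ⟨_, h3, by rw [h4, hc, hc', Nat.mul_succ], fun X => ?_⟩
    rw [sum_range_succ]
    exact (pc_union_UBlock en _ _ X).trans (Nat.add_le_add (hp X) (hp' X))

end Pool.Agent.P.MP_e59a69_co
end

-- part Pool.Agent.P.MP_e59a69_co.LList2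
section

/-! Counting and pairing along a list. -/

open Finset Function

namespace Pool.Agent.P.MP_e59a69_co

variable {N : Type} [DecidableEq N]

/-- side changes along a list with a given first side -/
def gch_LList2 (X : Finset N) : Bool → List N → ℕ
  | _, [] => 0
  | p, b :: l => (if p = decide (b ∈ X) then 0 else 1) + gch_LList2 X (decide (b ∈ X)) l

lemma chg_eq_LList2 (X : Finset N) (a : N) (l : List N) :
    chg X (a :: l) = gch_LList2 X (decide (a ∈ X)) l := by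
  induction l generalizing a with
  | nil => rfl
  | cons b l ih => simp only [chg_cons_cons, gch_LList2, ih, decide_eq_decide]

lemma gch_insert_LList2 (X : Finset N) {b : N} (p : Bool) {l : List N} (h : b ∉ l) :
    gch_LList2 (insert b X) p l = gch_LList2 X p l := by
  induction l generalizing p with
  | nil => rfl
  | cons c l ih =>
    have h1 : c ≠ b := fun e => h (e ▸ List.mem_cons_self)
    simp only [gch_LList2, mem_insert, h1, false_or, ih _ fun e => h (List.mem_cons_of_mem _ e)]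

lemma sum_split_LList2 {b : N} {l : List N} (h : b ∉ l) (f : Bool → ℕ) (x : ℝ) :
    ∑ Y ∈ (b :: l).toFinset.powerset, x ^ (f (decide (b ∈ Y)) + gch_LList2 Y (decide (b ∈ Y)) l) =
      x ^ f false * ∑ Y ∈ l.toFinset.powerset, x ^ gch_LList2 Y false l +
        x ^ f true * ∑ Y ∈ l.toFinset.powerset, x ^ gch_LList2 Y true l := by
  have h1 : b ∉ l.toFinset := fun e => h (List.mem_toFinset.1 e)
  rw [List.toFinset_cons, sum_powerset_insert h1, mul_sum, mul_sum]
  refine congrArg₂ _ (sum_congr rfl fun Y hY => ?_) (sum_congr rfl fun Y _ => ?_)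
  · rw [decide_eq_false fun e => h1 (mem_powerset.1 hY e), pow_add]
  · rw [decide_eq_true (mem_insert_self b Y), gch_insert_LList2 _ _ h, pow_add]

lemma sum_gch_LList2 (l : List N) (hl : l.Nodup) (x : ℝ) (p : Bool) :
    ∑ Y ∈ l.toFinset.powerset, x ^ gch_LList2 Y p l = (1 + x) ^ l.length := by
  induction l generalizing p with
  | nil => simp [gch_LList2]
  | cons b l ih =>
    obtain ⟨h1, h2⟩ := List.nodup_cons.1 hl
    refine (sum_split_LList2 h1 (fun r => if p = r then 0 else 1) x).trans ?_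
    rw [ih h2, ih h2, List.length_cons, pow_succ]
    cases p <;> simp <;> ring

theorem sum_chg (l : List N) (hl : l.Nodup) (x : ℝ) (hx : 0 ≤ x) :
    ∑ Y ∈ l.toFinset.powerset, x ^ chg Y l ≤ 2 * (1 + x) ^ l.length := by
  cases l with
  | nil => simp [chg_nil]
  | cons b l =>
    obtain ⟨h1, h2⟩ := List.nodup_cons.1 hl
    have h3 := sum_split_LList2 h1 (fun _ => 0) x
    simp only [zero_add, pow_zero, one_mul, sum_gch_LList2 l h2] at h3
    simp only [chg_eq_LList2]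
    rw [h3, List.length_cons, pow_succ]
    have h4 : 0 ≤ (1 + x) ^ l.length * x := by positivity
    linarith

lemma chg_le_cons_LList2 (X : Finset N) (b : N) (l : List N) : chg X l ≤ chg X (b :: l) := by
  cases l with
  | nil => exact le_rfl
  | cons c l => exact Nat.le_add_left _ _

theorem pair_of_list (l : List N) (hl : l.Nodup) (he : Even l.length) :
    ∃ Q : N → N, (∀ t ∈ l.toFinset, Q t ∈ l.toFinset ∧ Q t ≠ t ∧ Q (Q t) = t) ∧
      ∀ X, dQ l.toFinset Q X ≤ chg X l := by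
  induction l using List.twoStepInduction with
  | nil => exact ⟨id, by simp, fun X => by simp [dQ]⟩
  | singleton a => simp at he
  | cons_cons a b l ih _ =>
    obtain ⟨ha, hl'⟩ := List.nodup_cons.1 hl
    obtain ⟨hb, hl''⟩ := List.nodup_cons.1 hl'
    have hab : a ≠ b := fun e => ha (e ▸ List.mem_cons_self)
    have ha' : a ∉ l := fun e => ha (List.mem_cons_of_mem _ e)
    obtain ⟨Q, hQ, hd⟩ := ih hl'' (by
      rw [List.length_cons, List.length_cons, Nat.even_add_one, Nat.even_add_one, not_not] at he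
      exact he)
    obtain ⟨R, Ra, Rb, Rl⟩ : ∃ R : N → N, R a = b ∧ R b = a ∧ ∀ t ∈ l.toFinset, R t = Q t := by
      refine ⟨update (update Q a b) b a, ?_, update_self .., fun t ht => ?_⟩
      · rw [update_of_ne hab, update_self]
      · rw [update_of_ne fun e : t = b => hb (e ▸ List.mem_toFinset.1 ht),
          update_of_ne fun e : t = a => ha' (e ▸ List.mem_toFinset.1 ht)]
    refine ⟨R, fun t ht => ?_, fun X => ?_⟩
    · simp only [List.toFinset_cons, mem_insert] at ht ⊢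
      rcases ht with rfl | rfl | ht
      · exact ⟨Or.inr (Or.inl Ra), Ra ▸ hab.symm, by rw [Ra, Rb]⟩
      · exact ⟨Or.inl Rb, Rb ▸ hab, by rw [Rb, Ra]⟩
      · rw [Rl t ht, Rl _ (hQ t ht).1]
        exact ⟨Or.inr (Or.inr (hQ t ht).1), (hQ t ht).2⟩
    · have h1 := (hd X).trans (chg_le_cons_LList2 X b l)
      have h2 : ∑ t ∈ l.toFinset, (if t ∈ X ∧ R t ∉ X then 1 else 0) = dQ l.toFinset Q X := by
        rw [dQ, card_filter]
        exact sum_congr rfl fun t ht => by rw [Rl t ht]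
      rw [dQ, card_filter, List.toFinset_cons, List.toFinset_cons, sum_insert (by simpa using ha),
        sum_insert (by simpa using hb), h2, Ra, Rb, chg_cons_cons]
      by_cases h3 : a ∈ X <;> by_cases h4 : b ∈ X <;> simp [h3, h4, h1]

theorem exists_reps {α β : Type} [DecidableEq α] (C : Finset α) (tr : α → β) (D : α → ℕ) :
    ∃ F ⊆ C, (∀ X ∈ F, ∀ Y ∈ F, tr X = tr Y → X = Y) ∧
      ∀ X ∈ C, ∃ Y ∈ F, tr Y = tr X ∧ D Y ≤ D X := by
  classical
  have h : ∀ b : β, ∃ Y : Option α, ∀ X ∈ C, tr X = b →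
      ∃ Z ∈ C, Y = some Z ∧ tr Z = b ∧ D Z ≤ D X := by
    intro b
    rcases (C.filter fun X => tr X = b).eq_empty_or_nonempty with h | h
    · exact ⟨none, fun X hX e => absurd (mem_filter.2 ⟨hX, e⟩) (h ▸ notMem_empty X)⟩
    · obtain ⟨Z, hZ, hm⟩ := exists_min_image _ D h
      exact ⟨some Z, fun X hX e =>
        ⟨Z, (mem_filter.1 hZ).1, rfl, (mem_filter.1 hZ).2, hm X (mem_filter.2 ⟨hX, e⟩)⟩⟩
  choose m hm using h
  refine ⟨C.filter fun X => m (tr X) = some X, filter_subset _ _, fun X hX Y hY e => ?_,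
    fun X hX => ?_⟩
  · have h1 := (mem_filter.1 hX).2
    rw [e, (mem_filter.1 hY).2] at h1
    exact (Option.some.inj h1).symm
  · obtain ⟨Z, hZ, h1, h2, h3⟩ := hm _ X hX rfl
    exact ⟨Z, mem_filter.2 ⟨hZ, h2 ▸ h1⟩, h2, h3⟩

theorem avg_select {ι κ : Type} [DecidableEq ι] (I : Finset ι) (q : ℕ) (hq : 0 < q) (C : Finset κ)
    (ω : κ → ℝ) (hω : ∀ k, 0 ≤ ω k) (g : κ → ι → Fin q → ℝ) (hg : ∀ k i a, 0 ≤ g k i a) :
    ∃ j : ι → Fin q, ∑ k ∈ C, ω k * ∏ i ∈ I, g k i (j i) ≤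
      ∑ k ∈ C, ω k * ∏ i ∈ I, ((∑ a, g k i a) / q) := by
  induction I using Finset.induction_on generalizing ω with
  | empty => exact ⟨fun _ => ⟨0, hq⟩, by simp⟩
  | insert i I hi ih =>
    have hq' : (0 : ℝ) < q := Nat.cast_pos.2 hq
    obtain ⟨j, hj⟩ := ih (fun k => ω k * ((∑ a, g k i a) / q)) fun k =>
      mul_nonneg (hω k) (div_nonneg (sum_nonneg fun a _ => hg k i a) hq'.le)
    obtain ⟨a, -, ha⟩ := exists_min_image (univ : Finset (Fin q))
      (fun a => ∑ k ∈ C, ω k * (g k i a * ∏ i ∈ I, g k i (j i))) ⟨⟨0, hq⟩, mem_univ _⟩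
    have h1 := card_nsmul_le_sum _ _ _ ha
    rw [card_univ, Fintype.card_fin, nsmul_eq_mul, sum_comm, mul_comm, ← le_div_iff₀ hq',
      sum_div] at h1
    refine ⟨update j i a, ?_⟩
    simp only [prod_insert hi, update_self, ← mul_assoc] at h1 ⊢
    have h2 : ∀ k, ∏ i' ∈ I, g k i' (update j i a i') = ∏ i' ∈ I, g k i' (j i') := fun k =>
      prod_congr rfl fun i' hi' => by rw [update_of_ne fun e : i' = i => hi (e ▸ hi')]
    simp only [h2]
    refine h1.trans (le_trans (le_of_eq (sum_congr rfl fun k _ => ?_)) hj)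
    rw [← sum_mul, ← mul_sum]
    ring

end Pool.Agent.P.MP_e59a69_co
end

-- part Pool.Agent.P.MP_e59a69_co.UPick
section

open Finset

namespace Pool.Agent.P.MP_e59a69_co

lemma log_UPick {A R k : ℕ} (hA : 1 ≤ A) (hR : 1 ≤ R) (hk : 1 ≤ k) (h : 4096 * R ^ 2 * A ≤ k) :
    32 * R * Real.log ((A * k : ℕ) : ℝ) ≤ k := by
  have hA' : (1 : ℝ) ≤ A := by exact_mod_cast hA
  have hR' : (1 : ℝ) ≤ R := by exact_mod_cast hR
  have hk' : (1 : ℝ) ≤ k := by exact_mod_cast hk
  have h' : 4096 * (R : ℝ) ^ 2 * A ≤ k := by exact_mod_cast h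
  have hp : (0 : ℝ) < ((A * k : ℕ) : ℝ) := by push_cast; positivity
  have h1 : Real.log ((A * k : ℕ) : ℝ) ≤ 2 * Real.sqrt ((A * k : ℕ) : ℝ) := by
    have h2 := Real.log_le_sub_one_of_pos (Real.sqrt_pos.2 hp)
    rw [Real.log_sqrt hp.le] at h2
    linarith
  have h3 : Real.sqrt ((A * k : ℕ) : ℝ) ≤ k / (64 * R) := by
    refine Real.sqrt_le_iff.2 ⟨by positivity, ?_⟩
    rw [div_pow, le_div_iff₀ (by positivity)]
    push_cast
    nlinarith [mul_le_mul_of_nonneg_right h' (show (0 : ℝ) ≤ k by linarith)]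
  rw [le_div_iff₀ (by positivity)] at h3
  nlinarith [mul_le_mul_of_nonneg_left h1 (show (0 : ℝ) ≤ 32 * R by linarith)]

lemma num_UPick {R k p w a : ℕ} (hR : 1 ≤ R) (hk : 1 ≤ k) (hp : 1 ≤ p) (hw : k ≤ w)
    (ha : k * a ≤ 8 * w) (hl : 32 * R * Real.log p ≤ k) :
    Real.exp (-(w / (2 * R))) ≤ Real.exp (-(k / (4 * R))) * (p : ℝ)⁻¹ ^ a := by
  have hp' : (1 : ℝ) ≤ p := by exact_mod_cast hp
  have hR' : (1 : ℝ) ≤ R := by exact_mod_cast hR
  have hk' : (1 : ℝ) ≤ k := by exact_mod_cast hk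
  have hw' : (k : ℝ) ≤ w := by exact_mod_cast hw
  have ha' : (k : ℝ) * a ≤ 8 * w := by exact_mod_cast ha
  have h0 := Real.log_nonneg hp'
  have e : (p : ℝ)⁻¹ ^ a = Real.exp (-(a * Real.log p)) := by
    rw [Real.exp_neg, Real.exp_nat_mul, Real.exp_log (by linarith), inv_pow]
  rw [e, ← Real.exp_add, Real.exp_le_exp]
  have ha0 : (0 : ℝ) ≤ a := Nat.cast_nonneg a
  have h1 : a * Real.log p ≤ w / (4 * R) := by
    rw [le_div_iff₀ (by positivity)]
    nlinarith [mul_le_mul_of_nonneg_left hl ha0]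
  have h2 : (k : ℝ) / (4 * R) ≤ w / (4 * R) := by gcongr
  have h3 : (w : ℝ) / (2 * R) = w / (4 * R) + w / (4 * R) := by field_simp; ring
  linarith

lemma fin_UPick {R k m p : ℕ} (hR : 1 ≤ R) (hk : 192 * R ^ 2 ≤ k) (hm : m ≤ k) (hp : 1 ≤ p) :
    Real.exp (-(k / (4 * R))) * (m * (2 * (1 + (p : ℝ)⁻¹) ^ p)) < 1 := by
  have hp' : (1 : ℝ) ≤ p := by exact_mod_cast hp
  have hR' : (1 : ℝ) ≤ R := by exact_mod_cast hR
  have hk' : 192 * (R : ℝ) ^ 2 ≤ k := by exact_mod_cast hk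
  have hm' : (m : ℝ) ≤ k := by exact_mod_cast hm
  have h1 : (1 + (p : ℝ)⁻¹) ^ p ≤ 3 := by
    calc (1 + (p : ℝ)⁻¹) ^ p ≤ Real.exp (p : ℝ)⁻¹ ^ p :=
          pow_le_pow_left₀ (by positivity) (by linarith [Real.add_one_le_exp (p : ℝ)⁻¹]) _
      _ = Real.exp 1 := by rw [← Real.exp_nat_mul, mul_inv_cancel₀ (by linarith)]
      _ ≤ 3 := Real.exp_one_lt_three.le
  have h0 : (0 : ℝ) ≤ k / (4 * R) := by positivity
  have h2 := Real.quadratic_le_exp_of_nonneg h0
  rw [Real.exp_neg, inv_mul_lt_iff₀ (Real.exp_pos _), mul_one]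
  have h3 : (m : ℝ) * (2 * (1 + (p : ℝ)⁻¹) ^ p) ≤ k * (2 * 3) := by gcongr
  have h4 : 6 * (k : ℝ) ≤ (k / (4 * R)) ^ 2 / 2 := by
    rw [div_pow, div_div, le_div_iff₀ (by positivity)]
    nlinarith [mul_le_mul_of_nonneg_right hk' (show (0 : ℝ) ≤ k by positivity)]
  linarith

lemma avg_UPick {n R : ℕ} (hR : 1 ≤ R) (P : Fin n × Fin (8 * R) → Prop) [DecidablePred P] :
    ∏ i : Fin n, ((∑ a, if P (i, a) then Real.exp 1 else 1) / ((8 * R : ℕ) : ℝ)) ≤
      Real.exp (#{x | P x} / (4 * R)) := by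
  have hR' : (1 : ℝ) ≤ R := by exact_mod_cast hR
  have e : (#{x | P x} : ℝ) / (4 * R) =
      ∑ i : Fin n, (∑ a, if P (i, a) then (1 : ℝ) else 0) / (4 * R) := by
    rw [← sum_div, card_filter, Fintype.sum_prod_type]
    push_cast
    rfl
  rw [e, Real.exp_sum]
  refine prod_le_prod (fun i _ => div_nonneg (sum_nonneg fun a _ => ?_) (by positivity))
    fun i _ => le_trans ?_ (Real.add_one_le_exp _)
  · split_ifs
    · exact (Real.exp_pos _).le
    · exact zero_le_one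
  · have h1 : (∑ a, if P (i, a) then Real.exp 1 else 1) ≤
        ∑ a : Fin (8 * R), (2 * (if P (i, a) then (1 : ℝ) else 0) + 1) :=
      sum_le_sum fun a _ => by
        split_ifs
        · linarith [Real.exp_one_lt_three]
        · linarith
    rw [sum_add_distrib, ← mul_sum, sum_const, card_univ, Fintype.card_fin, nsmul_eq_mul,
      mul_one] at h1
    rw [div_le_iff₀ (by positivity)]
    refine h1.trans (le_of_eq ?_)
    push_cast
    field_simp
    ring

lemma count_UPick {N : Type} [DecidableEq N] {R k m p : ℕ} (hR : 1 ≤ R) (hk : 192 * R ^ 2 ≤ k)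
    (hkm : k ≤ 4 * m) (hm : m ≤ k) (hp : 1 ≤ p) (hl : 32 * R * Real.log p ≤ k) (W : Finset N)
    (hW : #W ≤ p) (l : ℕ → List N) (w : Finset N → ℕ)
    (h1 : ∀ i < m, (l i).Nodup ∧ ∀ v ∈ W, v ∈ l i)
    (h2 : ∀ X, ∑ i ∈ range m, chg X (l i) ≤ 2 * w X) (C : Finset (Finset N))
    (hC : ∀ X ∈ C, k ≤ w X) (hinj : ∀ X ∈ C, ∀ Y ∈ C, X ∩ W = Y ∩ W → X = Y) :
    ∑ X ∈ C, Real.exp (-(w X / (2 * R))) < 1 := by
  have hk1 : 1 ≤ k := by nlinarith
  have hx : (0 : ℝ) ≤ (p : ℝ)⁻¹ := by positivity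
  have g2 : ∀ i < m, ((l i).filter (· ∈ W)).toFinset = W := fun i hi => by
    ext v
    rw [List.mem_toFinset, List.mem_filter, decide_eq_true_iff]
    exact ⟨fun h => h.2, fun h => ⟨(h1 i hi).2 v h, h⟩⟩
  have a1 : ∀ X ∈ C, Real.exp (-(w X / (2 * R))) ≤ Real.exp (-(k / (4 * R))) *
      ∑ i ∈ range m, (p : ℝ)⁻¹ ^ chg (X ∩ W) ((l i).filter (· ∈ W)) := fun X hX => by
    obtain ⟨i, hi, hmin⟩ := exists_min_image (range m) (fun i => chg X (l i))
      ⟨0, mem_range.2 (by omega)⟩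
    have b1 := card_nsmul_le_sum (range m) _ _ hmin
    rw [card_range, smul_eq_mul] at b1
    have b2 : chg (X ∩ W) ((l i).filter (· ∈ W)) ≤ chg X (l i) := by
      refine le_trans (le_of_eq (chg_congr _ fun v hv => ?_)) (chg_sublist X List.filter_sublist)
      rw [List.mem_filter, decide_eq_true_iff] at hv
      rw [mem_inter]
      exact and_iff_left hv.2
    refine (num_UPick (a := chg (X ∩ W) ((l i).filter (· ∈ W))) hR hk1 hp (hC X hX) ?_ hl).trans
      (mul_le_mul_of_nonneg_left ?_ (Real.exp_pos _).le)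
    · calc k * chg (X ∩ W) ((l i).filter (· ∈ W)) ≤ 4 * m * chg X (l i) := Nat.mul_le_mul hkm b2
        _ = 4 * (m * chg X (l i)) := by ring
        _ ≤ 4 * (2 * w X) := Nat.mul_le_mul_left 4 (b1.trans (h2 X))
        _ = 8 * w X := by ring
    · exact single_le_sum (f := fun i => (p : ℝ)⁻¹ ^ chg (X ∩ W) ((l i).filter (· ∈ W)))
        (fun _ _ => pow_nonneg hx _) hi
  have a2 : ∀ i ∈ range m, ∑ X ∈ C, (p : ℝ)⁻¹ ^ chg (X ∩ W) ((l i).filter (· ∈ W)) ≤
      2 * (1 + (p : ℝ)⁻¹) ^ p := fun i hi => by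
    have g1 : ((l i).filter (· ∈ W)).Nodup := (h1 i (mem_range.1 hi)).1.filter _
    have g3 : ((l i).filter (· ∈ W)).length ≤ p := by
      rw [← List.toFinset_card_of_nodup g1, g2 i (mem_range.1 hi)]
      exact hW
    rw [← sum_image (f := fun Y => (p : ℝ)⁻¹ ^ chg Y ((l i).filter (· ∈ W)))
      (g := fun X => X ∩ W)]
    · refine le_trans (sum_le_sum_of_subset_of_nonneg ?_ fun _ _ _ => pow_nonneg hx _)
        ((sum_chg _ g1 _ hx).trans (mul_le_mul_of_nonneg_left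
          (pow_le_pow_right₀ (by linarith) g3) (by norm_num)))
      intro Y hY
      obtain ⟨X, -, rfl⟩ := mem_image.1 hY
      rw [g2 i (mem_range.1 hi)]
      exact mem_powerset.2 inter_subset_right
    · intro X hX Y hY hXY
      exact hinj X (mem_coe.1 hX) Y (mem_coe.1 hY) hXY
  calc ∑ X ∈ C, Real.exp (-(w X / (2 * R))) ≤ _ := sum_le_sum a1
    _ = Real.exp (-(k / (4 * R))) * ∑ i ∈ range m, ∑ X ∈ C,
          (p : ℝ)⁻¹ ^ chg (X ∩ W) ((l i).filter (· ∈ W)) := by rw [← mul_sum, sum_comm]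
    _ ≤ Real.exp (-(k / (4 * R))) * (m * (2 * (1 + (p : ℝ)⁻¹) ^ p)) := by
        refine mul_le_mul_of_nonneg_left ?_ (Real.exp_pos _).le
        have h3 := sum_le_card_nsmul _ _ _ a2
        rwa [card_range, nsmul_eq_mul] at h3
    _ < 1 := fin_UPick hR hk hm hp

/-- one pair out of every group of `8 R`, thin for all cuts -/
theorem pick_pairs (q R : ℕ) (hR : 1 ≤ R) : ∃ κ₀ : ℕ, ∀ κ m : ℕ, κ₀ ≤ κ → κ ≤ 4 * m → m ≤ κ →
    ∀ (N E : Type) [Fintype N] [DecidableEq N] [DecidableEq E] (en : E → N) (F : Finset (E × E))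
    (l : ℕ → List N) (w : Finset N → ℕ), 8 * R * (q * κ) ≤ #F → #F ≤ 32 * q * R * κ →
    (∀ i < m, (l i).Nodup ∧ ∀ p ∈ F, en p.1 ∈ l i ∧ en p.2 ∈ l i) →
    (∀ X, ∑ i ∈ range m, chg X (l i) ≤ 2 * w X) → (∀ X, pc en F X ≤ 2 * w X) →
    (∀ X, 0 < pc en F X → κ ≤ w X) →
    ∃ Q ⊆ F, #Q = q * κ ∧ ∀ X, R * pc en Q X ≤ w X := by
  rcases Nat.eq_zero_or_pos q with rfl | hq
  · exact ⟨0, fun κ m _ _ _ N E _ _ _ en F l w _ _ _ _ _ _ =>
      ⟨∅, empty_subset _, by simp, fun X => by simp [pc]⟩⟩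
  refine ⟨4096 * R ^ 2 * (64 * q * R) + 192 * R ^ 2, ?_⟩
  intro κ m hκ hκm hm N E _ _ _ en F l w hF1 hF2 hl hc hp hw
  have hk : 192 * R ^ 2 ≤ κ := le_trans (Nat.le_add_left _ _) hκ
  have hk1 : 1 ≤ κ := by nlinarith
  have hA : 1 ≤ 64 * q * R := Nat.mul_pos (by omega) hR
  have hlog := log_UPick hA hR hk1 (le_trans (Nat.le_add_right _ _) hκ)
  have hR' : (1 : ℝ) ≤ R := by exact_mod_cast hR
  obtain ⟨φ⟩ : Nonempty (Fin (q * κ) × Fin (8 * R) ↪ F) :=
    Function.Embedding.nonempty_of_card_le (by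
      rw [Fintype.card_prod, Fintype.card_fin, Fintype.card_fin, Fintype.card_coe, mul_comm]
      exact hF1)
  obtain ⟨W, hW, hW1, hW2⟩ : ∃ W : Finset N, #W ≤ 64 * q * R * κ ∧
      (∀ p ∈ F, en p.1 ∈ W ∧ en p.2 ∈ W) ∧ ∀ i < m, ∀ v ∈ W, v ∈ l i := by
    refine ⟨F.image (fun p => en p.1) ∪ F.image (fun p => en p.2), ?_, fun p hp =>
      ⟨mem_union_left _ (mem_image_of_mem _ hp), mem_union_right _ (mem_image_of_mem _ hp)⟩,
      fun i hi v hv => ?_⟩
    · have h1 := card_image_le (s := F) (f := fun p => en p.1)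
      have h2 := card_image_le (s := F) (f := fun p => en p.2)
      refine (card_union_le _ _).trans ((Nat.add_le_add (h1.trans hF2) (h2.trans hF2)).trans
        (le_of_eq (by ring)))
    · rcases mem_union.1 hv with h | h <;> obtain ⟨p, hp, rfl⟩ := mem_image.1 h
      exacts [((hl i hi).2 p hp).1, ((hl i hi).2 p hp).2]
  obtain ⟨C, hC, hinj, hrep⟩ := exists_reps (univ.filter fun X : Finset N => 0 < pc en F X)
    (fun X => X ∩ W) w
  have hsum := count_UPick hR hk hκm hm (Nat.mul_pos hA hk1) hlog W hW l w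
    (fun i hi => ⟨(hl i hi).1, hW2 i hi⟩) hc C (fun X hX => hw X (mem_filter.1 (hC hX)).2) hinj
  have hg : ∀ (P : Prop) [Decidable P], (0 : ℝ) ≤ if P then Real.exp 1 else 1 := fun P _ => by
    split_ifs
    · exact (Real.exp_pos _).le
    · exact zero_le_one
  obtain ⟨j, hj⟩ := avg_select (univ : Finset (Fin (q * κ))) (8 * R) (by omega) C
    (fun X => Real.exp (-(w X / R))) (fun X => (Real.exp_pos _).le)
    (fun X i a => if ¬ (en (φ (i, a)).1.1 ∈ X ↔ en (φ (i, a)).1.2 ∈ X) then Real.exp 1 else 1)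
    fun X i a => hg _
  have hlt : ∑ X ∈ C, Real.exp (-(w X / R)) * ∏ i : Fin (q * κ),
      (if ¬ (en (φ (i, j i)).1.1 ∈ X ↔ en (φ (i, j i)).1.2 ∈ X) then Real.exp 1 else 1) < 1 := by
    refine hj.trans_lt (lt_of_le_of_lt (sum_le_sum fun X _ => ?_) hsum)
    refine (mul_le_mul_of_nonneg_left (avg_UPick hR
      fun x => ¬ (en (φ x).1.1 ∈ X ↔ en (φ x).1.2 ∈ X)) (Real.exp_pos _).le).trans ?_
    rw [← Real.exp_add, Real.exp_le_exp]
    have h1 : #{x | ¬ (en (φ x).1.1 ∈ X ↔ en (φ x).1.2 ∈ X)} ≤ 2 * w X := by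
      refine le_trans ?_ (hp X)
      refine card_le_card_of_injOn (fun x => (φ x).1) (fun x hx => ?_)
        fun x _ y _ h => φ.injective (Subtype.ext h)
      exact mem_coe.2 (mem_filter.2 ⟨(φ x).2, (mem_filter.1 (mem_coe.1 hx)).2⟩)
    have h2 : (#{x | ¬ (en (φ x).1.1 ∈ X ↔ en (φ x).1.2 ∈ X)} : ℝ) ≤ 2 * w X := by
      exact_mod_cast h1
    have h3 := div_le_div_of_nonneg_right h2 (show (0 : ℝ) ≤ 4 * R by positivity)
    have h4 : -((w X : ℝ) / R) + 2 * w X / (4 * R) = -(w X / (2 * R)) := by field_simp; ring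
    linarith
  have hi : Function.Injective fun i : Fin (q * κ) => (φ (i, j i)).1 := fun i i' h =>
    congrArg Prod.fst (φ.injective (Subtype.ext h))
  have hQ : univ.image (fun i : Fin (q * κ) => (φ (i, j i)).1) ⊆ F := fun p hp => by
    obtain ⟨i, -, rfl⟩ := mem_image.1 hp
    exact (φ _).2
  refine ⟨_, hQ, by rw [card_image_of_injective _ hi, card_univ, Fintype.card_fin], fun X => ?_⟩
  rcases Nat.eq_zero_or_pos (pc en F X) with h0 | h0
  · have h1 : pc en (univ.image fun i : Fin (q * κ) => (φ (i, j i)).1) X ≤ pc en F X :=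
      card_le_card (filter_subset_filter _ hQ)
    rw [h0, Nat.le_zero] at h1
    rw [h1]
    exact Nat.zero_le _
  obtain ⟨Y, hY, hYX, hwY⟩ := hrep X (mem_filter.2 ⟨mem_univ _, h0⟩)
  have hv : ∀ v ∈ W, (v ∈ X ↔ v ∈ Y) := fun v hv => by
    have h1 : v ∈ Y ∩ W ↔ v ∈ X ∩ W := by rw [show Y ∩ W = X ∩ W from hYX]
    rw [mem_inter, mem_inter, and_iff_left hv, and_iff_left hv] at h1
    exact h1.symm
  have h1 : pc en (univ.image fun i : Fin (q * κ) => (φ (i, j i)).1) X =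
      #{i : Fin (q * κ) | ¬ (en (φ (i, j i)).1.1 ∈ Y ↔ en (φ (i, j i)).1.2 ∈ Y)} := by
    rw [pc, filter_image, card_image_of_injective _ hi]
    refine congrArg card (filter_congr fun i _ => ?_)
    rw [hv _ (hW1 _ (φ _).2).1, hv _ (hW1 _ (φ _).2).2]
  have h2 := (single_le_sum (f := fun X => Real.exp (-(w X / R)) * ∏ i : Fin (q * κ),
      (if ¬ (en (φ (i, j i)).1.1 ∈ X ↔ en (φ (i, j i)).1.2 ∈ X) then Real.exp 1 else 1))
    (fun X _ => mul_nonneg (Real.exp_pos _).le (prod_nonneg fun i _ => hg _)) hY).trans_lt hlt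
  rw [prod_ite, prod_const, prod_const_one, mul_one, ← h1, ← Real.exp_nat_mul, mul_one,
    ← Real.exp_add, Real.exp_lt_one_iff, neg_add_lt_iff_lt_add, add_zero,
    lt_div_iff₀ (by positivity)] at h2
  refine le_trans ?_ hwY
  rw [mul_comm]
  exact_mod_cast h2.le

end Pool.Agent.P.MP_e59a69_co
end

-- part Pool.Agent.P.MP_e59a69_co.UPair
section

open Finset

namespace Pool.Agent.P.MP_e59a69_co

lemma sum_ct_UPair {N E : Type} [DecidableEq N] [Fintype E] [DecidableEq E] (s t : E → N)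
    (T : ℕ → Finset E) (hT : ∀ i j, i ≠ j → Disjoint (T i) (T j)) (m : ℕ) (X : Finset N) :
    ∑ i ∈ range m, ct s t (T i) X ≤ ct s t univ X := by
  unfold ct
  rw [← card_biUnion fun i _ j _ hij => disjoint_filter_filter (hT i j hij)]
  refine card_le_card fun e he => ?_
  obtain ⟨i, -, hi⟩ := mem_biUnion.1 he
  exact mem_filter.2 ⟨mem_univ _, (mem_filter.1 hi).2⟩

/-- orders from a packing of trees -/
theorem exists_orders {N : Type} [Fintype N] [DecidableEq N] (Z : Finset N) (W : Multiset (N × N))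
    (hW : ∀ p ∈ W, p.1 ∈ Z ∧ p.2 ∈ Z) (m : ℕ) (hm : 3 ≤ m) (h : ∀ X, Sep Z X → 3 * m ≤ mcut W X) :
    ∃ l : ℕ → List N, (∀ i < m, (l i).Nodup ∧ (l i).toFinset = Z) ∧
      ∀ X, ∑ i ∈ range m, chg X (l i) ≤ 2 * mcut W X := by
  have : DecidableEq W.ToType := Classical.decEq _
  have hc : ∀ X, ct (fun x : W.ToType => x.1.1) (fun x : W.ToType => x.1.2) univ X = mcut W X := by
    intro X
    rw [← mcut_map]
    exact congrArg (fun V => mcut V X) (Multiset.map_univ_coe W)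
  have hZ : ∀ x : W.ToType, x.1.1 ∈ Z ∧ x.1.2 ∈ Z := fun x => hW x.1 (Multiset.coe_mem (x := x))
  obtain ⟨T, hT, hT'⟩ := pack (fun x : W.ToType => x.1.1) (fun x : W.ToType => x.1.2) Z hZ m hm
    fun X hX => by rw [hc]; exact h X hX
  have hl : ∀ i, ∃ l : List N, i < m → l.Nodup ∧ l.toFinset = Z ∧
      ∀ X, chg X l ≤ 2 * ct (fun x : W.ToType => x.1.1) (fun x : W.ToType => x.1.2) (T i) X := by
    intro i
    by_cases hi : i < m
    · obtain ⟨l, hl⟩ := exists_list _ _ Z (T i) (fun e _ => hZ e) (hT' i hi)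
      exact ⟨l, fun _ => hl⟩
    · exact ⟨[], fun h => absurd h hi⟩
  choose l hl using hl
  refine ⟨l, fun i hi => ⟨(hl i hi).1, (hl i hi).2.1⟩, fun X => ?_⟩
  refine (sum_le_sum fun i hi => (hl i (mem_range.1 hi)).2.2 X).trans ?_
  rw [← mul_sum, ← hc]
  exact Nat.mul_le_mul_left _ (sum_ct_UPair _ _ T hT m X)

/-- thin pair lemma -/
theorem thin_pair (q R : ℕ) (hR : 1 ≤ R) : ∃ κ₀ : ℕ, ∀ κ : ℕ, κ₀ ≤ κ →
    ∀ (N ι E : Type) [Fintype N] [DecidableEq N] [DecidableEq ι] [DecidableEq E] (Z : Finset N)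
    (W : Multiset (N × N)) (B : Finset E) (en : E → N) (col : E → ι),
    (∀ p ∈ W, p.1 ∈ Z ∧ p.2 ∈ Z) → (∀ X, Sep Z X → κ ≤ mcut W X) → (∀ e ∈ B, en e ∈ Z) →
    (∀ c, #{e ∈ B | col e = c} < κ) → 64 * q * R * κ ≤ #B →
    ∃ Q : Finset (E × E), Prs B col Q ∧ #Q = q * κ ∧ ∀ X, R * pc en Q X ≤ mcut W X := by
  obtain ⟨κ₁, h₁⟩ := pick_pairs q R hR
  refine ⟨max 12 κ₁, fun κ hκ N ι E _ _ _ _ Z W B en col hW hc hen hcol hB => ?_⟩
  have h12 : 12 ≤ κ := (le_max_left _ _).trans hκ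
  obtain ⟨m, hm⟩ : ∃ m, m = κ / 3 := ⟨_, rfl⟩
  obtain ⟨l, hl, hl'⟩ := exists_orders Z W hW m (by omega) fun X hX =>
    le_trans (by omega) (hc X hX)
  have hmem : ∀ i < m, ∀ e ∈ B, en e ∈ l i := fun i hi e he =>
    List.mem_toFinset.1 ((hl i hi).2 ▸ hen e he)
  obtain ⟨F, hF, hF1, hF2⟩ := round_pairs l B en col κ (32 * q * R) m
    (fun i hi => ⟨(hl i hi).1, hmem i hi⟩) (by omega) hcol (by
      have h2 := Nat.mul_le_mul_left (32 * q * R) (show 2 * m ≤ κ by omega)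
      nlinarith)
  obtain ⟨Q, hQ, hQ1, hQ2⟩ := h₁ κ m ((le_max_right _ _).trans hκ) (by omega) (by omega) N E en F l
    (mcut W)
    (by
      have h2 := Nat.mul_le_mul_left (8 * q * R) (show κ ≤ 4 * m by omega)
      rw [hF1]
      nlinarith)
    (by rw [hF1]; exact Nat.mul_le_mul_left _ (by omega))
    (fun i hi => ⟨(hl i hi).1, fun p hp =>
      ⟨hmem i hi _ (hF.mem p hp).1, hmem i hi _ (hF.mem p hp).2.1⟩⟩)
    hl' (fun X => (hF2 X).trans (hl' X))
    (fun X hX => by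
      obtain ⟨p, hp⟩ := card_pos.1 hX
      obtain ⟨hp, hp'⟩ := mem_filter.1 hp
      have a := hen _ (hF.mem p hp).1
      have b := hen _ (hF.mem p hp).2.1
      refine hc X ?_
      by_cases c : en p.1 ∈ X
      · exact ⟨⟨_, a, c⟩, _, b, fun d => hp' ⟨fun _ => d, fun _ => c⟩⟩
      · exact ⟨⟨_, b, by
          by_contra d
          exact hp' ⟨fun x => (c x).elim, fun x => (d x).elim⟩⟩, _, a, c⟩)
  exact ⟨Q, ⟨fun p hp => hF.mem p (hQ hp), fun p hp p' hp' => hF.dis p (hQ hp) p' (hQ hp')⟩,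
    hQ1, hQ2⟩

end Pool.Agent.P.MP_e59a69_co
end

-- part Pool.Agent.P.MP_e59a69_co.KStar
section

/-! The star lemma. -/

open Finset Function

namespace Pool.Agent.P.MP_e59a69_co

theorem kstar (η : ℝ) (hη : 0 < η) : ∃ κ0 : ℕ, ∀ κ : ℕ, κ0 ≤ κ →
    ∀ (V E I : Type) [Fintype V] [Fintype E] [Fintype I] [DecidableEq V] (s t : E → V)
      (ed : I → Fin κ → E), Injective (fun p : I × Fin κ => ed p.1 p.2) →
      (∀ i j j', s (ed i j) = s (ed i j')) →
      (∀ X : Finset V, X.Nonempty → Xᶜ.Nonempty → κ ≤ ct s t univ X) →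
      ∃ (D : V × V → ℝ) (r : I → Fin κ → ℝ), Dom s t D ∧ (∀ i j, 0 ≤ r i j) ∧
        (∀ i j y, (y (s (ed i j)) - y (t (ed i j))) ^ 2 ≤ r i j * (En s t y + ED D y)) ∧
        ∀ i, ∑ j, r i j ≤ η * κ := by
  obtain ⟨η', h1, h2, h3⟩ : ∃ η' : ℝ, 0 < η' ∧ η' ≤ 1 ∧ η' ≤ η :=
    ⟨min η 1, lt_min hη one_pos, min_le_right _ _, min_le_left _ _⟩
  set μ0 : ℝ := (η' / (16 * 1)) ^ 2 with hμ0
  have hμ : 0 < μ0 := by positivity
  have hμ1 : μ0 ≤ 1 := pow_le_one₀ (by positivity) (by linarith)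
  set R : ℝ := 2 / μ0 with hR
  have hR1 : 1 ≤ R := by rw [hR, le_div_iff₀ hμ]; linarith
  obtain ⟨κ0, hκ0⟩ := exists_nat_ge (2 ^ 50 * R ^ 4 / (η' / 8) ^ 10 * 3 / μ0)
  refine ⟨κ0 + 1, fun κ hκ V E I _ _ _ _ s t ed hinj hs hcut => ?_⟩
  classical
  have hκp : (0 : ℝ) < κ := by exact_mod_cast (by omega : 0 < κ)
  let χ : I × Fin κ → V → ℝ := fun f x =>
    (if x = s (ed f.1 f.2) then 1 else 0) - (if x = t (ed f.1 f.2) then 1 else 0)
  have hev : ∀ f y, evl (χ f) y = y (s (ed f.1 f.2)) - y (t (ed f.1 f.2)) := fun f y => by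
    simp [evl, χ, sub_mul, sum_sub_distrib]
  have habs : ∀ f x, |χ f x| ≤ (if x = s (ed f.1 f.2) then 1 else 0) +
      (if x = t (ed f.1 f.2) then 1 else 0) := fun f x => by
    simp only [χ]
    split_ifs <;> norm_num
  let a : I → I × Fin κ → ℝ := fun i f => if f.1 = i then 1 / κ else 0
  have hmix : ∀ (lam : I → ℝ) f, mix lam a f = lam f.1 / κ := fun lam f => by
    simp [mix, a, div_eq_mul_inv]
  obtain ⟨D, r, d1, d2, d3, d4⟩ := kgen s t χ (fun f => s (ed f.1 f.2)) a 1 η' 2 R 1 κ 0 κ le_rfl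
    h1 h2 (by norm_num) hR1 le_rfl hκp (by omega) (fun f => by simp [χ, sum_sub_distrib])
    (fun f => le_trans (sum_le_sum fun x _ => habs f x) (by simp [sum_add_distrib]; norm_num))
    (fun f => le_trans (sum_le_sum (g := fun x => ((if x = s (ed f.1 f.2) then 1 else 0) +
      (if x = t (ed f.1 f.2) then 1 else 0) : ℝ)) fun x _ => by
        simp only [χ]
        split_ifs <;> norm_num) (by simp [sum_add_distrib]; norm_num))
    (fun f y => by
      rw [hev, one_mul]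
      exact single_le_sum (f := fun e => (y (s e) - y (t e)) ^ 2) (fun _ _ => sq_nonneg _)
        (mem_univ (ed f.1 f.2)))
    (fun i f => by simp only [a]; split_ifs <;> positivity)
    (fun i => by
      simp only [a, Fintype.sum_prod_type]
      rw [sum_eq_single i (fun j _ hj => by simp [hj]) (by simp)]
      simp [hκp.ne'])
    (fun X a1 a2 => le_trans (by omega) (hcut X a1 a2))
    (fun X a1 a2 => by exact_mod_cast hcut X (card_pos.1 a1) (card_pos.1 a2))
    (fun lam l l0 l1 hl hP => by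
      refine ⟨univ.filter fun f => R * mix lam a f < l (s (ed f.1 f.2)) (t (ed f.1 f.2)), ?_,
        fun f hf hf0 => ?_⟩
      · have b1 : R * ∑ f with R * mix lam a f < l (s (ed f.1 f.2)) (t (ed f.1 f.2)), mix lam a f ≤
            ∑ f : I × Fin κ, l (s (ed f.1 f.2)) (t (ed f.1 f.2)) := by
          rw [mul_sum]
          exact le_trans (sum_le_sum fun f hf => (mem_filter.1 hf).2.le)
            (sum_le_sum_of_subset_of_nonneg (subset_univ _) fun _ _ _ => hl.nonneg _ _)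
        have b2 : ∑ f : I × Fin κ, l (s (ed f.1 f.2)) (t (ed f.1 f.2)) ≤ Pl s t l := by
          rw [← sum_image (s := univ) (g := fun p : I × Fin κ => ed p.1 p.2)
            (f := fun e => l (s e) (t e)) fun a _ b _ h => hinj h]
          exact sum_le_sum_of_subset_of_nonneg (subset_univ _) fun _ _ _ => hl.nonneg _ _
        have b3 : R * μ0 = 2 := by rw [hR]; field_simp
        refine le_of_mul_le_mul_left ?_ (show 0 < R by linarith)
        rw [← hμ0]
        linarith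
      · have b1 : l (s (ed f.1 f.2)) (t (ed f.1 f.2)) ≤ R * mix lam a f := by
          by_contra hc
          exact hf (mem_filter.2 ⟨mem_univ _, not_le.1 hc⟩)
        refine ⟨le_trans (sum_le_sum fun x _ =>
          mul_le_mul_of_nonneg_right (habs f x) (hl.nonneg _ _)) ?_, ?_⟩
        · simpa [add_mul, sum_add_distrib, hl.self] using b1
        · refine le_trans ?_ (card_le_card (s := univ.image fun j : Fin κ => (f.1, j))
            fun g hg => ?_)
          · rw [card_image_of_injective _ fun a b h => (Prod.ext_iff.1 h).2]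
            simp
          · obtain ⟨j, -, rfl⟩ := mem_image.1 hg
            refine mem_filter.2 ⟨mem_univ _, by simp [hmix], ?_⟩
            simp only [hs f.1 f.2 j, hl.self]
            positivity)
    (by
      have b1 : (κ0 : ℝ) ≤ κ := by exact_mod_cast (by omega : κ0 ≤ κ)
      have b2 := hκ0.trans b1
      rw [div_le_iff₀ hμ] at b2
      have b3 : (2 * 1 / κ + 1 / κ + 2 * (0 : ℕ) * (2 * 1 + 1) : ℝ) = 3 / κ := by
        push_cast; ring
      rw [b3, ← mul_div_assoc, div_le_iff₀ hκp, ← hμ0, mul_comm μ0]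
      exact b2)
  refine ⟨D, fun i j => r (i, j), d1, fun i j => d2 _, fun i j y => ?_, fun i => ?_⟩
  · have := d3 (i, j) y
    rwa [hev] at this
  · have := d4 i
    simp only [a, Fintype.sum_prod_type] at this
    rw [sum_eq_single i (fun j _ hj => by simp [hj]) (by simp)] at this
    simp only [if_true, ← mul_sum] at this
    rw [one_div, inv_mul_le_iff₀ hκp] at this
    nlinarith

end Pool.Agent.P.MP_e59a69_co
end

-- part Pool.Agent.P.MP_e59a69_co.UStar
section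

open Finset

namespace Pool.Agent.P.MP_e59a69_co

/-- star lemma -/
theorem star_lemma (η : ℝ) (hη : 0 < η) : ∃ k₀ : ℕ, ∀ k : ℕ, k₀ ≤ k →
    ∀ (V E I : Type) [Fintype V] [Fintype E] [Fintype I] [DecidableEq V] [DecidableEq E]
    (s t : E → V) (c : I → V) (g : I → Fin k → E),
    (∀ X : Finset V, X.Nonempty → Xᶜ.Nonempty → k ≤ ct s t univ X) →
    (Function.Injective fun p : I × Fin k => g p.1 p.2) → (∀ i a, s (g i a) = c i) →
    ∃ (D : V → V → ℝ) (r : I → Fin k → ℝ), (∀ u v, 0 ≤ D u v) ∧ (∀ i a, 0 ≤ r i a) ∧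
      (∀ X : Finset V, ∑ u, ∑ v, D u v * (if (u ∈ X ↔ v ∈ X) then 0 else 1) ≤ ct s t univ X) ∧
      (∀ i, ∑ a, r i a ≤ η * k) ∧ ∀ i a (y : V → ℝ), (y (s (g i a)) - y (t (g i a))) ^ 2 ≤
        r i a * (∑ e, (y (s e) - y (t e)) ^ 2 + ∑ u, ∑ v, D u v * (y u - y v) ^ 2) := by
  obtain ⟨k₀, h⟩ := kstar η hη
  refine ⟨k₀, fun k hk V E I _ _ _ _ _ s t c g h1 h2 h3 => ?_⟩
  obtain ⟨D, r, ⟨d1, d2⟩, r1, r2, r3⟩ := h k hk V E I s t g h2
    (fun i j j' => by rw [h3, h3]) h1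
  refine ⟨fun u v => D (u, v), r, fun u v => d1 _, r1, fun X => ?_, r3, fun i a y => ?_⟩
  · refine le_trans (le_of_eq ?_) (d2 X)
    rw [ED, Fintype.sum_prod_type]
    refine sum_congr rfl fun u _ => sum_congr rfl fun v _ => ?_
    by_cases a : u ∈ X <;> by_cases b : v ∈ X <;> simp [ind1, a, b]
  · have := r2 i a y
    rwa [En, ED, Fintype.sum_prod_type] at this

end Pool.Agent.P.MP_e59a69_co
end

-- part Pool.Agent.P.MP_e59a69_co.USel
section

open Finset

namespace Pool.Agent.P.MP_e59a69_co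

theorem markov_USel {k n : ℕ} {η : ℝ} (hη : 0 < η) (r : Fin k → ℝ) (h0 : ∀ a, 0 ≤ r a)
    (hs : ∑ a, r a ≤ η * k) (hn : 0 < n) (hk : 2 * n ≤ k) :
    ∃ φ : ℕ → Fin k, (∀ a, r (φ a) ≤ 2 * η) ∧ ∀ a < n, ∀ b < n, φ a = φ b → a = b := by
  classical
  have h1 := card_filter_add_card_filter_not (s := (univ : Finset (Fin k))) fun a => r a ≤ 2 * η
  rw [card_univ, Fintype.card_fin] at h1
  have h2 : (#{a | ¬ r a ≤ 2 * η} : ℝ) * (2 * η) ≤ η * k := by
    refine le_trans ?_ ((sum_le_sum_of_subset_of_nonneg (filter_subset (fun a => ¬ r a ≤ 2 * η) _)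
      fun a _ _ => h0 a).trans hs)
    rw [← nsmul_eq_mul]
    exact card_nsmul_le_sum _ _ _ fun a ha => (not_le.1 (mem_filter.1 ha).2).le
  have h3 : 2 * #{a | ¬ r a ≤ 2 * η} ≤ k := by
    have : (2 * #{a | ¬ r a ≤ 2 * η} : ℝ) ≤ k := le_of_mul_le_mul_left (by linarith) hη
    exact_mod_cast this
  have h4 : n ≤ #{a | r a ≤ 2 * η} := by omega
  refine ⟨fun a => orderEmbOfCardLe _ h4 ⟨a % n, Nat.mod_lt _ hn⟩,
    fun a => (mem_filter.1 (orderEmbOfCardLe_mem _ h4 _)).2, fun a ha b hb e => ?_⟩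
  have := congrArg Fin.val ((orderEmbOfCardLe _ h4).injective e)
  simpa [Nat.mod_eq_of_lt ha, Nat.mod_eq_of_lt hb] using this

theorem ind_USel {V : Type} [DecidableEq V] (X : Finset V) (u v : V) :
    ((if u ∈ X then (1 : ℝ) else 0) - if v ∈ X then 1 else 0) ^ 2 =
      if ¬ (u ∈ X ↔ v ∈ X) then 1 else 0 := by
  by_cases hu : u ∈ X <;> by_cases hv : v ∈ X <;> simp [hu, hv]

/-- one thin edge out of every star -/
theorem star_select (M : ℕ) : ∃ k₀ : ℕ, ∀ k : ℕ, k₀ ≤ k →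
    ∀ (V E I : Type) [Fintype V] [Fintype E] [Fintype I] [DecidableEq V] [DecidableEq E]
    [DecidableEq I] (s t : E → V) (c : I → V) (g : I → Fin k → E),
    (∀ X : Finset V, X.Nonempty → Xᶜ.Nonempty → k ≤ ct s t univ X) →
    (Function.Injective fun p : I × Fin k => g p.1 p.2) → (∀ i a, s (g i a) = c i) →
    ∃ σ : I → Fin k, ∀ X : Finset V,
      M * #{i | ¬ (s (g i (σ i)) ∈ X ↔ t (g i (σ i)) ∈ X)} ≤ ct s t univ X := by
  obtain ⟨j, hj⟩ := exists_pow_lt_of_lt_one (x := 1 / (2 * (M : ℝ) + 1)) (y := 9 / 10)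
    (by positivity) (by norm_num)
  have hη : (0 : ℝ) < (9 / 10) ^ j / 200 := by positivity
  obtain ⟨k₁, H⟩ := star_lemma _ hη
  refine ⟨max k₁ (2 * 2 ^ j), fun k hk V E I _ _ _ _ _ _ s t c g hcut hg hs => ?_⟩
  obtain ⟨D, r, hD, hr, hX, hsum, hy⟩ := H k ((le_max_left _ _).trans hk) V E I s t c g hcut hg hs
  choose φ hφ hφi using fun i => markov_USel hη (r i) (hr i) (hsum i) (Nat.two_pow_pos j)
    ((le_max_right _ _).trans hk)
  let dl : V → V → (V → ℝ) →ₗ[ℝ] ℝ := fun u v =>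
    (LinearMap.proj u : (V → ℝ) →ₗ[ℝ] ℝ) - (LinearMap.proj v : (V → ℝ) →ₗ[ℝ] ℝ)
  have hdl : ∀ u v w, dl u v w = w u - w v := fun _ _ _ => rfl
  let γ : (V → ℝ) →ₗ[ℝ] E ⊕ V × V → ℝ := LinearMap.pi
    (Sum.elim (fun e => dl (s e) (t e)) fun p => √(D p.1 p.2) • dl p.1 p.2)
  have hγ : ∀ w, ∑ x, γ w x ^ 2 =
      ∑ e, (w (s e) - w (t e)) ^ 2 + ∑ u, ∑ v, D u v * (w u - w v) ^ 2 := fun w => by
    rw [Fintype.sum_sum_type, Fintype.sum_prod_type]
    congr 1
    refine sum_congr rfl fun u _ => sum_congr rfl fun v _ => ?_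
    change (√(D u v) * (w u - w v)) ^ 2 = _
    rw [mul_pow, Real.sq_sqrt (hD u v)]
  have hQ : ∀ w : V → ℝ, 0 ≤ ∑ u, ∑ v, D u v * (w u - w v) ^ 2 := fun w =>
    sum_nonneg fun u _ => sum_nonneg fun v _ => mul_nonneg (hD u v) (sq_nonneg _)
  refine (sel_iter γ j (fun i a => dl (s (g i (φ i a))) (t (g i (φ i a)))) 1
    zero_le_one (fun w => ?_) (fun i a w => ?_)).elim fun σ hσ' => ?_
  rotate_left 2
  · have hσ := hσ'.2
    refine ⟨fun i => φ i (σ i), fun X => ?_⟩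
    have h1 := hσ fun u => if u ∈ X then 1 else 0
    have h2 := hX X
    simp only [hγ, hdl, ind_USel, sum_boole, mul_one] at h1
    simp only [← ite_not (α := ℝ) (p := ¬ _), not_not] at h1
    have h3 : (0 : ℝ) ≤ ct s t univ X := Nat.cast_nonneg _
    have h4 : (2 * (M : ℝ) + 1) * (9 / 10) ^ j ≤ 1 := by
      rw [lt_div_iff₀ (by positivity)] at hj
      linarith
    have h5 : (0 : ℝ) ≤ (9 / 10) ^ j := by positivity
    have h6 : (#{i | ¬ (s (g i (φ i (σ i))) ∈ X ↔ t (g i (φ i (σ i))) ∈ X)} : ℝ) ≤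
        (9 / 10) ^ j * (2 * ct s t univ X) := by
      refine h1.trans (mul_le_mul_of_nonneg_left ?_ h5)
      rw [two_mul]
      exact add_le_add le_rfl h2
    have h7 : (M : ℝ) * #{i | ¬ (s (g i (φ i (σ i))) ∈ X ↔ t (g i (φ i (σ i))) ∈ X)} ≤
        ct s t univ X := by
      refine (mul_le_mul_of_nonneg_left h6 (Nat.cast_nonneg M)).trans ?_
      nlinarith
    exact_mod_cast h7
  · rw [one_mul, hγ, ← sum_product']
    refine le_trans ?_ (le_add_of_nonneg_right (hQ w))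
    simp only [hdl]
    rw [← sum_image (s := univ ×ˢ range (2 ^ j)) (g := fun p : I × ℕ => g p.1 (φ p.1 p.2))
      (f := fun e => (w (s e) - w (t e)) ^ 2)]
    · exact sum_le_sum_of_subset_of_nonneg (subset_univ _) fun _ _ _ => sq_nonneg _
    · rintro ⟨i, a⟩ ha ⟨i', b⟩ hb e
      have e' := @hg (i, φ i a) (i', φ i' b) e
      obtain ⟨rfl, e2⟩ := Prod.ext_iff.1 e'
      simp only [coe_product, Set.mem_prod, mem_coe, mem_range] at ha hb
      rw [hφi i a ha.2 b hb.2 e2]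
  · rw [mul_one, hγ, hdl]
    have h1 := hy i (φ i a) w
    have h2 := hφ i a
    have h3 : 0 ≤ ∑ e, (w (s e) - w (t e)) ^ 2 + ∑ u, ∑ v, D u v * (w u - w v) ^ 2 :=
      add_nonneg (sum_nonneg fun _ _ => sq_nonneg _) (hQ w)
    have h4 := mul_le_mul_of_nonneg_right h2 h3
    linarith

end Pool.Agent.P.MP_e59a69_co
end

-- part Pool.Agent.P.MP_e59a69_co.URoot
section

open Finset

namespace Pool.Agent.P.MP_e59a69_co

lemma ct_sum_URoot {V A B : Type} [DecidableEq V] [Fintype A] [Fintype B] (s t : A ⊕ B → V)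
    (X : Finset V) : ct s t univ X =
      ct (fun a => s (.inl a)) (fun a => t (.inl a)) univ X +
        ct (fun b => s (.inr b)) (fun b => t (.inr b)) univ X := by
  simp only [ct, card_filter, Fintype.sum_sum_type]

lemma chg_map_URoot {N I : Type} [DecidableEq N] [DecidableEq I] (X : Finset N)
    (X' : Finset (N ⊕ I)) (h : ∀ v, Sum.inl v ∈ X' ↔ v ∈ X) (l : List N) :
    chg X' (l.map Sum.inl) = chg X l := by
  induction l with
  | nil => rfl
  | cons a l ih =>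
    rcases l with _ | ⟨b, l⟩
    · rfl
    · rw [List.map_cons] at ih
      rw [List.map_cons, List.map_cons, chg_cons_cons, chg_cons_cons, ih]
      simp only [h]

lemma sub_URoot {N I : Type} (l : List (N ⊕ I)) :
    ((l.filterMap Sum.getLeft?).map Sum.inl).Sublist l := by
  induction l with
  | nil => exact List.Sublist.slnil
  | cons a l ih =>
    rcases a with a | a
    · exact ih.cons_cons (Sum.inl a)
    · exact ih.cons (Sum.inr a)

lemma list_URoot {N I : Type} [Fintype N] [Fintype I] [DecidableEq N] [DecidableEq I]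
    (l' : List (N ⊕ I)) (h1 : l'.Nodup) (h2 : l'.toFinset = univ) :
    ∃ l : List N, l.Nodup ∧ l.toFinset = univ ∧ ∀ (X : Finset N) (X' : Finset (N ⊕ I)),
      (∀ v, Sum.inl v ∈ X' ↔ v ∈ X) → chg X l ≤ chg X' l' := by
  refine ⟨l'.filterMap Sum.getLeft?, (h1.sublist (sub_URoot l')).of_map _, ?_, fun X X' h => ?_⟩
  · refine eq_univ_of_forall fun v => List.mem_toFinset.2 ?_
    have : Sum.inl v ∈ l' := List.mem_toFinset.1 (h2 ▸ mem_univ _)
    exact List.mem_filterMap.2 ⟨_, this, rfl⟩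
  · rw [← chg_map_URoot X X' h]
    exact chg_sublist X' (sub_URoot l')

lemma num_URoot {n c T a j x y : ℕ} (hT : 4 * n * c ≤ T) (hT1 : 1 ≤ T)
    (h1 : 4 * n * (1 + c) * a ≤ x + y) (h2 : y + T * j ≤ c * x) : n * (2 * (a + j)) ≤ x := by
  have h3 : (1 + c) * (4 * n * a) ≤ (1 + c) * x := by nlinarith [Nat.zero_le (T * j)]
  have h4 : 4 * n * a ≤ x := Nat.le_of_mul_le_mul_left h3 (by omega)
  have h5 : 4 * n * j ≤ x := by
    rcases Nat.eq_zero_or_pos c with rfl | hc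
    · have : j = 0 := by nlinarith [Nat.zero_le y]
      simp [this]
    · have h6 : 4 * n * c * j ≤ T * j := Nat.mul_le_mul_right _ hT
      have h7 : c * (4 * n * j) ≤ c * x := by nlinarith [Nat.zero_le y]
      exact Nat.le_of_mul_le_mul_left h7 hc
  nlinarith

section
variable {N E I : Type} [Fintype N] [Fintype E] [Fintype I] [DecidableEq N] [DecidableEq I]
  {κ : ℕ}

/-- tails in the graph with the stars added -/
def sa_URoot (s : E → N) : E ⊕ I × Fin κ → N ⊕ I :=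
  Sum.elim (fun e => .inl (s e)) fun p => .inr p.1

/-- heads in the graph with the stars added -/
def ta_URoot (t : E → N) (lf : I → Fin κ → N) : E ⊕ I × Fin κ → N ⊕ I :=
  Sum.elim (fun e => .inl (t e)) fun p => .inl (lf p.1 p.2)

omit [Fintype N] in
lemma cta_URoot (s t : E → N) (lf : I → Fin κ → N) (X : Finset N) (X' : Finset (N ⊕ I))
    (h : ∀ v, Sum.inl v ∈ X' ↔ v ∈ X) : ct (sa_URoot s) (ta_URoot t lf) univ X' =
      ct s t univ X + ∑ c : I, #{i : Fin κ | ¬ (Sum.inr c ∈ X' ↔ lf c i ∈ X)} := by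
  rw [ct_sum_URoot]
  simp only [ct, card_filter, Fintype.sum_prod_type, sa_URoot, ta_URoot, Sum.elim_inl,
    Sum.elim_inr, h]

lemma conn_URoot (s t : E → N) (lf : I → Fin κ → N)
    (hc : ∀ X : Finset N, X.Nonempty → Xᶜ.Nonempty → κ ≤ ct s t univ X)
    (X' : Finset (N ⊕ I)) (h1 : X'.Nonempty) (h2 : X'ᶜ.Nonempty) :
    κ ≤ ct (sa_URoot s) (ta_URoot t lf) univ X' := by
  rw [cta_URoot s t lf X'.toLeft X' fun v => mem_toLeft.symm]
  have key : ∀ c : I, (∀ v : N, ¬ (Sum.inr c ∈ X' ↔ v ∈ X'.toLeft)) →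
      κ ≤ ∑ c : I, #{i : Fin κ | ¬ (Sum.inr c ∈ X' ↔ lf c i ∈ X'.toLeft)} := by
    intro c h
    refine le_trans ?_ (single_le_sum (fun _ _ => Nat.zero_le _) (mem_univ c))
    rw [filter_true_of_mem fun i _ => h _, card_univ, Fintype.card_fin]
  by_cases a : X'.toLeft.Nonempty
  · by_cases b : X'.toLeftᶜ.Nonempty
    · exact (hc _ a b).trans (Nat.le_add_right _ _)
    · have hb : ∀ v, v ∈ X'.toLeft := fun v => by
        by_contra hv
        exact b ⟨v, mem_compl.2 hv⟩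
      obtain ⟨z, hz⟩ := h2
      rw [mem_compl] at hz
      rcases z with v | c
      · exact (hz (mem_toLeft.1 (hb v))).elim
      · exact (key c fun v h => hz (h.2 (hb v))).trans (Nat.le_add_left _ _)
  · obtain ⟨z, hz⟩ := h1
    rcases z with v | c
    · exact (a ⟨v, mem_toLeft.2 hz⟩).elim
    · exact (key c fun v h => a ⟨v, h.1 hz⟩).trans (Nat.le_add_left _ _)

end

section
variable {N : Type} [Fintype N] [DecidableEq N] {κ c₁ c₂ T : ℕ} {u : Nd N κ}

/-- tails in the joining graph -/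
def sb_URoot (h : Good c₁ c₂ T u) :
    {c // c ∈ u.C} ⊕ {p // p ∈ u.J} → N ⊕ {c // c ∈ u.C} :=
  Sum.elim (fun c => .inr c) fun p => .inr ⟨p.1.1, (h.jend _ p.2).1⟩

/-- heads in the joining graph -/
def tb_URoot (h : Good c₁ c₂ T u) (σ : {c // c ∈ u.C} → Fin κ) :
    {c // c ∈ u.C} ⊕ {p // p ∈ u.J} → N ⊕ {c // c ∈ u.C} :=
  Sum.elim (fun c => .inl (c.1.2 (σ c))) fun p => .inr ⟨p.1.2, (h.jend _ p.2).2⟩

variable [DecidableEq {c // c ∈ u.C}]

lemma tree_URoot (h : Good c₁ c₂ T u) (hu : ∀ v, v ∈ u.vs) (hκ : 0 < κ)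
    (σ : {c // c ∈ u.C} → Fin κ) : Conn (sb_URoot h) (tb_URoot h σ) univ univ := by
  intro X' hX
  by_contra hno
  have h0 : ∀ e, sb_URoot h e ∈ X' ↔ tb_URoot h σ e ∈ X' := fun e => by
    by_contra he
    exact hno (card_pos.2 ⟨e, mem_filter.2 ⟨mem_univ e, he⟩⟩)
  have hY : ∀ (c) (hc : c ∈ u.C), c ∈ X'.toRight.image Subtype.val ↔
      Sum.inr (⟨c, hc⟩ : {c // c ∈ u.C}) ∈ X' := fun c hc => by
    constructor
    · intro a
      obtain ⟨⟨c', hc'⟩, a1, rfl⟩ := mem_image.1 a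
      exact mem_toRight.1 a1
    · exact fun a => mem_image.2 ⟨⟨c, hc⟩, mem_toRight.2 a, rfl⟩
  have hs := h.conn (fun c => if hc : c ∈ u.C then σ ⟨c, hc⟩ else ⟨0, hκ⟩) X'.toLeft
    (X'.toRight.image Subtype.val)
    (fun c hc => by
      rw [hY c hc, dif_pos hc, mem_toLeft]
      exact h0 (.inl ⟨c, hc⟩))
    (fun p hp => by
      rw [hY _ (h.jend p hp).1, hY _ (h.jend p hp).2]
      exact h0 (.inr ⟨p, hp⟩))
  obtain ⟨⟨a, -, ha⟩, b, -, hb⟩ := hX
  refine hs ⟨?_, ?_⟩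
  · rcases a with v | c
    · exact ⟨v, hu v, mem_toLeft.2 ha⟩
    · exact ⟨_, hu _, mem_toLeft.2 ((h0 (.inl c)).1 ha)⟩
  · rcases b with v | c
    · exact ⟨v, hu v, fun a => hb (mem_toLeft.1 a)⟩
    · exact ⟨_, hu _, fun a => hb ((h0 (.inl c)).2 (mem_toLeft.1 a))⟩

omit [Fintype N] in
lemma ctb_URoot (h : Good c₁ c₂ T u) (σ : {c // c ∈ u.C} → Fin κ) (Y : Finset (Ce N κ))
    (X' : Finset (N ⊕ {c // c ∈ u.C})) (hY : ∀ c, Sum.inr c ∈ X' ↔ c.1 ∈ Y) :
    ct (sb_URoot h) (tb_URoot h σ) univ X' =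
      #{c : {c // c ∈ u.C} | ¬ (Sum.inr c ∈ X' ↔ Sum.inl (c.1.2 (σ c)) ∈ X')} + jc u.J Y := by
  rw [ct_sum_URoot]
  congr 1
  rw [jc, card_filter, ← sum_coe_sort u.J, ct, card_filter]
  refine sum_congr rfl fun p _ => ?_
  simp only [sb_URoot, tb_URoot, Sum.elim_inr, hY]

end

/-- from the root node to an order -/
theorem order_of_root (n c : ℕ) : ∃ k₀ : ℕ, ∀ κ : ℕ, k₀ ≤ κ →
    ∀ (N E : Type) [Fintype N] [Fintype E] [DecidableEq N] [DecidableEq E] (s t : E → N)
    (u : Nd N κ) (c₁ c₂ T : ℕ), Good c₁ c₂ T u → (∀ v, v ∈ u.vs) → 4 * n * c ≤ T → 1 ≤ T →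
    (∀ X : Finset N, X.Nonempty → Xᶜ.Nonempty → κ ≤ ct s t univ X) →
    (∀ X, c₁ * mcut u.W X ≤ c * ct s t univ X) →
    ∃ l : List N, l.Nodup ∧ l.toFinset = univ ∧ ∀ X, n * chg X l ≤ ct s t univ X := by
  obtain ⟨k₀, hk⟩ := star_select (4 * n * (1 + c))
  refine ⟨k₀ + 1, fun κ hκ N E _ _ _ _ s t u c₁ c₂ T h hu hT hT1 hc hW => ?_⟩
  have dI : DecidableEq {c // c ∈ u.C} := Classical.decEq _
  have dJ : DecidableEq {p // p ∈ u.J} := Classical.decEq _
  obtain ⟨σ, hσ⟩ := hk κ (by omega) (N ⊕ {c // c ∈ u.C}) (E ⊕ {c // c ∈ u.C} × Fin κ)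
    {c // c ∈ u.C} (sa_URoot s) (ta_URoot t fun c => c.1.2) Sum.inr (fun c i => .inr (c, i))
    (conn_URoot s t _ hc) (fun p q e => Sum.inr_injective e) fun _ _ => rfl
  obtain ⟨l', h1, h2, h3⟩ := exists_list (sb_URoot h) (tb_URoot h σ) univ univ
    (fun _ _ => ⟨mem_univ _, mem_univ _⟩) (tree_URoot h hu (by omega) σ)
  obtain ⟨l, h4, h5, h6⟩ := list_URoot l' h1 h2
  refine ⟨l, h4, h5, fun X => ?_⟩
  obtain ⟨Y, hY, -⟩ := h.cost X
  obtain ⟨X', hl, hr⟩ : ∃ X' : Finset (N ⊕ {c // c ∈ u.C}), (∀ v, Sum.inl v ∈ X' ↔ v ∈ X) ∧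
      ∀ c, Sum.inr c ∈ X' ↔ c.1 ∈ Y :=
    ⟨X.disjSum {c | c.1 ∈ Y}, fun v => inl_mem_disjSum, fun c => by simp⟩
  have e1 := hσ X'
  rw [cta_URoot s t _ X X' hl] at e1
  have e2 : ∑ c : {c // c ∈ u.C}, #{i : Fin κ | ¬ (Sum.inr c ∈ X' ↔ c.1.2 i ∈ X)} =
      stc u.C X Y := by
    rw [stc, ← sum_coe_sort u.C]
    simp only [hr]
  rw [e2] at e1
  have e3 := (h6 X X' hl).trans (h3 X')
  rw [ctb_URoot h σ Y X' hr] at e3
  exact (Nat.mul_le_mul_left n e3).trans (num_URoot hT hT1 e1 (hY.trans (hW X)))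

end Pool.Agent.P.MP_e59a69_co
end

-- part Pool.Agent.P.MP_e59a69_co.UTop
section

open Finset

namespace Pool.Agent.P.MP_e59a69_co

lemma par_UTop (k δ T Λ κ : ℕ) (hk : 1281 ≤ k) (hδ : δ = 4 * (k + 640) * k) (h1 : 1 ≤ κ)
    (hT : T ≤ κ) (hΛ : 1536 * δ * Λ ≤ κ) :
    Par 640 κ (k * κ) (640 * κ) (δ * κ) T (2 * δ + 3) (2 * (δ * κ + κ)) Λ := by
  have hδ' : 1 ≤ δ := by rw [hδ]; nlinarith
  refine ⟨by norm_num, h1, rfl, by nlinarith, by nlinarith, hT, rfl, le_of_eq (by ring), ?_,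
    le_rfl, ?_⟩
  · calc 4 * (k * κ + 640 * κ) * (k * κ) = δ * κ * (1 * κ) := by rw [hδ]; ring
      _ ≤ δ * κ * (640 * κ) := by gcongr; norm_num
  · calc 1536 * (δ * κ) * Λ = 1536 * δ * Λ * κ := by ring
      _ ≤ κ * κ := Nat.mul_le_mul_right _ hΛ
      _ ≤ (320 * κ) ^ 2 := by nlinarith

lemma good_UTop {N : Type} [DecidableEq N] (κ c₁ c₂ T : ℕ) (v : N) :
    Good c₁ c₂ T (⟨{v}, 0, ∅, ∅⟩ : Nd N κ) := by
  have h : ∀ X, ¬ Sep ({v} : Finset N) X := by
    rintro X ⟨⟨a, a1, a2⟩, b, b1, b2⟩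
    rw [mem_singleton] at a1 b1
    exact b2 (b1 ▸ a1 ▸ a2)
  refine ⟨singleton_nonempty _, by simp, fun X c => (h X c).elim, by simp, by simp,
    fun _ X _ _ _ => h X, fun X => ⟨∅, by simp [stc, jc], fun c => (h X c).elim⟩⟩

/-- thin orders, all vertices -/
theorem thin_order_univ (n : ℕ) : ∃ k : ℕ, ∀ (N E : Type) [Fintype N] [Fintype E]
    [DecidableEq N] [DecidableEq E] (s t : E → N),
    (∀ X : Finset N, X.Nonempty → Xᶜ.Nonempty → k ≤ ct s t univ X) →
    ∃ l : List N, l.Nodup ∧ l.toFinset = univ ∧ ∀ X, n * chg X l ≤ ct s t univ X := by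
  obtain ⟨k, hk⟩ : ∃ k : ℕ, k = 64 * 640 * (7 * 640) := ⟨_, rfl⟩
  obtain ⟨δ, hδ⟩ : ∃ δ : ℕ, δ = 4 * (k + 640) * k := ⟨_, rfl⟩
  obtain ⟨c, hc⟩ : ∃ c : ℕ, c = (2 * δ + 3) * (7 * 640) := ⟨_, rfl⟩
  obtain ⟨Λ, hΛ⟩ := thin_join (4 * n * c + 1)
  obtain ⟨k₁, h₁⟩ := thin_pair 640 (7 * 640) (by norm_num)
  obtain ⟨k₂, h₂⟩ := order_of_root n c
  obtain ⟨κ, hκ⟩ : ∃ κ : ℕ, κ = k₁ + k₂ + (4 * n * c + 1) + 1536 * δ * Λ := ⟨_, rfl⟩
  have P := par_UTop k δ (4 * n * c + 1) Λ κ (by omega) hδ (by omega) (by omega) (by omega)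
  refine ⟨3 * (k * κ) + 7, fun N E _ _ _ _ s t h => ?_⟩
  rcases isEmpty_or_nonempty N with hN | hN
  · exact ⟨[], List.nodup_nil, Subsingleton.elim _ _, fun X => by simp [chg_nil]⟩
  obtain ⟨A, hA⟩ := exists_start s t (k * κ) (640 * κ) h
  obtain ⟨u, g1, g2, g3⟩ := build (N := N) (ι := N) (E := E) P
    (fun Z W B en col a1 a2 a3 a4 a5 => h₁ κ (by omega) N N E Z W B en col a1 a2 a3 a4
      (by rw [← hk]; exact a5)) (hΛ N E) (#(univ : Finset N) + 1) univ (fun v => v)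
    (fun v => ⟨{v}, 0, ∅, ∅⟩) s t A (Nat.lt_succ_self _) univ_nonempty hA
    (fun v _ => ⟨good_UTop _ _ _ _ v, fun w => mem_singleton⟩)
  refine h₂ κ (by omega) N E s t u _ _ _ g1 (fun v => (g2 v).2 (mem_univ _)) (by omega) (by omega)
    (fun X a b => ?_) fun X => ?_
  · have := h X a b
    have := P.hK
    omega
  · have a1 := (le_Th _).trans (g3 X)
    simp only [mcut_zero, Th_zero, sum_const_zero, zero_add] at a1
    rw [hc, mul_assoc]
    exact Nat.mul_le_mul_left _ (a1.trans (Nat.mul_le_mul_left _ (ct_mono s t (subset_univ _) X)))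

lemma chg_map_UTop {M N : Type} [DecidableEq M] [DecidableEq N] (g : M → N) (X : Finset N)
    (Y : Finset M) (h : ∀ a, g a ∈ X ↔ a ∈ Y) : ∀ l : List M, chg X (l.map g) = chg Y l
  | [] => rfl
  | [_] => rfl
  | a :: b :: l => by
    have := chg_map_UTop g X Y h (b :: l)
    rw [List.map_cons] at this
    rw [List.map_cons, List.map_cons, chg_cons_cons, chg_cons_cons, this]
    simp only [h]

/-- thin orders -/
theorem thin_order (n : ℕ) : ∃ k : ℕ, ∀ (N E : Type) [Fintype N] [Fintype E]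
    [DecidableEq N] [DecidableEq E] (s t : E → N) (Z : Finset N), (∀ e, s e ∈ Z ∧ t e ∈ Z) →
    (∀ X, Sep Z X → k ≤ ct s t univ X) →
    ∃ l : List N, l.Nodup ∧ l.toFinset = Z ∧ ∀ X, n * chg X l ≤ ct s t univ X := by
  obtain ⟨k, hk⟩ := thin_order_univ n
  refine ⟨k, fun N E _ _ _ _ s t Z hZ h => ?_⟩
  have key : ∀ (X : Finset N) (Y : Finset {x // x ∈ Z}), (∀ a, a.1 ∈ X ↔ a ∈ Y) →
      ct (fun e => (⟨s e, (hZ e).1⟩ : {x // x ∈ Z})) (fun e => ⟨t e, (hZ e).2⟩) univ Y =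
        ct s t univ X := fun X Y a =>
    congrArg _ (filter_congr fun e _ => by rw [← a, ← a])
  obtain ⟨l, l1, l2, l3⟩ := hk {x // x ∈ Z} E (fun e => ⟨s e, (hZ e).1⟩)
    (fun e => ⟨t e, (hZ e).2⟩) (fun Y ⟨a, ha⟩ ⟨b, hb⟩ => by
      have a1 : ∀ x : {x // x ∈ Z}, x.1 ∈ Y.map (Function.Embedding.subtype _) ↔ x ∈ Y :=
        fun x => mem_map' (Function.Embedding.subtype _)
      rw [key _ Y a1]
      exact h _ ⟨⟨a.1, a.2, (a1 a).2 ha⟩, b.1, b.2, fun c => mem_compl.1 hb ((a1 b).1 c)⟩)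
  refine ⟨l.map Subtype.val, l1.map Subtype.val_injective, ?_, fun X => ?_⟩
  · ext x
    rw [List.mem_toFinset, List.mem_map]
    refine ⟨fun ⟨a, _, c⟩ => c ▸ a.2, fun c => ⟨⟨x, c⟩, ?_, rfl⟩⟩
    rw [← List.mem_toFinset, l2]
    exact mem_univ _
  · have a1 : ∀ a : {x // x ∈ Z}, a.1 ∈ X ↔ a ∈ X.subtype (· ∈ Z) := fun a => mem_subtype.symm
    rw [chg_map_UTop _ X _ a1, ← key X _ a1]
    exact l3 _

end Pool.Agent.P.MP_e59a69_co
end

-- part Pool.Agent.P.MP_e59a69_co.KTP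
section

/-! A thin order of a highly connected multigraph. -/

open Finset Function

namespace Pool.Agent.P.MP_e59a69_co

theorem ktp (ε : ℝ) (hε : 0 < ε) : ∃ k : ℕ, ∀ (N E : Type) [Fintype N] [Fintype E]
    [DecidableEq N] [DecidableEq E] (s t : E → N) (Z : Finset N), (∀ e, s e ∈ Z ∧ t e ∈ Z) →
    (∀ X, Sep Z X → k ≤ ct s t univ X) →
    ∃ l : List N, l.Nodup ∧ l.toFinset = Z ∧ ∀ X, (chg X l : ℝ) ≤ ε * ct s t univ X := by
  obtain ⟨n, hn⟩ := exists_nat_ge (1 / ε)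
  obtain ⟨k, hk⟩ := thin_order n
  refine ⟨k, fun N E _ _ _ _ s t Z h1 h2 => ?_⟩
  obtain ⟨l, l1, l2, l3⟩ := hk N E s t Z h1 h2
  refine ⟨l, l1, l2, fun X => ?_⟩
  have a1 : ((n * chg X l : ℕ) : ℝ) ≤ ct s t univ X := by exact_mod_cast l3 X
  rw [div_le_iff₀ hε] at hn
  push_cast at a1
  have a2 := mul_le_mul_of_nonneg_left a1 hε.le
  have a3 := mul_le_mul_of_nonneg_right hn (Nat.cast_nonneg (α := ℝ) (chg X l))
  linarith

end Pool.Agent.P.MP_e59a69_co
end

-- part Pool.Agent.P.MP_e59a69_co.VRound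
section

/-! Moving the cores to their side costs a bounded factor. -/

open Finset Function

namespace Pool.Agent.P.MP_e59a69_co

variable {V : Type} [Fintype V] [DecidableEq V] {π μ : Equiv.Perm V}

/-- indicator function -/
def ind (X : Finset V) : V → ℝ := fun v => if v ∈ X then 1 else 0

/-- the side of a site -/
def side (π : Equiv.Perm V) (m : ℕ) (X : Finset V) (s : V) : Prop := 1 / 2 ≤ seg π m s (ind X)

omit [Fintype V] in
lemma test_big {m : ℕ} (hm : 1 ≤ m) (X : Finset V) (z s : V) (b : Prop)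
    (h : ∀ t : ℕ, t < m → ((π ^ (t + 1)) z ∈ X ↔ b)) (hb : ¬ (b ↔ side π m X s)) :
    1 / 4 ≤ (seg π m z (ind X) - seg π m s (ind X)) ^ 2 := by
  have hm0 : (m : ℝ) ≠ 0 := by positivity
  by_cases h1 : b
  · have e : seg π m z (ind X) = 1 := by
      rw [seg_apply, Finset.sum_congr rfl (f := fun t => ind X ((π ^ (t + 1)) z))
        (g := fun _ => 1) fun t ht =>
        if_pos ((h t (mem_range.1 ht)).2 h1)]
      simp [hm0]
    have : seg π m s (ind X) < 1 / 2 := not_le.1 fun h2 => hb (iff_of_true h1 h2)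
    rw [e]; nlinarith
  · have e : seg π m z (ind X) = 0 := by
      rw [seg_apply, Finset.sum_congr rfl (f := fun t => ind X ((π ^ (t + 1)) z))
        (g := fun _ => 0) fun t ht =>
        if_neg fun h2 => h1 ((h t (mem_range.1 ht)).1 h2)]
      simp
    have : 1 / 2 ≤ seg π m s (ind X) := by_contra fun h2 => hb (iff_of_false h1 h2)
    rw [e]; nlinarith

lemma cnt_tests {ι : Type} (P T : Finset ι) (f : ι → ℝ) (hf : ∀ p, 0 ≤ f p) (hP : P ⊆ T)
    (h : ∀ p ∈ P, 1 / 4 ≤ f p) : (#P : ℝ) ≤ 4 * ∑ p ∈ T, f p := by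
  have h1 := Finset.sum_le_sum h
  have h2 := Finset.sum_le_sum_of_subset_of_nonneg hP fun p _ _ => hf p
  rw [Finset.sum_const, nsmul_eq_mul] at h1
  linarith

open Classical in
/-- pairs (site, test) whose test point lies on the wrong side -/
noncomputable def wrong {I : Type} [Fintype I] (π : Equiv.Perm V) (m : ℕ) (S X : Finset V)
    (w : I → Equiv.Perm V) : Finset (V × I) :=
  {p ∈ S ×ˢ (univ : Finset I) | ¬ (w p.2 p.1 ∈ X ↔ side π m X p.1)}

omit [Fintype V] in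
lemma mem_wrong {I : Type} [Fintype I] {m : ℕ} {S X : Finset V} {w : I → Equiv.Perm V}
    {s : V} {i : I} : (s, i) ∈ wrong π m S X w ↔ s ∈ S ∧ ¬ (w i s ∈ X ↔ side π m X s) := by
  simp [wrong]

lemma charge {I : Type} [Fintype I] {m : ℕ} (hm : 1 ≤ m) (S X : Finset V)
    (w : I → Equiv.Perm V) (β : ℝ)
    (hd : ∀ s ∈ S, ∀ s' ∈ S, ∀ i i', ∀ t t' : ℤ, 0 ≤ t → t < m → 0 ≤ t' → t' < m →
      (π ^ t) (w i s) = (π ^ t') (w i' s') → s = s' ∧ i = i')
    (hβ : ∀ i, ∑ s ∈ S, (seg π m (w i s) (ind X) - seg π m s (ind X)) ^ 2 ≤ β) :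
    (#(wrong π m S X w) : ℝ) ≤ fc π X + 4 * (Fintype.card I * β) := by
  classical
  let c : V × I → Prop := fun p => ∃ t : ℤ, 0 ≤ t ∧ t < m ∧
    ¬ ((π ^ t) (w p.2 p.1) ∈ X ↔ π ((π ^ t) (w p.2 p.1)) ∈ X)
  have e0 := card_filter_add_card_filter_not (s := wrong π m S X w) c
  have e1 : #{p ∈ wrong π m S X w | c p} ≤ fc π X := by
    have : ∀ p, ∃ t : ℤ, c p → 0 ≤ t ∧ t < m ∧
        ¬ ((π ^ t) (w p.2 p.1) ∈ X ↔ π ((π ^ t) (w p.2 p.1)) ∈ X) := fun p => by
      by_cases h : c p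
      · obtain ⟨t, ht⟩ := h
        exact ⟨t, fun _ => ht⟩
      · exact ⟨0, fun h' => absurd h' h⟩
    choose t ht using this
    refine card_le_card_of_injOn (fun p => (π ^ t p) (w p.2 p.1)) (fun p hp => ?_) ?_
    · exact mem_coe.2 (mem_filter.2 ⟨mem_univ _, (ht p (mem_filter.1 hp).2).2.2⟩)
    · rintro ⟨s, i⟩ hp ⟨s', i'⟩ hp' e
      obtain ⟨a1, a2⟩ := mem_filter.1 (mem_coe.1 hp)
      obtain ⟨b1, b2⟩ := mem_filter.1 (mem_coe.1 hp')
      obtain ⟨rfl, rfl⟩ := hd s (mem_wrong.1 a1).1 s' (mem_wrong.1 b1).1 i i' _ _ (ht _ a2).1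
        (ht _ a2).2.1 (ht _ b2).1 (ht _ b2).2.1 e
      rfl
  have e2 := cnt_tests {p ∈ wrong π m S X w | ¬ c p} (S ×ˢ univ)
    (fun p => (seg π m (w p.2 p.1) (ind X) - seg π m p.1 (ind X)) ^ 2) (fun _ => sq_nonneg _)
    (fun p hp => (mem_filter.1 (mem_filter.1 hp).1).1) (by
      rintro ⟨s, i⟩ hp
      obtain ⟨a1, a2⟩ := mem_filter.1 hp
      refine test_big hm X _ s (w i s ∈ X) (fun t ht => ?_) (mem_wrong.1 a1).2
      by_contra hc
      obtain ⟨t', t1, t2, t3⟩ := ivt π X (w i s) 0 (t + 1) (by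
        rw [zpow_zero, zero_add, zpow_natCast]
        exact fun h => hc h.symm)
      exact a2 ⟨t', t1, by omega, t3⟩)
  rw [Finset.sum_product_right] at e2
  have e3 := Finset.sum_le_sum fun i (_ : i ∈ univ) => hβ i
  rw [Finset.sum_const, card_univ, nsmul_eq_mul] at e3
  have e4 : (#(wrong π m S X w) : ℝ) =
      #{p ∈ wrong π m S X w | c p} + #{p ∈ wrong π m S X w | ¬ c p} := by exact_mod_cast e0.symm
  have e5 : (#{p ∈ wrong π m S X w | c p} : ℝ) ≤ fc π X := by exact_mod_cast e1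
  linarith

lemma round_dc (hμ : ∀ v, μ (μ v) = v) (m K : ℕ) (S X X' : Finset V)
    (hfar : ∀ s ∈ S, ∀ s' ∈ S, ∀ a b : ℤ, 0 ≤ a → a < K → 0 ≤ b → b < K →
      (μ ((π ^ a) s) = (π ^ b) s' ∨ π ((π ^ a) s) = (π ^ b) s') → s = s')
    (h1 : ∀ s ∈ S, ∀ a : ℤ, 0 ≤ a → a < K → ((π ^ a) s ∈ X' ↔ side π m X s))
    (h2 : ∀ v, (∀ s ∈ S, ∀ a : ℤ, 0 ≤ a → a < K → (π ^ a) s ≠ v) → (v ∈ X' ↔ v ∈ X)) :
    dc π μ X' ≤ dc π μ X + 2 * #(wrong π m S X fun a : Fin K => μ * π ^ ((a : ℕ) : ℤ)) +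
      #(wrong π m S X fun _ : Unit => π ^ (K : ℤ)) +
      #(wrong π m S X fun _ : Unit => π ^ (-1 : ℤ)) := by
  classical
  let co : V → Prop := fun v => ∃ s ∈ S, ∃ a : ℤ, 0 ≤ a ∧ a < K ∧ (π ^ a) s = v
  have h3 : ∀ v, ¬ co v → (v ∈ X' ↔ v ∈ X) := fun v hv =>
    h2 v fun s hs a a1 a2 e => hv ⟨s, hs, a, a1, a2, e⟩
  set W0 := wrong π m S X fun a : Fin K => μ * π ^ ((a : ℕ) : ℤ)
  set W1 := wrong π m S X fun _ : Unit => π ^ (K : ℤ)
  set W2 := wrong π m S X fun _ : Unit => π ^ (-1 : ℤ)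
  have e1 : ({v | ¬ (v ∈ X' ↔ π v ∈ X')} : Finset V) ⊆ ({v | ¬ (v ∈ X ↔ π v ∈ X)} : Finset V) ∪
      (W1.image fun p => (π ^ ((K : ℤ) - 1)) p.1) ∪ W2.image fun p => (π ^ (-1 : ℤ)) p.1 := by
    intro v hv
    have hv := (mem_filter.1 hv).2
    by_cases c1 : co v <;> by_cases c2 : co (π v)
    · obtain ⟨s, hs, a, a1, a2, rfl⟩ := c1
      obtain ⟨s', hs', b, b1, b2, e⟩ := c2
      obtain rfl := hfar s hs s' hs' a b a1 a2 b1 b2 (Or.inr e.symm)
      exact absurd (by rw [← e, h1 s hs a a1 a2, h1 s hs b b1 b2]) hv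
    · obtain ⟨s, hs, a, a1, a2, rfl⟩ := c1
      have ha : a = K - 1 := by
        by_contra hn
        exact c2 ⟨s, hs, a + 1, by omega, by omega, (zp_succ _ _ _).symm⟩
      rw [h1 s hs a a1 a2, h3 _ c2, zp_succ, ha, sub_add_cancel] at hv
      exact mem_union_left _ (mem_union_right _ (mem_image.2
        ⟨(s, ()), mem_wrong.2 ⟨hs, fun h => hv h.symm⟩, by rw [ha]⟩))
    · obtain ⟨s, hs, a, a1, a2, e⟩ := c2
      have e' : (π ^ (a - 1)) s = v := π.injective (by rw [zp_succ, sub_add_cancel, e])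
      have ha : a = 0 := by
        by_contra hn
        exact c1 ⟨s, hs, a - 1, by omega, by omega, e'⟩
      rw [← e, h1 s hs a a1 a2, h3 _ c1, ← e', ha, zero_sub] at hv
      exact mem_union_right _ (mem_image.2
        ⟨(s, ()), mem_wrong.2 ⟨hs, hv⟩, by rw [← e', ha, zero_sub]⟩)
    · rw [h3 _ c1, h3 _ c2] at hv
      exact mem_union_left _ (mem_union_left _ (mem_filter.2 ⟨mem_univ _, hv⟩))
  have key : ∀ v, co v → ¬ co (μ v) → ¬ (v ∈ X' ↔ μ v ∈ X') →
      ∃ p ∈ W0, (π ^ ((p.2 : ℕ) : ℤ)) p.1 = v := by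
    rintro v ⟨s, hs, a, a1, a2, rfl⟩ c2 hv
    obtain ⟨n, rfl⟩ := Int.eq_ofNat_of_zero_le a1
    rw [h1 s hs n a1 a2, h3 _ c2] at hv
    exact ⟨(s, ⟨n, by omega⟩), mem_wrong.2 ⟨hs, fun h => hv h.symm⟩, rfl⟩
  have e2 : ({v | ¬ (v ∈ X' ↔ μ v ∈ X')} : Finset V) ⊆ ({v | ¬ (v ∈ X ↔ μ v ∈ X)} : Finset V) ∪
      (W0.image fun p => (π ^ ((p.2 : ℕ) : ℤ)) p.1) ∪
        W0.image fun p => μ ((π ^ ((p.2 : ℕ) : ℤ)) p.1) := by
    intro v hv
    have hv := (mem_filter.1 hv).2
    by_cases c1 : co v <;> by_cases c2 : co (μ v)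
    · obtain ⟨s, hs, a, a1, a2, rfl⟩ := c1
      obtain ⟨s', hs', b, b1, b2, e⟩ := c2
      obtain rfl := hfar s hs s' hs' a b a1 a2 b1 b2 (Or.inl e.symm)
      exact absurd (by rw [← e, h1 s hs a a1 a2, h1 s hs b b1 b2]) hv
    · exact mem_union_left _ (mem_union_right _ (mem_image.2 (key v c1 c2 hv)))
    · obtain ⟨p, p1, p2⟩ := key (μ v) c2 (by rwa [hμ]) (by rw [hμ]; exact fun h => hv h.symm)
      exact mem_union_right _ (mem_image.2 ⟨p, p1, by rw [p2, hμ]⟩)
    · rw [h3 _ c1, h3 _ c2] at hv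
      exact mem_union_left _ (mem_union_left _ (mem_filter.2 ⟨mem_univ _, hv⟩))
  have f1 := (card_le_card e1).trans ((card_union_le _ _).trans
    (Nat.add_le_add ((card_union_le _ _).trans (Nat.add_le_add_left card_image_le _))
      card_image_le))
  have f2 := (card_le_card e2).trans ((card_union_le _ _).trans
    (Nat.add_le_add ((card_union_le _ _).trans (Nat.add_le_add_left card_image_le _))
      card_image_le))
  rw [card_mucut hμ, card_mucut hμ] at f2
  unfold dc fc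
  omega

end Pool.Agent.P.MP_e59a69_co
end

-- part Pool.Agent.P.MP_e59a69_co.VCand
section

/-! Far apart candidates near the good vertices. -/

open Finset Function

namespace Pool.Agent.P.MP_e59a69_co

variable {V : Type} [Fintype V] [DecidableEq V] {π μ : Equiv.Perm V} {c : ℕ}

lemma wd_fin (π μ : Equiv.Perm V) (r : ℕ) :
    ∃ T : Finset (Equiv.Perm V), #T ≤ 4 ^ r ∧ ∀ w, Wd π μ r w → w ∈ T := by
  induction r with
  | zero =>
    refine ⟨{1}, by simp, ?_⟩
    rintro w ⟨l, h1, rfl⟩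
    rw [List.length_eq_zero_iff.1 (Nat.le_zero.1 h1)]
    simp
  | succ r ih =>
    obtain ⟨T, h1, h2⟩ := ih
    refine ⟨T ∪ ((univ : Finset (Fin 3)) ×ˢ T).image fun p => Lt π μ p.1 * p.2, ?_, ?_⟩
    · refine (card_union_le _ _).trans ?_
      have := card_image_le (s := (univ : Finset (Fin 3)) ×ˢ T) (f := fun p => Lt π μ p.1 * p.2)
      rw [card_product, card_univ, Fintype.card_fin] at this
      rw [pow_succ]
      omega
    · rintro w ⟨l, h3, rfl⟩
      cases l with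
      | nil => exact mem_union_left _ (h2 _ ⟨[], Nat.zero_le _, rfl⟩)
      | cons a l =>
        refine mem_union_right _ (mem_image.2 ⟨(a, (l.map (Lt π μ)).prod),
          mem_product.2 ⟨mem_univ _, h2 _ ⟨l, by simpa using h3, rfl⟩⟩, by simp⟩)

/-- the balls of radius `r` around `a` and `b` meet -/
def Nr (π μ : Equiv.Perm V) (r : ℕ) (a b : V) : Prop :=
  ∃ w w', Wd π μ r w ∧ Wd π μ r w' ∧ w a = w' b

lemma nr_card (π μ : Equiv.Perm V) (r : ℕ) (a : V) [DecidablePred (Nr π μ r a)] :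
    #{b | Nr π μ r a b} ≤ 16 ^ r := by
  obtain ⟨T, h1, h2⟩ := wd_fin π μ r
  have e : 16 ^ r = 4 ^ r * 4 ^ r := (mul_pow 4 4 r :)
  refine le_trans (card_le_card fun b hb => ?_)
    ((card_image_le (s := T ×ˢ T) (f := fun p => p.2.symm (p.1 a))).trans ?_)
  · obtain ⟨w, w', p1, p2, p3⟩ := (mem_filter.1 hb).2
    exact mem_image.2 ⟨(w, w'), mem_product.2 ⟨h2 _ p1, h2 _ p2⟩, by
      rw [Equiv.symm_apply_eq]; exact p3⟩
  · rw [card_product, e]
    exact Nat.mul_le_mul h1 h1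

theorem far_cand (H : Hyp π μ c) {ι Ω : Type} [Fintype ι] [DecidableEq ι] [Fintype Ω]
    [DecidableEq Ω] (u : ι → V) (hu : ∀ i i', π.SameCycle (u i) (u i') → i = i') (r : ℕ)
    (hc : 4 * 16 ^ r * Fintype.card Ω ≤ c) (hc0 : 0 < c) :
    ∃ y : ι → Ω → V, (∀ i a, ∃ t : ℕ, t ≤ 4 * 16 ^ r * Fintype.card Ω ∧ y i a = (π ^ (t : ℤ)) (u i)) ∧
      ∀ i i' a a', (i, a) ≠ (i', a') → ¬ Nr π μ r (y i a) (y i' a') := by
  classical
  have hne : Nonempty V := Fintype.card_pos_iff.1 (by have := H.card; omega)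
  obtain ⟨D, hD⟩ : ∃ D, D = 16 ^ r := ⟨_, rfl⟩
  have hD0 : 0 < D := by rw [hD]; positivity
  rw [← hD] at hc ⊢
  obtain ⟨q, hq⟩ : ∃ q, q = Fintype.card Ω := ⟨_, rfl⟩
  let e : Ω → ℕ := fun a => Fintype.equivFin Ω a
  have he : ∀ a, e a < q := fun a => hq ▸ (Fintype.equivFin Ω a).2
  have he2 : ∀ a a', e a = e a' → a = a' := fun a a' h =>
    (Fintype.equivFin Ω).injective (Fin.ext h)
  rw [← hq] at hc ⊢
  obtain ⟨n, hn⟩ : ∃ n : ℤ, n = 4 * D := ⟨_, rfl⟩
  have hn0 : 0 < n := by omega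
  have hnq : n * q ≤ c := by rw [hn]; exact_mod_cast hc
  have b1 : ∀ a, ((e a : ℤ) + 1) * n ≤ q * n := fun a =>
    mul_le_mul_of_nonneg_right (by have := he a; omega) hn0.le
  have b3 : ∀ a, 0 ≤ (e a : ℤ) * n := fun a => by positivity
  let A : ι × Ω → Finset V := fun i => Iv π (u i.1) (e i.2 * n) ((e i.2 + 1) * n - 1)
  have hA : ∀ i, #(A i) = 4 * D := fun i => by
    have e1 : ((e i.2 : ℤ) + 1) * n - 1 + 1 - e i.2 * n = n := by ring
    rw [H.card_Iv _ (by have := b1 i.2; have := b3 i.2; linarith), e1]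
    omega
  have hdis : ∀ i j, i ≠ j → Disjoint (A i) (A j) := by
    rintro ⟨r, a⟩ ⟨r', a'⟩ hne
    refine Finset.disjoint_left.2 fun v h1 h2 => hne ?_
    have e0 : r = r' := hu r r' ((sameCycle_of_mem_Iv h1).trans (sameCycle_of_mem_Iv h2).symm)
    subst e0
    obtain ⟨t, t1, t2, e1⟩ := mem_Iv.1 h1
    obtain ⟨t', t3, t4, e2⟩ := mem_Iv.1 h2
    simp only at t1 t2 t3 t4 e1 e2
    have := b1 a
    have := b1 a'
    have := b3 a
    have := b3 a'
    have e3 : t = t' := H.inj (u r) (abs_lt.2 ⟨by linarith, by linarith⟩) (e1.trans e2.symm)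
    subst e3
    have c1 : (e a : ℤ) < e a' + 1 := lt_of_mul_lt_mul_right (by linarith) hn0.le
    have c2 : (e a' : ℤ) < e a + 1 := lt_of_mul_lt_mul_right (by linarith) hn0.le
    rw [he2 a a' (by omega)]
  obtain ⟨s, hs1, hs2⟩ := exists_IT (univ : Finset (ι × Ω)) A (Nr π μ r)
    (fun a b ⟨w, w', p1, p2, p3⟩ => ⟨w', w, p2, p1, p3.symm⟩) D hD0 (fun i _ => by rw [hA])
    (fun i _ x _ => by
      rw [← card_biUnion]
      · refine le_trans (card_le_card fun y hy => ?_) (hD ▸ nr_card π μ r x)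
        obtain ⟨j, -, hj⟩ := mem_biUnion.1 hy
        exact mem_filter.2 ⟨mem_univ _, (mem_filter.1 hj).2⟩
      · intro j _ k _ hjk
        exact (hdis j k hjk).mono (filter_subset _ _) (filter_subset _ _))
  refine ⟨fun i a => s (i, a), fun i a => ?_, fun i i' a a' hne =>
    hs2 _ (mem_univ _) _ (mem_univ _) hne⟩
  obtain ⟨t, t1, t2, e1⟩ := mem_Iv.1 (hs1 (i, a) (mem_univ _))
  simp only at t1 t2 e1
  have := b1 a
  have := b3 a
  refine ⟨t.toNat, ?_, by rw [Int.toNat_of_nonneg (by linarith), e1]⟩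
  have e2 : (q : ℤ) * n = ((4 * D * q : ℕ) : ℤ) := by rw [hn]; push_cast; ring
  omega

end Pool.Agent.P.MP_e59a69_co
end

-- part Pool.Agent.P.MP_e59a69_co.VPair
section

/-! From far apart sites with small tests to a thin pairing. -/

open Finset Function

namespace Pool.Agent.P.MP_e59a69_co

/-- thin orders exist at connectivity `k` -/
def TPst (d k : ℕ) : Prop :=
  ∀ (N E : Type) [Fintype N] [Fintype E] [DecidableEq N] [DecidableEq E] (s t : E → N)
    (Z : Finset N), (∀ e, s e ∈ Z ∧ t e ∈ Z) → (∀ X, Sep Z X → k ≤ ct s t univ X) →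
    ∃ l : List N, l.Nodup ∧ l.toFinset = Z ∧ ∀ X, d * chg X l ≤ ct s t univ X

variable {V : Type} [Fintype V] [DecidableEq V] {π μ : Equiv.Perm V} {c : ℕ}

lemma Hyp.hy (H : Hyp π μ c) : Hy π μ c := ⟨H.inv, H.ne, H.len, fun h1 h2 => H.small h1 h2⟩

lemma ct_double_V (hμ : ∀ v, μ (μ v) = v) (g : V → V) (X : Finset V) :
    ct (fun e : (V × Bool) × Bool => g (es e.1)) (fun e => g (et π μ e.1)) univ X =
      2 * dc π μ {v | g v ∈ X} := by
  rw [← ct_et π hμ]
  unfold ct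
  rw [card_filter, card_filter, Fintype.sum_prod_type, Finset.mul_sum]
  refine Finset.sum_congr rfl fun e _ => ?_
  rw [Fintype.sum_bool]
  simp only [mem_filter, mem_univ, true_and]
  ring

omit [Fintype V] [DecidableEq V] in
lemma wd_cen (j : ℤ) (h1 : -2 ≤ j) (h2 : j ≤ 3) : Wd π μ 4 (Cen π μ j) := by
  unfold Cen
  split_ifs
  · exact wd_one.mono (by omega)
  · exact (wd_mu.mul (wd_zpow _)).mono (by omega)

omit [Fintype V] [DecidableEq V] in
lemma wd_hbase (L : ℕ) (i : Fin 6 × Bool) : Wd π μ (L + 5) (hbase π μ L i) := by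
  have h1 : Wd π μ (L + 1) (π ^ (if i.2 then (0 : ℤ) else -(L + 1))) :=
    (wd_zpow _).mono (by split_ifs <;> omega)
  exact h1.mul (wd_cen _ (by omega) (by have := i.1.2; omega))

/-- contraction of the cores, splitting off and the thin order -/
lemma core_order (H : Hyp π μ c) {d K : ℕ} (hTP : TPst d K) (hK1 : 1 ≤ K) (hK : K ≤ c)
    (S : Finset V) (hS : Even #S)
    (hfar : ∀ s ∈ S, ∀ s' ∈ S, ∀ a b : ℤ, 0 ≤ a → a < K → 0 ≤ b → b < K →
      (π ^ a) s = (π ^ b) s' → s = s') :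
    ∃ Q : V → V, (∀ t ∈ S, Q t ∈ S ∧ Q t ≠ t ∧ Q (Q t) = t) ∧
      ∀ (X : Finset V) (b : V → Prop), ∃ X' : Finset V,
        (∀ s ∈ S, ∀ a : ℤ, 0 ≤ a → a < K → ((π ^ a) s ∈ X' ↔ b s)) ∧
        (∀ v, (∀ s ∈ S, ∀ a : ℤ, 0 ≤ a → a < K → (π ^ a) s ≠ v) → (v ∈ X' ↔ v ∈ X)) ∧
        d * dQ S Q X' ≤ 2 * dc π μ X' := by
  classical
  rcases S.eq_empty_or_nonempty with rfl | ⟨z0, hz0⟩
  · exact ⟨id, fun t ht => absurd ht (notMem_empty t), fun X _ => ⟨X, by simp, by simp, by simp [dQ]⟩⟩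
  let co : V → V → Prop := fun s v => s ∈ S ∧ ∃ a : ℤ, 0 ≤ a ∧ a < K ∧ (π ^ a) s = v
  let g : V → V := fun v => if h : ∃ s, co s v then h.choose else v
  have hg1 : ∀ s ∈ S, ∀ a : ℤ, 0 ≤ a → a < K → g ((π ^ a) s) = s := fun s hs a a1 a2 => by
    have h : ∃ s', co s' ((π ^ a) s) := ⟨s, hs, a, a1, a2, rfl⟩
    simp only [g, dif_pos h]
    obtain ⟨p1, b, b1, b2, e⟩ := h.choose_spec
    exact hfar _ p1 s hs b a b1 b2 a1 a2 e
  have hg0 : ∀ s ∈ S, g s = s := fun s hs => by simpa using hg1 s hs 0 le_rfl (by omega)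
  have hct := ct_double_V (π := π) H.inv g
  have hsep : ∀ X, Sep S X → 2 * K ≤
      ct (fun e : (V × Bool) × Bool => g (es e.1)) (fun e => g (et π μ e.1)) univ X := by
    rintro X ⟨⟨a, ha, haX⟩, b, hb, hbX⟩
    rw [hct]
    have h1 : Iv π a 0 (K - 1) ⊆ ({v | g v ∈ X} : Finset V) := fun v hv => by
      obtain ⟨t, t1, t2, rfl⟩ := mem_Iv.1 hv
      simp only [mem_filter, mem_univ, true_and]
      rw [hg1 a ha t t1 (by omega)]; exact haX
    have h2 : Iv π b 0 (K - 1) ⊆ ({v | g v ∈ X} : Finset V)ᶜ := fun v hv => by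
      obtain ⟨t, t1, t2, rfl⟩ := mem_Iv.1 hv
      simp only [mem_compl, mem_filter, mem_univ, true_and]
      rw [hg1 b hb t t1 (by omega)]; exact hbX
    have c1 := card_le_card h1
    have c2 := card_le_card h2
    rw [H.card_Iv _ (by omega)] at c1 c2
    have := H.cut _ (card_pos.1 (lt_of_lt_of_le (by omega) c1))
      (card_pos.1 (lt_of_lt_of_le (by omega) c2))
    unfold dc
    omega
  obtain ⟨s', t', hZ, hle, hge⟩ := split_off _ _ S z0 hz0 K
    (fun X => by rw [hct]; exact even_two_mul _) hsep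
  obtain ⟨l, hl1, hl2, hl3⟩ := hTP V _ s' t' S hZ fun X hX => le_trans (by omega) (hge X hX)
  have hlen : Even l.length := by rw [← List.toFinset_card_of_nodup hl1, hl2]; exact hS
  obtain ⟨Q, hQ1, hQ2⟩ := pair_of_list l hl1 hlen
  rw [hl2] at hQ1 hQ2
  refine ⟨Q, hQ1, fun X b => ?_⟩
  let Y : Finset V := {v | if v ∈ S then b v else v ∈ X}
  refine ⟨univ.filter fun v => g v ∈ Y, fun s hs a a1 a2 => ?_, fun v hv => ?_, ?_⟩
  · simp only [mem_filter, mem_univ, true_and, hg1 s hs a a1 a2, Y, hs, if_true]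
  · have h : ¬ ∃ s, co s v := fun ⟨s, hs, a, a1, a2, e⟩ => hv s hs a a1 a2 e
    have h' : v ∉ S := fun h2 => hv v h2 0 le_rfl (by omega) (by simp)
    simp only [mem_filter, mem_univ, true_and, g, dif_neg h, Y, h', if_false]
  · have a1 : dQ S Q (univ.filter fun v => g v ∈ Y) = dQ S Q Y := by
      unfold dQ
      refine congrArg _ (filter_congr fun s hs => ?_)
      simp only [mem_filter, mem_univ, true_and, hg0 s hs, hg0 _ (hQ1 s hs).1]
    rw [a1, ← hct]
    exact (Nat.mul_le_mul_left _ (hQ2 Y)).trans ((hl3 Y).trans (hle Y))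

theorem sites_pair (H : Hyp π μ c) {K m : ℕ} (hTP : TPst 1000 K) (hK1 : 1 ≤ K) (hm : 2 ≤ m)
    (hc : 2 * (K + m) + 10 ≤ c) (S : Finset V) (hS : Even #S)
    (hfar : ∀ s ∈ S, ∀ s' ∈ S, s ≠ s' → ¬ Nr π μ (K + m + 5) s s') (τ : ℝ)
    (hτ : 10000 * (K + 12) * τ ≤ 1) (hτ0 : 0 ≤ τ)
    (ht : ∀ w, ((∃ a : Fin K, w = μ * π ^ ((a : ℕ) : ℤ)) ∨ w = π ^ (K : ℤ) ∨ w = π ^ (-1 : ℤ) ∨
      ∃ i, w = hbase π μ m i) → ∀ X : Finset V,
      ∑ s ∈ S, (seg π m (w s) (ind X) - seg π m s (ind X)) ^ 2 ≤ τ * (fc π X + mc μ X : ℕ)) :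
    ∃ Q : V → V, (∀ t ∈ S, Q t ∈ S ∧ Q t ≠ t ∧ Q (Q t) = t) ∧
      ∀ X, 5 * dQ S Q X ≤ fc π X + mc μ X + 5 * lam π S X := by
  classical
  have far : ∀ s ∈ S, ∀ s' ∈ S, ∀ w w', Wd π μ (K + m + 5) w → Wd π μ (K + m + 5) w' →
      w s = w' s' → s = s' := fun s hs s' hs' w w' p1 p2 e =>
    by_contra fun hn => hfar s hs s' hs' hn ⟨w, w', p1, p2, e⟩
  have wz : ∀ a : ℤ, -(K + m + 5 : ℤ) ≤ a → a ≤ K + m + 5 → Wd π μ (K + m + 5) (π ^ a) :=
    fun a a1 a2 => (wd_zpow a).mono (by omega)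
  obtain ⟨Q, hQ, hQd⟩ := core_order H hTP hK1 (by omega) S hS fun s hs s' hs' a b a1 a2 b1 b2 e =>
    far s hs s' hs' _ _ (wz a (by omega) (by omega)) (wz b (by omega) (by omega)) e
  refine ⟨Q, hQ, sr_thin H.hy hm (by omega) S Q (fun t ht => ⟨(hQ t ht).1, (hQ t ht).2.2⟩)
    (fun s hs s' hs' hn => Finset.disjoint_left.2 fun v v1 v2 => hn ?_) fun X B hB h => ?_⟩
  · obtain ⟨j, hj, v1⟩ := mem_biUnion.1 v1
    obtain ⟨j', hj', v2⟩ := mem_biUnion.1 v2
    obtain ⟨t, t1, t2, e⟩ := mem_Iv.1 v1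
    obtain ⟨t', t3, t4, e'⟩ := mem_Iv.1 v2
    rw [mem_Icc] at hj hj'
    exact far s hs s' hs' (π ^ t * Cen π μ j) (π ^ t' * Cen π μ j')
      (((wd_zpow t).mul (wd_cen j hj.1 hj.2)).mono (by omega))
      (((wd_zpow t').mul (wd_cen j' hj'.1 hj'.2)).mono (by omega)) (e.trans e'.symm)
  obtain ⟨X', x1, x2, x3⟩ := hQd X (side π m X)
  have r := round_dc H.inv m K S X X' (fun s hs s' hs' a b a1 a2 b1 b2 e => by
    rcases e with e | e
    · exact far s hs s' hs' (μ * π ^ a) _ ((wd_mu.mul (wd_zpow a)).mono (by omega))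
        (wz b (by omega) (by omega)) e
    · rw [zp_succ] at e
      exact far s hs s' hs' _ _ (wz _ (by omega) (by omega)) (wz b (by omega) (by omega)) e) x1 x2
  obtain ⟨δ, hδ⟩ : ∃ δ : ℝ, δ = (fc π X + mc μ X : ℕ) := ⟨_, rfl⟩
  have c0 := charge (π := π) (by omega : 1 ≤ m) S X (fun a : Fin K => μ * π ^ ((a : ℕ) : ℤ)) (τ * δ)
    (fun s hs s' hs' i i' t t' t1 t2 t3 t4 e => by
      have i1 := i.2
      have i2 := i'.2
      obtain rfl := far s hs s' hs' (π ^ t * (μ * π ^ ((i : ℕ) : ℤ))) (π ^ t' * (μ * π ^ ((i' : ℕ) : ℤ)))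
        (((wd_zpow t).mul (wd_mu.mul (wd_zpow _))).mono (by omega))
        (((wd_zpow t').mul (wd_mu.mul (wd_zpow _))).mono (by omega)) e
      refine ⟨rfl, by_contra fun hn => ?_⟩
      have hn' : ((i : ℕ) : ℤ) - (i' : ℕ) ≠ 0 := fun h => hn (Fin.ext (by omega))
      refine H.hy.g2 ((π ^ ((i' : ℕ) : ℤ)) s) (t := t' - t) hn' (by
        have : |t' - t| ≤ m := abs_le.2 ⟨by omega, by omega⟩
        have : |((i : ℕ) : ℤ) - (i' : ℕ)| ≤ K := abs_le.2 ⟨by omega, by omega⟩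
        omega) ?_
      apply (π ^ t).injective
      rw [zp_add, zp_add, sub_add_cancel, add_sub_cancel]
      exact e) fun a => hδ ▸ ht _ (Or.inl ⟨a, rfl⟩) X
  have cz : ∀ a : ℤ, -1 ≤ a → a ≤ K → (∑ s ∈ S, (seg π m ((π ^ a) s) (ind X) -
      seg π m s (ind X)) ^ 2 ≤ τ * δ) →
      (#(wrong π m S X fun _ : Unit => π ^ a) : ℝ) ≤ fc π X + 4 * (τ * δ) := fun a a1 a2 h => by
    have := charge (π := π) (by omega : 1 ≤ m) S X (fun _ : Unit => π ^ a) (τ * δ)
      (fun s hs s' hs' i i' t t' t1 t2 t3 t4 e => by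
        rw [zp_add, zp_add] at e
        exact ⟨far s hs s' hs' _ _ (wz _ (by omega) (by omega)) (wz _ (by omega) (by omega)) e,
          rfl⟩) fun _ => h
    simpa using this
  have c1 := cz K (by omega) le_rfl (hδ ▸ ht _ (Or.inr (Or.inl rfl)) X)
  have c2 := cz (-1) le_rfl (by omega) (hδ ▸ ht _ (Or.inr (Or.inr (Or.inl rfl))) X)
  let f : V → ℝ := fun s => ∑ i, (seg π m (hbase π μ m i s) (ind X) - seg π m s (ind X)) ^ 2
  have f0 : ∀ s, 0 ≤ f s := fun s => Finset.sum_nonneg fun _ _ => sq_nonneg _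
  have f1 : ∑ s ∈ S, f s ≤ 12 * (τ * δ) := by
    rw [Finset.sum_comm]
    have := Finset.sum_le_sum fun i (_ : i ∈ univ) =>
      hδ ▸ ht _ (Or.inr (Or.inr (Or.inr ⟨i, rfl⟩))) X
    rw [Finset.sum_const, card_univ, nsmul_eq_mul] at this
    simpa using this
  have f2 : ∀ s i, 1 / 4 ≤ (seg π m (hbase π μ m i s) (ind X) - seg π m s (ind X)) ^ 2 →
      1 / 4 ≤ f s := fun s i h => h.trans (Finset.single_le_sum
    (f := fun i => (seg π m (hbase π μ m i s) (ind X) - seg π m s (ind X)) ^ 2)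
    (fun _ _ => sq_nonneg _) (mem_univ i))
  have b1 := cnt_tests {s ∈ B | ¬ side π m X s} S f f0 (fun s hs => hB (mem_filter.1 hs).1)
    fun s hs => by
      obtain ⟨i, hi⟩ := (h s (mem_filter.1 hs).1).2.2.1
      exact f2 s i (test_big (by omega) X _ s True (fun t ht => iff_true_intro (hi t ht))
        fun h => (mem_filter.1 hs).2 (h.1 trivial))
  have b2 := cnt_tests (({s ∈ B | side π m X (Q s)} : Finset V).image Q) S f f0
    (fun s0 hs0 => by
      obtain ⟨s, hs, rfl⟩ := mem_image.1 hs0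
      exact (hQ s (hB (mem_filter.1 hs).1)).1) fun s0 hs0 => by
      obtain ⟨s, hs, rfl⟩ := mem_image.1 hs0
      obtain ⟨i, hi⟩ := (h s (mem_filter.1 hs).1).2.2.2
      exact f2 _ i (test_big (by omega) X _ _ False
        (fun t ht => iff_false_intro (mem_compl.1 (hi t ht))) fun h => h.2 (mem_filter.1 hs).2)
  rw [card_image_of_injOn fun s hs s' hs' e => by
    rw [← (hQ s (hB (mem_filter.1 hs).1)).2.2, e, (hQ s' (hB (mem_filter.1 hs').1)).2.2]] at b2
  have b3 : #B ≤ dQ S Q X' + #{s ∈ B | ¬ side π m X s} + #{s ∈ B | side π m X (Q s)} := by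
    refine le_trans (card_le_card fun s hs => ?_)
      ((card_union_le _ _).trans (Nat.add_le_add_right (card_union_le _ _) _))
    by_cases p1 : side π m X s
    · by_cases p2 : side π m X (Q s)
      · exact mem_union_right _ (mem_filter.2 ⟨hs, p2⟩)
      · have q1 := x1 s (hB hs) 0 le_rfl (by omega)
        have q2 := x1 _ (hQ s (hB hs)).1 0 le_rfl (by omega)
        rw [zpow_zero, Equiv.Perm.one_apply] at q1 q2
        exact mem_union_left _ (mem_union_left _ (mem_filter.2 ⟨hB hs, q1.2 p1,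
          fun h => p2 (q2.1 h)⟩))
    · exact mem_union_left _ (mem_union_right _ (mem_filter.2 ⟨hs, p1⟩))
  rw [Fintype.card_fin] at c0
  have r' : (dc π μ X' : ℝ) ≤ dc π μ X +
      2 * #(wrong π m S X fun a : Fin K => μ * π ^ ((a : ℕ) : ℤ)) +
      #(wrong π m S X fun _ : Unit => π ^ (K : ℤ)) +
      #(wrong π m S X fun _ : Unit => π ^ (-1 : ℤ)) := by exact_mod_cast r
  have x3' : 1000 * (dQ S Q X' : ℝ) ≤ 2 * dc π μ X' := by exact_mod_cast x3
  have b3' : (#B : ℝ) ≤ dQ S Q X' + #{s ∈ B | ¬ side π m X s} + #{s ∈ B | side π m X (Q s)} := by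
    exact_mod_cast b3
  have d1 : (dc π μ X : ℝ) = fc π X + 2 * mc μ X := by simp [dc]
  have d2 : δ = fc π X + mc μ X := by rw [hδ]; push_cast; rfl
  have d3 : (0 : ℝ) ≤ fc π X := Nat.cast_nonneg _
  have d4 : (0 : ℝ) ≤ mc μ X := Nat.cast_nonneg _
  have d5 := mul_le_mul_of_nonneg_right hτ (show 0 ≤ δ by linarith)
  have d6 : 0 ≤ τ * δ := mul_nonneg hτ0 (by linarith)
  have d7 : 0 ≤ K * (τ * δ) := mul_nonneg (Nat.cast_nonneg _) d6
  have : ((30 * #B : ℕ) : ℝ) ≤ δ := by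
    push_cast
    nlinarith
  rw [hδ] at this
  exact_mod_cast this

end Pool.Agent.P.MP_e59a69_co
end

-- part Pool.Agent.P.MP_e59a69_co.VSel
section

/-! Iterated pair selection: one element from each group. -/

open Finset

namespace Pool.Agent.P.MP_e59a69_co

theorem iter_sel {W κ ι : Type} [AddCommGroup W] [Module ℝ W] [Fintype κ] [Fintype ι]
    [DecidableEq ι] (γ : W →ₗ[ℝ] κ → ℝ) (τ : ℝ) (hτ : 0 < τ) (j : ℕ)
    (α : ι → (Fin j → Bool) → W →ₗ[ℝ] ℝ)
    (h1 : ∀ w, ∑ i, ∑ b, α i b w ^ 2 ≤ τ * (10 / 9) ^ j * ∑ k, γ w k ^ 2)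
    (h2 : ∀ i b w, 100 * α i b w ^ 2 ≤ τ * ∑ k, γ w k ^ 2) :
    ∃ β : ι → Fin j → Bool, ∀ w, ∑ i, α i (β i) w ^ 2 ≤ τ * ∑ k, γ w k ^ 2 := by
  induction j with
  | zero =>
    refine ⟨fun _ => Fin.elim0, fun w => ?_⟩
    have := h1 w
    rw [pow_zero, mul_one] at this
    refine le_trans (le_of_eq (Finset.sum_congr rfl fun i _ => ?_)) this
    rw [Fintype.sum_subsingleton _ Fin.elim0]
  | succ j ih =>
    have hB : 0 < τ * (10 / 9) ^ (j + 1) := by positivity
    have hB1 : τ ≤ τ * (10 / 9) ^ (j + 1) :=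
      le_mul_of_one_le_right hτ.le (one_le_pow₀ (by norm_num))
    have hγ : ∀ w, ∑ k, (√(τ * (10 / 9) ^ (j + 1)) • γ) w k ^ 2 =
        τ * (10 / 9) ^ (j + 1) * ∑ k, γ w k ^ 2 := fun w => by
      rw [Finset.mul_sum]
      refine Finset.sum_congr rfl fun k _ => ?_
      rw [LinearMap.smul_apply, Pi.smul_apply, smul_eq_mul, mul_pow, Real.sq_sqrt hB.le]
    have h0 : ∀ w, 0 ≤ ∑ k, γ w k ^ 2 := fun w => Finset.sum_nonneg fun _ _ => sq_nonneg _
    obtain ⟨σ, hσ⟩ := form_sel (ι := ι × (Fin j → Bool)) (√(τ * (10 / 9) ^ (j + 1)) • γ)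
      (fun p => α p.1.1 (Fin.cons p.2 p.1.2)) (fun w => by
        rw [hγ]
        refine le_trans (le_of_eq ?_) (h1 w)
        rw [Fintype.sum_prod_type, Fintype.sum_prod_type]
        refine Finset.sum_congr rfl fun i _ => ?_
        rw [← (Fin.consEquiv fun _ => Bool).sum_comp, Fintype.sum_prod_type, Finset.sum_comm]
        rfl) (fun l w => by
        rw [hγ]
        exact (h2 _ _ w).trans (mul_le_mul_of_nonneg_right hB1 (h0 w)))
    obtain ⟨β, hβ⟩ := ih (fun i b => α i (Fin.cons (σ (i, b)) b)) (fun w => by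
        have := hσ w
        rw [hγ, Fintype.sum_prod_type] at this
        refine this.trans (le_of_eq ?_)
        ring) (fun i b w => h2 _ _ w)
    exact ⟨fun i => Fin.cons (σ (i, β i)) (β i), hβ⟩

/-- the same for several tests at once -/
theorem iter_sel_tests {W κ ι J : Type} [AddCommGroup W] [Module ℝ W] [Fintype κ] [Fintype ι]
    [DecidableEq ι] [Fintype J] [DecidableEq J] (γ : W →ₗ[ℝ] κ → ℝ) (τ ε B : ℝ) (hτ : 0 < τ)
    (j : ℕ) (hε : 100 * Fintype.card J * ε ≤ τ) (hB : Fintype.card J * B ≤ τ * (10 / 9) ^ j)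
    (α : J → ι → (Fin j → Bool) → W →ₗ[ℝ] ℝ)
    (h1 : ∀ t w, ∑ i, ∑ b, α t i b w ^ 2 ≤ B * ∑ k, γ w k ^ 2)
    (h2 : ∀ t i b w, α t i b w ^ 2 ≤ ε * ∑ k, γ w k ^ 2) :
    ∃ β : ι → Fin j → Bool, ∀ t w, ∑ i, α t i (β i) w ^ 2 ≤ τ * ∑ k, γ w k ^ 2 := by
  let Γ : (J → W) →ₗ[ℝ] J × κ → ℝ :=
    LinearMap.pi fun p => LinearMap.proj p.2 ∘ₗ γ ∘ₗ LinearMap.proj p.1
  let a : ι → (Fin j → Bool) → (J → W) →ₗ[ℝ] ℝ := fun i b => ∑ t, α t i b ∘ₗ LinearMap.proj t
  have hΓ : ∀ Y, ∑ k, Γ Y k ^ 2 = ∑ t, ∑ k, γ (Y t) k ^ 2 := fun Y => by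
    rw [Fintype.sum_prod_type]; rfl
  have ha : ∀ i b Y, a i b Y = ∑ t, α t i b (Y t) := fun i b Y => by simp [a]
  have ha2 : ∀ i b Y, a i b Y ^ 2 ≤ Fintype.card J * ∑ t, α t i b (Y t) ^ 2 := fun i b Y => by
    rw [ha, ← card_univ]
    exact sq_sum_le_card_mul_sum_sq
  have h0 : ∀ Y : J → W, 0 ≤ ∑ t, ∑ k, γ (Y t) k ^ 2 := fun Y =>
    Finset.sum_nonneg fun _ _ => Finset.sum_nonneg fun _ _ => sq_nonneg _
  have hJ : (0 : ℝ) ≤ Fintype.card J := Nat.cast_nonneg _
  obtain ⟨β, hβ⟩ := iter_sel Γ τ hτ j a (fun Y => by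
      rw [hΓ]
      have e1 : ∑ i, ∑ b, a i b Y ^ 2 ≤
          Fintype.card J * ∑ t, ∑ i, ∑ b, α t i b (Y t) ^ 2 := by
        rw [Finset.sum_comm (s := (univ : Finset J)), Finset.mul_sum]
        refine Finset.sum_le_sum fun i _ => ?_
        rw [Finset.sum_comm (s := (univ : Finset J)), Finset.mul_sum]
        exact Finset.sum_le_sum fun b _ => ha2 i b Y
      have e2 := Finset.sum_le_sum fun t (_ : t ∈ univ) => h1 t (Y t)
      rw [← Finset.mul_sum] at e2
      have e3 := mul_le_mul_of_nonneg_left e2 hJ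
      have e4 := mul_le_mul_of_nonneg_right hB (h0 Y)
      linarith) (fun i b Y => by
      rw [hΓ]
      have e1 := ha2 i b Y
      have e2 := Finset.sum_le_sum fun t (_ : t ∈ univ) => h2 t i b (Y t)
      rw [← Finset.mul_sum] at e2
      have e3 := mul_le_mul_of_nonneg_left e2 hJ
      have e4 := mul_le_mul_of_nonneg_right hε (h0 Y)
      linarith)
  refine ⟨β, fun t w => ?_⟩
  have := hβ (Pi.single t w)
  rw [hΓ, Finset.sum_eq_single t (fun i' _ h => by simp [Pi.single_eq_of_ne h]) (by simp),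
    Pi.single_eq_same] at this
  refine le_trans (le_of_eq (Finset.sum_congr rfl fun i _ => ?_)) this
  rw [ha, Finset.sum_eq_single t (fun i' _ h => by simp [Pi.single_eq_of_ne h]) (by simp),
    Pi.single_eq_same]

end Pool.Agent.P.MP_e59a69_co
end

-- part Pool.Agent.P.MP_e59a69_co.LSigma
section

/-! The orientation of the perfect matching from a thin pairing. -/

open Finset Function

namespace Pool.Agent.P.MP_e59a69_co

variable {V : Type} [Fintype V] [DecidableEq V] {π μ : Equiv.Perm V} {c : ℕ}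

theorem exists_sigma2 (H : Hyp π μ c) (Rp : Finset V)
    (hRp : ∀ r ∈ Rp, ∀ r' ∈ Rp, π.SameCycle r r' → r = r')
    (hodd : ∀ r ∈ Rp, Odd (minimalPeriod π r))
    (hall : ∀ v, Odd (minimalPeriod π v) → ∃ r ∈ Rp, π.SameCycle r v)
    (hc3 : 3 ≤ c)
    (hspec : Even #Rp → ∃ (s : V → V) (Q : V → V), (∀ r ∈ Rp, π.SameCycle r (s r)) ∧
      (∀ t ∈ Rp.image s, Q t ∈ Rp.image s ∧ Q t ≠ t ∧ Q (Q t) = t) ∧
      ∀ X, 5 * dQ (Rp.image s) Q X ≤ fc π X + mc μ X + 5 * lam π (Rp.image s) X) :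
    ∃ σ : V → ℤ, (∀ v, σ v = 1 ∨ σ v = -1) ∧ (∀ v, σ (μ v) = - σ v) ∧
      ∀ X : Finset V, 5 * ∑ v ∈ X, σ v ≤ (mc μ X + 6 * fc π X : ℕ) := by
  classical
  have hne : ∀ v, π v ≠ v := fun v => by
    simpa using H.len v 1 one_ne_zero (by simp; omega)
  have heven : Even #Rp := by
    obtain ⟨hv, h1, h2⟩ := exists_heavy Rp hodd hRp hall
    have e1 := even_card_of_invol Rpᶜ (fun v => if hv v then π v else π.symm v) fun t ht => by
      have := heavy_invol Rp hne hv h1 h2 _ (fun _ => rfl) t (mem_compl.1 ht)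
      rwa [mem_compl]
    have e2 := even_card_of_invol univ μ fun t _ => ⟨mem_univ _, H.ne t, H.inv t⟩
    have e3 := card_add_card_compl Rp
    rw [card_univ, ← e3, Nat.even_add] at e2
    exact e2.2 e1
  obtain ⟨s, Q, hs, hQ, hthin⟩ := hspec heven
  set S := Rp.image s with hS
  have hSd : ∀ x ∈ S, ∀ y ∈ S, π.SameCycle x y → x = y := by
    intro x hx y hy e
    obtain ⟨r, hr, rfl⟩ := mem_image.1 hx
    obtain ⟨r', hr', rfl⟩ := mem_image.1 hy
    rw [hRp r hr r' hr' (((hs r hr).trans e).trans (hs r' hr').symm)]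
  obtain ⟨hv, h1, h2⟩ := exists_heavy (π := π) S
    (fun x hx => by
      obtain ⟨r, hr, rfl⟩ := mem_image.1 hx
      rw [period_eq (hs r hr)]; exact hodd r hr) hSd
    (fun v o => by
      obtain ⟨r, hr, e⟩ := hall v o
      exact ⟨s r, mem_image_of_mem s hr, (hs r hr).symm.trans e⟩)
  let n : V → V := fun v => if hv v then π v else π.symm v
  have hn := heavy_invol S hne hv h1 h2 n (fun v => rfl)
  let ν : V → V := fun v => if v ∈ S then Q v else n v
  obtain ⟨σ, s1, s2, s3⟩ := two_colouring μ ν H.inv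
    (fun v => by
      by_cases h : v ∈ S
      · simp only [ν, h, if_true, (hQ v h).1, (hQ v h).2.2]
      · simp only [ν, h, if_false, (hn v h).1, (hn v h).2.2]) H.ne
    (fun v => by
      by_cases h : v ∈ S
      · simp only [ν, h, if_true]; exact (hQ v h).2.1
      · simp only [ν, h, if_false]; exact (hn v h).2.1)
  have hνν : ∀ v, ν (ν v) = v := fun v => by
    by_cases h : v ∈ S
    · simp only [ν, h, if_true, (hQ v h).1, (hQ v h).2.2]
    · simp only [ν, h, if_false, (hn v h).1, (hn v h).2.2]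
  refine ⟨σ, s1, s2, fun X => ?_⟩
  have e1 : ∑ v ∈ X, σ v ≤ #{v ∈ X | ν v ∉ X} := by
    rw [← Finset.sum_filter_add_sum_filter_not X (fun v => ν v ∈ X)]
    have z : ∑ v ∈ X with ν v ∈ X, σ v = 0 :=
      Finset.sum_involution (fun v _ => ν v) (fun v _ => by rw [s3]; ring)
        (fun v _ _ e => by
          have := s3 v
          rw [e] at this
          rcases s1 v with h | h <;> omega)
        (fun v hv => mem_filter.2 ⟨(mem_filter.1 hv).2, by rw [hνν]; exact (mem_filter.1 hv).1⟩)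
        (fun v _ => hνν v)
    rw [z, zero_add, card_eq_sum_ones]
    push_cast
    exact Finset.sum_le_sum fun v _ => by rcases s1 v with h | h <;> omega
  let cut : V → Prop := fun v => ¬ (v ∈ X ↔ π v ∈ X)
  have e2 : #{v ∈ X | ν v ∉ X} ≤ dQ S Q X + #{v ∈ X | v ∉ S ∧ n v ∉ X} := by
    refine le_trans (card_le_card fun v hv => ?_) (card_union_le _ _)
    rw [mem_filter] at hv
    by_cases h : v ∈ S
    · exact mem_union_left _ (mem_filter.2 ⟨h, hv.1, by simpa only [ν, h, if_true] using hv.2⟩)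
    · exact mem_union_right _ (mem_filter.2 ⟨hv.1, h, by simpa only [ν, h, if_false] using hv.2⟩)
  have e3 : #{v ∈ X | v ∉ S ∧ n v ∉ X} ≤ #{v | cut v ∧ hv v} := by
    refine card_le_card_of_injOn (fun v => if hv v then v else π.symm v) (fun v h => ?_)
      (fun v h v' h' e => ?_)
    · simp only [coe_filter, Set.mem_ofPred_eq, mem_univ, true_and, n, cut] at h ⊢
      split_ifs at h ⊢ with a
      · exact ⟨fun e => h.2.2 (e.1 h.1), a⟩
      · rw [Equiv.apply_symm_apply]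
        exact ⟨fun e => h.2.2 (e.2 h.1), by_contra fun b => a ((h1 v h.2.1).2 b)⟩
    · simp only [coe_filter, Set.mem_ofPred_eq, n] at h h' e
      split_ifs at e h h'
      · exact e
      · exact absurd (e ▸ h.1) h'.2.2
      · exact absurd (e ▸ h'.1) h.2.2
      · exact π.symm.injective e
  have e4 : lam π S X ≤ #{v | cut v ∧ ¬ hv v} := by
    refine card_le_card_of_injOn (fun v => if cut v then v else π.symm v) (fun v h => ?_)
      (fun v h v' h' e => ?_)
    · simp only [coe_filter, Set.mem_ofPred_eq, mem_univ, true_and, zpow_one, zpow_neg] at h ⊢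
      split_ifs with a
      · exact ⟨a, (h2 v h.1).1⟩
      · refine ⟨?_, (h2 v h.1).2⟩
        simp only [cut, Equiv.apply_symm_apply]
        exact fun e => (h.2.resolve_left a) e.symm
    · simp only [coe_filter, Set.mem_ofPred_eq] at h h' e
      have q1 : ∀ x, π.SameCycle (π.symm x) x := fun x => ⟨1, by simp⟩
      split_ifs at e
      · exact e
      · exact hSd v h.1 v' h'.1 (e ▸ q1 v')
      · exact hSd v h.1 v' h'.1 (e ▸ (q1 v).symm)
      · exact π.symm.injective e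
  have e5 : #{v | cut v ∧ hv v} + #{v | cut v ∧ ¬ hv v} = fc π X := by
    unfold fc
    rw [← card_filter_add_card_filter_not (s := univ.filter fun v => ¬ (v ∈ X ↔ π v ∈ X)) hv,
      filter_filter, filter_filter]
  have e6 := hthin X
  have e7 : 5 * #{v ∈ X | ν v ∉ X} ≤ mc μ X + 6 * fc π X := by omega
  have e8 : (5 : ℤ) * #{v ∈ X | ν v ∉ X} ≤ (mc μ X + 6 * fc π X : ℕ) := by exact_mod_cast e7
  linarith

end Pool.Agent.P.MP_e59a69_co
end

-- part Pool.Agent.P.MP_e59a69_co.VLv1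
section

/-! Level one: good vertices on all circuits give the orientation of the matching. -/

open Finset Function

namespace Pool.Agent.P.MP_e59a69_co

lemma TPst.succ {d K : ℕ} (h : TPst d K) : TPst d (K + 1) :=
  fun N E _ _ _ _ s t Z h1 h2 => h N E s t Z h1 fun X hX => (Nat.le_succ K).trans (h2 X hX)

lemma exists_odd_reps {V : Type} [Fintype V] [DecidableEq V] (π : Equiv.Perm V) :
    ∃ Rp : Finset V, (∀ r ∈ Rp, ∀ r' ∈ Rp, π.SameCycle r r' → r = r') ∧
      (∀ r ∈ Rp, Odd (minimalPeriod π r)) ∧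
      ∀ v, Odd (minimalPeriod π v) → ∃ r ∈ Rp, π.SameCycle r v := by
  classical
  let ρ : V → V := fun v => (Quotient.mk (Equiv.Perm.SameCycle.setoid π) v).out
  have h1 : ∀ v, π.SameCycle (ρ v) v := fun v =>
    Quotient.mk_out (s := Equiv.Perm.SameCycle.setoid π) v
  refine ⟨(univ.filter fun v => Odd (minimalPeriod π v)).image ρ, fun r hr r' hr' e => ?_,
    fun r hr => ?_, fun v hv => ⟨ρ v, mem_image_of_mem _ (mem_filter.2 ⟨mem_univ _, hv⟩), h1 v⟩⟩
  · obtain ⟨v, -, rfl⟩ := mem_image.1 hr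
    obtain ⟨v', -, rfl⟩ := mem_image.1 hr'
    have : Quotient.mk (Equiv.Perm.SameCycle.setoid π) v =
        Quotient.mk (Equiv.Perm.SameCycle.setoid π) v' :=
      Quotient.sound (((h1 v).symm.trans e).trans (h1 v'))
    simp only [ρ, this]
  · obtain ⟨v, hv, rfl⟩ := mem_image.1 hr
    rw [← period_eq (h1 v)]
    exact (mem_filter.1 hv).2

theorem lv1_core {K : ℕ} (hTP : TPst 1000 K) : ∃ ε : ℝ, 0 < ε ∧ ∀ m : ℕ, 2 ≤ m → ∃ n c : ℕ,
    ∀ (V κ κ' : Type) [Fintype V] [DecidableEq V] [Fintype κ] [Fintype κ'] (π μ : Equiv.Perm V)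
      (G : (V → ℝ) →ₗ[ℝ] κ' → ℝ) (Γ : (V → ℝ) →ₗ[ℝ] κ → ℝ), Hyp π μ c → IsGrad π μ G →
      (∀ y, ∑ k, G y k ^ 2 ≤ ∑ k, Γ y k ^ 2) →
      (∀ X, ∑ k, Γ (ind X) k ^ 2 ≤ 2 * (fc π X + mc μ X : ℕ)) →
      (∀ v, Odd (minimalPeriod π v) → ∃ u, π.SameCycle v u ∧ ∀ w w', Wd π μ n w → Wd π μ n w' → ∀ y,
        (seg π m (w u) y - seg π m (w' u) y) ^ 2 ≤ ε * ∑ k, Γ y k ^ 2) →
      ∃ σ : V → ℤ, (∀ v, σ v = 1 ∨ σ v = -1) ∧ (∀ v, σ (μ v) = - σ v) ∧
        ∀ X : Finset V, 5 * ∑ v ∈ X, σ v ≤ (mc μ X + 6 * fc π X : ℕ) := by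
  have hTP' := hTP.succ
  generalize hK : K + 1 = K' at hTP'
  have hK1 : 1 ≤ K' := by omega
  clear hTP hK
  let J := Fin K' ⊕ Bool ⊕ Fin 6 × Bool
  have hJ : (Fintype.card J : ℝ) = K' + 14 := by simp [J]
  obtain ⟨τ, hτ⟩ : ∃ τ : ℝ, τ = 1 / (20000 * (K' + 12)) := ⟨_, rfl⟩
  have τ0 : 0 < τ := by rw [hτ]; positivity
  have τ1 : 10000 * (K' + 12) * (2 * τ) ≤ 1 := by
    rw [hτ]; apply le_of_eq; field_simp; norm_num
  refine ⟨τ / (100 * (K' + 14)), by positivity, fun m hm => ?_⟩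
  obtain ⟨j, hj⟩ := pow_unbounded_of_one_lt
    ((K' + 14) * (2 * (2 * (m : ℝ) + (K' + m + 5 : ℕ)) ^ 2) / τ) (show (1 : ℝ) < 10 / 9 by norm_num)
  rw [div_lt_iff₀ τ0] at hj
  obtain ⟨q, hq⟩ : ∃ q, q = 4 * 16 ^ (K' + m + 5) * 2 ^ j := ⟨_, rfl⟩
  refine ⟨q + (K' + m + 5), q + 2 * (K' + m) + 10, ?_⟩
  intro V κ κ' _ _ _ _ π μ G Γ H hG h1 h2 h3
  classical
  obtain ⟨Rp, r1, r2, r3⟩ := exists_odd_reps π
  refine exists_sigma2 H Rp r1 r2 r3 (by omega) fun hev => ?_
  choose u u1 u2 using fun r : Rp => h3 r (r2 r r.2)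
  have hΩ : Fintype.card (Fin j → Bool) = 2 ^ j := by simp
  obtain ⟨y, y1, y2⟩ := far_cand H (ι := Rp) (Ω := Fin j → Bool) u
    (fun r r' e => Subtype.ext (r1 _ r.2 _ r'.2 (((u1 r).trans e).trans (u1 r').symm)))
    (K' + m + 5) (by rw [hΩ]; omega) (by omega)
  rw [hΩ, ← hq] at y1
  let w : J → Equiv.Perm V := Sum.elim (fun a => μ * π ^ ((a : ℕ) : ℤ))
    (Sum.elim (fun b => if b then π ^ (K' : ℤ) else π ^ (-1 : ℤ)) (hbase π μ m))
  have hw : ∀ t, Wd π μ (K' + m + 5) (w t) := by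
    rintro (a | b | i)
    · exact (wd_mu.mul (wd_zpow _)).mono (by have := a.2; omega)
    · cases b
      · exact (wd_zpow (-1)).mono (by omega)
      · exact (wd_zpow K').mono (by omega)
    · exact (wd_hbase m i).mono (by omega)
  have yinj : Injective fun p : Rp × (Fin j → Bool) => y p.1 p.2 := by
    rintro ⟨i, a⟩ ⟨i', a'⟩ e
    by_contra hn
    exact y2 i i' a a' hn ⟨1, 1, wd_one.mono (by omega), wd_one.mono (by omega), e⟩
  have h0 : ∀ z, 0 ≤ ∑ k, Γ z k ^ 2 := fun z => Finset.sum_nonneg fun _ _ => sq_nonneg _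
  obtain ⟨β, hβ⟩ := iter_sel_tests Γ τ (τ / (100 * (K' + 14)))
    (2 * (2 * (m : ℝ) + (K' + m + 5 : ℕ)) ^ 2) τ0 j
    (by rw [hJ]; apply le_of_eq; field_simp) (by rw [hJ]; linarith)
    (fun t (i : Rp) b => seg π m (w t (y i b)) - seg π m (y i b)) (fun t z => by
      have a1 := seg_bessel H.inv hG (hw t) m z
      have a2 := mul_le_mul_of_nonneg_left (h1 z)
        (show 0 ≤ 2 * (2 * (m : ℝ) + (K' + m + 5 : ℕ)) ^ 2 by positivity)
      refine le_trans ?_ (a1.trans a2)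
      rw [← Fintype.sum_prod_type', ← Finset.sum_image (s := univ)
        (g := fun p : Rp × (Fin j → Bool) => y p.1 p.2)
        (f := fun v => (seg π m (w t v) - seg π m v) z ^ 2) fun a _ b _ e => yinj e]
      exact Finset.sum_le_sum_of_subset_of_nonneg (subset_univ _) fun _ _ _ => sq_nonneg _)
    (fun t i b z => by
      obtain ⟨a, a1, a2⟩ := y1 i b
      have := u2 i (w t * π ^ (a : ℤ)) (π ^ (a : ℤ)) (((hw t).mul (wd_zpow a)).mono (by omega))
        ((wd_zpow a).mono (by omega)) z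
      rw [a2]
      exact this)
  let s : V → V := fun r => if h : r ∈ Rp then y ⟨r, h⟩ (β ⟨r, h⟩) else r
  have hs : ∀ r : Rp, s r = y r (β r) := fun r => dif_pos r.2
  have sinj : Set.InjOn s Rp := fun r hr r' hr' e => by
    rw [hs ⟨r, hr⟩, hs ⟨r', hr'⟩] at e
    exact congrArg (fun p => p.1.1) (yinj (a₁ := (⟨r, hr⟩, β ⟨r, hr⟩)) (a₂ := (⟨r', hr'⟩, β ⟨r', hr'⟩)) e)
  obtain ⟨Q, hQ⟩ := sites_pair H hTP' hK1 hm (by omega) (Rp.image s)
    (by rw [card_image_of_injOn sinj]; exact hev) (fun x hx x' hx' hn => by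
      obtain ⟨r, hr, rfl⟩ := mem_image.1 hx
      obtain ⟨r', hr', rfl⟩ := mem_image.1 hx'
      rw [hs ⟨r, hr⟩, hs ⟨r', hr'⟩] at hn ⊢
      exact y2 _ _ _ _ fun e => hn (by rw [(Prod.mk.inj e).1])) (2 * τ) τ1 (by linarith)
    (fun w0 hw0 X => by
      obtain ⟨t, rfl⟩ : ∃ t, w0 = w t := by
        rcases hw0 with ⟨a, h⟩ | h | h | ⟨i, h⟩
        · exact ⟨Sum.inl a, h⟩
        · exact ⟨Sum.inr (Sum.inl true), h⟩
        · exact ⟨Sum.inr (Sum.inl false), h⟩
        · exact ⟨Sum.inr (Sum.inr i), h⟩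
      rw [Finset.sum_image sinj, ← Finset.sum_coe_sort]
      have a1 := hβ t (ind X)
      have a2 := mul_le_mul_of_nonneg_left (h2 X) τ0.le
      simp only [hs]
      refine a1.trans (a2.trans (le_of_eq ?_))
      ring)
  refine ⟨s, Q, fun r hr => ?_, hQ⟩
  obtain ⟨a, -, a2⟩ := y1 ⟨r, hr⟩ (β ⟨r, hr⟩)
  rw [hs ⟨r, hr⟩, a2]
  exact (u1 ⟨r, hr⟩).trans ⟨a, rfl⟩

end Pool.Agent.P.MP_e59a69_co
end

-- part Pool.Agent.P.MP_e59a69_co.KLv1
section

/-! Orientation of the matching when every odd circuit has a good vertex. -/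

open Finset Function

namespace Pool.Agent.P.MP_e59a69_co

theorem klv1 : ∃ ε0 : ℝ, 0 < ε0 ∧ ∀ m : ℕ, 2 ≤ m → ∃ n c : ℕ,
    ∀ (V κ κ' : Type) [Fintype V] [DecidableEq V] [Fintype κ] [Fintype κ'] (π μ : Equiv.Perm V)
      (G : (V → ℝ) →ₗ[ℝ] κ' → ℝ) (γ : (V → ℝ) →ₗ[ℝ] κ → ℝ), Hyp π μ c → IsGrad π μ G →
      (∀ y, ∑ k, G y k ^ 2 ≤ ∑ k, γ y k ^ 2) →
      (∀ X : Finset V, ∑ k, γ (ind1 X) k ^ 2 ≤ 2 * (fc π X + mc μ X : ℕ)) →
      (∀ v, Odd (minimalPeriod π v) → ∃ u, π.SameCycle v u ∧ ∀ w, Wd π μ n w → ∀ y,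
        (seg π m (w u) y - seg π m u y) ^ 2 ≤ ε0 * ∑ k, γ y k ^ 2) →
      ∃ σ : V → ℤ, (∀ v, σ v = 1 ∨ σ v = -1) ∧ (∀ v, σ (μ v) = - σ v) ∧
        ∀ X : Finset V, 5 * ∑ v ∈ X, σ v ≤ (mc μ X + 6 * fc π X : ℕ) := by
  obtain ⟨K, hK⟩ := ktp (1 / 1000) (by norm_num)
  obtain ⟨ε, hε, h⟩ := lv1_core (K := K) fun N E _ _ _ _ s t Z h1 h2 => by
    obtain ⟨l, l1, l2, l3⟩ := hK N E s t Z h1 h2
    refine ⟨l, l1, l2, fun X => ?_⟩
    have := l3 X
    have : ((1000 * chg X l : ℕ) : ℝ) ≤ ct s t univ X := by push_cast; linarith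
    exact_mod_cast this
  refine ⟨ε / 4, by linarith, fun m hm => ?_⟩
  obtain ⟨n, c, h⟩ := h m hm
  refine ⟨n, c, fun V κ κ' _ _ _ _ π μ G γ H hG h1 h2 h3 => h V κ κ' π μ G γ H hG h1 h2
    fun v hv => ?_⟩
  obtain ⟨u, u1, u2⟩ := h3 v hv
  refine ⟨u, u1, fun w w' p p' y => ?_⟩
  have a1 := u2 w p y
  have a2 := u2 w' p' y
  nlinarith [sq_nonneg (seg π m (w u) y - seg π m u y + (seg π m (w' u) y - seg π m u y))]

end Pool.Agent.P.MP_e59a69_co
end

-- part Pool.Agent.P.MP_e59a69_co.VPerm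
section

/-! The permutation model of a loopless cubic graph with a 2-factor. -/

open Finset Function

namespace Pool.Agent.P.MP_e59a69_co

/-- the gradient -/
def grad {V E : Type} (src tgt : E → V) : (V → ℝ) →ₗ[ℝ] E → ℝ := LinearMap.pi fun e =>
  (LinearMap.proj (src e) : (V → ℝ) →ₗ[ℝ] ℝ) - (LinearMap.proj (tgt e) : (V → ℝ) →ₗ[ℝ] ℝ)

theorem perm_model {V E : Type} [Fintype V] [Fintype E] [DecidableEq V] [DecidableEq E]
    (src tgt : E → V) (hcubic : ∀ v, degIn src tgt univ v = 3) (hloop : ∀ e, src e ≠ tgt e)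
    (F : Finset E) (hF : ∀ v, degIn src tgt F v = 2) :
    ∃ π μ : Equiv.Perm V, (∀ v, μ (μ v) = v) ∧ (∀ v, μ v ≠ v) ∧
      (∀ X, ct src tgt univ X = fc π X + mc μ X) ∧
      (∀ v l, ∃ e, Jn src tgt e v (Lt π μ l v)) ∧ (∀ e ∈ F, π.SameCycle (src e) (tgt e)) ∧
      IsGrad π μ (grad src tgt) ∧
      ∀ σ : V → ℤ, (∀ v, σ v = 1 ∨ σ v = -1) → (∀ v, σ (μ v) = - σ v) →
        (∀ X : Finset V, 5 * ∑ v ∈ X, σ v ≤ (mc μ X + 6 * fc π X : ℕ)) →
        ∃ φ₂ φ₄ : E → ℤ, IsKFlow src tgt 2 φ₂ ∧ IsKFlow src tgt 4 φ₄ ∧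
          (∀ e, φ₂ e = 0 → 2 ≤ |φ₄ e|) ∧ ∀ e, φ₂ e ≠ 0 ↔ e ∈ F := by
  classical
  have hF' : ∀ v, dg src tgt F v = 2 := hF
  have hM : ∀ v, dg src tgt Fᶜ v = 1 := fun v => by
    have h1 := dg_compl src tgt F v
    have h2 : dg src tgt univ v = 3 := hcubic v
    have h3 := hF' v
    omega
  obtain ⟨π, out, o1, o2, o3, o4⟩ := exists_succ src tgt F hF'
  obtain ⟨μ, mt, m1, m2, m3, m4, m5⟩ := exists_mate src tgt Fᶜ hM
  have hf : ∀ X : Finset V, #{e ∈ F | ¬ (src e ∈ X ↔ tgt e ∈ X)} = fc π X := fun X => by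
    symm
    refine card_bij (fun v _ => out v) (fun v hv => ?_) (fun u _ v _ e => o2 e) (fun e he => ?_)
    · have := (mem_filter.1 hv).2
      refine mem_filter.2 ⟨o1 v, ?_⟩
      rcases o4 v with ⟨a, b⟩ | ⟨a, b⟩ <;> rw [a, b]
      · exact this
      · exact fun e => this e.symm
    · obtain ⟨v, rfl⟩ := o3 e (mem_filter.1 he).1
      have := (mem_filter.1 he).2
      refine ⟨v, mem_filter.2 ⟨mem_univ _, ?_⟩, rfl⟩
      rcases o4 v with ⟨a, b⟩ | ⟨a, b⟩ <;> rw [a, b] at this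
      · exact this
      · exact fun e => this e.symm
  have hm : ∀ X : Finset V, #{e ∈ Fᶜ | ¬ (src e ∈ X ↔ tgt e ∈ X)} = mc μ X := fun X => by
    symm
    refine card_bij (fun v _ => mt v) (fun v hv => ?_) (fun u hu v hv e => ?_) (fun e he => ?_)
    · have := mem_filter.1 hv
      refine mem_filter.2 ⟨m3 v, ?_⟩
      rcases m5 v with ⟨a, b⟩ | ⟨a, b⟩ <;> rw [a, b]
      · exact fun e => this.2 (e.1 this.1)
      · exact fun e => this.2 (e.2 this.1)
    · have hu' := mem_filter.1 hu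
      have hv' := mem_filter.1 hv
      rcases m5 u with ⟨a, b⟩ | ⟨a, b⟩ <;> rcases m5 v with ⟨a', b'⟩ | ⟨a', b'⟩ <;>
        rw [e] at a b
      · rw [← a, a']
      · exact absurd (by rw [← b', a]; exact hu'.1) hv'.2
      · exact absurd (by rw [← b', a]; exact hu'.1) hv'.2
      · rw [← a, a']
    · obtain ⟨h1, h2⟩ := mem_filter.1 he
      obtain ⟨a, b, d⟩ := m4 e h1
      by_cases hs : src e ∈ X
      · exact ⟨src e, mem_filter.2 ⟨hs, by rw [d]; exact fun h => h2 (iff_of_true hs h)⟩, a⟩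
      · exact ⟨tgt e, mem_filter.2 ⟨by_contra fun h => h2 (iff_of_false hs h),
          by rw [← d, m1]; exact hs⟩, b⟩
  have hd : ∀ X : Finset V, #{e | ¬ (src e ∈ X ↔ tgt e ∈ X)} = fc π X + mc μ X := fun X => by
    rw [← hf, ← hm, ← card_union_of_disjoint, ← filter_union, union_compl]
    exact Finset.disjoint_left.2 fun e h1 h2 => mem_compl.1 (mem_filter.1 h2).1 (mem_filter.1 h1).1
  have hne : ∀ v, π v ≠ v := fun v h => by
    rcases o4 v with ⟨a, b⟩ | ⟨a, b⟩
    · exact hloop _ (a.trans (b.trans h).symm)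
    · exact hloop _ ((b.trans h).trans a.symm)
  let ed : V → Fin 3 → E := fun v => ![out v, out (π.symm v), mt v]
  have hed : ∀ v l, (src (ed v l) = v ∧ tgt (ed v l) = Lt π μ l v) ∨
      (tgt (ed v l) = v ∧ src (ed v l) = Lt π μ l v) := by
    intro v l
    fin_cases l
    · exact o4 v
    · have := o4 (π.symm v)
      rw [Equiv.apply_symm_apply] at this
      exact this.symm.imp And.symm And.symm
    · exact m5 v
  have hloc : ∀ v (φ : E → ℝ), ∑ e with src e = v, φ e + ∑ e with tgt e = v, φ e =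
      ∑ l, φ (ed v l) := by
    intro v φ
    have d1 : Disjoint ({e | src e = v} : Finset E) ({e | tgt e = v} : Finset E) :=
      Finset.disjoint_left.2 fun e h1 h2 =>
        hloop e ((mem_filter.1 h1).2.trans (mem_filter.1 h2).2.symm)
    have d2 : Injective (ed v) := by
      have n1 : out v ≠ out (π.symm v) := fun e =>
        hne v (by have := o2 e; rw [Equiv.eq_symm_apply] at this; exact this)
      have n2 : ∀ u, out u ≠ mt v := fun u e => mem_compl.1 (m3 v) (e ▸ o1 u)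
      intro l l' e
      fin_cases l <;> fin_cases l' <;>
        simp only [ed, Fin.zero_eta, Fin.mk_one, Fin.reduceFinMk, Matrix.cons_val] at e ⊢ <;>
        first | rfl | exact absurd e n1 | exact absurd e.symm n1 | exact absurd e (n2 _)
              | exact absurd e.symm (n2 _)
    have d3 : univ.image (ed v) =
        ({e | src e = v} : Finset E) ∪ ({e | tgt e = v} : Finset E) := by
      refine eq_of_subset_of_card_le (fun e he => ?_) ?_
      · obtain ⟨l, -, rfl⟩ := mem_image.1 he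
        rcases hed v l with h | h
        · exact mem_union_left _ (mem_filter.2 ⟨mem_univ _, h.1⟩)
        · exact mem_union_right _ (mem_filter.2 ⟨mem_univ _, h.1⟩)
      · rw [card_image_of_injective _ d2, card_union_of_disjoint d1]
        exact (hcubic v).le
    rw [← Finset.sum_union d1, ← d3, Finset.sum_image fun a _ b _ h => d2 h]
  let G := grad src tgt
  have hG : ∀ y e, G y e = y (src e) - y (tgt e) := fun y e => rfl
  have hgrad : IsGrad π μ G := by
    intro y y'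
    have a : ∀ v, Lap π μ y' v = ∑ e with src e = v, (y' (src e) - y' (tgt e)) +
        ∑ e with tgt e = v, (y' (tgt e) - y' (src e)) := fun v => by
      have := hloc v fun e => 2 * y' v - y' (src e) - y' (tgt e)
      rw [Finset.sum_congr rfl (g := fun e => y' (src e) - y' (tgt e)) fun e he => by
          rw [(mem_filter.1 he).2]; ring,
        Finset.sum_congr (s₂ := univ.filter fun e => tgt e = v) rfl (g := fun e => y' (tgt e) - y' (src e))
          fun e he => by rw [(mem_filter.1 he).2]; ring] at this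
      rw [this]
      refine Finset.sum_congr rfl fun l _ => ?_
      rcases hed v l with ⟨p, q⟩ | ⟨p, q⟩ <;> rw [p, q] <;> ring
    have b : ∀ (g : E → V) (φ : E → ℝ), ∑ v, y v * ∑ x with g x = v, φ x = ∑ x, y (g x) * φ x :=
      fun g φ => by
        rw [← Finset.sum_fiberwise univ g]
        refine Finset.sum_congr rfl fun v _ => ?_
        rw [Finset.mul_sum]
        exact Finset.sum_congr rfl fun x hx => by rw [(mem_filter.1 hx).2]
    simp only [a, mul_add, Finset.sum_add_distrib, b, hG]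
    rw [← Finset.sum_add_distrib]
    exact Finset.sum_congr rfl fun e _ => by ring
  refine ⟨π, μ, m1, m2, hd, fun v l => ⟨_, hed v l⟩, fun e he => ?_, hgrad, fun σ s1 s2 s3 => ?_⟩
  · obtain ⟨v, rfl⟩ := o3 e he
    have q : π.SameCycle v (π v) := ⟨1, by simp⟩
    rcases o4 v with ⟨a, b⟩ | ⟨a, b⟩ <;> rw [a, b]
    · exact q
    · exact q.symm
  obtain ⟨φ₂, a1, a0, ab⟩ := exists_orientation src tgt F
  let l : E → ℤ := fun e => if e ∈ F then -3 else if σ (tgt e) = 1 then 2 else -3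
  let u : E → ℤ := fun e => if e ∈ F then 3 else if σ (tgt e) = 1 then 3 else -2
  have hσ : ∀ e, e ∉ F → σ (src e) = - σ (tgt e) := fun e he => by
    rw [← (m4 e (mem_compl.2 he)).2.2, s2, neg_neg]
  obtain ⟨φ₄, b1, b2⟩ := hoffman' src tgt (fun _ => 0) (by simp) l u
    (fun e => by simp only [l, u]; split_ifs <;> omega) (fun X => by
      simp only [Finset.sum_const_zero]
      have e1 : ∑ v ∈ X, σ v = ∑ e, if e ∈ F then 0 else
          ((if src e ∈ X then σ (src e) else 0) + (if tgt e ∈ X then σ (tgt e) else 0)) := by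
        have q : ∀ v, σ v = ∑ e, ((if src e = v then (if e ∈ Fᶜ then σ v else 0) else 0) +
            (if tgt e = v then (if e ∈ Fᶜ then σ v else 0) else 0)) := fun v => by
          have := dg_eq src tgt Fᶜ v
          rw [hM] at this
          rw [← mul_one (σ v)]
          nth_rewrite 1 [show (1 : ℤ) = ((1 : ℕ) : ℤ) from rfl, this]
          rw [Finset.mul_sum]
          refine Finset.sum_congr rfl fun e _ => ?_
          split_ifs <;> ring
        rw [Finset.sum_congr rfl fun v _ => q v, Finset.sum_comm]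
        refine Finset.sum_congr rfl fun e _ => ?_
        rw [Finset.sum_add_distrib, Finset.sum_ite_eq, Finset.sum_ite_eq]
        by_cases he : e ∈ F <;> simp [he]
      have e2 : 2 * capOut src tgt l u X + 5 * ∑ v ∈ X, σ v =
          (#{e ∈ Fᶜ | ¬ (src e ∈ X ↔ tgt e ∈ X)} : ℤ) +
            6 * #{e ∈ F | ¬ (src e ∈ X ↔ tgt e ∈ X)} := by
        rw [e1, card_filter, card_filter]
        push_cast
        rw [← Finset.sum_ite_mem_eq F, ← Finset.sum_ite_mem_eq Fᶜ]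
        unfold capOut
        rw [Finset.mul_sum, Finset.mul_sum, Finset.mul_sum, ← Finset.sum_add_distrib,
          ← Finset.sum_add_distrib]
        refine Finset.sum_congr rfl fun e _ => ?_
        by_cases c3 : e ∈ F
        · by_cases c1 : src e ∈ X <;> by_cases c2 : tgt e ∈ X <;> simp [l, u, c1, c2, c3]
        · have q1 := hσ e c3
          rcases s1 (tgt e) with c4 | c4 <;> by_cases c1 : src e ∈ X <;>
            by_cases c2 : tgt e ∈ X <;> simp [l, u, c1, c2, c3, c4, q1]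
      rw [hf, hm] at e2
      have e3 := s3 X
      push_cast at e3
      omega)
  have hs : ∀ e, φ₂ e ≠ 0 ↔ e ∈ F := fun e => by
    by_cases he : e ∈ F
    · have := a1 e he
      simp only [he, iff_true]; omega
    · simp [he, a0 e he]
  refine ⟨φ₂, φ₄, kflow_of_bdry _ _ _ _ (fun e => ?_) fun v => (ab v).2 (by rw [hF' v]; decide),
    kflow_of_bdry _ _ _ _ (fun e => ?_) b2, fun e he => ?_, hs⟩
  · by_cases he : e ∈ F
    · rcases a1 e he with h | h <;> simp [h]
    · simp [a0 e he]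
  · have := b1 e
    simp only [l, u] at this
    rw [abs_le]
    split_ifs at this <;> omega
  · have he' : e ∉ F := fun h => (hs e).2 h he
    have := b1 e
    simp only [l, u, he', if_false] at this
    rw [le_abs]
    split_ifs at this <;> omega
end Pool.Agent.P.MP_e59a69_co
end

-- part Pool.Agent.P.MP_e59a69_co.KMain
section

/-! Flow pairs at constant cyclic connectivity. -/

open Finset Function

namespace Pool.Agent.P.MP_e59a69_co

section
variable {V E : Type} [Fintype V] [Fintype E] [DecidableEq V] {s t : E → V}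

omit [Fintype V] in
lemma kmain_count (h : ∀ v, degIn s t univ v = 3) (X : Finset V) :
    2 * #{e | s e ∈ X ∧ t e ∈ X} + ct s t univ X = 3 * #X := by
  have a2 := kpeel_sum (s := s) (t := t) univ (fun _ => True) (fun _ => True) X
  simp only [and_true] at a2
  have a3 : ∑ v ∈ X, (#{e | s e = v} + #{e | t e = v}) = ∑ _v ∈ X, 3 :=
    Finset.sum_congr rfl fun v _ => h v
  have a4 : ∑ e, ((if s e ∈ X then 1 else 0) + if t e ∈ X then 1 else 0) =
      2 * #{e | s e ∈ X ∧ t e ∈ X} + ct s t univ X := by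
    unfold ct
    rw [card_filter, card_filter, Finset.mul_sum, ← Finset.sum_add_distrib]
    refine Finset.sum_congr rfl fun e _ => ?_
    by_cases a : s e ∈ X <;> by_cases b : t e ∈ X <;> simp [a, b]
  rw [a3, a4, Finset.sum_const, smul_eq_mul] at a2
  omega

omit [Fintype V] in
lemma kmain_word {π μ : Equiv.Perm V} (h : ∀ v l, ∃ e, Jn s t e v (Lt π μ l v)) {n : ℕ}
    {w : Equiv.Perm V} (hw : Wd π μ n w) (u : V) : w u ∈ kball s t univ {u} n := by
  refine Wd.induct (P := fun n w => w u ∈ kball s t univ {u} n) (mem_singleton_self _)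
    (fun n w l ih => ?_) (fun n w ih => ?_) hw
  · obtain ⟨e, he⟩ := h (w u) l
    rw [kball_succ]
    exact mem_nb.2 (Or.inr ⟨e, mem_univ _, _, ih, he⟩)
  · rw [kball_succ]
    exact mem_nb.2 (Or.inl ih)

lemma kmain_seg {π μ : Equiv.Perm V} {c c' m ρ : ℕ} (H : Cub s t c) (H' : Hyp π μ c')
    (hm : 1 ≤ m) (hc : 4 ^ ρ * m + 2 ≤ c) (hc' : m ≤ c') (x : V) (y : V → ℝ) (a β : ℝ)
    (h : ∀ i : ℕ, i < m → (a - (Pw s t)^[ρ] y ((π ^ (i + 1)) x)) ^ 2 ≤ β) :
    (seg π m x y - a) ^ 2 ≤ 2 * (14 / m * En s t y) + 2 * β := by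
  have m0 : (0 : ℝ) < m := by exact_mod_cast hm
  have inj : Set.InjOn (fun i : ℕ => (π ^ (i + 1)) x) (range m : Finset ℕ) := fun i hi j hj e => by
    rw [coe_range, Set.mem_Iio] at hi hj
    have := H'.inj x (s := ((i + 1 : ℕ) : ℤ)) (t := ((j + 1 : ℕ) : ℤ))
      (abs_lt.2 ⟨by omega, by omega⟩) (by rw [zpow_natCast, zpow_natCast]; exact e)
    omega
  have c1 : #((range m).image fun i : ℕ => (π ^ (i + 1)) x) = m := by
    rw [card_image_of_injOn inj, card_range]
  have a1 := Pw_seg H _ (card_pos.1 (by rw [c1]; omega)) ρ (by rw [c1]; exact hc) y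
  rw [c1, Finset.sum_image inj, Finset.sum_image inj] at a1
  have a2 : seg π m x y = (∑ i ∈ range m, y ((π ^ (i + 1)) x)) / m := by
    rw [seg_apply, inv_mul_eq_div]
  have a3 := sq_sum_le_card_mul_sum_sq (s := range m)
    (f := fun i => a - (Pw s t)^[ρ] y ((π ^ (i + 1)) x))
  have a4 := Finset.sum_le_sum fun i (hi : i ∈ range m) => h i (mem_range.1 hi)
  rw [Finset.sum_sub_distrib, Finset.sum_const, card_range, nsmul_eq_mul] at a3
  rw [Finset.sum_const, card_range, nsmul_eq_mul] at a4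
  rw [← a2] at a1
  generalize ∑ i ∈ range m, (Pw s t)^[ρ] y ((π ^ (i + 1)) x) = b at a1 a3
  have a5 : (a - b / m) ^ 2 ≤ β := by
    have e : a - b / m = (m * a - b) / m := by field_simp
    rw [e, div_pow, div_le_iff₀ (by positivity)]
    have := mul_le_mul_of_nonneg_left a4 m0.le
    nlinarith
  nlinarith [sq_nonneg (seg π m x y - b / m + (a - b / m))]

end

theorem const_main : ∃ k : ℕ, ∀ (V E : Type) [Fintype V] [Fintype E] [DecidableEq V]
    [DecidableEq E] (src tgt : E → V), (∀ v, degIn src tgt univ v = 3) →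
    (∀ X : Finset V, #{e | ¬ (src e ∈ X ↔ tgt e ∈ X)} ≠ 1) →
    (∀ X : Finset V, HasCycleIn src tgt X → HasCycleIn src tgt Xᶜ →
      k ≤ #{e | ¬ (src e ∈ X ↔ tgt e ∈ X)}) →
    ∃ φ₂ φ₄ : E → ℤ, IsKFlow src tgt 2 φ₂ ∧ IsKFlow src tgt 4 φ₄ ∧
      ∀ e, φ₂ e = 0 → 2 ≤ |φ₄ e| := by
  obtain ⟨ε0, e0, hlv⟩ := klv1
  obtain ⟨m, hm⟩ := exists_nat_ge (112 / (ε0 / 2) + 2)
  have hm1 : 0 < 112 / (ε0 / 2) := by positivity
  have hm2 : 2 ≤ m := by exact_mod_cast (by linarith : (2 : ℝ) ≤ m)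
  have m0 : (0 : ℝ) < m := by linarith
  have hm3 : 112 / (m : ℝ) ≤ ε0 / 2 := by
    rw [div_le_iff₀ m0, mul_comm, ← div_le_iff₀ (by linarith)]; linarith
  obtain ⟨n, c1, hlv⟩ := hlv m hm2
  obtain ⟨L, k2, hpm⟩ := kpmt
  obtain ⟨ε, c2, e1, hpe⟩ := kpeel (L + 2) (by omega)
  obtain ⟨ρ, c3, hds⟩ := kdsl ε (ε0 / 16) e1 (by linarith) (n + m)
  obtain ⟨c, hc⟩ : ∃ c, c = c1 + c2 + c3 + k2 + m + 4 ^ ρ * m + 2 := ⟨_, rfl⟩
  refine ⟨12 * c + 1, fun V E _ _ _ _ src tgt hcubic hbr hcut => ?_⟩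
  classical
  have hcount := kmain_count hcubic
  have hbr' : ∀ X, ct src tgt univ X ≠ 1 := hbr
  have hcut' : ∀ X, HasCycleIn src tgt X → HasCycleIn src tgt Xᶜ →
    12 * c + 1 ≤ ct src tgt univ X := hcut
  have hsp : ∀ X : Finset V, X.Nonempty → ¬ HasCycleIn src tgt X → #X + 2 ≤ ct src tgt univ X :=
    sparse src tgt hcubic
  have hloop : ∀ e, src e ≠ tgt e := fun e h => by
    have a1 := hcount {src e}
    have a2 : 0 < #{f | src f ∈ ({src e} : Finset V) ∧ tgt f ∈ ({src e} : Finset V)} :=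
      card_pos.2 ⟨e, mem_filter.2 ⟨mem_univ _, mem_singleton_self _, mem_singleton.2 h.symm⟩⟩
    have a3 := hbr' {src e}
    rw [card_singleton] at a1
    omega
  have hcm : ∀ M : Finset E, (∀ v, degIn src tgt M v = 1) → ∀ v, degIn src tgt Mᶜ v = 2 :=
    fun M hM v => by
      have h1 := dg_compl src tgt M v
      have h2 : dg src tgt univ v = 3 := hcubic v
      have h3 : dg src tgt M v = 1 := hM v
      change dg src tgt Mᶜ v = 2
      omega
  by_cases hbig : Fintype.card E ≤ 12 * c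
  · obtain ⟨M, -, hM⟩ := ktut src tgt (fun _ => 1) 3 (by omega) hloop
      (fun v => by rw [← card_eq_sum_ones, ← card_eq_sum_ones]; exact hcubic v) fun X hX => by
        rw [← card_eq_sum_ones]
        have a1 := hcount X
        have a2 := hbr' X
        obtain ⟨j, hj⟩ := hX
        change 3 ≤ ct src tgt univ X
        omega
    obtain ⟨φ₂, φ₄, p1, p2, p3, -⟩ := cubic_main src tgt hcubic Mᶜ (hcm M hM) fun X h1 h2 => by
      have a1 := hcut X h1 h2
      have a2 := card_le_univ ({e | ¬ (src e ∈ X ↔ tgt e ∈ X)} : Finset E)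
      omega
    exact ⟨φ₂, φ₄, p1, p2, p3⟩
  have hV : 8 * c < Fintype.card V := by
    have a1 := hcount univ
    have a2 : ct src tgt univ univ = 0 := by simp [ct]
    simp only [mem_univ, and_self, filter_true, card_univ] at a1
    omega
  have hg : ∀ X, HasCycleIn src tgt X → 2 * c ≤ #X := fun X hX => by
    by_contra hn
    have a1 := hcount X
    have a2 := card_add_card_compl X
    have a3 := hsp Xᶜ (card_pos.1 (by omega)) fun h => by have := hcut' X hX h; omega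
    rw [ct_compl] at a3
    omega
  have hfo : ∀ X, ¬ HasCycleIn src tgt X → Fo src tgt X := fun X hX Z hZ h =>
    hsp Z h fun ⟨C, q1, q2, q3⟩ => hX ⟨C, q1, fun e he => ⟨hZ (q2 e he).1, hZ (q2 e he).2⟩, q3⟩
  have HC : Cub src tgt c := ⟨hcubic, fun X h1 h2 => hsp X h1 fun h => by have := hg X h; omega,
    fun X => by
      by_cases a1 : HasCycleIn src tgt X
      · by_cases a2 : HasCycleIn src tgt Xᶜ
        · exact Or.inl (by have := hcut' X a1 a2; omega)
        · exact Or.inr (Or.inr (hfo _ a2))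
      · exact Or.inr (Or.inl (hfo _ a1))⟩
  obtain ⟨D, Bad, ⟨d0, d1⟩, d2, d3⟩ := hds V E src tgt (HC.mono (by omega))
  obtain ⟨N, p, pe, p1, p2, p3⟩ := hpe V E src tgt (HC.mono (by omega)) Bad d2
  obtain ⟨M, hM, hM'⟩ := hpm V E src tgt hcubic (fun X h => by have := hg X h; omega)
    (fun X h h' => by have := hcut X h h'; omega) N p pe
    (fun i a j b ha hb => p1 i a j b (by omega) (by omega)) fun i a ha => p2 i a (by omega)
  obtain ⟨π, μ, m1, m2, hd, hj, hs, hG, hfl⟩ := perm_model src tgt hcubic hloop Mᶜ (hcm M hM)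
  have hO : ∀ v, fc π {u | π.SameCycle v u} = 0 := fun v => by
    rw [fc, card_eq_zero, filter_eq_empty_iff]
    intro u _
    simp only [mem_filter, mem_univ, true_and, not_not, Equiv.Perm.sameCycle_apply_right]
  have H : Hyp π μ c := by
    refine ⟨m1, m2, fun v t ht htc e => ?_, by omega, fun X h1 h2 => ?_⟩
    · have a : IsPeriodicPt π t.natAbs v := by
        rw [IsPeriodicPt, IsFixedPt, ← Equiv.Perm.coe_pow, ← zpow_natCast]
        rcases Int.natAbs_eq t with h | h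
        · rw [← h, e]
        · apply (π ^ t).injective
          rw [zp_add, e, show t + (t.natAbs : ℤ) = 0 by omega]; rfl
      have b := a.minimalPeriod_le (by omega)
      let O : Finset V := {u | π.SameCycle v u}
      have d : #O ≤ minimalPeriod π v := by
        refine le_trans (card_le_card (t := (range (minimalPeriod π v)).image fun t => π^[t] v)
          fun u hu => ?_) (card_image_le.trans (card_range _).le)
        obtain ⟨t, h1, h2⟩ := exists_iter (mem_filter.1 hu).2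
        exact mem_image.2 ⟨t, mem_range.2 h1, h2⟩
      rw [Int.abs_eq_natAbs] at htc
      have a3 := hsp O ⟨v, mem_filter.2 ⟨mem_univ _, Equiv.Perm.SameCycle.refl _ _⟩⟩
        fun h => by have := hg O h; omega
      have a4 : fc π O = 0 := hO v
      have a5 : mc μ O ≤ #O := card_filter_le _ _
      rw [hd] at a3
      omega
    · rw [← hd]
      refine (HC.cut X).imp id (Or.imp (fun h => h X Subset.rfl h1) fun h => ?_)
      rw [← ct_compl]
      exact h _ Subset.rfl h2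
  have H1 : Hyp π μ c1 := ⟨m1, m2, fun v t h1 h2 => H.len v t h1 (by omega), by omega,
    fun X h1 h2 => (H.cut X h1 h2).imp_left (by omega)⟩
  let γ : (V → ℝ) →ₗ[ℝ] E ⊕ V × V → ℝ := LinearMap.pi (Sum.elim
    (fun e => LinearMap.proj e ∘ₗ grad src tgt) fun q => √(D q) •
      ((LinearMap.proj q.1 : (V → ℝ) →ₗ[ℝ] ℝ) - (LinearMap.proj q.2 : (V → ℝ) →ₗ[ℝ] ℝ)))
  have hG0 : ∀ y, ∑ k, grad src tgt y k ^ 2 = En src tgt y := fun y => rfl
  have hγ : ∀ y, ∑ k, γ y k ^ 2 = En src tgt y + ED D y := fun y => by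
    rw [Fintype.sum_sum_type]
    congr 1
    refine Finset.sum_congr rfl fun q _ => ?_
    change (√(D q) * (y q.1 - y q.2)) ^ 2 = _
    rw [mul_pow, Real.sq_sqrt (d0 q)]
  obtain ⟨σ, s1, s2, s3⟩ := hlv V _ _ π μ (grad src tgt) γ H1 hG
    (fun y => by rw [hG0, hγ]; linarith [ED_nonneg d0 y])
    (fun X => by rw [hγ, En_ind1, ← hd]; linarith [d1 X]) fun v _ => by
      obtain ⟨u, u1, u2⟩ : ∃ u, π.SameCycle v u ∧ u ∉ Bad := by
        by_contra hn
        push Not at hn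
        have := p3 Mᶜ (hcm M hM) (fun i => by
            obtain ⟨a, a1, a2⟩ := hM' i
            exact ⟨a, by omega, fun h => mem_compl.1 h a2⟩) {u | π.SameCycle v u}
          (fun u hu => hn u (mem_filter.1 hu).2) fun e he => by
            simp only [mem_filter, mem_univ, true_and]
            exact ⟨fun h => h.trans (hs e he), fun h => h.trans (hs e he).symm⟩
        exact notMem_empty v (this ▸ mem_filter.2 ⟨mem_univ _, Equiv.Perm.SameCycle.refl _ _⟩)
      refine ⟨u, u1, fun w hw y => ?_⟩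
      have key : ∀ w, Wd π μ n w → (seg π m (w u) y - (Pw src tgt)^[ρ] y u) ^ 2 ≤
          2 * (14 / m * En src tgt y) + 2 * (ε0 / 16 * (En src tgt y + ED D y)) := fun w hw =>
        kmain_seg (ρ := ρ) HC H (by omega) (by omega) (by omega) _ y _ _ fun i hi => by
          have := kmain_word hj ((wd_zpow ((i + 1 : ℕ) : ℤ)).mul hw) u
          rw [zpow_natCast] at this
          exact d3 u u2 _ (kball_mono univ Subset.rfl (by omega) this) y
      have k1 := key w hw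
      have k2 := key 1 (wd_one.mono (by omega))
      rw [Equiv.Perm.one_apply] at k2
      have k3 := mul_le_mul_of_nonneg_right hm3 (En_nonneg src tgt y)
      have k4 := mul_nonneg e0.le (ED_nonneg d0 y)
      have k5 : 112 / (m : ℝ) * En src tgt y = 8 * (14 / m * En src tgt y) := by ring
      rw [hγ]
      nlinarith [sq_nonneg (seg π m (w u) y - (Pw src tgt)^[ρ] y u +
        (seg π m u y - (Pw src tgt)^[ρ] y u))]
  obtain ⟨φ₂, φ₄, q1, q2, q3, -⟩ := hfl σ s1 s2 s3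
  exact ⟨φ₂, φ₄, q1, q2, q3⟩

end Pool.Agent.P.MP_e59a69_co
end

-- part Pool.Agent.P.MP_e59a69_co.GDefs
section

/-! General multigraphs: cyclic sets, forests, tight sets. -/

open Finset Function

namespace Pool.Agent.P.MP_e59a69_co

variable {V E : Type} [Fintype V] [Fintype E] [DecidableEq V] [DecidableEq E]

def HasPair (s t : E → V) : Prop :=
  ∃ φ₂ φ₄ : E → ℤ, (∀ e, |φ₂ e| ≤ 1) ∧ (∀ e, |φ₄ e| ≤ 3) ∧ (∀ v, bdry s t φ₂ v = 0) ∧
    (∀ v, bdry s t φ₄ v = 0) ∧ ∀ e, φ₂ e = 0 → 2 ≤ |φ₄ e|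

/-- at least as many edges as vertices -/
def Cyc (s t : E → V) (Z : Finset V) (C : Finset E) : Prop :=
  Z.Nonempty ∧ (∀ e ∈ C, s e ∈ Z ∧ t e ∈ Z) ∧ #Z ≤ #C

def Cy (s t : E → V) (X : Finset V) : Prop := ∃ Z ⊆ X, ∃ C, Cyc s t Z C

def CycConn (s t : E → V) (k : ℕ) : Prop := ∀ X, Cy s t X → Cy s t Xᶜ → k ≤ ct s t univ X

def Atv (s t : E → V) (v : V) : Finset E := {e | s e = v ∨ t e = v}

def oth (s t : E → V) (v : V) (e : E) : V := if s e = v then t e else s e

def dsum (s t : E → V) (X : Finset V) : ℕ := ∑ v ∈ X, dg s t univ v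

variable {s t : E → V}

omit [Fintype V] [Fintype E] [DecidableEq V] [DecidableEq E] in
lemma Cy.mono {X Y : Finset V} (h : Cy s t X) (hXY : X ⊆ Y) : Cy s t Y :=
  let ⟨Z, a, b⟩ := h
  ⟨Z, a.trans hXY, b⟩

omit [Fintype V] [Fintype E] [DecidableEq E] in
lemma sum_dg (s t : E → V) (C : Finset E) (X : Finset V) :
    ∑ v ∈ X, dg s t C v = #{e ∈ C | s e ∈ X} + #{e ∈ C | t e ∈ X} := by
  unfold dg
  rw [sum_add_distrib, sum_card_fiberwise_eq_card_filter, sum_card_fiberwise_eq_card_filter]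

omit [Fintype V] [DecidableEq E] in
lemma dsum_eq (s t : E → V) (X : Finset V) :
    dsum s t X = ct s t univ X + 2 * #{e | s e ∈ X ∧ t e ∈ X} := by
  unfold dsum ct
  rw [sum_dg]
  simp only [card_filter]
  rw [mul_sum, ← sum_add_distrib, ← sum_add_distrib]
  refine sum_congr rfl fun e _ => ?_
  by_cases a : s e ∈ X <;> by_cases b : t e ∈ X <;> simp [a, b]

omit [Fintype V] [DecidableEq E] in
lemma forest_ds {X : Finset V} (h : ¬ Cy s t X) (hX : X.Nonempty) :
    dsum s t X + 2 ≤ ct s t univ X + 2 * #X := by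
  have : ¬ #X ≤ #{e | s e ∈ X ∧ t e ∈ X} := fun q =>
    h ⟨X, subset_rfl, _, hX, fun e he => (mem_filter.1 he).2, q⟩
  rw [dsum_eq]
  omega

omit [Fintype V] [DecidableEq E] in
lemma forest_ds' {X : Finset V} (h : ¬ Cy s t X) : dsum s t X ≤ ct s t univ X + 2 * #X := by
  rcases X.eq_empty_or_nonempty with rfl | hX
  · simp [dsum]
  · have := forest_ds h hX
    omega

omit [Fintype V] [DecidableEq E] in
lemma three_le_ds (h3 : ∀ v, 3 ≤ dg s t univ v) (X : Finset V) : 3 * #X ≤ dsum s t X := by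
  rw [mul_comm, ← smul_eq_mul]
  exact card_nsmul_le_sum _ _ _ fun v _ => h3 v

omit [Fintype V] [DecidableEq E] in
lemma hub_le_ds (h3 : ∀ v, 3 ≤ dg s t univ v) {X : Finset V} {u : V} (hu : u ∈ X) :
    3 * #X + dg s t univ u ≤ dsum s t X + 3 := by
  have a := three_le_ds h3 (X.erase u)
  have b : dg s t univ u + dsum s t (X.erase u) = dsum s t X := add_sum_erase X _ hu
  have c := card_erase_add_one hu
  omega

omit [DecidableEq E] in
lemma no_one (h3 : ∀ v, 3 ≤ dg s t univ v) (hc : CycConn s t 2) (X : Finset V) :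
    ct s t univ X ≠ 1 := fun h1 => by
  obtain ⟨e, he⟩ := card_pos.1 (show 0 < ct s t univ X by omega)
  have he' := (mem_filter.1 he).2
  have a1 : ∀ Y : Finset V, Y.Nonempty → ct s t univ Y = 1 → Cy s t Y := fun Y p q => by
    by_contra hn
    have := forest_ds hn p
    have := three_le_ds h3 Y
    omega
  have b1 : X.Nonempty := by
    by_cases h : s e ∈ X
    · exact ⟨_, h⟩
    · exact ⟨t e, by tauto⟩
  have b2 : Xᶜ.Nonempty := by
    by_cases h : s e ∈ X
    · exact ⟨t e, mem_compl.2 (by tauto)⟩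
    · exact ⟨_, mem_compl.2 h⟩
  have := hc X (a1 X b1 h1) (a1 _ b2 (by rw [ct_compl]; exact h1))
  omega

omit [Fintype V] [Fintype E] [DecidableEq E] in
lemma cy_of_cycle {X : Finset V} (h : HasCycleIn s t X) : Cy s t X := by
  obtain ⟨C, ⟨e0, h0⟩, h1, h2⟩ := h
  have p : ∀ e ∈ C, 0 < dg s t C (s e) ∧ 0 < dg s t C (t e) := fun e he =>
    ⟨Nat.add_pos_left (card_pos.2 ⟨e, by simp [he]⟩) _,
      Nat.add_pos_right _ (card_pos.2 ⟨e, by simp [he]⟩)⟩
  have q : ∀ e ∈ C, s e ∈ X.filter (fun v => 0 < dg s t C v) ∧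
      t e ∈ X.filter (fun v => 0 < dg s t C v) := fun e he =>
    ⟨mem_filter.2 ⟨(h1 e he).1, (p e he).1⟩, mem_filter.2 ⟨(h1 e he).2, (p e he).2⟩⟩
  refine ⟨_, filter_subset _ _, C, ⟨_, (q e0 h0).1⟩, q, ?_⟩
  have a := sum_dg s t C (X.filter fun v => 0 < dg s t C v)
  rw [filter_true_of_mem (s := C) fun e he => (q e he).1,
    filter_true_of_mem (s := C) fun e he => (q e he).2] at a
  have b := card_nsmul_le_sum (X.filter fun v => 0 < dg s t C v) (fun x => dg s t C x) 2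
    fun v hv => by
    have a : dg s t C v = 0 ∨ dg s t C v = 2 := h2 v
    have := (mem_filter.1 hv).2
    omega
  rw [smul_eq_mul] at b
  omega

omit [Fintype V] [Fintype E] [DecidableEq E] in
/-- removing a vertex of degree at most one -/
lemma Cyc.strip {Z : Finset V} {C : Finset E} (h : Cyc s t Z C) {v : V} (hv : v ∈ Z)
    (hd : dg s t C v ≤ 1) : Cyc s t (Z.erase v) {e ∈ C | s e ≠ v ∧ t e ≠ v} := by
  have a : #C ≤ #{e ∈ C | s e ≠ v ∧ t e ≠ v} + dg s t C v := by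
    unfold dg
    conv_lhs => rw [card_eq_sum_ones]
    simp only [card_filter]
    rw [← sum_add_distrib, ← sum_add_distrib]
    refine sum_le_sum fun e _ => ?_
    by_cases a : s e = v <;> by_cases b : t e = v <;> simp [a, b]
  have b := card_erase_add_one hv
  have c := h.2.2
  refine ⟨?_, fun e he => ?_, by omega⟩
  · rw [nonempty_iff_ne_empty]
    intro q
    have q1 : ∀ x ∈ Z, x = v := fun x hx => by
      by_contra hn
      exact notMem_empty x (q ▸ mem_erase.2 ⟨hn, hx⟩)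
    unfold dg at hd
    rw [filter_true_of_mem fun e he => q1 _ (h.2.1 e he).1,
      filter_true_of_mem fun e he => q1 _ (h.2.1 e he).2] at hd
    omega
  · obtain ⟨p, q, r⟩ := mem_filter.1 he
    exact ⟨mem_erase.2 ⟨q, (h.2.1 e p).1⟩, mem_erase.2 ⟨r, (h.2.1 e p).2⟩⟩

omit [Fintype V] [Fintype E] in
lemma cycle_of_cyc : ∀ (n : ℕ) (Z : Finset V) (C : Finset E), #Z + #C = n → Cyc s t Z C →
    HasCycleIn s t Z := by
  intro n
  induction n using Nat.strong_induction_on with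
  | _ n ih =>
  intro Z C hn h
  by_cases a : ∃ v ∈ Z, dg s t C v ≤ 1
  · obtain ⟨v, hv, hd⟩ := a
    have b := card_erase_add_one hv
    have c := card_filter_le C fun e => s e ≠ v ∧ t e ≠ v
    obtain ⟨D, d1, d2, d3⟩ := ih _ (by omega) _ _ rfl (h.strip hv hd)
    exact ⟨D, d1, fun e he => ⟨mem_of_mem_erase (d2 e he).1, mem_of_mem_erase (d2 e he).2⟩, d3⟩
  push Not at a
  have hZ := card_pos.2 h.1
  have hC := h.2.2
  obtain ⟨e0, h0⟩ := card_pos.1 (show 0 < #C by omega)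
  by_cases b : #Z < #C
  · have c := card_erase_add_one h0
    exact ih _ (by omega) Z (C.erase e0) rfl
      ⟨h.1, fun e he => h.2.1 e (mem_of_mem_erase he), by omega⟩
  refine ⟨C, ⟨e0, h0⟩, h.2.1, fun v => ?_⟩
  by_cases hv : v ∈ Z
  · have c := sum_dg s t C Z
    rw [filter_true_of_mem (s := C) fun e he => (h.2.1 e he).1,
      filter_true_of_mem (s := C) fun e he => (h.2.1 e he).2, ← add_sum_erase Z _ hv] at c
    have d := card_nsmul_le_sum (Z.erase v) (fun x => dg s t C x) 2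
      fun x hx => a x (mem_of_mem_erase hx)
    have e := card_erase_add_one hv
    have f := a v hv
    rw [smul_eq_mul] at d
    exact Or.inr (show dg s t C v = 2 by omega)
  · left
    unfold degIn
    rw [filter_eq_empty_iff.2 fun e he (q : s e = v) => hv (q ▸ (h.2.1 e he).1),
      filter_eq_empty_iff.2 fun e he (q : t e = v) => hv (q ▸ (h.2.1 e he).2)]
    rfl

omit [Fintype V] [Fintype E] in
lemma cycle_of_cy {X : Finset V} (h : Cy s t X) : HasCycleIn s t X := by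
  obtain ⟨Z, a, C, b⟩ := h
  obtain ⟨D, d1, d2, d3⟩ := cycle_of_cyc _ Z C rfl b
  exact ⟨D, d1, fun e he => ⟨a (d2 e he).1, a (d2 e he).2⟩, d3⟩

omit [Fintype V] [DecidableEq E] in
lemma card_Atv (hl : ∀ e, s e ≠ t e) (v : V) : #(Atv s t v) = dg s t univ v := by
  unfold Atv dg
  simp only [card_filter]
  rw [← sum_add_distrib]
  refine sum_congr rfl fun e _ => ?_
  have := hl e
  by_cases a : s e = v <;> by_cases b : t e = v <;> simp [a, b] at this ⊢

omit [Fintype V] [DecidableEq E] in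
lemma oth_spec (hl : ∀ e, s e ≠ t e) {v : V} {e : E} (he : e ∈ Atv s t v) :
    oth s t v e ≠ v ∧ ((s e = v ∧ t e = oth s t v e) ∨ (t e = v ∧ s e = oth s t v e)) := by
  have a := (mem_filter.1 he).2
  have b := hl e
  unfold oth
  split_ifs with h
  · exact ⟨fun q => b (h.trans q.symm), Or.inl ⟨h, rfl⟩⟩
  · exact ⟨h, Or.inr ⟨by tauto, rfl⟩⟩

omit [Fintype V] [DecidableEq E] in
lemma ct_submod (X Y : Finset V) :
    ct s t univ (X ∩ Y) + ct s t univ (X ∪ Y) ≤ ct s t univ X + ct s t univ Y := by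
  unfold ct
  simp only [card_filter]
  rw [← sum_add_distrib, ← sum_add_distrib]
  refine sum_le_sum fun e _ => ?_
  by_cases a : s e ∈ X <;> by_cases b : t e ∈ X <;> by_cases c : s e ∈ Y <;>
    by_cases d : t e ∈ Y <;> simp [a, b, c, d]

omit [Fintype V] in
lemma ct_posi {X Y : Finset V} {e : E} {v x : V} (he : (s e = v ∧ t e = x) ∨ (t e = v ∧ s e = x))
    (h1 : v ∉ X) (h2 : v ∉ Y) (h3 : x ∈ X) (h4 : x ∈ Y) :
    ct s t univ (X \ Y) + ct s t univ (Y \ X) + 2 ≤ ct s t univ X + ct s t univ Y := by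
  unfold ct
  simp only [card_filter]
  have key : 2 = ∑ a, if a = e then 2 else 0 := by simp
  rw [key, ← sum_add_distrib, ← sum_add_distrib, ← sum_add_distrib]
  refine sum_le_sum fun a _ => ?_
  by_cases q : a = e
  · subst q
    rcases he with ⟨p, q⟩ | ⟨p, q⟩ <;> simp [p, q, h1, h2, h3, h4]
  · by_cases a1 : s a ∈ X <;> by_cases b : t a ∈ X <;> by_cases c : s a ∈ Y <;>
      by_cases d : t a ∈ Y <;> simp [a1, b, c, d, q]

/-- a cyclic cut of minimum size that avoids `v` -/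
def Tgt (s t : E → V) (k : ℕ) (v : V) (X : Finset V) : Prop :=
  v ∉ X ∧ ct s t univ X ≤ k ∧ Cy s t X ∧ Cy s t Xᶜ

lemma Tgt.union {k : ℕ} (hc : CycConn s t k) (hw : ∀ X, Cy s t X → 2 * #X + 4 * k < dsum s t X)
    {X Y : Finset V} {e : E} {v x : V} (he : (s e = v ∧ t e = x) ∨ (t e = v ∧ s e = x))
    (hX : Tgt s t k v X) (hY : Tgt s t k v Y) (h3 : x ∈ X) (h4 : x ∈ Y) : Tgt s t k v (X ∪ Y) := by
  have a1 := ct_submod (s := s) (t := t) X Y
  have a2 := ct_posi he hX.1 hY.1 h3 h4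
  have a3 := hX.2.1
  have a4 := hY.2.1
  have a5 := ct_compl s t univ (X ∪ Y)
  have two : ∀ A B S : Finset V, Disjoint A B → S = A ∪ B → Cy s t S → ct s t univ A ≤ 2 * k →
      ct s t univ B ≤ 2 * k → Cy s t A ∨ Cy s t B := fun A B S d q c p1 p2 => by
    by_contra hn
    have b1 := forest_ds' (not_or.1 hn).1
    have b2 := forest_ds' (not_or.1 hn).2
    have b3 := hw S c
    have b4 : dsum s t S = dsum s t A + dsum s t B := by rw [q]; exact sum_union d
    have b5 : #S = #A + #B := by rw [q]; exact card_union_of_disjoint d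
    omega
  have c1 := two (X ∩ Y) (X \ Y) X (by simp +contextual [disjoint_left])
    (by ext; simp; tauto) hX.2.2.1 (by omega) (by omega)
  have c2 := two (X ∩ Y) (Y \ X) Y (by simp +contextual [disjoint_left])
    (by ext; simp; tauto) hY.2.2.1 (by omega) (by omega)
  have c3 := two (X ∪ Y)ᶜ (Y \ X) Xᶜ (by simp +contextual [disjoint_left])
    (by ext; simp; tauto) hX.2.2.2 (by omega) (by omega)
  have c4 := two (X ∪ Y)ᶜ (X \ Y) Yᶜ (by simp +contextual [disjoint_left])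
    (by ext; simp; tauto) hY.2.2.2 (by omega) (by omega)
  have d : ¬ (Cy s t (X \ Y) ∧ Cy s t (Y \ X)) := fun ⟨p, q⟩ => by
    have := hc _ p (q.mono fun z => by simp +contextual)
    have := hc _ q (p.mono fun z => by simp +contextual)
    omega
  have e1 : Cy s t (X ∩ Y) := by tauto
  have e2 : Cy s t (X ∪ Y)ᶜ := by tauto
  have := hc _ e1 (e2.mono fun z => by simp +contextual)
  exact ⟨by simp [hX.1, hY.1], by omega, hX.2.2.1.mono subset_union_left, e2⟩

lemma tight {k : ℕ} (hl : ∀ e, s e ≠ t e) (hc : CycConn s t k)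
    (hw : ∀ X, Cy s t X → 2 * #X + 4 * k < dsum s t X) {v : V} (hv : 2 ≤ dg s t univ v) {e : E}
    (he : e ∈ Atv s t v) : ∃ B : Finset E, e ∈ B ∧ #B ≤ k + 1 ∧ (∃ f ∈ Atv s t v, f ∉ B) ∧
      ∀ f ∈ Atv s t v, f ∉ B → ∀ X, Tgt s t k v X → oth s t v e ∈ X → oth s t v f ∉ X := by
  classical
  by_cases h0 : ∃ X, Tgt s t k v X ∧ oth s t v e ∈ X
  swap
  · refine ⟨{e}, mem_singleton_self e, by simp, ?_, fun f _ _ X a b => (h0 ⟨X, a, b⟩).elim⟩
    obtain ⟨f, a, b⟩ := exists_mem_ne (show 1 < #(Atv s t v) by rw [card_Atv hl]; omega) e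
    exact ⟨f, a, by simpa using b⟩
  obtain ⟨M, hM, hmax⟩ := exists_max_image {X | Tgt s t k v X ∧ oth s t v e ∈ X} card
    (let ⟨X, h⟩ := h0; ⟨X, by simpa using h⟩)
  obtain ⟨m1, m2⟩ := (mem_filter.1 hM).2
  have cut : ∀ f ∈ Atv s t v, oth s t v f ∈ M → ¬ (s f ∈ M ↔ t f ∈ M) := fun f a b => by
    have := m1.1
    rcases (oth_spec hl a).2 with ⟨p, q⟩ | ⟨p, q⟩ <;> rw [p, q] <;> tauto
  refine ⟨{f ∈ Atv s t v | oth s t v f ∈ M}, mem_filter.2 ⟨he, m2⟩, ?_, ?_, fun f a b X c d q => ?_⟩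
  · refine le_trans (card_le_card fun f hf => ?_) (m1.2.1.trans k.le_succ)
    exact mem_filter.2 ⟨mem_univ _, cut f (mem_filter.1 hf).1 (mem_filter.1 hf).2⟩
  · by_contra hn
    push Not at hn
    have all : ∀ f ∈ Atv s t v, oth s t v f ∈ M := fun f a => (mem_filter.1 (hn f a)).2
    have c1 : Cy s t (insert v M)ᶜ := by
      obtain ⟨Z, z1, C, z2⟩ := m1.2.2.2
      have z3 : ∀ a ∈ C, s a ≠ v ∧ t a ≠ v := fun a ha => by
        by_contra hn
        have b : a ∈ Atv s t v := mem_filter.2 ⟨mem_univ _, by tauto⟩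
        exact cut a b (all a b) (iff_of_false (mem_compl.1 (z1 (z2.2.1 a ha).1))
          (mem_compl.1 (z1 (z2.2.1 a ha).2)))
      obtain ⟨a, ha⟩ := card_pos.1 ((card_pos.2 z2.1).trans_le z2.2.2)
      have z4 : ∀ a ∈ C, s a ∈ Z.erase v ∧ t a ∈ Z.erase v := fun a ha =>
        ⟨mem_erase.2 ⟨(z3 a ha).1, (z2.2.1 a ha).1⟩, mem_erase.2 ⟨(z3 a ha).2, (z2.2.1 a ha).2⟩⟩
      refine ⟨Z.erase v, fun z hz => ?_, C, ⟨_, (z4 a ha).1⟩, z4, card_erase_le.trans z2.2.2⟩
      have := mem_compl.1 (z1 (mem_of_mem_erase hz))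
      simp [this, (mem_erase.1 hz).1]
    have c2 := hc _ (m1.2.2.1.mono (subset_insert v M)) c1
    have c3 : ct s t univ (insert v M) < ct s t univ M := by
      refine card_lt_card ⟨fun a ha => ?_, fun q => ?_⟩
      · have ha' := (mem_filter.1 ha).2
        refine mem_filter.2 ⟨mem_univ _, ?_⟩
        by_cases b : a ∈ Atv s t v
        · exact cut a b (all a b)
        · have b' : ¬ (s a = v ∨ t a = v) := fun q => b (mem_filter.2 ⟨mem_univ _, q⟩)
          simp only [mem_insert] at ha'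
          tauto
      · have := (mem_filter.1 (q (mem_filter.2 ⟨mem_univ _, cut e he m2⟩))).2
        rcases (oth_spec hl he).2 with ⟨p, q⟩ | ⟨p, q⟩ <;> simp [p, q, m2] at this
    have := m1.2.1
    omega
  · have u := Tgt.union hc hw (oth_spec hl he).2 m1 c m2 d
    have := hmax (M ∪ X) (mem_filter.2 ⟨mem_univ _, u, mem_union_left _ m2⟩)
    have r := eq_of_subset_of_card_le subset_union_left this
    exact b (mem_filter.2 ⟨a, r ▸ mem_union_right _ q⟩)

end Pool.Agent.P.MP_e59a69_co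
end

-- part Pool.Agent.P.MP_e59a69_co.GPull
section

/-! Pulling two edges out of a vertex. -/

open Finset Function

namespace Pool.Agent.P.MP_e59a69_co

variable {V E : Type} [Fintype V] [Fintype E] [DecidableEq V] [DecidableEq E]

def mv (s : E → V) (v : V) (P : Finset E) (a : E) : Option V :=
  if a ∈ P ∧ s a = v then none else some (s a)

def ps (s : E → V) (v : V) (P : Finset E) (o : Option E) : Option V := o.elim none (mv s v P)

def pt (t : E → V) (v : V) (P : Finset E) (o : Option E) : Option V := o.elim (some v) (mv t v P)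

structure PO (s t : E → V) (v : V) (P : Finset E) : Prop where
  lp : ∀ e, s e ≠ t e
  sub : P ⊆ Atv s t v
  two : #P = 2

variable {s t : E → V} {v : V} {P : Finset E}

omit [Fintype V] [Fintype E] in
lemma mv_getD (s : E → V) (a : E) : (mv s v P a).getD v = s a := by
  unfold mv
  split_ifs with h
  · exact h.2.symm
  · rfl

omit [Fintype V] [Fintype E] in
lemma mv_some {a : E} (h : a ∉ P ∨ s a ≠ v) : mv s v P a = some (s a) := if_neg (by tauto)

omit [Fintype V] [Fintype E] in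
lemma mv_mem {a : E} {Z : Finset (Option V)} (h : a ∉ P ∨ s a ≠ v) (q : mv s v P a ∈ Z) :
    s a ∈ Z.eraseNone := mem_eraseNone.2 (mv_some h ▸ q)

omit [Fintype V] [Fintype E] in
lemma mv_none {a : E} (h : a ∈ P) (h' : s a = v) : mv s v P a = none := if_pos ⟨h, h'⟩

lemma pair_pull (h : HasPair (ps s v P) (pt t v P)) : HasPair s t := by
  have key : ∀ φ : Option E → ℤ, (∀ x, bdry (ps s v P) (pt t v P) φ x = 0) →
      ∀ x, bdry s t (fun e => φ (some e)) x = 0 := fun φ hφ x => by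
    have a := sum_bdry (ps s v P) (pt t v P) φ {o | o.getD v = x}
    rw [sum_eq_zero fun x _ => hφ x, Fintype.sum_option] at a
    simpa [ps, pt, mv_getD, bdry] using a.symm
  obtain ⟨φ, ψ, a, b, c, d, e⟩ := h
  exact ⟨fun e => φ (some e), fun e => ψ (some e), fun _ => a _, fun _ => b _, key φ c, key ψ d,
    fun _ => e _⟩

omit [Fintype V] in
lemma PO.loop (H : PO s t v P) : ∀ o, ps s v P o ≠ pt t v P o := by
  rintro (_ | a)
  · simp [ps, pt]
  · intro q
    have : (mv s v P a).getD v = (mv t v P a).getD v := congrArg (·.getD v) q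
    rw [mv_getD, mv_getD] at this
    exact H.lp a this

omit [Fintype V] in
lemma dg_sum (s t : E → V) (C : Finset E) (x : V) : dg s t C x =
    ∑ a, ((if a ∈ C ∧ s a = x then 1 else 0) + if a ∈ C ∧ t a = x then 1 else 0) := by
  unfold dg
  rw [sum_add_distrib, ← card_filter, ← card_filter]
  congr 2 <;> ext <;> simp

omit [Fintype V] in
lemma dg_pull_ne (F : Finset (Option E)) {x : V} (hx : x ≠ v) :
    dg (ps s v P) (pt t v P) F (some x) = dg s t F.eraseNone x := by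
  rw [dg_sum, dg_sum, Fintype.sum_option]
  have : ∀ (s : E → V) a, mv s v P a = some x ↔ s a = x := fun s a => by
    unfold mv
    split_ifs with h
    · simp [h.2, hx.symm]
    · simp
  simp [ps, pt, this, hx.symm]

omit [Fintype V] in
lemma dg_pull (F : Finset (Option E)) :
    dg (ps s v P) (pt t v P) F none + dg (ps s v P) (pt t v P) F (some v) =
      dg s t F.eraseNone v + if none ∈ F then 2 else 0 := by
  rw [dg_sum, dg_sum, dg_sum, ← sum_add_distrib, Fintype.sum_option, add_comm]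
  congr 1
  · refine sum_congr rfl fun a _ => ?_
    by_cases a1 : a ∈ P <;> by_cases a2 : s a = v <;> by_cases a3 : t a = v <;>
      by_cases a4 : some a ∈ F <;> simp [ps, pt, mv, a1, a2, a3, a4]
  · by_cases a4 : none ∈ F <;> simp [ps, pt, a4]

omit [Fintype V] in
lemma PO.dg_none (H : PO s t v P) : dg (ps s v P) (pt t v P) univ none = 3 := by
  have : 3 = 1 + ∑ a, if a ∈ P then 1 else 0 := by simp [H.two]
  rw [dg_sum, Fintype.sum_option, this]
  congr 1
  · simp [ps, pt]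
  refine sum_congr rfl fun a _ => ?_
  by_cases a1 : a ∈ P
  · have b := H.lp a
    have c := (mem_filter.1 (H.sub a1)).2
    by_cases a2 : s a = v <;> by_cases a3 : t a = v <;> simp [ps, pt, mv, a1, a2, a3] at b c ⊢
  · simp [ps, pt, mv, a1]

omit [DecidableEq E] in
lemma eraseNone_univ' : (univ : Finset (Option E)).eraseNone = univ := by ext; simp

omit [Fintype V] in
lemma PO.dg_v (H : PO s t v P) : dg (ps s v P) (pt t v P) univ (some v) + 1 = dg s t univ v := by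
  have a := dg_pull (s := s) (t := t) (v := v) (P := P) univ
  rw [H.dg_none, eraseNone_univ', if_pos (mem_univ _)] at a
  omega

omit [Fintype V] in
lemma dg_pull_ne' {x : V} (hx : x ≠ v) :
    dg (ps s v P) (pt t v P) univ (some x) = dg s t univ x := by
  rw [dg_pull_ne _ hx, eraseNone_univ']

omit [Fintype V] in
lemma PO.three (H : PO s t v P) (h3 : ∀ x, 3 ≤ dg s t univ x) (h4 : 4 ≤ dg s t univ v) :
    ∀ o, 3 ≤ dg (ps s v P) (pt t v P) univ o := by
  rintro (_ | x)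
  · exact H.dg_none.ge
  · by_cases hx : x = v
    · have := H.dg_v
      rw [hx]
      omega
    · rw [dg_pull_ne' hx]
      exact h3 x

omit [Fintype V] in
lemma ct_pull {X : Finset (Option V)} (h : none ∈ X ↔ some v ∈ X) :
    ct (ps s v P) (pt t v P) univ X = ct s t univ X.eraseNone := by
  have : ∀ (s : E → V) a, mv s v P a ∈ X ↔ some (s a) ∈ X := fun s a => by
    unfold mv
    split_ifs with q
    · rw [q.2, h]
    · rfl
  unfold ct
  simp only [card_filter]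
  rw [Fintype.sum_option]
  simp [ps, pt, this, h]

omit [Fintype V] in
lemma PO.ct_sep (H : PO s t v P) {X : Finset (Option V)} (h : none ∈ X) (h' : some v ∉ X) :
    ct (ps s v P) (pt t v P) univ X + 2 * #{a ∈ P | oth s t v a ∈ X.eraseNone} =
      ct s t univ X.eraseNone + 3 := by
  have a : 3 = 1 + ∑ a, if a ∈ P then 1 else 0 := by simp [H.two]
  have b : #{a ∈ P | oth s t v a ∈ X.eraseNone} =
      ∑ a, if a ∈ P ∧ oth s t v a ∈ X.eraseNone then 1 else 0 := by
    rw [← card_filter]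
    congr 1
    ext
    simp
  rw [a, b]
  unfold ct
  simp only [card_filter]
  rw [Fintype.sum_option, mul_sum, add_assoc, ← sum_add_distrib, add_left_comm, ← sum_add_distrib]
  congr 1
  · simp [ps, pt, h, h']
  refine sum_congr rfl fun a _ => ?_
  by_cases a1 : a ∈ P
  · obtain ⟨c, ⟨p, q⟩ | ⟨p, q⟩⟩ := oth_spec H.lp (H.sub a1) <;>
      by_cases a2 : some (oth s t v a) ∈ X <;> simp [ps, pt, mv, a1, p, q, c, a2, h, h']
  · simp [ps, pt, mv, a1]

omit [Fintype V] in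
lemma PO.ne (H : PO s t v P) {Z : Finset (Option V)} {C : Finset (Option E)}
    (h : Cyc (ps s v P) (pt t v P) Z C) : Z.eraseNone.Nonempty := by
  obtain ⟨o, ho⟩ := card_pos.1 ((card_pos.2 h.1).trans_le h.2.2)
  obtain ⟨a, b⟩ := h.2.1 o ho
  rcases o with _ | e
  · exact ⟨v, mem_eraseNone.2 b⟩
  · by_cases c : s e = v
    · exact ⟨t e, mv_mem (Or.inr fun q => H.lp e (c.trans q.symm)) b⟩
    · exact ⟨s e, mv_mem (Or.inr c) a⟩

omit [Fintype V] in
lemma PO.c1 (H : PO s t v P) {Z : Finset (Option V)} {C : Finset (Option E)}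
    (h : Cyc (ps s v P) (pt t v P) Z C) (h1 : none ∉ Z) :
    Cyc s t Z.eraseNone C.eraseNone ∧ Disjoint C.eraseNone P := by
  have d : ∀ a ∈ C.eraseNone, a ∉ P := fun a ha q => by
    obtain ⟨b, c⟩ := h.2.1 _ (mem_eraseNone.1 ha)
    rcases (mem_filter.1 (H.sub q)).2 with p | p
    · exact h1 (mv_none q p ▸ b)
    · exact h1 (mv_none q p ▸ c)
  refine ⟨⟨H.ne h, fun a ha => ?_, ?_⟩, disjoint_left.2 d⟩
  · obtain ⟨b, c⟩ := h.2.1 _ (mem_eraseNone.1 ha)
    exact ⟨mv_mem (Or.inl (d a ha)) b, mv_mem (Or.inl (d a ha)) c⟩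
  · rw [card_eraseNone_of_not_mem h1, card_eraseNone_of_not_mem fun q => h1 (h.2.1 _ q).1]
    exact h.2.2

omit [Fintype V] in
lemma PO.c2 (H : PO s t v P) {Z : Finset (Option V)} {C : Finset (Option E)}
    (h : Cyc (ps s v P) (pt t v P) Z C) (h1 : none ∈ Z) (h2 : some v ∈ Z) :
    Cyc s t Z.eraseNone C.eraseNone := by
  have key : ∀ (s : E → V) a, mv s v P a ∈ Z → s a ∈ Z.eraseNone := fun s a q => by
    unfold mv at q
    split_ifs at q with p
    · exact mem_eraseNone.2 (p.2 ▸ h2)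
    · exact mem_eraseNone.2 q
  refine ⟨H.ne h, fun a ha => ?_, ?_⟩
  · obtain ⟨b, c⟩ := h.2.1 _ (mem_eraseNone.1 ha)
    exact ⟨key s a b, key t a c⟩
  · have a := h.2.2
    rw [card_eraseNone_of_mem h1]
    by_cases q : none ∈ C
    · rw [card_eraseNone_of_mem q]
      omega
    · rw [card_eraseNone_of_not_mem q]
      omega

/-- a tree through the other ends of the edges of `P` -/
def Tr (s t : E → V) (v : V) (P : Finset E) (Z : Finset V) : Prop :=
  (∀ a ∈ P, oth s t v a ∈ Z) ∧ ∃ C : Finset E, (∀ e ∈ C, s e ∈ Z ∧ t e ∈ Z) ∧ #Z ≤ #C + 1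

omit [Fintype V] in
lemma PO.c3 (H : PO s t v P) {Z : Finset (Option V)} {C : Finset (Option E)}
    (h : Cyc (ps s v P) (pt t v P) Z C) (h1 : none ∈ Z) (h2 : some v ∉ Z) :
    (∃ D, Cyc s t Z.eraseNone D) ∨ Tr s t v P Z.eraseNone := by
  have a := h.2.2
  have b := card_eraseNone_of_mem h1
  have c := card_eraseNone_of_not_mem fun q => h2 (h.2.1 _ q).2
  have d := card_sdiff_add_card_inter C.eraseNone P
  have e := card_pos.2 h.1
  have f : ∀ a ∈ C.eraseNone \ P, s a ∈ Z.eraseNone ∧ t a ∈ Z.eraseNone := fun a ha => by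
    obtain ⟨p, q⟩ := mem_sdiff.1 ha
    obtain ⟨b, c⟩ := h.2.1 _ (mem_eraseNone.1 p)
    exact ⟨mv_mem (Or.inl q) b, mv_mem (Or.inl q) c⟩
  have g := H.two
  have i := card_le_card (inter_subset_right : C.eraseNone ∩ P ⊆ P)
  by_cases q : #P ≤ #(C.eraseNone ∩ P)
  · refine Or.inr ⟨fun a ha => ?_, _, f, by omega⟩
    rw [← eq_of_subset_of_card_le inter_subset_right q] at ha
    obtain ⟨b, c⟩ := h.2.1 _ (mem_eraseNone.1 (mem_inter.1 ha).1)
    obtain ⟨c', ⟨p, q⟩ | ⟨p, q⟩⟩ := oth_spec H.lp (H.sub (mem_inter.1 ha).2)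
    · exact q ▸ mv_mem (Or.inr (q ▸ c')) c
    · exact q ▸ mv_mem (Or.inr (q ▸ c')) b
  · exact Or.inl ⟨_, H.ne h, f, by omega⟩

omit [Fintype V] in
lemma PO.tree (H : PO s t v P) {Z : Finset V} (hv : v ∉ Z) (h : Tr s t v P Z) :
    ∃ D, Cyc s t (insert v Z) D := by
  obtain ⟨a, C, b, c⟩ := h
  refine ⟨C ∪ P, insert_nonempty _ _, fun e he => ?_, ?_⟩
  · rcases mem_union.1 he with q | q
    · exact ⟨mem_insert_of_mem (b e q).1, mem_insert_of_mem (b e q).2⟩
    · rcases (oth_spec H.lp (H.sub q)).2 with ⟨p, r⟩ | ⟨p, r⟩ <;> simp [p, r, a e q]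
  · rw [card_union_of_disjoint, card_insert_of_notMem hv, H.two]
    · omega
    · refine disjoint_left.2 fun e p q => ?_
      rcases (mem_filter.1 (H.sub q)).2 with r | r
      · exact hv (r ▸ (b e p).1)
      · exact hv (r ▸ (b e p).2)

def Near (s t : E → V) (g : ℕ) (U : Finset V) (v : V) (P : Finset E) : Prop :=
  ∃ Z, v ∉ Z ∧ Disjoint Z U ∧ #Z + 1 < g ∧ Tr s t v P Z

omit [Fintype V] [DecidableEq V] in
lemma eraseNone_sub {A B : Finset (Option V)} (h : A ⊆ B) : A.eraseNone ⊆ B.eraseNone :=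
  fun _ q => mem_eraseNone.2 (h (mem_eraseNone.1 q))

lemma PO.conn (H : PO s t v P) {k g : ℕ} {U : Finset V} (h3 : ∀ x, 3 ≤ dg s t univ x)
    (hc : CycConn s t k) (hU : ∀ u ∈ U, k + 1 ≤ dg s t univ u) (hg : k ≤ g)
    (hb : ∀ X, Tgt s t k v X → ¬ ∀ a ∈ P, oth s t v a ∈ X) (hn : ¬ Near s t g U v P) :
    CycConn (ps s v P) (pt t v P) k := by
  intro X a b
  wlog h : none ∈ X generalizing X
  · rw [← ct_compl]
    exact this Xᶜ b (by rwa [compl_compl]) (mem_compl.2 h)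
  obtain ⟨Z, z1, C, z2⟩ := a
  have b' : Cy s t X.eraseNoneᶜ := by
    obtain ⟨Y, y1, D, y2⟩ := b
    exact ⟨_, fun x q => mem_compl.2 fun r => mem_compl.1 (y1 (mem_eraseNone.1 q))
      (mem_eraseNone.1 r), _, (H.c1 y2 fun q => mem_compl.1 (y1 q) h).1⟩
  have z3 := eraseNone_sub z1
  have tri : Cy s t X.eraseNone ∨ (some v ∉ Z ∧ Tr s t v P Z.eraseNone) := by
    by_cases c1 : none ∈ Z
    · by_cases c2 : some v ∈ Z
      · exact Or.inl ⟨_, z3, _, H.c2 z2 c1 c2⟩
      · exact (H.c3 z2 c1 c2).imp (fun q => ⟨_, z3, q⟩) fun q => ⟨c2, q⟩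
    · exact Or.inl ⟨_, z3, _, (H.c1 z2 c1).1⟩
  by_cases h' : some v ∈ X
  · rw [ct_pull (iff_of_true h h')]
    refine hc _ (tri.elim id fun q => ?_) b'
    exact ⟨_, insert_subset (mem_eraseNone.2 h') z3, H.tree (fun r => q.1 (mem_eraseNone.1 r)) q.2⟩
  have c := H.ct_sep h h'
  have d := card_filter_le P fun a => oth s t v a ∈ X.eraseNone
  have e := H.two
  have hv : v ∉ X.eraseNone := fun r => h' (mem_eraseNone.1 r)
  by_contra hlt
  by_cases f : Cy s t X.eraseNone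
  · have := hc _ f b'
    exact hb _ ⟨hv, by omega, f, b'⟩ (card_filter_eq_iff.1 (by omega))
  obtain ⟨-, q⟩ := tri.resolve_left f
  have i := forest_ds f ((H.ne z2).mono z3)
  have j := three_le_ds h3 X.eraseNone
  have l := card_le_card z3
  refine hn ⟨_, fun r => hv (z3 r), disjoint_left.2 fun u p r => ?_, by omega, q⟩
  have := hub_le_ds h3 (z3 p)
  have := hU u r
  have := card_pos.2 ⟨u, p⟩
  omega

end Pool.Agent.P.MP_e59a69_co
end

-- part Pool.Agent.P.MP_e59a69_co.GNear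
section

/-! Few edges at a hub are near a given one. -/

open Finset Function

namespace Pool.Agent.P.MP_e59a69_co

variable {V E : Type} [Fintype V] [Fintype E] [DecidableEq V] [DecidableEq E] {s t : E → V}

omit [Fintype V] [Fintype E] [DecidableEq E] in
lemma card_kball' {A : Finset E} (h : ∀ v, dg s t A v ≤ 3) (X : Finset V) (r : ℕ) :
    #(kball s t A X r) ≤ 4 ^ r * #X := by
  induction r with
  | zero => simp [kball_zero]
  | succ r ih =>
    rw [kball_succ, pow_succ', mul_assoc]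
    refine le_trans ?_ (Nat.mul_le_mul_left 4 ih)
    generalize kball s t A X r = Y
    have h1 := sum_dg s t A Y
    have h2 := sum_le_card_nsmul Y (fun x => dg s t A x) 3 fun x _ => h x
    have h4 := card_union_le Y ({e ∈ A | s e ∈ Y}.image t ∪ {e ∈ A | t e ∈ Y}.image s)
    have h5 := card_union_le ({e ∈ A | s e ∈ Y}.image t) ({e ∈ A | t e ∈ Y}.image s)
    have h6 := card_image_le (s := {e ∈ A | s e ∈ Y}) (f := t)
    have h7 := card_image_le (s := {e ∈ A | t e ∈ Y}) (f := s)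
    rw [smul_eq_mul] at h2
    unfold nb
    omega

omit [Fintype V] [Fintype E] [DecidableEq E] in
lemma tree_ball {Z : Finset V} {C A : Finset E} (hA : C ⊆ A) (hC : ∀ e ∈ C, s e ∈ Z ∧ t e ∈ Z)
    (hZ : #Z ≤ #C + 1) (hf : ¬ Cy s t Z) {x : V} (hx : x ∈ Z) (i : ℕ) :
    Z ⊆ kball s t A {x} i ∨ i + 1 ≤ #(Z ∩ kball s t A {x} i) := by
  have h0 : ∀ i, x ∈ Z ∩ kball s t A {x} i := fun i =>
    mem_inter.2 ⟨hx, kball_mono A subset_rfl i.zero_le (mem_singleton_self x)⟩
  induction i with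
  | zero => exact Or.inr (card_pos.2 ⟨x, h0 0⟩)
  | succ i ih =>
    have m : kball s t A {x} i ⊆ kball s t A {x} (i + 1) := kball_mono A subset_rfl i.le_succ
    by_cases a : Z ⊆ kball s t A {x} i
    · exact Or.inl (a.trans m)
    refine Or.inr (Nat.succ_le_of_lt ((ih.resolve_left a).trans_lt
      (card_lt_card ⟨inter_subset_inter_left m, fun q => ?_⟩)))
    have h1 := h0 i
    rw [kball_succ] at q
    generalize kball s t A {x} i = B at a q h1
    have cl : ∀ e ∈ C, s e ∈ B ↔ t e ∈ B := fun e he =>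
      ⟨fun p => (mem_inter.1 (q (mem_inter.2 ⟨(hC e he).2,
        mem_nb.2 (Or.inr ⟨e, hA he, _, p, Or.inl ⟨rfl, rfl⟩⟩)⟩))).2,
      fun p => (mem_inter.1 (q (mem_inter.2 ⟨(hC e he).1,
        mem_nb.2 (Or.inr ⟨e, hA he, _, p, Or.inr ⟨rfl, rfl⟩⟩)⟩))).2⟩
    have b1 : ¬ #(Z ∩ B) ≤ #{e ∈ C | s e ∈ B} := fun p =>
      hf ⟨_, inter_subset_left, _, ⟨x, h1⟩, fun e he => by
        obtain ⟨p, q⟩ := mem_filter.1 he
        simp [hC e p, q, ← cl e p], p⟩
    have b2 : ¬ #(Z \ B) ≤ #{e ∈ C | ¬ s e ∈ B} := fun p =>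
      hf ⟨_, sdiff_subset, _, sdiff_nonempty.2 a, fun e he => by
        obtain ⟨p, q⟩ := mem_filter.1 he
        simp [hC e p, q, ← cl e p], p⟩
    have b3 := card_sdiff_add_card_inter Z B
    have b4 := card_filter_add_card_filter_not (s := C) fun e => s e ∈ B
    omega

omit [Fintype V] in
lemma near_count (hl : ∀ e, s e ≠ t e) {U : Finset V} {g : ℕ}
    (h3 : ∀ x, x ∉ U → dg s t univ x ≤ 3) (hs : ∀ Z C, Cyc s t Z C → #Z < g → ¬ Disjoint Z U)
    (v : V) (e : E) : ∃ N : Finset E, #N ≤ 3 * 4 ^ g ∧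
      ∀ f ∈ Atv s t v, f ∉ N → ¬ Near s t g U v {e, f} := by
  let A : Finset E := {a | s a ∉ U ∧ t a ∉ U}
  have hA : ∀ x, dg s t A x ≤ 3 := fun x => by
    by_cases hx : x ∈ U
    · unfold dg
      rw [filter_eq_empty_iff.2 fun a ha (q : s a = x) => (mem_filter.1 ha).2.1 (q ▸ hx),
        filter_eq_empty_iff.2 fun a ha (q : t a = x) => (mem_filter.1 ha).2.2 (q ▸ hx)]
      simp
    · have := dg_compl s t A x
      have := h3 x hx
      omega
  have b1 := card_kball' hA {oth s t v e} g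
  let B := kball s t A {oth s t v e} g \ U
  have b2 : #B ≤ #(kball s t A {oth s t v e} g) := card_le_card sdiff_subset
  have b3 := sum_dg s t univ B
  have b4 := sum_le_card_nsmul B (fun x => dg s t univ x) 3 fun x hx => h3 x (mem_sdiff.1 hx).2
  have b5 := card_union_le ({a | s a ∈ B} : Finset E) {a | t a ∈ B}
  rw [smul_eq_mul] at b4
  rw [card_singleton] at b1
  refine ⟨({a | s a ∈ B} : Finset E) ∪ ({a | t a ∈ B} : Finset E), by omega,
    fun f hf hn ⟨Z, _, z2, z3, z4, C, z5, z6⟩ => hn ?_⟩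
  have c := tree_ball (A := A) (fun a ha => mem_filter.2 ⟨mem_univ _,
    disjoint_left.1 z2 (z5 a ha).1, disjoint_left.1 z2 (z5 a ha).2⟩) z5 z6
    (fun ⟨Y, y1, D, y2⟩ => hs Y D y2 (by have := card_le_card y1; omega) (z2.mono_left y1))
    (z4 e (by simp)) g
  have d := card_le_card (inter_subset_left : Z ∩ kball s t A {oth s t v e} g ⊆ Z)
  have p := z4 f (by simp)
  have q : oth s t v f ∈ B := mem_sdiff.2 ⟨c.resolve_right (by omega) p, disjoint_left.1 z2 p⟩
  rcases (oth_spec hl hf).2 with ⟨-, r⟩ | ⟨-, r⟩ <;> simp [r, q]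

end Pool.Agent.P.MP_e59a69_co
end

-- part Pool.Agent.P.MP_e59a69_co.GHub
section

/-! Expanding all vertices into cubic trees. -/

open Finset Function

namespace Pool.Agent.P.MP_e59a69_co

variable {V E : Type} [Fintype V] [Fintype E] [DecidableEq V] [DecidableEq E] {s t : E → V}

structure Bs (s t : E → V) (k D : ℕ) (U : Finset V) : Prop where
  lp : ∀ e, s e ≠ t e
  three : ∀ x, 3 ≤ dg s t univ x
  conn : CycConn s t k
  hub : ∀ u ∈ U, D ≤ dg s t univ u

def StA (s t : E → V) (k D : ℕ) (U : Finset V) : Prop :=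
  Bs s t k D U ∧ ∀ Z C, Cyc s t Z C → #Z < 4 * k + 1 → ¬ Disjoint Z U

def Rk (k : ℕ) : ℕ := k + 1 + 3 * 4 ^ (4 * k + 1)

def Dk (k : ℕ) : ℕ → ℕ
  | 0 => Rk k + 4 * k + 4
  | j + 1 => 2 * Dk k j + Rk k

lemma Dk_ge (k j : ℕ) : Rk k + 4 * k + 4 ≤ Dk k j := by
  induction j with
  | zero => rfl
  | succ j ih =>
    rw [Dk]
    omega

structure StB (s t : E → V) (k D l j : ℕ) (U : Finset V) (v : V) (O : Finset E) : Prop where
  bs : Bs s t k D U
  nv : v ∉ U
  cub : ∀ x, x ∉ U → x ≠ v → dg s t univ x ≤ 3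
  sub : O ⊆ Atv s t v
  deg : #O + min #O (Rk k) + 2 * Dk k j ≤ 2 * dg s t univ v
  short : ∀ Z C, Cyc s t Z C → #Z < 4 * k + 1 → Disjoint Z U →
    v ∈ Z ∧ l ≤ #Z ∧ (Disjoint C O → l + 1 ≤ #Z)

omit [Fintype V] [DecidableEq E] in
lemma weight (h3 : ∀ x, 3 ≤ dg s t univ x) {U : Finset V} {k : ℕ}
    (hU : ∀ u ∈ U, 4 * k + 3 ≤ dg s t univ u)
    (hs : ∀ Z C, Cyc s t Z C → #Z < 4 * k + 1 → ¬ Disjoint Z U) (X : Finset V) (h : Cy s t X) :
    2 * #X + 4 * k < dsum s t X := by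
  obtain ⟨Z, a, C, b⟩ := h
  have c := card_le_card a
  by_cases d : #Z < 4 * k + 1
  · obtain ⟨u, p, q⟩ := not_disjoint_iff.1 (hs Z C b d)
    have := hub_le_ds h3 (a p)
    have := hU u q
    have := card_pos.2 b.1
    omega
  · have := three_le_ds h3 X
    omega

omit [DecidableEq E] in
lemma ghand (h3 : ∀ x, 3 ≤ dg s t univ x) : 3 * Fintype.card V ≤ 2 * Fintype.card E := by
  have a := three_le_ds h3 univ
  unfold dsum at a
  rw [sum_dg] at a
  simp only [mem_univ, filter_true, card_univ] at a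
  omega

lemma Bs.pull {k D : ℕ} {U : Finset V} (H : Bs s t k D U) {v : V} {P : Finset E} (hv : v ∉ U)
    (h4 : 4 ≤ dg s t univ v) (hP : PO s t v P) (hc : CycConn (ps s v P) (pt t v P) k) :
    Bs (ps s v P) (pt t v P) k D (U.image some) := by
  refine ⟨hP.loop, hP.three H.three h4, hc, fun o ho => ?_⟩
  obtain ⟨u, p, rfl⟩ := mem_image.1 ho
  rw [dg_pull_ne' fun (q : u = v) => hv (q ▸ p)]
  exact H.hub u p

omit [Fintype V] in
lemma disj_some {Z : Finset (Option V)} {U : Finset V} (h : Disjoint Z (U.image some)) :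
    Disjoint Z.eraseNone U :=
  disjoint_left.2 fun _ p q => disjoint_left.1 h (mem_eraseNone.1 p) (mem_image_of_mem _ q)

lemma StA.step {k D : ℕ} {U : Finset V} (H : StA s t k D U) (hD : 4 * k + 3 ≤ D) {v : V}
    (hv : v ∉ U) (h4 : 4 ≤ dg s t univ v) :
    ∃ P, StA (ps s v P) (pt t v P) k D (U.image some) := by
  obtain ⟨H, hs⟩ := H
  obtain ⟨e, he⟩ := card_pos.1 (show 0 < #(Atv s t v) by rw [card_Atv H.lp]; omega)
  obtain ⟨B, b1, -, ⟨f, f1, f2⟩, b2⟩ := tight H.lp H.conn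
    (weight H.three (fun u p => hD.trans (H.hub u p)) hs) (by omega) he
  have hP : PO s t v {e, f} := ⟨H.lp, by simp [insert_subset_iff, he, f1],
    card_pair fun q => f2 (q ▸ b1)⟩
  have tr : ∀ Z, v ∉ Z → Disjoint Z U → #Z + 1 < 4 * k + 1 → ¬ Tr s t v {e, f} Z :=
    fun Z z1 z2 z3 z4 =>
      let ⟨C, c⟩ := hP.tree z1 z4
      hs _ C c (by rwa [card_insert_of_notMem z1]) (disjoint_insert_left.2 ⟨hv, z2⟩)
  refine ⟨{e, f}, H.pull hv h4 hP (hP.conn (g := 4 * k + 1) H.three H.conn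
    (fun u p => by have := H.hub u p; omega) (by omega)
    (fun X a b => b2 f f1 f2 X a (b e (by simp)) (b f (by simp)))
    fun ⟨Z, z1, z2, z3, z4⟩ => tr Z z1 z2 z3 z4), fun Z C a b c => ?_⟩
  have d := disj_some c
  have i := card_eraseNone_le Z
  by_cases c1 : none ∈ Z
  · by_cases c2 : some v ∈ Z
    · exact hs _ _ (hP.c2 a c1 c2) (by omega) d
    · rcases hP.c3 a c1 c2 with ⟨D, q⟩ | q
      · exact hs _ _ q (by omega) d
      · have := card_eraseNone_of_mem c1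
        have := card_pos.2 a.1
        exact tr _ (fun r => c2 (mem_eraseNone.1 r)) d (by omega) q
  · exact hs _ _ (hP.c1 a c1).1 (by omega) d

lemma StB.step {k D l j : ℕ} {U : Finset V} {v : V} {O : Finset E} (H : StB s t k D l j U v O)
    (hD : 4 * k + 3 ≤ D) (hO : O.Nonempty) :
    ∃ P, StB (ps s v P) (pt t v P) k D l j (U.image some) (some v) ((O \ P).image some) := by
  obtain ⟨e, he⟩ := hO
  have d1 := Dk_ge k j
  have d2 := H.deg
  have hU : ∀ u ∈ insert v U, 4 * k + 3 ≤ dg s t univ u := fun u p => by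
    rcases mem_insert.1 p with rfl | p
    · omega
    · exact hD.trans (H.bs.hub u p)
  have hs : ∀ Z C, Cyc s t Z C → #Z < 4 * k + 1 → ¬ Disjoint Z (insert v U) := fun Z C a b c =>
    (disjoint_insert_right.1 c).1 (H.short Z C a b (disjoint_insert_right.1 c).2).1
  obtain ⟨B, b1, b2, -, b3⟩ := tight H.bs.lp H.bs.conn (weight H.bs.three hU hs) (by omega)
    (H.sub he)
  obtain ⟨N, n1, n2⟩ := near_count H.bs.lp (U := insert v U)
    (fun x p => H.cub x (fun q => p (mem_insert_of_mem q)) fun q => p (q ▸ mem_insert_self _ _))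
    hs v e
  have d3 : #(B ∪ N) ≤ Rk k := (card_union_le _ _).trans (add_le_add b2 n1)
  obtain ⟨f, f1, f2, f3⟩ : ∃ f ∈ Atv s t v, f ∉ B ∪ N ∧ (Rk k < #O → f ∈ O) := by
    by_cases q : Rk k < #O
    · obtain ⟨f, a, b⟩ := exists_mem_notMem_of_card_lt_card (d3.trans_lt q)
      exact ⟨f, H.sub a, b, fun _ => a⟩
    · obtain ⟨f, a, b⟩ := exists_mem_notMem_of_card_lt_card
        (show #(B ∪ N) < #(Atv s t v) by rw [card_Atv H.bs.lp]; omega)
      exact ⟨f, a, b, fun r => (q r).elim⟩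
  rw [mem_union, not_or] at f2
  have ef : e ≠ f := fun q => f2.1 (q ▸ b1)
  have hP : PO s t v {e, f} := ⟨H.bs.lp, by simp [insert_subset_iff, H.sub he, f1], card_pair ef⟩
  have hn := n2 f f1 f2.2
  refine ⟨{e, f}, H.bs.pull H.nv (by omega) hP (hP.conn H.bs.three H.bs.conn
    (fun u p => by have := hU u p; omega) (by omega)
    (fun X a b => b3 f f1 f2.1 X a (b e (by simp)) (b f (by simp))) hn), by simp [H.nv], ?_, ?_, ?_,
    fun Z C a b c => ?_⟩
  · rintro (_ | x) p q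
    · exact hP.dg_none.le
    · have q' : x ≠ v := fun r => q (congrArg some r)
      rw [dg_pull_ne' q']
      exact H.cub x (fun r => p (mem_image_of_mem _ r)) q'
  · intro o ho
    obtain ⟨a, p, rfl⟩ := mem_image.1 ho
    obtain ⟨p, q⟩ := mem_sdiff.1 p
    refine mem_filter.2 ⟨mem_univ _, ?_⟩
    simp only [ps, pt, Option.elim, mv_some (Or.inl q), Option.some.injEq]
    exact (mem_filter.1 (H.sub p)).2
  · rw [card_image_of_injective _ (Option.some_injective E)]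
    have a := hP.dg_v
    have b := card_sdiff_add_card_inter O {e, f}
    have c : 0 < #(O ∩ {e, f}) := card_pos.2 ⟨e, by simp [he]⟩
    by_cases q : Rk k < #O
    · rw [inter_eq_right.2 (by simp [insert_subset_iff, he, f3 q]), hP.two] at b
      omega
    · omega
  have d := disj_some c
  have i := card_eraseNone_le Z
  by_cases c1 : none ∈ Z
  · have i1 := card_eraseNone_of_mem c1
    have i2 := card_pos.2 a.1
    by_cases c2 : some v ∈ Z
    · have := (H.short _ _ (hP.c2 a c1 c2) (by omega) d).2.1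
      exact ⟨c2, by omega, fun _ => by omega⟩
    · have c3 : v ∉ Z.eraseNone := fun r => c2 (mem_eraseNone.1 r)
      rcases hP.c3 a c1 c2 with ⟨D, q⟩ | q
      · exact (c3 (H.short _ _ q (by omega) d).1).elim
      · exact (hn ⟨_, c3, disjoint_insert_right.2 ⟨c3, d⟩, by omega, q⟩).elim
  · obtain ⟨p, q⟩ := hP.c1 a c1
    obtain ⟨r1, r2, r3⟩ := H.short _ _ p (by omega) d
    refine ⟨mem_eraseNone.1 r1, by omega, fun r => (r3 (disjoint_left.2 fun x x1 x2 => ?_)).trans i⟩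
    exact disjoint_left.1 r (mem_eraseNone.1 x1)
      (mem_image_of_mem _ (mem_sdiff.2 ⟨x2, disjoint_left.1 q x1⟩))

theorem expand (k : ℕ) (hk : ∀ (V E : Type) [Fintype V] [Fintype E] [DecidableEq V]
    [DecidableEq E] (s t : E → V), (∀ x, dg s t univ x = 3) → CycConn s t k → HasPair s t)
    (n : ℕ) : ∀ (V E : Type) [Fintype V] [Fintype E] [DecidableEq V] [DecidableEq E]
    (s t : E → V), 2 * Fintype.card E < 3 * Fintype.card V + n →
    (∀ U, StA s t k (Dk k (4 * k + 1)) U → HasPair s t) ∧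
      ∀ j l U v O, l + j = 4 * k + 1 → StB s t k (Dk k (4 * k + 1)) l j U v O → HasPair s t := by
  have hD : 4 * k + 3 ≤ Dk k (4 * k + 1) := by have := Dk_ge k (4 * k + 1); omega
  induction n with
  | zero =>
    intro V E _ _ _ _ s t h
    exact ⟨fun U H => by have := ghand H.1.three; omega,
      fun j l U v O _ H => by have := ghand H.bs.three; omega⟩
  | succ n ih =>
  intro V E _ _ _ _ s t h
  have ih' := fun v P => ih (Option V) (Option E) (ps s v P) (pt t v P)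
    (by simp only [Fintype.card_option]; omega)
  have a1 : ∀ U, StA s t k (Dk k (4 * k + 1)) U → ∀ v, v ∉ U → 4 ≤ dg s t univ v → HasPair s t :=
    fun U H v p q =>
      let ⟨P, r⟩ := H.step hD p q
      pair_pull ((ih' v P).1 _ r)
  have a2 : ∀ j l U v O, l + j = 4 * k + 1 → StB s t k (Dk k (4 * k + 1)) l j U v O →
      HasPair s t := by
    intro j
    induction j with
    | zero =>
      intro l U v O p H
      have := H.deg
      have := Dk_ge k 0
      exact a1 U ⟨H.bs, fun Z C a b c => by have := (H.short Z C a b c).2.1; omega⟩ v H.nv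
        (by omega)
    | succ j ij =>
      intro l U v O p H
      rcases O.eq_empty_or_nonempty with rfl | q
      · refine ij (l + 1) U v (Atv s t v) (by omega) ⟨H.bs, H.nv, H.cub, subset_rfl, ?_,
          fun Z C a b c => ?_⟩
        · have := H.deg
          rw [Dk] at this
          rw [card_Atv H.bs.lp]
          omega
        · obtain ⟨r1, -, r3⟩ := H.short Z C a b c
          refine ⟨r1, r3 (disjoint_empty_right _), fun r => ?_⟩
          have z : dg s t C v = 0 := by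
            unfold dg
            rw [filter_eq_empty_iff.2 fun e he (q : s e = v) =>
                disjoint_left.1 r he (mem_filter.2 ⟨mem_univ _, Or.inl q⟩),
              filter_eq_empty_iff.2 fun e he (q : t e = v) =>
                disjoint_left.1 r he (mem_filter.2 ⟨mem_univ _, Or.inr q⟩)]
            rfl
          exact (notMem_erase v Z (H.short _ _ (a.strip r1 (by omega))
            (card_erase_le.trans_lt b) (c.mono_left (erase_subset _ _))).1).elim
      · obtain ⟨P, r⟩ := H.step hD q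
        exact pair_pull ((ih' v P).2 _ _ _ _ _ p r)
  refine ⟨fun U H => ?_, a2⟩
  by_cases c : ∃ v, v ∉ U ∧ 4 ≤ dg s t univ v
  · obtain ⟨v, p, q⟩ := c
    exact a1 U H v p q
  push Not at c
  rcases U.eq_empty_or_nonempty with rfl | ⟨v, hv⟩
  · exact hk V E s t (fun x => by have := c x (notMem_empty x); have := H.1.three x; omega) H.1.conn
  refine a2 (4 * k + 1) 0 (U.erase v) v ∅ (zero_add _) ⟨⟨H.1.lp, H.1.three, H.1.conn,
    fun u p => H.1.hub u (mem_of_mem_erase p)⟩, notMem_erase _ _,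
    fun x p q => by have := c x fun r => p (mem_erase.2 ⟨q, r⟩); omega, empty_subset _,
    by have := H.1.hub v hv; simp only [card_empty, zero_le, inf_of_le_left]; omega,
    fun Z C a b d => ⟨?_, Nat.zero_le _, fun _ => card_pos.2 a.1⟩⟩
  obtain ⟨u, p, q⟩ := not_disjoint_iff.1 (H.2 Z C a b)
  by_contra hn
  exact disjoint_left.1 d p (mem_erase.2 ⟨fun r => hn (r ▸ p), q⟩)

end Pool.Agent.P.MP_e59a69_co
end

-- part Pool.Agent.P.MP_e59a69_co.GSmall
section

/-! Graphs without two disjoint cycles; the loopless case with minimum degree three. -/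

open Finset Function

namespace Pool.Agent.P.MP_e59a69_co

variable {V E : Type} [Fintype V] [Fintype E] [DecidableEq V] [DecidableEq E] {s t : E → V}

omit [Fintype V] [DecidableEq E] in
lemma cut_ge (hl : ∀ e, s e ≠ t e) {v : V} {X : Finset V} {Q : Finset E} (hv : v ∉ X)
    (h1 : Q ⊆ Atv s t v) (h2 : ∀ a ∈ Q, oth s t v a ∈ X) : #Q ≤ ct s t univ X := by
  refine card_le_card fun a ha => mem_filter.2 ⟨mem_univ _, ?_⟩
  have := h2 a ha
  rcases (oth_spec hl (h1 ha)).2 with ⟨p, q⟩ | ⟨p, q⟩ <;> rw [p, q] <;> tauto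

theorem even_sub (n : ℕ) : ∀ (V E : Type) [Fintype V] [Fintype E] [DecidableEq V] [DecidableEq E]
    (s t : E → V), 2 * Fintype.card E < 3 * Fintype.card V + n → (∀ e, s e ≠ t e) →
    (∀ x, 3 ≤ dg s t univ x) → (∀ X, ct s t univ X ≠ 1) →
    ∃ F : Finset E, ∀ x, Even (dg s t F x) ∧ 2 ≤ dg s t F x := by
  induction n with
  | zero =>
    intro V E _ _ _ _ s t h _ h3 _
    have := ghand h3
    omega
  | succ n ih =>
  intro V E _ _ _ _ s t h hl h3 h1
  by_cases c : ∃ v, 4 ≤ dg s t univ v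
  swap
  · push Not at c
    have d : ∀ x, dg s t univ x = 3 := fun x => by have := c x; have := h3 x; omega
    obtain ⟨M, -, hM⟩ := ktut s t (fun _ => 1) 3 (by omega) hl
      (fun v => by rw [← card_eq_sum_ones, ← card_eq_sum_ones]; exact d v)
      (fun X hX => by
        rw [← card_eq_sum_ones]
        have a := dsum_eq s t X
        have b : dsum s t X = #X * 3 := by simp [dsum, d]
        have := h1 X
        rw [Nat.odd_iff] at hX
        show 3 ≤ ct s t univ X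
        omega)
    refine ⟨Mᶜ, fun x => ?_⟩
    have a := dg_compl s t M x
    have b : dg s t M x = 1 := hM x
    have e := d x
    rw [show dg s t Mᶜ x = 2 by omega]
    decide
  obtain ⟨v, h4⟩ := c
  have c := card_Atv hl v
  obtain ⟨e, he⟩ := card_pos.1 (show 0 < #(Atv s t v) by omega)
  have c' := card_erase_add_one he
  obtain ⟨f, f1, f2, f3⟩ : ∃ f ∈ Atv s t v, e ≠ f ∧ ∀ X, v ∉ X → oth s t v e ∈ X →
      oth s t v f ∈ X → ct s t univ X ≠ 2 := by
    by_contra hn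
    push Not at hn
    obtain ⟨f, p, g, q, r⟩ := one_lt_card.1 (show 1 < #((Atv s t v).erase e) by omega)
    obtain ⟨p1, p2⟩ := mem_erase.1 p
    obtain ⟨q1, q2⟩ := mem_erase.1 q
    obtain ⟨X, x1, x2, x3, x4⟩ := hn f p2 p1.symm
    obtain ⟨Y, y1, y2, y3, y4⟩ := hn g q2 q1.symm
    have a1 := ct_submod (s := s) (t := t) X Y
    have a2 := cut_ge hl (X := X ∪ Y) (Q := {e, f, g}) (v := v) (by simp [x1, y1])
      (by simp [insert_subset_iff, he, p2, q2]) (by simp [x2, x3, y3])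
    have a3 := cut_ge hl (X := X ∩ Y) (Q := {e}) (v := v) (by simp [x1]) (by simp [he])
      (by simp [x2, y2])
    rw [card_eq_three.2 ⟨e, f, g, p1.symm, q1.symm, r, rfl⟩] at a2
    rw [card_singleton] at a3
    have := h1 (X ∩ Y)
    omega
  have hP : PO s t v {e, f} := ⟨hl, by simp [insert_subset_iff, he, f1], card_pair f2⟩
  obtain ⟨F, hF⟩ := ih (Option V) (Option E) (ps s v {e, f}) (pt t v {e, f})
    (by simp only [Fintype.card_option]; omega) hP.loop (hP.three h3 h4) (fun X => by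
      wlog q : none ∈ X generalizing X
      · rw [← ct_compl]
        exact this Xᶜ (mem_compl.2 q)
      by_cases q' : some v ∈ X
      · rw [ct_pull (iff_of_true q q')]
        exact h1 _
      have a := hP.ct_sep q q'
      have hv : v ∉ X.eraseNone := fun r => q' (mem_eraseNone.1 r)
      have b := cut_ge hl hv ((filter_subset (fun a => oth s t v a ∈ X.eraseNone) _).trans hP.sub)
        fun a ha => (mem_filter.1 ha).2
      have d := card_filter_le {e, f} fun a => oth s t v a ∈ X.eraseNone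
      have d' := hP.two
      intro r
      have i := card_filter_eq_iff.1 (show #{a ∈ ({e, f} : Finset E) | oth s t v a ∈ X.eraseNone} =
        #({e, f} : Finset E) by omega)
      exact f3 _ hv (i e (by simp)) (i f (by simp)) (by omega))
  refine ⟨F.eraseNone, fun x => ?_⟩
  by_cases hx : x = v
  · have a := dg_pull (s := s) (t := t) (v := v) (P := {e, f}) F
    have b := hF none
    have d := hF (some v)
    rw [hx]
    simp only [Nat.even_iff] at b d ⊢
    split_ifs at a <;> omega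
  · rw [← dg_pull_ne (P := {e, f}) F hx]
    exact hF _

lemma small_pair (hl : ∀ e, s e ≠ t e) (h3 : ∀ x, 3 ≤ dg s t univ x)
    (hc : ∀ X, Cy s t X → ¬ Cy s t Xᶜ) : HasPair s t := by
  classical
  obtain ⟨F, hF⟩ := even_sub (2 * Fintype.card E + 1) V E s t (by omega) hl h3
    (no_one h3 fun X a b => (hc X a b).elim)
  have key : ∀ (X : Finset V) (c : (spanGr s t F).ConnectedComponent),
      (∀ v, (spanGr s t F).connectedComponentMk v = c → v ∈ X) → Cy s t X := fun X c h => by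
    let Z : Finset V := {v | (spanGr s t F).connectedComponentMk v = c}
    have z : ∀ e ∈ F, s e ∈ Z ↔ t e ∈ Z := fun e he => by simp [Z, comp_eq_of_mem s t F he]
    obtain ⟨v, hv⟩ := c.exists_rep
    refine ⟨Z, fun v p => h v (mem_filter.1 p).2, {e ∈ F | s e ∈ Z},
      ⟨v, mem_filter.2 ⟨mem_univ _, hv⟩⟩, fun e he => ?_, ?_⟩
    · obtain ⟨p, q⟩ := mem_filter.1 he
      exact ⟨q, (z e p).1 q⟩
    · have a := sum_dg s t F Z
      have b := card_nsmul_le_sum Z (fun x => dg s t F x) 2 fun x _ => (hF x).2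
      rw [← filter_congr z] at a
      rw [smul_eq_mul] at b
      omega
  obtain ⟨φ, ψ, a1, a0, ab, b1, b2, b3⟩ := core s t F (fun v => (hF v).1) Set.univ
    (fun _ _ => Set.mem_univ _) fun X ⟨c, _, p⟩ ⟨c', _, q⟩ _ => (hc X (key _ c p) (key _ c' q)).elim
  refine ⟨φ, ψ, fun e => ?_, b1, ab, b3, fun e q => b2 e fun he => ?_⟩
  · by_cases he : e ∈ F
    · rcases a1 e he with h | h <;> simp [h]
    · simp [a0 e he]
  · have := a1 e he
    omega

omit [Fintype V] [DecidableEq E] in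
lemma bdry_of_kflow {k : ℤ} {φ : E → ℤ} (h : IsKFlow s t k φ) (v : V) : bdry s t φ v = 0 := by
  unfold bdry
  rw [sum_sub_distrib, ← sum_filter, ← sum_filter, h.2 v, sub_self]

theorem three_main : ∃ K : ℕ, ∀ (V E : Type) [Fintype V] [Fintype E] [DecidableEq V]
    [DecidableEq E] (s t : E → V), (∀ e, s e ≠ t e) → (∀ x, 3 ≤ dg s t univ x) →
    CycConn s t K → HasPair s t := by
  obtain ⟨k, hk⟩ := const_main
  have ex := expand (k + 2) fun V E _ _ _ _ s t h3 hc => by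
    obtain ⟨φ, ψ, a, b, c⟩ := hk V E s t h3
      (no_one (fun x => (h3 x).ge) fun X p q => le_trans (by omega) (hc X p q))
      fun X p q => le_trans (by omega) (hc X (cy_of_cycle p) (cy_of_cycle q))
    exact ⟨φ, ψ, a.1, b.1, bdry_of_kflow a, bdry_of_kflow b, c⟩
  generalize Dk (k + 2) (4 * (k + 2) + 1) = D at ex
  refine ⟨2 * ((4 * (k + 2) + 1) * D) + k + 3, fun V E _ _ _ _ s t hl h3 hc => ?_⟩
  by_cases a : ∀ Z C, Cyc s t Z C → #Z < 4 * (k + 2) + 1 →
      ¬ Disjoint Z (univ.filter fun u => D ≤ dg s t univ u)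
  · exact (ex (2 * Fintype.card E + 1) V E s t (by omega)).1 _ ⟨⟨hl, h3,
      fun X p q => le_trans (by omega) (hc X p q), fun u p => (mem_filter.1 p).2⟩, a⟩
  push Not at a
  obtain ⟨Z, C, z1, z2, z3⟩ := a
  have b1 := sum_le_card_nsmul Z (fun x => dg s t univ x) D fun x p => le_of_not_ge fun q =>
    disjoint_left.1 z3 p (mem_filter.2 ⟨mem_univ _, q⟩)
  have b2 : dsum s t Z ≤ (4 * (k + 2) + 1) * D := b1.trans (Nat.mul_le_mul_right D z2.le)
  have b3 := dsum_eq s t Z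
  have b4 : ¬ Cy s t Zᶜ := fun q => by
    have := hc Z ⟨Z, subset_rfl, C, z1⟩ q
    omega
  have b5 := forest_ds' b4
  have b6 := three_le_ds h3 Zᶜ
  have b7 : dsum s t Z + dsum s t Zᶜ = dsum s t univ := sum_add_sum_compl Z _
  have b8 : dsum s t univ = 2 * Fintype.card E := by
    unfold dsum
    rw [sum_dg]
    simp [two_mul]
  rw [ct_compl] at b5
  refine small_pair hl h3 fun X p q => ?_
  have := hc X p q
  have : ct s t univ X ≤ Fintype.card E := card_le_univ _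
  omega

end Pool.Agent.P.MP_e59a69_co
end

-- part Pool.Agent.P.MP_e59a69_co.GZero
section

/-! Loops, isolated vertices, cuts with no edge and cuts with two edges. -/

open Finset Function

namespace Pool.Agent.P.MP_e59a69_co

variable {V E : Type} [Fintype V] [Fintype E] [DecidableEq V] [DecidableEq E] {s t : E → V}

/-- cyclic without the use of loops -/
def CyN (s t : E → V) (X : Finset V) : Prop := ∃ Z ⊆ X, ∃ C, Cyc s t Z C ∧ ∀ e ∈ C, s e ≠ t e

omit [Fintype V] [Fintype E] [DecidableEq V] [DecidableEq E] in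
lemma CyN.mono {X Y : Finset V} (h : CyN s t X) (hXY : X ⊆ Y) : CyN s t Y :=
  let ⟨Z, a, b⟩ := h
  ⟨Z, a.trans hXY, b⟩

lemma restrict {K : ℕ} (hK : ∀ (V E : Type) [Fintype V] [Fintype E] [DecidableEq V]
    [DecidableEq E] (s t : E → V), (∀ e, s e ≠ t e) → (∀ x, 3 ≤ dg s t univ x) →
    CycConn s t K → HasPair s t) (h1 : ∀ X, ct s t univ X ≠ 1) (h2 : ∀ X, ct s t univ X ≠ 2)
    (hc : ∀ X, CyN s t X → CyN s t Xᶜ → K ≤ ct s t univ X) : HasPair s t := by
  let s1 : {e // s e ≠ t e} → {v // ∃ e, s e ≠ t e ∧ (s e = v ∨ t e = v)} :=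
    fun e => ⟨s e, e, e.2, Or.inl rfl⟩
  let t1 : {e // s e ≠ t e} → {v // ∃ e, s e ≠ t e ∧ (s e = v ∨ t e = v)} :=
    fun e => ⟨t e, e, e.2, Or.inr rfl⟩
  have m : ∀ (Y : Finset {v // ∃ e, s e ≠ t e ∧ (s e = v ∨ t e = v)}) x,
      x.1 ∈ Y.image Subtype.val ↔ x ∈ Y := fun Y x => Subtype.val_injective.mem_finset_image
  have a1 : ∀ Y, ct s1 t1 univ Y = ct s t univ (Y.image Subtype.val) := fun Y => by
    refine card_bij (fun e _ => e.1) (fun e he => mem_filter.2 ⟨mem_univ _, ?_⟩)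
      (fun _ _ _ _ q => Subtype.ext q) fun e he => ?_
    · have := (mem_filter.1 he).2
      rwa [← m, ← m] at this
    · have := (mem_filter.1 he).2
      refine ⟨⟨e, fun q => this (by rw [q])⟩, mem_filter.2 ⟨mem_univ _, ?_⟩, rfl⟩
      rwa [← m, ← m]
  have a2 : ∀ Y, Cy s1 t1 Y → CyN s t (Y.image Subtype.val) := fun Y ⟨Z, z1, C, z2⟩ => by
    refine ⟨_, image_subset_image z1, C.image Subtype.val, ⟨z2.1.image _, fun e he => ?_, ?_⟩,
      fun e he => ?_⟩
    · obtain ⟨a, p, rfl⟩ := mem_image.1 he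
      exact ⟨(m Z (s1 a)).2 (z2.2.1 a p).1, (m Z (t1 a)).2 (z2.2.1 a p).2⟩
    · rw [card_image_of_injective _ Subtype.val_injective,
        card_image_of_injective _ Subtype.val_injective]
      exact z2.2.2
    · obtain ⟨a, -, rfl⟩ := mem_image.1 he
      exact a.2
  obtain ⟨φ, ψ, b1, b2, b3, b4, b5⟩ := hK _ _ s1 t1 (fun e q => e.2 (congrArg Subtype.val q))
    (fun x => by
      have c1 := dsum_eq s1 t1 {x}
      have c2 := a1 {x}
      have c3 : 0 < ct s t univ (image Subtype.val {x}) := by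
        obtain ⟨e, p, q⟩ := x.2
        refine card_pos.2 ⟨e, mem_filter.2 ⟨mem_univ _, ?_⟩⟩
        rcases q with q | q <;> simp [← q, p, p.symm]
      have c4 := h1 (image Subtype.val {x})
      have c5 := h2 (image Subtype.val {x})
      rw [dsum, sum_singleton] at c1
      omega)
    (fun Y p q => by
      rw [a1]
      refine hc _ (a2 Y p) ((a2 _ q).mono fun x hx => ?_)
      obtain ⟨y, r, rfl⟩ := mem_image.1 hx
      rw [mem_compl, m]
      exact mem_compl.1 r)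
  have key : ∀ (φ : {e // s e ≠ t e} → ℤ) (c : ℤ), (∀ x, bdry s1 t1 φ x = 0) →
      ∀ x, bdry s t (fun e => if h : s e ≠ t e then φ ⟨e, h⟩ else c) x = 0 := fun φ c h x => by
    have a := sum_bdry s1 t1 φ {w | w.1 = x}
    rw [sum_eq_zero fun x _ => h x] at a
    unfold bdry
    rw [← Fintype.sum_subtype_add_sum_subtype (fun e => s e ≠ t e),
      sum_eq_zero (s := (univ : Finset {e // ¬ s e ≠ t e})) fun e _ => by
        rw [not_not.1 e.2, sub_self], add_zero]
    exact (sum_congr rfl fun e _ => by simp [s1, t1, e.2]).trans a.symm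
  refine ⟨_, _, fun e => ?_, fun e => ?_, key φ 1 b3, key ψ 0 b4, fun e => ?_⟩ <;>
    by_cases h : s e = t e <;> simp [h, b1, b2]
  exact b5 _

/-- the edges outside `X` become loops -/
def kil (s t : E → V) (X : Finset V) (e : E) : V := if s e ∈ X then t e else s e

omit [DecidableEq E] in
lemma kil_pair {X : Finset V} (h1 : HasPair s (kil s t X)) (h2 : HasPair s (kil s t Xᶜ)) :
    HasPair s t := by
  have key : ∀ φ ψ : E → ℤ, (∀ x, bdry s (kil s t X) φ x = 0) → (∀ x, bdry s (kil s t Xᶜ) ψ x = 0) →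
      ∀ x, bdry s t (fun e => if s e ∈ X then φ e else ψ e) x = 0 := fun φ ψ a b x => by
    have : bdry s t (fun e => if s e ∈ X then φ e else ψ e) x =
        bdry s (kil s t X) φ x + bdry s (kil s t Xᶜ) ψ x := by
      unfold bdry
      rw [← sum_add_distrib]
      refine sum_congr rfl fun e _ => ?_
      by_cases q : s e ∈ X <;> simp [kil, q]
    rw [this, a, b, add_zero]
  obtain ⟨φ, ψ, a1, a2, a3, a4, a5⟩ := h1
  obtain ⟨φ', ψ', b1, b2, b3, b4, b5⟩ := h2
  refine ⟨_, _, fun e => ?_, fun e => ?_, key φ φ' a3 b3, key ψ ψ' a4 b4, fun e => ?_⟩ <;>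
    by_cases h : s e ∈ X <;> simp only [h, if_true, if_false]
  exacts [a1 e, b1 e, a2 e, b2 e, a5 e, b5 e]

omit [Fintype V] [DecidableEq E] in
lemma kil_ct {X : Finset V} (h : ∀ e, s e ∈ X ↔ t e ∈ X) (Y : Finset V) :
    ct s (kil s t X) univ Y = ct s t univ (Y ∩ X) := by
  refine congrArg card (filter_congr fun e _ => ?_)
  by_cases q : s e ∈ X <;> simp [kil, q, ← h e]

omit [Fintype V] [Fintype E] [DecidableEq E] in
lemma kil_cy {X : Finset V} (h : ∀ e, s e ∈ X ↔ t e ∈ X) {Y : Finset V}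
    (c : CyN s (kil s t X) Y) : CyN s t (Y ∩ X) := by
  obtain ⟨Z, z1, C, z2, z3⟩ := c
  have a : ∀ e ∈ C, s e ∈ X ∧ kil s t X e = t e := fun e he => by
    have := z3 e he
    by_cases q : s e ∈ X <;> simp [kil, q] at this ⊢
  have b : ∀ e ∈ C, s e ∈ Z ∩ X ∧ t e ∈ Z ∩ X := fun e he =>
    ⟨mem_inter.2 ⟨(z2.2.1 e he).1, (a e he).1⟩,
      mem_inter.2 ⟨(a e he).2 ▸ (z2.2.1 e he).2, (h e).1 (a e he).1⟩⟩
  obtain ⟨e, he⟩ := card_pos.1 ((card_pos.2 z2.1).trans_le z2.2.2)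
  exact ⟨Z ∩ X, inter_subset_inter_right z1, C, ⟨⟨_, (b e he).1⟩, b,
    (card_le_card inter_subset_left).trans z2.2.2⟩, fun e he => (a e he).2 ▸ z3 e he⟩

/-- identify `b` with `a` -/
def idf (a b x : V) : V := if x = b then a else x

lemma idf_pair {X : Finset V} {e f : E} (hef : e ≠ f)
    (hX : ∀ a, ¬ (s a ∈ X ↔ t a ∈ X) ↔ a = e ∨ a = f)
    (h : HasPair (idf (s e) (t e) ∘ s) (idf (s e) (t e) ∘ t)) : HasPair s t := by
  have he := (hX e).2 (Or.inl rfl)
  have hf := (hX f).2 (Or.inr rfl)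
  have key : ∀ φ : E → ℤ, (∀ x, bdry (idf (s e) (t e) ∘ s) (idf (s e) (t e) ∘ t) φ x = 0) →
      ∀ x, bdry s t (update φ e (if s e ∈ X ↔ s f ∈ X then - φ f else φ f)) x = 0 := fun φ h => by
    generalize hψ : update φ e (if s e ∈ X ↔ s f ∈ X then - φ f else φ f) = ψ
    have p1 : ∀ a, a ≠ e → ψ a = φ a := fun a q => by rw [← hψ, update_of_ne q]
    have p2 : ψ e = if s e ∈ X ↔ s f ∈ X then - φ f else φ f := by rw [← hψ, update_self]
    have a1 : ∀ x, x ≠ s e → x ≠ t e → bdry s t ψ x = 0 := fun x p q => by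
      rw [← h x]
      have r : ∀ y, idf (s e) (t e) y = x ↔ y = x := fun y => by
        unfold idf
        split_ifs with c
        · simp [c, p.symm, q.symm]
        · rfl
      refine sum_congr rfl fun a _ => ?_
      by_cases c : a = e
      · simp [c, r, p.symm, q.symm]
      · simp [r, p1 a c]
    have a2 : ∑ x ∈ X, bdry s t ψ x = 0 := by
      rw [sum_bdry, ← sum_subset (subset_univ {e, f}) (fun a _ q => by
        have : s a ∈ X ↔ t a ∈ X := by
          by_contra r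
          exact q (by simpa using (hX a).1 r)
        simp [this]), sum_pair hef, p2, p1 f hef.symm]
      by_cases c1 : s e ∈ X <;> by_cases c2 : t e ∈ X <;> by_cases c3 : s f ∈ X <;>
        by_cases c4 : t f ∈ X <;> simp [c1, c2, c3, c4] at he hf ⊢
    have a3 : ∑ x ∈ Xᶜ, bdry s t ψ x = 0 := by
      have := sum_add_sum_compl X (bdry s t ψ)
      rw [sum_bdry_univ, a2, zero_add] at this
      exact this
    have a4 : ∀ Y : Finset V, ∑ x ∈ Y, bdry s t ψ x = 0 → ¬ (s e ∈ Y ↔ t e ∈ Y) → ∀ x ∈ Y,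
        bdry s t ψ x = 0 := fun Y p q x hx => by
      by_contra c
      rw [← add_sum_erase Y _ hx, sum_eq_zero fun y hy => ?_, add_zero] at p
      · exact c p
      obtain ⟨y1, y2⟩ := mem_erase.1 hy
      have : x = s e ∨ x = t e := by
        by_contra r
        exact c (a1 x (not_or.1 r).1 (not_or.1 r).2)
      refine a1 y (fun r => ?_) fun r => ?_ <;> subst r <;> rcases this with rfl | rfl <;> tauto
    intro x
    by_cases c : x ∈ X
    · exact a4 X a2 he x c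
    · exact a4 Xᶜ a3 (by simpa [not_iff_not] using he) x (mem_compl.2 c)
  obtain ⟨φ, ψ, a1, a2, a3, a4, a5⟩ := h
  refine ⟨_, _, fun a => ?_, fun a => ?_, key φ a3, key ψ a4, fun a => ?_⟩ <;> by_cases c : a = e
  · rw [c, update_self]
    split_ifs <;> simp [a1]
  · rw [update_of_ne c]
    exact a1 a
  · rw [c, update_self]
    split_ifs <;> simp [a2]
  · rw [update_of_ne c]
    exact a2 a
  · rw [c, update_self, update_self]
    split_ifs
    · simpa using a5 f
    · exact a5 f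
  · rw [update_of_ne c, update_of_ne c]
    exact a5 a

omit [Fintype E] in
lemma idf_cy {e : E} (he : s e ≠ t e) {Y : Finset V}
    (c : CyN (idf (s e) (t e) ∘ s) (idf (s e) (t e) ∘ t) Y) :
    CyN s t {x | idf (s e) (t e) x ∈ Y} := by
  obtain ⟨Z, z1, C, z2, z3⟩ := c
  obtain ⟨a, ha⟩ := card_pos.1 ((card_pos.2 z2.1).trans_le z2.2.2)
  have b0 : e ∉ C := fun q => z3 e q (by simp [idf])
  have b1 : ∀ a ∈ C, s a ≠ t a := fun a p q => z3 a p (by simp [q])
  have b2 : ∀ a ∈ C, s a ∈ ({x | idf (s e) (t e) x ∈ Z} : Finset V) ∧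
      t a ∈ ({x | idf (s e) (t e) x ∈ Z} : Finset V) := fun a p => by simpa using z2.2.1 a p
  have b3 := z2.2.2
  refine ⟨univ.filter fun x => idf (s e) (t e) x ∈ Z, 
    fun x p => mem_filter.2 ⟨mem_univ _, z1 (mem_filter.1 p).2⟩, ?_⟩
  by_cases q : s e ∈ Z
  · refine ⟨insert e C, ⟨⟨_, (b2 a ha).1⟩, forall_mem_insert _ _ _ |>.2 ⟨by simp [idf, q], b2⟩, ?_⟩,
      forall_mem_insert _ _ _ |>.2 ⟨he, b1⟩⟩
    rw [card_insert_of_notMem b0]
    refine (card_le_card (t := insert (t e) Z) fun x p => ?_).trans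
      ((card_insert_le _ _).trans (by omega))
    have := (mem_filter.1 p).2
    by_cases r : x = t e <;> simp [idf, r] at this ⊢
    exact this
  · refine ⟨C, ⟨⟨_, (b2 a ha).1⟩, b2, le_trans (card_le_card fun x p => ?_) b3⟩, b1⟩
    have := (mem_filter.1 p).2
    by_cases r : x = t e <;> simp [idf, r, q] at this ⊢
    exact this

theorem all_main : ∃ K : ℕ, ∀ (V E : Type) [Fintype V] [Fintype E] [DecidableEq V]
    [DecidableEq E] (s t : E → V), (∀ X, ct s t univ X ≠ 1) →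
    (∀ X, CyN s t X → CyN s t Xᶜ → ct s t univ X ≤ 2 ∨ K ≤ ct s t univ X) → HasPair s t := by
  obtain ⟨K, hK⟩ := three_main
  refine ⟨K, fun V E _ _ _ _ s t => ?_⟩
  induction hn : #{e | s e ≠ t e} using Nat.strong_induction_on generalizing s t with
  | _ n ih =>
  intro h1 hc
  by_cases a : ∃ X, ct s t univ X = 2
  · obtain ⟨X, hX⟩ := a
    obtain ⟨e, f, p, q⟩ := card_eq_two.1 hX
    have r : ∀ a, ¬ (s a ∈ X ↔ t a ∈ X) ↔ a = e ∨ a = f := fun a => by
      simpa using Finset.ext_iff.1 q a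
    have he : s e ≠ t e := fun c => (r e).2 (Or.inl rfl) (by rw [c])
    have c : ∀ Y, ct (idf (s e) (t e) ∘ s) (idf (s e) (t e) ∘ t) univ Y =
        ct s t univ {x | idf (s e) (t e) x ∈ Y} := fun Y => by simp [ct]
    refine idf_pair p r (ih _ (hn ▸ card_lt_card ⟨fun a ha => ?_, fun c => ?_⟩) _ _ rfl
      (fun Y => c Y ▸ h1 _) fun Y y1 y2 => c Y ▸ hc _ (idf_cy he y1)
        ((idf_cy he y2).mono fun x => by simp))
    · exact mem_filter.2 ⟨mem_univ _, fun c => (mem_filter.1 ha).2 (by simp [c])⟩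
    · exact (mem_filter.1 (c (mem_filter.2 ⟨mem_univ e, he⟩))).2 (by simp [idf])
  by_cases b : ∃ X, CyN s t X ∧ CyN s t Xᶜ ∧ ct s t univ X = 0
  · have key : ∀ X, CyN s t Xᶜ → ct s t univ X = 0 → HasPair s (kil s t X) := fun X p q => by
      have r : ∀ e, s e ∈ X ↔ t e ∈ X := fun e =>
        not_not.1 (filter_eq_empty_iff.1 (card_eq_zero.1 q) (mem_univ e))
      refine ih _ (hn ▸ card_lt_card ⟨fun a ha => ?_, fun c => ?_⟩) _ _ rfl
        (fun Y => kil_ct r Y ▸ h1 _) fun Y y1 y2 => kil_ct r Y ▸ hc _ (kil_cy r y1)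
          ((kil_cy r y2).mono fun x => by simp +contextual)
      · exact mem_filter.2 ⟨mem_univ _, fun c => (mem_filter.1 ha).2 (by simp [kil, c])⟩
      · obtain ⟨Z, z1, C, z2, z3⟩ := p
        obtain ⟨e, he⟩ := card_pos.1 ((card_pos.2 z2.1).trans_le z2.2.2)
        exact (mem_filter.1 (c (mem_filter.2 ⟨mem_univ e, z3 e he⟩))).2
          (by simp [kil, mem_compl.1 (z1 (z2.2.1 e he).1)])
    obtain ⟨X, p, q, r⟩ := b
    exact kil_pair (key X q r) (key Xᶜ (by rwa [compl_compl]) (by rwa [ct_compl]))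
  push Not at a b
  exact restrict hK h1 a fun X p q => by
    have := hc X p q
    have := b X p q
    have := a X
    have := h1 X
    omega

end Pool.Agent.P.MP_e59a69_co
end
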