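import Pool.Agent.K.MP_e59a69_co.C1
import Mathlib
import Pool.Agent.P.MP_da739a_co.Cover
import Pool.Agent.P.MP_e59a69_co.SRDefs

-- part Pool.Agent.P.MP_e59a69_co.SRSigma
section

/-! The orientation of the perfect matching from a thin pairing of arbitrary singles. -/

open Finset Function

namespace Pool.Agent.P.MP_e59a69_co

variable {V : Type} [Fintype V] [DecidableEq V] {π μ : Equiv.Perm V} {c : ℕ}

theorem sr_sigma (H : Hy π μ c) (hc3 : 3 ≤ c) (S : Finset V) (Q : V → V) (hv : V → Prop)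
    (hQ : ∀ t ∈ S, Q t ∈ S ∧ Q t ≠ t ∧ Q (Q t) = t)
    (h1 : ∀ v, v ∉ S → (hv v ↔ ¬ hv (π.symm v))) (h2 : ∀ s ∈ S, ¬ hv s ∧ ¬ hv (π.symm s))
    (hSd : ∀ x ∈ S, π.symm x ∉ S)
    (hthin : ∀ X, 5 * dQ S Q X ≤ fc π X + mc μ X + 5 * lam π S X) :
    ∃ σ : V → ℤ, (∀ v, σ v = 1 ∨ σ v = -1) ∧ (∀ v, σ (μ v) = - σ v) ∧
      ∀ X : Finset V, 5 * ∑ v ∈ X, σ v ≤ (mc μ X + 6 * fc π X : ℕ) := by
  classical
  have hne : ∀ v, π v ≠ v := fun v => by
    simpa using H.len v 1 one_ne_zero (by simp; omega)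
  let n : V → V := fun v => if hv v then π v else π.symm v
  have hn := heavy_invol S hne hv h1 h2 n (fun v => rfl)
  let ν : V → V := fun v => if v ∈ S then Q v else n v
  obtain ⟨σ, s1, s2, s3⟩ := two_colouring μ ν H.inv
    (fun v => by
      by_cases h : v ∈ S
      · simp only [ν, h, if_true, (hQ v h).1, (hQ v h).2.2]
      · simp only [ν, h, if_false, (hn v h).1, (hn v h).2.2]) H.ne
    (fun v => by
      by_cases h : v ∈ S
      · simp only [ν, h, if_true]; exact (hQ v h).2.1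
      · simp only [ν, h, if_false]; exact (hn v h).2.1)
  have hνν : ∀ v, ν (ν v) = v := fun v => by
    by_cases h : v ∈ S
    · simp only [ν, h, if_true, (hQ v h).1, (hQ v h).2.2]
    · simp only [ν, h, if_false, (hn v h).1, (hn v h).2.2]
  refine ⟨σ, s1, s2, fun X => ?_⟩
  have e1 : ∑ v ∈ X, σ v ≤ #{v ∈ X | ν v ∉ X} := by
    rw [← Finset.sum_filter_add_sum_filter_not X (fun v => ν v ∈ X)]
    have z : ∑ v ∈ X with ν v ∈ X, σ v = 0 :=
      Finset.sum_involution (fun v _ => ν v) (fun v _ => by rw [s3]; ring)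
        (fun v _ _ e => by
          have := s3 v
          rw [e] at this
          rcases s1 v with h | h <;> omega)
        (fun v hv => mem_filter.2 ⟨(mem_filter.1 hv).2, by rw [hνν]; exact (mem_filter.1 hv).1⟩)
        (fun v _ => hνν v)
    rw [z, zero_add, card_eq_sum_ones]
    push_cast
    exact Finset.sum_le_sum fun v _ => by rcases s1 v with h | h <;> omega
  let cut : V → Prop := fun v => ¬ (v ∈ X ↔ π v ∈ X)
  have e2 : #{v ∈ X | ν v ∉ X} ≤ dQ S Q X + #{v ∈ X | v ∉ S ∧ n v ∉ X} := by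
    refine le_trans (card_le_card fun v hv => ?_) (card_union_le _ _)
    rw [mem_filter] at hv
    by_cases h : v ∈ S
    · exact mem_union_left _ (mem_filter.2 ⟨h, hv.1, by simpa only [ν, h, if_true] using hv.2⟩)
    · exact mem_union_right _ (mem_filter.2 ⟨hv.1, h, by simpa only [ν, h, if_false] using hv.2⟩)
  have e3 : #{v ∈ X | v ∉ S ∧ n v ∉ X} ≤ #{v | cut v ∧ hv v} := by
    refine card_le_card_of_injOn (fun v => if hv v then v else π.symm v) (fun v h => ?_)
      (fun v h v' h' e => ?_)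
    · simp only [coe_filter, Set.mem_ofPred_eq, mem_univ, true_and, n, cut] at h ⊢
      split_ifs at h ⊢ with a
      · exact ⟨fun e => h.2.2 (e.1 h.1), a⟩
      · rw [Equiv.apply_symm_apply]
        exact ⟨fun e => h.2.2 (e.2 h.1), by_contra fun b => a ((h1 v h.2.1).2 b)⟩
    · simp only [coe_filter, Set.mem_ofPred_eq, n] at h h' e
      split_ifs at e h h'
      · exact e
      · exact absurd (e ▸ h.1) h'.2.2
      · exact absurd (e ▸ h'.1) h.2.2
      · exact π.symm.injective e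
  have e4 : lam π S X ≤ #{v | cut v ∧ ¬ hv v} := by
    refine card_le_card_of_injOn (fun v => if cut v then v else π.symm v) (fun v h => ?_)
      (fun v h v' h' e => ?_)
    · simp only [coe_filter, Set.mem_ofPred_eq, mem_univ, true_and, zpow_one, zpow_neg] at h ⊢
      split_ifs with a
      · exact ⟨a, (h2 v h.1).1⟩
      · refine ⟨?_, (h2 v h.1).2⟩
        simp only [cut, Equiv.apply_symm_apply]
        exact fun e => (h.2.resolve_left a) e.symm
    · simp only [coe_filter, Set.mem_ofPred_eq] at h h' e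
      split_ifs at e
      · exact e
      · exact absurd (e ▸ h.1) (hSd v' h'.1)
      · exact absurd (e ▸ h'.1) (hSd v h.1)
      · exact π.symm.injective e
  have e5 : #{v | cut v ∧ hv v} + #{v | cut v ∧ ¬ hv v} = fc π X := by
    unfold fc
    rw [← card_filter_add_card_filter_not (s := univ.filter fun v => ¬ (v ∈ X ↔ π v ∈ X)) hv,
      filter_filter, filter_filter]
  have e6 := hthin X
  have e7 : 5 * #{v ∈ X | ν v ∉ X} ≤ mc μ X + 6 * fc π X := by omega
  have e8 : (5 : ℤ) * #{v ∈ X | ν v ∉ X} ≤ (mc μ X + 6 * fc π X : ℕ) := by exact_mod_cast e7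
  linarith

end Pool.Agent.P.MP_e59a69_co
end

-- part Pool.Agent.P.MP_e59a69_co.SRTree
section

/-! Truncated distance: balls of small radius are trees. -/

open Finset

namespace Pool.Agent.P.MP_e59a69_co

variable {V : Type} [Fintype V] [DecidableEq V] {π μ : Equiv.Perm V} {c : ℕ}

/-- properties of the distance truncated at `r` -/
structure IsDist (π μ : Equiv.Perm V) (r : ℕ) (d : V → V → ℕ) : Prop where
  self : ∀ x, d x x = 0
  le : ∀ x y, d x y ≤ r
  zero : ∀ x y, d x y = 0 → y = x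
  base : ∀ x y l, d x y ≤ d (Lt π μ l x) y + 1
  root : ∀ x l, d x (Lt π μ l x) = 1
  tree : ∀ x y, 0 < d x y → d x y < r → ∃ l0, d x (Lt π μ l0 y) + 1 = d x y ∧
    ∀ l, l ≠ l0 → d x (Lt π μ l y) = d x y + 1

lemma srxtree_count (π μ : Equiv.Perm V) (X : Finset V) :
    #{p ∈ X ×ˢ (univ : Finset (Fin 3)) | Lt π μ p.2 p.1 ∈ X} + (fc π X + mc μ X) ≤ 3 * #X := by
  have h1 : #{p ∈ X ×ˢ (univ : Finset (Fin 3)) | Lt π μ p.2 p.1 ∈ X} =
      #{z ∈ X | π z ∈ X} + #{z ∈ X | π⁻¹ z ∈ X} + #{z ∈ X | μ z ∈ X} := by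
    simp only [card_filter]
    rw [sum_product_right, Fin.sum_univ_three]
    rfl
  have h2 : fc π X ≤ #{z ∈ X | π z ∉ X} + #{z ∈ X | π⁻¹ z ∉ X} := by
    refine (card_le_card (t := {z ∈ X | π z ∉ X} ∪
      ({z ∈ X | π⁻¹ z ∉ X} : Finset V).image (fun z => π⁻¹ z)) fun v hv => ?_).trans
      ((card_union_le _ _).trans (Nat.add_le_add_left card_image_le _))
    have hv' := (mem_filter.1 hv).2
    by_cases h : v ∈ X
    · exact mem_union_left _ (mem_filter.2 ⟨h, fun h' => hv' (iff_of_true h h')⟩)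
    · refine mem_union_right _ (mem_image.2 ⟨π v, mem_filter.2 ⟨?_, ?_⟩, by simp⟩)
      · by_contra h'
        exact hv' (iff_of_false h h')
      · simpa using h
  have h3 := card_filter_add_card_filter_not (s := X) (fun z => π z ∈ X)
  have h4 := card_filter_add_card_filter_not (s := X) (fun z => π⁻¹ z ∈ X)
  have h5 := card_filter_add_card_filter_not (s := X) (fun z => μ z ∈ X)
  unfold mc
  omega

lemma srxtree_path {r : ℕ} {x : V} {e : V → ℕ} {pl : V → Fin 3}
    (hp : ∀ z, z ≠ x → e z < r → e (Lt π μ (pl z) z) + 1 = e z) (n : ℕ) :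
    ∀ z, e z ≤ n → e z < r → ∃ X : Finset V, z ∈ X ∧ x ∈ X ∧ #X ≤ n + 1 ∧
      ∀ u ∈ X, u ≠ x → e u < r ∧ Lt π μ (pl u) u ∈ X := by
  have h0 : ∃ X : Finset V, x ∈ X ∧ x ∈ X ∧ #X ≤ 1 ∧
      ∀ u ∈ X, u ≠ x → e u < r ∧ Lt π μ (pl u) u ∈ X :=
    ⟨{x}, mem_singleton_self x, mem_singleton_self x, (card_singleton x).le,
      fun u hu h => absurd (mem_singleton.1 hu) h⟩
  induction n with
  | zero =>
    intro z h1 h2
    by_cases h : z = x
    · exact h ▸ h0
    · have := hp z h h2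
      omega
  | succ n ih =>
    intro z h1 h2
    by_cases h : z = x
    · obtain ⟨X, a1, a2, a3, a4⟩ := h0
      exact ⟨X, h ▸ a1, a2, by omega, a4⟩
    · have h3 := hp z h h2
      obtain ⟨X, a1, a2, a3, a4⟩ := ih (Lt π μ (pl z) z) (by omega) (by omega)
      refine ⟨insert z X, mem_insert_self _ _, mem_insert_of_mem a2,
        (card_insert_le _ _).trans (by omega), fun u hu hx => ?_⟩
      rcases mem_insert.1 hu with rfl | hu
      · exact ⟨h2, mem_insert_of_mem a1⟩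
      · exact ⟨(a4 u hu hx).1, mem_insert_of_mem (a4 u hu hx).2⟩

lemma srxtree_up (H : Hy π μ c) {r : ℕ} (hc : 2 * r + 4 ≤ c) {x : V} {e : V → ℕ}
    {pl : V → Fin 3} (hp : ∀ z, z ≠ x → e z < r → e (Lt π μ (pl z) z) + 1 = e z) {y : V}
    (hy : e y < r) {l : Fin 3} (hl : l ≠ pl y) : e y < e (Lt π μ l y) := by
  by_contra hle
  rw [not_lt] at hle
  obtain ⟨X₁, a1, a2, a3, a4⟩ := srxtree_path hp (e y) y le_rfl hy
  obtain ⟨X₂, b1, -, b3, b4⟩ := srxtree_path hp (e y) (Lt π μ l y) hle (by omega)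
  have c0 := card_union_le X₁ X₂
  have c1 : y ∈ X₁ ∪ X₂ := mem_union_left _ a1
  have c2 : Lt π μ l y ∈ X₁ ∪ X₂ := mem_union_right _ b1
  have c3 : x ∈ X₁ ∪ X₂ := mem_union_left _ a2
  have c4 : ∀ u ∈ X₁ ∪ X₂, u ≠ x → e u < r ∧ Lt π μ (pl u) u ∈ X₁ ∪ X₂ := fun u hu hx => by
    rcases mem_union.1 hu with h | h
    · exact ⟨(a4 u h hx).1, mem_union_left _ (a4 u h hx).2⟩
    · exact ⟨(b4 u h hx).1, mem_union_right _ (b4 u h hx).2⟩
  have c5 := H.small ⟨y, c1⟩ (by omega)
  have c6 := srxtree_count π μ (X₁ ∪ X₂)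
  generalize X₁ ∪ X₂ = X at c1 c2 c3 c4 c5 c6
  let σ : V × Fin 3 → V × Fin 3 := fun p => (Lt π μ p.2 p.1, iv p.2)
  have hσ : Function.Involutive σ := fun p => Prod.ext (Lt_iv H.inv p.2 p.1) (iv_iv p.2)
  let S : Finset (V × Fin 3) := insert (y, l) ((X.erase x).image fun z => (z, pl z))
  have hS : ∀ p ∈ S, p.1 ∈ X ∧ Lt π μ p.2 p.1 ∈ X ∧ e (Lt π μ p.2 p.1) ≤ e p.1 ∧
      (p = (y, l) ∨ e (Lt π μ p.2 p.1) < e p.1) := fun p hp' => by
    rcases mem_insert.1 hp' with rfl | h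
    · exact ⟨c1, c2, hle, Or.inl rfl⟩
    · obtain ⟨z, hz, rfl⟩ := mem_image.1 h
      obtain ⟨z1, z2⟩ := mem_erase.1 hz
      have h1 := hp z z1 (c4 z z2 z1).1
      exact ⟨z2, (c4 z z2 z1).2, h1 ▸ Nat.le_succ _, Or.inr (h1 ▸ Nat.lt_succ_self _)⟩
  have d1 : #S = #X := by
    rw [card_insert_of_notMem, card_image_of_injective _ fun a b h => (Prod.ext_iff.1 h).1,
      card_erase_add_one c3]
    intro h
    obtain ⟨z, -, hz⟩ := mem_image.1 h
    obtain ⟨rfl, h2⟩ := Prod.ext_iff.1 hz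
    exact hl h2.symm
  have d2 : Disjoint S (S.image σ) := by
    refine disjoint_left.2 fun p h1 h2 => ?_
    obtain ⟨q, hq, rfl⟩ := mem_image.1 h2
    obtain ⟨-, -, e1, e2⟩ := hS _ h1
    obtain ⟨-, -, e3, e4⟩ := hS _ hq
    have e5 : Lt π μ (σ q).2 (σ q).1 = q.1 := Lt_iv H.inv q.2 q.1
    have e6 : (σ q).1 = Lt π μ q.2 q.1 := rfl
    rw [e5, e6] at e1 e2
    have e7 : q = (y, l) := e4.resolve_right (by omega)
    have e8 : σ q = (y, l) := e2.resolve_right (by omega)
    rw [e7] at e8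
    obtain ⟨e9, e10⟩ := Prod.ext_iff.1 e8
    have e11 : l = 2 := by
      revert e10
      fin_cases l <;> simp [σ, iv]
    subst e11
    exact H.ne y e9
  have d3 : S ∪ S.image σ ⊆ {p ∈ X ×ˢ (univ : Finset (Fin 3)) | Lt π μ p.2 p.1 ∈ X} := by
    intro p hp'
    rcases mem_union.1 hp' with h | h
    · exact mem_filter.2 ⟨mem_product.2 ⟨(hS p h).1, mem_univ _⟩, (hS p h).2.1⟩
    · obtain ⟨q, hq, rfl⟩ := mem_image.1 h
      refine mem_filter.2 ⟨mem_product.2 ⟨(hS q hq).2.1, mem_univ _⟩, ?_⟩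
      have e5 : Lt π μ (σ q).2 (σ q).1 = q.1 := Lt_iv H.inv q.2 q.1
      rw [e5]
      exact (hS q hq).1
  have d4 := card_le_card d3
  rw [card_union_of_disjoint d2, card_image_of_injective _ hσ.injective, d1] at d4
  omega

theorem Hy.exists_dist (H : Hy π μ c) (r : ℕ) (hr : 1 ≤ r) (hc : 2 * r + 4 ≤ c) :
    ∃ d : V → V → ℕ, IsDist π μ r d := by
  classical
  have hex : ∀ x y : V, ∃ n, (∃ w, Wd π μ n w ∧ w x = y) ∨ r ≤ n := fun x y => ⟨r, Or.inr le_rfl⟩
  obtain ⟨d, hd1, hd2⟩ : ∃ d : V → V → ℕ,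
      (∀ x y, (∃ w, Wd π μ (d x y) w ∧ w x = y) ∨ r ≤ d x y) ∧
      ∀ x y n, ((∃ w, Wd π μ n w ∧ w x = y) ∨ r ≤ n) → d x y ≤ n :=
    ⟨fun x y => Nat.find (hex x y), fun x y => Nat.find_spec (hex x y),
      fun x y n h => Nat.find_min' (hex x y) h⟩
  have h0 : ∀ x y, d x y = 0 → y = x := fun x y h => by
    obtain ⟨w, ⟨l, h1, rfl⟩, h2⟩ := (hd1 x y).resolve_right (by omega)
    rw [h, Nat.le_zero, List.length_eq_zero_iff] at h1
    subst h1
    exact h2.symm
  have h1 : ∀ x y l, d x (Lt π μ l y) ≤ d x y + 1 := fun x y l => by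
    refine hd2 _ _ _ ((hd1 x y).imp (fun ⟨w, a, b⟩ => ⟨Lt π μ l * w, ?_, ?_⟩) fun h => by omega)
    · exact ((wd_letter l).mul a).mono (by omega)
    · rw [Equiv.Perm.mul_apply, b]
  have h2 : ∀ x, d x x = 0 := fun x => Nat.le_zero.1 (hd2 x x 0 (Or.inl ⟨1, wd_one, rfl⟩))
  have h3 : ∀ x z, ∃ l, z ≠ x → d x z < r → d x (Lt π μ l z) + 1 = d x z := fun x z => by
    by_cases hz : z ≠ x ∧ d x z < r
    · obtain ⟨w, ⟨L, a, rfl⟩, b⟩ := (hd1 x z).resolve_right (by omega)
      cases L with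
      | nil => exact absurd b.symm hz.1
      | cons k L =>
        refine ⟨iv k, fun _ _ => le_antisymm ?_ ?_⟩
        · have h4 := hd2 x (Lt π μ (iv k) z) L.length (Or.inl ⟨_, ⟨L, le_rfl, rfl⟩, ?_⟩)
          · rw [List.length_cons] at a
            omega
          · rw [← b, List.map_cons, List.prod_cons, Equiv.Perm.mul_apply, Lt_iv H.inv]
        · have h4 := h1 x (Lt π μ (iv k) z) k
          rwa [Lt_iv' H.inv] at h4
    · exact ⟨0, fun a b => absurd ⟨a, b⟩ hz⟩
  refine ⟨d, h2, fun x y => hd2 x y r (Or.inr le_rfl), h0, fun x y l => ?_, fun x l => ?_,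
    fun x y a b => ?_⟩
  · refine hd2 _ _ _ ((hd1 (Lt π μ l x) y).imp
      (fun ⟨w, a, b⟩ => ⟨w * Lt π μ l, a.mul (wd_letter l), b⟩) fun h => by omega)
  · have h4 := h1 x x l
    have h5 : Lt π μ l x ≠ x := by
      fin_cases l
      · simpa [Lt] using H.len x 1 one_ne_zero (by rw [abs_one]; omega)
      · simpa [Lt] using H.len x (-1) (by norm_num) (by rw [abs_neg, abs_one]; omega)
      · exact H.ne x
    have h6 := mt (h0 x _) h5
    rw [h2] at h4
    omega
  · choose pl hpl using h3 x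
    have hy : y ≠ x := fun h => by
      rw [h, h2] at a
      exact lt_irrefl _ a
    refine ⟨pl y, hpl y hy b, fun l hl => le_antisymm (h1 x y l) ?_⟩
    exact srxtree_up H hc hpl b hl

end Pool.Agent.P.MP_e59a69_co
end

-- part Pool.Agent.P.MP_e59a69_co.SRWalk
section

/-! Distances along reduced words; the two systems of a site are disjoint. -/

open Finset

namespace Pool.Agent.P.MP_e59a69_co

variable {V : Type} [Fintype V] [DecidableEq V] {π μ : Equiv.Perm V} {c : ℕ}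

/-- at distance `j`, arrived by the letter `l` -/
def srxwalkSt (π μ : Equiv.Perm V) (d : V → V → ℕ) (x : V) (l : Fin 3) (j : ℕ) (y : V) : Prop :=
  d x y = j ∧ (j = 0 ∨ d x (Lt π μ (iv l) y) + 1 = j)

omit [Fintype V] [DecidableEq V] in
lemma srxwalk_step {r : ℕ} {d : V → V → ℕ} (hμ : ∀ v, μ (μ v) = v) (D : IsDist π μ r d) {x y : V}
    {l l' : Fin 3} {j : ℕ} (h : srxwalkSt π μ d x l j y) (hj : j < r) (hl : l' ≠ iv l) :
    srxwalkSt π μ d x l' (j + 1) (Lt π μ l' y) := by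
  obtain ⟨h1, h2⟩ := h
  refine ⟨?_, Or.inr (by rw [Lt_iv hμ, h1])⟩
  rcases Nat.eq_zero_or_pos j with h0 | h0
  · subst h0
    rw [D.zero x y h1, D.root]
  · obtain ⟨l0, -, h4⟩ := D.tree x y (by omega) (by omega)
    have e : iv l = l0 := by
      by_contra hne
      have := h4 _ hne
      omega
    rw [h4 l' (e ▸ hl), h1]

omit [Fintype V] [DecidableEq V] in
lemma srxwalk_pow {r : ℕ} {d : V → V → ℕ} (hμ : ∀ v, μ (μ v) = v) (D : IsDist π μ r d) {x y : V}
    {l : Fin 3} (hl : l ≠ 2) {j : ℕ} (h : srxwalkSt π μ d x 2 j y) (n : ℕ) (hn : j + n < r) :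
    srxwalkSt π μ d x l (j + n + 1) ((Lt π μ l ^ (n + 1)) y) := by
  induction n with
  | zero => simpa using srxwalk_step hμ D h hn (l' := l) hl
  | succ n ih =>
    rw [pow_succ', Equiv.Perm.mul_apply]
    exact srxwalk_step hμ D (ih (by omega)) hn ((by decide : ∀ l : Fin 3, l ≠ 2 → l ≠ iv l) l hl)

omit [Fintype V] [DecidableEq V] in
lemma srxwalk_run {r : ℕ} {d : V → V → ℕ} (hμ : ∀ v, μ (μ v) = v) (D : IsDist π μ r d) {x y : V}
    {j : ℕ} (h : srxwalkSt π μ d x 2 j y) {a : ℤ} (ha : a ≠ 0) (hn : j + a.natAbs ≤ r) :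
    ∃ l, l ≠ 2 ∧ srxwalkSt π μ d x l (j + a.natAbs) ((π ^ a) y) := by
  obtain ⟨n, hn'⟩ : ∃ n, a.natAbs = n + 1 := ⟨a.natAbs - 1, by omega⟩
  rcases Int.natAbs_eq a with e | e
  · refine ⟨0, by decide, ?_⟩
    have := srxwalk_pow hμ D (l := 0) (by decide) h n (by omega)
    rw [Lt_zero, ← zpow_natCast, ← hn', ← e] at this
    rwa [hn']
  · refine ⟨1, by decide, ?_⟩
    have := srxwalk_pow hμ D (l := 1) (by decide) h n (by omega)
    rw [Lt_one, inv_pow, ← zpow_natCast, ← zpow_neg, ← hn', ← e] at this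
    rwa [hn']

omit [Fintype V] [DecidableEq V] in
lemma srxwalk_run2 {r : ℕ} {d : V → V → ℕ} (hμ : ∀ v, μ (μ v) = v) (D : IsDist π μ r d) {x y : V}
    {j : ℕ} (h : srxwalkSt π μ d x 2 j y) {a : ℤ} (ha : a ≠ 0) (hn : j + a.natAbs < r) :
    srxwalkSt π μ d x 2 (j + a.natAbs + 1) (μ ((π ^ a) y)) := by
  obtain ⟨l, hl, h2⟩ := srxwalk_run hμ D h ha hn.le
  exact srxwalk_step hμ D h2 hn (l' := 2) ((by decide : ∀ l : Fin 3, l ≠ 2 → 2 ≠ iv l) l hl)

omit [Fintype V] [DecidableEq V] in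
lemma IsDist.zpow {r : ℕ} {d : V → V → ℕ} (hμ : ∀ v, μ (μ v) = v) (D : IsDist π μ r d) (x : V)
    (t : ℤ) (ht : t.natAbs ≤ r) : d x ((π ^ t) x) = t.natAbs := by
  by_cases h0 : t = 0
  · subst h0
    simpa using D.self x
  · obtain ⟨l, -, h, -⟩ := srxwalk_run hμ D (x := x) (y := x) (j := 0) ⟨D.self x, Or.inl rfl⟩ h0
      (by omega)
    simpa using h

lemma Hy.g3 (H : Hy π μ c) (v : V) {a b e : ℤ} (ha : a ≠ 0) (hb : b ≠ 0) (he : e ≠ 0)
    (h : 2 * (|a| + |b| + |e|) + 10 ≤ c) :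
    μ ((π ^ a) (μ ((π ^ b) (μ ((π ^ e) v))))) ≠ v := by
  intro heq
  rw [Int.abs_eq_natAbs, Int.abs_eq_natAbs, Int.abs_eq_natAbs] at h
  obtain ⟨d, D⟩ := H.exists_dist (a.natAbs + b.natAbs + e.natAbs + 3) (by omega) (by omega)
  have h1 := srxwalk_run2 H.inv D (x := v) (y := v) (j := 0) ⟨D.self v, Or.inl rfl⟩ he (by omega)
  have h2 := srxwalk_run2 H.inv D h1 hb (by omega)
  have h3 := (srxwalk_run2 H.inv D h2 ha (by omega)).1
  rw [heq, D.self] at h3
  omega

/-- the partner of a site -/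
def qq (π μ : Equiv.Perm V) : Equiv.Perm V := π ^ (3 : ℤ) * μ * π ^ (-3 : ℤ)

lemma Hy.site_disj (H : Hy π μ c) {L : ℕ} (hL : 4 * L + 40 ≤ c) (p : V) {a b : ℤ}
    (ha : a = 0 ∨ a = 1) (hb : b = 0 ∨ b = 1) :
    Disjoint (Sys π μ L ((π ^ a) p)) (Sys π μ L ((π ^ b) (qq π μ p))) := by
  obtain ⟨v, rfl⟩ : ∃ v, p = (π ^ (3 : ℤ)) v := ⟨(π ^ (-3 : ℤ)) p, by rw [zp_add]; simp⟩
  have hq : qq π μ ((π ^ (3 : ℤ)) v) = (π ^ (3 : ℤ)) (μ v) := by
    simp only [qq, Equiv.Perm.mul_apply, zp_add]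
    simp
  have mv : ∀ {s t : ℤ} {x y : V}, (π ^ s) x = (π ^ t) y → x = (π ^ (t - s)) y := by
    intro s t x y e
    apply (π ^ s).injective
    rw [e, zp_add]; congr 2; ring
  rw [hq, zp_add, zp_add, Finset.disjoint_left]
  intro z h1 h2
  unfold Sys at h1 h2
  obtain ⟨j, hj, h1⟩ := mem_biUnion.1 h1
  obtain ⟨k, hk, h2⟩ := mem_biUnion.1 h2
  obtain ⟨t, t1, t2, e1⟩ := mem_Iv.1 h1
  obtain ⟨u, u1, u2, e2⟩ := mem_Iv.1 h2
  rw [mem_Icc] at hj hk
  have e := e1.trans e2.symm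
  by_cases j3 : j = 3 <;> by_cases k3 : k = 3
  · subst j3 k3
    rw [Cen_three, Cen_three, zp_add, zp_add] at e
    refine H.g1 v ?_ (mv e.symm)
    have : |t + (a + 3) - (u + (b + 3))| ≤ 2 * L + 1 := abs_le.2 ⟨by omega, by omega⟩
    omega
  · subst j3
    rw [Cen_three, Cen_ne _ _ k3, zp_add, zp_add] at e
    refine H.g2 (μ v) (k := k + (b + 3)) (t := t + (a + 3) - u) (by omega) ?_ ?_
    · have : |t + (a + 3) - u| ≤ 2 * L + 4 := abs_le.2 ⟨by omega, by omega⟩
      have : |k + (b + 3)| ≤ 6 := abs_le.2 ⟨by omega, by omega⟩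
      omega
    · rw [H.inv]; exact mv e.symm
  · subst k3
    rw [Cen_three, Cen_ne _ _ j3, zp_add, zp_add] at e
    refine H.g2 v (k := j + (a + 3)) (t := u + (b + 3) - t) (by omega) ?_ (mv e)
    have : |u + (b + 3) - t| ≤ 2 * L + 4 := abs_le.2 ⟨by omega, by omega⟩
    have : |j + (a + 3)| ≤ 6 := abs_le.2 ⟨by omega, by omega⟩
    omega
  · rw [Cen_ne _ _ j3, Cen_ne _ _ k3, zp_add, zp_add] at e
    by_cases htu : t = u
    · subst htu
      refine H.g1 v ?_ (mv (μ.injective ((π ^ t).injective e)).symm)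
      have : |j + (a + 3) - (k + (b + 3))| ≤ 6 := abs_le.2 ⟨by omega, by omega⟩
      omega
    · refine H.g3 ((π ^ (j + (a + 3))) v) (a := u - t) (b := k + (b + 3)) (e := -(j + (a + 3)))
        (by omega) (by omega) (by omega) ?_ ?_
      · have : |u - t| ≤ 2 * L := abs_le.2 ⟨by omega, by omega⟩
        have : |k + (b + 3)| ≤ 6 := abs_le.2 ⟨by omega, by omega⟩
        have : |-(j + (a + 3))| ≤ 6 := abs_le.2 ⟨by omega, by omega⟩
        omega
      · rw [zp_add, neg_add_cancel, zpow_zero, Equiv.Perm.one_apply, ← mv e, H.inv]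

end Pool.Agent.P.MP_e59a69_co
end

-- part Pool.Agent.P.MP_e59a69_co.SRJoin
section

/-! The parity step: a T-join inside the chosen sites and the positions of the singles. -/

open Finset

namespace Pool.Agent.P.MP_e59a69_co

variable {V : Type} [Fintype V] [DecidableEq V]

lemma exists_parity (π q : Equiv.Perm V) (hq : ∀ v, q (q v) = v) (hq' : ∀ v, q v ≠ v)
    (K : Finset V)
    (hK : ∀ x : V → ℝ, (∀ v, x (π v) = x v) → (∀ e ∈ K, x e = x (q e)) → ∀ v, x v = x (q v)) :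
    ∃ (x : V → ZMod 2) (P : Finset V), (∀ p ∈ P, q p ∈ P) ∧ (∀ p ∈ P, p ∈ K ∨ q p ∈ K) ∧
      ∀ z, x z + x (π.symm z) + (if z ∈ P then 1 else 0) = 1 := by
  classical
  have z2 : ∀ a : ZMod 2, a = 0 ∨ a = 1 := by decide
  let T : ((V → ZMod 2) × (V → ZMod 2)) →ₗ[ZMod 2] (V → ZMod 2) :=
    { toFun := fun w z => w.1 z + w.1 (π.symm z) +
        ((if z ∈ K then w.2 z else 0) + (if q z ∈ K then w.2 (q z) else 0))
      map_add' := by
        intro u w
        funext z
        simp only [Prod.fst_add, Prod.snd_add, Pi.add_apply]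
        split_ifs <;> ring
      map_smul' := by
        intro c w
        funext z
        simp only [Prod.smul_fst, Prod.smul_snd, Pi.smul_apply, smul_eq_mul, RingHom.id_apply]
        split_ifs <;> ring }
  have hT : ∀ w z, T w z = w.1 z + w.1 (π.symm z) +
        ((if z ∈ K then w.2 z else 0) + (if q z ∈ K then w.2 (q z) else 0)) := fun _ _ => rfl
  by_cases h1 : (1 : V → ZMod 2) ∈ LinearMap.range T
  · obtain ⟨⟨x, j⟩, hw⟩ := h1
    refine ⟨x, univ.filter (fun z =>
      (if z ∈ K then j z else 0) + (if q z ∈ K then j (q z) else 0) = 1), ?_, ?_, ?_⟩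
    · intro p hp
      rw [mem_filter] at hp ⊢
      refine ⟨mem_univ _, ?_⟩
      rw [hq, add_comm]
      exact hp.2
    · intro p hp
      rw [mem_filter] at hp
      by_contra hc
      push Not at hc
      have := hp.2
      rw [if_neg hc.1, if_neg hc.2] at this
      exact absurd this (by decide)
    · intro z
      have hz := congrFun hw z
      rw [hT] at hz
      simp only [Pi.one_apply] at hz
      simp only [mem_filter, mem_univ, true_and]
      rcases z2 ((if z ∈ K then j z else 0) + (if q z ∈ K then j (q z) else 0)) with h | h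
      · rw [h] at hz
        rw [if_neg (by rw [h]; decide)]
        exact hz
      · rw [h] at hz
        rw [if_pos h]
        exact hz
  · exfalso
    obtain ⟨φ, hφ1, hφ⟩ := Submodule.exists_dual_map_eq_bot_of_notMem h1 inferInstance
    have hφ0 : ∀ w, φ (T w) = 0 := by
      intro w
      have : φ (T w) ∈ (LinearMap.range T).map φ :=
        Submodule.mem_map_of_mem (LinearMap.mem_range_self T w)
      rw [hφ] at this
      exact (Submodule.mem_bot _).1 this
    let y : V → ZMod 2 := fun v => φ (Pi.single v 1)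
    have eq2 : ∀ a b : ZMod 2, a + b = 0 → a = b := by decide
    have hπ : ∀ v, y (π v) = y v := by
      intro v
      have e : T (Pi.single v 1, 0) = Pi.single v 1 + Pi.single (π v) 1 := by
        funext z
        rw [hT]
        simp only [Pi.add_apply, Pi.zero_apply, ite_self, add_zero, Pi.single_apply,
          Equiv.symm_apply_eq]
      have := hφ0 (Pi.single v 1, 0)
      rw [e, map_add] at this
      exact (eq2 _ _ this).symm
    have hKy : ∀ e ∈ K, y e = y (q e) := by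
      intro v hv
      have e : T (0, Pi.single v 1) = Pi.single v 1 + Pi.single (q v) 1 := by
        funext z
        rw [hT]
        simp only [Pi.add_apply, Pi.zero_apply, add_zero, zero_add, Pi.single_apply]
        have a1 : (if z ∈ K then (if z = v then (1 : ZMod 2) else 0) else 0) =
            if z = v then 1 else 0 := by
          by_cases hz : z = v
          · subst hz; simp [hv]
          · simp [hz]
        have a2 : (if q z ∈ K then (if q z = v then (1 : ZMod 2) else 0) else 0) =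
            if z = q v then 1 else 0 := by
          by_cases hz : z = q v
          · subst hz; simp [hq, hv]
          · have : q z ≠ v := fun h => hz (by rw [← h, hq])
            simp [hz, this]
        rw [a1, a2]
      have := hφ0 (0, Pi.single v 1)
      rw [e, map_add] at this
      exact eq2 _ _ this
    have hall : ∀ v, y v = y (q v) := by
      intro v
      have := hK (fun v => if y v = 0 then 0 else 1) (fun v => by simp only [hπ])
        (fun e he => by simp only [← hKy e he]) v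
      rcases z2 (y v) with h | h <;> rcases z2 (y (q v)) with h' | h'
      · rw [h, h']
      · rw [h, h', if_pos rfl, if_neg (by decide)] at this
        exact absurd this (by norm_num)
      · rw [h, h', if_pos rfl, if_neg (by decide)] at this
        exact absurd this (by norm_num)
      · rw [h, h']
    apply hφ1
    have e1 : (1 : V → ZMod 2) = ∑ v, Pi.single v 1 := by
      funext z
      simp [Finset.sum_apply, Pi.single_apply]
    rw [e1, map_sum]
    have self2 : ∀ a : ZMod 2, a + a = 0 := by decide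
    refine Finset.sum_involution (f := y) (fun a _ => q a) ?_ ?_ (fun _ _ => mem_univ _) ?_
    · intro a _
      rw [← hall a]
      exact self2 _
    · intro a _ _
      exact hq' a
    · intro a _
      exact hq a

omit [Fintype V] in
lemma exists_singles (π : Equiv.Perm V) (x : V → ZMod 2) (P : Finset V)
    (hP : ∀ p ∈ P, π p ∉ P)
    (hx : ∀ z, x z + x (π.symm z) + (if z ∈ P then 1 else 0) = 1) :
    ∃ (s : V → V) (hv : V → Prop), (∀ p, s p = p ∨ s p = π p) ∧
      (∀ v, v ∉ P.image s → (hv v ↔ ¬ hv (π.symm v))) ∧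
      ∀ t ∈ P.image s, ¬ hv t ∧ ¬ hv (π.symm t) := by
  classical
  have z2 : ∀ a : ZMod 2, a = 0 ∨ a = 1 := by decide
  refine ⟨fun p => if x p = 0 then p else π p, fun v => x v = 1 ∧ v ∉ P, ?_, ?_, ?_⟩
  · intro p
    by_cases h : x p = 0
    · left; simp [h]
    · right; simp [h]
  · intro v hv
    have hz := hx v
    have hn : ∀ p ∈ P, (if x p = 0 then p else π p) ≠ v := fun p hp h =>
      hv (mem_image.2 ⟨p, hp, h⟩)
    have hA : v ∈ P → x v = 1 := by
      intro h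
      rcases z2 (x v) with h0 | h0
      · exact absurd (by simp [h0]) (hn v h)
      · exact h0
    have hB : π.symm v ∈ P → x (π.symm v) = 0 := by
      intro h
      by_contra h0
      exact absurd (by simp [h0]) (hn _ h)
    have hC : π.symm v ∈ P → v ∉ P := fun h => by simpa using hP _ h
    by_cases h1 : v ∈ P
    · have h2 : π.symm v ∉ P := fun h => hC h h1
      rw [if_pos h1, hA h1] at hz
      have h3 : x (π.symm v) = 1 := by
        rcases z2 (x (π.symm v)) with h0 | h0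
        · rw [h0] at hz
          exact absurd hz (by decide)
        · exact h0
      simp [h1, h2, h3]
    · rw [if_neg h1] at hz
      by_cases h2 : π.symm v ∈ P
      · rw [hB h2] at hz
        have h3 : x v = 1 := by simpa using hz
        simp [h1, h2, h3]
      · rcases z2 (x v) with h0 | h0 <;> rcases z2 (x (π.symm v)) with h3 | h3
        · rw [h0, h3] at hz
          exact absurd hz (by decide)
        · simp [h0, h3, h1, h2]
        · simp [h0, h3, h1, h2]
        · rw [h0, h3] at hz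
          exact absurd hz (by decide)
  · intro t ht
    obtain ⟨p, hp, rfl⟩ := mem_image.1 ht
    by_cases h : x p = 0
    · simp only [h, if_true]
      have hz := hx p
      rw [if_pos hp, h] at hz
      have h3 : x (π.symm p) = 0 := by
        rcases z2 (x (π.symm p)) with h0 | h0
        · exact h0
        · rw [h0] at hz
          exact absurd hz (by decide)
      refine ⟨fun hh => hh.2 hp, fun hh => ?_⟩
      rw [h3] at hh
      exact absurd hh.1 (by decide)
    · simp only [h, if_false, Equiv.symm_apply_apply]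
      have h1 : x p = 1 := (z2 _).resolve_left h
      have hz := hx (π p)
      rw [if_neg (hP p hp), Equiv.symm_apply_apply, h1] at hz
      refine ⟨fun hh => ?_, fun hh => hh.2 hp⟩
      rw [hh.1] at hz
      exact absurd hz (by decide)

end Pool.Agent.P.MP_e59a69_co
end

-- part Pool.Agent.P.MP_e59a69_co.SRSites
section

/-! From a thin, spanning, conflict-free set of sites to the orientation of the matching. -/

open Finset

namespace Pool.Agent.P.MP_e59a69_co

variable {V : Type} [Fintype V] [DecidableEq V] {π μ : Equiv.Perm V} {c : ℕ}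

/-- the four candidate positions of a single at a site -/
def pos (π μ : Equiv.Perm V) (a : Bool × Bool) : Equiv.Perm V :=
  π ^ (if a.1 then (1 : ℤ) else 0) * (if a.2 then qq π μ else 1)

/-- the test words of a site -/
def tw (π μ : Equiv.Perm V) (L : ℕ) (i : (Bool × Bool) × Fin 6 × Bool) : Equiv.Perm V :=
  hbase π μ L i.2 * pos π μ i.1

/-- two sites are in conflict -/
def Conf (π μ : Equiv.Perm V) (L : ℕ) (k k' : V) : Prop :=
  ∃ a a' : Bool × Bool, ¬ Disjoint (Sys π μ L (pos π μ a k)) (Sys π μ L (pos π μ a' k'))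

omit [Fintype V] [DecidableEq V] in
lemma qq_qq (hμ : ∀ v, μ (μ v) = v) (v : V) : qq π μ (qq π μ v) = v := by
  simp only [qq, Equiv.Perm.mul_apply, zp_add, neg_add_cancel, zpow_zero, Equiv.Perm.one_apply, hμ,
    add_neg_cancel]

omit [Fintype V] [DecidableEq V] in
lemma qq_ne (hμ : ∀ v, μ v ≠ v) (v : V) : qq π μ v ≠ v := by
  intro e
  apply hμ ((π ^ (-3 : ℤ)) v)
  apply (π ^ (3 : ℤ)).injective
  rw [zp_add]
  simpa [qq] using e

omit [Fintype V] [DecidableEq V] in
lemma wd_tw (L : ℕ) (i : (Bool × Bool) × Fin 6 × Bool) : Wd π μ (L + 13) (tw π μ L i) := by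
  have h1 : Wd π μ (L + 1) (π ^ (if i.2.2 then (0 : ℤ) else -(L + 1))) :=
    (wd_zpow _).mono (by split_ifs <;> omega)
  have h2 : Wd π μ 4 (Cen π μ ((i.2.1 : ℕ) - 2)) := by
    unfold Cen
    split_ifs
    · exact wd_one.mono (by omega)
    · exact (wd_mu.mul (wd_zpow _)).mono (by have := i.2.1.2; omega)
  have h3 : Wd π μ 1 (π ^ (if i.1.1 then (1 : ℤ) else 0)) :=
    (wd_zpow _).mono (by split_ifs <;> omega)
  have h4 : Wd π μ 7 (if i.1.2 then qq π μ else 1) := by
    split_ifs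
    · exact ((wd_zpow 3).mul wd_mu).mul (wd_zpow (-3))
    · exact wd_one.mono (by omega)
  exact ((h1.mul h2).mul (h3.mul h4)).mono (by omega)

lemma conf_card (L : ℕ) (k : V) [DecidablePred (Conf π μ L k)] :
    #{y | Conf π μ L k y} ≤ (24 * (2 * L + 1)) ^ 2 := by
  let T : Finset ((Bool × Bool) × ℤ × ℤ) := univ ×ˢ Icc (-2 : ℤ) 3 ×ˢ Icc (-L : ℤ) L
  let u : (Bool × Bool) × ℤ × ℤ → Equiv.Perm V := fun τ =>
    π ^ τ.2.2 * Cen π μ τ.2.1 * pos π μ τ.1
  have hT : #T = 24 * (2 * L + 1) := by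
    simp only [T, card_product, card_univ, Fintype.card_prod, Fintype.card_bool, Int.card_Icc]
    have : ((L : ℤ) + 1 - -L).toNat = 2 * L + 1 := by omega
    have h6 : ((3 : ℤ) + 1 - -2).toNat = 6 := rfl
    rw [this, h6]
    ring
  have hm : ∀ a x z, z ∈ Sys π μ L (pos π μ a x) → ∃ τ ∈ T, u τ x = z := by
    intro a x z hz
    obtain ⟨j, hj, hz⟩ := mem_biUnion.1 hz
    obtain ⟨t, t1, t2, e⟩ := mem_Iv.1 hz
    exact ⟨(a, j, t), by simp only [T, mem_product, mem_univ, true_and]; exact ⟨hj, mem_Icc.2 ⟨t1, t2⟩⟩,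
      e⟩
  rw [← hT, sq, ← card_product]
  refine le_trans (card_le_card fun y hy => ?_)
    (card_image_le (f := fun p : _ × _ => (u p.2).symm (u p.1 k)))
  obtain ⟨a, a', h⟩ := (mem_filter.1 hy).2
  obtain ⟨z, z1, z2⟩ := not_disjoint_iff.1 h
  obtain ⟨τ, hτ, e⟩ := hm _ _ _ z1
  obtain ⟨τ', hτ', e'⟩ := hm _ _ _ z2
  exact mem_image.2 ⟨(τ, τ'), mem_product.2 ⟨hτ, hτ'⟩, by
    rw [Equiv.symm_apply_eq, e, e']⟩

omit [Fintype V] in
lemma seg_half {L : ℕ} (hL : 1 ≤ L) (X : Finset V) (x : V)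
    (h : ∀ t : ℕ, t < L → (π ^ (t + 1)) x ∈ X) :
    seg π L x (fun v => if v ∈ X then 1 else 0) = 1 := by
  rw [seg_apply, Finset.sum_congr rfl fun t ht => if_pos (h t (mem_range.1 ht))]
  have : (L : ℝ) ≠ 0 := by positivity
  simp [this]

lemma seg_half' {L : ℕ} (X : Finset V) (x : V)
    (h : ∀ t : ℕ, t < L → (π ^ (t + 1)) x ∈ Xᶜ) :
    seg π L x (fun v => if v ∈ X then 1 else 0) = 0 := by
  rw [seg_apply, Finset.sum_congr rfl fun t ht => if_neg (mem_compl.1 (h t (mem_range.1 ht)))]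
  simp

theorem sr_sites (H : Hy π μ c) {L : ℕ} (hL2 : 2 ≤ L) (hL : 4 * L + 40 ≤ c) (K : Finset V)
    (hconf : ∀ k ∈ K, ∀ k' ∈ K, k ≠ k' → ¬ Conf π μ L k k')
    (hspan : ∀ x : V → ℝ, (∀ v, x (π v) = x v) → (∀ e ∈ K, x e = x (qq π μ e)) →
      ∀ v, x v = x (qq π μ v))
    (hthin : ∀ X : Finset V, 60 * ∑ k ∈ K, ∑ i, (seg π L (tw π μ L i k)
      (fun v => if v ∈ X then 1 else 0) - seg π L k (fun v => if v ∈ X then 1 else 0)) ^ 2 ≤
        (fc π X + mc μ X : ℕ)) :
    ∃ σ : V → ℤ, (∀ v, σ v = 1 ∨ σ v = -1) ∧ (∀ v, σ (μ v) = - σ v) ∧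
      ∀ X : Finset V, 5 * ∑ v ∈ X, σ v ≤ (mc μ X + 6 * fc π X : ℕ) := by
  classical
  set q := qq π μ with hq
  have hqq : ∀ v, q (q v) = v := qq_qq H.inv
  have hqn : ∀ v, q v ≠ v := qq_ne H.ne
  obtain ⟨x, P, p1, p2, p3⟩ := exists_parity π q hqq hqn K hspan
  let k : V → V := fun p => if p ∈ K then p else q p
  have hk : ∀ p ∈ P, k p ∈ K := fun p hp => by
    simp only [k]
    split_ifs with h
    · exact h
    · exact (p2 p hp).resolve_left h
  have hpos : ∀ p (a : ℤ), a = 0 ∨ a = 1 → ∃ b, pos π μ b (k p) = (π ^ a) p := by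
    intro p a ha
    refine ⟨(decide (a = 1), decide (p ∉ K)), ?_⟩
    by_cases h : p ∈ K <;> rcases ha with rfl | rfl <;> simp [pos, k, h, ← hq, hqq]
  have hpos' : ∀ p (a : ℤ), a = 0 ∨ a = 1 → ∃ b, pos π μ b (k p) = (π ^ a) (q p) := by
    intro p a ha
    refine ⟨(decide (a = 1), decide (p ∈ K)), ?_⟩
    by_cases h : p ∈ K <;> rcases ha with rfl | rfl <;> simp [pos, k, h, ← hq]
  have hkk : ∀ p p', k p = k p' → p' = p ∨ p' = q p := by
    intro p p' e
    simp only [k] at e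
    split_ifs at e
    · exact Or.inl e.symm
    · exact Or.inr (by rw [e, hqq])
    · exact Or.inr e.symm
    · exact Or.inl (q.injective e).symm
  have hP : ∀ p ∈ P, ∀ p' ∈ P, p ≠ p' → ∀ a b : ℤ, a = 0 ∨ a = 1 → b = 0 ∨ b = 1 →
      Disjoint (Sys π μ L ((π ^ a) p)) (Sys π μ L ((π ^ b) p')) := by
    intro p hp p' hp' hne a b ha hb
    by_cases e : k p = k p'
    · rcases hkk p p' e with h | h
      · exact absurd h.symm hne
      · rw [h]; exact H.site_disj hL p ha hb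
    · obtain ⟨u, hu⟩ := hpos p a ha
      obtain ⟨u', hu'⟩ := hpos p' b hb
      by_contra hc
      exact hconf _ (hk p hp) _ (hk p' hp') e ⟨u, u', by rwa [hu, hu']⟩
  have hself : ∀ v (t : ℤ), -2 ≤ t → t ≤ 2 → (π ^ t) v ∈ Sys π μ L v := fun v t h1 h2 =>
    pow_mem_Sys v (by omega) (by omega)
  have hne : ∀ v, π v ≠ v := fun v => by
    simpa using H.len v 1 one_ne_zero (by simp; omega)
  have hPπ : ∀ p ∈ P, π p ∉ P := fun p hp h => by
    have := hP p hp (π p) h (hne p).symm 1 0 (Or.inr rfl) (Or.inl rfl)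
    simp only [zpow_one, zpow_zero, Equiv.Perm.one_apply] at this
    exact Finset.disjoint_left.1 this (by simpa using hself (π p) 0 (by omega) (by omega))
      (by simpa using hself (π p) 0 (by omega) (by omega))
  obtain ⟨s, hv, s1, s2, s3⟩ := exists_singles π x P hPπ p3
  have hs : ∀ p, ∃ a : ℤ, (a = 0 ∨ a = 1) ∧ s p = (π ^ a) p := fun p => by
    rcases s1 p with h | h
    · exact ⟨0, Or.inl rfl, by simpa using h⟩
    · exact ⟨1, Or.inr rfl, by simpa using h⟩
  let b : V → V := fun z => if z ∈ P then z else π.symm z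
  have hb : ∀ p ∈ P, b (s p) = p := fun p hp => by
    rcases s1 p with h | h <;> rw [h]
    · simp [b, hp]
    · simp [b, hPπ p hp]
  let Q : V → V := fun z => s (q (b z))
  have hQ : ∀ p ∈ P, Q (s p) = s (q p) := fun p hp => by simp only [Q, hb p hp]
  have hdis : ∀ t ∈ P.image s, ∀ t' ∈ P.image s, t ≠ t' →
      Disjoint (Sys π μ L t) (Sys π μ L t') := by
    intro t ht t' ht' hne
    obtain ⟨p, hp, rfl⟩ := mem_image.1 ht
    obtain ⟨p', hp', rfl⟩ := mem_image.1 ht'
    obtain ⟨a, ha, e⟩ := hs p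
    obtain ⟨a', ha', e'⟩ := hs p'
    rw [e, e']
    exact hP p hp p' hp' (fun h => hne (by rw [h])) a a' ha ha'
  have hQS : ∀ t ∈ P.image s, Q t ∈ P.image s ∧ Q t ≠ t ∧ Q (Q t) = t := by
    intro t ht
    obtain ⟨p, hp, rfl⟩ := mem_image.1 ht
    rw [hQ p hp, hQ _ (p1 p hp), hqq]
    refine ⟨mem_image_of_mem s (p1 p hp), fun e => hqn p ?_, rfl⟩
    rw [← hb _ (p1 p hp), e, hb p hp]
  refine sr_sigma H (by omega) (P.image s) Q hv hQS s2 s3 (fun t ht h => ?_) fun X => ?_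
  · have a1 : π.symm t ≠ t := fun e => hne t (by rw [Equiv.symm_apply_eq] at e; exact e.symm)
    exact Finset.disjoint_left.1 (hdis _ h _ ht a1)
      (by simpa using hself (π.symm t) 0 (by omega) (by omega))
      (by simpa using hself t (-1) (by omega) (by omega))
  refine sr_thin H hL2 (by omega) _ Q (fun t ht => ⟨(hQS t ht).1, (hQS t ht).2.2⟩) hdis
    (fun X B hB h => ?_) X
  let y : V → ℝ := fun v => if v ∈ X then 1 else 0
  let g : V → ℝ := fun z => ∑ i, (seg π L (tw π μ L i z) y - seg π L z y) ^ 2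
  have hg0 : ∀ z, 0 ≤ g z := fun z => Finset.sum_nonneg fun i _ => sq_nonneg _
  have hg : ∀ t ∈ B, 1 / 2 ≤ g (k (b t)) := by
    intro t ht
    obtain ⟨p, hp, rfl⟩ := mem_image.1 (hB ht)
    obtain ⟨-, -, ⟨i, hi⟩, ⟨i', hi'⟩⟩ := h _ ht
    rw [hQ p hp] at hi'
    rw [hb p hp]
    obtain ⟨a, ha, e⟩ := hs p
    obtain ⟨a', ha', e'⟩ := hs (q p)
    obtain ⟨u, hu⟩ := hpos p a ha
    obtain ⟨u', hu'⟩ := hpos' p a' ha'
    have v1 : seg π L (tw π μ L (u, i) (k p)) y = 1 :=
      seg_half (by omega) X _ (by simpa only [tw, Equiv.Perm.mul_apply, hu, ← e] using hi)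
    have v2 : seg π L (tw π μ L (u', i') (k p)) y = 0 :=
      seg_half' X _ (by simpa only [tw, Equiv.Perm.mul_apply, hu', ← e'] using hi')
    have hne : (u, i) ≠ (u', i') := fun e => by rw [e, v2] at v1; exact zero_ne_one v1
    have := Finset.sum_le_sum_of_subset_of_nonneg (subset_univ {(u, i), (u', i')})
      (f := fun i => (seg π L (tw π μ L i (k p)) y - seg π L (k p) y) ^ 2)
      fun i _ _ => sq_nonneg _
    rw [Finset.sum_pair hne, v1, v2] at this
    refine le_trans ?_ this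
    nlinarith [sq_nonneg (seg π L (k p) y - 1 / 2)]
  have hinj : Set.InjOn (fun t => k (b t)) B := by
    intro t ht t' ht' e
    obtain ⟨p, hp, rfl⟩ := mem_image.1 (hB ht)
    obtain ⟨p', hp', rfl⟩ := mem_image.1 (hB ht')
    simp only [hb p hp, hb p' hp'] at e
    rcases hkk p p' e with h1 | h1
    · rw [h1]
    · exact absurd (h _ ht').1 (by rw [h1, ← hQ p hp]; exact (h _ ht).2.1)
  have e1 : (#B : ℝ) * (1 / 2) ≤ ∑ z ∈ K, g z := by
    calc (#B : ℝ) * (1 / 2) = ∑ _t ∈ B, (1 / 2 : ℝ) := by simp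
      _ ≤ ∑ t ∈ B, g (k (b t)) := Finset.sum_le_sum hg
      _ = ∑ z ∈ B.image fun t => k (b t), g z := (Finset.sum_image hinj).symm
      _ ≤ _ := Finset.sum_le_sum_of_subset_of_nonneg (fun z hz => by
          obtain ⟨t, ht, rfl⟩ := mem_image.1 hz
          obtain ⟨p, hp, rfl⟩ := mem_image.1 (hB ht)
          rw [hb p hp]; exact hk p hp) fun z _ _ => hg0 z
  have e2 := hthin X
  have e3 : ((30 * #B : ℕ) : ℝ) ≤ (fc π X + mc μ X : ℕ) := by
    refine le_trans ?_ e2
    push_cast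
    linarith
  exact_mod_cast e3

end Pool.Agent.P.MP_e59a69_co
end

-- part Pool.Agent.P.MP_e59a69_co.SRGreen
section

/-! Truncated Green functions and the spheres of neighbouring vertices. -/

open Finset

namespace Pool.Agent.P.MP_e59a69_co

variable {V κ : Type} [Fintype V] [DecidableEq V] [Fintype κ] {π μ : Equiv.Perm V}
  {G : (V → ℝ) →ₗ[ℝ] κ → ℝ} {r : ℕ} {d : V → V → ℕ}

/-- truncated Green function -/
noncomputable def grn (r : ℕ) (d : V → V → ℕ) (x y : V) : ℝ :=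
  2 / 3 * ((1 / 2) ^ d x y - (1 / 2) ^ r)

/-- the measure on the sphere -/
noncomputable def rho (π μ : Equiv.Perm V) (r : ℕ) (d : V → V → ℕ) (x y : V) : ℝ :=
  (if y = x then 1 else 0) - Lap π μ (grn r d x) y

omit [Fintype V] [DecidableEq V] in
lemma srxgreen_nonneg (D : IsDist π μ r d) (x y : V) : 0 ≤ grn r d x y := by
  have h : ((1 : ℝ) / 2) ^ r ≤ (1 / 2) ^ d x y :=
    pow_le_pow_of_le_one (by norm_num) (by norm_num) (D.le x y)
  unfold grn
  linarith

omit [Fintype V] [DecidableEq V] in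
lemma srxgreen_self (D : IsDist π μ r d) (x : V) : Lap π μ (grn r d x) x = 1 := by
  simp only [Lap, grn, D.self, D.root, Fin.sum_univ_three]
  ring

omit [Fintype V] [DecidableEq V] in
lemma srxgreen_mid (D : IsDist π μ r d) (x y : V) (h0 : 0 < d x y) (h1 : d x y < r) :
    Lap π μ (grn r d x) y = 0 := by
  obtain ⟨l0, a, b⟩ := D.tree x y h0 h1
  have e : ((1 : ℝ) / 2) ^ d x (Lt π μ l0 y) = 2 * (1 / 2) ^ d x y := by
    rw [← a, pow_succ]; ring
  have e' : ∀ l, l ≠ l0 → ((1 : ℝ) / 2) ^ d x (Lt π μ l y) = (1 / 2) ^ d x y / 2 := fun l hl => by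
    rw [b l hl, pow_succ]; ring
  unfold Lap
  rw [← add_sum_erase _ _ (mem_univ l0), sum_congr rfl
    (g := fun _ => (1 / 3 : ℝ) * (1 / 2) ^ d x y) (fun l hl => by
      simp only [grn]; rw [e' l (ne_of_mem_erase hl)]; ring), sum_const,
    card_erase_of_mem (mem_univ _), card_univ, Fintype.card_fin]
  simp only [grn]
  rw [e, nsmul_eq_mul]
  push_cast
  ring

omit [Fintype V] [DecidableEq V] in
lemma srxgreen_top (D : IsDist π μ r d) (x y : V) (h : d x y = r) :
    Lap π μ (grn r d x) y ≤ 0 := by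
  refine sum_nonpos fun l _ => ?_
  have a := srxgreen_nonneg D x (Lt π μ l y)
  have b : grn r d x y = 0 := by simp only [grn, h]; ring
  linarith

omit [Fintype V] in
lemma rho_nonneg (D : IsDist π μ r d) (x y : V) : 0 ≤ rho π μ r d x y := by
  unfold rho
  split_ifs with h
  · rw [h, srxgreen_self D]; norm_num
  · have h0 : 0 < d x y := Nat.pos_of_ne_zero fun e => h (D.zero x y e)
    rcases (D.le x y).eq_or_lt with e | e
    · linarith [srxgreen_top D x y e]
    · rw [srxgreen_mid D x y h0 e]; norm_num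

omit [Fintype V] in
lemma rho_supp (D : IsDist π μ r d) (x y : V) (h : d x y ≠ r) : rho π μ r d x y = 0 := by
  unfold rho
  split_ifs with h'
  · rw [h', srxgreen_self D]; norm_num
  · have h0 : 0 < d x y := Nat.pos_of_ne_zero fun e => h' (D.zero x y e)
    rw [srxgreen_mid D x y h0 (lt_of_le_of_ne (D.le x y) h)]; norm_num

lemma rho_sum (x : V) : ∑ y, rho π μ r d x y = 1 := by
  have a : ∑ y, Lap π μ (grn r d x) y = 0 := by
    unfold Lap
    rw [sum_comm]
    refine sum_eq_zero fun l _ => ?_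
    rw [sum_sub_distrib, Equiv.sum_comp (Lt π μ l) (grn r d x), sub_self]
  simp only [rho]
  rw [sum_sub_distrib, a]
  simp

lemma srxgreen_pair (x : V) (y : V → ℝ) :
    ∑ z, y z * Lap π μ (grn r d x) z = y x - ∑ z, rho π μ r d x z * y z := by
  have a : ∀ z, y z * Lap π μ (grn r d x) z =
      (if z = x then y z else 0) - rho π μ r d x z * y z := fun z => by
    unfold rho
    split_ifs <;> ring
  simp only [a]
  rw [sum_sub_distrib]
  simp

lemma srxgreen_diff (hG : IsGrad π μ G) (u v : V) (y : V → ℝ) :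
    ∑ k, G y k * G (grn r d u - grn r d v) k =
      y u - y v - (∑ z, rho π μ r d u z * y z - ∑ z, rho π μ r d v z * y z) := by
  have a := hG y (grn r d u)
  have b := hG y (grn r d v)
  rw [srxgreen_pair] at a b
  simp only [map_sub, Pi.sub_apply, mul_sub]
  rw [sum_sub_distrib, a, b]
  ring

lemma srxgreen_far (D : IsDist π μ r d) (u : V) (l : Fin 3) :
    ∑ z, rho π μ r d u z * grn r d (Lt π μ l u) z ≤ 2 / 3 * (1 / 2) ^ r := by
  have a : ∀ z, rho π μ r d u z * grn r d (Lt π μ l u) z ≤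
      rho π μ r d u z * (2 / 3 * (1 / 2) ^ r) := fun z => by
    by_cases h : d u z = r
    · refine mul_le_mul_of_nonneg_left ?_ (rho_nonneg D u z)
      have h1 : r ≤ d (Lt π μ l u) z + 1 := h ▸ D.base u z l
      have h2 : ((1 : ℝ) / 2) ^ (d (Lt π μ l u) z + 1) ≤ (1 / 2) ^ r :=
        pow_le_pow_of_le_one (by norm_num) (by norm_num) h1
      rw [pow_succ] at h2
      unfold grn
      linarith
    · rw [rho_supp D u z h, zero_mul, zero_mul]
  refine (sum_le_sum fun z _ => a z).trans ?_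
  rw [← sum_mul, rho_sum, one_mul]

lemma srxgreen_energy (hμ : ∀ v, μ (μ v) = v) (hG : IsGrad π μ G) (D : IsDist π μ r d) (u : V)
    (l : Fin 3) (f : κ → ℝ) (hf : ∀ y, ∑ k, f k * G y k = y u - y (Lt π μ l u)) :
    ∑ k, (f k - G (grn r d u - grn r d (Lt π μ l u)) k) ^ 2 ≤
      ∑ k, f k ^ 2 - 2 / 3 + 4 / 3 * (1 / 2) ^ r := by
  have f1 := srxgreen_far D u l
  have f2 := srxgreen_far D (Lt π μ l u) (iv l)
  have d1 := D.root u l
  have d2 := D.root (Lt π μ l u) (iv l)
  rw [Lt_iv hμ] at f2 d2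
  generalize Lt π μ l u = v at *
  have n : ∀ x, 0 ≤ ∑ z, rho π μ r d x z * grn r d x z := fun x =>
    sum_nonneg fun z _ => mul_nonneg (rho_nonneg D x z) (srxgreen_nonneg D x z)
  have a := hf (grn r d u - grn r d v)
  have b := srxgreen_diff (r := r) (d := d) hG u v (grn r d u - grn r d v)
  have c : (grn r d u - grn r d v) u - (grn r d u - grn r d v) v = 2 / 3 := by
    simp only [Pi.sub_apply, grn, D.self, d1, d2]
    ring
  have s : ∀ x, ∑ z, rho π μ r d x z * (grn r d u - grn r d v) z =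
      ∑ z, rho π μ r d x z * grn r d u z - ∑ z, rho π μ r d x z * grn r d v z := fun x => by
    simp only [Pi.sub_apply, mul_sub]
    rw [sum_sub_distrib]
  rw [c] at a b
  rw [s, s] at b
  generalize G (grn r d u - grn r d v) = g at *
  have e : ∑ k, (f k - g k) ^ 2 = ∑ k, f k ^ 2 - 2 * ∑ k, f k * g k + ∑ k, g k * g k := by
    rw [mul_sum, ← sum_sub_distrib, ← sum_add_distrib]
    exact sum_congr rfl fun k _ => by ring
  rw [e, a, b]
  linarith [n u, n v]

/-- spheres of neighbours are close in energy -/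
lemma rho_step (hμ : ∀ v, μ (μ v) = v) (hG : IsGrad π μ G) (D : IsDist π μ r d) {η : ℝ}
    (hS : Short π μ G η) (u : V) (l : Fin 3) (y : V → ℝ) :
    (∑ z, rho π μ r d u z * y z - ∑ z, rho π μ r d (Lt π μ l u) z * y z) ^ 2 ≤
      (η + 4 * (1 / 2) ^ r) * ∑ k, G y k ^ 2 := by
  obtain ⟨f, hf, hs⟩ := hS u
  have a : ∑ l', ∑ k, (f l' k - G (grn r d u - grn r d (Lt π μ l' u)) k) ^ 2 ≤
      η + 4 * (1 / 2) ^ r := by
    have h0 := srxgreen_energy hμ hG D u 0 (f 0) (hf 0)
    have h1 := srxgreen_energy hμ hG D u 1 (f 1) (hf 1)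
    have h2 := srxgreen_energy hμ hG D u 2 (f 2) (hf 2)
    rw [Fin.sum_univ_three] at hs ⊢
    linarith
  have b : ∑ k, (f l k - G (grn r d u - grn r d (Lt π μ l u)) k) ^ 2 ≤ η + 4 * (1 / 2) ^ r :=
    (single_le_sum (f := fun l' => ∑ k, (f l' k - G (grn r d u - grn r d (Lt π μ l' u)) k) ^ 2)
      (fun _ _ => sum_nonneg fun _ _ => sq_nonneg _) (mem_univ l)).trans a
  have c : ∑ z, rho π μ r d u z * y z - ∑ z, rho π μ r d (Lt π μ l u) z * y z =
      ∑ k, (f l k - G (grn r d u - grn r d (Lt π μ l u)) k) * G y k := by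
    have e := srxgreen_diff (r := r) (d := d) hG u (Lt π μ l u) y
    simp only [sub_mul]
    rw [sum_sub_distrib, hf l y, sum_congr rfl fun k _ => mul_comm _ (G y k), e]
    ring
  rw [c]
  exact (sum_mul_sq_le_sq_mul_sq _ _ _).trans
    (mul_le_mul_of_nonneg_right b (sum_nonneg fun _ _ => sq_nonneg _))

end Pool.Agent.P.MP_e59a69_co
end

-- part Pool.Agent.P.MP_e59a69_co.SREnergy
section

/-! Segment averages at nearby places are close in energy. -/

open Finset

namespace Pool.Agent.P.MP_e59a69_co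

lemma srxen_geo (m t : ℕ) : ∑ s ∈ range m, (1 / 2 : ℝ) ^ ((t : ℤ) - s).natAbs ≤ 4 := by
  have h1 : ∑ s ∈ range m, (1 / 2 : ℝ) ^ ((t : ℤ) - s).natAbs ≤
      ∑ s ∈ range (t + 1 + m), (1 / 2 : ℝ) ^ ((t : ℤ) - s).natAbs :=
    sum_le_sum_of_subset_of_nonneg (range_subset_range.2 (by omega))
      (fun _ _ _ => by positivity)
  rw [sum_range_add, ← sum_range_reflect _ (t + 1)] at h1
  have h2 : ∑ j ∈ range (t + 1), (1 / 2 : ℝ) ^ ((t : ℤ) - (t + 1 - 1 - j : ℕ)).natAbs =
      ∑ j ∈ range (t + 1), (1 / 2 : ℝ) ^ j := by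
    refine sum_congr rfl fun j hj => ?_
    have := mem_range.1 hj
    congr 1
    omega
  have h3 : ∑ j ∈ range m, (1 / 2 : ℝ) ^ ((t : ℤ) - (t + 1 + j : ℕ)).natAbs ≤
      ∑ j ∈ range m, (1 / 2 : ℝ) ^ j := by
    refine sum_le_sum fun j _ => pow_le_pow_of_le_one (by norm_num) (by norm_num) ?_
    omega
  have h4 := sum_geometric_two_le (t + 1)
  have h5 := sum_geometric_two_le m
  linarith

section
variable {V κ : Type} [Fintype V] [DecidableEq V] [Fintype κ] {π μ : Equiv.Perm V}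
  {G : (V → ℝ) →ₗ[ℝ] κ → ℝ} {r : ℕ} {d : V → V → ℕ}

omit [Fintype V] [DecidableEq V] in
lemma srxen_grn_nonneg (D : IsDist π μ r d) (x y : V) : 0 ≤ grn r d x y := by
  have : (1 / 2 : ℝ) ^ r ≤ (1 / 2) ^ d x y :=
    pow_le_pow_of_le_one (by norm_num) (by norm_num) (D.le x y)
  unfold grn
  linarith

lemma srxen_pair (hG : IsGrad π μ G) {ι : Type} (T : Finset ι) (p : ι → V) (y : V → ℝ) :
    ∑ k, G y k * G (fun z => ∑ t ∈ T, grn r d (p t) z) k =
      ∑ t ∈ T, (y (p t) - ∑ z, rho π μ r d (p t) z * y z) := by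
  rw [hG]
  have h1 : ∀ v, Lap π μ (fun z => ∑ t ∈ T, grn r d (p t) z) v =
      ∑ t ∈ T, ((if v = p t then 1 else 0) - rho π μ r d (p t) v) := by
    intro v
    simp only [rho, sub_sub_cancel, Lap, ← sum_sub_distrib]
    exact sum_comm
  simp only [h1, mul_sum]
  rw [sum_comm]
  refine sum_congr rfl fun t _ => ?_
  simp only [mul_sub, sum_sub_distrib, mul_ite, mul_one, mul_zero, sum_ite_eq', mem_univ, if_true]
  congr 1
  exact sum_congr rfl fun z _ => mul_comm _ _

lemma seg_rho (hμ : ∀ v, μ (μ v) = v) (hG : IsGrad π μ G) (D : IsDist π μ r d) {m : ℕ}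
    (hm : 1 ≤ m) (hr : m ≤ r) (x : V) (y : V → ℝ) :
    (seg π m x y - (m : ℝ)⁻¹ * ∑ t ∈ range m, ∑ z, rho π μ r d ((π ^ (t + 1)) x) z * y z) ^ 2 ≤
      3 / m * ∑ k, G y k ^ 2 := by
  set gs : V → ℝ := fun z => ∑ t ∈ range m, grn r d ((π ^ (t + 1)) x) z with hgs
  have h1 := srxen_pair (r := r) (d := d) hG (range m) (fun t => (π ^ (t + 1)) x) y
  have h2 := srxen_pair (r := r) (d := d) hG (range m) (fun t => (π ^ (t + 1)) x) gs
  rw [← hgs] at h1 h2
  have h3 : ∑ k, G gs k ^ 2 ≤ 3 * m := by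
    simp only [sq]
    rw [h2]
    have : ∀ t ∈ range m, gs ((π ^ (t + 1)) x) - ∑ z, rho π μ r d ((π ^ (t + 1)) x) z * gs z ≤
        3 := by
      intro t ht
      have a1 : 0 ≤ ∑ z, rho π μ r d ((π ^ (t + 1)) x) z * gs z :=
        sum_nonneg fun z _ => mul_nonneg (rho_nonneg D _ _)
          (sum_nonneg fun s _ => srxen_grn_nonneg D _ _)
      have a2 : gs ((π ^ (t + 1)) x) ≤
          ∑ s ∈ range m, 2 / 3 * (1 / 2 : ℝ) ^ ((t : ℤ) - s).natAbs := by
        refine sum_le_sum fun s hs => ?_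
        have b1 := mem_range.1 hs
        have b2 := mem_range.1 ht
        have b3 := IsDist.zpow hμ D ((π ^ (s + 1)) x) ((t : ℤ) - s) (by omega)
        have b4 : (π ^ ((t : ℤ) - s)) ((π ^ (s + 1)) x) = (π ^ (t + 1)) x := by
          rw [← zpow_natCast π (s + 1), ← zpow_natCast π (t + 1), zp_add]
          congr 2
          push_cast
          ring
        rw [b4] at b3
        unfold grn
        rw [b3]
        have : (0 : ℝ) ≤ (1 / 2) ^ r := by positivity
        linarith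
      rw [← mul_sum] at a2
      have a3 := srxen_geo m t
      linarith
    have h := sum_le_sum this
    rw [sum_const, card_range, nsmul_eq_mul] at h
    linarith
  have h4 := sum_mul_sq_le_sq_mul_sq univ (fun k => G y k) (fun k => G gs k)
  have hD : 0 ≤ ∑ k, G y k ^ 2 := sum_nonneg fun _ _ => sq_nonneg _
  have hm' : (0 : ℝ) < m := by exact_mod_cast hm
  rw [seg_apply, ← mul_sub, ← sum_sub_distrib, ← h1, mul_pow]
  calc _ ≤ (m : ℝ)⁻¹ ^ 2 * ((∑ k, G y k ^ 2) * (3 * m)) :=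
        mul_le_mul_of_nonneg_left (h4.trans (mul_le_mul_of_nonneg_left h3 hD)) (by positivity)
    _ = _ := by field_simp

lemma srxen_word (hμ : ∀ v, μ (μ v) = v) (hG : IsGrad π μ G) (D : IsDist π μ r d) {η : ℝ}
    (hS : Short π μ G η) {n : ℕ} {w : Equiv.Perm V} (hw : Wd π μ n w) (y : V → ℝ) (u : V) :
    |∑ z, rho π μ r d (w u) z * y z - ∑ z, rho π μ r d u z * y z| ≤
      n * √((η + 4 * (1 / 2) ^ r) * ∑ k, G y k ^ 2) := by
  have h0 := Real.sqrt_nonneg ((η + 4 * (1 / 2) ^ r) * ∑ k, G y k ^ 2)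
  refine Wd.induct (P := fun n w => |∑ z, rho π μ r d (w u) z * y z -
    ∑ z, rho π μ r d u z * y z| ≤ n * √((η + 4 * (1 / 2) ^ r) * ∑ k, G y k ^ 2)) ?_ ?_ ?_ hw
  · simp
  · intro n w l h
    have h1 := Real.abs_le_sqrt (rho_step hμ hG D hS (w u) l y)
    rw [Equiv.Perm.mul_apply]
    rw [abs_le] at h h1 ⊢
    push_cast
    constructor <;> linarith [h.1, h.2, h1.1, h1.2]
  · intro n w h
    push_cast
    linarith

lemma seg_close (hμ : ∀ v, μ (μ v) = v) (hG : IsGrad π μ G) (D : IsDist π μ r d) {η : ℝ}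
    (hη : 0 ≤ η) (hS : Short π μ G η) {m : ℕ} (hm : 1 ≤ m) (hr : m ≤ r) {n : ℕ}
    {w : Equiv.Perm V} (hw : Wd π μ n w) (x : V) (y : V → ℝ) :
    (seg π m (w x) y - seg π m x y) ^ 2 ≤
      (18 / m + 3 * (2 * m + n) ^ 2 * (η + 4 * (1 / 2) ^ r)) * ∑ k, G y k ^ 2 := by
  have h1 := seg_rho hμ hG D hm hr (w x) y
  have h2 := seg_rho hμ hG D hm hr x y
  have hD : 0 ≤ ∑ k, G y k ^ 2 := sum_nonneg fun _ _ => sq_nonneg _
  have hm' : (0 : ℝ) < m := by exact_mod_cast hm
  have hE : 0 ≤ (η + 4 * (1 / 2) ^ r) * ∑ k, G y k ^ 2 := by positivity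
  set θ := √((η + 4 * (1 / 2) ^ r) * ∑ k, G y k ^ 2) with hθ
  have hθ2 : θ ^ 2 = (η + 4 * (1 / 2) ^ r) * ∑ k, G y k ^ 2 := Real.sq_sqrt hE
  have h3 : ∀ t ∈ range m, |∑ z, rho π μ r d ((π ^ (t + 1)) (w x)) z * y z -
      ∑ z, rho π μ r d ((π ^ (t + 1)) x) z * y z| ≤ (2 * m + n) * θ := by
    intro t ht
    have b1 := mem_range.1 ht
    have b2 : Wd π μ (2 * m + n) (π ^ ((t + 1 : ℕ) : ℤ) * w * π ^ (-((t + 1 : ℕ) : ℤ))) :=
      (((wd_zpow _).mul hw).mul (wd_zpow _)).mono (by omega)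
    have b3 := srxen_word hμ hG D hS b2 y ((π ^ (t + 1)) x)
    have b4 : (π ^ ((t + 1 : ℕ) : ℤ) * w * π ^ (-((t + 1 : ℕ) : ℤ))) ((π ^ (t + 1)) x) =
        (π ^ (t + 1)) (w x) := by
      rw [Equiv.Perm.mul_apply, Equiv.Perm.mul_apply, ← zpow_natCast π (t + 1), zp_add,
        neg_add_cancel, zpow_zero, Equiv.Perm.one_apply]
    rw [b4] at b3
    push_cast at b3
    exact b3
  have h4 : |(m : ℝ)⁻¹ * ∑ t ∈ range m, ∑ z, rho π μ r d ((π ^ (t + 1)) (w x)) z * y z -
      (m : ℝ)⁻¹ * ∑ t ∈ range m, ∑ z, rho π μ r d ((π ^ (t + 1)) x) z * y z| ≤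
      (2 * m + n) * θ := by
    rw [← mul_sub, ← sum_sub_distrib, abs_mul, abs_of_pos (inv_pos.2 hm'),
      inv_mul_le_iff₀ hm']
    refine (abs_sum_le_sum_abs _ _).trans ((sum_le_sum h3).trans (le_of_eq ?_))
    rw [sum_const, card_range, nsmul_eq_mul]
  have h5 := sq_le_sq' (abs_le.1 h4).1 (abs_le.1 h4).2
  rw [mul_pow, hθ2] at h5
  generalize (m : ℝ)⁻¹ * ∑ t ∈ range m, ∑ z, rho π μ r d ((π ^ (t + 1)) (w x)) z * y z = A
    at h1 h5
  generalize (m : ℝ)⁻¹ * ∑ t ∈ range m, ∑ z, rho π μ r d ((π ^ (t + 1)) x) z * y z = B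
    at h2 h5
  generalize seg π m (w x) y = P at h1 ⊢
  generalize seg π m x y = Q at h2 ⊢
  have e : (18 / m + 3 * (2 * m + n) ^ 2 * (η + 4 * (1 / 2) ^ r)) * ∑ k, G y k ^ 2 =
      3 * (3 / m * ∑ k, G y k ^ 2) + 3 * (3 / m * ∑ k, G y k ^ 2) +
      3 * ((2 * m + n) ^ 2 * ((η + 4 * (1 / 2) ^ r) * ∑ k, G y k ^ 2)) := by ring
  rw [e]
  nlinarith [sq_nonneg ((P - A) + (Q - B)), sq_nonneg ((P - A) - (A - B)),
    sq_nonneg ((Q - B) + (A - B))]

end

theorem energy (ε : ℝ) (hε : 0 < ε) (m : ℕ) (hm : 36 ≤ ε * m) (n : ℕ) :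
    ∃ (c : ℕ) (η : ℝ), 0 < η ∧ ∀ (V κ : Type) [Fintype V] [DecidableEq V] [Fintype κ]
      (π μ : Equiv.Perm V) (G : (V → ℝ) →ₗ[ℝ] κ → ℝ), Hy π μ c → IsGrad π μ G → Short π μ G η →
      ∀ w, Wd π μ n w → ∀ x y, (seg π m (w x) y - seg π m x y) ^ 2 ≤ ε * ∑ k, G y k ^ 2 := by
  have hm1 : 1 ≤ m := by
    rcases Nat.eq_zero_or_pos m with h | h
    · subst h
      norm_num at hm
    · exact h
  have hm' : (0 : ℝ) < m := by exact_mod_cast hm1
  have hQ : (0 : ℝ) < (2 * m + n) ^ 2 := by positivity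
  have hη : 0 < ε / (12 * (2 * m + n) ^ 2) := by positivity
  obtain ⟨r0, hr0⟩ := exists_pow_lt_of_lt_one (x := ε / (12 * (2 * m + n) ^ 2) / 4)
    (y := (1 / 2 : ℝ)) (by positivity) (by norm_num)
  refine ⟨2 * (r0 + m) + 4, ε / (12 * (2 * m + n) ^ 2), hη, ?_⟩
  intro V κ _ _ _ π μ G H hG hS w hw x y
  obtain ⟨d, D⟩ := H.exists_dist (r0 + m) (by omega) le_rfl
  refine (seg_close H.inv hG D hη.le hS hm1 (by omega) hw x y).trans ?_
  refine mul_le_mul_of_nonneg_right ?_ (sum_nonneg fun _ _ => sq_nonneg _)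
  have h1 : (1 / 2 : ℝ) ^ (r0 + m) ≤ (1 / 2) ^ r0 :=
    pow_le_pow_of_le_one (by norm_num) (by norm_num) (by omega)
  have h2 : (18 : ℝ) / m ≤ ε / 2 := by
    rw [div_le_iff₀ hm']
    linarith
  have h3 : 3 * (2 * m + n : ℝ) ^ 2 * (2 * (ε / (12 * (2 * m + n) ^ 2))) = ε / 2 := by
    field_simp
    ring
  have h4 : 3 * (2 * m + n : ℝ) ^ 2 * (ε / (12 * (2 * m + n) ^ 2) + 4 * (1 / 2) ^ (r0 + m)) ≤
      3 * (2 * m + n : ℝ) ^ 2 * (2 * (ε / (12 * (2 * m + n) ^ 2))) :=
    mul_le_mul_of_nonneg_left (by linarith) (by positivity)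
  linarith

end Pool.Agent.P.MP_e59a69_co
end

-- part Pool.Agent.P.MP_e59a69_co.SRWeights
section

/-! Weights with small leverage for a uniformly dense family. -/

open Finset Module

namespace Pool.Agent.P.MP_e59a69_co

open Matrix Pool.Agent.P.MP_da739a_co in
theorem srxweights_cs {ι : Type} [Fintype ι] [DecidableEq ι] (G : Matrix ι ι ℝ) (hG : G.PosDef)
    (v x : ι → ℝ) : (v ⬝ᵥ x) ^ 2 ≤ (v ⬝ᵥ G⁻¹ *ᵥ v) * (x ⬝ᵥ G *ᵥ x) := by
  have hs : ∀ u w : ι → ℝ, u ⬝ᵥ G *ᵥ w = w ⬝ᵥ G *ᵥ u := by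
    intro u w
    have h : Gᵀ = G := by
      have := hG.isHermitian
      rwa [IsHermitian, conjTranspose_eq_transpose_of_trivial] at this
    rw [dotProduct_mulVec, ← mulVec_transpose, h, dotProduct_comm]
  have hK : G *ᵥ (G⁻¹ *ᵥ v) = v := by
    rw [mulVec_mulVec, Matrix.mul_nonsing_inv _ hG.det_pos.ne'.isUnit, one_mulVec]
  have key : ∀ t : ℝ, 0 ≤ (v ⬝ᵥ G⁻¹ *ᵥ v) * (t * t) + (-(2 * (v ⬝ᵥ x))) * t + x ⬝ᵥ G *ᵥ x := by
    intro t
    have h := hG.posSemidef.dotProduct_mulVec_nonneg (x - t • G⁻¹ *ᵥ v)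
    rw [star_trivial, mulVec_sub, mulVec_smul, sub_dotProduct, dotProduct_sub, dotProduct_sub,
      smul_dotProduct, smul_dotProduct, dotProduct_smul, dotProduct_smul, hs (G⁻¹ *ᵥ v) x, hK,
      dotProduct_comm x v, dotProduct_comm (G⁻¹ *ᵥ v) v] at h
    simp only [smul_eq_mul] at h
    linarith
  have := discrim_le_zero key
  unfold discrim at this
  nlinarith

open Matrix Pool.Agent.P.MP_da739a_co in
theorem dense_weights {U E : Type} [AddCommGroup U] [Module ℝ U] [DecidableEq E] (χ : E → U)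
    (F0 : Finset E) (m : ℕ)
    (hcard : #F0 = (m + 1) * finrank ℝ (Submodule.span ℝ (χ '' (F0 : Set E))))
    (hr : ∀ F ⊆ F0, #F ≤ (m + 1) * finrank ℝ (Submodule.span ℝ (χ '' (F : Set E)))) :
    ∃ γ : E → ℝ, (∀ e, 0 < γ e) ∧ ∀ φ : U →ₗ[ℝ] ℝ, ∀ e ∈ F0,
      m * (γ e * φ (χ e) ^ 2) ≤ ∑ f ∈ F0, γ f * φ (χ f) ^ 2 := by
  rcases Nat.eq_zero_or_pos m with hm | hm
  · refine ⟨fun _ => 1, fun _ => one_pos, fun φ e _ => ?_⟩
    rw [hm, Nat.cast_zero, zero_mul]
    exact Finset.sum_nonneg fun f _ => by positivity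
  rcases F0.eq_empty_or_nonempty with h0 | h0
  · exact ⟨fun _ => 1, fun _ => one_pos, fun φ e he => by simp [h0] at he⟩
  set W := Submodule.span ℝ (χ '' (F0 : Set E)) with hW
  have hd : 0 < finrank ℝ W := by
    rcases Nat.eq_zero_or_pos (finrank ℝ W) with h | h
    · rw [h, mul_zero] at hcard
      exact absurd hcard h0.card_pos.ne'
    · exact h
  have : FiniteDimensional ℝ W := FiniteDimensional.span_of_finite ℝ (F0.finite_toSet.image χ)
  let T : W ≃ₗ[ℝ] (Fin (finrank ℝ W) → ℝ) := (Module.finBasis ℝ W).equivFun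
  let L : (Fin (finrank ℝ W) → ℝ) →ₗ[ℝ] U := W.subtype ∘ₗ T.symm.toLinearMap
  let a : F0 → Fin (finrank ℝ W) → ℝ := fun e => T ⟨χ e, Submodule.subset_span ⟨e, e.2, rfl⟩⟩
  have hLa : ∀ e : F0, L (a e) = χ e := fun e => by simp [L, a]
  have hLinj : Function.Injective L := W.injective_subtype.comp T.symm.injective
  have hspan : Submodule.span ℝ (Set.range a) = ⊤ := by
    apply Submodule.map_injective_of_injective hLinj
    rw [Submodule.map_span, Submodule.map_top]
    have h1 : L '' Set.range a = χ '' (F0 : Set E) := by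
      ext u
      constructor
      · rintro ⟨_, ⟨e, rfl⟩, rfl⟩
        exact ⟨e, e.2, (hLa e).symm⟩
      · rintro ⟨e, he, rfl⟩
        exact ⟨_, ⟨⟨e, he⟩, rfl⟩, hLa _⟩
    rw [h1, ← hW]
    simp [L, LinearMap.range_comp]
  obtain ⟨γ, hγ, hw⟩ := exists_weights a hspan (fun F => by
      have h1 := hr (F.map (Function.Embedding.subtype _)) (by
        intro x hx
        obtain ⟨z, -, rfl⟩ := Finset.mem_map.1 hx
        exact z.2)
      rw [Finset.card_map] at h1
      rw [Fintype.card_fin, Fintype.card_coe]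
      have h2 : χ '' ((F.map (Function.Embedding.subtype _) : Finset E) : Set E) =
          L '' (a '' (F : Set F0)) := by
        rw [Finset.coe_map, Set.image_image, Set.image_image]
        exact Set.image_congr fun z _ => (hLa z).symm
      rw [h2, ← Submodule.map_span] at h1
      have h3 := h1.trans (Nat.mul_le_mul_left _ (Submodule.finrank_map_le L _))
      rw [hcard, mul_comm (m + 1), mul_assoc]
      exact Nat.mul_le_mul_left _ h3) m hm (by
      rw [Fintype.card_fin, Fintype.card_coe, hcard]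
      nlinarith)
  have hsp : Submodule.span ℝ (a '' ((univ : Finset F0) : Set F0)) = ⊤ := by simpa using hspan
  have hP : (gram a γ).PosDef := posDef_sum_of_span a γ univ hsp hγ
  refine ⟨fun e => if h : e ∈ F0 then γ ⟨e, h⟩ else 1, fun e => ?_, fun φ e he => ?_⟩
  · by_cases h : e ∈ F0
    · simpa [h] using hγ ⟨e, h⟩
    · simp [h]
  let x : Fin (finrank ℝ W) → ℝ := fun j => φ (L (Pi.single j 1))
  have hx : ∀ f : F0, φ (χ f) = a f ⬝ᵥ x := by
    intro f
    rw [← hLa f]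
    conv_lhs => rw [pi_eq_sum_univ' (a f)]
    simp only [map_sum, map_smul, smul_eq_mul, dotProduct, x]
  have hq : x ⬝ᵥ gram a γ *ᵥ x = ∑ f : F0, γ f * (a f ⬝ᵥ x) ^ 2 := by
    unfold MP_da739a_co.gram
    rw [sum_mulVec', dotProduct_sum]
    refine Finset.sum_congr rfl fun f _ => ?_
    rw [dotProduct_smul, smul_eq_mul, dotProduct_comm x]
    ring
  have hsum : ∑ f ∈ F0, (if h : f ∈ F0 then γ ⟨f, h⟩ else 1) * φ (χ f) ^ 2
      = ∑ f : F0, γ f * (a f ⬝ᵥ x) ^ 2 := by
    rw [← Finset.sum_coe_sort F0]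
    refine Finset.sum_congr rfl fun f _ => ?_
    rw [dif_pos f.2, hx f]
  have hQ : 0 ≤ ∑ f : F0, γ f * (a f ⬝ᵥ x) ^ 2 :=
    Finset.sum_nonneg fun f _ => mul_nonneg (hγ f).le (sq_nonneg _)
  have hcs := srxweights_cs _ hP (a ⟨e, he⟩) x
  have h1 := hw ⟨e, he⟩
  rw [hq] at hcs
  beta_reduce
  rw [hsum, dif_pos he, hx ⟨e, he⟩]
  have h2 : (0 : ℝ) ≤ m * γ ⟨e, he⟩ := mul_nonneg (Nat.cast_nonneg _) (hγ _).le
  have h3 := mul_le_mul_of_nonneg_left hcs h2
  nlinarith [mul_le_mul_of_nonneg_right h1.le hQ]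

end Pool.Agent.P.MP_e59a69_co
end

-- part Pool.Agent.P.MP_e59a69_co.SRFlat
section

/-! Large cuts give many edges outside every flat, hence a dense conflict-free set of sites. -/

open Finset Module

namespace Pool.Agent.P.MP_e59a69_co

variable {V : Type} [Fintype V] [DecidableEq V]

lemma flat_count {W : Type} [AddCommGroup W] [Module ℝ W] (π q : Equiv.Perm V)
    (hq : ∀ v, q (q v) = v) (ev : V → W) (hev : ∀ v, ev (π v) = ev v) (lam : ℕ)
    (hlam : ∀ X : Finset V, (∀ v, v ∈ X ↔ π v ∈ X) → 0 < mc q X → lam ≤ mc q X) (S : Finset V)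
    [DecidablePred fun x => ev x - ev (q x) ∉
      Submodule.span ℝ ((fun v => ev v - ev (q v)) '' (S : Set V))] :
    lam * (finrank ℝ (Submodule.span ℝ (Set.range fun v => ev v - ev (q v))) - #S) ≤
      #{x | ev x - ev (q x) ∉ Submodule.span ℝ ((fun v => ev v - ev (q v)) '' (S : Set V))} := by
  classical
  set a : V → W := fun v => ev v - ev (q v) with ha
  set Us : Submodule ℝ W := Submodule.span ℝ (a '' (S : Set V)) with hUs
  let cls : V → W ⧸ Us := fun v => Us.mkQ (ev v)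
  have hbad : ∀ v, ev v - ev (q v) ∉ Us ↔ cls v ≠ cls (q v) := by
    intro v
    simp only [cls, Submodule.mkQ_apply, ne_eq, Submodule.Quotient.eq]
  set Bad : Finset V := {x | ev x - ev (q x) ∉ Us} with hBad
  have hmem : ∀ v, v ∈ Bad ↔ cls v ≠ cls (q v) := by
    intro v
    rw [hBad, mem_filter, hbad]
    simp
  let T : Finset (W ⧸ Us) := Bad.image cls
  obtain ⟨sec, hsec⟩ : ∃ sec : W ⧸ Us → W, ∀ t, Us.mkQ (sec t) = t :=
    ⟨fun t => (Us.mkQ_surjective t).choose, fun t => (Us.mkQ_surjective t).choose_spec⟩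
  have hdiff : ∀ v, ev v - sec (cls v) ∈ Us := by
    intro v
    rw [← Submodule.Quotient.eq]
    exact (hsec (cls v)).symm
  let Z : Finset W := S.image a ∪ T.image sec
  have hUZ : Us ≤ Submodule.span ℝ (Z : Set W) := by
    apply Submodule.span_mono
    rintro _ ⟨v, hv, rfl⟩
    exact mem_coe.2 (mem_union_left _ (mem_image_of_mem _ (mem_coe.1 hv)))
  have hsecZ : ∀ v ∈ Bad, sec (cls v) ∈ Submodule.span ℝ (Z : Set W) := by
    intro v hv
    exact Submodule.subset_span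
      (mem_coe.2 (mem_union_right _ (mem_image_of_mem _ (mem_image_of_mem _ hv))))
  have hA : Submodule.span ℝ (Set.range a) ≤ Submodule.span ℝ (Z : Set W) := by
    rw [Submodule.span_le]
    rintro _ ⟨v, rfl⟩
    by_cases hv : v ∈ Bad
    · have hv' : q v ∈ Bad := by
        rw [hmem] at hv ⊢
        rw [hq]
        exact hv.symm
      have e : a v = (ev v - sec (cls v)) - (ev (q v) - sec (cls (q v))) +
          (sec (cls v) - sec (cls (q v))) := by
        simp only [ha]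
        abel
      rw [SetLike.mem_coe, e]
      exact add_mem (sub_mem (hUZ (hdiff v)) (hUZ (hdiff (q v))))
        (sub_mem (hsecZ v hv) (hsecZ _ hv'))
    · apply hUZ
      rw [hBad, mem_filter] at hv
      by_contra h
      exact hv ⟨mem_univ _, h⟩
  have hdim : finrank ℝ (Submodule.span ℝ (Set.range a)) ≤ #S + #T := by
    refine (Submodule.finrank_mono hA).trans ?_
    refine (finrank_span_finset_le_card Z).trans ?_
    exact (card_union_le _ _).trans (add_le_add card_image_le card_image_le)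
  have hfib : ∀ t ∈ T, lam ≤ #{v ∈ Bad | cls v = t} := by
    intro t ht
    have e : mc q {v | cls v = t} = #{v ∈ Bad | cls v = t} := by
      unfold mc
      congr 1
      ext v
      simp only [mem_filter, mem_univ, true_and, hmem]
      constructor
      · rintro ⟨h1, h2⟩
        exact ⟨fun h => h2 (h ▸ h1), h1⟩
      · rintro ⟨h1, h2⟩
        exact ⟨h2, fun h => h1 (h2.trans h.symm)⟩
    rw [← e]
    apply hlam
    · intro v
      simp only [mem_filter, mem_univ, true_and, cls, hev]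
    · rw [e, card_pos]
      obtain ⟨v, hv, rfl⟩ := mem_image.1 ht
      exact ⟨v, mem_filter.2 ⟨hv, rfl⟩⟩
  have hsum : #Bad = ∑ t ∈ T, #{v ∈ Bad | cls v = t} :=
    card_eq_sum_card_fiberwise fun v hv => mem_coe.2 (mem_image_of_mem _ (mem_coe.1 hv))
  refine le_trans ?_ (card_le_card (s := Bad) fun v hv => by
    simp only [mem_filter, mem_univ, true_and]
    exact (hbad v).2 ((hmem v).1 hv))
  calc lam * (finrank ℝ (Submodule.span ℝ (Set.range a)) - #S) ≤ lam * #T :=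
        Nat.mul_le_mul_left _ (by omega)
    _ = ∑ _t ∈ T, lam := by rw [sum_const, smul_eq_mul, mul_comm]
    _ ≤ ∑ t ∈ T, #{v ∈ Bad | cls v = t} := sum_le_sum hfib
    _ = #Bad := hsum.symm

theorem exists_dense (π q : Equiv.Perm V) (hq : ∀ v, q (q v) = v) (R : V → V → Prop)
    [DecidableRel R] (hR : ∀ x y, R x y → R y x) (Δ m : ℕ) (hΔ : ∀ x, #{y | R x y} ≤ Δ)
    (hlam : ∀ X : Finset V, (∀ v, v ∈ X ↔ π v ∈ X) → 0 < mc q X →
      2 * ((m + 1) * (Δ + 1)) + 2 ≤ mc q X) :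
    ∃ (U : Finset V) (γ : V → ℝ), (∀ x ∈ U, ∀ y ∈ U, x ≠ y → ¬ R x y) ∧ (∀ v, 0 < γ v) ∧
      ∀ x : V → ℝ, (∀ v, x (π v) = x v) →
        (∀ e ∈ U, m * (γ e * (x e - x (q e)) ^ 2) ≤ ∑ f ∈ U, γ f * (x f - x (q f)) ^ 2) ∧
        ((∀ e ∈ U, x e = x (q e)) → ∀ v, x v = x (q v)) := by
  classical
  let N : Submodule ℝ (V → ℝ) :=
    { carrier := {x | ∀ v, x (π v) = x v}
      add_mem' := fun {x y} hx hy v => by simp only [Pi.add_apply, hx v, hy v]
      zero_mem' := fun v => rfl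
      smul_mem' := fun c x hx v => by simp only [Pi.smul_apply, hx v] }
  let ev : V → Module.Dual ℝ N := fun v => (LinearMap.proj v) ∘ₗ N.subtype
  have hev : ∀ v, ev (π v) = ev v := by
    intro v
    ext x
    exact x.2 v
  let a : V → Module.Dual ℝ N := fun v => ev v - ev (q v)
  obtain ⟨U, hU1, hU2, hU3, hU4⟩ := exists_bases a R hR Δ (m + 1) (Nat.succ_pos m) hΔ
    (fun S => flat_count π q hq ev hev _ hlam S)
  obtain ⟨γ, hγ, hw⟩ := dense_weights a U m hU3 hU4
  refine ⟨U, γ, hU1, hγ, fun x hx => ?_⟩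
  let φ : Module.Dual ℝ N →ₗ[ℝ] ℝ := Module.Dual.eval ℝ N ⟨x, hx⟩
  have hφ : ∀ v, φ (a v) = x v - x (q v) := fun v => rfl
  refine ⟨fun e he => ?_, fun h v => ?_⟩
  · simpa only [hφ] using hw φ e he
  · have hker : Submodule.span ℝ (a '' (U : Set V)) ≤ LinearMap.ker φ := by
      rw [Submodule.span_le]
      rintro _ ⟨e, he, rfl⟩
      rw [SetLike.mem_coe, LinearMap.mem_ker, hφ, h e (mem_coe.1 he), sub_self]
    rw [hU2] at hker
    have := hker (Submodule.subset_span ⟨v, rfl⟩)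
    rw [LinearMap.mem_ker, hφ] at this
    exact sub_eq_zero.1 this

end Pool.Agent.P.MP_e59a69_co
end

-- part Pool.Agent.P.MP_e59a69_co.SRCore
section

/-! Choice of the constants and assembly at the level of the two permutations. -/

open Finset

namespace Pool.Agent.P.MP_e59a69_co

section
variable {V κ : Type} [Fintype V] [DecidableEq V] [Fintype κ] {π μ : Equiv.Perm V}
  {G : (V → ℝ) →ₗ[ℝ] κ → ℝ}

omit [Fintype V] [DecidableEq V] in
lemma Short.mono {η η' : ℝ} (h : Short π μ G η) (hη : η ≤ η') : Short π μ G η' := fun u => by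
  obtain ⟨f, h1, h2⟩ := h u
  exact ⟨f, h1, by linarith⟩

omit [Fintype V] [DecidableEq V] in
lemma closed_zpow {X : Finset V} (hX : ∀ v, v ∈ X ↔ π v ∈ X) (t : ℤ) (v : V) :
    (π ^ t) v ∈ X ↔ v ∈ X := by
  induction t with
  | zero => simp
  | succ t ih => rw [← zp_succ, ← hX, ih]
  | pred t ih => rw [hX, zp_succ, sub_add_cancel, ih]

lemma big_cut (hμ : ∀ v, μ (μ v) = v) (hG : IsGrad π μ G) {m lam : ℕ} (hm : 1 ≤ m)
    (hlam : 0 < lam)
    (hE : ∀ x y, (seg π m (μ x) y - seg π m x y) ^ 2 ≤ (lam : ℝ)⁻¹ * ∑ k, G y k ^ 2)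
    (X : Finset V) (hX : ∀ v, v ∈ X ↔ π v ∈ X) (h : 0 < mc (qq π μ) X) : lam ≤ mc (qq π μ) X := by
  have e : mc (qq π μ) X = mc μ X := by
    unfold mc
    refine card_equiv (π ^ (-3 : ℤ)) fun v => ?_
    simp only [mem_filter, qq, Equiv.Perm.mul_apply, closed_zpow hX]
  rw [e] at h ⊢
  obtain ⟨v, hv⟩ := card_pos.1 h
  obtain ⟨v1, v2⟩ := mem_filter.1 hv
  have a := hE v fun v => if v ∈ X then 1 else 0
  rw [seg_half hm X v fun t _ => by rw [← zpow_natCast, closed_zpow hX]; exact v1,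
    seg_half' X (μ v) fun t _ => by rw [mem_compl, ← zpow_natCast, closed_zpow hX]; exact v2,
    dir_ind hμ hG] at a
  have f0 : fc π X = 0 := by
    rw [fc, card_eq_zero, filter_eq_empty_iff]
    exact fun v _ h => h (hX v)
  rw [f0, zero_add] at a
  have l0 : (0 : ℝ) < lam := by exact_mod_cast hlam
  rw [inv_mul_eq_div, le_div_iff₀ l0] at a
  have : (lam : ℝ) ≤ mc μ X := by linarith
  exact_mod_cast this

lemma sr_select (hμ : ∀ v, μ (μ v) = v) (hG : IsGrad π μ G) (L j : ℕ)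
    (hj : 96 * (2 * (L : ℝ) + (L + 13 : ℕ)) ^ 2 ≤ 1 / 2880 * (10 / 9) ^ j)
    (hE : ∀ w, Wd π μ (L + 13) w → ∀ x y,
      (seg π L (w x) y - seg π L x y) ^ 2 ≤ 1 / 13824000 * ∑ k, G y k ^ 2)
    (q : Equiv.Perm V) (U : Finset V) (γ : V → ℝ) (hγ : ∀ v, 0 < γ v)
    (hU : ∀ x : V → ℝ, (∀ v, x (π v) = x v) → ∀ e ∈ U, (100 * 10 ^ j : ℕ) *
      (γ e * (x e - x (q e)) ^ 2) ≤ ∑ f ∈ U, γ f * (x f - x (q f)) ^ 2) :
    ∃ K ⊆ U, (∀ x : V → ℝ, (∀ v, x (π v) = x v) → (∀ e ∈ K, x e = x (q e)) →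
        ∀ e ∈ U, x e = x (q e)) ∧
      ∀ y, 60 * ∑ k ∈ K, ∑ i, (seg π L (tw π μ L i k) y - seg π L k y) ^ 2 ≤ ∑ k, G y k ^ 2 := by
  let J := (Bool × Bool) × Fin 6 × Bool
  have hJ : (Fintype.card J : ℝ) = 48 := by simp [J]
  let N : Submodule ℝ (V → ℝ) :=
    { carrier := {x | ∀ v, x (π v) = x v}
      add_mem' := fun ha hb v => by simp only [Pi.add_apply, ha v, hb v]
      zero_mem' := fun _ => rfl
      smul_mem' := fun c x ha v => by simp only [Pi.smul_apply, ha v] }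
  let Γ : (J → V → ℝ) →ₗ[ℝ] J × κ → ℝ :=
    LinearMap.pi fun p => LinearMap.proj p.2 ∘ₗ G ∘ₗ LinearMap.proj p.1
  let a : V → (J → V → ℝ) →ₗ[ℝ] ℝ := fun p =>
    ∑ i, (seg π L (tw π μ L i p) - seg π L p) ∘ₗ LinearMap.proj i
  let b : V → N →ₗ[ℝ] ℝ := fun p =>
    √(γ p) • ((LinearMap.proj p : (V → ℝ) →ₗ[ℝ] ℝ) -
      (LinearMap.proj (q p) : (V → ℝ) →ₗ[ℝ] ℝ)) ∘ₗ N.subtype
  have hΓ : ∀ Y, ∑ k, Γ Y k ^ 2 = ∑ i, ∑ k, G (Y i) k ^ 2 := fun Y => by
    rw [Fintype.sum_prod_type]; rfl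
  have ha : ∀ p Y, a p Y = ∑ i, (seg π L (tw π μ L i p) (Y i) - seg π L p (Y i)) := fun p Y => by
    simp [a]
  have ha2 : ∀ p Y, a p Y ^ 2 ≤
      48 * ∑ i, (seg π L (tw π μ L i p) (Y i) - seg π L p (Y i)) ^ 2 := fun p Y => by
    rw [ha, ← hJ, ← card_univ]
    exact sq_sum_le_card_mul_sum_sq
  have hb : ∀ p (x : N), b p x = √(γ p) * (x.1 p - x.1 (q p)) := fun p x => by simp [b]
  have hb2 : ∀ p (x : N), b p x ^ 2 = γ p * (x.1 p - x.1 (q p)) ^ 2 := fun p x => by
    rw [hb, mul_pow, Real.sq_sqrt (hγ p).le]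
  have hD : ∀ y, 0 ≤ ∑ k, G y k ^ 2 := fun y => Finset.sum_nonneg fun _ _ => sq_nonneg _
  obtain ⟨K, k1, k2, k3⟩ := thin_span Γ a b (1 / 2880) (by norm_num) (fun p Y => by
      have h1 := ha2 p Y
      have h2 := Finset.sum_le_sum fun i (_ : i ∈ univ) => hE _ (wd_tw L i) p (Y i)
      rw [← Finset.mul_sum] at h2
      rw [hΓ]
      linarith) j U (fun Y => by
      have h1 : ∑ p ∈ U, a p Y ^ 2 ≤ ∑ p, a p Y ^ 2 :=
        Finset.sum_le_sum_of_subset_of_nonneg (subset_univ _) fun _ _ _ => sq_nonneg _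
      have h2 := Finset.sum_le_sum fun p (_ : p ∈ univ) => ha2 p Y
      rw [← Finset.mul_sum, Finset.sum_comm] at h2
      have h3 := Finset.sum_le_sum fun i (_ : i ∈ univ) => seg_bessel hμ hG (wd_tw L i) L (Y i)
      rw [← Finset.mul_sum] at h3
      have h4 := mul_le_mul_of_nonneg_right hj
        (Finset.sum_nonneg fun i (_ : i ∈ univ) => hD (Y i))
      rw [hΓ]
      linarith) (fun e he x => by
      have := hU x.1 x.2 e he
      simp only [hb2]
      push_cast at this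
      exact this)
  refine ⟨K, k1, fun x hx h e he => ?_, fun y => ?_⟩
  · have := k3 ⟨x, hx⟩ (fun i hi => by
      rw [hb]; exact mul_eq_zero_of_right _ (sub_eq_zero.2 (h i hi))) e he
    rw [hb] at this
    exact sub_eq_zero.1 ((mul_eq_zero.1 this).resolve_left (Real.sqrt_pos.2 (hγ e)).ne')
  · have h1 : ∀ i : J, ∑ k ∈ K, (seg π L (tw π μ L i k) y - seg π L k y) ^ 2 ≤
        1 / 2880 * ∑ k, G y k ^ 2 := fun i => by
      have := k2 (Pi.single i y)
      rw [hΓ, Finset.sum_eq_single i (fun i' _ h => by simp [Pi.single_eq_of_ne h]) (by simp),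
        Pi.single_eq_same] at this
      refine le_trans (le_of_eq (Finset.sum_congr rfl fun k _ => ?_)) this
      rw [ha, Finset.sum_eq_single i (fun i' _ h => by simp [Pi.single_eq_of_ne h]) (by simp),
        Pi.single_eq_same]
    have h2 := Finset.sum_le_sum fun i (_ : i ∈ univ) => h1 i
    rw [Finset.sum_const, card_univ, nsmul_eq_mul, hJ, Finset.sum_comm] at h2
    linarith

end

theorem sr_core : ∃ (c : ℕ) (η : ℝ), 0 < η ∧ ∀ (V κ : Type) [Fintype V] [DecidableEq V]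
    [Fintype κ] (π μ : Equiv.Perm V) (G : (V → ℝ) →ₗ[ℝ] κ → ℝ), Hy π μ c → IsGrad π μ G →
    Short π μ G η → ∃ σ : V → ℤ, (∀ v, σ v = 1 ∨ σ v = -1) ∧ (∀ v, σ (μ v) = - σ v) ∧
      ∀ X : Finset V, 5 * ∑ v ∈ X, σ v ≤ (mc μ X + 6 * fc π X : ℕ) := by
  obtain ⟨L, hL2, hL⟩ : ∃ L : ℕ, 2 ≤ L ∧ (36 : ℝ) ≤ 1 / 13824000 * L :=
    ⟨497664000, by norm_num, by norm_num⟩
  obtain ⟨j, hj⟩ := pow_unbounded_of_one_lt
    (2880 * (96 * (2 * (L : ℝ) + (L + 13 : ℕ)) ^ 2)) (show (1 : ℝ) < 10 / 9 by norm_num)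
  obtain ⟨lam, hlam⟩ : ∃ lam, lam = 2 * ((100 * 10 ^ j + 1) * ((24 * (2 * L + 1)) ^ 2 + 1)) + 2 :=
    ⟨_, rfl⟩
  have l0 : 0 < lam := by omega
  have l1 : (0 : ℝ) < lam := by exact_mod_cast l0
  obtain ⟨c1, η1, p1, E1⟩ := energy (1 / 13824000) (by norm_num) L hL (L + 13)
  obtain ⟨c2, η2, p2, E2⟩ := energy (lam : ℝ)⁻¹ (by positivity) (36 * lam)
    (by push_cast; rw [mul_comm (36 : ℝ), ← mul_assoc, inv_mul_cancel₀ l1.ne', one_mul]) 1
  refine ⟨max (max c1 c2) (4 * L + 40), min η1 η2, lt_min p1 p2, ?_⟩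
  intro V κ _ _ _ π μ G H hG hS
  classical
  have e1 := E1 V κ π μ G (H.mono (by omega)) hG (hS.mono (min_le_left _ _))
  have e2 := E2 V κ π μ G (H.mono (by omega)) hG (hS.mono (min_le_right _ _)) μ wd_mu
  obtain ⟨U, γ, u1, u2, u3⟩ := exists_dense π (qq π μ) (qq_qq H.inv) (Conf π μ L)
    (fun x y ⟨a, a', h⟩ => ⟨a', a, fun h' => h h'.symm⟩) _ (100 * 10 ^ j) (fun x => conf_card L x)
    (fun X h1 h2 => hlam ▸ big_cut H.inv hG (by omega) l0 e2 X h1 h2)
  obtain ⟨K, k1, k2, k3⟩ := sr_select H.inv hG L j (by linarith) e1 (qq π μ) U γ u2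
    fun x hx => (u3 x hx).1
  exact sr_sites H hL2 (by omega) K (fun k hk k' hk' => u1 k (k1 hk) k' (k1 hk'))
    (fun x hx h => (u3 x hx).2 (k2 x hx h)) fun X => by rw [← dir_ind H.inv hG]; exact k3 _

end Pool.Agent.P.MP_e59a69_co
end

-- part Pool.Agent.P.MP_e59a69_co.SRMain
section

/-! Flow pairs in cubic graphs of large girth without long-range vertices. -/

open Finset Function

namespace Pool.Agent.P.MP_e59a69_co

lemma exists_unit_flow {V E : Type} [Fintype V] [Fintype E] [DecidableEq V] [DecidableEq E]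
    (src tgt : E → V) (e : E) {δ : ℝ} (hδ : 0 < δ) :
    ∃ f : E → ℝ, (∀ y : V → ℝ, ∑ x, f x * (y (src x) - y (tgt x)) = y (src e) - y (tgt e)) ∧
      ∑ x, f x ^ 2 ≤ effRes src tgt e + δ := by
  obtain ⟨_, ⟨f, h1, rfl⟩, h2⟩ := Real.lt_sInf_add_pos (s := {t : ℝ | ∃ f : E → ℝ,
    (∀ v, ∑ x with src x = v, f x - ∑ x with tgt x = v, f x =
      (if src e = v then 1 else 0) - (if tgt e = v then 1 else 0)) ∧ t = ∑ x, f x ^ 2})
    ⟨_, fun x => if x = e then 1 else 0, fun v => by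
      simp [Finset.sum_ite_eq', mem_filter], rfl⟩ hδ
  refine ⟨f, fun y => ?_, h2.le⟩
  have a : ∀ g : E → V, ∑ x, f x * y (g x) = ∑ v, y v * ∑ x with g x = v, f x := fun g => by
    rw [← Finset.sum_fiberwise univ g]
    refine Finset.sum_congr rfl fun v _ => ?_
    rw [Finset.mul_sum]
    exact Finset.sum_congr rfl fun x hx => by rw [(mem_filter.1 hx).2, mul_comm]
  simp only [mul_sub, Finset.sum_sub_distrib, a]
  rw [← Finset.sum_sub_distrib]
  simp only [← mul_sub, h1]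
  simp [mul_sub, Finset.sum_sub_distrib]

theorem short_main : ∃ (g : ℕ) (η : ℝ), 0 < η ∧ ∀ (V E : Type) [Fintype V] [Fintype E]
    [DecidableEq V] [DecidableEq E] (src tgt : E → V), (∀ v, degIn src tgt univ v = 3) →
    (∀ X : Finset V, HasCycleIn src tgt X → g ≤ #X) →
    (∀ v, ∑ e with src e = v, effRes src tgt e + ∑ e with tgt e = v, effRes src tgt e ≤ 2 + η) →
    ∀ F : Finset E, (∀ v, degIn src tgt F v = 2) →
    ∃ φ₂ φ₄ : E → ℤ, IsKFlow src tgt 2 φ₂ ∧ IsKFlow src tgt 4 φ₄ ∧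
      (∀ e, φ₂ e = 0 → 2 ≤ |φ₄ e|) ∧ ∀ e, φ₂ e ≠ 0 ↔ e ∈ F := by
  obtain ⟨c, η, hη, hcore⟩ := sr_core
  refine ⟨c + 2, η / 2, by linarith, ?_⟩
  intro V E _ _ _ _ src tgt hcubic hg hres F hF
  classical
  have hF' : ∀ v, dg src tgt F v = 2 := hF
  have hM : ∀ v, dg src tgt Fᶜ v = 1 := fun v => by
    have h1 := dg_compl src tgt F v
    have h2 : dg src tgt univ v = 3 := hcubic v
    have h3 := hF' v
    omega
  obtain ⟨π, out, o1, o2, o3, o4⟩ := exists_succ src tgt F hF'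
  obtain ⟨μ, mt, m1, m2, m3, m4, m5⟩ := exists_mate src tgt Fᶜ hM
  have hf : ∀ X : Finset V, #{e ∈ F | ¬ (src e ∈ X ↔ tgt e ∈ X)} = fc π X := fun X => by
    symm
    refine card_bij (fun v _ => out v) (fun v hv => ?_) (fun u _ v _ e => o2 e) (fun e he => ?_)
    · have := (mem_filter.1 hv).2
      refine mem_filter.2 ⟨o1 v, ?_⟩
      rcases o4 v with ⟨a, b⟩ | ⟨a, b⟩ <;> rw [a, b]
      · exact this
      · exact fun e => this e.symm
    · obtain ⟨v, rfl⟩ := o3 e (mem_filter.1 he).1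
      have := (mem_filter.1 he).2
      refine ⟨v, mem_filter.2 ⟨mem_univ _, ?_⟩, rfl⟩
      rcases o4 v with ⟨a, b⟩ | ⟨a, b⟩ <;> rw [a, b] at this
      · exact this
      · exact fun e => this e.symm
  have hm : ∀ X : Finset V, #{e ∈ Fᶜ | ¬ (src e ∈ X ↔ tgt e ∈ X)} = mc μ X := fun X => by
    symm
    refine card_bij (fun v _ => mt v) (fun v hv => ?_) (fun u hu v hv e => ?_) (fun e he => ?_)
    · have := mem_filter.1 hv
      refine mem_filter.2 ⟨m3 v, ?_⟩
      rcases m5 v with ⟨a, b⟩ | ⟨a, b⟩ <;> rw [a, b]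
      · exact fun e => this.2 (e.1 this.1)
      · exact fun e => this.2 (e.2 this.1)
    · have hu' := mem_filter.1 hu
      have hv' := mem_filter.1 hv
      rcases m5 u with ⟨a, b⟩ | ⟨a, b⟩ <;> rcases m5 v with ⟨a', b'⟩ | ⟨a', b'⟩ <;>
        rw [e] at a b
      · rw [← a, a']
      · exact absurd (by rw [← b', a]; exact hu'.1) hv'.2
      · exact absurd (by rw [← b', a]; exact hu'.1) hv'.2
      · rw [← a, a']
    · obtain ⟨h1, h2⟩ := mem_filter.1 he
      obtain ⟨a, b, d⟩ := m4 e h1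
      by_cases hs : src e ∈ X
      · exact ⟨src e, mem_filter.2 ⟨hs, by rw [d]; exact fun h => h2 (iff_of_true hs h)⟩, a⟩
      · exact ⟨tgt e, mem_filter.2 ⟨by_contra fun h => h2 (iff_of_false hs h),
          by rw [← d, m1]; exact hs⟩, b⟩
  have hd : ∀ X : Finset V, #{e | ¬ (src e ∈ X ↔ tgt e ∈ X)} = fc π X + mc μ X := fun X => by
    rw [← hf, ← hm, ← card_union_of_disjoint, ← filter_union, union_compl]
    exact Finset.disjoint_left.2 fun e h1 h2 => mem_compl.1 (mem_filter.1 h2).1 (mem_filter.1 h1).1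
  have hsmall : ∀ X : Finset V, X.Nonempty → #X < c + 2 → #X + 2 ≤ fc π X + mc μ X :=
    fun X h1 h2 => by
      rw [← hd]
      exact sparse src tgt hcubic X h1 fun h => by have := hg X h; omega
  have hlen : ∀ v (t : ℤ), t ≠ 0 → |t| < c + 2 → (π ^ t) v ≠ v := by
    intro v t ht htc e
    have a : IsPeriodicPt π t.natAbs v := by
      rw [IsPeriodicPt, IsFixedPt, ← Equiv.Perm.coe_pow, ← zpow_natCast]
      rcases Int.natAbs_eq t with h | h
      · rw [← h, e]
      · apply (π ^ t).injective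
        rw [zp_add, e, show t + (t.natAbs : ℤ) = 0 by omega]; rfl
    have b := a.minimalPeriod_le (by omega)
    let O : Finset V := {u | π.SameCycle v u}
    have d : #O ≤ minimalPeriod π v := by
      refine le_trans (card_le_card (t := (range (minimalPeriod π v)).image fun t => π^[t] v)
        fun u hu => ?_) (card_image_le.trans (card_range _).le)
      obtain ⟨t, h1, h2⟩ := exists_iter (mem_filter.1 hu).2
      exact mem_image.2 ⟨t, mem_range.2 h1, h2⟩
    rw [Int.abs_eq_natAbs] at htc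
    have a3 := hsmall O ⟨v, mem_filter.2 ⟨mem_univ _, Equiv.Perm.SameCycle.refl _ _⟩⟩ (by omega)
    have a4 : fc π O = 0 := by
      rw [fc, card_eq_zero, filter_eq_empty_iff]
      intro u _
      simp only [O, mem_filter, mem_univ, true_and, not_not, Equiv.Perm.sameCycle_apply_right]
    have a5 : mc μ O ≤ #O := card_filter_le _ _
    omega
  have H : Hy π μ c :=
    ⟨m1, m2, fun v t h1 h2 => hlen v t h1 (by omega), fun h1 h2 => hsmall _ h1 (by omega)⟩
  have hne : ∀ v, π v ≠ v := fun v => by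
    simpa using hlen v 1 one_ne_zero (by simp; omega)
  let ed : V → Fin 3 → E := fun v => ![out v, out (π.symm v), mt v]
  have hed : ∀ v l, (src (ed v l) = v ∧ tgt (ed v l) = Lt π μ l v) ∨
      (tgt (ed v l) = v ∧ src (ed v l) = Lt π μ l v) := by
    intro v l
    fin_cases l
    · exact o4 v
    · have := o4 (π.symm v)
      rw [Equiv.apply_symm_apply] at this
      exact this.symm.imp And.symm And.symm
    · exact m5 v
  have hloop : ∀ e, src e ≠ tgt e := fun e h => by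
    by_cases he : e ∈ F
    · obtain ⟨v, rfl⟩ := o3 e he
      rcases o4 v with ⟨a, b⟩ | ⟨a, b⟩
      · exact hne v (by rw [← b, ← h, a])
      · exact hne v (by rw [← b, h, a])
    · exact m2 (src e) (by rw [(m4 e (mem_compl.2 he)).2.2, h])
  have hloc : ∀ v (φ : E → ℝ), ∑ e with src e = v, φ e + ∑ e with tgt e = v, φ e =
      ∑ l, φ (ed v l) := by
    intro v φ
    have d1 : Disjoint ({e | src e = v} : Finset E) ({e | tgt e = v} : Finset E) :=
      Finset.disjoint_left.2 fun e h1 h2 =>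
        hloop e ((mem_filter.1 h1).2.trans (mem_filter.1 h2).2.symm)
    have d2 : Injective (ed v) := by
      have n1 : out v ≠ out (π.symm v) := fun e =>
        hne v (by have := o2 e; rw [Equiv.eq_symm_apply] at this; exact this)
      have n2 : ∀ u, out u ≠ mt v := fun u e => mem_compl.1 (m3 v) (e ▸ o1 u)
      intro l l' e
      fin_cases l <;> fin_cases l' <;>
        simp only [ed, Fin.zero_eta, Fin.mk_one, Fin.reduceFinMk, Matrix.cons_val] at e ⊢ <;>
        first | rfl | exact absurd e n1 | exact absurd e.symm n1 | exact absurd e (n2 _)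
              | exact absurd e.symm (n2 _)
    have d3 : univ.image (ed v) =
        ({e | src e = v} : Finset E) ∪ ({e | tgt e = v} : Finset E) := by
      refine eq_of_subset_of_card_le (fun e he => ?_) ?_
      · obtain ⟨l, -, rfl⟩ := mem_image.1 he
        rcases hed v l with h | h
        · exact mem_union_left _ (mem_filter.2 ⟨mem_univ _, h.1⟩)
        · exact mem_union_right _ (mem_filter.2 ⟨mem_univ _, h.1⟩)
      · rw [card_image_of_injective _ d2, card_union_of_disjoint d1]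
        exact (hcubic v).le
    rw [← Finset.sum_union d1, ← d3, Finset.sum_image fun a _ b _ h => d2 h]
  let G : (V → ℝ) →ₗ[ℝ] E → ℝ := LinearMap.pi fun e =>
    (LinearMap.proj (src e) : (V → ℝ) →ₗ[ℝ] ℝ) - (LinearMap.proj (tgt e) : (V → ℝ) →ₗ[ℝ] ℝ)
  have hG : ∀ y e, G y e = y (src e) - y (tgt e) := fun y e => rfl
  have hgrad : IsGrad π μ G := by
    intro y y'
    have a : ∀ v, Lap π μ y' v = ∑ e with src e = v, (y' (src e) - y' (tgt e)) +
        ∑ e with tgt e = v, (y' (tgt e) - y' (src e)) := fun v => by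
      have := hloc v fun e => 2 * y' v - y' (src e) - y' (tgt e)
      rw [Finset.sum_congr rfl (g := fun e => y' (src e) - y' (tgt e)) fun e he => by
          rw [(mem_filter.1 he).2]; ring,
        Finset.sum_congr (s₂ := univ.filter fun e => tgt e = v) rfl (g := fun e => y' (tgt e) - y' (src e))
          fun e he => by rw [(mem_filter.1 he).2]; ring] at this
      rw [this]
      refine Finset.sum_congr rfl fun l _ => ?_
      rcases hed v l with ⟨p, q⟩ | ⟨p, q⟩ <;> rw [p, q] <;> ring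
    have b : ∀ (g : E → V) (φ : E → ℝ), ∑ v, y v * ∑ x with g x = v, φ x = ∑ x, y (g x) * φ x :=
      fun g φ => by
        rw [← Finset.sum_fiberwise univ g]
        refine Finset.sum_congr rfl fun v _ => ?_
        rw [Finset.mul_sum]
        exact Finset.sum_congr rfl fun x hx => by rw [(mem_filter.1 hx).2]
    simp only [a, mul_add, Finset.sum_add_distrib, b, hG]
    rw [← Finset.sum_add_distrib]
    exact Finset.sum_congr rfl fun e _ => by ring
  have hshort : Short π μ G η := by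
    intro u
    have a : ∀ l, ∃ f : E → ℝ, (∀ y, ∑ k, f k * G y k = y u - y (Lt π μ l u)) ∧
        ∑ k, f k ^ 2 ≤ effRes src tgt (ed u l) + η / 6 := fun l => by
      obtain ⟨f, f1, f2⟩ := exists_unit_flow src tgt (ed u l) (show 0 < η / 6 by linarith)
      rcases hed u l with ⟨p, q⟩ | ⟨p, q⟩
      · exact ⟨f, fun y => by simp only [hG, f1, p, q], f2⟩
      · refine ⟨fun k => - f k, fun y => ?_, by simpa using f2⟩
        simp only [hG, neg_mul, Finset.sum_neg_distrib, f1, p, q]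
        ring
    choose f f1 f2 using a
    refine ⟨f, f1, ?_⟩
    have b := Finset.sum_le_sum fun l (_ : l ∈ univ) => f2 l
    have d := hres u
    rw [hloc] at d
    rw [Finset.sum_add_distrib, Finset.sum_const, card_univ, Fintype.card_fin, nsmul_eq_mul] at b
    push_cast at b
    linarith
  obtain ⟨σ, s1, s2, s3⟩ := hcore V E π μ G H hgrad hshort
  obtain ⟨φ₂, a1, a0, ab⟩ := exists_orientation src tgt F
  let l : E → ℤ := fun e => if e ∈ F then -3 else if σ (tgt e) = 1 then 2 else -3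
  let u : E → ℤ := fun e => if e ∈ F then 3 else if σ (tgt e) = 1 then 3 else -2
  have hσ : ∀ e, e ∉ F → σ (src e) = - σ (tgt e) := fun e he => by
    rw [← (m4 e (mem_compl.2 he)).2.2, s2, neg_neg]
  obtain ⟨φ₄, b1, b2⟩ := hoffman' src tgt (fun _ => 0) (by simp) l u
    (fun e => by simp only [l, u]; split_ifs <;> omega) (fun X => by
      simp only [Finset.sum_const_zero]
      have e1 : ∑ v ∈ X, σ v = ∑ e, if e ∈ F then 0 else
          ((if src e ∈ X then σ (src e) else 0) + (if tgt e ∈ X then σ (tgt e) else 0)) := by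
        have q : ∀ v, σ v = ∑ e, ((if src e = v then (if e ∈ Fᶜ then σ v else 0) else 0) +
            (if tgt e = v then (if e ∈ Fᶜ then σ v else 0) else 0)) := fun v => by
          have := dg_eq src tgt Fᶜ v
          rw [hM] at this
          rw [← mul_one (σ v)]
          nth_rewrite 1 [show (1 : ℤ) = ((1 : ℕ) : ℤ) from rfl, this]
          rw [Finset.mul_sum]
          refine Finset.sum_congr rfl fun e _ => ?_
          split_ifs <;> ring
        rw [Finset.sum_congr rfl fun v _ => q v, Finset.sum_comm]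
        refine Finset.sum_congr rfl fun e _ => ?_
        rw [Finset.sum_add_distrib, Finset.sum_ite_eq, Finset.sum_ite_eq]
        by_cases he : e ∈ F <;> simp [he]
      have e2 : 2 * capOut src tgt l u X + 5 * ∑ v ∈ X, σ v =
          (#{e ∈ Fᶜ | ¬ (src e ∈ X ↔ tgt e ∈ X)} : ℤ) +
            6 * #{e ∈ F | ¬ (src e ∈ X ↔ tgt e ∈ X)} := by
        rw [e1, card_filter, card_filter]
        push_cast
        rw [← Finset.sum_ite_mem_eq F, ← Finset.sum_ite_mem_eq Fᶜ]
        unfold capOut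
        rw [Finset.mul_sum, Finset.mul_sum, Finset.mul_sum, ← Finset.sum_add_distrib,
          ← Finset.sum_add_distrib]
        refine Finset.sum_congr rfl fun e _ => ?_
        by_cases c3 : e ∈ F
        · by_cases c1 : src e ∈ X <;> by_cases c2 : tgt e ∈ X <;> simp [l, u, c1, c2, c3]
        · have q1 := hσ e c3
          rcases s1 (tgt e) with c4 | c4 <;> by_cases c1 : src e ∈ X <;>
            by_cases c2 : tgt e ∈ X <;> simp [l, u, c1, c2, c3, c4, q1]
      rw [hf, hm] at e2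
      have e3 := s3 X
      push_cast at e3
      omega)
  have hs : ∀ e, φ₂ e ≠ 0 ↔ e ∈ F := fun e => by
    by_cases he : e ∈ F
    · have := a1 e he
      simp only [he, iff_true]; omega
    · simp [he, a0 e he]
  refine ⟨φ₂, φ₄, kflow_of_bdry _ _ _ _ (fun e => ?_) fun v => (ab v).2 (by rw [hF' v]; decide),
    kflow_of_bdry _ _ _ _ (fun e => ?_) b2, fun e he => ?_, hs⟩
  · by_cases he : e ∈ F
    · rcases a1 e he with h | h <;> simp [h]
    · simp [a0 e he]
  · have := b1 e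
    simp only [l, u] at this
    rw [abs_le]
    split_ifs at this <;> omega
  · have he' : e ∉ F := fun h => (hs e).2 h he
    have := b1 e
    simp only [l, u, he', if_false] at this
    rw [le_abs]
    split_ifs at this <;> omega

end Pool.Agent.P.MP_e59a69_co
end
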